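import Pool.Agent.Lib.MP_084b88_gt.AY.Spec
import Pool.Agent.Lib.MP_084b88_gt.SY.CQL

/-!
# MP_084b88_gt, project AY, module ACV: approximation of general support functions
-/

set_option autoImplicit false

open MeasureTheory Set Real Filter Topology
open scoped Pointwise InnerProductSpace

namespace Pool.Agent.Lib.MP_084b88_gt.AY

open Pool.Agent.Lib.MP_084b88_gt.CW Pool.Agent.Lib.MP_084b88_gt.SY

namespace ACVM

/-- a continuous `π`-periodic function attains its infimum and supremum -/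
theorem ext {f : ℝ → ℝ} (hc : Continuous f) (hper : ∀ θ, f (θ + π) = f θ) :
    (∃ x, f x = ⨅ s : ℝ, f s) ∧ (∀ θ, (⨅ s : ℝ, f s) ≤ f θ) ∧ (∀ θ, f θ ≤ ⨆ s : ℝ, f s) := by
  have hP : Function.Periodic f π := hper
  have hne : (Icc (0 : ℝ) π).Nonempty := ⟨0, left_mem_Icc.2 Real.pi_pos.le⟩
  obtain ⟨x, -, hx⟩ := isCompact_Icc.exists_isMinOn hne hc.continuousOn
  obtain ⟨y, -, hy⟩ := isCompact_Icc.exists_isMaxOn hne hc.continuousOn
  have h1 : ∀ θ, f x ≤ f θ := fun θ => by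
    obtain ⟨z, hz, hz2⟩ := hP.exists_mem_Ico₀ Real.pi_pos θ
    rw [hz2]
    exact hx ⟨hz.1, hz.2.le⟩
  have h2 : ∀ θ, f θ ≤ f y := fun θ => by
    obtain ⟨z, hz, hz2⟩ := hP.exists_mem_Ico₀ Real.pi_pos θ
    rw [hz2]
    exact hy ⟨hz.1, hz.2.le⟩
  have b1 : BddBelow (range f) := ⟨f x, by rintro _ ⟨s, rfl⟩; exact h1 s⟩
  have b2 : BddAbove (range f) := ⟨f y, by rintro _ ⟨s, rfl⟩; exact h2 s⟩
  exact ⟨⟨x, le_antisymm (le_ciInf h1) (ciInf_le b1 x)⟩, fun θ => ciInf_le b1 θ,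
    fun θ => le_ciSup b2 θ⟩

theorem dec (k : ℝ → ℝ) (t : ℝ) : Bh k t + gh k t = k t := by
  unfold Bh gh
  ring

theorem cont_Bh {k : ℝ → ℝ} (hk : Continuous k) : Continuous (Bh k) := by
  unfold Bh
  fun_prop

theorem cont_gh {k : ℝ → ℝ} (hk : Continuous k) : Continuous (gh k) := by
  unfold gh
  fun_prop

/-- the density is a continuous function of `t` -/
theorem F_cont {F : ℝ → ℝ → ℝ → ℝ}
    (hF : ContinuousOn (fun x : ℝ × ℝ × ℝ => F x.1 x.2.1 x.2.2) {x | 0 < x.2.1})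
    {k : ℝ → ℝ} (hk : Continuous k) (hpos : ∀ t, 0 < Bh k t) :
    Continuous (fun t => F t (Bh k t) (gh k t)) := by
  have h1 : Continuous (fun t : ℝ => (t, Bh k t, gh k t)) :=
    continuous_id.prodMk ((cont_Bh hk).prodMk (cont_gh hk))
  exact hF.comp_continuous h1 fun t => hpos t

theorem isOpen_pos : IsOpen {x : ℝ × ℝ × ℝ | 0 < x.2.1} :=
  isOpen_lt continuous_const (continuous_fst.comp continuous_snd)

/-- pointwise convergence of the densities -/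
theorem F_lim {F : ℝ → ℝ → ℝ → ℝ}
    (hF : ContinuousOn (fun x : ℝ × ℝ × ℝ => F x.1 x.2.1 x.2.2) {x | 0 < x.2.1})
    {h : ℝ → ℝ} {hn : ℕ → ℝ → ℝ} {t : ℝ} (hpos : 0 < Bh h t)
    (hB : Tendsto (fun n => Bh (hn n) t) atTop (𝓝 (Bh h t)))
    (hg : Tendsto (fun n => gh (hn n) t) atTop (𝓝 (gh h t))) :
    Tendsto (fun n => F t (Bh (hn n) t) (gh (hn n) t)) atTop (𝓝 (F t (Bh h t) (gh h t))) := by
  have h1 : Tendsto (fun n => (t, Bh (hn n) t, gh (hn n) t)) atTop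
      (𝓝 ((t, Bh h t, gh h t) : ℝ × ℝ × ℝ)) :=
    tendsto_const_nhds.prodMk_nhds (hB.prodMk_nhds hg)
  have h2 : ContinuousAt (fun x : ℝ × ℝ × ℝ => F x.1 x.2.1 x.2.2)
      ((t, Bh h t, gh h t) : ℝ × ℝ × ℝ) := hF.continuousAt (isOpen_pos.mem_nhds hpos)
  exact h2.tendsto.comp h1

/-- uniform bound of the densities -/
theorem F_bd {F : ℝ → ℝ → ℝ → ℝ}
    (hF : ContinuousOn (fun x : ℝ × ℝ × ℝ => F x.1 x.2.1 x.2.2) {x | 0 < x.2.1})
    {m Mx S : ℝ} (hm : 0 < m) : ∃ K : ℝ, 0 ≤ K ∧ ∀ t ∈ Icc (0 : ℝ) (2 * π), ∀ B ∈ Icc m Mx,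
      ∀ g ∈ Icc (-S) S, |F t B g| ≤ K := by
  have hcp : IsCompact (Icc (0 : ℝ) (2 * π) ×ˢ (Icc m Mx ×ˢ Icc (-S) S)) :=
    isCompact_Icc.prod (isCompact_Icc.prod isCompact_Icc)
  obtain ⟨K, hK⟩ := hcp.exists_bound_of_continuousOn (hF.mono fun x hx => hm.trans_le hx.2.1.1)
  refine ⟨|K|, abs_nonneg _, fun t ht B hB g hg => ?_⟩
  have := hK (t, B, g) ⟨ht, hB, hg⟩
  rw [Real.norm_eq_abs] at this
  exact this.trans (le_abs_self K)

/-- bounded convergence on `[0,2π]` -/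
theorem bct' {F : ℕ → ℝ → ℝ} {f : ℝ → ℝ} {C : ℝ} (hm : ∀ n, Measurable (F n))
    (hb : ∀ n, ∀ t ∈ Icc (0 : ℝ) (2 * π), |F n t| ≤ C)
    (hl : ∀ t, Tendsto (fun n => F n t) atTop (𝓝 (f t))) :
    Tendsto (fun n => ∫ t in (0 : ℝ)..(2 * π), F n t) atTop (𝓝 (∫ t in (0 : ℝ)..(2 * π), f t)) := by
  refine intervalIntegral.tendsto_integral_filter_of_dominated_convergence (fun _ => C)
    ?_ ?_ ?_ ?_
  · exact Eventually.of_forall fun n => (hm n).aestronglyMeasurable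
  · refine Eventually.of_forall fun n => Eventually.of_forall fun t ht => ?_
    rw [Real.norm_eq_abs]
    rw [uIoc_of_le (by positivity)] at ht
    exact hb n t ⟨ht.1.le, ht.2⟩
  · exact intervalIntegrable_const
  · exact Eventually.of_forall fun t _ => hl t

end ACVM

open ACVM CQLM GLMM in
theorem specACV (hGAP : SpecGAP) (hGCV : SpecGCV) (hGAG : SpecGAG) (hHPB : SpecHPB) :
    SpecACV := by
  intro h Λ hΛ hlip hper hBpos hcl
  have hpi := Real.pi_pos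
  have hhc : Continuous h := by
    have : LipschitzWith (Real.toNNReal Λ) h := LipschitzWith.of_dist_le_mul fun x y => by
      rw [Real.dist_eq, Real.dist_eq, Real.coe_toNNReal Λ hΛ]
      exact hlip x y
    exact this.continuous
  have hBper : ∀ θ, Bh h (θ + π) = Bh h θ := by
    intro θ
    unfold Bh
    rw [show θ + π + π = θ + 2 * π by ring, hper]
    ring
  have hgper : ∀ θ, |gh h (θ + π)| = |gh h θ| := by
    intro θ
    unfold gh
    rw [show θ + π + π = θ + 2 * π by ring, hper, ← abs_neg]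
    congr 1
    ring
  obtain ⟨⟨x0, hx0⟩, hmh, hMh⟩ := ext (cont_Bh hhc) hBper
  obtain ⟨-, -, hSh⟩ := ext (cont_gh hhc).abs hgper
  obtain ⟨m, hmdef⟩ : ∃ m : ℝ, m = ⨅ s : ℝ, Bh h s := ⟨_, rfl⟩
  obtain ⟨Mx, hMdef⟩ : ∃ Mx : ℝ, Mx = ⨆ s : ℝ, Bh h s := ⟨_, rfl⟩
  obtain ⟨S, hSdef⟩ : ∃ S : ℝ, S = ⨆ s : ℝ, |gh h s| := ⟨_, rfl⟩
  simp only [← hmdef, ← hMdef, ← hSdef] at hx0 hmh hMh hSh ⊢
  have hm : 0 < m := by rw [← hx0]; exact hBpos x0
  have hmM : m ≤ Mx := (hmh 0).trans (hMh 0)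
  have hS0 : 0 ≤ S := (abs_nonneg _).trans (hSh 0)
  have hMx0 : 0 < Mx := hm.trans_le hmM
  obtain ⟨b, hbdef⟩ : ∃ b : ℝ, b = (Mx + m) / 2 := ⟨_, rfl⟩
  obtain ⟨δ, hδdef⟩ : ∃ δ : ℝ, δ = (Mx - m) / (Mx + m) := ⟨_, rfl⟩
  obtain ⟨σ, hσdef⟩ : ∃ σ : ℝ, σ = S / b := ⟨_, rfl⟩
  have hb : 0 < b := by rw [hbdef]; linarith
  have hδ : 0 ≤ δ := by
    rw [hδdef]
    exact div_nonneg (by linarith) (by linarith)
  have hδ1 : δ < 1 := by
    rw [hδdef, div_lt_one (by linarith)]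
    linarith
  have hδb : δ * b = (Mx - m) / 2 := by
    have : Mx + m ≠ 0 := by linarith
    rw [hδdef, hbdef]
    field_simp
  have hσ : 0 ≤ σ := by
    rw [hσdef]
    positivity
  have hσb : σ * b = S := by
    rw [hσdef]
    field_simp
  have hBh : ∀ t, |Bh h t - b| ≤ δ * b := by
    intro t
    rw [hδb, hbdef, abs_le]
    constructor <;> linarith [hmh t, hMh t]
  have hgh : ∀ t, |gh h t| ≤ σ * b := by
    intro t
    rw [hσb]
    exact hSh t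
  -- approximation
  have happ : ∀ n : ℕ, ∃ (M : ℕ) (c : ℕ → ℂ), RP M c ∧
      (∀ θ, |hp M c θ - h θ| ≤ 1 / ((n : ℝ) + 1)) ∧
      (∀ θ, |hp M (dk c) θ| ≤ Λ) ∧ (∀ t, |Bh (hp M c) t - b| ≤ δ * b) ∧
      (∀ t, |gh (hp M c) t| ≤ σ * b) := by
    intro n
    exact hGAP h Λ b δ σ hΛ hb hδ hδ1 hσ hlip hper hcl hBh hgh (1 / ((n : ℝ) + 1)) (by positivity)
  choose M c hRP hM1 hM2 hM3 hM4 using happ
  have hlow : ∀ n θ, m ≤ Bh (hp (M n) (c n)) θ := by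
    intro n θ
    have h1 := (abs_le.1 (hM3 n θ)).1
    rw [hδb, hbdef] at h1
    linarith
  have hup : ∀ n θ, Bh (hp (M n) (c n)) θ ≤ Mx := by
    intro n θ
    have h1 := (abs_le.1 (hM3 n θ)).2
    rw [hδb, hbdef] at h1
    linarith
  have hgn : ∀ n θ, |gh (hp (M n) (c n)) θ| ≤ S := by
    intro n θ
    rw [← hσb]
    exact hM4 n θ
  refine ⟨M, c, hRP, hM1, hM2, hlow, hup, hgn, ?_⟩
  intro F G hF hG
  have hlipn : ∀ n θ θ', |hp (M n) (c n) θ - hp (M n) (c n) θ'| ≤ Λ * |θ - θ'| := by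
    intro n θ θ'
    have hd := (hHPB (M n) (c n)).1
    have := Convex.norm_image_sub_le_of_norm_hasDerivWithin_le (s := Set.univ)
      (f := hp (M n) (c n)) (f' := fun t => hp (M n) (dk (c n)) t) (C := Λ)
      (fun x _ => (hd x).hasDerivWithinAt) (fun x _ => hM2 n x) convex_univ
      (Set.mem_univ θ') (Set.mem_univ θ)
    simpa [Real.norm_eq_abs] using this
  obtain ⟨Λ', hΛ'def⟩ : ∃ Λ' : ℝ, Λ' = Λ + (Mx + S) := ⟨_, rfl⟩
  have hΛ'0 : 0 ≤ Λ' := by rw [hΛ'def]; linarith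
  have hΛΛ' : Λ ≤ Λ' := by rw [hΛ'def]; linarith
  have hMΛ' : Mx + S ≤ Λ' := by rw [hΛ'def]; linarith
  have habs : ∀ k : ℝ → ℝ, (∀ θ, m ≤ Bh k θ) → (∀ θ, Bh k θ ≤ Mx) → (∀ θ, |gh k θ| ≤ S) →
      ∀ θ, |k θ| ≤ Mx + S := by
    intro k h1 h2 h3 θ
    rw [← dec k θ]
    refine (abs_add_le _ _).trans (add_le_add ?_ (h3 θ))
    rw [abs_of_pos (hm.trans_le (h1 θ))]
    exact h2 θ
  have hC0 : ∀ θ, |h θ| ≤ Λ' := fun θ => (habs h hmh hMh hSh θ).trans hMΛ'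
  have hCn0 : ∀ n θ, |hp (M n) (c n) θ| ≤ Mx + S := fun n =>
    habs _ (hlow n) (hup n) (hgn n)
  have hCn : ∀ n θ, |hp (M n) (c n) θ| ≤ Λ' := fun n θ => (hCn0 n θ).trans hMΛ'
  have hL0 : ∀ θ θ', |h θ - h θ'| ≤ Λ' * |θ - θ'| := fun θ θ' =>
    (hlip θ θ').trans (mul_le_mul_of_nonneg_right hΛΛ' (abs_nonneg _))
  have hLn : ∀ n θ θ', |hp (M n) (c n) θ - hp (M n) (c n) θ'| ≤ Λ' * |θ - θ'| := fun n θ θ' =>
    (hlipn n θ θ').trans (mul_le_mul_of_nonneg_right hΛΛ' (abs_nonneg _))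
  have hpern : ∀ n θ, hp (M n) (c n) (θ + 2 * π) = hp (M n) (c n) θ := fun n θ =>
    (hHPB (M n) (c n)).2.1 θ
  -- convergence
  have he : Tendsto (fun n : ℕ => 1 / ((n : ℝ) + 1)) atTop (𝓝 0) :=
    tendsto_one_div_add_atTop_nhds_zero_nat
  have hGh := hGCV h Λ' m hΛ'0 hm hper hL0 hC0 hmh
  have hconv : ∀ θ, ∀ τ ∈ Ioo (-1 : ℝ) 1,
      Tendsto (fun n => UB (hp (M n) (c n)) θ τ) atTop (𝓝 (UB h θ τ)) :=
    hGh.2.2 (fun n => hp (M n) (c n)) (fun n => 1 / ((n : ℝ) + 1)) hpern hLn hCn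
      hlow hM1 he
  have hmeas : ∀ n, Measurable (fun x : ℝ × ℝ => (Ioo (-1 : ℝ) 1).indicator
      (fun τ => UB (hp (M n) (c n)) x.1 τ) x.2) := fun n =>
    (hGCV (hp (M n) (c n)) Λ' m hΛ'0 hm (hpern n) (hLn n) (hCn n) (hlow n)).2.1
  have hmeash : Measurable (fun x : ℝ × ℝ => (Ioo (-1 : ℝ) 1).indicator
      (fun τ => UB h x.1 τ) x.2) := hGh.2.1
  have hUbd : ∀ n θ, ∀ τ ∈ Ioo (-1 : ℝ) 1, |UB (hp (M n) (c n)) θ τ| ≤ Λ' := by
    intro n θ τ hτ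
    refine ((hGAG (M n) (c n) (hRP n) θ).2.2.2.2.2 τ hτ).trans ?_
    have h1 : (⨆ t, |hp (M n) (c n) t|) ≤ Mx + S := ciSup_le fun t => hCn0 n t
    have h2 : (⨆ t, |hp (M n) (dk (c n)) t|) ≤ Λ := ciSup_le fun t => hM2 n t
    rw [hΛ'def]
    linarith
  have hpt : ∀ θ, Tendsto (fun n => hp (M n) (c n) θ) atTop (𝓝 (h θ)) := by
    intro θ
    rw [tendsto_iff_dist_tendsto_zero]
    refine squeeze_zero (fun n => dist_nonneg) (fun n => ?_) he
    rw [Real.dist_eq]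
    exact hM1 n θ
  have hBpt : ∀ θ, Tendsto (fun n => Bh (hp (M n) (c n)) θ) atTop (𝓝 (Bh h θ)) := by
    intro θ
    unfold Bh
    exact ((hpt θ).add (hpt (θ + π))).div_const 2
  have hgpt : ∀ θ, Tendsto (fun n => gh (hp (M n) (c n)) θ) atTop (𝓝 (gh h θ)) := by
    intro θ
    unfold gh
    exact ((hpt θ).sub (hpt (θ + π))).div_const 2
  have hcn : ∀ n, Continuous (hp (M n) (c n)) := fun n => (hHPB (M n) (c n)).2.2.1
  have hBm : ∀ n, Measurable (Bh (hp (M n) (c n))) := fun n => (cont_Bh (hcn n)).measurable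
  have hBmh : Measurable (Bh h) := (cont_Bh hhc).measurable
  have hBup : ∀ n t, |Bh (hp (M n) (c n)) t| ≤ Λ' := fun n t => by
    rw [abs_of_pos (hm.trans_le (hlow n t))]
    linarith [hup n t]
  -- the integrals `IG`
  obtain ⟨KG, hKG⟩ := (isCompact_Icc (a := (-1 : ℝ)) (b := 1)).exists_bound_of_continuousOn
    hG.continuousOn
  obtain ⟨D, hDdef⟩ : ∃ D : ℝ, D = 1 + |KG| := ⟨_, rfl⟩
  have hD : 0 < D := by rw [hDdef]; positivity
  obtain ⟨G', hG'⟩ : ∃ G' : ℝ → ℝ, G' = fun x => G x / D := ⟨_, rfl⟩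
  have hG'c : Continuous G' := by
    rw [hG']
    exact hG.div_const D
  have hG'b : ∀ τ ∈ Ioo (-1 : ℝ) 1, |G' τ| ≤ 1 := by
    intro τ hτ
    rw [hG']
    simp only
    rw [abs_div, abs_of_pos hD, div_le_one hD]
    have h1 := hKG τ ⟨hτ.1.le, hτ.2.le⟩
    rw [Real.norm_eq_abs] at h1
    rw [hDdef]
    linarith [le_abs_self KG]
  have hIGD : ∀ (k : ℝ → ℝ) (t : ℝ), IG G k t = D * IG G' k t := by
    intro k t
    rw [← IG_mul]
    congr 1
    funext x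
    rw [hG']
    field_simp
  have hIGl : ∀ t, Tendsto (fun n => IG G' (hp (M n) (c n)) t) atTop (𝓝 (IG G' h t)) :=
    IG_lim hG'c.measurable hG'b hmeas hUbd hBpt hconv
  have hIGb : ∀ n t, |IG G' (hp (M n) (c n)) t| ≤ Λ' * (2 * Λ' * 2) := fun n t =>
    IG_bd hG'b (hUbd n) (hBup n) t
  have hIGbh : ∀ t, |IG G' h t| ≤ Λ' * (2 * Λ' * 2) := fun t =>
    le_of_tendsto' ((hIGl t).abs) fun n => hIGb n t
  have hIGm : ∀ n, Measurable (IG G' (hp (M n) (c n))) := fun n =>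
    IG_meas hG'c.measurable (hBm n) (hmeas n)
  have hIGmh : Measurable (IG G' h) := IG_meas hG'c.measurable hBmh hmeash
  -- the densities
  have hFh : Continuous (fun t => F t (Bh h t) (gh h t)) := F_cont hF hhc hBpos
  have hFn : ∀ n, Continuous (fun t => F t (Bh (hp (M n) (c n)) t) (gh (hp (M n) (c n)) t)) :=
    fun n => F_cont hF (hcn n) fun t => hm.trans_le (hlow n t)
  have hFl : ∀ t, Tendsto (fun n => F t (Bh (hp (M n) (c n)) t) (gh (hp (M n) (c n)) t)) atTop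
      (𝓝 (F t (Bh h t) (gh h t))) := fun t =>
    F_lim (hn := fun n => hp (M n) (c n)) hF (hBpos t) (hBpt t) (hgpt t)
  obtain ⟨KF, hKF0, hKF⟩ := F_bd (Mx := Mx) (S := S) hF hm
  have hFb : ∀ n, ∀ t ∈ Icc (0 : ℝ) (2 * π),
      |F t (Bh (hp (M n) (c n)) t) (gh (hp (M n) (c n)) t)| ≤ KF := fun n t ht =>
    hKF t ht _ ⟨hlow n t, hup n t⟩ _ (abs_le.1 (hgn n t))
  refine ⟨?_, ?_, bct' (fun n => (hFn n).measurable) hFb hFl⟩
  · have h1 : IntervalIntegrable (IG G h) volume 0 (2 * π) := by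
      have h2 : IG G h = fun t => D * IG G' h t := funext fun t => hIGD h t
      rw [h2]
      refine ii_of_bd (C := D * (Λ' * (2 * Λ' * 2))) (hIGmh.const_mul _) fun t => ?_
      rw [abs_mul, abs_of_pos hD]
      exact mul_le_mul_of_nonneg_left (hIGbh t) hD.le
    exact h1.continuousOn_mul hFh.continuousOn
  · simp only [hIGD]
    refine bct' (C := KF * (D * (Λ' * (2 * Λ' * 2))))
      (fun n => (hFn n).measurable.mul ((hIGm n).const_mul _)) (fun n t ht => ?_)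
      fun t => (hFl t).mul ((hIGl t).const_mul _)
    rw [abs_mul, abs_mul, abs_of_pos hD]
    exact mul_le_mul (hFb n t ht) (mul_le_mul_of_nonneg_left (hIGb n t) hD.le)
      (by positivity) hKF0

end Pool.Agent.Lib.MP_084b88_gt.AY
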