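import Pool.Agent.Lib.MP_084b88_gt.AY.SpecR
import Pool.Agent.Lib.MP_084b88_gt.AY.ACV

/-!
# MP_084b88_gt, project AY, module AC2: approximation of general support functions, relative bound for `g` kept
-/

set_option autoImplicit false

open MeasureTheory Set Real Filter Topology
open scoped Pointwise InnerProductSpace

namespace Pool.Agent.Lib.MP_084b88_gt.AY

open Pool.Agent.Lib.MP_084b88_gt.CW Pool.Agent.Lib.MP_084b88_gt.SY

namespace AC2M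

open ACVM CQLM GLMM

/-- the limit argument of ACV for an arbitrary rate `e` -/
theorem lim (hGCV : SpecGCV) (hGAG : SpecGAG) (hHPB : SpecHPB) {h : ℝ → ℝ} {Λ m Mx S : ℝ}
    (hΛ : 0 ≤ Λ) (hlip : ∀ θ θ', |h θ - h θ'| ≤ Λ * |θ - θ'|) (hper : ∀ θ, h (θ + 2 * π) = h θ)
    (hhc : Continuous h) (hm : 0 < m) (hmM : m ≤ Mx) (hS0 : 0 ≤ S) (hmh : ∀ θ, m ≤ Bh h θ)
    (hMh : ∀ θ, Bh h θ ≤ Mx) (hSh : ∀ θ, |gh h θ| ≤ S) (M : ℕ → ℕ) (c : ℕ → ℕ → ℂ)
    (hRP : ∀ n, RP (M n) (c n)) (e : ℕ → ℝ) (he : Tendsto e atTop (𝓝 0))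
    (hM1 : ∀ n θ, |hp (M n) (c n) θ - h θ| ≤ e n) (hM2 : ∀ n θ, |hp (M n) (dk (c n)) θ| ≤ Λ)
    (hlow : ∀ n θ, m ≤ Bh (hp (M n) (c n)) θ) (hup : ∀ n θ, Bh (hp (M n) (c n)) θ ≤ Mx)
    (hgn : ∀ n θ, |gh (hp (M n) (c n)) θ| ≤ S) (F : ℝ → ℝ → ℝ → ℝ) (G : ℝ → ℝ)
    (hF : ContinuousOn (fun x : ℝ × ℝ × ℝ => F x.1 x.2.1 x.2.2) {x | 0 < x.2.1})
    (hG : Continuous G) :
    IntervalIntegrable (fun t => F t (Bh h t) (gh h t) * IG G h t) volume 0 (2 * π) ∧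
      Tendsto (fun n => ∫ t in (0 : ℝ)..(2 * π), F t (Bh (hp (M n) (c n)) t)
        (gh (hp (M n) (c n)) t) * IG G (hp (M n) (c n)) t) atTop
        (𝓝 (∫ t in (0 : ℝ)..(2 * π), F t (Bh h t) (gh h t) * IG G h t)) := by
  have hpi := Real.pi_pos
  have hBpos : ∀ θ, 0 < Bh h θ := fun θ => hm.trans_le (hmh θ)
  have hMx0 : 0 < Mx := hm.trans_le hmM
  have hlipn : ∀ n θ θ', |hp (M n) (c n) θ - hp (M n) (c n) θ'| ≤ Λ * |θ - θ'| := by
    intro n θ θ'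
    have hd := (hHPB (M n) (c n)).1
    have := Convex.norm_image_sub_le_of_norm_hasDerivWithin_le (s := Set.univ)
      (f := hp (M n) (c n)) (f' := fun t => hp (M n) (dk (c n)) t) (C := Λ)
      (fun x _ => (hd x).hasDerivWithinAt) (fun x _ => hM2 n x) convex_univ
      (Set.mem_univ θ') (Set.mem_univ θ)
    simpa [Real.norm_eq_abs] using this
  obtain ⟨Λ', hΛ'def⟩ : ∃ Λ' : ℝ, Λ' = Λ + (Mx + S) := ⟨_, rfl⟩
  have hΛ'0 : 0 ≤ Λ' := by rw [hΛ'def]; linarith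
  have hΛΛ' : Λ ≤ Λ' := by rw [hΛ'def]; linarith
  have hMΛ' : Mx + S ≤ Λ' := by rw [hΛ'def]; linarith
  have habs : ∀ k : ℝ → ℝ, (∀ θ, m ≤ Bh k θ) → (∀ θ, Bh k θ ≤ Mx) → (∀ θ, |gh k θ| ≤ S) →
      ∀ θ, |k θ| ≤ Mx + S := by
    intro k h1 h2 h3 θ
    rw [← dec k θ]
    refine (abs_add_le _ _).trans (add_le_add ?_ (h3 θ))
    rw [abs_of_pos (hm.trans_le (h1 θ))]
    exact h2 θ
  have hC0 : ∀ θ, |h θ| ≤ Λ' := fun θ => (habs h hmh hMh hSh θ).trans hMΛ'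
  have hCn0 : ∀ n θ, |hp (M n) (c n) θ| ≤ Mx + S := fun n =>
    habs _ (hlow n) (hup n) (hgn n)
  have hCn : ∀ n θ, |hp (M n) (c n) θ| ≤ Λ' := fun n θ => (hCn0 n θ).trans hMΛ'
  have hL0 : ∀ θ θ', |h θ - h θ'| ≤ Λ' * |θ - θ'| := fun θ θ' =>
    (hlip θ θ').trans (mul_le_mul_of_nonneg_right hΛΛ' (abs_nonneg _))
  have hLn : ∀ n θ θ', |hp (M n) (c n) θ - hp (M n) (c n) θ'| ≤ Λ' * |θ - θ'| := fun n θ θ' =>
    (hlipn n θ θ').trans (mul_le_mul_of_nonneg_right hΛΛ' (abs_nonneg _))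
  have hpern : ∀ n θ, hp (M n) (c n) (θ + 2 * π) = hp (M n) (c n) θ := fun n θ =>
    (hHPB (M n) (c n)).2.1 θ
  -- convergence
  have hGh := hGCV h Λ' m hΛ'0 hm hper hL0 hC0 hmh
  have hconv : ∀ θ, ∀ τ ∈ Ioo (-1 : ℝ) 1,
      Tendsto (fun n => UB (hp (M n) (c n)) θ τ) atTop (𝓝 (UB h θ τ)) :=
    hGh.2.2 (fun n => hp (M n) (c n)) e hpern hLn hCn hlow hM1 he
  have hmeas : ∀ n, Measurable (fun x : ℝ × ℝ => (Ioo (-1 : ℝ) 1).indicator
      (fun τ => UB (hp (M n) (c n)) x.1 τ) x.2) := fun n =>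
    (hGCV (hp (M n) (c n)) Λ' m hΛ'0 hm (hpern n) (hLn n) (hCn n) (hlow n)).2.1
  have hmeash : Measurable (fun x : ℝ × ℝ => (Ioo (-1 : ℝ) 1).indicator
      (fun τ => UB h x.1 τ) x.2) := hGh.2.1
  have hUbd : ∀ n θ, ∀ τ ∈ Ioo (-1 : ℝ) 1, |UB (hp (M n) (c n)) θ τ| ≤ Λ' := by
    intro n θ τ hτ
    refine ((hGAG (M n) (c n) (hRP n) θ).2.2.2.2.2 τ hτ).trans ?_
    have h1 : (⨆ t, |hp (M n) (c n) t|) ≤ Mx + S := ciSup_le fun t => hCn0 n t
    have h2 : (⨆ t, |hp (M n) (dk (c n)) t|) ≤ Λ := ciSup_le fun t => hM2 n t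
    rw [hΛ'def]
    linarith
  have hpt : ∀ θ, Tendsto (fun n => hp (M n) (c n) θ) atTop (𝓝 (h θ)) := by
    intro θ
    rw [tendsto_iff_dist_tendsto_zero]
    refine squeeze_zero (fun n => dist_nonneg) (fun n => ?_) he
    rw [Real.dist_eq]
    exact hM1 n θ
  have hBpt : ∀ θ, Tendsto (fun n => Bh (hp (M n) (c n)) θ) atTop (𝓝 (Bh h θ)) := by
    intro θ
    unfold Bh
    exact ((hpt θ).add (hpt (θ + π))).div_const 2
  have hgpt : ∀ θ, Tendsto (fun n => gh (hp (M n) (c n)) θ) atTop (𝓝 (gh h θ)) := by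
    intro θ
    unfold gh
    exact ((hpt θ).sub (hpt (θ + π))).div_const 2
  have hcn : ∀ n, Continuous (hp (M n) (c n)) := fun n => (hHPB (M n) (c n)).2.2.1
  have hBm : ∀ n, Measurable (Bh (hp (M n) (c n))) := fun n => (cont_Bh (hcn n)).measurable
  have hBmh : Measurable (Bh h) := (cont_Bh hhc).measurable
  have hBup : ∀ n t, |Bh (hp (M n) (c n)) t| ≤ Λ' := fun n t => by
    rw [abs_of_pos (hm.trans_le (hlow n t))]
    linarith [hup n t]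
  -- the integrals `IG`
  obtain ⟨KG, hKG⟩ := (isCompact_Icc (a := (-1 : ℝ)) (b := 1)).exists_bound_of_continuousOn
    hG.continuousOn
  obtain ⟨D, hDdef⟩ : ∃ D : ℝ, D = 1 + |KG| := ⟨_, rfl⟩
  have hD : 0 < D := by rw [hDdef]; positivity
  obtain ⟨G', hG'⟩ : ∃ G' : ℝ → ℝ, G' = fun x => G x / D := ⟨_, rfl⟩
  have hG'c : Continuous G' := by
    rw [hG']
    exact hG.div_const D
  have hG'b : ∀ τ ∈ Ioo (-1 : ℝ) 1, |G' τ| ≤ 1 := by
    intro τ hτ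
    rw [hG']
    simp only
    rw [abs_div, abs_of_pos hD, div_le_one hD]
    have h1 := hKG τ ⟨hτ.1.le, hτ.2.le⟩
    rw [Real.norm_eq_abs] at h1
    rw [hDdef]
    linarith [le_abs_self KG]
  have hIGD : ∀ (k : ℝ → ℝ) (t : ℝ), IG G k t = D * IG G' k t := by
    intro k t
    rw [← IG_mul]
    congr 1
    funext x
    rw [hG']
    field_simp
  have hIGl : ∀ t, Tendsto (fun n => IG G' (hp (M n) (c n)) t) atTop (𝓝 (IG G' h t)) :=
    IG_lim hG'c.measurable hG'b hmeas hUbd hBpt hconv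
  have hIGb : ∀ n t, |IG G' (hp (M n) (c n)) t| ≤ Λ' * (2 * Λ' * 2) := fun n t =>
    IG_bd hG'b (hUbd n) (hBup n) t
  have hIGbh : ∀ t, |IG G' h t| ≤ Λ' * (2 * Λ' * 2) := fun t =>
    le_of_tendsto' ((hIGl t).abs) fun n => hIGb n t
  have hIGm : ∀ n, Measurable (IG G' (hp (M n) (c n))) := fun n =>
    IG_meas hG'c.measurable (hBm n) (hmeas n)
  have hIGmh : Measurable (IG G' h) := IG_meas hG'c.measurable hBmh hmeash
  -- the densities
  have hFh : Continuous (fun t => F t (Bh h t) (gh h t)) := F_cont hF hhc hBpos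
  have hFn : ∀ n, Continuous (fun t => F t (Bh (hp (M n) (c n)) t) (gh (hp (M n) (c n)) t)) :=
    fun n => F_cont hF (hcn n) fun t => hm.trans_le (hlow n t)
  have hFl : ∀ t, Tendsto (fun n => F t (Bh (hp (M n) (c n)) t) (gh (hp (M n) (c n)) t)) atTop
      (𝓝 (F t (Bh h t) (gh h t))) := fun t =>
    F_lim (hn := fun n => hp (M n) (c n)) hF (hBpos t) (hBpt t) (hgpt t)
  obtain ⟨KF, hKF0, hKF⟩ := F_bd (Mx := Mx) (S := S) hF hm
  have hFb : ∀ n, ∀ t ∈ Icc (0 : ℝ) (2 * π),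
      |F t (Bh (hp (M n) (c n)) t) (gh (hp (M n) (c n)) t)| ≤ KF := fun n t ht =>
    hKF t ht _ ⟨hlow n t, hup n t⟩ _ (abs_le.1 (hgn n t))
  refine ⟨?_, ?_⟩
  · have h1 : IntervalIntegrable (IG G h) volume 0 (2 * π) := by
      have h2 : IG G h = fun t => D * IG G' h t := funext fun t => hIGD h t
      rw [h2]
      refine ii_of_bd (C := D * (Λ' * (2 * Λ' * 2))) (hIGmh.const_mul _) fun t => ?_
      rw [abs_mul, abs_of_pos hD]
      exact mul_le_mul_of_nonneg_left (hIGbh t) hD.le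
    exact h1.continuousOn_mul hFh.continuousOn
  · simp only [hIGD]
    refine bct' (C := KF * (D * (Λ' * (2 * Λ' * 2))))
      (fun n => (hFn n).measurable.mul ((hIGm n).const_mul _)) (fun n t ht => ?_)
      fun t => (hFl t).mul ((hIGl t).const_mul _)
    rw [abs_mul, abs_mul, abs_of_pos hD]
    exact mul_le_mul (hFb n t ht) (mul_le_mul_of_nonneg_left (hIGb n t) hD.le)
      (by positivity) hKF0

/-- damping of the odd modes -/
noncomputable def mix (ρ : ℝ) (c : ℕ → ℂ) (k : ℕ) : ℂ := evc c k + (ρ : ℂ) * odc c k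

theorem hp_mix (hHPB : SpecHPB) (ρ : ℝ) (M : ℕ) (c : ℕ → ℂ) (θ : ℝ) :
    hp M (mix ρ c) θ = Bh (hp M c) θ + ρ * gh (hp M c) θ := by
  have h1 := (hHPB M c).2.2.2.2.1 θ
  have h2 := (hHPB M c).2.2.2.2.2.1 θ
  rw [h1, h2]
  unfold hp mix
  simp only [add_mul, Finset.sum_add_distrib, Complex.add_re, mul_assoc]
  rw [← Finset.mul_sum, Complex.re_ofReal_mul]

theorem dk_mix (ρ : ℝ) (c : ℕ → ℂ) : dk (mix ρ c) = mix ρ (dk c) := by
  funext k
  unfold dk mix evc odc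
  split_ifs <;> ring

theorem mix_eq (ρ : ℝ) (k : ℝ → ℝ) (θ : ℝ) :
    Bh k θ + ρ * gh k θ = (1 + ρ) / 2 * k θ + (1 - ρ) / 2 * k (θ + π) := by
  unfold Bh gh
  ring

end AC2M

open ACVM AC2M in
theorem specAC2 (hACV : SpecACV) (hGCV : SpecGCV) (hGAG : SpecGAG) (hHPB : SpecHPB) :
    SpecAC2 := by
  intro h Λ Γ hΛ hΓ hlip hper hBpos hcl hΓh
  have hpi := Real.pi_pos
  have hhc : Continuous h := by
    have : LipschitzWith (Real.toNNReal Λ) h := LipschitzWith.of_dist_le_mul fun x y => by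
      rw [Real.dist_eq, Real.dist_eq, Real.coe_toNNReal Λ hΛ]
      exact hlip x y
    exact this.continuous
  have hBper : ∀ θ, Bh h (θ + π) = Bh h θ := by
    intro θ
    unfold Bh
    rw [show θ + π + π = θ + 2 * π by ring, hper]
    ring
  have hgper : ∀ θ, |gh h (θ + π)| = |gh h θ| := by
    intro θ
    unfold gh
    rw [show θ + π + π = θ + 2 * π by ring, hper, ← abs_neg]
    congr 1
    ring
  obtain ⟨⟨x0, hx0⟩, hmh, hMh⟩ := ext (cont_Bh hhc) hBper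
  obtain ⟨-, -, hSh⟩ := ext (cont_gh hhc).abs hgper
  obtain ⟨M, c, hRP, hM1, hM2, hlow, hup, hgn, -⟩ := hACV h Λ hΛ hlip hper hBpos hcl
  obtain ⟨m, hmdef⟩ : ∃ m : ℝ, m = ⨅ s : ℝ, Bh h s := ⟨_, rfl⟩
  obtain ⟨Mx, hMdef⟩ : ∃ Mx : ℝ, Mx = ⨆ s : ℝ, Bh h s := ⟨_, rfl⟩
  obtain ⟨S, hSdef⟩ : ∃ S : ℝ, S = ⨆ s : ℝ, |gh h s| := ⟨_, rfl⟩
  simp only [← hmdef, ← hMdef, ← hSdef] at hx0 hmh hMh hSh hlow hup hgn ⊢
  have hm : 0 < m := by rw [← hx0]; exact hBpos x0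
  have hmM : m ≤ Mx := (hmh 0).trans (hMh 0)
  have hS0 : 0 ≤ S := (abs_nonneg _).trans (hSh 0)
  -- the damping factor
  obtain ⟨δ, hδ⟩ : ∃ δ : ℕ → ℝ, ∀ n, δ n = 1 / ((n : ℝ) + 1) := ⟨_, fun n => rfl⟩
  have hδ0 : ∀ n, 0 < δ n := fun n => by rw [hδ]; positivity
  obtain ⟨ρ, hρ⟩ : ∃ ρ : ℕ → ℝ, ∀ n, ρ n = Γ / (Γ + (Γ + 1) * δ n / m) := ⟨_, fun n => rfl⟩
  have hden : ∀ n, 0 < Γ + (Γ + 1) * δ n / m := fun n => by
    have := hδ0 n
    positivity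
  have hρ0 : ∀ n, 0 < ρ n := fun n => by
    rw [hρ]
    exact div_pos hΓ (hden n)
  have hρ1 : ∀ n, ρ n ≤ 1 := fun n => by
    rw [hρ, div_le_one (hden n)]
    have := hδ0 n
    have : 0 < (Γ + 1) * δ n / m := by positivity
    linarith
  have hper2 : ∀ n θ, hp (M n) (c n) (θ + 2 * π) = hp (M n) (c n) θ := fun n θ =>
    (hHPB (M n) (c n)).2.1 θ
  obtain ⟨c', hc'⟩ : ∃ c' : ℕ → ℕ → ℂ, ∀ n, c' n = mix (ρ n) (c n) := ⟨_, fun n => rfl⟩
  have hk : ∀ n θ, hp (M n) (c' n) θ =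
      Bh (hp (M n) (c n)) θ + ρ n * gh (hp (M n) (c n)) θ := fun n θ => by
    rw [hc']
    exact hp_mix hHPB _ _ _ _
  have hBk : ∀ n θ, Bh (hp (M n) (c' n)) θ = Bh (hp (M n) (c n)) θ := by
    intro n θ
    have e1 := hk n θ
    have e2 := hk n (θ + π)
    have e3 := hper2 n θ
    have e4 : θ + π + π = θ + 2 * π := by ring
    unfold Bh gh at e1 e2
    unfold Bh
    rw [e4, e3] at e2
    rw [e1, e2]
    ring
  have hgk : ∀ n θ, gh (hp (M n) (c' n)) θ = ρ n * gh (hp (M n) (c n)) θ := by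
    intro n θ
    have e1 := hk n θ
    have e2 := hk n (θ + π)
    have e3 := hper2 n θ
    have e4 : θ + π + π = θ + 2 * π := by ring
    unfold Bh gh at e1 e2
    unfold gh
    rw [e4, e3] at e2
    rw [e1, e2]
    ring
  have hlow' : ∀ n θ, m ≤ Bh (hp (M n) (c' n)) θ := fun n θ => by rw [hBk]; exact hlow n θ
  have hup' : ∀ n θ, Bh (hp (M n) (c' n)) θ ≤ Mx := fun n θ => by rw [hBk]; exact hup n θ
  have hgn' : ∀ n θ, |gh (hp (M n) (c' n)) θ| ≤ S := fun n θ => by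
    rw [hgk, abs_mul, abs_of_pos (hρ0 n)]
    have h1 := hgn n θ
    have h2 := abs_nonneg (gh (hp (M n) (c n)) θ)
    nlinarith [hρ1 n, hρ0 n]
  -- positivity of the radii of curvature
  have hRP' : ∀ n, RP (M n) (c' n) := by
    intro n
    refine ⟨fun k hkM => ?_, fun θ => ?_, fun θ => hm.trans_le (hlow' n θ)⟩
    · rw [hc']
      unfold mix evc odc
      rw [(hRP n).1 k hkM]
      simp
    · have h1 := (hRP n).2.1 θ
      have h2 := (hRP n).2.1 (θ + π)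
      rw [hc', dk_mix, dk_mix, hp_mix hHPB, hp_mix hHPB, mix_eq, mix_eq]
      have h3 := hρ0 n
      have h4 := hρ1 n
      have e : (1 + ρ n) / 2 * hp (M n) (c n) θ + (1 - ρ n) / 2 * hp (M n) (c n) (θ + π) +
          ((1 + ρ n) / 2 * hp (M n) (dk (dk (c n))) θ +
            (1 - ρ n) / 2 * hp (M n) (dk (dk (c n))) (θ + π)) =
          (1 + ρ n) / 2 * (hp (M n) (c n) θ + hp (M n) (dk (dk (c n))) θ) +
          (1 - ρ n) / 2 * (hp (M n) (c n) (θ + π) + hp (M n) (dk (dk (c n))) (θ + π)) := by ring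
      rw [e]
      have h5 : 0 < (1 + ρ n) / 2 * (hp (M n) (c n) θ + hp (M n) (dk (dk (c n))) θ) :=
        mul_pos (by linarith) h1
      have h6 : 0 ≤ (1 - ρ n) / 2 *
          (hp (M n) (c n) (θ + π) + hp (M n) (dk (dk (c n))) (θ + π)) :=
        mul_nonneg (by linarith) h2.le
      linarith
  have hM2' : ∀ n θ, |hp (M n) (dk (c' n)) θ| ≤ Λ := by
    intro n θ
    rw [hc', dk_mix, hp_mix hHPB, mix_eq]
    have h1 := hM2 n θ
    have h2 := hM2 n (θ + π)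
    have h3 := hρ0 n
    have h4 := hρ1 n
    rw [abs_le] at h1 h2 ⊢
    constructor <;> nlinarith
  obtain ⟨e, he⟩ : ∃ e : ℕ → ℝ, ∀ n, e n = δ n + (1 - ρ n) * S := ⟨_, fun n => rfl⟩
  have hM1' : ∀ n θ, |hp (M n) (c' n) θ - h θ| ≤ e n := by
    intro n θ
    have e1 : hp (M n) (c' n) θ - h θ =
        (hp (M n) (c n) θ - h θ) + (ρ n - 1) * gh (hp (M n) (c n)) θ := by
      rw [hk n θ, ← dec (hp (M n) (c n)) θ]
      ring
    rw [e1, he, hδ]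
    refine (abs_add_le _ _).trans (add_le_add (hM1 n θ) ?_)
    rw [abs_mul, abs_sub_comm, abs_of_nonneg (by linarith [hρ1 n])]
    exact mul_le_mul_of_nonneg_left (hgn n θ) (by linarith [hρ1 n])
  have hδt : Tendsto δ atTop (𝓝 0) := by
    have e1 : δ = fun n : ℕ => 1 / ((n : ℝ) + 1) := funext hδ
    rw [e1]
    exact tendsto_one_div_add_atTop_nhds_zero_nat
  have hρt : Tendsto ρ atTop (𝓝 1) := by
    have e1 : ρ = fun n => Γ / (Γ + (Γ + 1) * δ n / m) := funext hρ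
    rw [e1]
    have h1 : Tendsto (fun n => Γ + (Γ + 1) * δ n / m) atTop (𝓝 (Γ + (Γ + 1) * 0 / m)) :=
      ((hδt.const_mul (Γ + 1)).div_const m).const_add Γ
    have h2 : Tendsto (fun n => Γ / (Γ + (Γ + 1) * δ n / m)) atTop
        (𝓝 (Γ / (Γ + (Γ + 1) * 0 / m))) :=
      (tendsto_const_nhds (x := Γ)).div h1 (by simpa using hΓ.ne')
    have h3 : Γ / (Γ + (Γ + 1) * 0 / m) = 1 := by
      rw [mul_zero, zero_div, add_zero, div_self hΓ.ne']
    rwa [h3] at h2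
  have het : Tendsto e atTop (𝓝 0) := by
    have e1 : e = fun n => δ n + (1 - ρ n) * S := funext he
    rw [e1]
    have h1 : Tendsto (fun n => δ n + (1 - ρ n) * S) atTop (𝓝 (0 + (1 - 1) * S)) :=
      hδt.add ((tendsto_const_nhds.sub hρt).mul_const S)
    simpa using h1
  refine ⟨M, c', hRP', hlow', hup', fun n θ => ?_, fun F G hF hG =>
    lim hGCV hGAG hHPB hΛ hlip hper hhc hm hmM hS0 hmh hMh hSh M c' hRP' e het hM1' hM2' hlow'
      hup' hgn' F G hF hG⟩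
  -- the relative bound
  rw [hgk, hBk, abs_mul, abs_of_pos (hρ0 n)]
  have hB1 : |Bh (hp (M n) (c n)) θ - Bh h θ| ≤ δ n := by
    have h1 := hM1 n θ
    have h2 := hM1 n (θ + π)
    rw [← hδ] at h1 h2
    unfold Bh
    rw [abs_le] at h1 h2 ⊢
    constructor <;> linarith
  have hg1 : |gh (hp (M n) (c n)) θ - gh h θ| ≤ δ n := by
    have h1 := hM1 n θ
    have h2 := hM1 n (θ + π)
    rw [← hδ] at h1 h2
    unfold gh
    rw [abs_le] at h1 h2 ⊢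
    constructor <;> linarith
  have hg2 : |gh (hp (M n) (c n)) θ| ≤ Γ * Bh (hp (M n) (c n)) θ + (Γ + 1) * δ n := by
    have h1 : |gh (hp (M n) (c n)) θ| ≤ |gh h θ| + δ n := by
      have := abs_add_le (gh (hp (M n) (c n)) θ - gh h θ) (gh h θ)
      rw [sub_add_cancel] at this
      linarith
    have h2 := hΓh θ
    have h3 := (abs_le.1 hB1).1
    have h4 : Γ * Bh h θ ≤ Γ * (Bh (hp (M n) (c n)) θ + δ n) :=
      mul_le_mul_of_nonneg_left (by linarith) hΓ.le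
    linarith
  have hg3 : |gh (hp (M n) (c n)) θ| ≤
      (Γ + (Γ + 1) * δ n / m) * Bh (hp (M n) (c n)) θ := by
    refine hg2.trans ?_
    have h1 : (Γ + 1) * δ n ≤ (Γ + 1) * δ n / m * Bh (hp (M n) (c n)) θ := by
      have h2 : 0 < (Γ + 1) * δ n := mul_pos (by linarith) (hδ0 n)
      rw [div_mul_eq_mul_div, le_div_iff₀ hm]
      exact mul_le_mul_of_nonneg_left (hlow n θ) h2.le
    linarith
  calc ρ n * |gh (hp (M n) (c n)) θ| ≤
      ρ n * ((Γ + (Γ + 1) * δ n / m) * Bh (hp (M n) (c n)) θ) :=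
        mul_le_mul_of_nonneg_left hg3 (hρ0 n).le
    _ = Γ * Bh (hp (M n) (c n)) θ := by
        rw [hρ, ← mul_assoc, div_mul_cancel₀ _ (hden n).ne']

end Pool.Agent.Lib.MP_084b88_gt.AY
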