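import Pool.Agent.Lib.MP_084b88_gt.AY.SpecS

/-!
# MP_084b88_gt, project AY: the addition theorem for the Legendre polynomials (ADD)
-/

set_option autoImplicit false

open MeasureTheory Set Real Filter Topology
open scoped Pointwise InnerProductSpace

namespace Pool.Agent.Lib.MP_084b88_gt.AY

open Pool.Agent.Lib.MP_084b88_gt.CW Pool.Agent.Lib.MP_084b88_gt.SY

namespace ADDM

theorem mean_gen (hC : SpecCAV) (l : ℕ) (c : ℝ) (z p q : ℂ)
    (h : p ^ 2 + q ^ 2 = -((1 - (c : ℂ) ^ 2) * z ^ 2)) :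
    ∫ φ in (0 : ℝ)..(2 * π), ((c : ℂ) * z + p * (Real.cos φ : ℂ) + q * (Real.sin φ : ℂ)) ^ l =
      2 * π * (z ^ l * (Lp l c : ℂ)) := by
  rw [hC.1 l ((c : ℂ) * z) p q]
  congr 1
  unfold Lp
  push_cast
  rw [Finset.mul_sum]
  refine Finset.sum_congr rfl fun j hj => ?_
  have hj' : 2 * j ≤ l := by
    have := Finset.mem_range.1 hj
    omega
  have h1 : z ^ l = z ^ (l - 2 * j) * (z ^ 2) ^ j := by
    rw [← pow_mul, ← pow_add]
    congr 1
    omega
  rw [h, neg_pow, mul_pow, mul_pow, h1]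
  ring

theorem main (hC : SpecCAV) (l : ℕ) (A ρ α : ℝ) (h : A ^ 2 + ρ ^ 2 = 1) :
    ∫ θ in (0 : ℝ)..(2 * π), Lp l (Real.cos α * A + Real.sin α * (ρ * Real.cos θ)) =
      2 * π * (Lp l (Real.cos α) * Lp l A) := by
  have hpi : (π : ℂ) ≠ 0 := by exact_mod_cast Real.pi_ne_zero
  have h7 : (2 * (π : ℂ)) ≠ 0 := mul_ne_zero two_ne_zero hpi
  have hc : ((A : ℂ)) ^ 2 + (ρ : ℂ) ^ 2 = 1 := by exact_mod_cast h
  have hα : (Real.sin α : ℂ) ^ 2 + (Real.cos α : ℂ) ^ 2 = 1 := by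
    exact_mod_cast Real.sin_sq_add_cos_sq α
  have hI := Complex.I_sq
  have h1 : ∀ θ : ℝ, (2 * (π : ℂ)) *
      ((Lp l (Real.cos α * A + Real.sin α * (ρ * Real.cos θ)) : ℝ) : ℂ) =
      ∫ φ in (0 : ℝ)..(2 * π), ((Real.cos α : ℂ) * (A - Complex.I * ρ * (Real.cos φ : ℂ)) +
        ((Real.sin α : ℂ) * (ρ + Complex.I * A * (Real.cos φ : ℂ))) * (Real.cos θ : ℂ) +
        ((Real.sin α : ℂ) * (Complex.I * (Real.sin φ : ℂ))) * (Real.sin θ : ℂ)) ^ l := by
    intro θ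
    have hθ : (Real.sin θ : ℂ) ^ 2 + (Real.cos θ : ℂ) ^ 2 = 1 := by
      exact_mod_cast Real.sin_sq_add_cos_sq θ
    have hm := mean_gen hC l (Real.cos α * A + Real.sin α * (ρ * Real.cos θ)) 1
      (Complex.I * (-(ρ : ℂ) * (Real.cos α : ℂ) + A * (Real.sin α : ℂ) * (Real.cos θ : ℂ)))
      (Complex.I * ((Real.sin α : ℂ) * (Real.sin θ : ℂ))) (by
        rw [Complex.ofReal_add, Complex.ofReal_mul, Complex.ofReal_mul, Complex.ofReal_mul]
        generalize (Real.cos α : ℂ) = ca at *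
        generalize (Real.sin α : ℂ) = sa at *
        generalize (Real.cos θ : ℂ) = ct at *
        generalize (Real.sin θ : ℂ) = st at *
        rw [mul_pow, mul_pow, hI]
        linear_combination (-(ca ^ 2) - sa ^ 2 * ct ^ 2) * hc - sa ^ 2 * hθ - hα)
    rw [one_pow, one_mul] at hm
    rw [← hm]
    apply intervalIntegral.integral_congr
    intro φ _
    simp only []
    congr 1
    push_cast
    ring
  have h2 : (2 * (π : ℂ)) *
      ((∫ θ in (0 : ℝ)..(2 * π), Lp l (Real.cos α * A + Real.sin α * (ρ * Real.cos θ)) : ℝ) : ℂ) =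
      ∫ θ in (0 : ℝ)..(2 * π), ∫ φ in (0 : ℝ)..(2 * π),
        ((Real.cos α : ℂ) * (A - Complex.I * ρ * (Real.cos φ : ℂ)) +
        ((Real.sin α : ℂ) * (ρ + Complex.I * A * (Real.cos φ : ℂ))) * (Real.cos θ : ℂ) +
        ((Real.sin α : ℂ) * (Complex.I * (Real.sin φ : ℂ))) * (Real.sin θ : ℂ)) ^ l := by
    rw [← intervalIntegral.integral_ofReal, ← intervalIntegral.integral_const_mul]
    apply intervalIntegral.integral_congr
    intro θ _
    exact h1 θ
  have h3 : ∫ θ in (0 : ℝ)..(2 * π), ∫ φ in (0 : ℝ)..(2 * π),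
        ((Real.cos α : ℂ) * (A - Complex.I * ρ * (Real.cos φ : ℂ)) +
        ((Real.sin α : ℂ) * (ρ + Complex.I * A * (Real.cos φ : ℂ))) * (Real.cos θ : ℂ) +
        ((Real.sin α : ℂ) * (Complex.I * (Real.sin φ : ℂ))) * (Real.sin θ : ℂ)) ^ l =
      ∫ φ in (0 : ℝ)..(2 * π), ∫ θ in (0 : ℝ)..(2 * π),
        ((Real.cos α : ℂ) * (A - Complex.I * ρ * (Real.cos φ : ℂ)) +
        ((Real.sin α : ℂ) * (ρ + Complex.I * A * (Real.cos φ : ℂ))) * (Real.cos θ : ℂ) +
        ((Real.sin α : ℂ) * (Complex.I * (Real.sin φ : ℂ))) * (Real.sin θ : ℂ)) ^ l := by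
    apply intervalIntegral_intervalIntegral_swap
    have hpos : (0 : ℝ) ≤ 2 * π := by positivity
    have hcont : Continuous (Function.uncurry fun θ φ : ℝ =>
        ((Real.cos α : ℂ) * (A - Complex.I * ρ * (Real.cos φ : ℂ)) +
        ((Real.sin α : ℂ) * (ρ + Complex.I * A * (Real.cos φ : ℂ))) * (Real.cos θ : ℂ) +
        ((Real.sin α : ℂ) * (Complex.I * (Real.sin φ : ℂ))) * (Real.sin θ : ℂ)) ^ l) := by
      unfold Function.uncurry
      fun_prop
    refine (hcont.continuousOn.integrableOn_compact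
      (isCompact_Icc (a := (0 : ℝ)) (b := 2 * π) |>.prod (isCompact_Icc (a := (0 : ℝ))
        (b := 2 * π)))).mono_set ?_
    rw [uIoc_of_le hpos]
    exact Set.prod_mono Ioc_subset_Icc_self Ioc_subset_Icc_self
  have h4 : ∀ φ : ℝ, ∫ θ in (0 : ℝ)..(2 * π),
        ((Real.cos α : ℂ) * (A - Complex.I * ρ * (Real.cos φ : ℂ)) +
        ((Real.sin α : ℂ) * (ρ + Complex.I * A * (Real.cos φ : ℂ))) * (Real.cos θ : ℂ) +
        ((Real.sin α : ℂ) * (Complex.I * (Real.sin φ : ℂ))) * (Real.sin θ : ℂ)) ^ l =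
      (2 * π * (Lp l (Real.cos α) : ℂ)) * ((A : ℂ) - Complex.I * ρ * (Real.cos φ : ℂ)) ^ l := by
    intro φ
    have hφ : (Real.sin φ : ℂ) ^ 2 + (Real.cos φ : ℂ) ^ 2 = 1 := by
      exact_mod_cast Real.sin_sq_add_cos_sq φ
    rw [mean_gen hC l (Real.cos α) _ _ _ (by
        generalize (Real.cos α : ℂ) = ca at *
        generalize (Real.sin α : ℂ) = sa at *
        generalize (Real.cos φ : ℂ) = cp at *
        generalize (Real.sin φ : ℂ) = sp at *
        have e1 : ((A : ℂ) - Complex.I * ρ * cp) ^ 2 =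
            -((ρ + Complex.I * A * cp) ^ 2 + (Complex.I * sp) ^ 2) := by
          linear_combination (1 - cp ^ 2) * hc + (-hφ) + (ρ ^ 2 * cp ^ 2 + A ^ 2 * cp ^ 2 + sp ^ 2) * hI
        rw [e1]
        linear_combination ((ρ + Complex.I * A * cp) ^ 2 + (Complex.I * sp) ^ 2) * hα)]
    ring
  have h5 : ∫ φ in (0 : ℝ)..(2 * π), ((A : ℂ) - Complex.I * ρ * (Real.cos φ : ℂ)) ^ l =
      2 * π * (Lp l A : ℂ) := by
    have hm := mean_gen hC l A 1 (-Complex.I * ρ) 0 (by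
      linear_combination (ρ : ℂ) ^ 2 * hI - hc)
    rw [one_pow, one_mul] at hm
    rw [← hm]
    apply intervalIntegral.integral_congr
    intro φ _
    simp only []
    congr 1
    ring
  rw [h3] at h2
  simp_rw [h4] at h2
  rw [intervalIntegral.integral_const_mul, h5] at h2
  have h6 : ((∫ θ in (0 : ℝ)..(2 * π),
      Lp l (Real.cos α * A + Real.sin α * (ρ * Real.cos θ)) : ℝ) : ℂ) =
      ((2 * π * (Lp l (Real.cos α) * Lp l A) : ℝ) : ℂ) := by
    apply mul_left_cancel₀ h7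
    rw [h2]
    push_cast
    ring
  exact_mod_cast h6

end ADDM

open ADDM in
theorem specADD (hC : SpecCAV) : SpecADD := by
  intro l A B C α h
  set z : ℂ := ⟨B, C⟩ with hz
  set ρ : ℝ := ‖z‖ with hρ
  set θ0 : ℝ := Complex.arg z with hθ0
  have hB : B = ρ * Real.cos θ0 := by
    rw [hρ, hθ0, Complex.norm_mul_cos_arg]
  have hCC : C = ρ * Real.sin θ0 := by
    rw [hρ, hθ0, Complex.norm_mul_sin_arg]
  have hρ2 : ρ ^ 2 = B ^ 2 + C ^ 2 := by
    rw [hB, hCC]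
    linear_combination (-(ρ ^ 2)) * Real.sin_sq_add_cos_sq θ0
  have hAρ : A ^ 2 + ρ ^ 2 = 1 := by
    rw [hρ2]
    linarith
  rw [← main hC l A ρ α hAρ]
  set g : ℝ → ℝ := fun θ => Lp l (Real.cos α * A + Real.sin α * (ρ * Real.cos θ)) with hg
  have h1 : ∀ θ : ℝ, Lp l (Real.cos α * A + Real.sin α * (B * Real.cos θ + C * Real.sin θ)) =
      g (θ - θ0) := by
    intro θ
    simp only [hg]
    congr 2
    rw [Real.cos_sub]
    rw [hB, hCC]
    ring
  have hper : Function.Periodic g (2 * π) := by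
    intro θ
    simp only [hg]
    rw [Real.cos_add_two_pi]
  simp_rw [h1]
  rw [intervalIntegral.integral_comp_sub_right g θ0]
  have h2 := hper.intervalIntegral_add_eq (0 - θ0) 0
  rw [zero_add] at h2
  rw [← h2]
  congr 1
  ring

end Pool.Agent.Lib.MP_084b88_gt.AY
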