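import Pool.Agent.Lib.MP_084b88_gt.AY.SpecR
import Pool.Agent.Lib.MP_084b88_gt.PC.BOD

/-!
# MP_084b88_gt, project AY, module ARE: bounds for the area in centroid-Legendre position
-/

set_option autoImplicit false

open MeasureTheory Set Real Filter Topology
open scoped Pointwise InnerProductSpace

namespace Pool.Agent.Lib.MP_084b88_gt.AY

open Pool.Agent.Lib.MP_084b88_gt.CW Pool.Agent.Lib.MP_084b88_gt.SY Pool.Agent.Lib.MP_084b88_gt.LG

namespace AREM

/-! ### the upper bound -/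

/-- the positive part of `4/3 - |p|²` -/
noncomputable def fp (p : ℝ × ℝ) : ℝ := max (4 / 3 - (p.1 ^ 2 + p.2 ^ 2)) 0

theorem fp_cont : Continuous fp := by
  unfold fp
  fun_prop

theorem fp_nonneg (p : ℝ × ℝ) : 0 ≤ fp p := le_max_right _ _

theorem fp_int (hWB2 : SpecWB2) : Integrable fp volume := by
  refine fp_cont.integrable_of_hasCompactSupport ?_
  have hD := (hWB2.2.2.2.2.2.2.1 (√(4 / 3)) (Real.sqrt_nonneg _)).1.2.1
  refine HasCompactSupport.intro hD (fun p hp => ?_)
  unfold fp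
  refine max_eq_right ?_
  have h1 : ¬ p.1 ^ 2 + p.2 ^ 2 ≤ √(4 / 3) ^ 2 := hp
  rw [Real.sq_sqrt (by norm_num)] at h1
  linarith

theorem fp_integral (hWB2 : SpecWB2) : ∫ p, fp p = 8 * π / 9 := by
  have h1 := (fp_int hWB2).integral_eq_integral_Ioc_meas_le (M := 4 / 3)
    (Eventually.of_forall fp_nonneg) (Eventually.of_forall (fun p => by
      unfold fp
      refine max_le ?_ (by norm_num)
      nlinarith [sq_nonneg p.1, sq_nonneg p.2]))
  rw [h1]
  have h2 : ∀ t ∈ Ioc (0 : ℝ) (4 / 3), (volume : Measure (ℝ × ℝ)).real {p | t ≤ fp p} = π * (4 / 3 - t) := by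
    intro t ht
    have h3 : {p : ℝ × ℝ | t ≤ fp p} = disc (√(4 / 3 - t)) := by
      ext p
      unfold fp disc
      simp only [Set.mem_ofPred_eq]
      rw [Real.sq_sqrt (by linarith [ht.2]), le_max_iff]
      constructor
      · rintro (h | h)
        · linarith
        · exact absurd h (not_le.mpr ht.1)
      · intro h
        left; linarith
    have h4 := (hWB2.2.2.2.2.2.2.1 (√(4 / 3 - t)) (Real.sqrt_nonneg _)).2.2
    rw [Real.sq_sqrt (by linarith [ht.2])] at h4
    rw [h3]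
    exact h4
  rw [setIntegral_congr_fun measurableSet_Ioc h2,
    ← intervalIntegral.integral_of_le (by norm_num : (0 : ℝ) ≤ 4 / 3)]
  rw [intervalIntegral.integral_const_mul, intervalIntegral.integral_sub (by simp) (by simp)]
  simp
  ring

theorem upper (hWB2 : SpecWB2) (P : Set (ℝ × ℝ)) (hP : IsoC P) : 3 * area P ≤ 4 * π := by
  have hPm : MeasurableSet P := hP.cc.2.1.isClosed.measurableSet
  have hc := hP.cc.2.1
  have hi1 : IntegrableOn (fun p : ℝ × ℝ => p.1 ^ 2) P volume :=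
    (by fun_prop : Continuous (fun p : ℝ × ℝ => p.1 ^ 2)).continuousOn.integrableOn_compact hc
  have hi2 : IntegrableOn (fun p : ℝ × ℝ => p.2 ^ 2) P volume :=
    (by fun_prop : Continuous (fun p : ℝ × ℝ => p.2 ^ 2)).continuousOn.integrableOn_compact hc
  have hi0 : IntegrableOn (fun _ : ℝ × ℝ => (4 / 3 : ℝ)) P volume :=
    continuous_const.continuousOn.integrableOn_compact hc
  have hi12 : IntegrableOn (fun p : ℝ × ℝ => p.1 ^ 2 + p.2 ^ 2) P volume := hi1.add hi2
  have h1 : ∫ p in P, (4 / 3 - (p.1 ^ 2 + p.2 ^ 2)) = 2 / 3 * area P := by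
    rw [integral_sub hi0 hi12, integral_add hi1 hi2, hP.m11, hP.m22, setIntegral_const,
      smul_eq_mul]
    have : (volume : Measure (ℝ × ℝ)).real P = area P := rfl
    rw [this]
    ring
  have h2 : ∫ p in P, (4 / 3 - (p.1 ^ 2 + p.2 ^ 2)) ≤ ∫ p in P, fp p := by
    refine setIntegral_mono_on (hi0.sub hi12) (fp_int hWB2).integrableOn hPm ?_
    intro p _
    exact le_max_left _ _
  have h3 : ∫ p in P, fp p ≤ ∫ p, fp p :=
    setIntegral_le_integral (fp_int hWB2) (Eventually.of_forall fp_nonneg)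
  rw [fp_integral hWB2] at h3
  rw [h1] at h2
  linarith

/-! ### the lower bound -/

/-- the integral of the length of the slices of a triangle -/
theorem tri_int (ℓ a b : ℝ) (hab : a ≤ b) :
    ∫ x in Ioo a b, ℓ * (1 - (x - a) / (b - a)) = ℓ * (b - a) / 2 := by
  rw [← integral_Ioc_eq_integral_Ioo, ← intervalIntegral.integral_of_le hab]
  rcases hab.eq_or_lt with h | h
  · subst h; simp
  · have h0 : b - a ≠ 0 := by linarith
    have h1 : ∀ x ∈ uIcc a b, HasDerivAt (fun x => ℓ * (x - (x - a) ^ 2 / (2 * (b - a))))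
        (ℓ * (1 - (x - a) / (b - a))) x := by
      intro x _
      have h2 := (((hasDerivAt_id x).sub ((((hasDerivAt_id x).sub_const a).pow 2).div_const
        (2 * (b - a)))).const_mul ℓ)
      refine h2.congr_deriv ?_
      simp only [id]
      field_simp
      push_cast
      ring
    rw [intervalIntegral.integral_eq_sub_of_hasDerivAt h1 (by
      refine Continuous.intervalIntegrable ?_ _ _
      fun_prop)]
    field_simp
    ring

/-- a triangle with a vertical side in a convex set -/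
theorem tri_sub (S : Set (ℝ × ℝ)) (hS : Convex ℝ S) (x0 y1 y2 xa ya : ℝ) (h1 : (x0, y1) ∈ S)
    (h2 : (x0, y2) ∈ S) (h3 : (xa, ya) ∈ S) (σ : ℝ) (hσ : 0 ≤ σ ∧ σ ≤ 1) (x y : ℝ)
    (hx : x = x0 + σ * (xa - x0))
    (hy1 : y1 + σ * (ya - y1) ≤ y) (hy2 : y ≤ y2 + σ * (ya - y2)) : (x, y) ∈ S := by
  have e1 : (x, y1 + σ * (ya - y1)) ∈ S := by
    have := hS h1 h3 (show 0 ≤ 1 - σ by linarith [hσ.2]) hσ.1 (by ring)
    have e : (1 - σ) • ((x0, y1) : ℝ × ℝ) + σ • (xa, ya) = (x, y1 + σ * (ya - y1)) := by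
      ext
      · simp only [Prod.smul_mk, Prod.mk_add_mk, smul_eq_mul]; rw [hx]; ring
      · simp only [Prod.smul_mk, Prod.mk_add_mk, smul_eq_mul]; ring
    rwa [e] at this
  have e2 : (x, y2 + σ * (ya - y2)) ∈ S := by
    have := hS h2 h3 (show 0 ≤ 1 - σ by linarith [hσ.2]) hσ.1 (by ring)
    have e : (1 - σ) • ((x0, y2) : ℝ × ℝ) + σ • (xa, ya) = (x, y2 + σ * (ya - y2)) := by
      ext
      · simp only [Prod.smul_mk, Prod.mk_add_mk, smul_eq_mul]; rw [hx]; ring
      · simp only [Prod.smul_mk, Prod.mk_add_mk, smul_eq_mul]; ring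
    rwa [e] at this
  obtain ⟨z, hz⟩ : ∃ z, z = y1 + σ * (ya - y1) := ⟨_, rfl⟩
  obtain ⟨w, hw⟩ : ∃ w, w = y2 + σ * (ya - y2) := ⟨_, rfl⟩
  rw [← hz] at e1 hy1
  rw [← hw] at e2 hy2
  rcases (hy1.trans hy2).eq_or_lt with h | h
  · have : y = z := le_antisymm (by rw [h]; exact hy2) hy1
    rw [this]; exact e1
  · have hwz : 0 < w - z := by linarith
    have := hS e1 e2 (show 0 ≤ (w - y) / (w - z) from div_nonneg (by linarith) hwz.le)
      (show 0 ≤ (y - z) / (w - z) from div_nonneg (by linarith) hwz.le)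
      (by rw [← add_div]; rw [div_eq_one_iff_eq hwz.ne']; ring)
    have e : ((w - y) / (w - z)) • ((x, z) : ℝ × ℝ) + ((y - z) / (w - z)) • (x, w) = (x, y) := by
      ext
      · simp only [Prod.smul_mk, Prod.mk_add_mk, smul_eq_mul]
        field_simp
        ring
      · simp only [Prod.smul_mk, Prod.mk_add_mk, smul_eq_mul]
        field_simp
        ring
    rwa [e] at this

/-- the two triangles over a vertical chord -/
theorem quad (S : Set (ℝ × ℝ)) (hS : Convex ℝ S) (hSm : volume S ≠ ⊤)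
    (x0 y1 y2 xa ya xb yb : ℝ) (h12 : y1 ≤ y2) (h1 : (x0, y1) ∈ S) (h2 : (x0, y2) ∈ S)
    (ha : (xa, ya) ∈ S) (hb : (xb, yb) ∈ S) (h0a : x0 ≤ xa) (hb0 : xb ≤ x0) :
    (y2 - y1) * (xa - xb) / 2 ≤ (volume S).toReal := by
  -- the right triangle
  let f1 : ℝ → ℝ := fun x => y1 + (x - x0) / (xa - x0) * (ya - y1)
  let g1 : ℝ → ℝ := fun x => y2 + (x - x0) / (xa - x0) * (ya - y2)
  let f2 : ℝ → ℝ := fun x => y1 + (x - x0) / (xb - x0) * (yb - y1)
  let g2 : ℝ → ℝ := fun x => y2 + (x - x0) / (xb - x0) * (yb - y2)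
  have hσ1 : ∀ x ∈ Ioo x0 xa, 0 ≤ (x - x0) / (xa - x0) ∧ (x - x0) / (xa - x0) ≤ 1 := by
    intro x hx
    have : 0 < xa - x0 := by linarith [hx.1, hx.2]
    exact ⟨div_nonneg (by linarith [hx.1]) this.le, by rw [div_le_one this]; linarith [hx.2]⟩
  have hσ2 : ∀ x ∈ Ioo xb x0, 0 ≤ (x - x0) / (xb - x0) ∧ (x - x0) / (xb - x0) ≤ 1 := by
    intro x hx
    have : xb - x0 < 0 := by linarith [hx.1, hx.2]
    exact ⟨div_nonneg_of_nonpos (by linarith [hx.2]) this.le,
      by rw [div_le_one_of_neg this]; linarith [hx.1]⟩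
  have hfg1 : ∀ x, g1 x - f1 x = (y2 - y1) * (1 - (x - x0) / (xa - x0)) := by
    intro x
    simp only [f1, g1]
    ring
  have hfg2 : ∀ x, g2 x - f2 x = (y2 - y1) * (1 - (x - x0) / (xb - x0)) := by
    intro x
    simp only [f2, g2]
    ring
  have hsub1 : regionBetween f1 g1 (Ioo x0 xa) ⊆ S := by
    rintro ⟨x, y⟩ ⟨hx, hy⟩
    have hne : xa - x0 ≠ 0 := by
      have := hx.1; have := hx.2
      simp only at *
      intro h; linarith
    refine tri_sub S hS x0 y1 y2 xa ya h1 h2 ha ((x - x0) / (xa - x0)) (hσ1 x hx) x y ?_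
      hy.1.le hy.2.le
    field_simp
    ring
  have hsub2 : regionBetween f2 g2 (Ioo xb x0) ⊆ S := by
    rintro ⟨x, y⟩ ⟨hx, hy⟩
    have hne : xb - x0 ≠ 0 := by
      have := hx.1; have := hx.2
      simp only at *
      intro h; linarith
    refine tri_sub S hS x0 y1 y2 xb yb h1 h2 hb ((x - x0) / (xb - x0)) (hσ2 x hx) x y ?_
      hy.1.le hy.2.le
    field_simp
    ring
  have hcont : ∀ (A B C D : ℝ), Continuous (fun x : ℝ => A + (x - x0) / B * (C - D)) := by
    intro A B C D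
    fun_prop
  have hint : ∀ (f : ℝ → ℝ) (a b : ℝ), Continuous f → IntegrableOn f (Ioo a b) volume := by
    intro f a b hf
    exact (hf.integrableOn_Icc).mono_set Ioo_subset_Icc_self
  have v1 : volume (regionBetween f1 g1 (Ioo x0 xa)) = ENNReal.ofReal ((y2 - y1) * (xa - x0) / 2) := by
    rw [Measure.volume_eq_prod, volume_regionBetween_eq_integral (hint f1 _ _ (hcont _ _ _ _))
      (hint g1 _ _ (hcont _ _ _ _)) measurableSet_Ioo (fun x hx => by
        have h := hfg1 x
        have h' := hσ1 x hx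
        nlinarith)]
    congr 1
    simp only [Pi.sub_apply, hfg1]
    exact tri_int (y2 - y1) x0 xa h0a
  have v2 : volume (regionBetween f2 g2 (Ioo xb x0)) = ENNReal.ofReal ((y2 - y1) * (x0 - xb) / 2) := by
    rw [Measure.volume_eq_prod, volume_regionBetween_eq_integral (hint f2 _ _ (hcont _ _ _ _))
      (hint g2 _ _ (hcont _ _ _ _)) measurableSet_Ioo (fun x hx => by
        have h := hfg2 x
        have h' := hσ2 x hx
        nlinarith)]
    congr 1
    simp only [Pi.sub_apply, hfg2]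
    have h3 : ∀ x : ℝ, (y2 - y1) * (1 - (x - x0) / (xb - x0)) =
        (fun z => (y2 - y1) * (1 - (z - (-x0)) / ((-xb) - (-x0)))) (-x) := by
      intro x
      simp only
      rcases eq_or_ne (xb - x0) 0 with h | h
      · rw [h, show -xb - -x0 = 0 by linarith]; simp
      · have : -xb - -x0 ≠ 0 := by intro h'; apply h; linarith
        have e : (-x - -x0) / (-xb - -x0) = (x - x0) / (xb - x0) := by
          rw [div_eq_div_iff this h]; ring
        rw [e]
    rw [← integral_Ioc_eq_integral_Ioo, ← intervalIntegral.integral_of_le hb0]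
    rw [intervalIntegral.integral_congr (fun x _ => h3 x), intervalIntegral.integral_comp_neg
      (fun z => (y2 - y1) * (1 - (z - (-x0)) / ((-xb) - (-x0)))),
      intervalIntegral.integral_of_le (by linarith), integral_Ioc_eq_integral_Ioo,
      tri_int (y2 - y1) (-x0) (-xb) (by linarith)]
    ring
  have hdisj : Disjoint (regionBetween f1 g1 (Ioo x0 xa)) (regionBetween f2 g2 (Ioo xb x0)) := by
    rw [Set.disjoint_left]
    rintro ⟨x, y⟩ ⟨hx, _⟩ ⟨hx', _⟩
    exact absurd hx.1 (not_lt.mpr hx'.2.le)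
  have hm2 : MeasurableSet (regionBetween f2 g2 (Ioo xb x0)) :=
    measurableSet_regionBetween (hcont _ _ _ _).measurable (hcont _ _ _ _).measurable measurableSet_Ioo
  have h4 : ENNReal.ofReal ((y2 - y1) * (xa - x0) / 2) + ENNReal.ofReal ((y2 - y1) * (x0 - xb) / 2)
      ≤ volume S := by
    rw [← v1, ← v2, ← measure_union hdisj hm2]
    exact measure_mono (union_subset hsub1 hsub2)
  have p1 : 0 ≤ (y2 - y1) * (xa - x0) / 2 :=
    div_nonneg (mul_nonneg (by linarith) (by linarith)) (by norm_num)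
  have p2 : 0 ≤ (y2 - y1) * (x0 - xb) / 2 :=
    div_nonneg (mul_nonneg (by linarith) (by linarith)) (by norm_num)
  rw [← ENNReal.ofReal_add p1 p2] at h4
  have h5 := ENNReal.toReal_mono hSm h4
  rw [ENNReal.toReal_ofReal (add_nonneg p1 p2)] at h5
  linarith

end AREM

open AREM DUAM PC.BODM SLCM in
theorem specARE (hRO2 : SpecRO2) (hWB2 : SpecWB2) (hXMC : SpecXMC) : SpecARE := by
  intro P hP
  refine ⟨upper hWB2 P hP, fun s => ?_⟩
  have hcc := hP.cc
  -- the chord
  obtain ⟨p, hp, hps⟩ := hWB2.2.1 P hcc s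
  obtain ⟨q, hq, hqs⟩ := hWB2.2.1 P hcc (s + π)
  have hpi : ∀ (θ : ℝ) (r : ℝ × ℝ), dotu (θ + π) r = -dotu θ r := by
    intro θ r
    unfold dotu
    rw [cos_add_pi, sin_add_pi]
    ring
  have hw : dotu s p - dotu s q = wid P s := by
    rw [hpi] at hqs
    unfold wid
    linarith
  set z : ℂ := ⟨p.1 - q.1, p.2 - q.2⟩ with hz
  have h1 : ‖z‖ * cos z.arg = p.1 - q.1 := Complex.norm_mul_cos_arg z
  have h2 : ‖z‖ * sin z.arg = p.2 - q.2 := Complex.norm_mul_sin_arg z
  set ℓ := ‖z‖ with hℓ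
  have hℓ0 : 0 ≤ ℓ := norm_nonneg _
  set t := z.arg - π / 2 with ht
  have hct : cos t = sin z.arg := by rw [ht, cos_sub_pi_div_two]
  have hst : sin t = -cos z.arg := by rw [ht, sin_sub_pi_div_two]
  have hd0 : dotu t p = dotu t q := by
    unfold dotu
    rw [hct, hst]
    linear_combination (sin z.arg) * (-h1) + (cos z.arg) * h2
  have hd1 : dotu (t + π / 2) p - dotu (t + π / 2) q = ℓ := by
    have e : t + π / 2 = z.arg := by rw [ht]; ring
    rw [e]
    unfold dotu
    have h3 := sin_sq_add_cos_sq z.arg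
    linear_combination (cos z.arg) * (-h1) + (sin z.arg) * (-h2) + ℓ * h3
  have hlw : wid P s ≤ ℓ := by
    have h3 : dotu s p - dotu s q = ℓ * cos (s - z.arg) := by
      unfold dotu
      rw [cos_sub]
      linear_combination (cos s) * (-h1) + (sin s) * (-h2)
    rw [← hw, h3]
    have := cos_le_one (s - z.arg)
    nlinarith
  -- the extreme points in direction `t`
  obtain ⟨a, ha, hat⟩ := hWB2.2.1 P hcc t
  obtain ⟨b, hb, hbt⟩ := hWB2.2.1 P hcc (t + π)
  rw [hpi] at hbt
  have hwt : dotu t a - dotu t b = wid P t := by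
    unfold wid
    linarith
  have hta : dotu t q ≤ dotu t a := by rw [hat]; exact hWB2.1 P hcc t q hq
  have htb : dotu t b ≤ dotu t q := by
    have := hWB2.1 P hcc (t + π) q hq
    rw [hpi] at this
    linarith
  -- the rotated body
  have hpre : ∀ r : ℝ × ℝ, r ∈ P → (dotu t r, dotu (t + π / 2) r) ∈ ro t ⁻¹' P := by
    intro r hr
    rw [mem_preimage, ro_pt]
    simp only
    rw [pt_dotu]
    exact hr
  have hvol : volume (ro t ⁻¹' P) = volume P :=
    (mp_ro hRO2 t).measure_preimage hcc.2.1.isClosed.measurableSet.nullMeasurableSet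
  have hconv : Convex ℝ (ro t ⁻¹' P) := by
    intro x hx y hy α β hα hβ hαβ
    rw [mem_preimage, ro_pt] at hx hy ⊢
    have h3 := hcc.1 hx hy hα hβ hαβ
    rw [← pt_comb] at h3
    exact h3
  have hfin : volume (ro t ⁻¹' P) ≠ ⊤ := by
    rw [hvol]
    exact hcc.2.1.measure_lt_top.ne
  have hq' := hpre q hq
  have hp' := hpre p hp
  rw [hd0] at hp'
  have h3 := quad (ro t ⁻¹' P) hconv hfin (dotu t q) (dotu (t + π / 2) q) (dotu (t + π / 2) p)
    (dotu t a) (dotu (t + π / 2) a) (dotu t b) (dotu (t + π / 2) b) (by linarith) hq' hp'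
    (hpre a ha) (hpre b hb) hta htb
  rw [hd1, hwt, hvol] at h3
  have h4 : 1 ≤ wid P t / 2 := by
    have h5 := (hXMC P hP t).2.2.2
    unfold xf at h5
    have h6 : 0 < wid P t / 2 := by linarith [hP.wpos t]
    rw [div_le_one (by positivity)] at h5
    nlinarith
  have h5 : area P = (volume P).toReal := rfl
  rw [h5]
  nlinarith

end Pool.Agent.Lib.MP_084b88_gt.AY
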