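import Pool.Agent.Lib.MP_084b88_gt.AY.SpecP
import Pool.Agent.Lib.MP_084b88_gt.CW.GDU

/-!
# MP_084b88_gt, project AY, module PRF: the profile of a planar body in one direction
-/

set_option autoImplicit false

open MeasureTheory Set Real Filter Topology
open scoped Pointwise InnerProductSpace

namespace Pool.Agent.Lib.MP_084b88_gt.AY

open Pool.Agent.Lib.MP_084b88_gt.CW Pool.Agent.Lib.MP_084b88_gt.SY Pool.Agent.Lib.MP_084b88_gt.LG

namespace PRFM

open DUAM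

theorem pt_comb (s x y t u a b : ℝ) :
    pt s (a * x + b * y) (a * t + b * u) = a • pt s x t + b • pt s y u := by
  unfold pt
  ext <;> simp <;> ring

theorem bd (hWB2 : SpecWB2) (P : Set (ℝ × ℝ)) (hP : CC P) (s : ℝ) :
    ∃ C : ℝ, ∀ x t, pt s x t ∈ P → |t| ≤ C := by
  obtain ⟨C, -, hC, -⟩ := hWB2.2.2.1 P hP
  refine ⟨C, fun x t ht => ?_⟩
  have h1 := hWB2.1 P hP (s + π / 2) _ ht
  have h2 := hWB2.1 P hP (s + (π / 2 + π)) _ ht
  rw [dotu_pt] at h1 h2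
  rw [cos_add_pi, sin_add_pi, cos_pi_div_two, sin_pi_div_two] at h2
  rw [cos_pi_div_two, sin_pi_div_two] at h1
  have h5 := (abs_le.1 (hC (s + π / 2))).2
  have h6 := (abs_le.1 (hC (s + (π / 2 + π)))).2
  exact abs_le.2 ⟨by linarith, by linarith⟩

end PRFM

open DUAM GDUM PRFM in
theorem specPRF (hWB2 : SpecWB2) (hGDU : SpecGDU) : SpecPRF := by
  intro P hP hw t
  obtain ⟨C, hC⟩ := bd hWB2 P hP t
  have hdual := fun (τ : ℝ) (hτ : τ ∈ Ioo (-1 : ℝ) 1) => dual hWB2 P hP t τ (hw t) hτ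
  set b := wid P t / 2 with hb
  set m := mid P t with hm
  have hb0 : 0 < b := by rw [hb]; linarith [hw t]
  let U1 : ℝ → ℝ := fun τ => UB (sup2 P) t τ
  let U2 : ℝ → ℝ := fun τ => UB (sup2 P) (t + π) (-τ)
  have hm1 : ∀ τ ∈ Ioo (-1 : ℝ) 1, pt t (m + τ * b) (U1 τ) ∈ P := by
    intro τ hτ
    obtain ⟨h1, h2⟩ := hdual τ hτ
    have h3 : U1 τ ∈ {x : ℝ | pt t (m + τ * b) x ∈ P} := by
      rw [h2]
      exact ⟨h1, le_rfl⟩
    exact h3
  have hm2 : ∀ τ ∈ Ioo (-1 : ℝ) 1, pt t (m + τ * b) (-U2 τ) ∈ P := by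
    intro τ hτ
    obtain ⟨h1, h2⟩ := hdual τ hτ
    have h3 : -U2 τ ∈ {x : ℝ | pt t (m + τ * b) x ∈ P} := by
      rw [h2]
      exact ⟨le_rfl, h1⟩
    exact h3
  have hle : ∀ τ ∈ Ioo (-1 : ℝ) 1, ∀ x, pt t (m + τ * b) x ∈ P → -U2 τ ≤ x ∧ x ≤ U1 τ := by
    intro τ hτ x hx
    have h3 : x ∈ {x : ℝ | pt t (m + τ * b) x ∈ P} := hx
    rw [(hdual τ hτ).2] at h3
    exact h3
  have hconc : ConcaveOn ℝ (Ioo (-1) 1) (fun τ => U1 τ + U2 τ) := by
    refine ⟨convex_Ioo _ _, ?_⟩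
    intro x hx y hy a a' ha ha' haa
    have hz : a * x + a' * y ∈ Ioo (-1 : ℝ) 1 := by
      have := (convex_Ioo (-1 : ℝ) 1) hx hy ha ha' haa
      simpa only [smul_eq_mul] using this
    have h1 := hP.1 (hm1 x hx) (hm1 y hy) ha ha' haa
    have h2 := hP.1 (hm2 x hx) (hm2 y hy) ha ha' haa
    rw [← pt_comb] at h1 h2
    have e : a * (m + x * b) + a' * (m + y * b) = m + (a * x + a' * y) * b := by
      have : a * (m + x * b) + a' * (m + y * b) = (a + a') * m + (a * x + a' * y) * b := by ring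
      rw [this, haa, one_mul]
    rw [e] at h1 h2
    have h3 := (hle _ hz _ h1).2
    have h4 := (hle _ hz _ h2).1
    simp only [smul_eq_mul]
    linarith
  have hcont : ContinuousOn (fun τ => U1 τ + U2 τ) (Ioo (-1 : ℝ) 1) :=
    hconc.continuousOn isOpen_Ioo
  have hbd : ∀ τ ∈ Ioo (-1 : ℝ) 1, 0 ≤ U1 τ + U2 τ ∧ U1 τ + U2 τ ≤ 2 * C := by
    intro τ hτ
    have h1 := (abs_le.1 (hC _ _ (hm1 τ hτ))).2
    have h2 := (abs_le.1 (hC _ _ (hm2 τ hτ))).1
    have h3 := (hdual τ hτ).1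
    exact ⟨by linarith [show -U2 τ ≤ U1 τ from h3], by linarith⟩
  refine ⟨fun τ => U1 τ + U2 τ, 2 * C, hconc, hbd, fun G hG => ⟨?_, ?_⟩⟩
  · rw [intervalIntegrable_iff_integrableOn_Ioo_of_le (by norm_num)]
    obtain ⟨D, hD⟩ := isCompact_Icc.exists_bound_of_continuousOn (s := Icc (-1 : ℝ) 1)
      hG.continuousOn
    refine Integrable.of_bound (C := D * (2 * C)) ?_ ?_
    · exact (hG.continuousOn.mul hcont).aestronglyMeasurable measurableSet_Ioo
    · rw [ae_restrict_iff' measurableSet_Ioo]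
      refine Eventually.of_forall fun τ hτ => ?_
      have h1 := hbd τ hτ
      rw [norm_mul, Real.norm_eq_abs (U1 τ + U2 τ), abs_of_nonneg h1.1]
      exact mul_le_mul (hD τ (Ioo_subset_Icc_self hτ)) h1.2 h1.1
        (le_trans (norm_nonneg _) (hD τ (Ioo_subset_Icc_self hτ)))
  · rw [hGDU P hP hw G hG t, IG, intervalIntegral.integral_of_le (by norm_num),
      integral_Ioc_eq_integral_Ioo]
    have e : Bh (sup2 P) t = b := rfl
    rw [e]
    congr 1
    refine integral_congr_ae (Eventually.of_forall fun τ => ?_)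
    exact mul_comm _ _

end Pool.Agent.Lib.MP_084b88_gt.AY
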