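import Pool.Agent.Lib.MP_084b88_gt.AY.SpecW
import Pool.Agent.Lib.MP_084b88_gt.AY.PRF

/-!
# MP_084b88_gt, project AY, module ARF: a better lower bound of the area in centroid-Legendre position

`3/2 * wid P s ^ 2 ≤ area P ^ 2` for all `s` (sharp: triangles).

`vs`: for a concave function `c ≥ 0` on `(-1,1)` and every `a`: `9 c(a)² (I0 I2 - I1²) ≤ 2 I0⁴`, `I_k = ∫ τ^k c`.
-/

set_option autoImplicit false

open MeasureTheory Set Real Filter Topology
open scoped Pointwise InnerProductSpace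

namespace Pool.Agent.Lib.MP_084b88_gt.AY

open Pool.Agent.Lib.MP_084b88_gt.CW Pool.Agent.Lib.MP_084b88_gt.SY Pool.Agent.Lib.MP_084b88_gt.LG

namespace ARFM

/-- Integrability of a continuous function times a bounded concave function. -/
theorem integ {c : ℝ → ℝ} {C : ℝ} (hc : ConcaveOn ℝ (Ioo (-1) 1) c)
    (hb : ∀ τ ∈ Ioo (-1 : ℝ) 1, 0 ≤ c τ ∧ c τ ≤ C) {G : ℝ → ℝ} (hG : Continuous G) :
    IntegrableOn (fun τ => G τ * c τ) (Ioo (-1) 1) := by
  obtain ⟨M, hM⟩ := (isCompact_Icc (a := (-1 : ℝ)) (b := 1)).exists_bound_of_continuousOn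
    hG.continuousOn
  have hcc : ContinuousOn c (Ioo (-1) 1) := hc.continuousOn isOpen_Ioo
  refine IntegrableOn.of_bound (C := M * C) (by simp) ?_ ?_
  · exact (hG.continuousOn.mul hcc).aestronglyMeasurable measurableSet_Ioo
  · rw [ae_restrict_iff' measurableSet_Ioo]
    refine Eventually.of_forall fun τ hτ => ?_
    rw [norm_mul]
    have h1 := hM τ (Ioo_subset_Icc_self hτ)
    have h2 := hb τ hτ
    rw [Real.norm_of_nonneg h2.1]
    exact mul_le_mul h1 h2.2 h2.1 ((norm_nonneg _).trans h1)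

/-- concavity on three points -/
theorem cc3 {c : ℝ → ℝ} (hc : ConcaveOn ℝ (Ioo (-1) 1) c) {a y z : ℝ} (ha : a ∈ Ioo (-1 : ℝ) 1)
    (hy : 0 ≤ y) (hyz : y ≤ z) (hz0 : 0 < z) (hz : a + z < 1) :
    (z - y) * c a + y * c (a + z) ≤ z * c (a + y) := by
  have h1 := hc.2 ha (show a + z ∈ Ioo (-1 : ℝ) 1 from ⟨by linarith [ha.1], hz⟩)
    (show 0 ≤ (z - y) / z from div_nonneg (by linarith) hz0.le)
    (show 0 ≤ y / z from div_nonneg hy hz0.le) (by field_simp; ring)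
  have e1 : ((z - y) / z) • a + (y / z) • (a + z) = a + y := by
    simp only [smul_eq_mul]
    field_simp
    ring
  rw [e1] at h1
  simp only [smul_eq_mul] at h1
  have h2 := mul_le_mul_of_nonneg_left h1 hz0.le
  have e2 : z * ((z - y) / z * c a + y / z * c (a + z)) = (z - y) * c a + y * c (a + z) := by
    field_simp
  linarith

/-- The line through `(a, m)` which hits the graph at the height `(1 - q) m`. -/
theorem line {c : ℝ → ℝ} (hc : ConcaveOn ℝ (Ioo (-1) 1) c)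
    (hb : ∀ τ ∈ Ioo (-1 : ℝ) 1, 0 ≤ c τ) {a : ℝ} (ha : a ∈ Ioo (-1 : ℝ) 1) (hm : 0 < c a)
    {q : ℝ} (hq0 : 0 < q) (hq1 : q < 1) :
    ∃ x β : ℝ, 0 < x ∧ x ≤ 1 - a ∧ 1 - a ≤ β ∧ x = q * β ∧
      (∀ y, 0 ≤ y → y ≤ x → a + y < 1 → c a * (1 - y / β) ≤ c (a + y)) ∧
      (∀ y, x ≤ y → a + y < 1 → c (a + y) ≤ c a * (1 - y / β)) := by
  have hcc : ContinuousOn c (Ioo (-1) 1) := hc.continuousOn isOpen_Ioo
  have hqm : 0 < q * c a := mul_pos hq0 hm
  by_cases hA : ∀ y, 0 ≤ y → a + y < 1 → (1 - q) * c a ≤ c (a + y)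
  · have hu : 0 < 1 - a := by linarith [ha.2]
    have hβ1 : 1 - a ≤ (1 - a) / q := by
      rw [le_div_iff₀ hq0]
      nlinarith
    refine ⟨1 - a, (1 - a) / q, hu, le_rfl, hβ1, by field_simp, ?_, ?_⟩
    · intro y hy _ hy1
      -- for every z in (y, 1-a)
      have key : ∀ z, y < z → a + z < 1 → c a * (z - q * y) ≤ z * c (a + y) := by
        intro z hz hz1
        have h1 := cc3 hc ha hy hz.le (by linarith) hz1
        have h2 := mul_le_mul_of_nonneg_left (hA z (by linarith) hz1) hy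
        linarith
      have key2 : c a * ((1 - a) - q * y) ≤ (1 - a) * c (a + y) := by
        by_contra hcon
        rw [not_le] at hcon
        -- continuity in z
        have hc1 : Tendsto (fun z : ℝ => c a * (z - q * y) - z * c (a + y)) (𝓝[<] (1 - a))
            (𝓝 (c a * ((1 - a) - q * y) - (1 - a) * c (a + y))) := by
          have : Continuous (fun z : ℝ => c a * (z - q * y) - z * c (a + y)) := by fun_prop
          exact (this.tendsto _).mono_left nhdsWithin_le_nhds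
        have h3 : ∀ᶠ z in 𝓝[<] (1 - a), c a * (z - q * y) - z * c (a + y) ≤ 0 := by
          have h4 : Ioo y (1 - a) ∈ 𝓝[<] (1 - a) := Ioo_mem_nhdsLT (by linarith)
          filter_upwards [h4] with z hz
          have := key z hz.1 (by linarith [hz.2])
          linarith
        have := le_of_tendsto hc1 h3
        linarith
      have e : c a * (1 - y / ((1 - a) / q)) = c a * ((1 - a) - q * y) / (1 - a) := by
        field_simp
      rw [e, div_le_iff₀ hu]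
      linarith
    · intro y hy hy1
      linarith
  · push Not at hA
    obtain ⟨y1, hy0, hy1, hlt⟩ := hA
    have hy0' : 0 < y1 := by
      rcases hy0.eq_or_lt with h | h
      · rw [← h, add_zero] at hlt; linarith
      · exact h
    have hsub : ∀ y ∈ Icc 0 y1, a + y ∈ Ioo (-1 : ℝ) 1 := fun y hy =>
      ⟨by linarith [ha.1, hy.1], by linarith [hy.2]⟩
    have hcont : ContinuousOn (fun y => c (a + y)) (Icc 0 y1) :=
      hcc.comp (by fun_prop) hsub
    have hmem : (1 - q) * c a ∈ Icc (c (a + y1)) (c (a + 0)) := ⟨hlt.le, by rw [add_zero]; linarith⟩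
    obtain ⟨x, hx, hxe⟩ := intermediate_value_Icc' hy0'.le hcont hmem
    simp only at hxe
    have hx0 : 0 < x := by
      rcases hx.1.eq_or_lt with h | h
      · rw [← h, add_zero] at hxe; linarith
      · exact h
    have hx1 : a + x < 1 := (hsub x hx).2
    have hup : ∀ y, x ≤ y → a + y < 1 → c (a + y) ≤ c a * (1 - y / (x / q)) := by
      intro y hy hy1
      have h1 := cc3 hc ha hx0.le hy (by linarith) hy1
      rw [hxe] at h1
      have e : c a * (1 - y / (x / q)) = c a * (x - q * y) / x := by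
        field_simp
      rw [e, le_div_iff₀ hx0]
      linarith
    refine ⟨x, x / q, hx0, by linarith, ?_, by field_simp, ?_, hup⟩
    · -- 1 - a ≤ β
      by_contra hcon
      rw [not_le] at hcon
      have hβx : x ≤ x / q := by
        rw [le_div_iff₀ hq0]
        nlinarith
      obtain ⟨y, hy1, hy2⟩ := exists_between hcon
      have h1 := hup y (by linarith) (by linarith)
      have h2 := hb (a + y) ⟨by linarith [ha.1], by linarith⟩
      have h3 : y / (x / q) > 1 := by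
        rw [gt_iff_lt, one_lt_div (div_pos hx0 hq0)]
        exact hy1
      nlinarith
    · intro y hy hyx _
      have h1 := cc3 hc ha hy hyx hx0 hx1
      rw [hxe] at h1
      have e : c a * (1 - y / (x / q)) = c a * (x - q * y) / x := by
        field_simp
      rw [e, div_le_iff₀ hx0]
      linarith

/-- antiderivative -/
theorem anti (κ J g β l x y : ℝ) (hβ : β ≠ 0) :
    ∫ z in x..y, (6 * J ^ 2 - κ * (z - g) ^ 2 - l) * (1 - z / β) =
      ((6 * J ^ 2 * y - κ * (y - g) ^ 3 / 3 - l * y) * (1 - y / β) +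
        (3 * J ^ 2 * y ^ 2 - κ * (y - g) ^ 4 / 12 - l * y ^ 2 / 2) / β) -
      ((6 * J ^ 2 * x - κ * (x - g) ^ 3 / 3 - l * x) * (1 - x / β) +
        (3 * J ^ 2 * x ^ 2 - κ * (x - g) ^ 4 / 12 - l * x ^ 2 / 2) / β) := by
  have h1 : ∀ z ∈ uIcc x y, HasDerivAt (fun z => (6 * J ^ 2 * z - κ * (z - g) ^ 3 / 3 - l * z) *
      (1 - z / β) + (3 * J ^ 2 * z ^ 2 - κ * (z - g) ^ 4 / 12 - l * z ^ 2 / 2) / β)
      ((6 * J ^ 2 - κ * (z - g) ^ 2 - l) * (1 - z / β)) z := by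
    intro z _
    have d1 : HasDerivAt (fun z : ℝ => z - g) 1 z := (hasDerivAt_id z).sub_const g
    have d3 := (d1.pow 3).const_mul (κ / 3)
    have d4 := (d1.pow 4).const_mul (κ / 12)
    have e1 : HasDerivAt (fun z => 6 * J ^ 2 * z - κ * (z - g) ^ 3 / 3 - l * z)
        (6 * J ^ 2 - κ * (z - g) ^ 2 - l) z := by
      have := (((hasDerivAt_id z).const_mul (6 * J ^ 2)).sub d3).sub ((hasDerivAt_id z).const_mul l)
      refine (this.congr_deriv ?_).congr_of_eventuallyEq (Eventually.of_forall fun w => ?_)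
      · push_cast
        ring
      · simp only [id, Pi.sub_apply, Pi.pow_apply]
        ring
    have e2 : HasDerivAt (fun z => 3 * J ^ 2 * z ^ 2 - κ * (z - g) ^ 4 / 12 - l * z ^ 2 / 2)
        (6 * J ^ 2 * z - κ * (z - g) ^ 3 / 3 - l * z) z := by
      have := ((((hasDerivAt_id z).pow 2).const_mul (3 * J ^ 2)).sub d4).sub
        (((hasDerivAt_id z).pow 2).const_mul (l / 2))
      refine (this.congr_deriv ?_).congr_of_eventuallyEq (Eventually.of_forall fun w => ?_)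
      · push_cast
        simp only [id]
        ring
      · simp only [id, Pi.sub_apply, Pi.pow_apply]
        ring
    have e3 : HasDerivAt (fun z : ℝ => 1 - z / β) (-(1 / β)) z := by
      have := ((hasDerivAt_id z).div_const β).const_sub 1
      exact this
    refine ((e1.mul e3).add (e2.div_const β)).congr_deriv ?_
    field_simp
    ring
  rw [intervalIntegral.integral_eq_sub_of_hasDerivAt h1]
  refine Continuous.intervalIntegrable ?_ _ _
  fun_prop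

/-- One half of the estimate. -/
theorem half {h : ℝ → ℝ} {u x β m κ J g q : ℝ} (hx0 : 0 < x) (hxu : x ≤ u) (huβ : u ≤ β)
    (hxβ : x = q * β) (hm : 0 ≤ m) (hκ : 0 ≤ κ)
    (hi : ∀ G : ℝ → ℝ, Continuous G → IntegrableOn (fun y => G y * h y) (Ioo 0 u))
    (hlo : ∀ y ∈ Ioo 0 x, m * (1 - y / β) ≤ h y) (hup : ∀ y ∈ Ioo x u, h y ≤ m * (1 - y / β))
    (h0 : ∀ y ∈ Ioo 0 u, 0 ≤ h y) (hxg : 2 * g ≤ x) (hl : κ * (x - g) ^ 2 ≤ 6 * J ^ 2) :
    m * ((6 * J ^ 2 - κ * g ^ 2) * β / 2 + κ * g * β ^ 2 / 3 - κ * β ^ 3 / 12 -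
      (6 * J ^ 2 - κ * (x - g) ^ 2) * ((1 - q) ^ 2 * β / 2)) ≤
      ∫ y in Ioo 0 u, (6 * J ^ 2 - κ * (y - g) ^ 2) * h y := by
  have hβ : 0 < β := by linarith
  have hq : Continuous fun y : ℝ => 6 * J ^ 2 - κ * (y - g) ^ 2 := by fun_prop
  have hI := hi _ hq
  have hI1 : IntegrableOn (fun y => (6 * J ^ 2 - κ * (y - g) ^ 2) * h y) (Ioc 0 x) :=
    (hI.mono_set (Ioo_subset_Ioo_right hxu)).congr_set_ae Ioo_ae_eq_Ioc.symm
  have hI2 : IntegrableOn (fun y => (6 * J ^ 2 - κ * (y - g) ^ 2) * h y) (Ioo x u) :=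
    hI.mono_set (Ioo_subset_Ioo_left hx0.le)
  have hsplit : ∫ y in Ioo 0 u, (6 * J ^ 2 - κ * (y - g) ^ 2) * h y =
      (∫ y in (0 : ℝ)..x, (6 * J ^ 2 - κ * (y - g) ^ 2) * h y) +
        ∫ y in x..u, (6 * J ^ 2 - κ * (y - g) ^ 2) * h y := by
    rw [intervalIntegral.integral_add_adjacent_intervals, intervalIntegral.integral_of_le (by linarith),
      integral_Ioc_eq_integral_Ioo]
    · rw [intervalIntegrable_iff_integrableOn_Ioc_of_le hx0.le]
      exact hI1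
    · rw [intervalIntegrable_iff_integrableOn_Ioo_of_le hxu]
      exact hI2
  set l := 6 * J ^ 2 - κ * (x - g) ^ 2 with hldef
  have hl0 : 0 ≤ l := by linarith
  have k1 : (∫ y in (0 : ℝ)..x, m * ((6 * J ^ 2 - κ * (y - g) ^ 2 - 0) * (1 - y / β))) ≤
      ∫ y in (0 : ℝ)..x, (6 * J ^ 2 - κ * (y - g) ^ 2) * h y := by
    refine intervalIntegral.integral_mono_on_of_le_Ioo hx0.le
      (Continuous.intervalIntegrable (by fun_prop) _ _) ?_ fun y hy => ?_
    · rw [intervalIntegrable_iff_integrableOn_Ioc_of_le hx0.le]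
      exact hI1
    · have h1 := hlo y hy
      have h2 : 0 ≤ 6 * J ^ 2 - κ * (y - g) ^ 2 := by
        have h3 : 0 ≤ κ * ((x - y) * (x + y - 2 * g)) :=
          mul_nonneg hκ (mul_nonneg (by linarith [hy.2]) (by linarith [hy.1]))
        nlinarith
      nlinarith [mul_le_mul_of_nonneg_left h1 h2]
  have k2 : (∫ y in x..u, m * ((6 * J ^ 2 - κ * (y - g) ^ 2 - l) * (1 - y / β))) ≤
      ∫ y in x..u, (6 * J ^ 2 - κ * (y - g) ^ 2) * h y := by
    refine intervalIntegral.integral_mono_on_of_le_Ioo hxu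
      (Continuous.intervalIntegrable (by fun_prop) _ _) ?_ fun y hy => ?_
    · rw [intervalIntegrable_iff_integrableOn_Ioo_of_le hxu]
      exact hI2
    · have h1 := hup y hy
      have h00 := h0 y ⟨by linarith [hy.1], hy.2⟩
      have h2 : 6 * J ^ 2 - κ * (y - g) ^ 2 - l ≤ 0 := by
        have h3 : 0 ≤ κ * ((y - x) * (x + y - 2 * g)) :=
          mul_nonneg hκ (mul_nonneg (by linarith [hy.1]) (by linarith [hy.1]))
        rw [hldef]
        nlinarith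
      nlinarith [mul_le_mul_of_nonpos_left h1 h2, mul_nonneg hl0 h00]
  have k3 : (∫ y in u..β, m * ((6 * J ^ 2 - κ * (y - g) ^ 2 - l) * (1 - y / β))) ≤ 0 := by
    have hneg : 0 ≤ ∫ y in u..β, -(m * ((6 * J ^ 2 - κ * (y - g) ^ 2 - l) * (1 - y / β))) := by
      refine intervalIntegral.integral_nonneg huβ fun y hy => ?_
      rw [neg_nonneg]
      have h2 : 6 * J ^ 2 - κ * (y - g) ^ 2 - l ≤ 0 := by
        have h3 : 0 ≤ κ * ((y - x) * (x + y - 2 * g)) :=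
          mul_nonneg hκ (mul_nonneg (by linarith [hy.1]) (by linarith [hy.1]))
        rw [hldef]
        nlinarith
      have h4 : 0 ≤ 1 - y / β := by
        rw [sub_nonneg, div_le_one hβ]
        exact hy.2
      exact mul_nonpos_of_nonneg_of_nonpos hm (mul_nonpos_of_nonpos_of_nonneg h2 h4)
    rw [intervalIntegral.integral_neg] at hneg
    linarith
  have k4 : (∫ y in x..u, m * ((6 * J ^ 2 - κ * (y - g) ^ 2 - l) * (1 - y / β))) +
      (∫ y in u..β, m * ((6 * J ^ 2 - κ * (y - g) ^ 2 - l) * (1 - y / β))) =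
      ∫ y in x..β, m * ((6 * J ^ 2 - κ * (y - g) ^ 2 - l) * (1 - y / β)) :=
    intervalIntegral.integral_add_adjacent_intervals
      (Continuous.intervalIntegrable (by fun_prop) _ _) (Continuous.intervalIntegrable (by fun_prop) _ _)
  rw [intervalIntegral.integral_const_mul, anti κ J g β 0 0 x hβ.ne'] at k1
  rw [intervalIntegral.integral_const_mul (a := x) (b := β), anti κ J g β l x β hβ.ne'] at k4
  rw [hsplit]
  have e : m * ((6 * J ^ 2 - κ * g ^ 2) * β / 2 + κ * g * β ^ 2 / 3 - κ * β ^ 3 / 12 -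
      l * ((1 - q) ^ 2 * β / 2)) =
      m * (((6 * J ^ 2 * x - κ * (x - g) ^ 3 / 3 - 0 * x) * (1 - x / β) +
        (3 * J ^ 2 * x ^ 2 - κ * (x - g) ^ 4 / 12 - 0 * x ^ 2 / 2) / β) -
      ((6 * J ^ 2 * 0 - κ * (0 - g) ^ 3 / 3 - 0 * 0) * (1 - 0 / β) +
        (3 * J ^ 2 * 0 ^ 2 - κ * (0 - g) ^ 4 / 12 - 0 * 0 ^ 2 / 2) / β)) +
      m * (((6 * J ^ 2 * β - κ * (β - g) ^ 3 / 3 - l * β) * (1 - β / β) +
        (3 * J ^ 2 * β ^ 2 - κ * (β - g) ^ 4 / 12 - l * β ^ 2 / 2) / β) -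
      ((6 * J ^ 2 * x - κ * (x - g) ^ 3 / 3 - l * x) * (1 - x / β) +
        (3 * J ^ 2 * x ^ 2 - κ * (x - g) ^ 4 / 12 - l * x ^ 2 / 2) / β)) := by
    rw [hldef, hxβ]
    field_simp
    ring
  rw [e]
  linarith


theorem neg_conc {c : ℝ → ℝ} (hc : ConcaveOn ℝ (Ioo (-1) 1) c) :
    ConcaveOn ℝ (Ioo (-1) 1) (fun τ => c (-τ)) := by
  refine ⟨convex_Ioo _ _, fun x hx y hy α β hα hβ hαβ => ?_⟩
  have h1 := hc.2 (show -x ∈ Ioo (-1 : ℝ) 1 from ⟨by linarith [hx.2], by linarith [hx.1]⟩)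
    (show -y ∈ Ioo (-1 : ℝ) 1 from ⟨by linarith [hy.2], by linarith [hy.1]⟩) hα hβ hαβ
  have e : α • (-x) + β • (-y) = -(α • x + β • y) := by
    simp only [smul_eq_mul]
    ring
  rw [e] at h1
  exact h1

/-- Shift of the right part. -/
theorem shr {c F : ℝ → ℝ} {a : ℝ} (ha : a ∈ Ioo (-1 : ℝ) 1) :
    ∫ τ in a..1, F (τ - a) * c τ = ∫ y in Ioo 0 (1 - a), F y * c (a + y) := by
  rw [← integral_Ioc_eq_integral_Ioo, ← intervalIntegral.integral_of_le (by linarith [ha.2])]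
  have h := intervalIntegral.integral_comp_add_left (a := 0) (b := 1 - a)
    (fun τ => F (τ - a) * c τ) a
  rw [add_zero, add_sub_cancel] at h
  rw [← h]
  refine intervalIntegral.integral_congr fun y _ => ?_
  simp only [add_sub_cancel_left]

/-- Shift of the left part. -/
theorem shl {c F : ℝ → ℝ} {a : ℝ} (ha : a ∈ Ioo (-1 : ℝ) 1) :
    ∫ τ in (-1 : ℝ)..a, F (τ - a) * c τ = ∫ y in Ioo 0 (1 + a), F (-y) * c (a - y) := by
  rw [← integral_Ioc_eq_integral_Ioo, ← intervalIntegral.integral_of_le (by linarith [ha.1])]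
  have h := intervalIntegral.integral_comp_sub_left (a := 0) (b := 1 + a)
    (fun τ => F (τ - a) * c τ) a
  rw [sub_zero, show a - (1 + a) = -1 by ring] at h
  rw [← h]
  refine intervalIntegral.integral_congr fun y _ => ?_
  simp only [sub_sub_cancel_left]

/-- Variance and maximum of a concave function on an interval. -/
theorem vs {c : ℝ → ℝ} {C : ℝ} (hc : ConcaveOn ℝ (Ioo (-1) 1) c)
    (hb : ∀ τ ∈ Ioo (-1 : ℝ) 1, 0 ≤ c τ ∧ c τ ≤ C) {a : ℝ} (ha : a ∈ Ioo (-1 : ℝ) 1) :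
    9 * c a ^ 2 * ((∫ τ in (-1 : ℝ)..1, c τ) * (∫ τ in (-1 : ℝ)..1, τ ^ 2 * c τ) -
      (∫ τ in (-1 : ℝ)..1, τ * c τ) ^ 2) ≤ 2 * (∫ τ in (-1 : ℝ)..1, c τ) ^ 4 := by
  have hle : ∀ G : ℝ → ℝ, Continuous G → ∀ x y : ℝ, -1 ≤ x → x ≤ y → y ≤ 1 →
      IntervalIntegrable (fun τ => G τ * c τ) volume x y := by
    intro G hG x y h1 h2 h3
    rw [intervalIntegrable_iff_integrableOn_Ioo_of_le h2]
    exact (integ hc hb hG).mono_set (Ioo_subset_Ioo h1 h3)
  have i0 : IntervalIntegrable (fun τ => c τ) volume (-1) 1 := by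
    have := hle (fun _ => 1) continuous_const (-1) 1 le_rfl (by norm_num) le_rfl
    simpa only [one_mul] using this
  have i1 := hle (fun τ => τ) continuous_id (-1) 1 le_rfl (by norm_num) le_rfl
  have i2 := hle (fun τ => τ ^ 2) (by fun_prop) (-1) 1 le_rfl (by norm_num) le_rfl
  set I0 := ∫ τ in (-1 : ℝ)..1, c τ with hI0
  set I1 := ∫ τ in (-1 : ℝ)..1, τ * c τ with hI1
  set I2 := ∫ τ in (-1 : ℝ)..1, τ ^ 2 * c τ with hI2
  have hI0n : 0 ≤ I0 := by
    rw [hI0, intervalIntegral.integral_of_le (by norm_num), integral_Ioc_eq_integral_Ioo]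
    exact setIntegral_nonneg measurableSet_Ioo fun τ hτ => (hb τ hτ).1
  rcases (hb a ha).1.eq_or_lt with hm | hm
  · rw [← hm]
    have : 0 ≤ I0 ^ 4 := by positivity
    simpa using this
  -- the two lines, `q = (2 + √6)/6`
  obtain ⟨r, hr⟩ : ∃ r, r = √6 := ⟨_, rfl⟩
  have hr2 : r ^ 2 = 6 := by rw [hr]; exact Real.sq_sqrt (by norm_num)
  have hr0 : 0 ≤ r := by rw [hr]; exact Real.sqrt_nonneg _
  have hr1 : r ≤ 5 / 2 := by nlinarith
  have hr3 : 12 / 5 ≤ r := by nlinarith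
  obtain ⟨q, hq⟩ : ∃ q, q = (2 + r) / 6 := ⟨_, rfl⟩
  have hq0 : 0 < q := by linarith
  have hq1 : q < 1 := by linarith
  obtain ⟨x, β, hx0, hxu, huβ, hxβ, hlo, hup⟩ := line hc (fun τ hτ => (hb τ hτ).1) ha hm hq0 hq1
  have ha' : -a ∈ Ioo (-1 : ℝ) 1 := ⟨by linarith [ha.2], by linarith [ha.1]⟩
  obtain ⟨x', β', hx0', hxu', huβ', hxβ', hlo', hup'⟩ := line (neg_conc hc)
    (fun τ hτ => (hb (-τ) ⟨by linarith [hτ.2], by linarith [hτ.1]⟩).1) ha' (by simpa using hm) hq0 hq1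
  simp only [neg_neg, neg_add, sub_neg_eq_add] at hxu' huβ' hlo' hup'
  have hβ : 0 < β := by linarith
  have hβ' : 0 < β' := by linarith
  have hββ : 0 < β * β' := mul_pos hβ hβ'
  obtain ⟨J, hJ⟩ : ∃ J, J = (β + β') / 2 := ⟨_, rfl⟩
  obtain ⟨g, hg⟩ : ∃ g, g = (β - β') / 3 := ⟨_, rfl⟩
  have hJ0 : 0 < J := by linarith
  -- integrability of the two halves
  have hi : ∀ G : ℝ → ℝ, Continuous G → IntegrableOn (fun y => G y * c (a + y)) (Ioo 0 (1 - a)) := by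
    intro G hG
    have h1 := (hle (fun τ => G (τ - a)) (by fun_prop) a 1 ha.1.le ha.2.le le_rfl).comp_add_left a
    rw [sub_self, intervalIntegrable_iff_integrableOn_Ioo_of_le (by linarith [ha.2])] at h1
    refine h1.congr_fun (fun y _ => ?_) measurableSet_Ioo
    simp only [add_sub_cancel_left]
  have hi' : ∀ G : ℝ → ℝ, Continuous G → IntegrableOn (fun y => G y * c (a - y)) (Ioo 0 (1 + a)) := by
    intro G hG
    have h1 := (hle (fun τ => G (a - τ)) (by fun_prop) (-1) a le_rfl ha.1.le ha.2.le).comp_sub_left a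
    rw [sub_self, show a - -1 = 1 + a by ring] at h1
    have h2 := h1.symm
    rw [intervalIntegrable_iff_integrableOn_Ioo_of_le (by linarith [ha.1])] at h2
    refine h2.congr_fun (fun y _ => ?_) measurableSet_Ioo
    simp only [sub_sub_cancel]
  have H1 := half (κ := 9) (J := J) (g := g) hx0 hxu huβ hxβ hm.le (by norm_num) hi
    (fun y hy => hlo y hy.1.le hy.2.le (by linarith [hy.2])) (fun y hy => hup y hy.1.le (by linarith [hy.2]))
    (fun y hy => (hb (a + y) ⟨by linarith [ha.1, hy.1], by linarith [hy.2]⟩).1)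
    (by
      rw [hg, hxβ, hq]
      nlinarith [mul_pos hβ (show 0 < r by linarith)]) (by
      have e : 6 * J ^ 2 - 9 * (x - g) ^ 2 = (3 - r) * (β * β') + β' ^ 2 / 2 +
          (6 - r ^ 2) / 4 * β ^ 2 := by
        rw [hg, hxβ, hJ, hq]
        ring
      rw [hr2] at e
      have h1 : 0 ≤ (3 - r) * (β * β') := mul_nonneg (by linarith) hββ.le
      nlinarith [sq_nonneg β'])
  have H2 := half (κ := 9) (J := J) (g := -g) hx0' hxu' huβ' hxβ' hm.le (by norm_num) hi'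
    (fun y hy => by
      have := hlo' y hy.1.le hy.2.le (by linarith [hy.2])
      rw [← sub_eq_add_neg] at this
      exact this) (fun y hy => by
      have := hup' y hy.1.le (by linarith [hy.2])
      rw [← sub_eq_add_neg] at this
      exact this)
    (fun y hy => (hb (a - y) ⟨by linarith [hy.2], by linarith [ha.2, hy.1]⟩).1)
    (by
      rw [hg, hxβ', hq]
      nlinarith [mul_pos hβ' (show 0 < r by linarith)]) (by
      have e : 6 * J ^ 2 - 9 * (x' - -g) ^ 2 = (3 - r) * (β * β') + β ^ 2 / 2 +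
          (6 - r ^ 2) / 4 * β' ^ 2 := by
        rw [hg, hxβ', hJ, hq]
        ring
      rw [hr2] at e
      have h1 : 0 ≤ (3 - r) * (β * β') := mul_nonneg (by linarith) hββ.le
      nlinarith [sq_nonneg β])
  -- the sum of the halves
  have hQ : ∫ τ in (-1 : ℝ)..1, (6 * J ^ 2 - 9 * ((τ - a) - g) ^ 2) * c τ =
      (∫ y in Ioo 0 (1 - a), (6 * J ^ 2 - 9 * (y - g) ^ 2) * c (a + y)) +
      ∫ y in Ioo 0 (1 + a), (6 * J ^ 2 - 9 * (y - -g) ^ 2) * c (a - y) := by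
    have hq : Continuous fun τ : ℝ => 6 * J ^ 2 - 9 * ((τ - a) - g) ^ 2 := by fun_prop
    rw [← intervalIntegral.integral_add_adjacent_intervals
      (hle _ hq (-1) a le_rfl ha.1.le ha.2.le) (hle _ hq a 1 ha.1.le ha.2.le le_rfl), add_comm]
    congr 1
    · exact shr (F := fun y => 6 * J ^ 2 - 9 * (y - g) ^ 2) ha
    · rw [shl (F := fun y => 6 * J ^ 2 - 9 * (y - g) ^ 2) ha]
      refine setIntegral_congr_fun measurableSet_Ioo fun y _ => ?_
      have e : -y - g = -(y - -g) := by ring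
      simp only [e, neg_sq]
  have hV : ∫ τ in (-1 : ℝ)..1, (6 * J ^ 2 - 9 * ((τ - a) - g) ^ 2) * c τ =
      (6 * J ^ 2 - 9 * (a + g) ^ 2) * I0 + 18 * (a + g) * I1 - 9 * I2 := by
    have e : (fun τ => (6 * J ^ 2 - 9 * ((τ - a) - g) ^ 2) * c τ) = fun τ =>
        (6 * J ^ 2 - 9 * (a + g) ^ 2) * c τ + 18 * (a + g) * (τ * c τ) -
          9 * (τ ^ 2 * c τ) := by
      funext τ
      ring
    rw [e, intervalIntegral.integral_sub ((i0.const_mul _).add (i1.const_mul _)) (i2.const_mul _),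
      intervalIntegral.integral_add (i0.const_mul _) (i1.const_mul _),
      intervalIntegral.integral_const_mul, intervalIntegral.integral_const_mul,
      intervalIntegral.integral_const_mul]
  have halg : c a * ((6 * J ^ 2 - 9 * g ^ 2) * β / 2 + 9 * g * β ^ 2 / 3 -
      9 * β ^ 3 / 12 - (6 * J ^ 2 - 9 * (x - g) ^ 2) * ((1 - q) ^ 2 * β / 2)) +
      c a * ((6 * J ^ 2 - 9 * (-g) ^ 2) * β' / 2 + 9 * (-g) * β' ^ 2 / 3 -
      9 * β' ^ 3 / 12 - (6 * J ^ 2 - 9 * (x' - -g) ^ 2) * ((1 - q) ^ 2 * β' / 2)) =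
      c a * (4 * J ^ 3 + J * (β * β') * (1 / 2 - (1 - q) ^ 2 * (7 / 2 - r)) -
        (6 - r ^ 2) / 8 * (1 - q) ^ 2 * (β ^ 3 + β' ^ 3)) := by
    rw [hxβ, hxβ', hJ, hg, hq]
    ring
  rw [hr2] at halg
  have hsl : 0 ≤ 1 / 2 - (1 - q) ^ 2 * (7 / 2 - r) := by
    have h1 : (1 - q) ^ 2 * (7 / 2 - r) = (125 - 50 * r) / 36 := by
      rw [hq]
      linear_combination (23 / 2 - r) / 36 * hr2
    rw [h1]
    linarith
  have hpos : 0 ≤ c a * (J * (β * β') * (1 / 2 - (1 - q) ^ 2 * (7 / 2 - r))) := by positivity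
  have hmain : 4 * J ^ 3 * c a ≤
      (6 * J ^ 2 - 9 * (a + g) ^ 2) * I0 + 18 * (a + g) * I1 - 9 * I2 := by
    rw [← hV, hQ]
    have := add_le_add H1 H2
    rw [halg] at this
    linarith
  -- conclusion
  obtain ⟨m, hmd⟩ : ∃ m, m = c a := ⟨_, rfl⟩
  obtain ⟨G, hG⟩ : ∃ G, G = a + g := ⟨_, rfl⟩
  rw [← hmd] at hmain hm ⊢
  rw [← hG] at hmain
  obtain ⟨V, hVd⟩ : ∃ V, V = I2 - 2 * G * I1 + G ^ 2 * I0 := ⟨_, rfl⟩
  have v1 : I0 * I2 - I1 ^ 2 ≤ I0 * V := by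
    have h7 := sq_nonneg (I1 - G * I0)
    have e7 : I0 * V - (I0 * I2 - I1 ^ 2) = (I1 - G * I0) ^ 2 := by
      rw [hVd]
      ring
    linarith
  have v2 : 9 * V ≤ 6 * J ^ 2 * I0 - 4 * J ^ 3 * m := by
    rw [hVd]
    linarith
  have v3 : 9 * m ^ 2 * (I0 * I2 - I1 ^ 2) ≤ 9 * m ^ 2 * (I0 * V) :=
    mul_le_mul_of_nonneg_left v1 (by positivity)
  have v4 : 9 * m ^ 2 * (I0 * V) ≤ 2 * (I0 * (3 * (J * m) ^ 2 * I0 - 2 * (J * m) ^ 3)) := by
    have h8 := mul_le_mul_of_nonneg_left v2 (show 0 ≤ m ^ 2 * I0 by positivity)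
    have e8 : m ^ 2 * I0 * (9 * V) = 9 * m ^ 2 * (I0 * V) := by ring
    have e8' : m ^ 2 * I0 * (6 * J ^ 2 * I0 - 4 * J ^ 3 * m) =
      2 * (I0 * (3 * (J * m) ^ 2 * I0 - 2 * (J * m) ^ 3)) := by ring
    linarith
  have v5 : 3 * (J * m) ^ 2 * I0 - 2 * (J * m) ^ 3 ≤ I0 ^ 3 := by
    have hp : 0 ≤ J * m := by positivity
    have h9 := mul_nonneg (sq_nonneg (I0 - J * m)) (show 0 ≤ I0 + 2 * (J * m) by linarith)
    have e9 : (I0 - J * m) ^ 2 * (I0 + 2 * (J * m)) =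
      I0 ^ 3 - (3 * (J * m) ^ 2 * I0 - 2 * (J * m) ^ 3) := by ring
    linarith
  have v6 := mul_le_mul_of_nonneg_left v5 hI0n
  have e4 : I0 * I0 ^ 3 = I0 ^ 4 := by ring
  linarith

open DUAM GDUM PRFM in
/-- The profile with the lengths of the slices. -/
theorem prof (hWB2 : SpecWB2) (hGDU : SpecGDU) (P : Set (ℝ × ℝ)) (hP : CC P)
    (hw : ∀ θ, 0 < wid P θ) (t : ℝ) : ∃ (c : ℝ → ℝ) (C : ℝ),
    ConcaveOn ℝ (Ioo (-1) 1) c ∧ (∀ τ ∈ Ioo (-1 : ℝ) 1, 0 ≤ c τ ∧ c τ ≤ C) ∧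
    (∀ G : ℝ → ℝ, Continuous G →
      ∫ p in P, G ((dotu t p - mid P t) / (wid P t / 2)) =
        wid P t / 2 * ∫ τ in (-1 : ℝ)..1, G τ * c τ) ∧
    ∀ τ ∈ Ioo (-1 : ℝ) 1, ∀ r ∈ P, ∀ r' ∈ P, dotu t r = mid P t + τ * (wid P t / 2) →
      dotu t r' = mid P t + τ * (wid P t / 2) →
      dotu (t + π / 2) r - dotu (t + π / 2) r' ≤ c τ := by
  obtain ⟨C, hC⟩ := bd hWB2 P hP t
  have hdual := fun (τ : ℝ) (hτ : τ ∈ Ioo (-1 : ℝ) 1) => dual hWB2 P hP t τ (hw t) hτ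
  set b := wid P t / 2 with hb
  set m := mid P t with hm
  have hb0 : 0 < b := by rw [hb]; linarith [hw t]
  let U1 : ℝ → ℝ := fun τ => UB (sup2 P) t τ
  let U2 : ℝ → ℝ := fun τ => UB (sup2 P) (t + π) (-τ)
  have hm1 : ∀ τ ∈ Ioo (-1 : ℝ) 1, pt t (m + τ * b) (U1 τ) ∈ P := by
    intro τ hτ
    obtain ⟨h1, h2⟩ := hdual τ hτ
    have h3 : U1 τ ∈ {x : ℝ | pt t (m + τ * b) x ∈ P} := by
      rw [h2]
      exact ⟨h1, le_rfl⟩
    exact h3
  have hm2 : ∀ τ ∈ Ioo (-1 : ℝ) 1, pt t (m + τ * b) (-U2 τ) ∈ P := by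
    intro τ hτ
    obtain ⟨h1, h2⟩ := hdual τ hτ
    have h3 : -U2 τ ∈ {x : ℝ | pt t (m + τ * b) x ∈ P} := by
      rw [h2]
      exact ⟨le_rfl, h1⟩
    exact h3
  have hle : ∀ τ ∈ Ioo (-1 : ℝ) 1, ∀ x, pt t (m + τ * b) x ∈ P → -U2 τ ≤ x ∧ x ≤ U1 τ := by
    intro τ hτ x hx
    have h3 : x ∈ {x : ℝ | pt t (m + τ * b) x ∈ P} := hx
    rw [(hdual τ hτ).2] at h3
    exact h3
  have hconc : ConcaveOn ℝ (Ioo (-1) 1) (fun τ => U1 τ + U2 τ) := by
    refine ⟨convex_Ioo _ _, ?_⟩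
    intro x hx y hy a a' ha ha' haa
    have hz : a * x + a' * y ∈ Ioo (-1 : ℝ) 1 := by
      have := (convex_Ioo (-1 : ℝ) 1) hx hy ha ha' haa
      simpa only [smul_eq_mul] using this
    have h1 := hP.1 (hm1 x hx) (hm1 y hy) ha ha' haa
    have h2 := hP.1 (hm2 x hx) (hm2 y hy) ha ha' haa
    rw [← pt_comb] at h1 h2
    have e : a * (m + x * b) + a' * (m + y * b) = m + (a * x + a' * y) * b := by
      have : a * (m + x * b) + a' * (m + y * b) = (a + a') * m + (a * x + a' * y) * b := by ring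
      rw [this, haa, one_mul]
    rw [e] at h1 h2
    have h3 := (hle _ hz _ h1).2
    have h4 := (hle _ hz _ h2).1
    simp only [smul_eq_mul]
    linarith
  have hbd : ∀ τ ∈ Ioo (-1 : ℝ) 1, 0 ≤ U1 τ + U2 τ ∧ U1 τ + U2 τ ≤ 2 * C := by
    intro τ hτ
    have h1 := (abs_le.1 (hC _ _ (hm1 τ hτ))).2
    have h2 := (abs_le.1 (hC _ _ (hm2 τ hτ))).1
    have h3 := (hdual τ hτ).1
    exact ⟨by linarith [show -U2 τ ≤ U1 τ from h3], by linarith⟩
  refine ⟨fun τ => U1 τ + U2 τ, 2 * C, hconc, hbd, fun G hG => ?_, ?_⟩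
  · rw [hGDU P hP hw G hG t, IG, intervalIntegral.integral_of_le (by norm_num),
      integral_Ioc_eq_integral_Ioo]
    have e : Bh (sup2 P) t = b := rfl
    rw [e]
    congr 1
    refine integral_congr_ae (Eventually.of_forall fun τ => ?_)
    exact mul_comm _ _
  · intro τ hτ r hr r' hr' e e'
    have h1 : pt t (m + τ * b) (dotu (t + π / 2) r) ∈ P := by
      rw [← e, pt_dotu]
      exact hr
    have h2 : pt t (m + τ * b) (dotu (t + π / 2) r') ∈ P := by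
      rw [← e', pt_dotu]
      exact hr'
    have h3 := (hle τ hτ _ h1).2
    have h4 := (hle τ hτ _ h2).1
    simp only
    linarith

theorem dotu_comb (θ a b : ℝ) (p q : ℝ × ℝ) : dotu θ (a • p + b • q) = a * dotu θ p + b * dotu θ q := by
  unfold dotu
  simp only [Prod.fst_add, Prod.smul_fst, Prod.snd_add, Prod.smul_snd, smul_eq_mul]
  ring

end ARFM

open ARFM in
theorem specARF (hWB2 : SpecWB2) (hGDU : SpecGDU) (hXMC : SpecXMC) : SpecARF := by
  intro P hP s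
  have hcc := hP.cc
  -- the chord
  obtain ⟨p, hp, hps⟩ := hWB2.2.1 P hcc s
  obtain ⟨q, hq, hqs⟩ := hWB2.2.1 P hcc (s + π)
  have hpi : ∀ (θ : ℝ) (r : ℝ × ℝ), dotu (θ + π) r = -dotu θ r := by
    intro θ r
    unfold dotu
    rw [cos_add_pi, sin_add_pi]
    ring
  have hw : dotu s p - dotu s q = wid P s := by
    rw [hpi] at hqs
    unfold wid
    linarith
  set z : ℂ := ⟨p.1 - q.1, p.2 - q.2⟩ with hz
  have h1 : ‖z‖ * cos z.arg = p.1 - q.1 := Complex.norm_mul_cos_arg z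
  have h2 : ‖z‖ * sin z.arg = p.2 - q.2 := Complex.norm_mul_sin_arg z
  obtain ⟨ℓ, hℓ⟩ : ∃ ℓ, ℓ = ‖z‖ := ⟨_, rfl⟩
  rw [← hℓ] at h1 h2
  have hℓ0 : 0 ≤ ℓ := by rw [hℓ]; exact norm_nonneg _
  obtain ⟨t, ht⟩ : ∃ t, t = z.arg - π / 2 := ⟨_, rfl⟩
  have hct : cos t = sin z.arg := by rw [ht, cos_sub_pi_div_two]
  have hst : sin t = -cos z.arg := by rw [ht, sin_sub_pi_div_two]
  have hd0 : dotu t p = dotu t q := by
    unfold dotu
    rw [hct, hst]
    linear_combination (sin z.arg) * (-h1) + (cos z.arg) * h2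
  have hd1 : dotu (t + π / 2) p - dotu (t + π / 2) q = ℓ := by
    have e : t + π / 2 = z.arg := by rw [ht]; ring
    rw [e]
    unfold dotu
    have h3 := sin_sq_add_cos_sq z.arg
    linear_combination (cos z.arg) * (-h1) + (sin z.arg) * (-h2) + ℓ * h3
  have hlw : wid P s ≤ ℓ := by
    have h3 : dotu s p - dotu s q = ℓ * cos (s - z.arg) := by
      unfold dotu
      rw [cos_sub]
      linear_combination (cos s) * (-h1) + (sin s) * (-h2)
    rw [← hw, h3]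
    have := cos_le_one (s - z.arg)
    nlinarith
  -- the profile
  obtain ⟨c, C, hc, hb, hG, hsl⟩ := prof hWB2 hGDU P hcc hP.wpos t
  have hb0 : 0 < wid P t / 2 := by linarith [hP.wpos t]
  -- the midpoint of two extreme points
  obtain ⟨a, ha, hat⟩ := hWB2.2.1 P hcc t
  obtain ⟨b, hb', hbt⟩ := hWB2.2.1 P hcc (t + π)
  rw [hpi] at hbt
  have he : (1 / 2 : ℝ) • a + (1 / 2 : ℝ) • b ∈ P :=
    hcc.1 ha hb' (by norm_num) (by norm_num) (by norm_num)
  have het : dotu t ((1 / 2 : ℝ) • a + (1 / 2 : ℝ) • b) = mid P t := by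
    rw [dotu_comb]
    unfold mid
    linarith
  obtain ⟨e, hee⟩ : ∃ e, e = (1 / 2 : ℝ) • a + (1 / 2 : ℝ) • b := ⟨_, rfl⟩
  rw [← hee] at he het
  -- the position of the chord
  obtain ⟨k, hk⟩ : ∃ k, k = (dotu t p - mid P t) / (wid P t / 2) := ⟨_, rfl⟩
  have hkp : dotu t p = mid P t + k * (wid P t / 2) := by
    rw [hk, div_mul_cancel₀ _ hb0.ne']
    ring
  have hk1 : k ≤ 1 := by
    rw [hk, div_le_one hb0]
    have := hWB2.1 P hcc t p hp
    unfold mid wid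
    linarith
  have hk2 : -1 ≤ k := by
    rw [hk, le_div_iff₀ hb0]
    have := hWB2.1 P hcc (t + π) p hp
    rw [hpi] at this
    unfold mid wid
    linarith
  have hcl : ∀ ε : ℝ, 0 < ε → ε < 1 → (1 - ε) * k ∈ Ioo (-1 : ℝ) 1 ∧ (1 - ε) * ℓ ≤ c ((1 - ε) * k) := by
    intro ε h0 h1
    have hm : (1 - ε) * k ∈ Ioo (-1 : ℝ) 1 := by
      constructor
      · nlinarith
      · nlinarith
    refine ⟨hm, ?_⟩
    have hp' : (1 - ε) • p + ε • e ∈ P := hcc.1 hp he (by linarith) h0.le (by ring)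
    have hq' : (1 - ε) • q + ε • e ∈ P := hcc.1 hq he (by linarith) h0.le (by ring)
    have h4 := hsl _ hm _ hp' _ hq' (by rw [dotu_comb, hkp, het]; ring)
      (by rw [dotu_comb, ← hd0, hkp, het]; ring)
    rw [dotu_comb, dotu_comb] at h4
    have : (1 - ε) * ℓ = (1 - ε) * dotu (t + π / 2) p + ε * dotu (t + π / 2) e -
        ((1 - ε) * dotu (t + π / 2) q + ε * dotu (t + π / 2) e) := by
      rw [← hd1]
      ring
    linarith
  -- the moments
  have g0 := hG (fun _ => 1) continuous_const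
  have g1 := hG (fun τ => τ) continuous_id
  have g2 := hG (fun τ => τ ^ 2) (by fun_prop)
  simp only [one_mul] at g0
  have ea : ∫ _p in P, (1 : ℝ) = area P := by
    rw [setIntegral_const, smul_eq_mul, mul_one]
    rfl
  rw [ea] at g0
  obtain ⟨x1, x2, -, -⟩ := hXMC P hP t
  have g1' : mf P t = wid P t / 2 * ∫ τ in (-1 : ℝ)..1, τ * c τ := g1
  have g2' : xm P t = 3 * (wid P t / 2 * ∫ τ in (-1 : ℝ)..1, τ ^ 2 * c τ) / area P := by
    unfold xm
    rw [g2]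
  obtain ⟨I0, hI0⟩ : ∃ I, I = ∫ τ in (-1 : ℝ)..1, c τ := ⟨_, rfl⟩
  obtain ⟨I1, hI1⟩ : ∃ I, I = ∫ τ in (-1 : ℝ)..1, τ * c τ := ⟨_, rfl⟩
  obtain ⟨I2, hI2⟩ : ∃ I, I = ∫ τ in (-1 : ℝ)..1, τ ^ 2 * c τ := ⟨_, rfl⟩
  obtain ⟨B, hB⟩ : ∃ B, B = wid P t / 2 := ⟨_, rfl⟩
  obtain ⟨A, hA⟩ : ∃ A, A = area P := ⟨_, rfl⟩
  obtain ⟨γ, hγ⟩ : ∃ γ, γ = gc P t := ⟨_, rfl⟩
  have hA0 : 0 < A := by rw [hA]; exact hP.apos
  have exf : xf P t = 1 / B ^ 2 := by rw [hB]; rfl
  rw [← hI0, ← hB, ← hA] at g0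
  rw [← hI1, ← hB, x2, ← hA, ← hγ] at g1'
  rw [← hI2, ← hB, ← hA, x1, exf, ← hγ] at g2'
  rw [← hB] at hb0
  have e1 : I1 = -(I0 * γ) := by
    have h6 : B * (I1 + I0 * γ) = 0 := by
      rw [g0] at g1'
      linear_combination -g1'
    rcases mul_eq_zero.1 h6 with h | h
    · exact absurd h hb0.ne'
    · linarith
  have hI00 : 0 < I0 := by
    rw [g0] at hA0
    by_contra h
    have := mul_nonpos_of_nonneg_of_nonpos hb0.le (not_lt.1 h)
    linarith
  have e2 : 3 * B ^ 2 * I2 = I0 * (1 + 3 * B ^ 2 * γ ^ 2) := by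
    rw [g0] at g2'
    field_simp at g2'
    linear_combination -g2'
  have e3 : 3 * B ^ 2 * (I0 * I2 - I1 ^ 2) = I0 ^ 2 := by
    rw [e1]
    linear_combination I0 * e2
  have hfin : ∀ ε : ℝ, 0 < ε → ε < 1 → 3 / 2 * ((1 - ε) * ℓ) ^ 2 ≤ A ^ 2 := by
    intro ε h0 h1
    obtain ⟨hm, hle⟩ := hcl ε h0 h1
    have h5 := vs hc hb hm
    rw [← hI0, ← hI1, ← hI2] at h5
    have h6 : ((1 - ε) * ℓ) ^ 2 ≤ c ((1 - ε) * k) ^ 2 :=
      pow_le_pow_left₀ (mul_nonneg (by linarith) hℓ0) hle 2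
    obtain ⟨c2, hc2⟩ : ∃ c2, c2 = c ((1 - ε) * k) ^ 2 := ⟨_, rfl⟩
    obtain ⟨w, hw2⟩ : ∃ w, w = (1 - ε) * ℓ := ⟨_, rfl⟩
    rw [← hc2] at h5 h6
    rw [← hw2] at h6 ⊢
    -- multiply by `3 B²`
    have h7 : 9 * c2 * I0 ^ 2 ≤ 6 * B ^ 2 * I0 ^ 4 := by
      have h8 := mul_le_mul_of_nonneg_left h5 (show 0 ≤ 3 * B ^ 2 by positivity)
      have e4 : 3 * B ^ 2 * (9 * c2 * (I0 * I2 - I1 ^ 2)) = 9 * c2 * I0 ^ 2 := by
        rw [← e3]
        ring
      linarith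
    have h9 : 3 / 2 * c2 ≤ A ^ 2 := by
      have h10 : 0 < I0 ^ 2 := by positivity
      have e5 : 6 * B ^ 2 * I0 ^ 4 = 6 * A ^ 2 * I0 ^ 2 := by
        rw [g0]
        ring
      rw [e5] at h7
      have h11 : 9 * c2 ≤ 6 * A ^ 2 := le_of_mul_le_mul_right h7 h10
      linarith
    linarith
  rw [← hA]
  have hfin2 : 3 / 2 * ℓ ^ 2 ≤ A ^ 2 := by
    have hc1 : Tendsto (fun ε : ℝ => 3 / 2 * ((1 - ε) * ℓ) ^ 2) (𝓝[>] 0)
        (𝓝 (3 / 2 * ((1 - 0) * ℓ) ^ 2)) := by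
      have : Continuous (fun ε : ℝ => 3 / 2 * ((1 - ε) * ℓ) ^ 2) := by fun_prop
      exact (this.tendsto _).mono_left nhdsWithin_le_nhds
    have h3 : ∀ᶠ ε in 𝓝[>] (0 : ℝ), 3 / 2 * ((1 - ε) * ℓ) ^ 2 ≤ A ^ 2 := by
      have h4 : Ioo (0 : ℝ) 1 ∈ 𝓝[>] (0 : ℝ) := Ioo_mem_nhdsGT (by norm_num)
      filter_upwards [h4] with ε hε
      exact hfin ε hε.1 hε.2
    have h5 := le_of_tendsto hc1 h3
    rw [sub_zero, one_mul] at h5
    exact h5
  have h6 : wid P s ^ 2 ≤ ℓ ^ 2 := pow_le_pow_left₀ (hP.wpos s).le hlw 2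
  linarith

end Pool.Agent.Lib.MP_084b88_gt.AY
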