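import Pool.Agent.Lib.MP_084b88_gt.AY.SpecS
import Pool.Agent.Lib.MP_084b88_gt.CW.SUL
import Pool.Agent.Lib.MP_084b88_gt.CW.RED
import Pool.Agent.Lib.MP_084b88_gt.CW.MEA

/-!
# MP_084b88_gt, project AY, module DIK: the Dirichlet inequality for convex bodies
-/

set_option autoImplicit false

open MeasureTheory Set Real Filter Topology
open scoped Pointwise InnerProductSpace

namespace Pool.Agent.Lib.MP_084b88_gt.AY

open Pool.Agent.Lib.MP_084b88_gt.CW Pool.Agent.Lib.MP_084b88_gt.SY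

namespace DIKM

/-- The symmetral. -/
def Ks (K : Set E3) : Set E3 := (1 / 2 : ℝ) • (K + (-K))

theorem cc_neg {K : Set E3} (hK : CC K) : CC (-K) := ⟨hK.1.neg, hK.2.1.neg, hK.2.2.neg⟩

theorem cc_add {K L : Set E3} (hK : CC K) (hL : CC L) : CC (K + L) :=
  ⟨hK.1.add hL.1, hK.2.1.add hL.2.1, hK.2.2.add hL.2.2⟩

theorem cc_Ks {K : Set E3} (hK : CC K) : CC (Ks K) := by
  have h := cc_add hK (cc_neg hK)
  exact ⟨h.1.smul _, h.2.1.smul _, h.2.2.smul_set⟩

theorem int_Ks {K : Set E3} (hK : CC K) (hKi : (interior K).Nonempty) :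
    (interior (Ks K)).Nonempty := by
  unfold Ks
  rw [interior_smul₀ (by norm_num)]
  refine Set.Nonempty.smul_set ?_
  have ho : IsOpen (interior K + -K) := isOpen_interior.add_right
  have hsub : interior K + -K ⊆ interior (K + -K) :=
    interior_maximal (Set.add_subset_add_right interior_subset) ho
  exact (hKi.add hK.2.2.neg).mono hsub

theorem HS_neg (K : Set E3) (x : E3) : HS (-K) x = HS K (-x) := by
  unfold HS
  congr 1
  ext r
  constructor
  · rintro ⟨y, hy, rfl⟩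
    exact ⟨-y, hy, by simp⟩
  · rintro ⟨y, hy, rfl⟩
    exact ⟨-y, by simpa using hy, by simp⟩

theorem HS_half (M : Set E3) (x : E3) : HS ((1 / 2 : ℝ) • M) x = HS M ((1 / 2 : ℝ) • x) := by
  unfold HS
  congr 1
  ext r
  constructor
  · rintro ⟨y, ⟨z, hz, rfl⟩, rfl⟩
    exact ⟨z, hz, by simp [inner_smul_left, inner_smul_right]⟩
  · rintro ⟨y, hy, rfl⟩
    exact ⟨(1 / 2 : ℝ) • y, ⟨y, hy, rfl⟩, by simp [inner_smul_left, inner_smul_right]⟩

theorem HS_Ks (hHSB : SpecHSB) {K : Set E3} (hK : CC K) (x : E3) :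
    HS (Ks K) x = (HS K x + HS K (-x)) / 2 := by
  obtain ⟨h1, -, -, -, -, -, -, h8, -⟩ := hHSB E3
  unfold Ks
  rw [HS_half, h8 _ (cc_add hK (cc_neg hK)) (1 / 2) x (by norm_num), h1 _ _ hK (cc_neg hK),
    HS_neg]
  ring

theorem sup2_Ks (hHSB : SpecHSB) {K : Set E3} (hK : CC K) (R : O3) :
    sup2 (pr R (Ks K)) = Bh (sup2 (pr R K)) := by
  funext θ
  unfold Bh
  rw [MEAM.sup2_pr, MEAM.sup2_pr, MEAM.sup2_pr, HS_Ks hHSB hK, MEAM.col_rot_add_pi]

theorem wid_pos (hMEA : SpecMEA) {K : Set E3} (hK : CC K) (hKi : (interior K).Nonempty) (R : O3)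
    (θ : ℝ) : 0 < wid (pr R K) θ := by
  obtain ⟨-, -, -, -, -, ⟨b, hb, hbw⟩, -, -, hrot⟩ := hMEA K hK hKi
  rw [(hrot R θ).1]
  exact hb.trans_le (hbw _)

theorem IG_eq (hHSB : SpecHSB) (hMEA : SpecMEA) (hGDU : SpecGDU) {K : Set E3} (hK : CC K)
    (hKi : (interior K).Nonempty) (R : O3) :
    IG (fun _ => 1) (Bh (sup2 (pr R K))) 0 = area (pr R (Ks K)) := by
  have h := hGDU (pr R (Ks K)) (MEAM.cc_pr (cc_Ks hK) R)
    (fun θ => wid_pos hMEA (cc_Ks hK) (int_Ks hK hKi) R θ) (fun _ => 1) continuous_const 0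
  rw [← sup2_Ks hHSB hK, ← h]
  simp [area, Measure.real]

theorem mean_pol {μ : Measure O3} (hμ : HaarO μ) (x y : E3) :
    ∫ R, ⟪col R 0, x⟫_ℝ * ⟪col R 0, y⟫_ℝ ∂μ = ⟪x, y⟫_ℝ / 3 := by
  have hP := hμ.1
  have h1 := SULM.mean_sq hμ (x + y)
  have h2 := SULM.mean_sq hμ (x - y)
  have hc : ∀ w : E3, Continuous (fun R : O3 => ⟪col R 0, w⟫_ℝ ^ 2) := fun w =>
    ((continuous_col 0).inner continuous_const).pow 2
  have e : ∫ R, ⟪col R 0, x⟫_ℝ * ⟪col R 0, y⟫_ℝ ∂μ =
      ∫ R, (1 / 4 * ⟪col R 0, x + y⟫_ℝ ^ 2 - 1 / 4 * ⟪col R 0, x - y⟫_ℝ ^ 2) ∂μ := by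
    congr 1
    funext R
    rw [inner_add_right, inner_sub_right]
    ring
  rw [e, integral_sub ((LN3M.integ (hc _)).const_mul _) ((LN3M.integ (hc _)).const_mul _),
    integral_const_mul, integral_const_mul, h1, h2, norm_add_sq_real, norm_sub_sq_real]
  ring

theorem col_rot_add (R : O3) (t α : ℝ) : col (R * rot (t + α)) 0 = col (R * rot t * rot α) 0 := by
  rw [col_rot_zero, col_rot_zero, col_rot_zero, col_rot_one, cos_add, sin_add]
  module

theorem int_cc (x y : ℝ) : ∫ s in (0 : ℝ)..(2 * π), ln x y s * cos s = x * π := by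
  have e : ∀ s : ℝ, ln x y s * cos s = x * (cos s ^ 2) + y * (sin s * cos s) := by
    intro s; unfold ln; ring
  rw [intervalIntegral.integral_congr (fun s _ => e s), intervalIntegral.integral_add
    ((by fun_prop : Continuous fun s : ℝ => x * cos s ^ 2).intervalIntegrable _ _)
    ((by fun_prop : Continuous fun s : ℝ => y * (sin s * cos s)).intervalIntegrable _ _),
    intervalIntegral.integral_const_mul, intervalIntegral.integral_const_mul, integral_cos_sq,
    integral_sin_mul_cos₁]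
  simp

theorem g3f_sub {m : ℝ → ℝ} (hm : Continuous m) (x y : ℝ) :
    g3f (fun t => m t - ln x y t) 0 = g3f m 0 := by
  have hln : Continuous (ln x y) := by unfold ln; fun_prop
  unfold g3f
  have e1 : ∫ s in (0 : ℝ)..(2 * π), (m s - ln x y s) * cos s =
      (∫ s in (0 : ℝ)..(2 * π), m s * cos s) - x * π := by
    have i1 : IntervalIntegrable (fun s => m s * cos s) volume 0 (2 * π) :=
      (hm.mul continuous_cos).intervalIntegrable _ _
    have i2 : IntervalIntegrable (fun s => ln x y s * cos s) volume 0 (2 * π) :=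
      (hln.mul continuous_cos).intervalIntegrable _ _
    rw [← int_cc x y, ← intervalIntegral.integral_sub i1 i2]
    apply intervalIntegral.integral_congr
    intro s _
    simp only
    ring
  have e2 : ln x y 0 = x := by unfold ln; simp
  have hpi := Real.pi_ne_zero
  simp only [e1, e2, cos_zero, sin_zero, mul_one, mul_zero, sub_zero]
  field_simp
  ring

end DIKM

open DIKM in
theorem specDIK (hHSB : SpecHSB) (hMEA : SpecMEA) (hMEB : SpecMEB) (hGDU : SpecGDU)
    (hE85 : SpecE85) (hDIR : SpecDIR) (hPLD : SpecPLD) : SpecDIK := by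
  intro μ hμ K hK hKi
  have hP := hμ.1
  have hIP : 0 < π := Real.pi_pos
  have hHSc : Continuous (HS K) := (hHSB E3).2.2.2.2.1 K hK
  obtain ⟨hmc, hmm, hmrot, -, -, -, -, -⟩ := hMEB K hK hKi
  -- integrability
  have hdA : Integrable (fun R : O3 => dA (pr R K)) μ := by
    obtain ⟨C1, hC1⟩ := MEAM.area_bdd hK
    obtain ⟨C2, hC2⟩ := MEAM.area_bdd (cc_Ks hK)
    have e : (fun R : O3 => dA (pr R K)) = fun R => area (pr R (Ks K)) - area (pr R K) := by
      funext R
      unfold dA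
      rw [IG_eq hHSB hMEA hGDU hK hKi]
    rw [e]
    have hn : ∀ (L : Set E3) (R : O3), 0 ≤ area (pr R L) := fun L R => ENNReal.toReal_nonneg
    refine Integrable.sub ?_ ?_
    · refine Integrable.of_bound (MEAM.meas_area (cc_Ks hK)).aestronglyMeasurable C2
        (Eventually.of_forall fun R => ?_)
      rw [Real.norm_eq_abs, abs_of_nonneg (hn _ R)]
      exact hC2 R
    · refine Integrable.of_bound (MEAM.meas_area hK).aestronglyMeasurable C1
        (Eventually.of_forall fun R => ?_)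
      rw [Real.norm_eq_abs, abs_of_nonneg (hn _ R)]
      exact hC1 R
  refine ⟨hdA, ?_⟩
  -- the point
  set V : E3 := ∫ R, mid (pr R K) 0 • col R 0 ∂μ with hV
  set O : E3 := (3 : ℝ) • V with hO
  have hVi : Integrable (fun R : O3 => mid (pr R K) 0 • col R 0) μ :=
    (hmc.smul (continuous_col 0)).integrable_of_hasCompactSupport
      (HasCompactSupport.of_compactSpace _)
  have hOx : ∀ x : E3, ∫ R, mid (pr R K) 0 * ⟪col R 0, x⟫_ℝ ∂μ = ⟪O, x⟫_ℝ / 3 := by
    intro x
    have h := integral_inner (𝕜 := ℝ) hVi x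
    have e : ∀ R : O3, ⟪x, mid (pr R K) 0 • col R 0⟫_ℝ = mid (pr R K) 0 * ⟪col R 0, x⟫_ℝ := by
      intro R
      rw [inner_smul_right, real_inner_comm]
    simp only [e] at h
    rw [h, hO, inner_smul_left, real_inner_comm x, ← hV]
    simp
  have hci : ∀ x : E3, Continuous (fun R : O3 => ⟪col R 0, x⟫_ℝ) := fun x =>
    (continuous_col 0).inner continuous_const
  have hmean : ∀ x : E3,
      ∫ R, (mid (pr R K) 0 - ⟪col R 0, O⟫_ℝ) * ⟪col R 0, x⟫_ℝ ∂μ = 0 := by
    intro x
    have e : ∀ R : O3, (mid (pr R K) 0 - ⟪col R 0, O⟫_ℝ) * ⟪col R 0, x⟫_ℝ =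
        mid (pr R K) 0 * ⟪col R 0, x⟫_ℝ - ⟪col R 0, O⟫_ℝ * ⟪col R 0, x⟫_ℝ := fun R => by ring
    have j1 : Integrable (fun R : O3 => mid (pr R K) 0 * ⟪col R 0, x⟫_ℝ) μ :=
      LN3M.integ (hmc.mul (hci x))
    have j2 : Integrable (fun R : O3 => ⟪col R 0, O⟫_ℝ * ⟪col R 0, x⟫_ℝ) μ :=
      LN3M.integ ((hci O).mul (hci x))
    simp only [e]
    rw [integral_sub j1 j2, hOx, mean_pol hμ]
    ring
  -- the function on the sphere
  set f : E3 → ℝ := fun x => (HS K x - HS K (-x)) / 2 - ⟪x, O⟫_ℝ with hf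
  have hfc : Continuous f := by
    have h1 : Continuous (fun x : E3 => HS K (-x)) := hHSc.comp continuous_neg
    have h2 : Continuous (fun x : E3 => ⟪x, O⟫_ℝ) := continuous_id.inner continuous_const
    exact ((hHSc.sub h1).div_const 2).sub h2
  have hfodd : ∀ x, f (-x) = - f x := by
    intro x
    simp only [hf, neg_neg, inner_neg_left]
    ring
  have hfR : ∀ R : O3, f (col R 0) = mid (pr R K) 0 - ⟪col R 0, O⟫_ℝ := by
    intro R
    rw [hmm R]
  have hfRt : ∀ (R : O3) (t : ℝ), f (col (R * rot t) 0) =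
      mid (pr R K) t - ln ⟪col R 0, O⟫_ℝ ⟪col R 1, O⟫_ℝ t := by
    intro R t
    rw [hfR, ← hmrot R t, col_rot_zero, inner_add_left, inner_smul_left, inner_smul_left]
    unfold ln
    simp only [RCLike.conj_to_real]
    ring
  have hf0 : ∀ x, ∫ S, f (col S 0) * ⟪col S 0, x⟫_ℝ ∂μ = 0 := by
    intro x
    simp only [hfR]
    exact hmean x
  have hg3 : ∀ R : O3, g3f (fun t => f (col (R * rot t) 0)) 0 = g3f (mid (pr R K)) 0 := by
    intro R
    have e : (fun t => f (col (R * rot t) 0)) =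
        fun t => mid (pr R K) t - ln ⟪col R 0, O⟫_ℝ ⟪col R 1, O⟫_ℝ t := by
      funext t
      exact hfRt R t
    rw [e]
    apply g3f_sub
    have e2 : mid (pr R K) = fun t => f (col (R * rot t) 0) +
        ln ⟪col R 0, O⟫_ℝ ⟪col R 1, O⟫_ℝ t := by
      funext t
      rw [hfRt R t]
      ring
    rw [e2]
    have h1 : Continuous (fun t : ℝ => f (col (R * rot t) 0)) :=
      hfc.comp ((continuous_col 0).comp (continuous_const.mul continuous_rot))
    have h2 : Continuous (fun t : ℝ => ln ⟪col R 0, O⟫_ℝ ⟪col R 1, O⟫_ℝ t) := by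
      unfold ln; fun_prop
    exact h1.add h2
  refine ⟨O, hmean, ?_, ?_⟩
  · have h := hE85 μ hμ f hfc hfodd hf0
    simp only [hg3] at h
    simp only [hfR] at h
    exact h
  · -- Dirichlet
    have hD := hDIR μ hμ f hfc hfodd hf0
      (1 / π * ∫ R, dA (pr R K) ∂μ + ∫ R, f (col R 0) ^ 2 ∂μ) (by
        intro α hα hα1
        set G1 : O3 → ℝ := fun R => (f (col (R * rot α) 0) - f (col R 0)) ^ 2 with hG1
        set G2 : O3 → ℝ := fun R => f (col R 0) ^ 2 with hG2
        have hfc0 : Continuous (fun R : O3 => f (col R 0)) := hfc.comp (continuous_col 0)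
        have hfc1 : Continuous (fun R : O3 => f (col (R * rot α) 0)) :=
          hfc.comp ((continuous_col 0).comp (continuous_id.mul continuous_const))
        have hG1c : Continuous G1 := (hfc1.sub hfc0).pow 2
        have hG2c : Continuous G2 := hfc0.pow 2
        obtain ⟨M1, hM1⟩ := (isCompact_univ (X := O3)).exists_bound_of_continuousOn
          (f := G1) hG1c.continuousOn
        obtain ⟨M2, hM2⟩ := (isCompact_univ (X := O3)).exists_bound_of_continuousOn
          (f := G2) hG2c.continuousOn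
        obtain ⟨i1, e1⟩ := REDM.fub μ hμ G1 hG1c.measurable M1 (fun R => hM1 R (mem_univ _)) rot
          continuous_rot (2 * π) (by positivity)
        obtain ⟨i2, e2⟩ := REDM.fub μ hμ G2 hG2c.measurable M2 (fun R => hM2 R (mem_univ _)) rot
          continuous_rot (2 * π) (by positivity)
        have hpt : ∀ R : O3, ∫ t in (0 : ℝ)..(2 * π), G1 (R * rot t) ≤
            α ^ 2 * (2 * dA (pr R K) + ∫ t in (0 : ℝ)..(2 * π), G2 (R * rot t)) := by
          intro R
          obtain ⟨-, -, h3⟩ := hPLD (pr R K) (MEAM.cc_pr hK R) (wid_pos hMEA hK hKi R)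
          have h4 := h3 ⟪col R 0, O⟫_ℝ ⟪col R 1, O⟫_ℝ α
          simp only [← hfRt] at h4
          simp only [hG1, hG2, ← col_rot_add]
          exact h4
        have hint := integral_mono (μ := μ) i1 (((hdA.const_mul 2).add i2).const_mul (α ^ 2)) hpt
        rw [e1, integral_const_mul] at hint
        have e3 : ∫ R, (2 * dA (pr R K) + ∫ t in (0 : ℝ)..(2 * π), G2 (R * rot t)) ∂μ =
            2 * (∫ R, dA (pr R K) ∂μ) + 2 * π * ∫ R, G2 R ∂μ := by
          rw [integral_add (hdA.const_mul 2) i2, integral_const_mul, e2]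
        have e4 : ∫ R, (f (col R 0) - f (col (R * rot α) 0)) ^ 2 ∂μ = ∫ R, G1 R ∂μ := by
          congr 1
          funext R
          simp only [hG1]
          ring
        rw [e4]
        have h5 : 2 * π * ∫ R, G1 R ∂μ ≤
            α ^ 2 * (2 * (∫ R, dA (pr R K) ∂μ) + 2 * π * ∫ R, G2 R ∂μ) := by
          rw [← e3]
          exact hint
        have h6 : α ^ 2 * (2 * (∫ R, dA (pr R K) ∂μ) + 2 * π * ∫ R, G2 R ∂μ) =
            2 * π * (α ^ 2 * (1 / π * ∫ R, dA (pr R K) ∂μ + ∫ R, G2 R ∂μ)) := by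
          field_simp
        rw [h6] at h5
        exact le_of_mul_le_mul_left h5 (by positivity))
    simp only [hfR] at hD
    have h7 : 5 * ∫ R, (mid (pr R K) 0 - ⟪col R 0, O⟫_ℝ) ^ 2 ∂μ ≤
        1 / π * ∫ R, dA (pr R K) ∂μ := by linarith
    have h8 := mul_le_mul_of_nonneg_left h7 hIP.le
    have h9 : π * (1 / π * ∫ R, dA (pr R K) ∂μ) = ∫ R, dA (pr R K) ∂μ := by
      field_simp
    rw [h9] at h8
    linarith

end Pool.Agent.Lib.MP_084b88_gt.AY
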