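import Pool.Agent.Lib.MP_084b88_gt.AY.ASM
import Pool.Agent.Lib.MP_084b88_gt.AY.DIK

/-!
# MP_084b88_gt, project AY, module AS0: 3D assembly with the payment `mu` only (no Dirichlet inequality)
-/

set_option autoImplicit false

open MeasureTheory Set Real Filter Topology
open scoped Pointwise InnerProductSpace

namespace Pool.Agent.Lib.MP_084b88_gt.AY

open Pool.Agent.Lib.MP_084b88_gt.CW Pool.Agent.Lib.MP_084b88_gt.SY

/-- The Steiner point and E85. -/
def SpecDI0 : Prop :=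
  ∀ μ : Measure O3, HaarO μ → ∀ K : Set E3, CC K → (interior K).Nonempty →
    ∃ O : E3, (∀ x, ∫ R, (mid (pr R K) 0 - ⟪col R 0, O⟫_ℝ) * ⟪col R 0, x⟫_ℝ ∂μ = 0) ∧
      ∫ R, (mid (pr R K) 0 - ⟪col R 0, O⟫_ℝ) ^ 2 ∂μ ≤
        8 / 5 * ∫ R, g3f (mid (pr R K)) 0 ^ 2 ∂μ

/-- ASM with `nu = 0`. -/
def SpecAS0 : Prop :=
  ∀ (b0 mu : ℝ) (W L : ℝ → ℝ), 0 < b0 → b0 ≤ 1 → 0 ≤ mu →
    ContinuousOn W (Icc b0 2) → ContinuousOn L (Icc b0 2) →
    (∀ y ∈ Icc b0 2, taup * W y ^ 2 ≤ (1 + taup) * ((1 + y) ^ 2 / (4 * y) - L y ^ 2 / 2)) →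
    (∀ P : Set (ℝ × ℝ), CC P → 0 < area P → ∀ b : ℝ, 0 < b →
      (∀ t, b0 * b ≤ wid P t / 2) → (∀ t, wid P t / 2 ≤ 2 * b) →
      ∀ o : ℝ × ℝ, (∀ t, |mid P t - dotu t o| ≤ wid P t / 2) → 0 ≤ PVf W L mu 0 b P o) →
    ∀ K : Set E3, CC K → (interior K).Nonempty → ∀ V1 V2 : ℝ, STEI K V1 V2 →
      (∀ u : E3, ‖u‖ = 1 → b0 * (V1 / 2) ≤ HS K u + HS K (-u)) →
      ∀ c : ℝ, HSEC K c → 4 * c * V2 ^ 2 ≤ 3 * Real.pi * V1 * (volume K).toReal

open DIKM in
theorem specDI0 (hHSB : SpecHSB) (hMEB : SpecMEB) (hE85 : SpecE85) : SpecDI0 := by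
  intro μ hμ K hK hKi
  have hP := hμ.1
  have hIP : 0 < π := Real.pi_pos
  have hHSc : Continuous (HS K) := (hHSB E3).2.2.2.2.1 K hK
  obtain ⟨hmc, hmm, hmrot, -, -, -, -, -⟩ := hMEB K hK hKi
  -- the point
  set V : E3 := ∫ R, mid (pr R K) 0 • col R 0 ∂μ with hV
  set O : E3 := (3 : ℝ) • V with hO
  have hVi : Integrable (fun R : O3 => mid (pr R K) 0 • col R 0) μ :=
    (hmc.smul (continuous_col 0)).integrable_of_hasCompactSupport
      (HasCompactSupport.of_compactSpace _)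
  have hOx : ∀ x : E3, ∫ R, mid (pr R K) 0 * ⟪col R 0, x⟫_ℝ ∂μ = ⟪O, x⟫_ℝ / 3 := by
    intro x
    have h := integral_inner (𝕜 := ℝ) hVi x
    have e : ∀ R : O3, ⟪x, mid (pr R K) 0 • col R 0⟫_ℝ = mid (pr R K) 0 * ⟪col R 0, x⟫_ℝ := by
      intro R
      rw [inner_smul_right, real_inner_comm]
    simp only [e] at h
    rw [h, hO, inner_smul_left, real_inner_comm x, ← hV]
    simp
  have hci : ∀ x : E3, Continuous (fun R : O3 => ⟪col R 0, x⟫_ℝ) := fun x =>
    (continuous_col 0).inner continuous_const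
  have hmean : ∀ x : E3,
      ∫ R, (mid (pr R K) 0 - ⟪col R 0, O⟫_ℝ) * ⟪col R 0, x⟫_ℝ ∂μ = 0 := by
    intro x
    have e : ∀ R : O3, (mid (pr R K) 0 - ⟪col R 0, O⟫_ℝ) * ⟪col R 0, x⟫_ℝ =
        mid (pr R K) 0 * ⟪col R 0, x⟫_ℝ - ⟪col R 0, O⟫_ℝ * ⟪col R 0, x⟫_ℝ := fun R => by ring
    have j1 : Integrable (fun R : O3 => mid (pr R K) 0 * ⟪col R 0, x⟫_ℝ) μ :=
      LN3M.integ (hmc.mul (hci x))
    have j2 : Integrable (fun R : O3 => ⟪col R 0, O⟫_ℝ * ⟪col R 0, x⟫_ℝ) μ :=
      LN3M.integ ((hci O).mul (hci x))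
    simp only [e]
    rw [integral_sub j1 j2, hOx, mean_pol hμ]
    ring
  -- the function on the sphere
  set f : E3 → ℝ := fun x => (HS K x - HS K (-x)) / 2 - ⟪x, O⟫_ℝ with hf
  have hfc : Continuous f := by
    have h1 : Continuous (fun x : E3 => HS K (-x)) := hHSc.comp continuous_neg
    have h2 : Continuous (fun x : E3 => ⟪x, O⟫_ℝ) := continuous_id.inner continuous_const
    exact ((hHSc.sub h1).div_const 2).sub h2
  have hfodd : ∀ x, f (-x) = - f x := by
    intro x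
    simp only [hf, neg_neg, inner_neg_left]
    ring
  have hfR : ∀ R : O3, f (col R 0) = mid (pr R K) 0 - ⟪col R 0, O⟫_ℝ := by
    intro R
    rw [hmm R]
  have hfRt : ∀ (R : O3) (t : ℝ), f (col (R * rot t) 0) =
      mid (pr R K) t - ln ⟪col R 0, O⟫_ℝ ⟪col R 1, O⟫_ℝ t := by
    intro R t
    rw [hfR, ← hmrot R t, col_rot_zero, inner_add_left, inner_smul_left, inner_smul_left]
    unfold ln
    simp only [RCLike.conj_to_real]
    ring
  have hf0 : ∀ x, ∫ S, f (col S 0) * ⟪col S 0, x⟫_ℝ ∂μ = 0 := by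
    intro x
    simp only [hfR]
    exact hmean x
  have hg3 : ∀ R : O3, g3f (fun t => f (col (R * rot t) 0)) 0 = g3f (mid (pr R K)) 0 := by
    intro R
    have e : (fun t => f (col (R * rot t) 0)) =
        fun t => mid (pr R K) t - ln ⟪col R 0, O⟫_ℝ ⟪col R 1, O⟫_ℝ t := by
      funext t
      exact hfRt R t
    rw [e]
    apply g3f_sub
    have e2 : mid (pr R K) = fun t => f (col (R * rot t) 0) +
        ln ⟪col R 0, O⟫_ℝ ⟪col R 1, O⟫_ℝ t := by
      funext t
      rw [hfRt R t]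
      ring
    rw [e2]
    have h1 : Continuous (fun t : ℝ => f (col (R * rot t) 0)) :=
      hfc.comp ((continuous_col 0).comp (continuous_const.mul continuous_rot))
    have h2 : Continuous (fun t : ℝ => ln ⟪col R 0, O⟫_ℝ ⟪col R 1, O⟫_ℝ t) := by
      unfold ln; fun_prop
    exact h1.add h2
  refine ⟨O, hmean, ?_⟩
  have h := hE85 μ hμ f hfc hfodd hf0
  simp only [hg3] at h
  simp only [hfR] at h
  exact h

open ASMM REDM RE2M in
theorem specAS0 (hHSB : SpecHSB) (hHAA : SpecHAA) (hMEA : SpecMEA) (hMEB : SpecMEB)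
    (hLEN : SpecLEN) (hCAU : SpecCAU) (hRE2D : SpecRE2D) (hDIA : LG.SpecDIA) (hDI0 : SpecDI0)
    (hSTP : SpecSTP) : SpecAS0 := by
  intro b0 mu W L hb0 hb1 hmu hW hL hpt hpl K hK hKi V1 V2 hst hwid c hc
  obtain ⟨μ, hμ⟩ := hHAA
  have hprob : IsProbabilityMeasure μ := hμ.1
  obtain ⟨hCC, hAm, ⟨CA, hCA⟩, hsup, hwc, ⟨w0, hw0, hbw⟩, hqm, hq, hrot⟩ := hMEA K hK hKi
  obtain ⟨hgc, hgH, hgr, hmm, hmA, hmr, hg3c, hg3r⟩ := hMEB K hK hKi
  obtain ⟨O, hO0, hO1⟩ := hDI0 μ hμ K hK hKi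
  have hpi := pi_pos
  set b : ℝ := ∫ R, wid (pr R K) 0 / 2 ∂μ with hbdef
  obtain ⟨hb, hV1, -⟩ := RE3M.mean_facts hMEA hLEN hCAU μ hμ K hK hKi b hbdef V1 V2 hst
  have hV14 : V1 / 4 = b := by rw [hV1]; ring
  -- bounds of the widths
  have hlo : ∀ R : O3, b0 ≤ wid (pr R K) 0 / 2 / b := by
    intro R
    rw [le_div_iff₀ hb, wid_eq]
    have h1 := hwid (col R 0) (norm_col R 0)
    rw [hV1] at h1
    linarith
  have hhi : ∀ R : O3, wid (pr R K) 0 / 2 / b ≤ 2 := by
    intro R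
    rw [div_le_iff₀ hb]
    have h1 := hDIA K hK hKi V1 V2 hst R 0
    rw [hV14] at h1
    exact h1
  have hstp : ∀ R : O3, |mid (pr R K) 0 - ⟪col R 0, O⟫_ℝ| ≤ wid (pr R K) 0 / 2 := by
    intro R
    have h1 := hSTP μ hμ K hK hKi O hO0 R 0
    rw [dotu_cd, MEAM.col_rot_zero'] at h1
    exact h1
  -- the functions on the sphere
  have hHS : Continuous (HS K) := (hHSB E3).2.2.2.2.1 K hK
  set Bu : E3 → ℝ := fun u => max b0 (min 2 ((HS K u + HS K (-u)) / 2 / b)) with hBu
  have hBuc : Continuous Bu := continuous_const.max (continuous_const.min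
    (((hHS.add (hHS.comp continuous_neg)).div_const 2).div_const b))
  have hBm : ∀ u, Bu u ∈ Icc b0 2 := fun u =>
    ⟨le_max_left _ _, max_le (by linarith) (min_le_left _ _)⟩
  have hBpos : ∀ u, 0 < Bu u := fun u => lt_of_lt_of_le hb0 (hBm u).1
  have hBR : ∀ R : O3, Bu (col R 0) = wid (pr R K) 0 / 2 / b := by
    intro R
    simp only [hBu]
    rw [← wid_eq, min_eq_right (hhi R), max_eq_right (hlo R)]
  set gu : E3 → ℝ := fun u => ((HS K u - HS K (-u)) / 2 - ⟪u, O⟫_ℝ) / (b * Bu u) with hgu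
  have hguc : Continuous gu := by
    refine Continuous.div ?_ (continuous_const.mul hBuc) (fun u => (mul_pos hb (hBpos u)).ne')
    exact ((hHS.sub (hHS.comp continuous_neg)).div_const 2).sub
      (continuous_id.inner continuous_const)
  have hgR : ∀ R : O3, gu (col R 0) = (mid (pr R K) 0 - ⟪col R 0, O⟫_ℝ) / (wid (pr R K) 0 / 2) := by
    intro R
    simp only [hgu]
    rw [hBR, ← hgH]
    congr 1
    field_simp
  have hg1 : ∀ R : O3, |gu (col R 0)| ≤ 1 := by
    intro R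
    have hw : 0 < wid (pr R K) 0 / 2 := by linarith [hbw R]
    rw [hgR, abs_div, abs_of_pos hw, div_le_one hw]
    exact hstp R
  have hWc : Continuous (fun u : E3 => W (Bu u)) := hW.comp_continuous hBuc hBm
  have hLc : Continuous (fun u : E3 => L (Bu u)) := hL.comp_continuous hBuc hBm
  have ht1 : (1 + taup) ≠ 0 := by have := taup_nonneg; positivity
  have hGc : Continuous (fun u : E3 => GV W L (Bu u) (gu u)) := by
    unfold GV
    refine Continuous.div_const ?_ _
    refine (continuous_const.mul hWc).add (Continuous.sqrt ?_)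
    refine (continuous_const.mul ?_).sub (continuous_const.mul (hWc.pow 2))
    refine Continuous.sub ?_ (((hLc.mul hguc).pow 2).div_const 2)
    refine Continuous.div ((continuous_const.add hBuc).pow 2) (continuous_const.mul hBuc) ?_
    intro u
    have := hBpos u
    positivity
  have hVc : Continuous (fun u : E3 => -(L (Bu u) * gu u)) := (hLc.mul hguc).neg
  have hDc : Continuous (fun u : E3 => (1 + Bu u) / 2) :=
    (continuous_const.add hBuc).div_const 2
  refine hRE2D μ hμ K hK hKi (fun u => GV W L (Bu u) (gu u)) (fun u => W (Bu u))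
    (fun u => -(L (Bu u) * gu u)) (fun u => (1 + Bu u) / 2) hGc hWc hVc hDc b hbdef ?_ ?_ ?_ ?_
    c hc V1 V2 hst
  · intro R
    have := hBpos (col R 0)
    positivity
  · intro R
    rw [← hBR R]
    have h1 := GV_eq W L (Bu (col R 0)) (gu (col R 0)) (hg1 R) (hpt _ (hBm _))
    rw [h1]
    have := hBpos (col R 0)
    apply le_of_eq
    field_simp
    ring
  · have e : ∀ R : O3, (1 + Bu (col R 0)) / 2 = 1 / 2 + (wid (pr R K) 0 / 2) * (1 / (2 * b)) := by
      intro R
      rw [hBR]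
      field_simp
    simp only [e]
    have i2 : Integrable (fun R : O3 => wid (pr R K) 0 / 2 * (1 / (2 * b))) μ :=
      cont_int_O3 μ hμ ((hwc.div_const 2).mul continuous_const)
    rw [integral_add (integrable_const _) i2, integral_mul_const, ← hbdef]
    simp only [integral_const, probReal_univ, one_smul]
    apply le_of_eq
    field_simp
    norm_num
  · -- the average over the rotations
    set GG : O3 → ℝ := fun R => kap * (GV W L (Bu (col R 0)) (gu (col R 0)) - 1) * area (pr R K) +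
      W (Bu (col R 0)) * (qf (pr R K) 0 - kap * area (pr R K)) +
      -(L (Bu (col R 0)) * gu (col R 0)) * mf (pr R K) 0 with hGG
    set gO : O3 → ℝ := fun R => mid (pr R K) 0 - ⟪col R 0, O⟫_ℝ with hgO
    set g3 : O3 → ℝ := fun R => g3f (mid (pr R K)) 0 with hg3
    have hA0 : ∀ R, 0 ≤ area (pr R K) := fun R => (hq R).1.trans (hq R).2
    have hCA0 : 0 ≤ CA := (hA0 1).trans (hCA 1)
    have hkap : 0 ≤ kap := by unfold kap; positivity
    have hGR : Continuous (fun R : O3 => kap * (GV W L (Bu (col R 0)) (gu (col R 0)) - 1)) :=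
      continuous_const.mul ((hGc.comp (continuous_col 0)).sub continuous_const)
    have hWR : Continuous (fun R : O3 => W (Bu (col R 0))) := hWc.comp (continuous_col 0)
    have hVR : Continuous (fun R : O3 => -(L (Bu (col R 0)) * gu (col R 0))) :=
      hVc.comp (continuous_col 0)
    obtain ⟨C1, hC10, hC1⟩ := bd_O3 hGR
    obtain ⟨C2, hC20, hC2⟩ := bd_O3 hWR
    obtain ⟨C3, hC30, hC3⟩ := bd_O3 hVR
    have hGGm : Measurable GG :=
      ((hGR.measurable.mul hAm).add (hWR.measurable.mul (hqm.sub (hAm.const_mul kap)))).add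
        (hVR.measurable.mul hmm)
    have hGGb : ∀ R, |GG R| ≤ C1 * CA + C2 * (CA + kap * CA) + C3 * CA := by
      intro R
      refine (abs_add_le _ _).trans (add_le_add ((abs_add_le _ _).trans (add_le_add ?_ ?_)) ?_)
      · rw [abs_mul]
        refine mul_le_mul (hC1 R) ?_ (abs_nonneg _) hC10
        rw [abs_of_nonneg (hA0 R)]; exact hCA R
      · rw [abs_mul]
        refine mul_le_mul (hC2 R) ?_ (abs_nonneg _) hC20
        refine (abs_sub _ _).trans (add_le_add ?_ ?_)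
        · rw [abs_of_nonneg (hq R).1]; exact (hq R).2.trans (hCA R)
        · rw [abs_of_nonneg (mul_nonneg hkap (hA0 R))]
          exact mul_le_mul_of_nonneg_left (hCA R) hkap
      · rw [abs_mul]
        exact mul_le_mul (hC3 R) ((hmA R).trans (hCA R)) (abs_nonneg _) hC30
    have hgOc : Continuous gO := hgc.sub ((continuous_col 0).inner continuous_const)
    have hgO2 : Continuous (fun R => gO R ^ 2) := hgOc.pow 2
    have hg32 : Continuous (fun R => g3 R ^ 2) := hg3c.pow 2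
    obtain ⟨M1, -, hM1⟩ := bd_O3 hgO2
    obtain ⟨M2, -, hM2⟩ := bd_O3 hg32
    obtain ⟨i1, e1⟩ := fub μ hμ GG hGGm _ hGGb rot continuous_rot (2 * π) (by positivity)
    obtain ⟨i2, e2⟩ := fub μ hμ _ hgO2.measurable M1 hM1 rot continuous_rot (2 * π)
      (by positivity)
    obtain ⟨i3, e3⟩ := fub μ hμ _ hg32.measurable M2 hM2 rot continuous_rot (2 * π)
      (by positivity)
    have hplR : ∀ R : O3, 0 ≤ (∫ t in (0 : ℝ)..(2 * π), GG (R * rot t)) +
        mu * ((∫ t in (0 : ℝ)..(2 * π), gO (R * rot t) ^ 2) -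
          8 / 5 * ∫ t in (0 : ℝ)..(2 * π), g3 (R * rot t) ^ 2) := by
      intro R
      have hgOt : ∀ t, mid (pr R K) t - dotu t (cd R O) = gO (R * rot t) := by
        intro t
        simp only [hgO]
        rw [dotu_cd, hgr R t]
      have h1 := hpl (pr R K) (hCC R) (area_pos hK hKi R) b hb
        (fun t => by
          rw [(hrot R t).1]
          have h2 := hlo (R * rot t)
          rwa [le_div_iff₀ hb] at h2)
        (fun t => by
          rw [(hrot R t).1]
          have h2 := hhi (R * rot t)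
          rwa [div_le_iff₀ hb] at h2)
        (cd R O) (fun t => hSTP μ hμ K hK hKi O hO0 R t)
      unfold PVf at h1
      have e4 : ∀ t : ℝ, (kap * (GV W L (wid (pr R K) t / 2 / b)
          ((mid (pr R K) t - dotu t (cd R O)) / (wid (pr R K) t / 2)) - 1) * area (pr R K) +
          W (wid (pr R K) t / 2 / b) * (qf (pr R K) t - kap * area (pr R K)) -
          L (wid (pr R K) t / 2 / b) * ((mid (pr R K) t - dotu t (cd R O)) /
            (wid (pr R K) t / 2)) * mf (pr R K) t) = GG (R * rot t) := by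
        intro t
        obtain ⟨r1, r2, r3⟩ := hrot R t
        simp only [hGG]
        rw [hgOt, hBR, hgR, r1, r2, r3, hmr R t]
        ring
      rw [intervalIntegral.integral_congr (fun t _ => e4 t)] at h1
      simp only [hgOt, hg3r R, zero_mul, sub_zero] at h1
      exact h1
    set F1 : O3 → ℝ := fun R => ∫ t in (0 : ℝ)..(2 * π), GG (R * rot t) with hF1
    set F2 : O3 → ℝ := fun R => ∫ t in (0 : ℝ)..(2 * π), gO (R * rot t) ^ 2 with hF2
    set F3 : O3 → ℝ := fun R => ∫ t in (0 : ℝ)..(2 * π), g3 (R * rot t) ^ 2 with hF3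
    have h1 : 0 ≤ ∫ R, (F1 R + mu * (F2 R - 8 / 5 * F3 R)) ∂μ := integral_nonneg hplR
    have j1 : Integrable (fun R : O3 => F2 R - 8 / 5 * F3 R) μ := i2.sub (i3.const_mul _)
    rw [integral_add i1 (j1.const_mul _), integral_const_mul, integral_sub i2 (i3.const_mul _),
      integral_const_mul, e1, e2, e3] at h1
    have h2 : mu * (2 * π * (∫ R, gO R ^ 2 ∂μ) - 8 / 5 * (2 * π * ∫ R, g3 R ^ 2 ∂μ)) ≤ 0 := by
      apply mul_nonpos_of_nonneg_of_nonpos hmu
      have h3 : 2 * π * (∫ R, gO R ^ 2 ∂μ) ≤ 2 * π * (8 / 5 * ∫ R, g3 R ^ 2 ∂μ) :=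
        mul_le_mul_of_nonneg_left hO1 (by positivity)
      linarith
    have h6 : 0 ≤ 2 * π * ∫ R, GG R ∂μ := by linarith
    have h7 : 0 ≤ ∫ R, GG R ∂μ := by
      by_contra hneg
      push Not at hneg
      nlinarith [mul_pos (show (0 : ℝ) < 2 * π by positivity) (neg_pos.2 hneg)]
    exact h7

end Pool.Agent.Lib.MP_084b88_gt.AY
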