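import Pool.Agent.Lib.MP_084b88_gt.AY.SpecQ
import Pool.Agent.Lib.MP_084b88_gt.CW.RE3
import Pool.Agent.Lib.MP_084b88_gt.CW.MEA

/-!
# MP_084b88_gt, project AY, module ASM: 3D assembly
-/

set_option autoImplicit false

open MeasureTheory Set Real Filter Topology
open scoped Pointwise InnerProductSpace

namespace Pool.Agent.Lib.MP_084b88_gt.AY

open Pool.Agent.Lib.MP_084b88_gt.CW Pool.Agent.Lib.MP_084b88_gt.SY

namespace ASMM

theorem taup_nonneg : 0 ≤ taup := by
  have hpi := pi_pos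
  unfold taup kap
  have h1 : π ^ 2 ≤ 32 / 3 := by nlinarith [pi_lt_d2, pi_gt_three]
  rw [div_pow]
  have h2 : (2 : ℝ) / 3 ≤ 8 ^ 2 / (3 * π) ^ 2 := by
    rw [div_le_div_iff₀ (by norm_num) (by positivity)]
    nlinarith
  linarith

/-- the projection as a linear map -/
noncomputable def cdl (R : O3) : E3 →ₗ[ℝ] (ℝ × ℝ) where
  toFun := cd R
  map_add' x y := by simp [cd, inner_add_right]
  map_smul' r x := by simp [cd, inner_smul_right]

theorem cdl_surj (R : O3) : Function.Surjective (cdl R) := by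
  intro p
  refine ⟨p.1 • col R 0 + p.2 • col R 1, ?_⟩
  have h : cd R (p.1 • col R 0 + p.2 • col R 1) = p := by
    unfold cd
    rw [inner_add_right, inner_add_right, inner_smul_right, inner_smul_right, inner_smul_right,
      inner_smul_right, inner_col_col, inner_col_col, inner_col_col, inner_col_col]
    ext <;> simp
  exact h

theorem area_pos {K : Set E3} (hK : CC K) (hKi : (interior K).Nonempty) (R : O3) :
    0 < area (pr R K) := by
  have ho : IsOpenMap (cdl R) := (cdl R).isOpenMap_of_finiteDimensional (cdl_surj R)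
  have h1 : IsOpen (cdl R '' interior K) := ho _ isOpen_interior
  have h2 : cdl R '' interior K ⊆ pr R K := image_mono interior_subset
  have h3 : 0 < volume (cdl R '' interior K) := h1.measure_pos _ (hKi.image _)
  unfold area
  exact ENNReal.toReal_pos (lt_of_lt_of_le h3 (measure_mono h2)).ne' (MEAM.vol_lt_top hK R).ne

/-- the quadratic equation -/
theorem GV_eq (W L : ℝ → ℝ) (y γ : ℝ) (hγ : |γ| ≤ 1)
    (h : taup * W y ^ 2 ≤ (1 + taup) * ((1 + y) ^ 2 / (4 * y) - L y ^ 2 / 2)) :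
    GV W L y γ ^ 2 + taup * (GV W L y γ - W y) ^ 2 + (-(L y * γ)) ^ 2 / 2 =
      (1 + y) ^ 2 / (4 * y) := by
  have ht := taup_nonneg
  have hg2 : γ ^ 2 ≤ 1 := by
    rw [← sq_abs]; nlinarith [abs_nonneg γ]
  have h1 : 0 ≤ (1 + taup) * ((1 + y) ^ 2 / (4 * y) - (L y * γ) ^ 2 / 2) - taup * W y ^ 2 := by
    have h2 : (L y * γ) ^ 2 ≤ L y ^ 2 := by
      rw [mul_pow]; nlinarith [sq_nonneg (L y)]
    nlinarith
  have h3 := Real.sq_sqrt h1
  unfold GV
  set s := √((1 + taup) * ((1 + y) ^ 2 / (4 * y) - (L y * γ) ^ 2 / 2) - taup * W y ^ 2)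
  have ht1 : (1 + taup) ≠ 0 := by positivity
  set om := (1 + y) ^ 2 / (4 * y)
  field_simp
  linear_combination (1 + taup) * 2 * h3

end ASMM

open ASMM REDM RE2M in
theorem specASM (hHSB : SpecHSB) (hHAA : SpecHAA) (hMEA : SpecMEA) (hMEB : SpecMEB)
    (hLEN : SpecLEN) (hCAU : SpecCAU) (hRE2D : SpecRE2D) (hDIA : LG.SpecDIA) (hDIK : SpecDIK)
    (hSTP : SpecSTP) : SpecASM := by
  intro b0 mu nu W L hb0 hb1 hmu hnu hW hL hpt hpl K hK hKi V1 V2 hst hwid c hc
  obtain ⟨μ, hμ⟩ := hHAA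
  have hprob : IsProbabilityMeasure μ := hμ.1
  obtain ⟨hCC, hAm, ⟨CA, hCA⟩, hsup, hwc, ⟨w0, hw0, hbw⟩, hqm, hq, hrot⟩ := hMEA K hK hKi
  obtain ⟨hgc, hgH, hgr, hmm, hmA, hmr, hg3c, hg3r⟩ := hMEB K hK hKi
  obtain ⟨hdAi, O, hO0, hO1, hO2⟩ := hDIK μ hμ K hK hKi
  have hpi := pi_pos
  set b : ℝ := ∫ R, wid (pr R K) 0 / 2 ∂μ with hbdef
  obtain ⟨hb, hV1, -⟩ := RE3M.mean_facts hMEA hLEN hCAU μ hμ K hK hKi b hbdef V1 V2 hst
  have hV14 : V1 / 4 = b := by rw [hV1]; ring
  -- bounds of the widths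
  have hlo : ∀ R : O3, b0 ≤ wid (pr R K) 0 / 2 / b := by
    intro R
    rw [le_div_iff₀ hb, wid_eq]
    have h1 := hwid (col R 0) (norm_col R 0)
    rw [hV1] at h1
    linarith
  have hhi : ∀ R : O3, wid (pr R K) 0 / 2 / b ≤ 2 := by
    intro R
    rw [div_le_iff₀ hb]
    have h1 := hDIA K hK hKi V1 V2 hst R 0
    rw [hV14] at h1
    exact h1
  have hstp : ∀ R : O3, |mid (pr R K) 0 - ⟪col R 0, O⟫_ℝ| ≤ wid (pr R K) 0 / 2 := by
    intro R
    have h1 := hSTP μ hμ K hK hKi O hO0 R 0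
    rw [dotu_cd, MEAM.col_rot_zero'] at h1
    exact h1
  -- the functions on the sphere
  have hHS : Continuous (HS K) := (hHSB E3).2.2.2.2.1 K hK
  set Bu : E3 → ℝ := fun u => max b0 (min 2 ((HS K u + HS K (-u)) / 2 / b)) with hBu
  have hBuc : Continuous Bu := continuous_const.max (continuous_const.min
    (((hHS.add (hHS.comp continuous_neg)).div_const 2).div_const b))
  have hBm : ∀ u, Bu u ∈ Icc b0 2 := fun u =>
    ⟨le_max_left _ _, max_le (by linarith) (min_le_left _ _)⟩
  have hBpos : ∀ u, 0 < Bu u := fun u => lt_of_lt_of_le hb0 (hBm u).1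
  have hBR : ∀ R : O3, Bu (col R 0) = wid (pr R K) 0 / 2 / b := by
    intro R
    simp only [hBu]
    rw [← wid_eq, min_eq_right (hhi R), max_eq_right (hlo R)]
  set gu : E3 → ℝ := fun u => ((HS K u - HS K (-u)) / 2 - ⟪u, O⟫_ℝ) / (b * Bu u) with hgu
  have hguc : Continuous gu := by
    refine Continuous.div ?_ (continuous_const.mul hBuc) (fun u => (mul_pos hb (hBpos u)).ne')
    exact ((hHS.sub (hHS.comp continuous_neg)).div_const 2).sub
      (continuous_id.inner continuous_const)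
  have hgR : ∀ R : O3, gu (col R 0) = (mid (pr R K) 0 - ⟪col R 0, O⟫_ℝ) / (wid (pr R K) 0 / 2) := by
    intro R
    simp only [hgu]
    rw [hBR, ← hgH]
    congr 1
    field_simp
  have hg1 : ∀ R : O3, |gu (col R 0)| ≤ 1 := by
    intro R
    have hw : 0 < wid (pr R K) 0 / 2 := by linarith [hbw R]
    rw [hgR, abs_div, abs_of_pos hw, div_le_one hw]
    exact hstp R
  have hWc : Continuous (fun u : E3 => W (Bu u)) := hW.comp_continuous hBuc hBm
  have hLc : Continuous (fun u : E3 => L (Bu u)) := hL.comp_continuous hBuc hBm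
  have ht1 : (1 + taup) ≠ 0 := by have := taup_nonneg; positivity
  have hGc : Continuous (fun u : E3 => GV W L (Bu u) (gu u)) := by
    unfold GV
    refine Continuous.div_const ?_ _
    refine (continuous_const.mul hWc).add (Continuous.sqrt ?_)
    refine (continuous_const.mul ?_).sub (continuous_const.mul (hWc.pow 2))
    refine Continuous.sub ?_ (((hLc.mul hguc).pow 2).div_const 2)
    refine Continuous.div ((continuous_const.add hBuc).pow 2) (continuous_const.mul hBuc) ?_
    intro u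
    have := hBpos u
    positivity
  have hVc : Continuous (fun u : E3 => -(L (Bu u) * gu u)) := (hLc.mul hguc).neg
  have hDc : Continuous (fun u : E3 => (1 + Bu u) / 2) :=
    (continuous_const.add hBuc).div_const 2
  refine hRE2D μ hμ K hK hKi (fun u => GV W L (Bu u) (gu u)) (fun u => W (Bu u))
    (fun u => -(L (Bu u) * gu u)) (fun u => (1 + Bu u) / 2) hGc hWc hVc hDc b hbdef ?_ ?_ ?_ ?_
    c hc V1 V2 hst
  · intro R
    have := hBpos (col R 0)
    positivity
  · intro R
    rw [← hBR R]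
    have h1 := GV_eq W L (Bu (col R 0)) (gu (col R 0)) (hg1 R) (hpt _ (hBm _))
    rw [h1]
    have := hBpos (col R 0)
    apply le_of_eq
    field_simp
    ring
  · have e : ∀ R : O3, (1 + Bu (col R 0)) / 2 = 1 / 2 + (wid (pr R K) 0 / 2) * (1 / (2 * b)) := by
      intro R
      rw [hBR]
      field_simp
    simp only [e]
    have i2 : Integrable (fun R : O3 => wid (pr R K) 0 / 2 * (1 / (2 * b))) μ :=
      cont_int_O3 μ hμ ((hwc.div_const 2).mul continuous_const)
    rw [integral_add (integrable_const _) i2, integral_mul_const, ← hbdef]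
    simp only [integral_const, probReal_univ, one_smul]
    apply le_of_eq
    field_simp
    norm_num
  · -- the average over the rotations
    set GG : O3 → ℝ := fun R => kap * (GV W L (Bu (col R 0)) (gu (col R 0)) - 1) * area (pr R K) +
      W (Bu (col R 0)) * (qf (pr R K) 0 - kap * area (pr R K)) +
      -(L (Bu (col R 0)) * gu (col R 0)) * mf (pr R K) 0 with hGG
    set gO : O3 → ℝ := fun R => mid (pr R K) 0 - ⟪col R 0, O⟫_ℝ with hgO
    set g3 : O3 → ℝ := fun R => g3f (mid (pr R K)) 0 with hg3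
    have hA0 : ∀ R, 0 ≤ area (pr R K) := fun R => (hq R).1.trans (hq R).2
    have hCA0 : 0 ≤ CA := (hA0 1).trans (hCA 1)
    have hkap : 0 ≤ kap := by unfold kap; positivity
    have hGR : Continuous (fun R : O3 => kap * (GV W L (Bu (col R 0)) (gu (col R 0)) - 1)) :=
      continuous_const.mul ((hGc.comp (continuous_col 0)).sub continuous_const)
    have hWR : Continuous (fun R : O3 => W (Bu (col R 0))) := hWc.comp (continuous_col 0)
    have hVR : Continuous (fun R : O3 => -(L (Bu (col R 0)) * gu (col R 0))) :=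
      hVc.comp (continuous_col 0)
    obtain ⟨C1, hC10, hC1⟩ := bd_O3 hGR
    obtain ⟨C2, hC20, hC2⟩ := bd_O3 hWR
    obtain ⟨C3, hC30, hC3⟩ := bd_O3 hVR
    have hGGm : Measurable GG :=
      ((hGR.measurable.mul hAm).add (hWR.measurable.mul (hqm.sub (hAm.const_mul kap)))).add
        (hVR.measurable.mul hmm)
    have hGGb : ∀ R, |GG R| ≤ C1 * CA + C2 * (CA + kap * CA) + C3 * CA := by
      intro R
      refine (abs_add_le _ _).trans (add_le_add ((abs_add_le _ _).trans (add_le_add ?_ ?_)) ?_)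
      · rw [abs_mul]
        refine mul_le_mul (hC1 R) ?_ (abs_nonneg _) hC10
        rw [abs_of_nonneg (hA0 R)]; exact hCA R
      · rw [abs_mul]
        refine mul_le_mul (hC2 R) ?_ (abs_nonneg _) hC20
        refine (abs_sub _ _).trans (add_le_add ?_ ?_)
        · rw [abs_of_nonneg (hq R).1]; exact (hq R).2.trans (hCA R)
        · rw [abs_of_nonneg (mul_nonneg hkap (hA0 R))]
          exact mul_le_mul_of_nonneg_left (hCA R) hkap
      · rw [abs_mul]
        exact mul_le_mul (hC3 R) ((hmA R).trans (hCA R)) (abs_nonneg _) hC30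
    have hgOc : Continuous gO := hgc.sub ((continuous_col 0).inner continuous_const)
    have hgO2 : Continuous (fun R => gO R ^ 2) := hgOc.pow 2
    have hg32 : Continuous (fun R => g3 R ^ 2) := hg3c.pow 2
    obtain ⟨M1, -, hM1⟩ := bd_O3 hgO2
    obtain ⟨M2, -, hM2⟩ := bd_O3 hg32
    obtain ⟨i1, e1⟩ := fub μ hμ GG hGGm _ hGGb rot continuous_rot (2 * π) (by positivity)
    obtain ⟨i2, e2⟩ := fub μ hμ _ hgO2.measurable M1 hM1 rot continuous_rot (2 * π)
      (by positivity)
    obtain ⟨i3, e3⟩ := fub μ hμ _ hg32.measurable M2 hM2 rot continuous_rot (2 * π)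
      (by positivity)
    have hplR : ∀ R : O3, 0 ≤ (∫ t in (0 : ℝ)..(2 * π), GG (R * rot t)) +
        mu * ((∫ t in (0 : ℝ)..(2 * π), gO (R * rot t) ^ 2) -
          8 / 5 * ∫ t in (0 : ℝ)..(2 * π), g3 (R * rot t) ^ 2) -
        nu * (dA (pr R K) - 5 / 2 * ∫ t in (0 : ℝ)..(2 * π), gO (R * rot t) ^ 2) := by
      intro R
      have hgOt : ∀ t, mid (pr R K) t - dotu t (cd R O) = gO (R * rot t) := by
        intro t
        simp only [hgO]
        rw [dotu_cd, hgr R t]
      have h1 := hpl (pr R K) (hCC R) (area_pos hK hKi R) b hb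
        (fun t => by
          rw [(hrot R t).1]
          have h2 := hlo (R * rot t)
          rwa [le_div_iff₀ hb] at h2)
        (fun t => by
          rw [(hrot R t).1]
          have h2 := hhi (R * rot t)
          rwa [div_le_iff₀ hb] at h2)
        (cd R O) (fun t => hSTP μ hμ K hK hKi O hO0 R t)
      unfold PVf at h1
      have e4 : ∀ t : ℝ, (kap * (GV W L (wid (pr R K) t / 2 / b)
          ((mid (pr R K) t - dotu t (cd R O)) / (wid (pr R K) t / 2)) - 1) * area (pr R K) +
          W (wid (pr R K) t / 2 / b) * (qf (pr R K) t - kap * area (pr R K)) -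
          L (wid (pr R K) t / 2 / b) * ((mid (pr R K) t - dotu t (cd R O)) /
            (wid (pr R K) t / 2)) * mf (pr R K) t) = GG (R * rot t) := by
        intro t
        obtain ⟨r1, r2, r3⟩ := hrot R t
        simp only [hGG]
        rw [hgOt, hBR, hgR, r1, r2, r3, hmr R t]
        ring
      rw [intervalIntegral.integral_congr (fun t _ => e4 t)] at h1
      simp only [hgOt, hg3r R] at h1
      exact h1
    set F1 : O3 → ℝ := fun R => ∫ t in (0 : ℝ)..(2 * π), GG (R * rot t) with hF1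
    set F2 : O3 → ℝ := fun R => ∫ t in (0 : ℝ)..(2 * π), gO (R * rot t) ^ 2 with hF2
    set F3 : O3 → ℝ := fun R => ∫ t in (0 : ℝ)..(2 * π), g3 (R * rot t) ^ 2 with hF3
    have h1 : 0 ≤ ∫ R, (F1 R + mu * (F2 R - 8 / 5 * F3 R) -
        nu * (dA (pr R K) - 5 / 2 * F2 R)) ∂μ := integral_nonneg hplR
    have j1 : Integrable (fun R : O3 => F2 R - 8 / 5 * F3 R) μ := i2.sub (i3.const_mul _)
    have j2 : Integrable (fun R : O3 => dA (pr R K) - 5 / 2 * F2 R) μ := hdAi.sub (i2.const_mul _)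
    have j3 : Integrable (fun R : O3 => F1 R + mu * (F2 R - 8 / 5 * F3 R)) μ :=
      i1.add (j1.const_mul _)
    rw [integral_sub j3 (j2.const_mul _), integral_add i1 (j1.const_mul _), integral_const_mul,
      integral_const_mul, integral_sub i2 (i3.const_mul _), integral_sub hdAi (i2.const_mul _),
      integral_const_mul, integral_const_mul, e1, e2, e3] at h1
    have h2 : mu * (2 * π * (∫ R, gO R ^ 2 ∂μ) - 8 / 5 * (2 * π * ∫ R, g3 R ^ 2 ∂μ)) ≤ 0 := by
      apply mul_nonpos_of_nonneg_of_nonpos hmu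
      have h3 : 2 * π * (∫ R, gO R ^ 2 ∂μ) ≤ 2 * π * (8 / 5 * ∫ R, g3 R ^ 2 ∂μ) :=
        mul_le_mul_of_nonneg_left hO1 (by positivity)
      linarith
    have h4 : 0 ≤ nu * ((∫ R, dA (pr R K) ∂μ) - 5 / 2 * (2 * π * ∫ R, gO R ^ 2 ∂μ)) := by
      apply mul_nonneg hnu
      have h5 : 5 * π * (∫ R, gO R ^ 2 ∂μ) ≤ ∫ R, dA (pr R K) ∂μ := hO2
      linarith
    have h6 : 0 ≤ 2 * π * ∫ R, GG R ∂μ := by linarith
    have h7 : 0 ≤ ∫ R, GG R ∂μ := by
      by_contra hneg
      push Not at hneg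
      nlinarith [mul_pos (show (0 : ℝ) < 2 * π by positivity) (neg_pos.2 hneg)]
    exact h7

end Pool.Agent.Lib.MP_084b88_gt.AY
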