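import Pool.Agent.Lib.MP_084b88_gt.AY.SpecV

/-!
# MP_084b88_gt, project AY, part W: sharper bound of the area (helper92), planar certificate CERR

`area P ≥ √(3/2) wid P s` in centroid-Legendre position; so `12/5 M ≤ mu √A √B √v` (as `12/5 ≤ √6`).
-/

set_option autoImplicit false

open MeasureTheory Set Real Filter Topology
open scoped Pointwise InnerProductSpace

namespace Pool.Agent.Lib.MP_084b88_gt.AY

open Pool.Agent.Lib.MP_084b88_gt.CW Pool.Agent.Lib.MP_084b88_gt.SY Pool.Agent.Lib.MP_084b88_gt.LG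

/-- **ARF** (helper92). -/
def SpecARF : Prop :=
  ∀ P : Set (ℝ × ℝ), IsoC P → ∀ s, 3 / 2 * wid P s ^ 2 ≤ area P ^ 2

/-- CERQ with the sharper bound of `M`. -/
def CERR (T : Set GP) (W L : ℝ → ℝ) (mu b0 : ℝ) : Prop :=
  ∀ v γ R : ℝ → ℝ, LgC T v γ R → ∀ A B : ℝ, 1 / 4 ≤ A → A ≤ B → B ≤ 2 / b0 ^ 2 →
    (∀ s, 1 / 4 ≤ nn A B s * v s ∧ nn A B s * v s ≤ 1 / b0 ^ 2) →
    ∀ D1 D2 : ℝ, (∀ s, |γ s - YY D1 D2 v s| ≤ 1) →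
    ∀ M : ℝ, 3 * (mu * (√A * √B)) ≤ 4 * π * M → (∀ s, 12 / 5 * M ≤ mu * (√A * √B) * √(v s)) →
    ∃ E1 E2 : ℝ, 0 ≤ ∫ s in (0 : ℝ)..(2 * π),
      JQ W L M (nn A B s) (v s) (γ s) (R s) (YY D1 D2 v s) (YY E1 E2 v s)

/-- **PLR** (PLQ with CERR, from ARF). -/
def SpecPLR : Prop :=
  ∀ (T : Set GP) (W L : ℝ → ℝ) (mu b0 : ℝ), 0 < b0 → b0 ≤ 1 → 0 ≤ mu → (∀ g ∈ T, GV8 g) →
    ContinuousOn W (Icc b0 2) → ContinuousOn L (Icc b0 2) → CERR T W L mu b0 →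
    ∀ P : Set (ℝ × ℝ), CC P → 0 < area P → ∀ b : ℝ, 0 < b →
      (∀ t, b0 * b ≤ wid P t / 2) → (∀ t, wid P t / 2 ≤ 2 * b) →
      ∀ o : ℝ × ℝ, (∀ t, |mid P t - dotu t o| ≤ wid P t / 2) → 0 ≤ PVf W L mu 0 b P o

end Pool.Agent.Lib.MP_084b88_gt.AY
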