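import Pool.Agent.Lib.MP_084b88_gt.AY.RTC
import Pool.Agent.Lib.MP_084b88_gt.AY.SpecW

/-!
# MP_084b88_gt, project AY, module ASQ: CERR from regime I and the cover
-/

set_option autoImplicit false

open MeasureTheory Set Real Filter Topology
open scoped Pointwise InnerProductSpace

namespace Pool.Agent.Lib.MP_084b88_gt.AY

open Pool.Agent.Lib.MP_084b88_gt.CW Pool.Agent.Lib.MP_084b88_gt.SY Pool.Agent.Lib.MP_084b88_gt.LG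

/-- The valid generators. -/
def TV : Set GP := {g | GV8 g}

/-- The inequality for the planes `(A, B)` with the property `X`. -/
def CovQ (W L : ℝ → ℝ) (mu b0 : ℝ) (X : ℝ → ℝ → Prop) : Prop :=
  ∀ v γ R : ℝ → ℝ, LgC TV v γ R → ∀ A B : ℝ, 1 / 4 ≤ A → A ≤ B → B ≤ 2 / b0 ^ 2 → X A B →
    (∀ s, 1 / 4 ≤ nn A B s * v s ∧ nn A B s * v s ≤ 1 / b0 ^ 2) →
    ∀ D1 D2 : ℝ, (∀ s, |γ s - YY D1 D2 v s| ≤ 1) →
    ∀ M : ℝ, 3 * (mu * (√A * √B)) ≤ 4 * π * M → (∀ s, 12 / 5 * M ≤ mu * (√A * √B) * √(v s)) →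
    ∃ E1 E2 : ℝ, 0 ≤ ∫ s in (0 : ℝ)..(2 * π),
      JQ W L M (nn A B s) (v s) (γ s) (R s) (YY D1 D2 v s) (YY E1 E2 v s)

/-- Regime I. -/
theorem covI {OM LA : List (ℚ × ℚ)} {p : RP} {cs : List RC} (hck : rgOK OM LA p cs = true) {b0 : ℝ}
    (hb0 : 0 < b0)
    (hull : ∀ A B : ℝ, (p.A0 : ℝ) ≤ A → A ≤ B → B ≤ p.B0 →
      GV8 ⟨p.q / (1 + p.q) * A, p.q / (1 + p.q) * B, 1, 1, p.C, p.l, p.m, 0, 0⟩) :
    CovQ (Wp OM) (Wp LA) p.mu b0 (fun A B => (p.A0 : ℝ) ≤ A ∧ B ≤ p.B0) := by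
  intro v γ R hD A B _ hAB _ hX hz D1 D2 ho M hM1 hM2
  exact ⟨_, _, regI hck hb0 hD hX.1 hAB hX.2 (hull A B hX.1 hAB hX.2) hz ho hM1 hM2⟩

/-- CERR from the two regimes. -/
theorem cerrOf {W L : ℝ → ℝ} {mu b0 A0 B0 : ℝ}
    (h1 : CovQ W L mu b0 (fun A B => A0 ≤ A ∧ B ≤ B0))
    (h2 : CovQ W L mu b0 (fun A B => A < A0 ∨ B0 < B)) : CERR TV W L mu b0 := by
  intro v γ R hD A B hA hAB hB hz D1 D2 ho M hM1 hM2
  by_cases h : A0 ≤ A ∧ B ≤ B0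
  · exact h1 v γ R hD A B hA hAB hB h hz D1 D2 ho M hM1 hM2
  · refine h2 v γ R hD A B hA hAB hB ?_ hz D1 D2 ho M hM1 hM2
    rcases not_and_or.1 h with h3 | h3
    · exact Or.inl (not_le.1 h3)
    · exact Or.inr (not_le.1 h3)

end Pool.Agent.Lib.MP_084b88_gt.AY
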