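import Pool.Agent.Lib.MP_084b88_gt.SY.AllSY
import Pool.Agent.Lib.MP_084b88_gt.CW.AllM
import Pool.Agent.Lib.MP_084b88_gt.PC.BHG
import Pool.Agent.Lib.MP_084b88_gt.PC.BHN
import Pool.Agent.Lib.MP_084b88_gt.PC.BOD
import Pool.Agent.Lib.MP_084b88_gt.PC.CHE
import Pool.Agent.Lib.MP_084b88_gt.PC.CUT
import Pool.Agent.Lib.MP_084b88_gt.PC.EPB
import Pool.Agent.Lib.MP_084b88_gt.PC.HOL
import Pool.Agent.Lib.MP_084b88_gt.PC.JVL
import Pool.Agent.Lib.MP_084b88_gt.PC.MRB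
import Pool.Agent.Lib.MP_084b88_gt.PC.PA1
import Pool.Agent.Lib.MP_084b88_gt.PC.PA2
import Pool.Agent.Lib.MP_084b88_gt.PC.PCB
import Pool.Agent.Lib.MP_084b88_gt.LG.ACV
import Pool.Agent.Lib.MP_084b88_gt.LG.AFQ
import Pool.Agent.Lib.MP_084b88_gt.LG.BND
import Pool.Agent.Lib.MP_084b88_gt.LG.CNT
import Pool.Agent.Lib.MP_084b88_gt.LG.CW2
import Pool.Agent.Lib.MP_084b88_gt.LG.DIA
import Pool.Agent.Lib.MP_084b88_gt.LG.LEL
import Pool.Agent.Lib.MP_084b88_gt.LG.LGQ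
import Pool.Agent.Lib.MP_084b88_gt.LG.PCC
import Pool.Agent.Lib.MP_084b88_gt.LG.PLN
import Pool.Agent.Lib.MP_084b88_gt.LG.REG
import Pool.Agent.Lib.MP_084b88_gt.LG.RG1
import Pool.Agent.Lib.MP_084b88_gt.LG.SM2
import Pool.Agent.Lib.MP_084b88_gt.LG.SYT
import Pool.Agent.Lib.MP_084b88_gt.LG.WGC

/-!
# MP_084b88_gt: assembly of the projects LG and PC, up to the certificate CERT
-/

set_option autoImplicit false

namespace Pool.Agent.Lib.MP_084b88_gt.LG

open Pool.Agent.Lib.MP_084b88_gt.CW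
open Pool.Agent.Lib.MP_084b88_gt.SY

theorem allEPB : PC.SpecEPB := PC.specEPB
theorem allBOD : PC.SpecBOD := PC.specBOD allRO2 allWB2
theorem allMRB : PC.SpecMRB := PC.specMRB allEPB
theorem allBHG : PC.SpecBHG := PC.specBHG allEPB
theorem allBHN : PC.SpecBHN := PC.specBHN allBHG allEPB
theorem allCHE : PC.SpecCHE := PC.specCHE
theorem allPA1 : PC.SpecPA1 := PC.specPA1 allEPB
theorem allPA2 : PC.SpecPA2 := PC.specPA2 allPA1 allCHE allEPB
theorem allHOL : PC.SpecHOL := PC.specHOL allEPB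
theorem allJVL : PC.SpecJVL := PC.specJVL
theorem allCUT : PC.SpecCUT := PC.specCUT allJVL
theorem allPCB : PC.SpecPCB := PC.specPCB allBOD allMRB allBHN allPA2 allHOL allEPB allWB2
theorem allBND : SpecBND := specBND allBOD allEPB allMRB allBHN
theorem allPCC : SpecPCC := specPCC allPCB allCUT
theorem allSM2 : SpecSM2 := specSM2 allSEM allWAL
theorem allCNT : SpecCNT := specCNT allWB2
theorem allCW2 : SpecCW2 := specCW2 allCQL allSM2 allGDU allWB2 allBND
theorem allLGQ : SpecLGQ := specLGQ allCNT allCW2 allBND allPCC allWB2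
theorem allAFQ : SpecAFQ := specAFQ
theorem allLACV : SpecACV := specACV
theorem allLEL : SpecLEL := specLEL allAFQ allLACV
theorem allWGC : SpecWGC := specWGC
theorem allRG1 : SpecRG1 := specRG1 allWGC
theorem allREG : SpecREG := specREG allRG1 allSQF allLEL allAFQ allBND allCNT allWGC allWB2
theorem allDIA : SpecDIA := specDIA allAVH allHSB allHAA allMEA allLEN allCAU

theorem allPLN (b0 : ℝ) (hb0 : 0 < b0) (hCERT : SpecCERT b0) : SpecPLN b0 :=
  specPLN b0 hb0 allLEL allAFQ allLACV allLGQ allWGC allCNT hCERT allREG allWB2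

theorem allSYT (b0 : ℝ) (hb0 : 0 < b0) (hCERT : SpecCERT b0) : SpecSYT b0 :=
  specSYT b0 hb0 allHAA allMEA allLEN allCAU allWB2 allRE2P (allPLN b0 hb0 hCERT) allWGC allDIA

end Pool.Agent.Lib.MP_084b88_gt.LG
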