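import Pool.Agent.Lib.MP_084b88_gt.AY.SpecS

/-!
# BAQ: the forms `B_α` on `O3`
-/

set_option autoImplicit false

open MeasureTheory Set Real Filter Topology
open scoped Pointwise InnerProductSpace

namespace Pool.Agent.Lib.MP_084b88_gt.AY

open Pool.Agent.Lib.MP_084b88_gt.CW Pool.Agent.Lib.MP_084b88_gt.SY

namespace BAQM

theorem int_right {μ : Measure O3} (hμ : HaarO μ) (S : O3) (f : O3 → ℝ) :
    ∫ R, f (R * S) ∂μ = ∫ R, f R ∂μ :=
  (hμ.2.1 S).integral_comp' (f := (Homeomorph.mulRight S).toMeasurableEquiv) f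

theorem integ {μ : Measure O3} [IsProbabilityMeasure μ] {f : O3 → ℝ} (hf : Continuous f) :
    Integrable f μ :=
  hf.integrable_of_hasCompactSupport (HasCompactSupport.of_compactSpace f)

theorem refl_mem (α : ℝ) : (!![cos α, sin α, 0; sin α, -cos α, 0; 0, 0, 1] :
    Matrix (Fin 3) (Fin 3) ℝ) ∈ unitary (Matrix (Fin 3) (Fin 3) ℝ) := by
  have h := sin_sq_add_cos_sq α
  rw [Unitary.mem_iff]
  constructor <;>
  · ext i j
    fin_cases i <;> fin_cases j <;>
      simp [Matrix.mul_apply, Fin.sum_univ_three, Matrix.star_apply] <;> nlinarith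

/-- The reflection which exchanges `col R 0` and `col (R rot α) 0`. -/
noncomputable def J (α : ℝ) : O3 := ⟨_, refl_mem α⟩

theorem col_J_zero (R : O3) (α : ℝ) : col (R * J α) 0 = col (R * rot α) 0 := by
  rw [col_rot_zero, col_mul]
  simp [J]

theorem col_J_one (R : O3) (α : ℝ) : col (R * J α) 1 = sin α • col R 0 - cos α • col R 1 := by
  rw [col_mul]
  simp only [J, Matrix.of_apply, Matrix.cons_val', Matrix.cons_val_one, Matrix.cons_val_zero,
    Matrix.cons_val_fin_one, Matrix.cons_val]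
  module

theorem col_J_rot (R : O3) (α : ℝ) : col (R * J α * rot α) 0 = col R 0 := by
  rw [col_rot_zero, col_J_zero, col_J_one, col_rot_zero]
  have h := sin_sq_add_cos_sq α
  have e : cos α • (cos α • col R 0 + sin α • col R 1) + sin α • (sin α • col R 0 - cos α • col R 1)
      = (sin α ^ 2 + cos α ^ 2) • col R 0 := by module
  rw [e, h, one_smul]

section

variable {μ : Measure O3} {f1 f2 : E3 → ℝ}

theorem cont0 (h : Continuous f1) (S : O3) (i : Fin 3) :
    Continuous (fun R : O3 => f1 (col (R * S) i)) :=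
  h.comp ((continuous_col i).comp (continuous_id.mul continuous_const))

theorem contc (h : Continuous f1) (i : Fin 3) : Continuous (fun R : O3 => f1 (col R i)) :=
  h.comp (continuous_col i)

theorem symm (hμ : HaarO μ) (α : ℝ) : BA μ f1 f2 α = BA μ f2 f1 α := by
  unfold BA
  rw [← int_right hμ (J α) (fun R => f1 (col R 0) * f2 (col (R * rot α) 0))]
  congr 1
  funext R
  rw [col_J_zero, col_J_rot, mul_comm]

theorem cyc_eq (hμ : HaarO μ) (α θ : ℝ) :
    BA μ f1 f2 α = ∫ R, f1 (col R 2) * f2 (col (R * cyc θ * rot α) 0) ∂μ := by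
  unfold BA
  rw [← int_right hμ (cyc θ) (fun R => f1 (col R 0) * f2 (col (R * rot α) 0))]
  congr 1
  funext R
  rw [col_cyc_zero]

theorem mean (hμ : HaarO μ) (h1 : Continuous f1) (h2 : Continuous f2) (α : ℝ) :
    BA μ f1 f2 α = 1 / (2 * π) * ∫ R, f1 (col R 2) *
      (∫ θ in (0 : ℝ)..(2 * π), f2 (col (R * cyc θ * rot α) 0)) ∂μ := by
  have hP := hμ.1
  have hpi : (0 : ℝ) ≤ 2 * π := by positivity
  have hc : Continuous (fun q : O3 × ℝ => f1 (col q.1 2) * f2 (col (q.1 * cyc q.2 * rot α) 0)) := by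
    refine (h1.comp ((continuous_col 2).comp continuous_fst)).mul
      (h2.comp ((continuous_col 0).comp ?_))
    exact (continuous_fst.mul (continuous_cyc.comp continuous_snd)).mul continuous_const
  -- bound
  obtain ⟨M1, hM1⟩ := (isCompact_univ (X := O3)).exists_bound_of_continuousOn
    (f := fun R : O3 => f1 (col R 2)) (contc h1 2).continuousOn
  obtain ⟨M2, hM2⟩ := (isCompact_univ (X := O3)).exists_bound_of_continuousOn
    (f := fun R : O3 => f2 (col R 0)) (contc h2 0).continuousOn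
  have hint : Integrable (Function.uncurry fun (R : O3) (θ : ℝ) =>
      f1 (col R 2) * f2 (col (R * cyc θ * rot α) 0)) (μ.prod (volume.restrict (Ioc 0 (2 * π)))) := by
    refine Integrable.of_bound hc.aestronglyMeasurable (M1 * M2) (Filter.Eventually.of_forall ?_)
    rintro ⟨R, θ⟩
    simp only [Function.uncurry]
    rw [norm_mul]
    exact mul_le_mul (hM1 R (mem_univ _)) (hM2 (R * cyc θ * rot α) (mem_univ _)) (norm_nonneg _)
      ((norm_nonneg _).trans (hM1 R (mem_univ _)))
  have hswap := integral_integral_swap hint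
  have e1 : ∫ R, f1 (col R 2) * (∫ θ in (0 : ℝ)..(2 * π), f2 (col (R * cyc θ * rot α) 0)) ∂μ =
      ∫ R, (∫ θ, f1 (col R 2) * f2 (col (R * cyc θ * rot α) 0)
        ∂(volume.restrict (Ioc 0 (2 * π)))) ∂μ := by
    congr 1
    funext R
    rw [intervalIntegral.integral_of_le hpi, integral_const_mul]
  have e2 : ∫ θ, (∫ R, f1 (col R 2) * f2 (col (R * cyc θ * rot α) 0) ∂μ)
      ∂(volume.restrict (Ioc 0 (2 * π))) = 2 * π * BA μ f1 f2 α := by
    have : (fun θ : ℝ => ∫ R, f1 (col R 2) * f2 (col (R * cyc θ * rot α) 0) ∂μ) =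
        fun _ => BA μ f1 f2 α := by
      funext θ
      exact (cyc_eq hμ α θ).symm
    rw [this, ← intervalIntegral.integral_of_le hpi, intervalIntegral.integral_const]
    simp
  rw [e1, hswap, e2]
  field_simp

theorem sq_right (hμ : HaarO μ) (α : ℝ) :
    ∫ R, f1 (col (R * rot α) 0) * f1 (col (R * rot α) 0) ∂μ = IP μ f1 f1 := by
  unfold IP
  exact int_right hμ (rot α) (fun R => f1 (col R 0) * f1 (col R 0))

theorem bound (hμ : HaarO μ) (h1 : Continuous f1) (h2 : Continuous f2) (α : ℝ) :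
    2 * |BA μ f1 f2 α| ≤ IP μ f1 f1 + IP μ f2 f2 := by
  have hP := hμ.1
  have i1 : Integrable (fun R : O3 => f1 (col R 0) * f1 (col R 0)) μ :=
    integ ((contc h1 0).mul (contc h1 0))
  have i2 : Integrable (fun R : O3 => f2 (col (R * rot α) 0) * f2 (col (R * rot α) 0)) μ :=
    integ ((cont0 h2 (rot α) 0).mul (cont0 h2 (rot α) 0))
  have i3 : Integrable (fun R : O3 => f1 (col R 0) * f2 (col (R * rot α) 0)) μ :=
    integ ((contc h1 0).mul (cont0 h2 (rot α) 0))
  have e : IP μ f1 f1 + IP μ f2 f2 = ∫ R, (f1 (col R 0) * f1 (col R 0) +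
      f2 (col (R * rot α) 0) * f2 (col (R * rot α) 0)) ∂μ := by
    rw [integral_add i1 i2, sq_right hμ α]
    rfl
  rw [e]
  have h3 : |BA μ f1 f2 α| ≤ ∫ R, |f1 (col R 0) * f2 (col (R * rot α) 0)| ∂μ :=
    abs_integral_le_integral_abs
  refine (mul_le_mul_of_nonneg_left h3 (by norm_num)).trans ?_
  rw [← integral_const_mul]
  refine integral_mono (i3.abs.const_mul 2) (i1.add i2) ?_
  intro R
  show 2 * |f1 (col R 0) * f2 (col (R * rot α) 0)| ≤ f1 (col R 0) * f1 (col R 0) +
      f2 (col (R * rot α) 0) * f2 (col (R * rot α) 0)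
  rw [abs_mul]
  nlinarith [sq_nonneg (|f1 (col R 0)| - |f2 (col (R * rot α) 0)|), abs_mul_abs_self (f1 (col R 0)),
    abs_mul_abs_self (f2 (col (R * rot α) 0))]

theorem diff_sq (hμ : HaarO μ) (h1 : Continuous f1) (α : ℝ) :
    ∫ R, (f1 (col R 0) - f1 (col (R * rot α) 0)) ^ 2 ∂μ = 2 * (IP μ f1 f1 - BA μ f1 f1 α) := by
  have hP := hμ.1
  have i1 : Integrable (fun R : O3 => f1 (col R 0) * f1 (col R 0)) μ :=
    integ ((contc h1 0).mul (contc h1 0))
  have i2 : Integrable (fun R : O3 => f1 (col (R * rot α) 0) * f1 (col (R * rot α) 0)) μ :=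
    integ ((cont0 h1 (rot α) 0).mul (cont0 h1 (rot α) 0))
  have i3 : Integrable (fun R : O3 => 2 * (f1 (col R 0) * f1 (col (R * rot α) 0))) μ :=
    (integ ((contc h1 0).mul (cont0 h1 (rot α) 0))).const_mul 2
  have e : (fun R : O3 => (f1 (col R 0) - f1 (col (R * rot α) 0)) ^ 2) =
      fun R : O3 => (f1 (col R 0) * f1 (col R 0) + f1 (col (R * rot α) 0) * f1 (col (R * rot α) 0))
        - 2 * (f1 (col R 0) * f1 (col (R * rot α) 0)) := by
    funext R
    ring
  have i12 : Integrable (fun R : O3 => f1 (col R 0) * f1 (col R 0) +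
      f1 (col (R * rot α) 0) * f1 (col (R * rot α) 0)) μ := i1.add i2
  rw [e, integral_sub i12 i3, integral_add i1 i2, sq_right hμ α, integral_const_mul]
  unfold IP BA
  ring

theorem cont_BA (hμ : HaarO μ) (h1 : Continuous f1) (h2 : Continuous f2) :
    Continuous (fun β => BA μ f1 f2 β) := by
  have hP := hμ.1
  have h := continuous_parametric_integral_of_continuous (μ := μ) (X := ℝ) (Y := O3)
    (f := fun β R => f1 (col R 0) * f2 (col (R * rot β) 0)) (s := Set.univ) (by
      show Continuous (fun q : ℝ × O3 => f1 (col q.2 0) * f2 (col (q.2 * rot q.1) 0))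
      refine (h1.comp ((continuous_col 0).comp continuous_snd)).mul
        (h2.comp ((continuous_col 0).comp ?_))
      exact continuous_snd.mul (continuous_rot.comp continuous_fst)) isCompact_univ
  simp only [Measure.restrict_univ] at h
  exact h

end

end BAQM

open BAQM in
theorem specBAQ : SpecBAQ := by
  intro μ hμ f1 f2 h1 h2 α
  have hP := hμ.1
  refine ⟨integ ((contc h1 0).mul (cont0 h2 (rot α) 0)), symm hμ α, mean hμ h1 h2 α,
    bound hμ h1 h2 α, ?_, diff_sq hμ h1 α, cont_BA hμ h1 h2⟩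
  have h := int_right hμ (cyc 0) (fun R => f1 (col R 0) * f2 (col R 0))
  simp only [col_cyc_zero] at h
  exact h

end Pool.Agent.Lib.MP_084b88_gt.AY
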