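import Pool.Agent.Lib.MP_084b88_gt.AY.SpecP

/-!
# MP_084b88_gt, project AY: module BNA (the band for arbitrary planar bodies)
-/

set_option autoImplicit false

open MeasureTheory Set Real Filter Topology
open scoped Pointwise InnerProductSpace

namespace Pool.Agent.Lib.MP_084b88_gt.AY

open Pool.Agent.Lib.MP_084b88_gt.CW Pool.Agent.Lib.MP_084b88_gt.SY Pool.Agent.Lib.MP_084b88_gt.LG
open Pool.Agent.Lib.MP_084b88_gt.PC (EPF)

namespace BNAM

/-- Integral of an even function against `c` over `(-1,1)`. -/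
theorem int_even {c G : ℝ → ℝ} (hG : ∀ x, G (-x) = G x)
    (hi : IntervalIntegrable (fun τ => G τ * c τ) volume (-1) 1) :
    ∫ τ in (-1 : ℝ)..1, G τ * c τ = ∫ x in (0 : ℝ)..1, G x * (c x + c (-x)) := by
  have i1 : IntervalIntegrable (fun τ => G τ * c τ) volume (-1) 0 := by
    refine hi.mono_set ?_
    rw [uIcc_of_le (by norm_num), uIcc_of_le (by norm_num)]
    exact Icc_subset_Icc le_rfl (by norm_num)
  have i2 : IntervalIntegrable (fun τ => G τ * c τ) volume 0 1 := by
    refine hi.mono_set ?_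
    rw [uIcc_of_le (by norm_num), uIcc_of_le (by norm_num)]
    exact Icc_subset_Icc (by norm_num) le_rfl
  have i3 : IntervalIntegrable (fun τ => G τ * c (-τ)) volume 0 1 := by
    have h2 := (IntervalIntegrable.iff_comp_neg).1 i1
    simp only [hG, neg_neg, neg_zero] at h2
    exact h2.symm
  rw [← intervalIntegral.integral_add_adjacent_intervals i1 i2]
  have h3 : ∫ x in (-1 : ℝ)..0, G x * c x = ∫ x in (0 : ℝ)..1, G x * c (-x) := by
    have h4 := intervalIntegral.integral_comp_neg (a := (0 : ℝ)) (b := 1) (fun x => G x * c x)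
    simp only [hG, neg_zero] at h4
    exact h4.symm
  rw [h3, ← intervalIntegral.integral_add i3 i2]
  refine intervalIntegral.integral_congr (fun x _ => ?_)
  ring

/-- The profile. -/
theorem profile (hPRF : SpecPRF) {P : Set (ℝ × ℝ)} (hP : CC P) (hw : ∀ θ, 0 < wid P θ)
    (ha : 0 < area P) (s : ℝ) :
    ∃ c : ℝ → ℝ, EPF c ∧ 0 < (∫ x in (0 : ℝ)..1, c x) ∧
      area P = wid P s / 2 * (∫ x in (0 : ℝ)..1, c x) ∧
      xm P s * (∫ x in (0 : ℝ)..1, c x) = 3 * (∫ x in (0 : ℝ)..1, x ^ 2 * c x) ∧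
      qf P s = wid P s / 2 * (∫ x in (0 : ℝ)..1, √(1 - x ^ 2) * c x) := by
  obtain ⟨c, C, hc, hcb, hF⟩ := hPRF P hP hw s
  have hw2 : 0 < wid P s / 2 := half_pos (hw s)
  have he : EPF (fun τ => c τ + c (-τ)) := by
    refine ⟨?_, ?_, ?_⟩
    · refine hc.add ⟨convex_Ioo _ _, ?_⟩
      intro x hx y hy a b ha hb hab
      have hx' : -x ∈ Ioo (-1 : ℝ) 1 := ⟨by linarith [hx.2], by linarith [hx.1]⟩
      have hy' : -y ∈ Ioo (-1 : ℝ) 1 := ⟨by linarith [hy.2], by linarith [hy.1]⟩
      have := hc.2 hx' hy' ha hb hab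
      simp only [smul_eq_mul] at this ⊢
      have e : -(a * x + b * y) = a * -x + b * -y := by ring
      rw [e]
      exact this
    · intro x
      simp only [neg_neg]
      ring
    · intro x hx
      have hx' : -x ∈ Ioo (-1 : ℝ) 1 := ⟨by linarith [hx.2], by linarith [hx.1]⟩
      exact add_nonneg (hcb x hx).1 (hcb (-x) hx').1
  have key : ∀ G : ℝ → ℝ, Continuous G → (∀ x, G (-x) = G x) →
      ∫ p in P, G ((dotu s p - mid P s) / (wid P s / 2)) =
        wid P s / 2 * ∫ x in (0 : ℝ)..1, G x * (c x + c (-x)) := by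
    intro G hG hGe
    obtain ⟨h1, h2⟩ := hF G hG
    rw [h2, int_even hGe h1]
  have h1 := key (fun _ => 1) continuous_const (fun _ => rfl)
  have h2 := key (fun x => x ^ 2) (by fun_prop) (fun x => by ring)
  have h3 := key (fun x => √(1 - x ^ 2)) (by fun_prop) (fun x => by simp)
  simp only [one_mul, integral_const, MeasurableSet.univ, measureReal_restrict_apply, univ_inter,
    smul_eq_mul, mul_one] at h1
  change area P = _ at h1
  have hI : 0 < ∫ x in (0 : ℝ)..1, (c x + c (-x)) := by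
    by_contra hcon
    have : wid P s / 2 * (∫ x in (0 : ℝ)..1, (c x + c (-x))) ≤ 0 :=
      mul_nonpos_of_nonneg_of_nonpos hw2.le (not_lt.1 hcon)
    rw [← h1] at this
    linarith
  refine ⟨_, he, hI, h1, ?_, ?_⟩
  · unfold xm
    rw [h2]
    have h5 : area P ≠ 0 := ha.ne'
    rw [div_mul_eq_mul_div, div_eq_iff h5]
    have h6 : area P = wid P s / 2 * (∫ x in (0 : ℝ)..1, (c x + c (-x))) := h1
    rw [h6]
    ring
  · rw [← h3]
    rfl

end BNAM

open BNAM in
/-- **BNA**. -/
theorem specBNA (hPRF : SpecPRF) (hMRB : PC.SpecMRB) (hBHN : PC.SpecBHN) : SpecBNA := by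
  intro P hP hwp hap s
  obtain ⟨c, hc, hI, hA, hx, hq⟩ := profile hPRF hP hwp hap s
  obtain ⟨m1, m2, m3⟩ := hMRB c hc
  have hw : 0 < wid P s / 2 := half_pos (hwp s)
  set I := ∫ x in (0 : ℝ)..1, c x with hId
  have hqA : qf P s / area P = (∫ x in (0 : ℝ)..1, √(1 - x ^ 2) * c x) / I := by
    rw [hq, hA, mul_div_mul_left _ _ hw.ne']
  have hM : (∫ x in (0 : ℝ)..1, x ^ 2 * c x) = xm P s / 3 * I := by linarith
  refine ⟨?_, ?_, ?_, ?_⟩
  · rw [hM] at m1
    have : 1 * I ≤ (2 * xm P s) * I := by linarith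
    have := le_of_mul_le_mul_right this hI
    linarith
  · rw [hM] at m2
    have : xm P s * I ≤ 1 * I := by linarith
    exact le_of_mul_le_mul_right this hI
  · unfold Rm Sf
    rw [hqA]
    have h1 : (3 * π / 4 - 4 / 3) - (3 * π / 2 - 4) * (xm P s / 3) ≤
        (∫ x in (0 : ℝ)..1, √(1 - x ^ 2) * c x) / I := by
      rw [le_div_iff₀ hI]
      rw [hM] at m3
      linarith
    linarith
  · intro l hl
    have hkap : 0.8488262 ≤ kap := by
      unfold kap
      have h1 := Real.pi_lt_d6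
      have h2 := Real.pi_pos
      rw [le_div_iff₀ (by positivity)]
      norm_num at h1 ⊢
      linarith
    have gen : ∀ p q : ℝ, (∫ x in (0 : ℝ)..1, √(1 - x ^ 2) * c x) ≤
        p * I - q * (∫ x in (0 : ℝ)..1, x ^ 2 * c x) →
        Rm P s ≤ (1 / 6 - q / 3) * xm P s + (p - kap - 1 / 8) := by
      intro p q h2
      unfold Rm Sf
      rw [hqA]
      have h1 : (∫ x in (0 : ℝ)..1, √(1 - x ^ 2) * c x) / I ≤ p - q * (xm P s / 3) := by
        rw [div_le_iff₀ hI]
        rw [hM] at h2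
        linarith
      linarith
    have g1 := gen _ _ (hBHN c hc (10019 / 10000, 5857 / 10000) (Or.inl rfl))
    have g2 := gen _ _ (hBHN c hc (10083 / 10000, 6185 / 10000) (Or.inr (Or.inl rfl)))
    have g3 := gen _ _ (hBHN c hc (10221 / 10000, 6786 / 10000) (Or.inr (Or.inr (Or.inl rfl))))
    have g4 := gen _ _ (hBHN c hc (10488 / 10000, 7763 / 10000)
      (Or.inr (Or.inr (Or.inr (Or.inl rfl)))))
    have g5 := gen _ _ (hBHN c hc (10966 / 10000, 9306 / 10000)
      (Or.inr (Or.inr (Or.inr (Or.inr rfl)))))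
    simp only [bandQ, List.mem_cons, List.not_mem_nil, or_false] at hl
    rcases hl with rfl | rfl | rfl | rfl | rfl <;> push_cast <;> linarith

end Pool.Agent.Lib.MP_084b88_gt.AY
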