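import Pool.Agent.Lib.MP_084b88_gt.AY.SpecS

/-!
# MP_084b88_gt, project AY: complex circle means (CAV)
-/

set_option autoImplicit false

open MeasureTheory Set Real Filter Topology
open scoped Pointwise InnerProductSpace

namespace Pool.Agent.Lib.MP_084b88_gt.AY

open Pool.Agent.Lib.MP_084b88_gt.CW Pool.Agent.Lib.MP_084b88_gt.SY

namespace CAVM

theorem int_exp (s : ℤ) : ∫ φ in (0 : ℝ)..(2 * π), Complex.exp (Complex.I * s * φ) =
    if s = 0 then 2 * (π : ℂ) else 0 := by
  split_ifs with h
  · subst h
    simp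
  · have hc : Complex.I * (s : ℂ) ≠ 0 := by
      apply mul_ne_zero Complex.I_ne_zero
      exact_mod_cast h
    rw [integral_exp_mul_complex hc]
    have h1 : Complex.exp (Complex.I * s * ((2 * π : ℝ) : ℂ)) = 1 := by
      rw [Complex.exp_eq_one_iff]
      refine ⟨s, ?_⟩
      push_cast
      ring
    rw [h1]
    simp

theorem int_pow (u v : ℂ) (k : ℕ) (s : ℤ) :
    ∫ φ in (0 : ℝ)..(2 * π), Complex.exp (Complex.I * s * φ) *
      (u * Complex.exp (Complex.I * φ) + v * Complex.exp (-(Complex.I * φ))) ^ k =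
    ∑ m ∈ Finset.range (k + 1), (Nat.choose k m : ℂ) * u ^ m * v ^ (k - m) *
      (if (2 * m - k + s : ℤ) = 0 then 2 * (π : ℂ) else 0) := by
  have h1 : ∀ φ : ℝ, Complex.exp (Complex.I * s * φ) *
      (u * Complex.exp (Complex.I * φ) + v * Complex.exp (-(Complex.I * φ))) ^ k =
      ∑ m ∈ Finset.range (k + 1), (Nat.choose k m : ℂ) * u ^ m * v ^ (k - m) *
        Complex.exp (Complex.I * ((2 * m - k + s : ℤ) : ℂ) * φ) := by
    intro φ
    rw [add_pow, Finset.mul_sum]
    refine Finset.sum_congr rfl fun m hm => ?_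
    have hm' : m ≤ k := by
      have := Finset.mem_range.1 hm
      omega
    rw [mul_pow, mul_pow, ← Complex.exp_nat_mul, ← Complex.exp_nat_mul]
    have h2 : Complex.exp (Complex.I * ((2 * m - k + s : ℤ) : ℂ) * φ) =
        Complex.exp (Complex.I * s * φ) * (Complex.exp ((m : ℂ) * (Complex.I * φ)) *
          Complex.exp (((k - m : ℕ) : ℂ) * (-(Complex.I * φ)))) := by
      rw [← Complex.exp_add, ← Complex.exp_add]
      congr 1
      rw [Nat.cast_sub hm']
      push_cast
      ring
    rw [h2]
    ring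
  simp_rw [h1]
  rw [intervalIntegral.integral_finsetSum]
  · refine Finset.sum_congr rfl fun m _ => ?_
    rw [intervalIntegral.integral_const_mul, int_exp]
  · intro m _
    apply Continuous.intervalIntegrable
    fun_prop

theorem cs (p q : ℂ) (φ : ℝ) : p * (Real.cos φ : ℂ) + q * (Real.sin φ : ℂ) =
    (p - Complex.I * q) / 2 * Complex.exp (Complex.I * φ) +
      (p + Complex.I * q) / 2 * Complex.exp (-(Complex.I * φ)) := by
  rw [Complex.ofReal_cos, Complex.ofReal_sin, Complex.cos, Complex.sin]
  have h1 : Complex.exp ((φ : ℂ) * Complex.I) = Complex.exp (Complex.I * φ) := by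
    rw [mul_comm]
  have h2 : Complex.exp (-(φ : ℂ) * Complex.I) = Complex.exp (-(Complex.I * φ)) := by
    congr 1
    ring
  rw [h1, h2]
  ring

theorem am_eq (j : ℕ) : am j = (Nat.centralBinom j : ℝ) / 4 ^ j := by
  rw [am, Nat.centralBinom]

theorem am_succ (j : ℕ) : am (j + 1) * (2 * j + 2) = am j * (2 * j + 1) := by
  rw [am_eq, am_eq]
  have h := Nat.succ_mul_centralBinom_succ j
  have h' : ((j : ℝ) + 1) * (Nat.centralBinom (j + 1) : ℝ) =
      2 * (2 * j + 1) * (Nat.centralBinom j : ℝ) := by
    exact_mod_cast h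
  have h4 : (4 : ℝ) ^ (j + 1) ≠ 0 := by positivity
  have h5 : (4 : ℝ) ^ j ≠ 0 := by positivity
  field_simp
  rw [pow_succ]
  linear_combination (2 * (4 : ℝ) ^ j) * h'

theorem am_pos (j : ℕ) : 0 < am j := by
  rw [am_eq]
  have := Nat.centralBinom_pos j
  positivity

theorem sum_even (F : ℕ → ℂ) (hF : ∀ j, F (2 * j + 1) = 0) (l : ℕ) :
    ∑ k ∈ Finset.range (l + 1), F k = ∑ j ∈ Finset.range (l / 2 + 1), F (2 * j) := by
  have h2 : ∀ m : ℕ, ∑ k ∈ Finset.range (2 * m + 1), F k =
      ∑ j ∈ Finset.range (m + 1), F (2 * j) := by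
    intro m
    induction m with
    | zero => simp
    | succ m ih =>
      have : 2 * (m + 1) + 1 = (2 * m + 1) + 1 + 1 := by ring
      rw [this, Finset.sum_range_succ, Finset.sum_range_succ, ih, hF m, Finset.sum_range_succ _ (m + 1)]
      have h3 : 2 * m + 1 + 1 = 2 * (m + 1) := by ring
      rw [h3]
      ring
  rcases Nat.even_or_odd' l with ⟨m, rfl | rfl⟩
  · rw [h2 m]
    congr 2
    omega
  · rw [Finset.sum_range_succ, h2 m, hF m]
    have : (2 * m + 1) / 2 = m := by omega
    rw [this]
    ring

theorem mean_pow (p q : ℂ) (k : ℕ) :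
    ∫ φ in (0 : ℝ)..(2 * π), (p * (Real.cos φ : ℂ) + q * (Real.sin φ : ℂ)) ^ k =
    if Even k then 2 * π * ((am (k / 2) : ℝ) : ℂ) * (p ^ 2 + q ^ 2) ^ (k / 2) else 0 := by
  have h := int_pow ((p - Complex.I * q) / 2) ((p + Complex.I * q) / 2) k 0
  have h0 : ∀ φ : ℝ, Complex.exp (Complex.I * ((0 : ℤ) : ℂ) * φ) *
      ((p - Complex.I * q) / 2 * Complex.exp (Complex.I * φ) +
        (p + Complex.I * q) / 2 * Complex.exp (-(Complex.I * φ))) ^ k =
      (p * (Real.cos φ : ℂ) + q * (Real.sin φ : ℂ)) ^ k := by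
    intro φ
    rw [← cs]
    simp
  simp_rw [h0] at h
  rw [h]
  split_ifs with hk
  · obtain ⟨j, rfl⟩ := hk
    have hj : (j + j) / 2 = j := by omega
    rw [hj, Finset.sum_eq_single j]
    · have h1 : ((2 * (j : ℤ)) - ((j + j : ℕ) : ℤ) + 0) = 0 := by
        push_cast
        ring
      rw [if_pos h1]
      have h2 : j + j - j = j := by omega
      rw [h2]
      have h3 : ((p - Complex.I * q) / 2) ^ j * ((p + Complex.I * q) / 2) ^ j =
          (p ^ 2 + q ^ 2) ^ j / 4 ^ j := by
        rw [← mul_pow, ← div_pow]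
        congr 1
        have hI := Complex.I_sq
        linear_combination (-(q ^ 2) / 4) * hI
      have h4 : ((am j : ℝ) : ℂ) = (Nat.choose (j + j) j : ℂ) / 4 ^ j := by
        rw [am]
        have : 2 * j = j + j := by ring
        rw [this]
        push_cast
        ring
      rw [h4]
      linear_combination (2 * (π : ℂ) * (Nat.choose (j + j) j : ℂ)) * h3
    · intro m _ hm
      have h1 : ¬ ((2 * (m : ℤ)) - ((j + j : ℕ) : ℤ) + 0) = 0 := by
        push_cast
        intro h
        apply hm
        omega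
      rw [if_neg h1, mul_zero]
    · intro h
      exfalso
      apply h
      rw [Finset.mem_range]
      omega
  · apply Finset.sum_eq_zero
    intro m _
    have h1 : ¬ ((2 * (m : ℤ)) - (k : ℤ) + 0) = 0 := by
      intro h
      apply hk
      refine ⟨m, ?_⟩
      omega
    rw [if_neg h1, mul_zero]

end CAVM

open CAVM in
theorem specCAV : SpecCAV := by
  refine ⟨?_, ?_, ?_, ?_, ?_, ?_⟩
  · intro l x p q
    have h1 : ∀ φ : ℝ, (x + p * (Real.cos φ : ℂ) + q * (Real.sin φ : ℂ)) ^ l =
        ∑ k ∈ Finset.range (l + 1), (x ^ (l - k) * (Nat.choose l k : ℂ)) *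
          (p * (Real.cos φ : ℂ) + q * (Real.sin φ : ℂ)) ^ k := by
      intro φ
      have h2 : x + p * (Real.cos φ : ℂ) + q * (Real.sin φ : ℂ) =
          (p * (Real.cos φ : ℂ) + q * (Real.sin φ : ℂ)) + x := by ring
      rw [h2, add_pow]
      refine Finset.sum_congr rfl fun k _ => ?_
      ring
    simp_rw [h1]
    rw [intervalIntegral.integral_finsetSum]
    · simp_rw [intervalIntegral.integral_const_mul, mean_pow]
      rw [sum_even (fun k => x ^ (l - k) * (Nat.choose l k : ℂ) *
        (if Even k then 2 * π * ((am (k / 2) : ℝ) : ℂ) * (p ^ 2 + q ^ 2) ^ (k / 2) else 0))]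
      · rw [Finset.mul_sum]
        refine Finset.sum_congr rfl fun j _ => ?_
        have he : Even (2 * j) := even_two_mul j
        have hj : 2 * j / 2 = j := by omega
        simp only [he, if_true, hj]
        ring
      · intro j
        have ho : ¬ Even (2 * j + 1) := by
          rw [Nat.not_even_iff_odd]
          exact odd_two_mul_add_one j
        simp only [ho, if_false, mul_zero]
    · intro k _
      apply Continuous.intervalIntegrable
      fun_prop
  · intro n p q
    have hA := int_pow ((p - Complex.I * q) / 2) ((p + Complex.I * q) / 2) (2 * n + 1) 1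
    have hB := int_pow ((p - Complex.I * q) / 2) ((p + Complex.I * q) / 2) (2 * n + 1) (-1)
    have h1 : ∀ φ : ℝ, (Real.cos φ : ℂ) *
        (p * (Real.cos φ : ℂ) + q * (Real.sin φ : ℂ)) ^ (2 * n + 1) =
        (1 / 2 : ℂ) * (Complex.exp (Complex.I * ((1 : ℤ) : ℂ) * φ) *
          ((p - Complex.I * q) / 2 * Complex.exp (Complex.I * φ) +
            (p + Complex.I * q) / 2 * Complex.exp (-(Complex.I * φ))) ^ (2 * n + 1)) +
        (1 / 2 : ℂ) * (Complex.exp (Complex.I * ((-1 : ℤ) : ℂ) * φ) *
          ((p - Complex.I * q) / 2 * Complex.exp (Complex.I * φ) +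
            (p + Complex.I * q) / 2 * Complex.exp (-(Complex.I * φ))) ^ (2 * n + 1)) := by
      intro φ
      rw [← cs]
      have hc := cs 1 0 φ
      have e1 : Complex.exp (Complex.I * ((1 : ℤ) : ℂ) * φ) = Complex.exp (Complex.I * φ) := by
        congr 1
        push_cast
        ring
      have e2 : Complex.exp (Complex.I * ((-1 : ℤ) : ℂ) * φ) = Complex.exp (-(Complex.I * φ)) := by
        congr 1
        push_cast
        ring
      rw [e1, e2]
      have hc' : (Real.cos φ : ℂ) = 1 / 2 * Complex.exp (Complex.I * φ) +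
          1 / 2 * Complex.exp (-(Complex.I * φ)) := by
        linear_combination hc
      linear_combination (p * (Real.cos φ : ℂ) + q * (Real.sin φ : ℂ)) ^ (2 * n + 1) * hc'
    simp_rw [h1]
    rw [intervalIntegral.integral_add, intervalIntegral.integral_const_mul,
      intervalIntegral.integral_const_mul, hA, hB]
    · rw [Finset.sum_eq_single n, Finset.sum_eq_single (n + 1)]
      · have c1 : (2 * (n : ℤ) - ((2 * n + 1 : ℕ) : ℤ) + 1) = 0 := by
          push_cast
          ring
        have c2 : (2 * ((n + 1 : ℕ) : ℤ) - ((2 * n + 1 : ℕ) : ℤ) + -1) = 0 := by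
          push_cast
          ring
        rw [if_pos c1, if_pos c2]
        have d1 : 2 * n + 1 - n = n + 1 := by omega
        have d2 : 2 * n + 1 - (n + 1) = n := by omega
        rw [d1, d2]
        have h3 : ((p - Complex.I * q) / 2) ^ n * ((p + Complex.I * q) / 2) ^ n =
            (p ^ 2 + q ^ 2) ^ n / 4 ^ n := by
          rw [← mul_pow, ← div_pow]
          congr 1
          have hI := Complex.I_sq
          linear_combination (-(q ^ 2) / 4) * hI
        have hch : Nat.choose (2 * n + 1) (n + 1) = Nat.choose (2 * n + 1) n := by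
          apply Nat.choose_symm_of_eq_add
          ring
        have hch2 : Nat.choose (2 * (n + 1)) (n + 1) = 2 * Nat.choose (2 * n + 1) n := by
          have : 2 * (n + 1) = (2 * n + 1) + 1 := by ring
          rw [this, Nat.choose_succ_succ, hch]
          ring
        have h4 : ((am (n + 1) : ℝ) : ℂ) = (Nat.choose (2 * n + 1) n : ℂ) / (2 * 4 ^ n) := by
          rw [am, hch2]
          push_cast
          rw [pow_succ]
          field_simp
          ring
        rw [h4, hch, pow_succ, pow_succ]
        have h5 : (4 : ℂ) ^ n ≠ 0 := pow_ne_zero _ (by norm_num)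
        have h6 : (Nat.choose (2 * n + 1) n : ℂ) / (2 * 4 ^ n) * p * (p ^ 2 + q ^ 2) ^ n =
            (Nat.choose (2 * n + 1) n : ℂ) * p / 2 * ((p ^ 2 + q ^ 2) ^ n / 4 ^ n) := by
          field_simp
        have h7 : 2 * (π : ℂ) * ((Nat.choose (2 * n + 1) n : ℂ) / (2 * 4 ^ n)) * p *
            (p ^ 2 + q ^ 2) ^ n =
            2 * (π : ℂ) * ((Nat.choose (2 * n + 1) n : ℂ) / (2 * 4 ^ n) * p *
            (p ^ 2 + q ^ 2) ^ n) := by ring
        rw [h7, h6, ← h3]
        ring
      · intro m _ hm
        have h1 : ¬ ((2 * (m : ℤ)) - ((2 * n + 1 : ℕ) : ℤ) + -1) = 0 := by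
          push_cast
          intro h
          apply hm
          omega
        rw [if_neg h1, mul_zero]
      · intro h
        exfalso
        apply h
        rw [Finset.mem_range]
        omega
      · intro m _ hm
        have h1 : ¬ ((2 * (m : ℤ)) - ((2 * n + 1 : ℕ) : ℤ) + 1) = 0 := by
          push_cast
          intro h
          apply hm
          omega
        rw [if_neg h1, mul_zero]
      · intro h
        exfalso
        apply h
        rw [Finset.mem_range]
        omega
    · apply Continuous.intervalIntegrable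
      fun_prop
    · apply Continuous.intervalIntegrable
      fun_prop
  · simp [am]
  · simp [am]
    norm_num
  · norm_num [am, Nat.choose]
  · intro j
    refine ⟨am_pos j, ?_⟩
    have h := am_succ j
    have hp := am_pos j
    have hj : (0 : ℝ) ≤ j := Nat.cast_nonneg j
    nlinarith

end Pool.Agent.Lib.MP_084b88_gt.AY
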