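import Pool.Agent.Lib.MP_084b88_gt.AY.SpecP

/-!
# MP_084b88_gt, project AY: module CEN (centroid-Legendre position)
-/

set_option autoImplicit false

open MeasureTheory Set Real Filter Topology
open scoped Pointwise InnerProductSpace

namespace Pool.Agent.Lib.MP_084b88_gt.AY

open Pool.Agent.Lib.MP_084b88_gt.CW Pool.Agent.Lib.MP_084b88_gt.SY Pool.Agent.Lib.MP_084b88_gt.LG

namespace CENM

theorem integrable_of_cont {P : Set (ℝ × ℝ)} (hP : CC P) {f : ℝ × ℝ → ℝ} (hf : Continuous f) :
    IntegrableOn f P := hf.continuousOn.integrableOn_compact hP.2.1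

theorem int_const {P : Set (ℝ × ℝ)} (c : ℝ) : ∫ _p in P, c = area P * c := by
  simp only [integral_const, MeasurableSet.univ, measureReal_restrict_apply, univ_inter,
    smul_eq_mul]
  rfl

theorem dotu_lm0 (t0 a b : ℝ) (q : ℝ × ℝ) : dotu t0 (lm t0 a b q) = a * q.1 := by
  unfold dotu lm
  simp only
  linear_combination (a * q.1) * sin_sq_add_cos_sq t0

theorem dotu_lm1 (t0 a b : ℝ) (q : ℝ × ℝ) : dotu (t0 + π / 2) (lm t0 a b q) = b * q.2 := by
  unfold dotu lm
  simp only [cos_add_pi_div_two, sin_add_pi_div_two]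
  linear_combination (b * q.2) * sin_sq_add_cos_sq t0

end CENM

open CENM in
/-- **CEN**. -/
theorem specCEN (hTRA : SpecTRA) (hLEL : SpecLEL) (hAFQ : SpecAFQ) : SpecCEN := by
  intro P hP hw ha
  set w : ℝ × ℝ := ((∫ p in P, p.1) / area P, (∫ p in P, p.2) / area P) with hwd
  obtain ⟨hP0, hA0, hI0, hS0⟩ := hTRA P (-w) hP
  set P0 : Set (ℝ × ℝ) := (fun q => q + -w) '' P with hP0d
  have hw0 : ∀ θ, 0 < wid P0 θ := by
    intro θ
    rw [(hS0 θ).2.1]
    exact hw θ
  have ha0 : 0 < area P0 := by rw [hA0]; exact ha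
  obtain ⟨t0, a, b, P', hb, hab, hPP, hCC, hwid, harea, -, m1, m2, m3⟩ := hLEL P0 hP0 hw0 ha0
  have ha' : 0 < a := hb.trans_le hab
  have z1 : ∫ p in P0, p.1 = 0 := by
    rw [hI0 (fun p => p.1)]
    have e : ∀ q : ℝ × ℝ, (q + -w).1 = q.1 + (-w.1) := fun q => rfl
    simp only [e]
    rw [integral_add (integrable_of_cont hP (by fun_prop)) (integrable_of_cont hP (by fun_prop)),
      int_const, hwd]
    have := ha.ne'
    field_simp
    ring
  have z2 : ∫ p in P0, p.2 = 0 := by
    rw [hI0 (fun p => p.2)]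
    have e : ∀ q : ℝ × ℝ, (q + -w).2 = q.2 + (-w.2) := fun q => rfl
    simp only [e]
    rw [integral_add (integrable_of_cont hP (by fun_prop)) (integrable_of_cont hP (by fun_prop)),
      int_const, hwd]
    have := ha.ne'
    field_simp
    ring
  have zd : ∀ θ : ℝ, ∫ p in P0, dotu θ p = 0 := by
    intro θ
    have e : ∀ p : ℝ × ℝ, dotu θ p = cos θ * p.1 + sin θ * p.2 := by
      intro p; unfold dotu; ring
    simp only [e]
    rw [integral_add (integrable_of_cont hP0 (by fun_prop))
      (integrable_of_cont hP0 (by fun_prop)), integral_const_mul, integral_const_mul, z1, z2]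
    ring
  obtain ⟨-, -, hIm, -⟩ := hAFQ P' t0 a b hCC ha' hb
  refine ⟨t0, a, b, w, P', hb, hab, ⟨hCC, hwid, harea, ?_, ?_, m1, m2, m3⟩, ?_⟩
  · have h1 := hIm (dotu t0)
    rw [← hPP, zd] at h1
    simp only [dotu_lm0] at h1
    rw [integral_const_mul] at h1
    have h2 : a * b * a ≠ 0 := by positivity
    have h3 : (a * b * a) * ∫ q in P', q.1 = 0 := by linarith
    exact (mul_eq_zero.1 h3).resolve_left h2
  · have h1 := hIm (dotu (t0 + π / 2))
    rw [← hPP, zd] at h1
    simp only [dotu_lm1] at h1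
    rw [integral_const_mul] at h1
    have h2 : a * b * b ≠ 0 := by positivity
    have h3 : (a * b * b) * ∫ q in P', q.2 = 0 := by linarith
    exact (mul_eq_zero.1 h3).resolve_left h2
  · rw [← hPP, hP0d, image_image]
    simp only [neg_add_cancel_right, image_id']

end Pool.Agent.Lib.MP_084b88_gt.AY
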