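import Pool.Agent.Lib.MP_084b88_gt.AY.SpecS

/-!
# MP_084b88_gt, project AY, module DIR: the Dirichlet form on the sphere
-/

set_option autoImplicit false

open MeasureTheory Set Real Filter Topology
open scoped Pointwise InnerProductSpace

namespace Pool.Agent.Lib.MP_084b88_gt.AY

open Pool.Agent.Lib.MP_084b88_gt.CW Pool.Agent.Lib.MP_084b88_gt.SY

namespace DIRM

theorem lim_cos : Tendsto (fun α : ℝ => (1 - cos α) / α ^ 2) (𝓝[>] 0) (𝓝 (1 / 2)) := by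
  have hup : ∀ᶠ α : ℝ in 𝓝[>] 0, (1 - cos α) / α ^ 2 ≤ 1 / 2 + 5 / 96 * α ^ 2 := by
    filter_upwards [Ioc_mem_nhdsGT (show (0 : ℝ) < 1 by norm_num)] with α hα
    have h0 : 0 < α := hα.1
    have h1 := Real.cos_bound (x := α) (by rw [abs_of_pos h0]; exact hα.2)
    rw [abs_of_pos h0] at h1
    have h2 := (abs_le.1 h1).1
    rw [div_le_iff₀ (by positivity)]
    nlinarith
  have hlo : ∀ᶠ α : ℝ in 𝓝[>] 0, 1 / 2 - 5 / 96 * α ^ 2 ≤ (1 - cos α) / α ^ 2 := by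
    filter_upwards [Ioc_mem_nhdsGT (show (0 : ℝ) < 1 by norm_num)] with α hα
    have h0 : 0 < α := hα.1
    have h1 := Real.cos_bound (x := α) (by rw [abs_of_pos h0]; exact hα.2)
    rw [abs_of_pos h0] at h1
    have h2 := (abs_le.1 h1).2
    rw [le_div_iff₀ (by positivity)]
    nlinarith
  have hsq : Tendsto (fun α : ℝ => α ^ 2) (𝓝[>] 0) (𝓝 0) := by
    have : Tendsto (fun α : ℝ => α ^ 2) (𝓝 0) (𝓝 (0 ^ 2)) := (continuous_pow 2).tendsto 0
    rw [zero_pow two_ne_zero] at this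
    exact this.mono_left nhdsWithin_le_nhds
  have h1 : Tendsto (fun α : ℝ => 1 / 2 - 5 / 96 * α ^ 2) (𝓝[>] 0) (𝓝 (1 / 2)) := by
    have := (tendsto_const_nhds (x := (1 / 2 : ℝ))).sub (hsq.const_mul (5 / 96))
    simpa using this
  have h2 : Tendsto (fun α : ℝ => 1 / 2 + 5 / 96 * α ^ 2) (𝓝[>] 0) (𝓝 (1 / 2)) := by
    have := (tendsto_const_nhds (x := (1 / 2 : ℝ))).add (hsq.const_mul (5 / 96))
    simpa using this
  exact tendsto_of_tendsto_of_tendsto_of_le_of_le' h1 h2 hlo hup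

theorem cos_ne {α : ℝ} (h0 : 0 < α) (h1 : α ≤ 1) : cos α ≠ 1 := by
  have h2 : α < π := by linarith [Real.pi_gt_three]
  have := Real.cos_lt_cos_of_nonneg_of_le_pi (le_refl 0) h2.le h0
  rw [Real.cos_zero] at this
  exact this.ne

theorem lim_Lp (hLEG : SpecLEG) (l : ℕ) :
    Tendsto (fun α : ℝ => (1 - Lp l (cos α)) / α ^ 2) (𝓝[>] 0) (𝓝 ((l : ℝ) * (l + 1) / 4)) := by
  obtain ⟨h1, -⟩ := hLEG
  obtain ⟨-, hone, -, hd, -⟩ := h1 l
  have hs := hasDerivAt_iff_tendsto_slope.1 hd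
  have hc : Tendsto (fun α : ℝ => cos α) (𝓝[>] 0) (𝓝[≠] 1) := by
    refine tendsto_nhdsWithin_iff.2 ⟨?_, ?_⟩
    · have : Tendsto cos (𝓝 0) (𝓝 (cos 0)) := Real.continuous_cos.tendsto 0
      rw [Real.cos_zero] at this
      exact this.mono_left nhdsWithin_le_nhds
    · filter_upwards [Ioc_mem_nhdsGT (show (0 : ℝ) < 1 by norm_num)] with α hα
      exact cos_ne hα.1 hα.2
  have h2 := (hs.comp hc).mul lim_cos
  have e : (l : ℝ) * (l + 1) / 2 * (1 / 2) = (l : ℝ) * (l + 1) / 4 := by ring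
  rw [e] at h2
  refine h2.congr' ?_
  filter_upwards [Ioc_mem_nhdsGT (show (0 : ℝ) < 1 by norm_num)] with α hα
  have h3 := cos_ne hα.1 hα.2
  have h4 : cos α - 1 ≠ 0 := sub_ne_zero.2 h3
  have h5 : α ≠ 0 := hα.1.ne'
  simp only [Function.comp_apply, slope_def_field, hone]
  field_simp
  ring

end DIRM

open DIRM in
theorem specDIR (hKEY : SpecKEY) (hLEG : SpecLEG) (hBAQ : SpecBAQ) : SpecDIR := by
  intro μ hμ f hf hodd hmean D hD
  have hIP : ∫ R, f (col R 0) ^ 2 ∂μ = IP μ f f := by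
    unfold IP
    congr 1
    funext R
    ring
  rw [hIP]
  refine le_of_forall_pos_le_add (fun ε hε => ?_)
  obtain ⟨N, β, hβ, -, h2, h3⟩ := hKEY μ hμ f hf hodd hmean (ε / 6) (by positivity)
  -- the limit
  have hlim : Tendsto (fun α : ℝ => 2 * ∑ n ∈ Finset.range N,
      β n * ((1 - Lp (2 * n + 3) (cos α)) / α ^ 2)) (𝓝[>] 0)
      (𝓝 (2 * ∑ n ∈ Finset.range N, β n * (((2 * n + 3 : ℕ) : ℝ) * (((2 * n + 3 : ℕ) : ℝ) + 1) / 4))) := by
    apply Tendsto.const_mul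
    apply tendsto_finsetSum
    intro n _
    exact (lim_Lp hLEG (2 * n + 3)).const_mul (β n)
  have hle : 2 * ∑ n ∈ Finset.range N, β n * (((2 * n + 3 : ℕ) : ℝ) * (((2 * n + 3 : ℕ) : ℝ) + 1) / 4)
      ≤ D := by
    refine le_of_tendsto hlim ?_
    filter_upwards [Ioc_mem_nhdsGT (show (0 : ℝ) < 1 by norm_num)] with α hα
    have h4 := hD α hα.1 hα.2
    have h5 := (hBAQ μ hμ f f hf hf α).2.2.2.2.2.1
    rw [h5] at h4
    have h6 := h2 α
    have hpos : 0 < α ^ 2 := by have := hα.1; positivity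
    have e : 2 * ∑ n ∈ Finset.range N, β n * ((1 - Lp (2 * n + 3) (cos α)) / α ^ 2) =
        (2 * ∑ n ∈ Finset.range N, β n * (1 - Lp (2 * n + 3) (cos α))) / α ^ 2 := by
      rw [mul_div_assoc, Finset.sum_div]
      congr 1
      apply Finset.sum_congr rfl
      intro n _
      rw [mul_div_assoc]
    rw [e, div_le_iff₀ hpos]
    linarith
  have hge : 6 * ∑ n ∈ Finset.range N, β n ≤ 2 * ∑ n ∈ Finset.range N,
      β n * (((2 * n + 3 : ℕ) : ℝ) * (((2 * n + 3 : ℕ) : ℝ) + 1) / 4) := by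
    rw [Finset.mul_sum, Finset.mul_sum]
    apply Finset.sum_le_sum
    intro n _
    have hn : (3 : ℝ) ≤ ((2 * n + 3 : ℕ) : ℝ) := by exact_mod_cast (by omega : 3 ≤ 2 * n + 3)
    have h7 : (3 : ℝ) ≤ ((2 * n + 3 : ℕ) : ℝ) * (((2 * n + 3 : ℕ) : ℝ) + 1) / 4 := by nlinarith
    have := mul_le_mul_of_nonneg_left h7 (hβ n)
    linarith
  linarith

end Pool.Agent.Lib.MP_084b88_gt.AY
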