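import Pool.Agent.Lib.MP_084b88_gt.AY.SpecS

/-!
# E85: the constant `8/5`
-/

set_option autoImplicit false

open MeasureTheory Set Real Filter Topology
open scoped Pointwise InnerProductSpace

namespace Pool.Agent.Lib.MP_084b88_gt.AY

open Pool.Agent.Lib.MP_084b88_gt.CW Pool.Agent.Lib.MP_084b88_gt.SY

namespace E85M

theorem int_right {μ : Measure O3} (hμ : HaarO μ) (S : O3) (f : O3 → ℝ) :
    ∫ R, f (R * S) ∂μ = ∫ R, f R ∂μ :=
  (hμ.2.1 S).integral_comp' (f := (Homeomorph.mulRight S).toMeasurableEquiv) f

theorem integ {μ : Measure O3} [IsProbabilityMeasure μ] {f : O3 → ℝ} (hf : Continuous f) :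
    Integrable f μ :=
  hf.integrable_of_hasCompactSupport (HasCompactSupport.of_compactSpace f)

/-- Fubini for continuous functions. -/
theorem swapc {μ : Measure O3} [IsProbabilityMeasure μ] (F : O3 → ℝ → ℝ)
    (hF : Continuous (fun q : O3 × ℝ => F q.1 q.2)) :
    ∫ R, (∫ t in (0 : ℝ)..(2 * π), F R t) ∂μ = ∫ t in (0 : ℝ)..(2 * π), (∫ R, F R t ∂μ) := by
  have hpi : (0 : ℝ) ≤ 2 * π := by positivity
  have hK2 : IsCompact ((univ : Set O3) ×ˢ Icc (0 : ℝ) (2 * π)) := isCompact_univ.prod isCompact_Icc
  obtain ⟨C, hC⟩ := hK2.exists_bound_of_continuousOn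
    (f := fun a : O3 × ℝ => F a.1 a.2) hF.continuousOn
  have hmeas : AEStronglyMeasurable (Function.uncurry F)
      (μ.prod (volume.restrict (Ioc (0 : ℝ) (2 * π)))) := by
    have : (Function.uncurry F) = fun a : O3 × ℝ => F a.1 a.2 := by
      funext a; rfl
    rw [this]
    exact hF.aestronglyMeasurable
  have hint : Integrable (Function.uncurry F) (μ.prod (volume.restrict (Ioc (0 : ℝ) (2 * π)))) := by
    refine Integrable.mono' (g := fun _ => C) (integrable_const C) hmeas ?_
    have hae : ∀ᵐ a ∂(μ.prod (volume.restrict (Ioc (0 : ℝ) (2 * π)))),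
        a ∈ (univ : Set O3) ×ˢ Ioc (0 : ℝ) (2 * π) := by
      have h3 : μ.prod (volume.restrict (Ioc (0 : ℝ) (2 * π))) =
          (μ.prod volume).restrict ((univ : Set O3) ×ˢ Ioc (0 : ℝ) (2 * π)) := by
        rw [← Measure.prod_restrict, Measure.restrict_univ]
      rw [h3]
      exact ae_restrict_mem (MeasurableSet.univ.prod measurableSet_Ioc)
    filter_upwards [hae] with a ha
    exact hC a ⟨mem_univ _, ha.2.1.le, ha.2.2⟩
  have hswap := integral_integral_swap hint
  rw [intervalIntegral.integral_of_le hpi, ← hswap]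
  congr 1
  funext R
  rw [intervalIntegral.integral_of_le hpi]

theorem col_rr (R : O3) (s t : ℝ) : col (R * rot s * rot t) 0 = col (R * rot (s + t)) 0 := by
  rw [col_rot_zero (R * rot s), col_rot_zero, col_rot_one, col_rot_zero, cos_add, sin_add]
  module

/-- `γ_R(t)`. -/
noncomputable def ga (f : E3 → ℝ) (R : O3) (t : ℝ) : ℝ := f (col (R * rot t) 0)

noncomputable def xx (f : E3 → ℝ) (R : O3) : ℝ := 1 / π * ∫ t in (0 : ℝ)..(2 * π), ga f R t * cos t
noncomputable def yy (f : E3 → ℝ) (R : O3) : ℝ := 1 / π * ∫ t in (0 : ℝ)..(2 * π), ga f R t * sin t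

section

variable {f : E3 → ℝ}

theorem cga (hf : Continuous f) : Continuous (fun q : O3 × ℝ => ga f q.1 q.2) :=
  hf.comp ((continuous_col 0).comp (continuous_fst.mul (continuous_rot.comp continuous_snd)))

theorem cga1 (hf : Continuous f) (R : O3) : Continuous (ga f R) :=
  (cga hf).comp (continuous_const.prodMk continuous_id)

theorem cxx (hf : Continuous f) : Continuous (xx f) := by
  unfold xx
  refine continuous_const.mul ?_
  refine intervalIntegral.continuous_parametric_intervalIntegral_of_continuous' ?_ 0 (2 * π)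
  exact (cga hf).mul (continuous_cos.comp continuous_snd)

theorem cyy (hf : Continuous f) : Continuous (yy f) := by
  unfold yy
  refine continuous_const.mul ?_
  refine intervalIntegral.continuous_parametric_intervalIntegral_of_continuous' ?_ 0 (2 * π)
  exact (cga hf).mul (continuous_sin.comp continuous_snd)

theorem cG (hf : Continuous f) : Continuous (fun R : O3 => f (col R 0)) :=
  hf.comp (continuous_col 0)

theorem ga_rot (R : O3) (s t : ℝ) : ga f (R * rot s) t = ga f R (s + t) := by
  unfold ga
  rw [col_rr]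

theorem ga_per (R : O3) (t : ℝ) : ga f R (t + 2 * π) = ga f R t := by
  unfold ga
  rw [col_rot_zero, col_rot_zero, cos_add_two_pi, sin_add_two_pi]

theorem ga_zero (R : O3) : ga f R 0 = f (col R 0) := by
  unfold ga
  rw [col_rot_zero]
  simp

/-- `x(R rot (-s)) = x cos s - y sin s`. -/
theorem xx_rot (hf : Continuous f) (R : O3) (s : ℝ) :
    xx f (R * rot (-s)) = cos s * xx f R - sin s * yy f R := by
  unfold xx yy
  have h1 : (∫ t in (0 : ℝ)..(2 * π), ga f (R * rot (-s)) t * cos t) =
      ∫ t in (0 : ℝ)..(2 * π), (fun u => ga f R u * cos (u + s)) (t - s) := by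
    congr 1
    funext t
    simp only
    rw [ga_rot, show -s + t = t - s by ring, show t - s + s = t by ring]
  have hper : Function.Periodic (fun u => ga f R u * cos (u + s)) (2 * π) := by
    intro u
    show ga f R (u + 2 * π) * cos (u + 2 * π + s) = ga f R u * cos (u + s)
    rw [ga_per, show u + 2 * π + s = u + s + 2 * π by ring, cos_add_two_pi]
  have h2 : (∫ t in (0 : ℝ)..(2 * π), (fun u => ga f R u * cos (u + s)) (t - s)) =
      ∫ u in (0 : ℝ)..(2 * π), ga f R u * cos (u + s) := by
    rw [intervalIntegral.integral_comp_sub_right (fun u => ga f R u * cos (u + s)) s]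
    have h3 := hper.intervalIntegral_add_eq (0 - s) 0
    rw [show (2 : ℝ) * π - s = 0 - s + 2 * π by ring, h3]
    simp
  have hc := cga1 hf R
  have h4 : (∫ u in (0 : ℝ)..(2 * π), ga f R u * cos (u + s)) =
      cos s * (∫ t in (0 : ℝ)..(2 * π), ga f R t * cos t) -
        sin s * ∫ t in (0 : ℝ)..(2 * π), ga f R t * sin t := by
    rw [← intervalIntegral.integral_const_mul, ← intervalIntegral.integral_const_mul,
      ← intervalIntegral.integral_sub]
    · congr 1
      funext u
      rw [cos_add]
      ring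
    · exact (continuous_const.mul (hc.mul continuous_cos)).intervalIntegrable _ _
    · exact (continuous_const.mul (hc.mul continuous_sin)).intervalIntegrable _ _
  rw [h1, h2, h4]
  ring

theorem exx (hf : Continuous f) {μ : Measure O3} (hμ : HaarO μ) :
    ∫ R, f (col R 0) * xx f R ∂μ = 1 / π * ∫ t in (0 : ℝ)..(2 * π), cos t * BA μ f f t := by
  have hP := hμ.1
  have h1 : (∫ R, f (col R 0) * xx f R ∂μ) =
      ∫ R, 1 / π * (∫ t in (0 : ℝ)..(2 * π), cos t * (f (col R 0) * ga f R t)) ∂μ := by
    congr 1
    funext R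
    unfold xx
    rw [mul_left_comm, ← intervalIntegral.integral_const_mul]
    congr 1
    congr 1
    funext t
    ring
  rw [h1, integral_const_mul, swapc]
  · congr 1
    congr 1
    funext t
    rw [integral_const_mul]
    rfl
  · exact (continuous_cos.comp continuous_snd).mul (((cG hf).comp continuous_fst).mul (cga hf))

theorem shift (hf : Continuous f) {μ : Measure O3} (hμ : HaarO μ) (s : ℝ) :
    ∫ R, ga f R s * xx f R ∂μ =
      cos s * (∫ R, f (col R 0) * xx f R ∂μ) - sin s * ∫ R, f (col R 0) * yy f R ∂μ := by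
  have hP := hμ.1
  rw [← int_right hμ (rot (-s)) (fun R => ga f R s * xx f R), ← integral_const_mul,
    ← integral_const_mul, ← integral_sub]
  · congr 1
    funext R
    rw [ga_rot, show -s + s = 0 by ring, ga_zero, xx_rot hf]
    ring
  · exact integ (continuous_const.mul ((cG hf).mul (cxx hf)))
  · exact integ (continuous_const.mul ((cG hf).mul (cyy hf)))

theorem exx2 (hf : Continuous f) {μ : Measure O3} (hμ : HaarO μ) :
    ∫ R, xx f R * xx f R ∂μ = ∫ R, f (col R 0) * xx f R ∂μ := by
  have hP := hμ.1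
  have h1 : (∫ R, xx f R * xx f R ∂μ) =
      ∫ R, 1 / π * (∫ t in (0 : ℝ)..(2 * π), cos t * (ga f R t * xx f R)) ∂μ := by
    congr 1
    funext R
    nth_rewrite 1 [xx]
    rw [mul_assoc, ← intervalIntegral.integral_mul_const]
    congr 1
    congr 1
    funext t
    ring
  rw [h1, integral_const_mul, swapc]
  · have h2 : ∀ t : ℝ, (∫ R, cos t * (ga f R t * xx f R) ∂μ) =
        cos t ^ 2 * (∫ R, f (col R 0) * xx f R ∂μ) -
          sin t * cos t * ∫ R, f (col R 0) * yy f R ∂μ := by
      intro t
      rw [integral_const_mul, shift hf hμ]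
      ring
    simp only [h2]
    rw [intervalIntegral.integral_sub, intervalIntegral.integral_mul_const,
      intervalIntegral.integral_mul_const, integral_cos_sq, integral_sin_mul_cos₁]
    · simp only [cos_two_pi, sin_two_pi, cos_zero, sin_zero]
      field_simp
      ring
    · exact ((continuous_cos.pow 2).mul continuous_const).intervalIntegrable _ _
    · exact ((continuous_sin.mul continuous_cos).mul continuous_const).intervalIntegrable _ _
  · exact (continuous_cos.comp continuous_snd).mul ((cga hf).mul ((cxx hf).comp continuous_fst))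

theorem g3f_eq (R : O3) :
    g3f (fun t => f (col (R * rot t) 0)) 0 = f (col R 0) - xx f R := by
  unfold g3f xx
  rw [cos_zero, sin_zero, mul_one, mul_zero, sub_zero]
  have h0 := ga_zero (f := f) R
  unfold ga at h0
  show f (col (R * rot 0) 0) - _ = _
  rw [h0]
  rfl

theorem main_id (hf : Continuous f) {μ : Measure O3} (hμ : HaarO μ) :
    ∫ R, g3f (fun t => f (col (R * rot t) 0)) 0 ^ 2 ∂μ =
      (∫ R, f (col R 0) ^ 2 ∂μ) - ∫ R, f (col R 0) * xx f R ∂μ := by
  have hP := hμ.1
  have e : (fun R : O3 => g3f (fun t => f (col (R * rot t) 0)) 0 ^ 2) =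
      fun R : O3 => (f (col R 0) ^ 2 - 2 * (f (col R 0) * xx f R)) + xx f R * xx f R := by
    funext R
    rw [g3f_eq]
    ring
  have i1 : Integrable (fun R : O3 => f (col R 0) ^ 2) μ := integ ((cG hf).pow 2)
  have i2 : Integrable (fun R : O3 => 2 * (f (col R 0) * xx f R)) μ :=
    integ (continuous_const.mul ((cG hf).mul (cxx hf)))
  have i3 : Integrable (fun R : O3 => xx f R * xx f R) μ := integ ((cxx hf).mul (cxx hf))
  have i12 : Integrable (fun R : O3 => f (col R 0) ^ 2 - 2 * (f (col R 0) * xx f R)) μ := i1.sub i2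
  rw [e, integral_add i12 i3, integral_sub i1 i2, integral_const_mul, exx2 hf hμ]
  ring

end

end E85M

open E85M in
theorem specE85 (hKEY : SpecKEY) (hLEG : SpecLEG) (hCAV : SpecCAV) (hBAQ : SpecBAQ) : SpecE85 := by
  intro μ hμ f hf hodd hmode
  have hP := hμ.1
  obtain ⟨hL1, -, -, hL3, -, -⟩ := hLEG
  obtain ⟨-, -, -, ha1, ha2, hadec⟩ := hCAV
  have hcont : Continuous (fun β => BA μ f f β) := (hBAQ μ hμ f f hf hf 0).2.2.2.2.2.2
  set c : ℝ := ∫ R, f (col R 0) * xx f R ∂μ with hcdef
  have hIP : IP μ f f = ∫ R, f (col R 0) ^ 2 ∂μ := by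
    unfold IP
    congr 1
    funext R
    ring
  have hB0 : BA μ f f 0 = IP μ f f := by
    unfold BA IP
    congr 1
    funext R
    rw [col_rot_zero]
    simp
  have hdec : ∀ i j : ℕ, am (i + j) ≤ am i := by
    intro i j
    induction j with
    | zero => simp
    | succ j ih => exact ((hadec (i + j)).2).trans ih
  -- the key inequality
  have hkey : ∀ ε : ℝ, 0 < ε → c ≤ 3 / 8 * (IP μ f f + ε) + 2 * ε := by
    intro ε hε
    obtain ⟨N, β, hβ, hA, -, -⟩ := hKEY μ hμ f hf hodd hmode ε hε
    have hsum : ∑ n ∈ Finset.range N, β n ≤ IP μ f f + ε := by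
      have h0 := hA 0
      rw [hB0] at h0
      have : ∑ n ∈ Finset.range N, β n * Lp (2 * n + 3) (cos 0) = ∑ n ∈ Finset.range N, β n := by
        refine Finset.sum_congr rfl fun n _ => ?_
        rw [cos_zero, (hL1 (2 * n + 3)).2.1, mul_one]
      rw [this] at h0
      have := abs_le.1 h0
      linarith [this.1]
    have hLc : ∀ l : ℕ, Continuous (fun t : ℝ => Lp l (cos t)) := fun l =>
      (hL1 l).1.comp continuous_cos
    have hScont : Continuous (fun t : ℝ =>
        cos t * ∑ n ∈ Finset.range N, β n * Lp (2 * n + 3) (cos t)) :=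
      continuous_cos.mul (continuous_finsetSum _ fun n _ => continuous_const.mul (hLc _))
    have hI : ∫ t in (0 : ℝ)..(2 * π), cos t * ∑ n ∈ Finset.range N, β n * Lp (2 * n + 3) (cos t) =
        ∑ n ∈ Finset.range N, β n * (2 * π * (am (n + 2) * am (n + 1))) := by
      have e1 : (fun t : ℝ => cos t * ∑ n ∈ Finset.range N, β n * Lp (2 * n + 3) (cos t)) =
          fun t => ∑ n ∈ Finset.range N, β n * (cos t * Lp (2 * n + 3) (cos t)) := by
        funext t
        rw [Finset.mul_sum]
        refine Finset.sum_congr rfl fun n _ => ?_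
        ring
      rw [e1, intervalIntegral.integral_finsetSum]
      · refine Finset.sum_congr rfl fun n _ => ?_
        rw [intervalIntegral.integral_const_mul]
        have := hL3 (n + 1)
        rw [show 2 * (n + 1) + 1 = 2 * n + 3 by ring] at this
        rw [this]
      · intro n _
        exact (continuous_const.mul (continuous_cos.mul (hLc _))).intervalIntegrable _ _
    have hle : ∫ t in (0 : ℝ)..(2 * π), cos t * BA μ f f t ≤
        ∫ t in (0 : ℝ)..(2 * π),
          (cos t * (∑ n ∈ Finset.range N, β n * Lp (2 * n + 3) (cos t)) + ε) := by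
      refine intervalIntegral.integral_mono_on (by positivity)
        ((continuous_cos.mul hcont).intervalIntegrable _ _)
        ((hScont.add continuous_const).intervalIntegrable _ _) ?_
      intro t _
      have h1 := hA t
      have h2 : |cos t * (BA μ f f t - ∑ n ∈ Finset.range N, β n * Lp (2 * n + 3) (cos t))| ≤ ε := by
        rw [abs_mul]
        calc |cos t| * |BA μ f f t - ∑ n ∈ Finset.range N, β n * Lp (2 * n + 3) (cos t)|
            ≤ 1 * ε := mul_le_mul (abs_cos_le_one t) h1 (abs_nonneg _) zero_le_one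
          _ = ε := one_mul ε
      have h3 := (abs_le.1 h2).2
      rw [mul_sub] at h3
      linarith
    have h4 : ∫ t in (0 : ℝ)..(2 * π),
          (cos t * (∑ n ∈ Finset.range N, β n * Lp (2 * n + 3) (cos t)) + ε) =
        (∑ n ∈ Finset.range N, β n * (2 * π * (am (n + 2) * am (n + 1)))) + 2 * π * ε := by
      rw [intervalIntegral.integral_add (hScont.intervalIntegrable _ _)
        (continuous_const.intervalIntegrable _ _), hI, intervalIntegral.integral_const]
      simp
    have h5 : ∑ n ∈ Finset.range N, β n * (2 * π * (am (n + 2) * am (n + 1))) ≤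
        ∑ n ∈ Finset.range N, β n * (2 * π * (3 / 16)) := by
      refine Finset.sum_le_sum fun n _ => ?_
      refine mul_le_mul_of_nonneg_left ?_ (hβ n)
      refine mul_le_mul_of_nonneg_left ?_ (by positivity)
      have a2 : am (n + 2) ≤ 3 / 8 := by
        have := hdec 2 n
        rw [ha2, add_comm 2 n] at this
        exact this
      have a1 : am (n + 1) ≤ 1 / 2 := by
        have := hdec 1 n
        rw [ha1, add_comm 1 n] at this
        exact this
      calc am (n + 2) * am (n + 1) ≤ 3 / 8 * (1 / 2) :=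
            mul_le_mul a2 a1 (hadec (n + 1)).1.le (by norm_num)
        _ = 3 / 16 := by norm_num
    rw [← Finset.sum_mul] at h5
    have h6 : (∑ n ∈ Finset.range N, β n) * (2 * π * (3 / 16)) ≤
        (IP μ f f + ε) * (2 * π * (3 / 16)) :=
      mul_le_mul_of_nonneg_right hsum (by positivity)
    have h7 : c = 1 / π * ∫ t in (0 : ℝ)..(2 * π), cos t * BA μ f f t := exx hf hμ
    rw [h7]
    have h8 : ∫ t in (0 : ℝ)..(2 * π), cos t * BA μ f f t ≤
        π * (3 / 8 * (IP μ f f + ε) + 2 * ε) := by
      calc _ ≤ _ := hle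
        _ = _ := h4
        _ ≤ (IP μ f f + ε) * (2 * π * (3 / 16)) + 2 * π * ε := by linarith
        _ = π * (3 / 8 * (IP μ f f + ε) + 2 * ε) := by ring
    calc 1 / π * ∫ t in (0 : ℝ)..(2 * π), cos t * BA μ f f t
        ≤ 1 / π * (π * (3 / 8 * (IP μ f f + ε) + 2 * ε)) :=
          mul_le_mul_of_nonneg_left h8 (by positivity)
      _ = 3 / 8 * (IP μ f f + ε) + 2 * ε := by
          field_simp
  have hfin : c ≤ 3 / 8 * IP μ f f := by
    refine le_of_forall_pos_le_add fun δ hδ => ?_
    have := hkey (δ / 3) (by positivity)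
    linarith
  rw [main_id hf hμ, ← hcdef]
  rw [hIP] at hfin
  linarith

end Pool.Agent.Lib.MP_084b88_gt.AY
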