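import Pool.Agent.Lib.MP_084b88_gt.AY.SpecS

/-!
# MP_084b88_gt, project AY, module EGF: eigenfunctions of the circle means
-/

set_option autoImplicit false

open MeasureTheory Set Real Filter Topology
open scoped Pointwise InnerProductSpace

namespace Pool.Agent.Lib.MP_084b88_gt.AY

open Pool.Agent.Lib.MP_084b88_gt.CW Pool.Agent.Lib.MP_084b88_gt.SY

namespace EGFM

theorem int_right {μ : Measure O3} (hμ : HaarO μ) (S : O3) (f : O3 → ℝ) :
    ∫ R, f (R * S) ∂μ = ∫ R, f R ∂μ :=
  (hμ.2.1 S).integral_comp' (f := (Homeomorph.mulRight S).toMeasurableEquiv) f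

theorem contc {f : E3 → ℝ} (h : Continuous f) (i : Fin 3) :
    Continuous (fun R : O3 => f (col R i)) := h.comp (continuous_col i)

/-- The kernel is jointly continuous. -/
theorem cont_ker {f : E3 → ℝ} (hf : Continuous f) {l : ℕ} (hL : Continuous (Lp l)) :
    Continuous (fun q : E3 × O3 => f (col q.2 0) * Lp l ⟪col q.2 0, q.1⟫_ℝ) := by
  refine (hf.comp ((continuous_col 0).comp continuous_snd)).mul (hL.comp ?_)
  exact ((continuous_col 0).comp continuous_snd).inner continuous_fst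

theorem cont_FL {μ : Measure O3} (hμ : HaarO μ) {f : E3 → ℝ} (hf : Continuous f) {l : ℕ}
    (hL : Continuous (Lp l)) : Continuous (FL μ f l) := by
  have hP := hμ.1
  have h := continuous_parametric_integral_of_continuous (μ := μ) (X := E3) (Y := O3)
    (f := fun x S => f (col S 0) * Lp l ⟪col S 0, x⟫_ℝ) (s := Set.univ)
    (cont_ker hf hL) isCompact_univ
  simp only [Measure.restrict_univ] at h
  exact h

theorem frame_sq (R S : O3) :
    ⟪col S 0, col R 2⟫_ℝ ^ 2 + ⟪col S 0, col R 0⟫_ℝ ^ 2 + ⟪col S 0, col R 1⟫_ℝ ^ 2 = 1 := by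
  have h := norm_sq_frame R (col S 0)
  rw [norm_col] at h
  rw [real_inner_comm (col R 2) (col S 0), real_inner_comm (col R 0) (col S 0),
    real_inner_comm (col R 1) (col S 0)]
  linarith

theorem col_cyc_rot (R : O3) (α θ : ℝ) : col (R * cyc θ * rot α) 0 =
    cos α • col R 2 + sin α • (cos θ • col R 0 + sin θ • col R 1) := by
  rw [col_rot_zero, col_cyc_zero, col_cyc_one]

/-- The circle mean of `F_l`. -/
theorem circle (hADD : SpecADD) {μ : Measure O3} (hμ : HaarO μ) {f : E3 → ℝ} (hf : Continuous f)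
    {l : ℕ} (hL : Continuous (Lp l)) (R : O3) (α : ℝ) :
    ∫ θ in (0 : ℝ)..(2 * π), FL μ f l (col (R * cyc θ * rot α) 0) =
      2 * π * (Lp l (cos α) * FL μ f l (col R 2)) := by
  have hP := hμ.1
  have hpi : (0 : ℝ) ≤ 2 * π := by positivity
  have hc : Continuous (fun q : ℝ × O3 =>
      f (col q.2 0) * Lp l ⟪col q.2 0, col (R * cyc q.1 * rot α) 0⟫_ℝ) := by
    have h1 : Continuous (fun q : ℝ × O3 => (col (R * cyc q.1 * rot α) 0, q.2)) := by
      refine Continuous.prodMk ((continuous_col 0).comp ?_) continuous_snd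
      exact (continuous_const.mul (continuous_cyc.comp continuous_fst)).mul continuous_const
    exact (cont_ker hf hL).comp h1
  -- a bound
  have hper : ∀ (θ : ℝ) (S : O3), |⟪col S 0, col (R * cyc θ * rot α) 0⟫_ℝ| ≤ 1 := by
    intro θ S
    have := abs_real_inner_le_norm (col S 0) (col (R * cyc θ * rot α) 0)
    rw [norm_col, norm_col] at this
    linarith
  obtain ⟨M1, hM1⟩ := (isCompact_univ (X := O3)).exists_bound_of_continuousOn
    (f := fun S : O3 => f (col S 0)) (contc hf 0).continuousOn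
  obtain ⟨M2, hM2⟩ := (isCompact_Icc (a := (-1 : ℝ)) (b := 1)).exists_bound_of_continuousOn
    (f := Lp l) hL.continuousOn
  have hint : Integrable (Function.uncurry fun (θ : ℝ) (S : O3) =>
      f (col S 0) * Lp l ⟪col S 0, col (R * cyc θ * rot α) 0⟫_ℝ)
      ((volume.restrict (Ioc 0 (2 * π))).prod μ) := by
    refine Integrable.of_bound hc.aestronglyMeasurable (M1 * M2) (Filter.Eventually.of_forall ?_)
    rintro ⟨θ, S⟩
    simp only [Function.uncurry]
    rw [norm_mul]
    exact mul_le_mul (hM1 S (mem_univ _)) (hM2 _ (abs_le.1 (hper θ S))) (norm_nonneg _)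
      ((norm_nonneg _).trans (hM1 S (mem_univ _)))
  have hswap := integral_integral_swap hint
  rw [intervalIntegral.integral_of_le hpi]
  have e0 : ∫ θ in Ioc 0 (2 * π), FL μ f l (col (R * cyc θ * rot α) 0) =
      ∫ θ in Ioc 0 (2 * π), ∫ S, f (col S 0) * Lp l ⟪col S 0, col (R * cyc θ * rot α) 0⟫_ℝ ∂μ := rfl
  rw [e0, hswap]
  have e1 : ∀ S : O3, ∫ θ in Ioc 0 (2 * π),
      f (col S 0) * Lp l ⟪col S 0, col (R * cyc θ * rot α) 0⟫_ℝ =
      (2 * π * Lp l (cos α)) * (f (col S 0) * Lp l ⟪col S 0, col R 2⟫_ℝ) := by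
    intro S
    rw [integral_const_mul, ← intervalIntegral.integral_of_le hpi]
    have h2 := hADD l ⟪col S 0, col R 2⟫_ℝ ⟪col S 0, col R 0⟫_ℝ ⟪col S 0, col R 1⟫_ℝ α
      (frame_sq R S)
    have e2 : ∀ θ : ℝ, Lp l ⟪col S 0, col (R * cyc θ * rot α) 0⟫_ℝ =
        Lp l (cos α * ⟪col S 0, col R 2⟫_ℝ + sin α * (⟪col S 0, col R 0⟫_ℝ * cos θ +
          ⟪col S 0, col R 1⟫_ℝ * sin θ)) := by
      intro θ
      rw [col_cyc_rot, inner_add_right, inner_smul_right, inner_smul_right, inner_add_right,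
        inner_smul_right, inner_smul_right]
      congr 1
      ring
    rw [intervalIntegral.integral_congr (fun θ _ => e2 θ), h2]
    ring
  rw [integral_congr_ae (ae_of_all _ e1), integral_const_mul]
  unfold FL
  ring

theorem rot_pi (S : O3) : col (S * rot π) 0 = - col S 0 := by
  rw [col_rot_zero, Real.cos_pi, Real.sin_pi]
  simp

end EGFM

open EGFM in
theorem specEGF (hADD : SpecADD) (hBAQ : SpecBAQ) (hLEG : SpecLEG) : SpecEGF := by
  intro μ hμ f hf
  have hP := hμ.1
  obtain ⟨hL1, hLp1, -, -, -, hLne⟩ := hLEG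
  have hLc : ∀ l, Continuous (Lp l) := fun l => (hL1 l).1
  have hFc : ∀ l, Continuous (FL μ f l) := fun l => cont_FL hμ hf (hLc l)
  have hB : ∀ (h : E3 → ℝ), Continuous h → ∀ l α,
      BA μ h (FL μ f l) α = Lp l (cos α) * IP μ h (FL μ f l) := by
    intro h hh l α
    obtain ⟨-, -, h3, -, h5, -, -⟩ := hBAQ μ hμ h (FL μ f l) hh (hFc l) α
    rw [h3, ← h5]
    have e : ∀ R : O3, h (col R 2) *
        (∫ θ in (0 : ℝ)..(2 * π), FL μ f l (col (R * cyc θ * rot α) 0)) =
        (2 * π * Lp l (cos α)) * (h (col R 2) * FL μ f l (col R 2)) := by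
      intro R
      rw [circle hADD hμ hf (hLc l) R α]
      ring
    rw [integral_congr_ae (ae_of_all _ e), integral_const_mul]
    have hpi : (π : ℝ) ≠ 0 := Real.pi_ne_zero
    field_simp
  refine ⟨hFc, hB, ?_, ?_, ?_⟩
  · intro l m hlm
    obtain ⟨α, hα⟩ := hLne l m hlm
    have h1 := hB (FL μ f l) (hFc l) m α
    have h2 := hB (FL μ f m) (hFc m) l α
    have h3 := (hBAQ μ hμ (FL μ f l) (FL μ f m) (hFc l) (hFc m) α).2.1
    have h4 : IP μ (FL μ f m) (FL μ f l) = IP μ (FL μ f l) (FL μ f m) := by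
      unfold IP
      congr 1
      funext R
      ring
    rw [h4] at h2
    have h5 : (Lp l (cos α) - Lp m (cos α)) * IP μ (FL μ f l) (FL μ f m) = 0 := by
      rw [sub_mul, ← h1, ← h2, h3, sub_self]
    rcases mul_eq_zero.1 h5 with h6 | h6
    · exact absurd (sub_eq_zero.1 h6) hα
    · exact h6
  · intro hodd l hl x
    have h1 := int_right hμ (rot π) (fun S => f (col S 0) * Lp l ⟪col S 0, x⟫_ℝ)
    have e : ∀ S : O3, f (col (S * rot π) 0) * Lp l ⟪col (S * rot π) 0, x⟫_ℝ =
        -(f (col S 0) * Lp l ⟪col S 0, x⟫_ℝ) := by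
      intro S
      rw [rot_pi, hodd, inner_neg_left, (hL1 l).2.2.1, Even.neg_one_pow (Nat.even_iff.2 hl)]
      ring
    simp only [e] at h1
    rw [integral_neg] at h1
    unfold FL
    linarith
  · intro h0 x
    unfold FL
    simp only [hLp1]
    exact h0 x

end Pool.Agent.Lib.MP_084b88_gt.AY
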