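import Pool.Agent.Lib.MP_084b88_gt.AY.Spec
import Pool.Agent.Lib.MP_084b88_gt.SY.IGE
import Pool.Agent.Lib.MP_084b88_gt.CW.GS2

/-!
# MP_084b88_gt, project AY, module IGA: the formula for `IG` in the smooth case
-/

set_option autoImplicit false

open MeasureTheory Set Real Filter Topology
open scoped Pointwise InnerProductSpace

namespace Pool.Agent.Lib.MP_084b88_gt.AY

open Pool.Agent.Lib.MP_084b88_gt.CW Pool.Agent.Lib.MP_084b88_gt.SY

namespace IGAM

theorem ev_dk (c : ℕ → ℂ) : evc (dk c) = dk (evc c) := by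
  funext k
  show (if k % 2 = 0 then c k * (Complex.I * (k : ℂ)) else 0) =
    (if k % 2 = 0 then c k else 0) * (Complex.I * (k : ℂ))
  rw [ite_mul, zero_mul]

theorem od_dk (c : ℕ → ℂ) : odc (dk c) = dk (odc c) := by
  funext k
  show (if k % 2 = 1 then c k * (Complex.I * (k : ℂ)) else 0) =
    (if k % 2 = 1 then c k else 0) * (Complex.I * (k : ℂ))
  rw [ite_mul, zero_mul]

theorem ev_per (hH : SpecHPB) (M : ℕ) (c : ℕ → ℂ) (x : ℝ) :
    hp M (evc c) (x + π) = hp M (evc c) x := by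
  have hB := (hH M c).2.2.2.2.2.1
  rw [← hB, ← hB, GS2M.Bh_per hH]

theorem od_per (hH : SpecHPB) (M : ℕ) (c : ℕ → ℂ) (x : ℝ) :
    hp M (odc c) (x + π) = - hp M (odc c) x := by
  have hg := (hH M c).2.2.2.2.1
  rw [← hg, ← hg]
  unfold gh
  rw [show x + π + π = x + 2 * π by ring, (hH M c).2.1 x]
  ring

theorem sg (hH : SpecHPB) (M : ℕ) (c : ℕ → ℂ) (hRP : RP M c) :
    Sg (hp M (evc c)) (hp M (dk (evc c))) (hp M (dk (dk (evc c))))
      (hp M (odc c)) (hp M (dk (odc c))) (hp M (dk (dk (odc c)))) := by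
  have e1 := ev_dk c
  have e2 : evc (dk (dk c)) = dk (dk (evc c)) := by rw [ev_dk, ev_dk]
  have o1 := od_dk c
  have o2 : odc (dk (dk c)) = dk (dk (odc c)) := by rw [od_dk, od_dk]
  have hp0 : ∀ x, 0 < (hp M (evc c) x + hp M (dk (dk (evc c))) x) +
      (hp M (odc c) x + hp M (dk (dk (odc c))) x) := by
    intro x
    have h := hRP.2.1 x
    rw [(hH M c).2.2.2.2.2.2.1 x, (hH M (dk (dk c))).2.2.2.2.2.2.1 x, e2, o2] at h
    linarith
  have hp1 : ∀ x, 0 < (hp M (evc c) x + hp M (dk (dk (evc c))) x) -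
      (hp M (odc c) x + hp M (dk (dk (odc c))) x) := by
    intro x
    have h := hp0 (x + π)
    have k1 := ev_per hH M (dk (dk c)) x
    have k2 := od_per hH M (dk (dk c)) x
    rw [e2] at k1
    rw [o2] at k2
    rw [ev_per hH M c x, od_per hH M c x, k1, k2] at h
    linarith
  refine ⟨⟨(hH M (evc c)).1, (hH M (dk (evc c))).1, (hH M (dk (dk (evc c)))).2.2.1,
    ev_per hH M c, ?_, ?_, ?_⟩, (hH M (odc c)).1, (hH M (dk (odc c))).1,
    (hH M (dk (dk (odc c)))).2.2.1, od_per hH M c, ?_, ?_⟩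
  · intro x
    rw [← e1]
    exact ev_per hH M (dk c) x
  · intro x
    have h := hRP.2.2 x
    rwa [(hH M c).2.2.2.2.2.1] at h
  · intro x
    linarith [hp0 x, hp1 x]
  · intro x
    rw [← o1]
    exact od_per hH M (dk c) x
  · intro x
    rw [abs_le]
    constructor <;> linarith [hp0 x, hp1 x]

/-- the abscissa in terms of `aa` and `ea` -/
theorem pt_eq (hH : SpecHPB) (hWMB : SpecWMB) (M : ℕ) (c : ℕ → ℂ) (hRP : RP M c) (t α : ℝ) :
    GS2M.pt M c t α = ea (hp M (evc c)) (hp M (odc c)) (hp M (dk (odc c))) t α +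
      aa (hp M (evc c)) (hp M (dk (evc c))) t α := by
  have hw := hWMB M c t α
  have hB := (hH M c).2.2.2.2.2.1
  have hg := (hH M c).2.2.2.2.1
  have hpos : hp M (evc c) t ≠ 0 := by
    have h := hRP.2.2 t
    rw [hB] at h
    exact h.ne'
  have h1 := (hH M c).2.2.2.2.2.2.1 (t + α)
  have h2 := (hH M (dk c)).2.2.2.2.2.2.1 (t + α)
  rw [ev_dk, od_dk] at h2
  rw [hg, hB, h1, h2] at hw
  unfold GS2M.pt ea aa
  rw [hB]
  field_simp
  linarith

theorem int2 (hH : SpecHPB) (hGAG : SpecGAG) (M : ℕ) (c : ℕ → ℂ) (hRP : RP M c) (G1 G2 : ℝ → ℝ)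
    (hG1c : Continuous G1) (hG2 : ∀ x, HasDerivAt G2 (G1 x) x) (t : ℝ) :
    IntervalIntegrable (fun α => (G2 (GS2M.pt M c t α) - G2 (cos α)) / sin α ^ 2) volume 0 π := by
  have hG2c : Continuous G2 := continuous_iff_continuousAt.2 fun x => (hG2 x).continuousAt
  obtain ⟨D, hD0, hD⟩ := IGEM.lip G1 G2 hG1c hG2
  obtain ⟨E, hE⟩ := (hH M c).2.2.2.2.2.2.2.2.1
  have hBpos : 0 < Bh (hp M c) t := hRP.2.2 t
  have hpc := GS2M.cont_pt hH M c t
  refine IGEM.intble (fun α => G2 (GS2M.pt M c t α) - G2 (cos α))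
    (((hG2c.comp hpc).sub (hG2c.comp continuous_cos)).measurable) (D * (E / Bh (hp M c) t)) ?_ ?_
  · have : 0 ≤ E := (abs_nonneg _).trans (hE 0 0)
    positivity
  · intro α hα
    have hab := ((hGAG M c hRP t).2.2.2.1) α hα
    have h1 := hD _ (abs_le.1 hab) (cos α) (IGEM.cosmem α)
    refine h1.trans ?_
    rw [add_sub_cancel_left, abs_div, abs_mul, abs_of_nonneg (sq_nonneg (sin α)),
      abs_of_pos hBpos, mul_assoc]
    refine mul_le_mul_of_nonneg_left ?_ hD0
    rw [div_mul_eq_mul_div]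
    refine div_le_div_of_nonneg_right ?_ hBpos.le
    rw [mul_comm]
    exact mul_le_mul_of_nonneg_right (hE t α) (sq_nonneg _)

end IGAM

open IGAM

theorem specIGA (hHPB : SpecHPB) (hWMB : SpecWMB) (hGAG : SpecGAG) (hGAL : SpecGAL) : SpecIGA := by
  intro M c hRP
  have hS := sg hHPB M c hRP
  refine ⟨hS, ?_⟩
  intro G G1 G2 hG hG1 hG2 t
  have hG1c : Continuous G1 := continuous_iff_continuousAt.2 fun x => (hG1 x).continuousAt
  have hG2c : Continuous G2 := continuous_iff_continuousAt.2 fun x => (hG2 x).continuousAt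
  have hB := (hHPB M c).2.2.2.2.2.1 t
  have hF := GS2M.IG_formula hGAL hHPB M c hRP G G1 G2 hG hG1 hG2 t
  have k2 : ∀ x, HasDerivAt (fun x => G2 (-x)) (-G1 (-x)) x := by
    intro x
    have := (hG2 (-x)).comp x (hasDerivAt_neg x)
    refine this.congr_deriv ?_
    ring
  have kE : ∀ x, HasDerivAt (fun x => G2 x + G2 (-x)) (G1 x + -G1 (-x)) x := fun x =>
    (hG2 x).add (k2 x)
  have kc : Continuous (fun x => -G1 (-x)) := (hG1c.comp continuous_neg).neg
  have kEc : Continuous (fun x => G1 x + -G1 (-x)) := hG1c.add kc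
  have heven : ∀ x : ℝ, G2 (-x) + G2 (- -x) = G2 x + G2 (-x) := by
    intro x
    rw [neg_neg]
    ring
  have hparts := IGEM.parts (fun x => G1 x + -G1 (-x)) (fun x => G2 x + G2 (-x)) kEc kE heven
  obtain ⟨C, hC0, hC⟩ := IGEM.lip2 (fun x => G1 x + -G1 (-x)) (fun x => G2 x + G2 (-x)) kEc kE heven
  have hi0 : IntervalIntegrable (fun α => (G2 1 + G2 (-1) - (G2 (cos α) + G2 (-cos α))) /
      sin α ^ 2) volume 0 π :=
    IGEM.intble (fun α => G2 1 + G2 (-1) - (G2 (cos α) + G2 (-cos α)))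
      ((continuous_const.sub ((hG2c.comp continuous_cos).add
        (hG2c.comp continuous_cos.neg))).measurable) C hC0 (fun α _ => by
        have := hC (cos α) (IGEM.cosmem α)
        rwa [IGEM.onesub] at this)
  have hi1 := int2 hHPB hGAG M c hRP G1 G2 hG1c hG2 t
  have hi2 := int2 hHPB hGAG M c hRP (fun x => -G1 (-x)) (fun x => G2 (-x)) kc k2 (t + π)
  have hj1 : IntervalIntegrable (fun α => G1 (cos α) * cos α) volume 0 π :=
    ((hG1c.comp continuous_cos).mul continuous_cos).intervalIntegrable _ _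
  have hj2 : IntervalIntegrable (fun α => -G1 (-cos α) * cos α) volume 0 π :=
    ((kc.comp continuous_cos).mul continuous_cos).intervalIntegrable _ _
  have e1 : (∫ α in (0 : ℝ)..π, G1 (cos α) * cos α) + ∫ α in (0 : ℝ)..π, -G1 (-cos α) * cos α =
      ∫ α in (0 : ℝ)..π, (G2 1 + G2 (-1) - (G2 (cos α) + G2 (-cos α))) / sin α ^ 2 := by
    rw [← intervalIntegral.integral_add hj1 hj2, ← hparts]
    congr 1
    funext α
    ring
  rw [hF, e1, hB, ← mul_sub, ← intervalIntegral.integral_add hi1 hi2,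
    ← intervalIntegral.integral_sub hi0 (hi1.add hi2)]
  congr 2
  funext α
  have p1 := pt_eq hHPB hWMB M c hRP t α
  have p2 : -GS2M.pt M c (t + π) α =
      ea (hp M (evc c)) (hp M (odc c)) (hp M (dk (odc c))) t α -
      aa (hp M (evc c)) (hp M (dk (evc c))) t α := by
    rw [pt_eq hHPB hWMB M c hRP (t + π) α]
    unfold ea aa
    rw [show t + π + α = t + α + π by ring, hS.sm.per, hS.sm.per, hS.sm.per1, hS.per, hS.per,
      hS.per1]
    ring
  rw [p1, p2]
  ring

end Pool.Agent.Lib.MP_084b88_gt.AY
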