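import Pool.Agent.Lib.MP_084b88_gt.AY.SpecS

/-!
# MP_084b88_gt, project AY, module KEY: spectral decomposition on the sphere up to `ε`
-/

set_option autoImplicit false

open MeasureTheory Set Real Filter Topology
open scoped Pointwise InnerProductSpace

namespace Pool.Agent.Lib.MP_084b88_gt.AY

open Pool.Agent.Lib.MP_084b88_gt.CW Pool.Agent.Lib.MP_084b88_gt.SY

namespace KEYM

theorem rot0 : rot 0 = (1 : O3) := by
  apply Subtype.ext
  ext i j
  fin_cases i <;> fin_cases j <;> simp [rot, rotM]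

theorem BA0 (μ : Measure O3) (f g : E3 → ℝ) : BA μ f g 0 = IP μ f g := by
  unfold BA IP
  simp only [rot0, mul_one]

section

variable {μ : Measure O3} (hBAQ : SpecBAQ) (hμ : HaarO μ)

include hBAQ hμ

theorem baI {f g : E3 → ℝ} (hf : Continuous f) (hg : Continuous g) (α : ℝ) :
    Integrable (fun R : O3 => f (col R 0) * g (col (R * rot α) 0)) μ := (hBAQ μ hμ f g hf hg α).1

theorem ipI {f g : E3 → ℝ} (hf : Continuous f) (hg : Continuous g) :
    Integrable (fun R : O3 => f (col R 0) * g (col R 0)) μ := by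
  have := baI hBAQ hμ hf hg 0
  simpa only [rot0, mul_one] using this

theorem ba_symm {f g : E3 → ℝ} (hf : Continuous f) (hg : Continuous g) (α : ℝ) :
    BA μ f g α = BA μ g f α := (hBAQ μ hμ f g hf hg α).2.1

theorem ba_sub_left {f g h : E3 → ℝ} (hf : Continuous f) (hg : Continuous g) (hh : Continuous h)
    (α : ℝ) : BA μ (fun x => f x - g x) h α = BA μ f h α - BA μ g h α := by
  unfold BA
  rw [← integral_sub (baI hBAQ hμ hf hh α) (baI hBAQ hμ hg hh α)]
  refine integral_congr_ae (ae_of_all _ fun R => ?_)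
  simp only
  ring

theorem ba_sub_right {f g h : E3 → ℝ} (hf : Continuous f) (hg : Continuous g) (hh : Continuous h)
    (α : ℝ) : BA μ h (fun x => f x - g x) α = BA μ h f α - BA μ h g α := by
  unfold BA
  rw [← integral_sub (baI hBAQ hμ hh hf α) (baI hBAQ hμ hh hg α)]
  refine integral_congr_ae (ae_of_all _ fun R => ?_)
  simp only
  ring

theorem ba_sum_right {ι : Type} {h : E3 → ℝ} (hh : Continuous h) (s : Finset ι) (a : ι → ℝ)
    (F : ι → E3 → ℝ) (hF : ∀ i, Continuous (F i)) (α : ℝ) :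
    BA μ h (fun x => ∑ i ∈ s, a i * F i x) α = ∑ i ∈ s, a i * BA μ h (F i) α := by
  unfold BA
  simp_rw [← integral_const_mul]
  rw [← integral_finset_sum]
  · refine integral_congr_ae (ae_of_all _ fun R => ?_)
    simp only
    rw [Finset.mul_sum]
    exact Finset.sum_congr rfl fun i _ => by ring
  · intro i _
    exact (baI hBAQ hμ hh (hF i) α).const_mul _

theorem ip_nonneg (f : E3 → ℝ) : 0 ≤ IP μ f f :=
  integral_nonneg fun R => mul_self_nonneg _

theorem ip_zero {f g : E3 → ℝ} (hf : Continuous f) (hg : Continuous g) (h : IP μ g g = 0) :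
    IP μ f g = 0 := by
  unfold IP at h ⊢
  rw [integral_eq_zero_iff_of_nonneg (fun R => mul_self_nonneg _) (ipI hBAQ hμ hg hg)] at h
  rw [integral_eq_zero_of_ae]
  filter_upwards [h] with R hR
  have : g (col R 0) = 0 := by
    have h1 : g (col R 0) * g (col R 0) = 0 := hR
    exact mul_self_eq_zero.1 h1
  simp [this]

theorem ba_le {f : E3 → ℝ} (hf : Continuous f) (α : ℝ) : |BA μ f f α| ≤ IP μ f f := by
  have := (hBAQ μ hμ f f hf hf α).2.2.2.1
  linarith

end

end KEYM

open KEYM in
theorem specKEY (hEGF : SpecEGF) (hKER : SpecKER) (hLEG : SpecLEG) (hBAQ : SpecBAQ) : SpecKEY := by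
  intro μ hμ f hf hodd hmean ε hε
  obtain ⟨hFc, hFB, hFo, hFe, hF1⟩ := hEGF μ hμ f hf
  have hF1' := hF1 hmean
  have hFe' := hFe hodd
  obtain ⟨hL1, -, -, -, hL5, -⟩ := hLEG
  set ε1 : ℝ := min 1 ε with hε1
  have hε1p : 0 < ε1 := lt_min one_pos hε
  have hε1s : ε1 ^ 2 ≤ ε := by
    have h1 : ε1 ≤ 1 := min_le_left _ _
    have h2 : ε1 ≤ ε := min_le_right _ _
    nlinarith
  obtain ⟨n, c, hc⟩ := hKER μ hμ f hf ε1 hε1p
  obtain ⟨b, hb⟩ := hL5 n
  -- the coefficients
  set G : ℕ → E3 → ℝ := fun k => FL μ f (2 * k + 3) with hG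
  have hGc : ∀ k, Continuous (G k) := fun k => hFc _
  have hGB : ∀ (h : E3 → ℝ), Continuous h → ∀ k α,
      BA μ h (G k) α = Lp (2 * k + 3) (cos α) * IP μ h (G k) := fun h hh k α => hFB h hh _ α
  have hGo : ∀ j k, j ≠ k → IP μ (G j) (G k) = 0 := fun j k hjk => hFo _ _ (by omega)
  set a : ℕ → ℝ := fun k => IP μ f (G k) / IP μ (G k) (G k) with ha
  have haG : ∀ k, IP μ f (G k) = a k * IP μ (G k) (G k) := by
    intro k
    by_cases h0 : IP μ (G k) (G k) = 0
    · rw [ip_zero hBAQ hμ hf (hGc k) h0, h0, mul_zero]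
    · rw [ha]
      field_simp
  set p : E3 → ℝ := fun x => ∑ k ∈ Finset.range n, a k * G k x with hp
  have hpc : Continuous p := continuous_finset_sum _ fun k _ => (hGc k).const_mul _
  set r : E3 → ℝ := fun x => f x - p x with hr
  have hrc : Continuous r := hf.sub hpc
  -- r is orthogonal to the G k
  have hrG : ∀ k, k < n → IP μ r (G k) = 0 := by
    intro k hk
    rw [← BA0, hr, ba_sub_left hBAQ hμ hf hpc (hGc k), ba_symm hBAQ hμ hpc (hGc k), hp,
      ba_sum_right hBAQ hμ (hGc k) _ _ _ hGc]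
    simp only [BA0]
    rw [Finset.sum_eq_single k]
    · rw [haG k]; ring
    · intro j _ hjk
      rw [hGo k j (Ne.symm hjk), mul_zero]
    · intro h
      exact absurd (Finset.mem_range.2 hk) h
  have hrF : ∀ l, l < n + 1 → IP μ r (FL μ f l) = 0 := by
    intro l hl
    rcases Nat.even_or_odd l with he | ho
    · have h0 : ∀ x, FL μ f l x = 0 := hFe' l (Nat.even_iff.1 he)
      unfold IP
      simp only [h0, mul_zero, integral_zero]
    · rcases Nat.lt_or_ge l 3 with h3 | h3
      · have h1 : l = 1 := by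
          obtain ⟨m, hm⟩ := ho
          omega
        subst h1
        unfold IP
        simp only [hF1', mul_zero, integral_zero]
      · obtain ⟨m, hm⟩ := ho
        have h1 := hrG (m - 1) (by omega)
        have h2 : 2 * (m - 1) + 3 = l := by omega
        rw [hG] at h1
        simp only [h2] at h1
        exact h1
  have hrp : ∀ α, BA μ r p α = 0 := by
    intro α
    rw [hp, ba_sum_right hBAQ hμ hrc _ _ _ hGc]
    refine Finset.sum_eq_zero fun k hk => ?_
    rw [hGB r hrc k α, hrG k (Finset.mem_range.1 hk), mul_zero, mul_zero]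
  -- the approximation q
  set q : E3 → ℝ := fun x => ∑ l ∈ Finset.range (n + 1), (c * b l) * FL μ f l x with hq
  have hqc : Continuous q := continuous_finset_sum _ fun l _ => (hFc l).const_mul _
  have hqf : ∀ R : O3, |q (col R 0) - f (col R 0)| ≤ ε1 := by
    intro R
    have h1 := hc R
    have h2 : c * (∫ S, f (col S 0) * ((1 + ⟪col S 0, col R 0⟫_ℝ) / 2) ^ n ∂μ) = q (col R 0) := by
      simp only [hq, hb, FL]
      have h3 : ∀ l : ℕ, Integrable
          (fun S : O3 => f (col S 0) * Lp l ⟪col S 0, col R 0⟫_ℝ) μ := by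
        intro l
        refine ipI hBAQ hμ (g := fun x => Lp l ⟪x, col R 0⟫_ℝ) hf ?_
        exact (hL1 l).1.comp (continuous_id.inner continuous_const)
      have h4 : ∫ S, f (col S 0) * ∑ l ∈ Finset.range (n + 1), b l * Lp l ⟪col S 0, col R 0⟫_ℝ ∂μ
          = ∑ l ∈ Finset.range (n + 1), b l * ∫ S, f (col S 0) * Lp l ⟪col S 0, col R 0⟫_ℝ ∂μ := by
        simp_rw [← integral_const_mul]
        rw [← integral_finset_sum]
        · refine integral_congr_ae (ae_of_all _ fun S => ?_)
          simp only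
          rw [Finset.mul_sum]
          exact Finset.sum_congr rfl fun l _ => by ring
        · intro l _
          exact (h3 l).const_mul _
      rw [h4, Finset.mul_sum]
      exact Finset.sum_congr rfl fun l _ => by ring
    rw [← h2]
    exact h1
  have hrq : IP μ r q = 0 := by
    rw [← BA0, hq, ba_sum_right hBAQ hμ hrc _ _ _ hFc]
    refine Finset.sum_eq_zero fun l hl => ?_
    rw [BA0, hrF l (Finset.mem_range.1 hl), mul_zero]
  have hrrle : IP μ r r ≤ ε := by
    -- f - q = r + (p - q)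
    set w : E3 → ℝ := fun x => f x - q x with hw
    have hwc : Continuous w := hf.sub hqc
    set v : E3 → ℝ := fun x => w x - r x with hv
    have hvc : Continuous v := hwc.sub hrc
    have e1 : IP μ r w = IP μ r r := by
      have h1 : IP μ r w = IP μ r f - IP μ r q := by
        rw [← BA0, hw, ba_sub_right hBAQ hμ hf hqc hrc, BA0, BA0]
      have h2 : IP μ r r = IP μ r f - IP μ r p := by
        rw [← BA0, ← BA0, ← BA0, ← ba_sub_right hBAQ hμ hf hpc hrc]
      have h3 : IP μ r p = 0 := by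
        rw [← BA0]; exact hrp 0
      rw [h1, h2, hrq, h3]
    have e2 : IP μ v v = IP μ w w - IP μ r r := by
      have h1 : IP μ v v = (IP μ w w - IP μ w r) - (IP μ r w - IP μ r r) := by
        rw [← BA0, hv, ba_sub_left hBAQ hμ hwc hrc hvc, ba_sub_right hBAQ hμ hwc hrc hwc,
          ba_sub_right hBAQ hμ hwc hrc hrc]
        simp only [BA0]
      have h2 : IP μ w r = IP μ r w := by
        rw [← BA0, ba_symm hBAQ hμ hwc hrc, BA0]
      rw [h1, h2, e1]; ring
    have e3 : 0 ≤ IP μ v v := ip_nonneg hBAQ hμ v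
    have e4 : IP μ w w ≤ ε1 ^ 2 := by
      haveI : IsProbabilityMeasure μ := hμ.1
      have h5 : ∫ R, w (col R 0) * w (col R 0) ∂μ ≤ ∫ _R : O3, ε1 ^ 2 ∂μ := by
        refine integral_mono (ipI hBAQ hμ hwc hwc) (integrable_const _) fun R => ?_
        have h6 := hqf R
        rw [abs_sub_comm] at h6
        have h7 : |w (col R 0)| ≤ ε1 := h6
        calc w (col R 0) * w (col R 0) = |w (col R 0)| ^ 2 := by rw [sq_abs]; ring
          _ ≤ ε1 ^ 2 := by gcongr
      simpa [IP] using h5
    linarith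
  -- conclusions
  set β : ℕ → ℝ := fun k => a k ^ 2 * IP μ (G k) (G k) with hβ
  have key : ∀ α, BA μ f f α = ∑ k ∈ Finset.range n, β k * Lp (2 * k + 3) (cos α) + BA μ r r α := by
    intro α
    have h1 : BA μ r r α = (BA μ f f α - BA μ f p α) - BA μ p r α := by
      have h2 : BA μ r r α = BA μ f r α - BA μ p r α := by
        rw [← ba_sub_left hBAQ hμ hf hpc hrc]
      have h3 : BA μ f r α = BA μ f f α - BA μ f p α := by
        rw [← ba_sub_right hBAQ hμ hf hpc hf]
      rw [h2, h3]
    have h4 : BA μ p r α = 0 := by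
      rw [ba_symm hBAQ hμ hpc hrc]; exact hrp α
    have h5 : BA μ f p α = ∑ k ∈ Finset.range n, β k * Lp (2 * k + 3) (cos α) := by
      rw [hp, ba_sum_right hBAQ hμ hf _ _ _ hGc]
      refine Finset.sum_congr rfl fun k _ => ?_
      rw [hGB f hf k α, haG k, hβ]
      ring
    rw [h1, h4, h5]; ring
  have hIPff : IP μ f f = ∑ k ∈ Finset.range n, β k + IP μ r r := by
    have h1 := key 0
    rw [BA0, BA0, Real.cos_zero] at h1
    rw [h1]
    congr 1
    exact Finset.sum_congr rfl fun k _ => by rw [(hL1 _).2.1, mul_one]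
  refine ⟨n, β, fun k => mul_nonneg (sq_nonneg _) (ip_nonneg hBAQ hμ _), fun α => ?_, fun α => ?_, ?_⟩
  · rw [key α, add_sub_cancel_left]
    exact (ba_le hBAQ hμ hrc α).trans hrrle
  · have h1 : ∑ k ∈ Finset.range n, β k * (1 - Lp (2 * k + 3) (cos α)) =
        ∑ k ∈ Finset.range n, β k - ∑ k ∈ Finset.range n, β k * Lp (2 * k + 3) (cos α) := by
      rw [← Finset.sum_sub_distrib]
      exact Finset.sum_congr rfl fun k _ => by ring
    have h2 := (abs_le.1 (ba_le hBAQ hμ hrc α)).2
    rw [h1, hIPff, key α]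
    linarith
  · rw [hIPff]
    linarith

end Pool.Agent.Lib.MP_084b88_gt.AY
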