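import Pool.Agent.Lib.MP_084b88_gt.AY.SpecS

/-!
# MP_084b88_gt, project AY: facts on the Legendre polynomials (LEG)
-/

set_option autoImplicit false

open MeasureTheory Set Real Filter Topology
open scoped Pointwise InnerProductSpace

namespace Pool.Agent.Lib.MP_084b88_gt.AY

open Pool.Agent.Lib.MP_084b88_gt.CW Pool.Agent.Lib.MP_084b88_gt.SY

namespace LEGM

theorem range_mem {l j : ℕ} (h : j ∈ Finset.range (l / 2 + 1)) : 2 * j ≤ l := by
  have := Finset.mem_range.1 h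
  omega

theorem Lp_cont (l : ℕ) : Continuous (Lp l) := by
  unfold Lp
  fun_prop

theorem Lp_one (h0 : am 0 = 1) (l : ℕ) : Lp l 1 = 1 := by
  unfold Lp
  rw [Finset.sum_eq_single 0]
  · simp [h0]
  · intro j _ hj
    simp [hj]
  · intro h
    exfalso
    apply h
    simp

theorem Lp_neg (l : ℕ) (x : ℝ) : Lp l (-x) = (-1) ^ l * Lp l x := by
  unfold Lp
  rw [Finset.mul_sum]
  refine Finset.sum_congr rfl fun j hj => ?_
  have h := range_mem hj
  have h1 : (-x) ^ (l - 2 * j) = (-1) ^ l * x ^ (l - 2 * j) := by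
    rw [neg_pow]
    congr 1
    have h2 : l = (l - 2 * j) + 2 * j := by omega
    conv_rhs => rw [h2]
    rw [pow_add, pow_mul]
    norm_num
  rw [h1]
  ring

theorem term_deriv (n j : ℕ) : HasDerivAt (fun x : ℝ => x ^ n * (1 - x ^ 2) ^ j)
    (if j = 0 then (n : ℝ) else if j = 1 then -2 else 0) 1 := by
  have h1 : HasDerivAt (fun x : ℝ => x ^ n) (n : ℝ) 1 := by
    have := hasDerivAt_pow n (1 : ℝ)
    simpa using this
  have h2 : HasDerivAt (fun x : ℝ => 1 - x ^ 2) (-2 : ℝ) 1 := by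
    have h3 := (hasDerivAt_pow 2 (1 : ℝ)).const_sub 1
    exact h3.congr_deriv (by norm_num)
  rcases j with _ | _ | j
  · simpa using h1
  · have h3 : HasDerivAt (fun x : ℝ => x ^ n * (1 - x ^ 2))
        ((n : ℝ) * (1 - 1 ^ 2) + 1 ^ n * (-2)) 1 := h1.mul h2
    have h4 : (fun x : ℝ => x ^ n * (1 - x ^ 2) ^ (0 + 1)) = fun x => x ^ n * (1 - x ^ 2) := by
      funext x
      simp
    rw [h4]
    exact h3.congr_deriv (by simp)
  · have h4 : HasDerivAt (fun x : ℝ => x ^ n * (1 - x ^ 2) ^ (j + 1 + 1))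
        ((n : ℝ) * (1 - 1 ^ 2) ^ (j + 1 + 1) + 1 ^ n *
          (((j + 1 + 1 : ℕ) : ℝ) * (1 - 1 ^ 2) ^ (j + 1 + 1 - 1) * (-2))) 1 :=
      h1.mul (h2.pow (j + 1 + 1))
    exact h4.congr_deriv (by simp)

theorem Lp_deriv (h0 : am 0 = 1) (h1 : am 1 = 1 / 2) (l : ℕ) :
    HasDerivAt (Lp l) ((l : ℝ) * (l + 1) / 2) 1 := by
  have h : HasDerivAt (Lp l) (∑ j ∈ Finset.range (l / 2 + 1),
      (-1 : ℝ) ^ j * (Nat.choose l (2 * j) : ℝ) * am j *
        (if j = 0 then ((l - 2 * j : ℕ) : ℝ) else if j = 1 then -2 else 0)) 1 := by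
    have hL : Lp l = fun x => ∑ j ∈ Finset.range (l / 2 + 1),
        (-1 : ℝ) ^ j * (Nat.choose l (2 * j) : ℝ) * am j * (x ^ (l - 2 * j) * (1 - x ^ 2) ^ j) := rfl
    rw [hL]
    apply HasDerivAt.fun_sum
    intro j _
    exact (term_deriv (l - 2 * j) j).const_mul _
  convert h using 1
  have hz : ∀ N : ℕ, ∑ j ∈ Finset.range N,
      (-1 : ℝ) ^ (j + 1 + 1) * (Nat.choose l (2 * (j + 1 + 1)) : ℝ) * am (j + 1 + 1) *
        (if j + 1 + 1 = 0 then ((l - 2 * (j + 1 + 1) : ℕ) : ℝ) else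
          if j + 1 + 1 = 1 then (-2 : ℝ) else 0) = 0 := by
    intro N
    apply Finset.sum_eq_zero
    intro j _
    rw [if_neg (by omega), if_neg (by omega)]
    ring
  rcases l with _ | _ | k
  · simp
  · simp [h0]
  · have e : (k + 1 + 1) / 2 + 1 = k / 2 + 1 + 1 := by omega
    rw [e, Finset.sum_range_succ', Finset.sum_range_succ', hz]
    have hc : (Nat.choose (k + 1 + 1) (2 * (0 + 1)) : ℝ) = ((k : ℝ) + 2) * (k + 1) / 2 := by
      have := Nat.cast_choose_two ℝ (k + 1 + 1)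
      have h2 : 2 * (0 + 1) = 2 := rfl
      rw [h2, this]
      push_cast
      ring
    rw [hc]
    simp only [zero_add, pow_one, h1, if_true, pow_zero, mul_zero, Nat.choose_zero_right, h0,
      Nat.sub_zero]
    norm_num
    ring

theorem laplace (hC : SpecCAV) (l : ℕ) (α : ℝ) :
    ∫ φ in (0 : ℝ)..(2 * π), ((Real.cos α : ℂ) + Complex.I * (Real.sin α : ℂ) * (Real.cos φ : ℂ)) ^ l =
      2 * π * (Lp l (Real.cos α) : ℂ) := by
  have h := hC.1 l (Real.cos α : ℂ) (Complex.I * (Real.sin α : ℂ)) 0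
  have h1 : ∀ φ : ℝ, ((Real.cos α : ℂ) + Complex.I * (Real.sin α : ℂ) * (Real.cos φ : ℂ) +
      0 * (Real.sin φ : ℂ)) ^ l =
      ((Real.cos α : ℂ) + Complex.I * (Real.sin α : ℂ) * (Real.cos φ : ℂ)) ^ l := by
    intro φ
    rw [zero_mul, add_zero]
  simp_rw [h1] at h
  rw [h]
  congr 1
  unfold Lp
  push_cast
  refine Finset.sum_congr rfl fun j _ => ?_
  have h2 : (Complex.I * Complex.sin (α : ℂ)) ^ 2 + 0 ^ 2 =
      -(1 - Complex.cos (α : ℂ) ^ 2) := by
    rw [mul_pow, Complex.I_sq]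
    have := Complex.sin_sq_add_cos_sq (α : ℂ)
    linear_combination (-1 : ℂ) * this
  rw [h2, neg_pow]
  ring

theorem norm_le (α φ : ℝ) :
    ‖((Real.cos α : ℂ) + Complex.I * (Real.sin α : ℂ) * (Real.cos φ : ℂ))‖ ≤ 1 := by
  have h : ((Real.cos α : ℂ) + Complex.I * (Real.sin α : ℂ) * (Real.cos φ : ℂ)) =
      ((Real.cos α : ℝ) : ℂ) + ((Real.sin α * Real.cos φ : ℝ) : ℂ) * Complex.I := by
    push_cast
    ring
  have h2 : ‖((Real.cos α : ℂ) + Complex.I * (Real.sin α : ℂ) * (Real.cos φ : ℂ))‖ ^ 2 ≤ 1 := by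
    rw [h, ← Complex.normSq_eq_norm_sq, Complex.normSq_add_mul_I]
    nlinarith [Real.sin_sq_add_cos_sq α, Real.sin_sq_add_cos_sq φ, sq_nonneg (Real.sin α * Real.sin φ)]
  have h3 := norm_nonneg ((Real.cos α : ℂ) + Complex.I * (Real.sin α : ℂ) * (Real.cos φ : ℂ))
  nlinarith

theorem abs_le (hC : SpecCAV) (l : ℕ) (x : ℝ) (hx : |x| ≤ 1) : |Lp l x| ≤ 1 := by
  have hx' := _root_.abs_le.1 hx
  have hcos : Real.cos (Real.arccos x) = x := Real.cos_arccos hx'.1 hx'.2
  have h := laplace hC l (Real.arccos x)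
  rw [hcos] at h
  have h1 : ‖∫ φ in (0 : ℝ)..(2 * π), ((x : ℂ) +
      Complex.I * (Real.sin (Real.arccos x) : ℂ) * (Real.cos φ : ℂ)) ^ l‖ ≤ 1 * |2 * π - 0| := by
    apply intervalIntegral.norm_integral_le_of_norm_le_const
    intro φ _
    rw [norm_pow]
    apply pow_le_one₀ (norm_nonneg _)
    have := norm_le (Real.arccos x) φ
    rwa [hcos] at this
  rw [h] at h1
  have h2 : ‖(2 * (π : ℂ) * (Lp l x : ℂ))‖ = 2 * π * |Lp l x| := by
    rw [norm_mul, norm_mul, Complex.norm_real, Complex.norm_real, Real.norm_eq_abs,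
      Real.norm_eq_abs, abs_of_pos Real.pi_pos]
    simp
  have hpi := Real.pi_pos
  have h3 : |2 * π| = 2 * π := abs_of_pos (by positivity)
  rw [h2, sub_zero, one_mul, h3] at h1
  by_contra hcon
  push Not at hcon
  nlinarith

theorem sin_even (hC : SpecCAV) (n : ℕ) :
    ∫ φ in (0 : ℝ)..(2 * π), ((Real.sin φ : ℂ)) ^ (2 * n) = 2 * π * (am n : ℂ) := by
  have h := hC.1 (2 * n) 0 0 1
  have h1 : ∀ φ : ℝ, ((0 : ℂ) + 0 * (Real.cos φ : ℂ) + 1 * (Real.sin φ : ℂ)) ^ (2 * n) =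
      (Real.sin φ : ℂ) ^ (2 * n) := by
    intro φ
    congr 1
    ring
  simp_rw [h1] at h
  rw [h]
  congr 1
  have e : 2 * n / 2 = n := by omega
  rw [e, Finset.sum_eq_single n]
  · simp
  · intro j hj hjn
    have := Finset.mem_range.1 hj
    have h2 : 2 * n - 2 * j ≠ 0 := by omega
    simp [h2]
  · intro h
    exfalso
    apply h
    simp

theorem first_mode (hC : SpecCAV) (n : ℕ) :
    ∫ α in (0 : ℝ)..(2 * π), Real.cos α * Lp (2 * n + 1) (Real.cos α) =
      2 * π * (am (n + 1) * am n) := by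
  have hpi : (π : ℂ) ≠ 0 := by exact_mod_cast Real.pi_ne_zero
  have h1 : ∀ α : ℝ, (2 * (π : ℂ)) * ((Real.cos α * Lp (2 * n + 1) (Real.cos α) : ℝ) : ℂ) =
      ∫ φ in (0 : ℝ)..(2 * π), (Real.cos α : ℂ) *
        ((Real.cos α : ℂ) + Complex.I * (Real.sin α : ℂ) * (Real.cos φ : ℂ)) ^ (2 * n + 1) := by
    intro α
    rw [intervalIntegral.integral_const_mul, laplace hC]
    push_cast
    ring
  have h2 : (2 * (π : ℂ)) *
      ((∫ α in (0 : ℝ)..(2 * π), Real.cos α * Lp (2 * n + 1) (Real.cos α) : ℝ) : ℂ) =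
      ∫ α in (0 : ℝ)..(2 * π), ∫ φ in (0 : ℝ)..(2 * π), (Real.cos α : ℂ) *
        ((Real.cos α : ℂ) + Complex.I * (Real.sin α : ℂ) * (Real.cos φ : ℂ)) ^ (2 * n + 1) := by
    rw [← intervalIntegral.integral_ofReal, ← intervalIntegral.integral_const_mul]
    apply intervalIntegral.integral_congr
    intro α _
    exact h1 α
  rw [intervalIntegral_intervalIntegral_swap] at h2
  · have h3 : ∀ φ : ℝ, ∫ α in (0 : ℝ)..(2 * π), (Real.cos α : ℂ) *
        ((Real.cos α : ℂ) + Complex.I * (Real.sin α : ℂ) * (Real.cos φ : ℂ)) ^ (2 * n + 1) =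
        2 * π * (am (n + 1) : ℂ) * (Real.sin φ : ℂ) ^ (2 * n) := by
      intro φ
      have h := hC.2.1 n 1 (Complex.I * (Real.cos φ : ℂ))
      have h4 : ∀ α : ℝ, (Real.cos α : ℂ) * (1 * (Real.cos α : ℂ) +
          Complex.I * (Real.cos φ : ℂ) * (Real.sin α : ℂ)) ^ (2 * n + 1) =
          (Real.cos α : ℂ) * ((Real.cos α : ℂ) +
            Complex.I * (Real.sin α : ℂ) * (Real.cos φ : ℂ)) ^ (2 * n + 1) := by
        intro α
        congr 2
        ring
      simp_rw [h4] at h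
      rw [h]
      have h5 : (1 : ℂ) ^ 2 + (Complex.I * (Real.cos φ : ℂ)) ^ 2 = (Real.sin φ : ℂ) ^ 2 := by
        rw [mul_pow, Complex.I_sq]
        have := Complex.sin_sq_add_cos_sq (φ : ℂ)
        push_cast
        linear_combination (-1 : ℂ) * this
      rw [h5, ← pow_mul]
      ring
    simp_rw [h3] at h2
    rw [intervalIntegral.integral_const_mul, sin_even hC] at h2
    have h6 : ((∫ α in (0 : ℝ)..(2 * π), Real.cos α * Lp (2 * n + 1) (Real.cos α) : ℝ) : ℂ) =
        ((2 * π * (am (n + 1) * am n) : ℝ) : ℂ) := by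
      have h7 : (2 * (π : ℂ)) ≠ 0 := mul_ne_zero two_ne_zero hpi
      apply mul_left_cancel₀ h7
      rw [h2]
      push_cast
      ring
    exact_mod_cast h6
  · have hpos : (0 : ℝ) ≤ 2 * π := by positivity
    have hcont : Continuous (Function.uncurry fun α φ : ℝ => (Real.cos α : ℂ) *
        ((Real.cos α : ℂ) + Complex.I * (Real.sin α : ℂ) * (Real.cos φ : ℂ)) ^ (2 * n + 1)) := by
      unfold Function.uncurry
      fun_prop
    refine (hcont.continuousOn.integrableOn_compact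
      (isCompact_Icc (a := (0 : ℝ)) (b := 2 * π) |>.prod (isCompact_Icc (a := (0 : ℝ))
        (b := 2 * π)))).mono_set ?_
    rw [uIoc_of_le hpos]
    exact Set.prod_mono Ioc_subset_Icc_self Ioc_subset_Icc_self

/-- The Legendre polynomial as a polynomial. -/
noncomputable def PP (l : ℕ) : Polynomial ℝ :=
  ∑ j ∈ Finset.range (l / 2 + 1), Polynomial.C ((-1 : ℝ) ^ j * (Nat.choose l (2 * j) : ℝ) * am j) *
    (Polynomial.X ^ (l - 2 * j) * (1 - Polynomial.X ^ 2) ^ j)

theorem PP_eval (l : ℕ) (x : ℝ) : (PP l).eval x = Lp l x := by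
  unfold PP Lp
  rw [Polynomial.eval_finsetSum]
  refine Finset.sum_congr rfl fun j _ => ?_
  simp

theorem q_deg : (1 - Polynomial.X ^ 2 : Polynomial ℝ).natDegree ≤ 2 := by
  compute_degree

theorem PP_deg (l : ℕ) : (PP l).natDegree ≤ l := by
  unfold PP
  apply Polynomial.natDegree_sum_le_of_forall_le
  intro j hj
  have h := range_mem hj
  refine (Polynomial.natDegree_C_mul_le _ _).trans ?_
  refine Polynomial.natDegree_mul_le.trans ?_
  have h1 : (Polynomial.X ^ (l - 2 * j) : Polynomial ℝ).natDegree ≤ l - 2 * j :=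
    Polynomial.natDegree_X_pow_le _
  have h2 : ((1 - Polynomial.X ^ 2 : Polynomial ℝ) ^ j).natDegree ≤ j * 2 :=
    Polynomial.natDegree_pow_le_of_le j q_deg
  omega

theorem PP_coeff (l : ℕ) : (PP l).coeff l =
    ∑ j ∈ Finset.range (l / 2 + 1), (Nat.choose l (2 * j) : ℝ) * am j := by
  unfold PP
  rw [Polynomial.finsetSum_coeff]
  refine Finset.sum_congr rfl fun j hj => ?_
  have h := range_mem hj
  rw [Polynomial.coeff_C_mul, Polynomial.coeff_X_pow_mul', if_pos (by omega)]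
  have e : l - (l - 2 * j) = j * 2 := by omega
  rw [e, Polynomial.coeff_pow_of_natDegree_le q_deg]
  have h2 : (1 - Polynomial.X ^ 2 : Polynomial ℝ).coeff 2 = -1 := by
    simp [Polynomial.coeff_one]
  rw [h2]
  have h3 : (-1 : ℝ) ^ j * (-1) ^ j = 1 := by
    rw [← mul_pow]
    norm_num
  linear_combination ((Nat.choose l (2 * j) : ℝ) * am j) * h3

theorem PP_coeff_pos (ham : ∀ j, 0 < am j) (l : ℕ) : 0 < (PP l).coeff l := by
  rw [PP_coeff]
  apply Finset.sum_pos
  · intro j hj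
    have h := range_mem hj
    have h1 : 0 < Nat.choose l (2 * j) := Nat.choose_pos h
    have h2 := ham j
    have h3 : (0 : ℝ) < (Nat.choose l (2 * j) : ℝ) := by exact_mod_cast h1
    positivity
  · exact ⟨0, by simp⟩

theorem span (ham : ∀ j, 0 < am j) (n : ℕ) : ∀ Q : Polynomial ℝ, Q.natDegree ≤ n →
    ∃ b : ℕ → ℝ, ∀ x, Q.eval x = ∑ l ∈ Finset.range (n + 1), b l * Lp l x := by
  have key : ∀ (m : ℕ) (Q : Polynomial ℝ), Q.natDegree ≤ m →
      (Q - Polynomial.C (Q.coeff m / (PP m).coeff m) * PP m).coeff m = 0 ∧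
      (Q - Polynomial.C (Q.coeff m / (PP m).coeff m) * PP m).natDegree ≤ m := by
    intro m Q hQ
    have hp := PP_coeff_pos ham m
    constructor
    · rw [Polynomial.coeff_sub, Polynomial.coeff_C_mul]
      field_simp
      ring
    · refine (Polynomial.natDegree_sub_le _ _).trans ?_
      refine max_le hQ ?_
      exact (Polynomial.natDegree_C_mul_le _ _).trans (PP_deg m)
  induction n with
  | zero =>
    intro Q hQ
    obtain ⟨h1, h2⟩ := key 0 Q hQ
    have h3 : Q - Polynomial.C (Q.coeff 0 / (PP 0).coeff 0) * PP 0 = 0 := by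
      rw [Polynomial.eq_C_of_natDegree_le_zero h2, h1]
      simp
    refine ⟨fun _ => Q.coeff 0 / (PP 0).coeff 0, fun x => ?_⟩
    have h4 : Q = Polynomial.C (Q.coeff 0 / (PP 0).coeff 0) * PP 0 := sub_eq_zero.1 h3
    have h5 : Q.eval x = (Polynomial.C (Q.coeff 0 / (PP 0).coeff 0) * PP 0).eval x := by
      rw [← h4]
    rw [h5]
    simp [PP_eval]
  | succ n ih =>
    intro Q hQ
    obtain ⟨h1, h2⟩ := key (n + 1) Q hQ
    have h3 : (Q - Polynomial.C (Q.coeff (n + 1) / (PP (n + 1)).coeff (n + 1)) *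
        PP (n + 1)).natDegree ≤ n := by
      rw [Polynomial.natDegree_le_iff_coeff_eq_zero]
      intro N hN
      rcases Nat.lt_or_ge (n + 1) N with h | h
      · exact Polynomial.coeff_eq_zero_of_natDegree_lt (lt_of_le_of_lt h2 h)
      · have : N = n + 1 := by omega
        rw [this]
        exact h1
    obtain ⟨b, hb⟩ := ih _ h3
    refine ⟨fun l => if l = n + 1 then Q.coeff (n + 1) / (PP (n + 1)).coeff (n + 1) else b l,
      fun x => ?_⟩
    rw [Finset.sum_range_succ]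
    beta_reduce
    rw [if_pos rfl]
    have h4 : ∑ l ∈ Finset.range (n + 1), (if l = n + 1 then
        Q.coeff (n + 1) / (PP (n + 1)).coeff (n + 1) else b l) * Lp l x =
        ∑ l ∈ Finset.range (n + 1), b l * Lp l x := by
      refine Finset.sum_congr rfl fun l hl => ?_
      have := Finset.mem_range.1 hl
      rw [if_neg (by omega)]
    rw [h4, ← hb x]
    simp [PP_eval]

end LEGM

open LEGM in
theorem specLEG (hC : SpecCAV) : SpecLEG := by
  obtain ⟨h0, h1, h2, ham⟩ := hC.2.2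
  refine ⟨?_, ?_, ?_, ?_, ?_, ?_⟩
  · intro l
    exact ⟨Lp_cont l, Lp_one h0 l, Lp_neg l, Lp_deriv h0 h1 l, abs_le hC l⟩
  · intro x
    unfold Lp
    simp [h0]
  · exact laplace hC
  · exact first_mode hC
  · intro n
    obtain ⟨b, hb⟩ := span (fun j => (ham j).1) n
      ((Polynomial.C (1 / 2) * (1 + Polynomial.X)) ^ n) (by
        refine (Polynomial.natDegree_pow_le_of_le n (m := 1) ?_).trans (by omega)
        compute_degree)
    refine ⟨b, fun x => ?_⟩
    rw [← hb x]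
    simp
    ring
  · intro l m hlm
    by_contra hcon
    push Not at hcon
    have h3 : ∀ x ∈ Icc (-1 : ℝ) 1, Lp l x = Lp m x := by
      intro x hx
      have := hcon (Real.arccos x)
      rwa [Real.cos_arccos hx.1 hx.2] at this
    have hl := (Lp_deriv h0 h1 l).hasDerivWithinAt (s := Icc (-1 : ℝ) 1)
    have hm := (Lp_deriv h0 h1 m).hasDerivWithinAt (s := Icc (-1 : ℝ) 1)
    have h1m : (1 : ℝ) ∈ Icc (-1 : ℝ) 1 := ⟨by norm_num, le_refl _⟩
    have hm' : HasDerivWithinAt (Lp l) ((m : ℝ) * (m + 1) / 2) (Icc (-1 : ℝ) 1) 1 :=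
      hm.congr h3 (h3 1 h1m)
    have hu : UniqueDiffWithinAt ℝ (Icc (-1 : ℝ) 1) 1 :=
      uniqueDiffOn_Icc (by norm_num) 1 h1m
    have he := hu.eq_deriv _ hl hm'
    have hl0 : (0 : ℝ) ≤ l := Nat.cast_nonneg l
    have hm0 : (0 : ℝ) ≤ m := Nat.cast_nonneg m
    have h5 : ((l : ℝ) - m) * (l + m + 1) = 0 := by linear_combination 2 * he
    have h6 : (l : ℝ) = m := by
      rcases mul_eq_zero.1 h5 with h | h
      · linarith
      · exfalso
        linarith
    exact hlm (by exact_mod_cast h6)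

end Pool.Agent.Lib.MP_084b88_gt.AY
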