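import Pool.Agent.Lib.MP_084b88_gt.AY.Spec

/-!
# MP_084b88_gt, project AY, module NF6: the six basic null forms
-/

set_option autoImplicit false

open MeasureTheory Set Real Filter Topology
open scoped Pointwise InnerProductSpace

namespace Pool.Agent.Lib.MP_084b88_gt.AY

open Pool.Agent.Lib.MP_084b88_gt.CW Pool.Agent.Lib.MP_084b88_gt.SY

namespace NF6M

/-- bounded by `K sin^n` on `(0,π)` -/
def Bd (n : ℕ) (φ : ℝ → ℝ) : Prop :=
  ∃ K : ℝ, 0 ≤ K ∧ ∀ α ∈ Ioo (0 : ℝ) π, |φ α| ≤ K * sin α ^ n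

theorem Bd.mk' {n : ℕ} {φ : ℝ → ℝ} (K : ℝ) (h : ∀ α ∈ Ioo (0 : ℝ) π, |φ α| ≤ K * sin α ^ n) :
    Bd n φ := by
  refine ⟨|K|, abs_nonneg K, fun α hα => (h α hα).trans ?_⟩
  exact mul_le_mul_of_nonneg_right (le_abs_self K)
    (pow_nonneg (sin_pos_of_pos_of_lt_pi hα.1 hα.2).le n)

theorem Bd.add {n : ℕ} {φ ψ : ℝ → ℝ} (h1 : Bd n φ) (h2 : Bd n ψ) : Bd n fun α => φ α + ψ α := by
  obtain ⟨K, hK, h1⟩ := h1
  obtain ⟨L, hL, h2⟩ := h2
  refine ⟨K + L, add_nonneg hK hL, fun α hα => ?_⟩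
  rw [add_mul]
  exact (abs_add_le _ _).trans (add_le_add (h1 α hα) (h2 α hα))

theorem Bd.congr {n : ℕ} {φ ψ : ℝ → ℝ} (h : Bd n φ) (e : ∀ α, ψ α = φ α) : Bd n ψ := by
  have h3 : ψ = φ := funext e
  rw [h3]
  exact h

theorem Bd.neg {n : ℕ} {φ : ℝ → ℝ} (h1 : Bd n φ) : Bd n fun α => -φ α := by
  obtain ⟨K, hK, h1⟩ := h1
  refine ⟨K, hK, fun α hα => ?_⟩
  rw [abs_neg]
  exact h1 α hα

theorem Bd.sub {n : ℕ} {φ ψ : ℝ → ℝ} (h1 : Bd n φ) (h2 : Bd n ψ) : Bd n fun α => φ α - ψ α := by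
  have h := h1.add h2.neg
  have e : (fun α => φ α - ψ α) = fun α => φ α + -ψ α := by
    funext α
    ring
  rw [e]
  exact h

theorem Bd.mul {n m : ℕ} {φ ψ : ℝ → ℝ} (h1 : Bd n φ) (h2 : Bd m ψ) :
    Bd (n + m) fun α => φ α * ψ α := by
  obtain ⟨K, hK, h1⟩ := h1
  obtain ⟨L, hL, h2⟩ := h2
  refine ⟨K * L, mul_nonneg hK hL, fun α hα => ?_⟩
  have hs := (sin_pos_of_pos_of_lt_pi hα.1 hα.2).le
  rw [abs_mul, pow_add]
  calc |φ α| * |ψ α| ≤ (K * sin α ^ n) * (L * sin α ^ m) :=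
        mul_le_mul (h1 α hα) (h2 α hα) (abs_nonneg _) (mul_nonneg hK (pow_nonneg hs n))
    _ = K * L * (sin α ^ n * sin α ^ m) := by ring

theorem Bd.mono {n m : ℕ} {φ : ℝ → ℝ} (h1 : Bd n φ) (hnm : m ≤ n) : Bd m φ := by
  obtain ⟨K, hK, h1⟩ := h1
  refine ⟨K, hK, fun α hα => (h1 α hα).trans ?_⟩
  exact mul_le_mul_of_nonneg_left (pow_le_pow_of_le_one
    (sin_pos_of_pos_of_lt_pi hα.1 hα.2).le (sin_le_one α) hnm) hK

/-- null form with `Φ = O(sin²)` -/
theorem gen (hNG0 : SpecNG0) {h h1 h2 : ℝ → ℝ} (hs : Sm h h1 h2) (t : ℝ) (N Φ : ℝ → ℝ)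
    (hc : ContinuousOn N (Ioo (0 : ℝ) π)) (hN : Bd 2 N) (hΦ : Bd 2 Φ)
    (hd : ∀ α ∈ Ioo (0 : ℝ) π, HasDerivAt Φ
      (-((N α - aa h h1 t α * Φ α) * h t) / (h (t + α) * sin α)) α) :
    ∫ α in (0 : ℝ)..π, N α / sin α ^ 2 = 0 := by
  obtain ⟨K, hK, hN⟩ := hN
  obtain ⟨L, hL, hΦ⟩ := hΦ
  have e : ∀ α, aa h h1 t α * Φ α + (N α - aa h h1 t α * Φ α) = N α := fun α => by ring
  have h3 := (hNG0 h h1 h2 hs t (max K L) Φ (fun α => N α - aa h h1 t α * Φ α) ?_ ?_ ?_ hd).2
  · simp only [e] at h3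
    exact h3
  · simp only [e]
    exact hc
  · intro α hα
    simp only [e]
    exact (hN α hα).trans (mul_le_mul_of_nonneg_right (le_max_left _ _) (sq_nonneg _))
  · intro α hα
    exact (hΦ α hα).trans (mul_le_mul_of_nonneg_right (le_max_right _ _) (sq_nonneg _))

/-- general null form -/
theorem genl (hNGZ : SpecNGZ) {h h1 h2 : ℝ → ℝ} (hs : Sm h h1 h2) (t l : ℝ) (N Φ : ℝ → ℝ)
    (hc : ContinuousOn N (Ioo (0 : ℝ) π)) (hN : Bd 2 N)
    (hd : ∀ α ∈ Ioo (0 : ℝ) π, HasDerivAt Φ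
      (-((N α - aa h h1 t α * Φ α) * h t) / (h (t + α) * sin α)) α)
    (hl0 : Tendsto (fun α => h (t + α) * Φ α / (h t * sin α)) (𝓝[>] 0) (𝓝 l))
    (hlp : Tendsto (fun α => h (t + α) * Φ α / (h t * sin α)) (𝓝[<] π) (𝓝 l)) :
    ∫ α in (0 : ℝ)..π, N α / sin α ^ 2 = 0 := by
  obtain ⟨K, hK, hN⟩ := hN
  have e : ∀ α, aa h h1 t α * Φ α + (N α - aa h h1 t α * Φ α) = N α := fun α => by ring
  have h3 := (hNGZ h h1 h2 hs t K l Φ (fun α => N α - aa h h1 t α * Φ α) ?_ ?_ hd hl0 hlp).2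
  · simp only [e] at h3
    exact h3
  · simp only [e]
    exact hc
  · intro α hα
    simp only [e]
    exact hN α hα

end NF6M

open NF6M

theorem specNF6 (hABR : SpecABR) (hEBR : SpecEBR) (hNGZ : SpecNGZ) (hNG0 : SpecNG0) : SpecNF6 := by
  intro h h1 h2 g g1 g2 hg f f1 hf1 hf t
  have hs := hg.sm
  obtain ⟨ca, cb, -, hab, hba, -, ⟨L, hL0, hL⟩, -, hb', -, -, -, -, -⟩ := hABR h h1 h2 hs
  obtain ⟨cea, ceb, -, -, -, -, -, -, he1, ⟨L', hL'0, hL'⟩, heb', -, hdl', hlim, -⟩ :=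
    hEBR h h1 h2 g g1 g2 hg
  have hfc : Continuous f := continuous_iff_continuousAt.2 fun x => (hf x).continuousAt
  have hhc : Continuous h := continuous_iff_continuousAt.2 fun x => (hs.d1 x).continuousAt
  have hgc : Continuous g := continuous_iff_continuousAt.2 fun x => (hg.d1 x).continuousAt
  have hIcc : ∀ {α : ℝ}, α ∈ Ioo (0 : ℝ) π → α ∈ Icc (0 : ℝ) π := fun hα => Ioo_subset_Icc_self hα
  -- continuity
  have hpr : Continuous fun α : ℝ => ((t, α) : ℝ × ℝ) := by fun_prop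
  have ca1 : Continuous (fun α => aa h h1 t α) := ca.comp hpr
  have cb1 : Continuous (fun α => bb h h1 t α) := cb.comp hpr
  have cea1 : Continuous (fun α => ea h g g1 t α) := cea.comp hpr
  have ceb1 : Continuous (fun α => eb h g g1 t α) := ceb.comp hpr
  have cgm : Continuous (gm h g) := hgc.div hhc fun x => (hs.pos x).ne'
  have cdl1 : Continuous (fun α => dl h h1 g t α) := by
    have h5 : Continuous fun α : ℝ => gm h g (t + α) := cgm.comp (by fun_prop)
    exact h5.sub (cb1.mul continuous_const)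
  have cfb : Continuous (fun α => f (bb h h1 t α)) := hfc.comp cb1
  have cf1b : Continuous (fun α => f1 (bb h h1 t α)) := hf1.comp cb1
  -- bounds
  obtain ⟨C, hC⟩ := isCompact_Icc.exists_bound_of_continuousOn (hfc.continuousOn (s := Icc (-1 : ℝ) 1))
  obtain ⟨C1, hC1⟩ := isCompact_Icc.exists_bound_of_continuousOn
    (hf1.continuousOn (s := Icc (-1 : ℝ) 1))
  have ba : Bd 0 (fun α => aa h h1 t α) := Bd.mk' 1 fun α hα => by
    rw [pow_zero, mul_one]
    exact (hL t α (hIcc hα)).1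
  have bf : Bd 0 (fun α => f (bb h h1 t α)) := Bd.mk' C fun α hα => by
    rw [pow_zero, mul_one]
    exact hC _ (abs_le.1 (hL t α (hIcc hα)).2.1)
  have bf1 : Bd 0 (fun α => f1 (bb h h1 t α)) := Bd.mk' C1 fun α hα => by
    rw [pow_zero, mul_one]
    exact hC1 _ (abs_le.1 (hL t α (hIcc hα)).2.1)
  have bab : Bd 2 (fun α => 1 - aa h h1 t α * bb h h1 t α) := Bd.mk' L fun α hα => by
    obtain ⟨k1, k2, -, -, k5⟩ := hL t α (hIcc hα)
    rw [abs_of_nonneg]
    · exact k5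
    · have h6 : |aa h h1 t α * bb h h1 t α| ≤ 1 := by
        rw [abs_mul]
        exact mul_le_one₀ k1 (abs_nonneg _) k2
      linarith [le_abs_self (aa h h1 t α * bb h h1 t α)]
  have bea : Bd 2 (fun α => ea h g g1 t α) := Bd.mk' L' fun α hα => (hL' t α (hIcc hα)).1
  have beb : Bd 2 (fun α => eb h g g1 t α) := Bd.mk' L' fun α hα => (hL' t α (hIcc hα)).2.1
  have bdl : Bd 1 (fun α => dl h h1 g t α) := Bd.mk' L' fun α hα => by
    rw [pow_one]
    exact (hL' t α (hIcc hα)).2.2.1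
  have bG : Bd 0 (fun _ => gm h g t) := Bd.mk' L' fun α hα => by
    rw [pow_zero, mul_one]
    exact (hL' t α (hIcc hα)).2.2.2
  have hdf : ∀ α ∈ Ioo (0 : ℝ) π, HasDerivAt (fun y => f (bb h h1 t y))
      (f1 (bb h h1 t α) * (-((1 - aa h h1 t α * bb h h1 t α) * h t) / (h (t + α) * sin α))) α :=
    fun α hα => (hf _).comp α (hb' t α hα)
  have hb0 : bb h h1 t 0 = 1 := by
    rw [hba, add_zero, sub_zero, (hab t).2, neg_neg]
  have hbp : bb h h1 t π = -1 := by
    rw [hba, sub_self, (hab (t + π)).1]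
  refine ⟨?_, ?_, ?_, ?_, ?_, ?_⟩
  · refine gen hNG0 hs t _ (fun α => f (bb h h1 t α) * eb h g g1 t α ^ 2) ?_ ?_ ?_ ?_
    · exact Continuous.continuousOn (by fun_prop)
    · have k1 := ((bf1.mul bab).mul (beb.mul beb)).mono (m := 2) (by norm_num)
      have k2 := ((bf.mul bea).mul beb).mono (m := 2) (by norm_num)
      have k3 := ((ba.mul bf).mul (beb.mul beb)).mono (m := 2) (by norm_num)
      exact ((k1.sub (k2.add k2)).sub k3).congr fun α => by ring
    · exact ((bf.mul (beb.mul beb)).mono (m := 2) (by norm_num)).congr fun α => by ring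
    · intro α hα
      refine ((hdf α hα).mul ((heb' t α hα).pow 2)).congr_deriv ?_
      simp only [Pi.pow_apply]
      push_cast
      ring
  · refine gen hNG0 hs t _ (fun α => f (bb h h1 t α) * (eb h g g1 t α * dl h h1 g t α)) ?_ ?_ ?_ ?_
    · exact Continuous.continuousOn (by fun_prop)
    · have k1 := (((bf1.mul bab).mul beb).mul bdl).mono (m := 2) (by norm_num)
      have k2 := ((bf.mul bea).mul bdl).mono (m := 2) (by norm_num)
      have k3 := ((bf.mul bea).mul beb).mono (m := 2) (by norm_num)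
      have k4 := (((ba.mul bf).mul beb).mul bdl).mono (m := 2) (by norm_num)
      exact ((k1.sub k2).add k3).sub k4
    · exact (bf.mul (beb.mul bdl)).mono (m := 2) (by norm_num)
    · intro α hα
      refine ((hdf α hα).mul ((heb' t α hα).mul (hdl' t α hα))).congr_deriv ?_
      simp only [Pi.mul_apply]
      ring
  · refine gen hNG0 hs t _ (fun α => f (bb h h1 t α) * (eb h g g1 t α * gm h g t)) ?_ ?_ ?_ ?_
    · exact Continuous.continuousOn (by fun_prop)
    · have k1 := (((bf1.mul bab).mul beb).mul bG).mono (m := 2) (by norm_num)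
      have k2 := ((bf.mul bea).mul bG).mono (m := 2) (by norm_num)
      exact k1.sub k2
    · exact (bf.mul (beb.mul bG)).mono (m := 2) (by norm_num)
    · intro α hα
      refine ((hdf α hα).mul ((heb' t α hα).mul_const (gm h g t))).congr_deriv ?_
      ring
  · refine gen hNG0 hs t _ (fun α => f (bb h h1 t α) * dl h h1 g t α ^ 2) ?_ ?_ ?_ ?_
    · exact Continuous.continuousOn (by fun_prop)
    · have k1 := ((bf1.mul bab).mul (bdl.mul bdl)).mono (m := 2) (by norm_num)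
      have k2 := ((bf.mul bea).mul bdl).mono (m := 2) (by norm_num)
      have k3 := ((ba.mul bf).mul (bdl.mul bdl)).mono (m := 2) (by norm_num)
      exact ((k1.add (k2.add k2)).sub k3).congr fun α => by ring
    · exact ((bf.mul (bdl.mul bdl)).mono (m := 2) (by norm_num)).congr fun α => by ring
    · intro α hα
      refine ((hdf α hα).mul ((hdl' t α hα).pow 2)).congr_deriv ?_
      simp only [Pi.pow_apply]
      push_cast
      ring
  · intro hpm
    have e0 : (fun α => h (t + α) * (f (bb h h1 t α) * (dl h h1 g t α * gm h g t)) /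
        (h t * sin α)) = fun α => f (bb h h1 t α) * gm h g t *
          (h (t + α) * dl h h1 g t α / (h t * sin α)) := by
      funext α
      ring
    refine genl hNGZ hs t (f 1 * gm h g t * ((g1 t * h t - g t * h1 t) / h t ^ 2)) _
      (fun α => f (bb h h1 t α) * (dl h h1 g t α * gm h g t)) ?_ ?_ ?_ ?_ ?_
    · exact Continuous.continuousOn (by fun_prop)
    · have k1 := (((bf1.mul bab).mul bdl).mul bG).mono (m := 2) (by norm_num)
      have k2 := ((bf.mul bea).mul bG).mono (m := 2) (by norm_num)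
      exact k1.add k2
    · intro α hα
      refine ((hdf α hα).mul ((hdl' t α hα).mul_const (gm h g t))).congr_deriv ?_
      ring
    · rw [e0]
      have k := cfb.tendsto 0
      simp only [hb0] at k
      exact (((k.mono_left nhdsWithin_le_nhds).mul_const (gm h g t)).mul (hlim t).1)
    · rw [e0]
      have k := cfb.tendsto π
      simp only [hbp] at k
      rw [← hpm] at k
      exact (((k.mono_left nhdsWithin_le_nhds).mul_const (gm h g t)).mul (hlim t).2)
  · rintro ⟨K, hK⟩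
    have bfs : Bd 2 (fun α => f (bb h h1 t α)) := Bd.mk' (|K| * L) fun α hα => by
      obtain ⟨-, k2, -, k4, -⟩ := hL t α (hIcc hα)
      have h6 : 0 ≤ 1 - bb h h1 t α ^ 2 := by
        have := sq_le_one_iff_abs_le_one (bb h h1 t α) |>.2 k2
        linarith
      calc |f (bb h h1 t α)| ≤ K * (1 - bb h h1 t α ^ 2) := hK _ k2
        _ ≤ |K| * (1 - bb h h1 t α ^ 2) := mul_le_mul_of_nonneg_right (le_abs_self K) h6
        _ ≤ |K| * (L * sin α ^ 2) := mul_le_mul_of_nonneg_left k4 (abs_nonneg K)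
        _ = |K| * L * sin α ^ 2 := by ring
    have bG2 : Bd 0 (fun _ => gm h g t ^ 2) := by
      have e : (fun _ : ℝ => gm h g t ^ 2) = fun _ => gm h g t * gm h g t := by
        funext α
        ring
      rw [e]
      exact bG.mul bG
    refine gen hNG0 hs t _ (fun α => f (bb h h1 t α) * gm h g t ^ 2) ?_ ?_ ?_ ?_
    · exact Continuous.continuousOn (by fun_prop)
    · have k1 := ((bf1.mul bab).mul bG2).mono (m := 2) (by norm_num)
      have k2 := ((ba.mul bfs).mul bG2).mono (m := 2) (by norm_num)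
      exact k1.add k2
    · exact (bfs.mul bG2).mono (m := 2) (by norm_num)
    · intro α hα
      refine ((hdf α hα).mul_const (gm h g t ^ 2)).congr_deriv ?_
      ring

end Pool.Agent.Lib.MP_084b88_gt.AY
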