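import Pool.Agent.Lib.MP_084b88_gt.AY.Spec
import Pool.Agent.Lib.MP_084b88_gt.SY.ABR

/-!
# MP_084b88_gt, project AY, module NG0: null forms with a quadratically small factor
-/

set_option autoImplicit false

open MeasureTheory Set Real Filter Topology
open scoped Pointwise InnerProductSpace

namespace Pool.Agent.Lib.MP_084b88_gt.AY

open Pool.Agent.Lib.MP_084b88_gt.CW Pool.Agent.Lib.MP_084b88_gt.SY

namespace NG0M

/-- the primitive tends to zero -/
theorem lim0 {h h1 h2 : ℝ → ℝ} (S : Sm h h1 h2) (t K : ℝ) (Φ : ℝ → ℝ)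
    (hΦ : ∀ α ∈ Ioo (0 : ℝ) π, |Φ α| ≤ K * sin α ^ 2) (x : ℝ) (hx : sin x = 0)
    (l : Filter ℝ) (hl : l ≤ 𝓝 x) (hl' : ∀ᶠ α in l, α ∈ Ioo (0 : ℝ) π) :
    Tendsto (fun α => h (t + α) * Φ α / (h t * sin α)) l (𝓝 0) := by
  have ht := S.pos t
  have h0 : Tendsto (fun α => h (t + α) * (K * sin α) / h t) l (𝓝 0) := by
    have hc : Continuous (fun α => h (t + α) * (K * sin α) / h t) := by
      have := ABRM.cont_h S
      exact Continuous.div_const (by fun_prop) _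
    have h1 := (hc.tendsto x).mono_left hl
    simpa [hx] using h1
  refine squeeze_zero_norm' ?_ h0
  filter_upwards [hl'] with α hα
  have hs := S.pos (t + α)
  have hsin := ABRM.sin_pos' hα
  rw [Real.norm_eq_abs, abs_div, abs_mul, abs_of_pos hs, abs_of_pos (mul_pos ht hsin),
    div_le_div_iff₀ (mul_pos ht hsin) ht]
  have h3 := mul_le_mul_of_nonneg_left (hΦ α hα) (mul_nonneg hs.le ht.le)
  calc h (t + α) * |Φ α| * h t = h (t + α) * h t * |Φ α| := by ring
    _ ≤ h (t + α) * h t * (K * sin α ^ 2) := h3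
    _ = h (t + α) * (K * sin α) * (h t * sin α) := by ring

end NG0M

theorem specNG0 (hNGZ : SpecNGZ) : SpecNG0 := by
  intro h h1 h2 S t K Φ Ψ hc hN hΦ hd
  have hpi := Real.pi_pos
  refine hNGZ h h1 h2 S t K 0 Φ Ψ hc hN hd ?_ ?_
  · refine NG0M.lim0 S t K Φ hΦ 0 Real.sin_zero _ nhdsWithin_le_nhds ?_
    exact Ioo_mem_nhdsGT hpi
  · refine NG0M.lim0 S t K Φ hΦ π Real.sin_pi _ nhdsWithin_le_nhds ?_
    exact Ioo_mem_nhdsLT hpi

end Pool.Agent.Lib.MP_084b88_gt.AY
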