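import Pool.Agent.Lib.MP_084b88_gt.AY.Spec

/-!
# MP_084b88_gt, project AY, module NGZ: general null forms
-/

set_option autoImplicit false

open MeasureTheory Set Real Filter Topology
open scoped Pointwise InnerProductSpace

namespace Pool.Agent.Lib.MP_084b88_gt.AY

open Pool.Agent.Lib.MP_084b88_gt.CW Pool.Agent.Lib.MP_084b88_gt.SY

namespace NGZM

theorem intble (N : ℝ → ℝ) (K : ℝ) (hc : ContinuousOn N (Ioo (0 : ℝ) π))
    (hb : ∀ α ∈ Ioo (0 : ℝ) π, |N α| ≤ K * sin α ^ 2) :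
    IntervalIntegrable (fun α => N α / sin α ^ 2) volume 0 π := by
  rw [intervalIntegrable_iff_integrableOn_Ioo_of_le pi_pos.le]
  refine Integrable.of_bound ?_ K ?_
  · have hq : ContinuousOn (fun α => N α / sin α ^ 2) (Ioo (0 : ℝ) π) :=
      hc.div (continuous_sin.continuousOn.pow 2) fun α hα =>
        pow_ne_zero 2 (sin_pos_of_pos_of_lt_pi hα.1 hα.2).ne'
    exact hq.aestronglyMeasurable measurableSet_Ioo
  · rw [ae_restrict_iff' (measurableSet_Ioo (a := (0 : ℝ)) (b := π))]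
    refine Filter.Eventually.of_forall ?_
    intro α hα
    have hp : 0 < sin α ^ 2 := pow_pos (sin_pos_of_pos_of_lt_pi hα.1 hα.2) 2
    rw [Real.norm_eq_abs, abs_div, abs_of_pos hp, div_le_iff₀ hp]
    exact hb α hα

end NGZM

theorem specNGZ (hABR : SpecABR) : SpecNGZ := by
  intro h h1 h2 hs t K l Φ Ψ hc hb hd hl0 hlp
  obtain ⟨-, -, -, -, -, -, -, -, -, h8, -⟩ := hABR h h1 h2 hs
  have hi := NGZM.intble _ K hc hb
  refine ⟨hi, ?_⟩
  have hF : ∀ α ∈ Ioo (0 : ℝ) π, HasDerivAt (fun α => h (t + α) * Φ α / (h t * sin α))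
      (-((aa h h1 t α * Φ α + Ψ α) / sin α ^ 2)) α := by
    intro α hα
    have h3 := (h8 t α hα).mul (hd α hα)
    have hsn : sin α ≠ 0 := (sin_pos_of_pos_of_lt_pi hα.1 hα.2).ne'
    have hp1 : h t ≠ 0 := (hs.pos t).ne'
    have hp2 : h (t + α) ≠ 0 := (hs.pos (t + α)).ne'
    have e : (fun α => h (t + α) * Φ α / (h t * sin α)) =
        (fun y => h (t + y) / (h t * sin y)) * Φ := by
      funext y
      simp only [Pi.mul_apply]
      ring
    rw [e]
    refine h3.congr_deriv ?_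
    field_simp
    ring
  have h4 := intervalIntegral.integral_eq_sub_of_hasDerivAt_of_tendsto pi_pos hF hi.neg hl0 hlp
  rw [sub_self] at h4
  have h5 : (∫ α in (0 : ℝ)..π, -((aa h h1 t α * Φ α + Ψ α) / sin α ^ 2)) =
      -∫ α in (0 : ℝ)..π, (aa h h1 t α * Φ α + Ψ α) / sin α ^ 2 := intervalIntegral.integral_neg
  rw [h5] at h4
  linarith

end Pool.Agent.Lib.MP_084b88_gt.AY
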