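import Pool.Agent.Lib.MP_084b88_gt.AY.SpecQ

/-!
# MP_084b88_gt, project AY: module NQA (the basic null forms)
-/

set_option autoImplicit false

open MeasureTheory Set Real Filter Topology
open scoped Pointwise InnerProductSpace

namespace Pool.Agent.Lib.MP_084b88_gt.AY

open Pool.Agent.Lib.MP_084b88_gt.CW Pool.Agent.Lib.MP_084b88_gt.SY

namespace NQAM

/-! ### Uniform bounds -/

/-- bounded by `K sin^n` on `[0,π]`, uniformly in `t` -/
def Bu (n : ℕ) (φ : ℝ → ℝ → ℝ) : Prop :=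
  ∃ K : ℝ, 0 ≤ K ∧ ∀ t, ∀ α ∈ Icc (0 : ℝ) π, |φ t α| ≤ K * sin α ^ n

theorem Bu.mk' {n : ℕ} {φ : ℝ → ℝ → ℝ} (K : ℝ)
    (h : ∀ t, ∀ α ∈ Icc (0 : ℝ) π, |φ t α| ≤ K * sin α ^ n) : Bu n φ := by
  refine ⟨|K|, abs_nonneg K, fun t α hα => (h t α hα).trans ?_⟩
  exact mul_le_mul_of_nonneg_right (le_abs_self K)
    (pow_nonneg (sin_nonneg_of_nonneg_of_le_pi hα.1 hα.2) n)

theorem Bu.add {n : ℕ} {φ ψ : ℝ → ℝ → ℝ} (h1 : Bu n φ) (h2 : Bu n ψ) :
    Bu n fun t α => φ t α + ψ t α := by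
  obtain ⟨K, hK, h1⟩ := h1
  obtain ⟨L, hL, h2⟩ := h2
  refine ⟨K + L, add_nonneg hK hL, fun t α hα => ?_⟩
  rw [add_mul]
  exact (abs_add_le _ _).trans (add_le_add (h1 t α hα) (h2 t α hα))

theorem Bu.congr {n : ℕ} {φ ψ : ℝ → ℝ → ℝ} (h : Bu n φ) (e : ∀ t α, ψ t α = φ t α) : Bu n ψ := by
  have h3 : ψ = φ := funext fun t => funext fun α => e t α
  rw [h3]
  exact h

theorem Bu.mul {n m : ℕ} {φ ψ : ℝ → ℝ → ℝ} (h1 : Bu n φ) (h2 : Bu m ψ) :
    Bu (n + m) fun t α => φ t α * ψ t α := by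
  obtain ⟨K, hK, h1⟩ := h1
  obtain ⟨L, hL, h2⟩ := h2
  refine ⟨K * L, mul_nonneg hK hL, fun t α hα => ?_⟩
  have hs := sin_nonneg_of_nonneg_of_le_pi hα.1 hα.2
  rw [abs_mul, pow_add]
  calc |φ t α| * |ψ t α| ≤ (K * sin α ^ n) * (L * sin α ^ m) :=
        mul_le_mul (h1 t α hα) (h2 t α hα) (abs_nonneg _) (mul_nonneg hK (pow_nonneg hs n))
    _ = K * L * (sin α ^ n * sin α ^ m) := by ring

theorem Bu.const (c : ℝ) : Bu 0 fun _ _ => c :=
  Bu.mk' |c| fun t α _ => by rw [pow_zero, mul_one]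

theorem Bu.cmul {n : ℕ} {φ : ℝ → ℝ → ℝ} (c : ℝ) (h : Bu n φ) : Bu n fun t α => c * φ t α := by
  have := (Bu.const c).mul h
  rwa [zero_add] at this

theorem Bu.mono {n m : ℕ} {φ : ℝ → ℝ → ℝ} (h1 : Bu n φ) (hnm : m ≤ n) : Bu m φ := by
  obtain ⟨K, hK, h1⟩ := h1
  refine ⟨K, hK, fun t α hα => (h1 t α hα).trans ?_⟩
  exact mul_le_mul_of_nonneg_left (pow_le_pow_of_le_one
    (sin_nonneg_of_nonneg_of_le_pi hα.1 hα.2) (sin_le_one α) hnm) hK

theorem Bu.pow {n : ℕ} {φ : ℝ → ℝ → ℝ} (h : Bu n φ) (j : ℕ) : Bu (n * j) fun t α => φ t α ^ j := by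
  obtain ⟨K, hK, h⟩ := h
  refine ⟨K ^ j, pow_nonneg hK j, fun t α hα => ?_⟩
  rw [abs_pow, pow_mul, ← mul_pow]
  exact pow_le_pow_left₀ (abs_nonneg _) (h t α hα) j

theorem Bu.pow0 {φ : ℝ → ℝ → ℝ} (h : Bu 0 φ) (j : ℕ) : Bu 0 fun t α => φ t α ^ j := by
  have := h.pow j
  rwa [zero_mul] at this

/-! ### Derivations -/

/-- `∂u/∂α = -v h(t)/(h(s) sin α)` -/
def HD (h : ℝ → ℝ) (t α : ℝ) (u : ℝ → ℝ) (v : ℝ) : Prop :=
  HasDerivAt u (-(v * h t) / (h (t + α) * sin α)) α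

theorem HD.mul {h : ℝ → ℝ} {t α : ℝ} {u w : ℝ → ℝ} {v z : ℝ} (h1 : HD h t α u v)
    (h2 : HD h t α w z) : HD h t α (fun y => u y * w y) (v * w α + u α * z) := by
  unfold HD at *
  refine (HasDerivAt.mul h1 h2).congr_deriv ?_
  ring

theorem HD.const {h : ℝ → ℝ} {t α : ℝ} (c : ℝ) : HD h t α (fun _ => c) 0 := by
  unfold HD
  refine (hasDerivAt_const α c).congr_deriv ?_
  ring

theorem HD.pow {h : ℝ → ℝ} {t α : ℝ} {u : ℝ → ℝ} (a r : ℝ) (h1 : HD h t α u (r - a * u α))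
    (p : ℕ) : HD h t α (fun y => u y ^ p) (p * r * u α ^ (p - 1) - a * p * u α ^ p) := by
  unfold HD at *
  refine (HasDerivAt.pow h1 p).congr_deriv ?_
  have e : (p : ℝ) * u α ^ p = p * (u α ^ (p - 1) * u α) := by
    rcases Nat.eq_zero_or_pos p with hp | hp
    · subst hp
      simp
    · rw [← pow_succ, Nat.sub_add_cancel hp]
  have e2 : a * p * u α ^ p = a * (p * (u α ^ (p - 1) * u α)) := by rw [mul_assoc, e]
  rw [e2]
  ring

theorem HD.congr {h : ℝ → ℝ} {t α : ℝ} {u : ℝ → ℝ} {v w : ℝ} (h1 : HD h t α u v) (e : v = w) :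
    HD h t α u w := by
  rw [← e]
  exact h1

/-! ### The body -/

theorem sgCos {h h1 h2 g g1 g2 : ℝ → ℝ} (hg : Sg h h1 h2 g g1 g2) :
    Sg h h1 h2 cos (fun x => -sin x) (fun x => -cos x) :=
  { sm := hg.sm
    d1 := fun x => hasDerivAt_cos x
    d2 := fun x => (hasDerivAt_sin x).neg
    c2 := continuous_cos.neg
    per := fun x => cos_add_pi x
    per1 := fun x => by rw [sin_add_pi]
    rad := fun x => by
      rw [add_neg_cancel, abs_zero]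
      exact (hg.sm.rad x).le }

theorem sgSin {h h1 h2 g g1 g2 : ℝ → ℝ} (hg : Sg h h1 h2 g g1 g2) :
    Sg h h1 h2 sin cos (fun x => -sin x) :=
  { sm := hg.sm
    d1 := fun x => hasDerivAt_sin x
    d2 := fun x => hasDerivAt_cos x
    c2 := continuous_sin.neg
    per := fun x => sin_add_pi x
    per1 := fun x => cos_add_pi x
    rad := fun x => by
      rw [add_neg_cancel, abs_zero]
      exact (hg.sm.rad x).le }

theorem eaCos (h : ℝ → ℝ) (t α : ℝ) : ea h cos (fun x => -sin x) t α = 0 := by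
  show (cos (t + α) * cos α - -sin (t + α) * sin α - cos t) / h t = 0
  rw [cos_add, sin_add]
  have : (cos t * cos α - sin t * sin α) * cos α - -(sin t * cos α + cos t * sin α) * sin α -
      cos t = 0 := by linear_combination cos t * sin_sq_add_cos_sq α
  rw [this, zero_div]

theorem eaSin (h : ℝ → ℝ) (t α : ℝ) : ea h sin cos t α = 0 := by
  unfold ea
  rw [cos_add, sin_add]
  have : (sin t * cos α + cos t * sin α) * cos α - (cos t * cos α - sin t * sin α) * sin α -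
      sin t = 0 := by linear_combination sin t * sin_sq_add_cos_sq α
  rw [this, zero_div]

/-- Everything that is needed on the data of a body. -/
structure Fc (h h1 g g1 : ℝ → ℝ) (d : ℝ → ℝ → Dt) : Prop where
  ca : Continuous fun x : ℝ × ℝ => (d x.1 x.2).a
  cb : Continuous fun x : ℝ × ℝ => (d x.1 x.2).b
  ce : Continuous fun x : ℝ × ℝ => (d x.1 x.2).e
  cf : Continuous fun x : ℝ × ℝ => (d x.1 x.2).f
  cgt : Continuous fun x : ℝ × ℝ => (d x.1 x.2).gt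
  cgs : Continuous fun x : ℝ × ℝ => (d x.1 x.2).gs
  cx1 : Continuous fun x : ℝ × ℝ => (d x.1 x.2).x1
  cx2 : Continuous fun x : ℝ × ℝ => (d x.1 x.2).x2
  cy1 : Continuous fun x : ℝ × ℝ => (d x.1 x.2).y1
  cy2 : Continuous fun x : ℝ × ℝ => (d x.1 x.2).y2
  ba : Bu 0 fun t α => (d t α).a
  be : Bu 2 fun t α => (d t α).e
  bf : Bu 2 fun t α => (d t α).f
  bab : Bu 2 fun t α => 1 - (d t α).a * (d t α).b
  b1 : ∀ t, ∀ α ∈ Icc (0 : ℝ) π, |(d t α).b| ≤ 1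
  bbs : Bu 2 fun t α => 1 - (d t α).b ^ 2
  bgt : Bu 0 fun t α => (d t α).gt
  bgs : Bu 0 fun t α => (d t α).gs
  bx1 : Bu 0 fun t α => (d t α).x1
  bx2 : Bu 0 fun t α => (d t α).x2
  by1 : Bu 0 fun t α => (d t α).y1
  by2 : Bu 0 fun t α => (d t α).y2
  bd0 : Bu 1 fun t α => (d t α).gs - (d t α).b * (d t α).gt
  bd1 : Bu 1 fun t α => (d t α).y1 - (d t α).b * (d t α).x1
  bd2 : Bu 1 fun t α => (d t α).y2 - (d t α).b * (d t α).x2
  xgt : ∀ t α α', (d t α).gt = (d t α').gt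
  xx1 : ∀ t α α', (d t α).x1 = (d t α').x1
  xx2 : ∀ t α α', (d t α).x2 = (d t α').x2
  Db : ∀ t, ∀ α ∈ Ioo (0 : ℝ) π, HD h t α (fun y => (d t y).b) (1 - (d t α).a * (d t α).b)
  Df : ∀ t, ∀ α ∈ Ioo (0 : ℝ) π, HD h t α (fun y => (d t y).f)
    (-(d t α).e - (d t α).a * (d t α).f)
  Dgs : ∀ t, ∀ α ∈ Ioo (0 : ℝ) π, HD h t α (fun y => (d t y).gs)
    ((d t α).e + (d t α).gt - (d t α).a * (d t α).gs)
  Dy1 : ∀ t, ∀ α ∈ Ioo (0 : ℝ) π, HD h t α (fun y => (d t y).y1)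
    ((d t α).x1 - (d t α).a * (d t α).y1)
  Dy2 : ∀ t, ∀ α ∈ Ioo (0 : ℝ) π, HD h t α (fun y => (d t y).y2)
    ((d t α).x2 - (d t α).a * (d t α).y2)
  Dd0 : ∀ t, ∀ α ∈ Ioo (0 : ℝ) π, HD h t α (fun y => (d t y).gs - (d t y).b * (d t y).gt)
    ((d t α).e - (d t α).a * ((d t α).gs - (d t α).b * (d t α).gt))
  Dd1 : ∀ t, ∀ α ∈ Ioo (0 : ℝ) π, HD h t α (fun y => (d t y).y1 - (d t y).b * (d t y).x1)
    (0 - (d t α).a * ((d t α).y1 - (d t α).b * (d t α).x1))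
  Dd2 : ∀ t, ∀ α ∈ Ioo (0 : ℝ) π, HD h t α (fun y => (d t y).y2 - (d t y).b * (d t y).x2)
    (0 - (d t α).a * ((d t α).y2 - (d t α).b * (d t α).x2))
  ld0 : ∀ t, ∃ c : ℝ, Tendsto (fun α => h (t + α) * ((d t α).gs - (d t α).b * (d t α).gt) /
      (h t * sin α)) (𝓝[>] 0) (𝓝 c) ∧
    Tendsto (fun α => h (t + α) * ((d t α).gs - (d t α).b * (d t α).gt) /
      (h t * sin α)) (𝓝[<] π) (𝓝 c)
  ld1 : ∀ t, ∃ c : ℝ, Tendsto (fun α => h (t + α) * ((d t α).y1 - (d t α).b * (d t α).x1) /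
      (h t * sin α)) (𝓝[>] 0) (𝓝 c) ∧
    Tendsto (fun α => h (t + α) * ((d t α).y1 - (d t α).b * (d t α).x1) /
      (h t * sin α)) (𝓝[<] π) (𝓝 c)
  ld2 : ∀ t, ∃ c : ℝ, Tendsto (fun α => h (t + α) * ((d t α).y2 - (d t α).b * (d t α).x2) /
      (h t * sin α)) (𝓝[>] 0) (𝓝 c) ∧
    Tendsto (fun α => h (t + α) * ((d t α).y2 - (d t α).b * (d t α).x2) /
      (h t * sin α)) (𝓝[<] π) (𝓝 c)
  e0 : ∀ t, (d t 0).b = 1 ∧ (d t 0).gs = (d t 0).gt ∧ (d t 0).y1 = (d t 0).x1 ∧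
    (d t 0).y2 = (d t 0).x2
  ep : ∀ t, (d t π).b = -1 ∧ (d t π).gs = -(d t 0).gt ∧ (d t π).y1 = -(d t 0).x1 ∧
    (d t π).y2 = -(d t 0).x2

theorem fc (hABR : SpecABR) (hEBR : SpecEBR) {h h1 h2 g g1 g2 : ℝ → ℝ}
    (hg : Sg h h1 h2 g g1 g2) : Fc h h1 g g1 (dtf h h1 g g1) := by
  have hs := hg.sm
  obtain ⟨ca, cb, -, hab, hba, -, ⟨L, hL0, hL⟩, -, hb', -, -, -, -, -⟩ := hABR h h1 h2 hs
  obtain ⟨cea, ceb, cgm, -, -, -, hgp, -, -, ⟨L', hL'0, hL'⟩, heb', hgs', hdl', hlim, -⟩ :=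
    hEBR h h1 h2 g g1 g2 hg
  obtain ⟨-, -, cgm1, -, -, -, hgp1, -, -, ⟨L1, hL10, hL1⟩, -, hgs1, hdl1, hlim1, -⟩ :=
    hEBR h h1 h2 _ _ _ (sgCos hg)
  obtain ⟨-, -, cgm2, -, -, -, hgp2, -, -, ⟨L2, hL20, hL2⟩, -, hgs2, hdl2, hlim2, -⟩ :=
    hEBR h h1 h2 _ _ _ (sgSin hg)
  have h0 : (0 : ℝ) ∈ Icc (0 : ℝ) π := ⟨le_rfl, pi_pos.le⟩
  have hb0 : ∀ t, bb h h1 t 0 = 1 := fun t => by
    rw [hba, add_zero, sub_zero, (hab t).2, neg_neg]
  have hbp : ∀ t, bb h h1 t π = -1 := fun t => by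
    rw [hba, sub_self, (hab (t + π)).1]
  exact
  { ca := ca
    cb := cb
    ce := cea
    cf := ceb
    cgt := cgm.comp continuous_fst
    cgs := cgm.comp (continuous_fst.add continuous_snd)
    cx1 := cgm1.comp continuous_fst
    cx2 := cgm2.comp continuous_fst
    cy1 := cgm1.comp (continuous_fst.add continuous_snd)
    cy2 := cgm2.comp (continuous_fst.add continuous_snd)
    ba := Bu.mk' 1 fun t α hα => by
      rw [pow_zero, mul_one]
      exact (hL t α hα).1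
    be := Bu.mk' L' fun t α hα => (hL' t α hα).1
    bf := Bu.mk' L' fun t α hα => (hL' t α hα).2.1
    bab := Bu.mk' L fun t α hα => by
      obtain ⟨k1, k2, -, -, k5⟩ := hL t α hα
      show |1 - aa h h1 t α * bb h h1 t α| ≤ _
      rw [abs_of_nonneg]
      · exact k5
      · have h6 : |aa h h1 t α * bb h h1 t α| ≤ 1 := by
          rw [abs_mul]
          exact mul_le_one₀ k1 (abs_nonneg _) k2
        linarith [le_abs_self (aa h h1 t α * bb h h1 t α)]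
    b1 := fun t α hα => (hL t α hα).2.1
    bbs := Bu.mk' L fun t α hα => by
      obtain ⟨-, k2, -, k4, -⟩ := hL t α hα
      show |1 - bb h h1 t α ^ 2| ≤ _
      rw [abs_of_nonneg]
      · exact k4
      · have := sq_le_one_iff_abs_le_one (bb h h1 t α) |>.2 k2
        linarith
    bgt := Bu.mk' L' fun t α hα => by
      rw [pow_zero, mul_one]
      exact (hL' t 0 h0).2.2.2
    bgs := Bu.mk' L' fun t α hα => by
      rw [pow_zero, mul_one]
      exact (hL' (t + α) 0 h0).2.2.2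
    bx1 := Bu.mk' L1 fun t α hα => by
      rw [pow_zero, mul_one]
      exact (hL1 t 0 h0).2.2.2
    bx2 := Bu.mk' L2 fun t α hα => by
      rw [pow_zero, mul_one]
      exact (hL2 t 0 h0).2.2.2
    by1 := Bu.mk' L1 fun t α hα => by
      rw [pow_zero, mul_one]
      exact (hL1 (t + α) 0 h0).2.2.2
    by2 := Bu.mk' L2 fun t α hα => by
      rw [pow_zero, mul_one]
      exact (hL2 (t + α) 0 h0).2.2.2
    bd0 := Bu.mk' L' fun t α hα => by
      rw [pow_one]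
      exact (hL' t α hα).2.2.1
    bd1 := Bu.mk' L1 fun t α hα => by
      rw [pow_one]
      exact (hL1 t α hα).2.2.1
    bd2 := Bu.mk' L2 fun t α hα => by
      rw [pow_one]
      exact (hL2 t α hα).2.2.1
    xgt := fun _ _ _ => rfl
    xx1 := fun _ _ _ => rfl
    xx2 := fun _ _ _ => rfl
    Db := fun t α hα => hb' t α hα
    Df := fun t α hα => by
      refine (heb' t α hα).congr_deriv ?_
      show _ = -((-ea h g g1 t α - aa h h1 t α * eb h g g1 t α) * h t) / (h (t + α) * sin α)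
      ring
    Dgs := fun t α hα => hgs' t α hα
    Dy1 := fun t α hα => by
      refine (hgs1 t α hα).congr_deriv ?_
      rw [eaCos, zero_add]
      rfl
    Dy2 := fun t α hα => by
      refine (hgs2 t α hα).congr_deriv ?_
      rw [eaSin, zero_add]
      rfl
    Dd0 := fun t α hα => hdl' t α hα
    Dd1 := fun t α hα => by
      refine (hdl1 t α hα).congr_deriv ?_
      rw [eaCos]
      rfl
    Dd2 := fun t α hα => by
      refine (hdl2 t α hα).congr_deriv ?_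
      rw [eaSin]
      rfl
    ld0 := fun t => ⟨_, hlim t⟩
    ld1 := fun t => ⟨_, hlim1 t⟩
    ld2 := fun t => ⟨_, hlim2 t⟩
    e0 := fun t => ⟨hb0 t, congrArg (gm h g) (add_zero t), congrArg (gm h cos) (add_zero t),
      congrArg (gm h sin) (add_zero t)⟩
    ep := fun t => ⟨hbp t, hgp t, hgp1 t, hgp2 t⟩ }

section Main

variable {h h1 g g1 : ℝ → ℝ} {d : ℝ → ℝ → Dt}

theorem mqB (F : Fc h h1 g g1 d) (j p0 p1 p2 k l m1 m2 n1 n2 : ℕ) :
    Bu (2 * j + p0 + p1 + p2) fun t α => mq j p0 p1 p2 k l m1 m2 n1 n2 (d t α) := by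
  have h1 := (((F.bf.pow j).mul (F.bd0.pow p0)).mul (F.bd1.pow p1)).mul (F.bd2.pow p2)
  have h2 := (((((F.bgs.pow0 k).mul (F.bgt.pow0 l)).mul (F.bx1.pow0 m1)).mul
    (F.bx2.pow0 m2)).mul (F.by1.pow0 n1)).mul (F.by2.pow0 n2)
  exact (h1.mul h2).mono (by omega)

theorem mqC (F : Fc h h1 g g1 d) (j p0 p1 p2 k l m1 m2 n1 n2 : ℕ) :
    Continuous fun x : ℝ × ℝ => mq j p0 p1 p2 k l m1 m2 n1 n2 (d x.1 x.2) := by
  have := F.cb
  have := F.cf
  have := F.cgt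
  have := F.cgs
  have := F.cx1
  have := F.cx2
  have := F.cy1
  have := F.cy2
  unfold mq
  fun_prop

theorem mqD (F : Fc h h1 g g1 d) (j p0 p1 p2 k l m1 m2 n1 n2 : ℕ) (t α : ℝ)
    (hα : α ∈ Ioo (0 : ℝ) π) :
    HD h t α (fun y => mq j p0 p1 p2 k l m1 m2 n1 n2 (d t y))
      (dq j p0 p1 p2 k l m1 m2 n1 n2 (d t α)) := by
  have f1 := HD.pow (d t α).a (-(d t α).e) (F.Df t α hα) j
  have f2 := HD.pow (d t α).a (d t α).e (F.Dd0 t α hα) p0
  have f3 := HD.pow (d t α).a 0 (F.Dd1 t α hα) p1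
  have f4 := HD.pow (d t α).a 0 (F.Dd2 t α hα) p2
  have f5 := HD.pow 0 ((d t α).e + (d t α).gt - (d t α).a * (d t α).gs)
    ((F.Dgs t α hα).congr (by ring)) k
  have f6 : HD h t α (fun y => (d t y).gt ^ l) 0 := by
    have e : (fun y => (d t y).gt ^ l) = fun _ => (d t 0).gt ^ l :=
      funext fun y => by rw [F.xgt t y 0]
    rw [e]
    exact HD.const _
  have f7 : HD h t α (fun y => (d t y).x1 ^ m1) 0 := by
    have e : (fun y => (d t y).x1 ^ m1) = fun _ => (d t 0).x1 ^ m1 :=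
      funext fun y => by rw [F.xx1 t y 0]
    rw [e]
    exact HD.const _
  have f8 : HD h t α (fun y => (d t y).x2 ^ m2) 0 := by
    have e : (fun y => (d t y).x2 ^ m2) = fun _ => (d t 0).x2 ^ m2 :=
      funext fun y => by rw [F.xx2 t y 0]
    rw [e]
    exact HD.const _
  have f9 := HD.pow 0 ((d t α).x1 - (d t α).a * (d t α).y1) ((F.Dy1 t α hα).congr (by ring)) n1
  have f10 := HD.pow 0 ((d t α).x2 - (d t α).a * (d t α).y2) ((F.Dy2 t α hα).congr (by ring)) n2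
  have h1 := ((f1.mul f2).mul f3).mul f4
  have h2 := ((((f5.mul f6).mul f7).mul f8).mul f9).mul f10
  refine (h1.mul h2).congr ?_
  unfold dq mq
  ring

/-- The part of the null form without `a F`. -/
theorem nrB (F : Fc h h1 g g1 d) (φ φ1 : ℝ → ℝ) (hφ1 : Continuous φ1) (q : ℕ)
    (hq : Bu q fun t α => φ (d t α).b) (j p0 p1 p2 k l m1 m2 n1 n2 : ℕ)
    (ho : 1 ≤ q + (2 * j + p0 + p1 + p2)) :
    Bu 2 fun t α => NQ φ φ1 j p0 p1 p2 k l m1 m2 n1 n2 (d t α) -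
      (1 - ((j : ℝ) + p0 + p1 + p2)) *
        ((d t α).a * φ (d t α).b * mq j p0 p1 p2 k l m1 m2 n1 n2 (d t α)) := by
  have bφ1 : Bu 0 fun t α => φ1 (d t α).b := by
    obtain ⟨C1, hC1⟩ := isCompact_Icc.exists_bound_of_continuousOn
      (hφ1.continuousOn (s := Icc (-1 : ℝ) 1))
    refine Bu.mk' C1 fun t α hα => ?_
    rw [pow_zero, mul_one]
    exact hC1 _ (abs_le.1 (F.b1 t α hα))
  have bw : Bu 1 fun t α => (d t α).e + (d t α).gt - (d t α).a * (d t α).gs := by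
    have k1 := F.be.mono (m := 1) (by norm_num)
    have k2 := (F.bab.mul F.bgt).mono (m := 1) (by norm_num)
    have k3 := ((F.ba.mul F.bd0).mono (m := 1) (by norm_num)).cmul (-1)
    exact ((k1.add k2).add k3).congr fun t α => by ring
  have bz1 : Bu 1 fun t α => (d t α).x1 - (d t α).a * (d t α).y1 := by
    have k2 := (F.bab.mul F.bx1).mono (m := 1) (by norm_num)
    have k3 := ((F.ba.mul F.bd1).mono (m := 1) (by norm_num)).cmul (-1)
    exact (k2.add k3).congr fun t α => by ring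
  have bz2 : Bu 1 fun t α => (d t α).x2 - (d t α).a * (d t α).y2 := by
    have k2 := (F.bab.mul F.bx2).mono (m := 1) (by norm_num)
    have k3 := ((F.ba.mul F.bd2).mono (m := 1) (by norm_num)).cmul (-1)
    exact (k2.add k3).congr fun t α => by ring
  have T2 := ((bφ1.mul F.bab).mul (mqB F j p0 p1 p2 k l m1 m2 n1 n2)).mono (m := 2) (by omega)
  have T4 := (((hq.mul F.be).mul (mqB F (j - 1) p0 p1 p2 k l m1 m2 n1 n2)).mono (m := 2)
    (by omega)).cmul (-(j : ℝ))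
  have T5 := (((hq.mul F.be).mul (mqB F j (p0 - 1) p1 p2 k l m1 m2 n1 n2)).mono (m := 2)
    (by omega)).cmul (p0 : ℝ)
  have T6 := (((hq.mul bw).mul (mqB F j p0 p1 p2 (k - 1) l m1 m2 n1 n2)).mono (m := 2)
    (by omega)).cmul (k : ℝ)
  have T7 := (((hq.mul bz1).mul (mqB F j p0 p1 p2 k l m1 m2 (n1 - 1) n2)).mono (m := 2)
    (by omega)).cmul (n1 : ℝ)
  have T8 := (((hq.mul bz2).mul (mqB F j p0 p1 p2 k l m1 m2 n1 (n2 - 1))).mono (m := 2)
    (by omega)).cmul (n2 : ℝ)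
  refine (((((T2.add T4).add T5).add T6).add T7).add T8).congr fun t α => ?_
  unfold NQ dq
  ring

theorem nqC (F : Fc h h1 g g1 d) (φ φ1 : ℝ → ℝ) (hφ : Continuous φ) (hφ1 : Continuous φ1)
    (j p0 p1 p2 k l m1 m2 n1 n2 : ℕ) :
    Continuous fun x : ℝ × ℝ => NQ φ φ1 j p0 p1 p2 k l m1 m2 n1 n2 (d x.1 x.2) := by
  have c1 := mqC F j p0 p1 p2 k l m1 m2 n1 n2
  have c2 := mqC F (j - 1) p0 p1 p2 k l m1 m2 n1 n2
  have c3 := mqC F j (p0 - 1) p1 p2 k l m1 m2 n1 n2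
  have c4 := mqC F j p0 p1 p2 (k - 1) l m1 m2 n1 n2
  have c5 := mqC F j p0 p1 p2 k l m1 m2 (n1 - 1) n2
  have c6 := mqC F j p0 p1 p2 k l m1 m2 n1 (n2 - 1)
  have c7 : Continuous fun x : ℝ × ℝ => φ (d x.1 x.2).b := hφ.comp F.cb
  have c8 : Continuous fun x : ℝ × ℝ => φ1 (d x.1 x.2).b := hφ1.comp F.cb
  have := F.ca
  have := F.cb
  have := F.ce
  have := F.cgt
  have := F.cgs
  have := F.cx1
  have := F.cx2
  have := F.cy1
  have := F.cy2
  unfold NQ dq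
  fun_prop

theorem nqD (F : Fc h h1 g g1 d) (φ φ1 : ℝ → ℝ) (hφ' : ∀ x, HasDerivAt φ (φ1 x) x)
    (j p0 p1 p2 k l m1 m2 n1 n2 : ℕ) (t α : ℝ) (hα : α ∈ Ioo (0 : ℝ) π) :
    HasDerivAt (fun y => φ (d t y).b * mq j p0 p1 p2 k l m1 m2 n1 n2 (d t y))
      (-((NQ φ φ1 j p0 p1 p2 k l m1 m2 n1 n2 (d t α) - (d t α).a * (φ (d t α).b *
        mq j p0 p1 p2 k l m1 m2 n1 n2 (d t α))) * h t) / (h (t + α) * sin α)) α := by
  have f0 : HD h t α (fun y => φ (d t y).b) (φ1 (d t α).b * (1 - (d t α).a * (d t α).b)) := by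
    have := (hφ' (d t α).b).comp α (F.Db t α hα)
    refine this.congr_deriv ?_
    ring
  have := f0.mul (mqD F j p0 p1 p2 k l m1 m2 n1 n2 t α hα)
  refine this.congr ?_
  unfold NQ
  ring

end Main

end NQAM

open NQAM in
/-- **NQA**. -/
theorem specNQA (hABR : SpecABR) (hEBR : SpecEBR) (hNGZ : SpecNGZ) (hNG0 : SpecNG0) :
    SpecNQA := by
  intro φ φ1 hφ1 hφ' k l m1 m2 n1 n2
  have hφ : Continuous φ := continuous_iff_continuousAt.2 fun x => (hφ' x).continuousAt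
  -- the case `2 ≤ q + o`
  have big : ∀ (q : ℕ) (j p0 p1 p2 : ℕ),
      (∀ (h h1 h2 g g1 g2 : ℝ → ℝ), Sg h h1 h2 g g1 g2 →
        Bu q fun t α => φ (dtf h h1 g g1 t α).b) → 2 ≤ q + (2 * j + p0 + p1 + p2) →
      Nul (NQ φ φ1 j p0 p1 p2 k l m1 m2 n1 n2) := by
    intro q j p0 p1 p2 hq ho h h1 h2 g g1 g2 hg
    have F := fc hABR hEBR hg
    have hq' := hq h h1 h2 g g1 g2 hg
    have hcont := nqC F φ φ1 hφ hφ1 j p0 p1 p2 k l m1 m2 n1 n2
    have hF : Bu 2 fun t α => φ (dtf h h1 g g1 t α).b *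
        mq j p0 p1 p2 k l m1 m2 n1 n2 (dtf h h1 g g1 t α) :=
      (hq'.mul (mqB F j p0 p1 p2 k l m1 m2 n1 n2)).mono ho
    have hN : Bu 2 fun t α => NQ φ φ1 j p0 p1 p2 k l m1 m2 n1 n2 (dtf h h1 g g1 t α) := by
      have k1 := nrB F φ φ1 hφ1 q hq' j p0 p1 p2 k l m1 m2 n1 n2 (by omega)
      have k2 := ((F.ba.mul hF).mono (m := 2) (by norm_num)).cmul
        (1 - ((j : ℝ) + p0 + p1 + p2))
      exact (k1.add k2).congr fun t α => by ring
    obtain ⟨K, hK, hN⟩ := hN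
    obtain ⟨K', hK', hF⟩ := hF
    refine ⟨hcont, ⟨K, hN⟩, fun t => ?_⟩
    set N : ℝ → ℝ := fun α => NQ φ φ1 j p0 p1 p2 k l m1 m2 n1 n2 (dtf h h1 g g1 t α) with hNd
    set Φ : ℝ → ℝ := fun α => φ (dtf h h1 g g1 t α).b *
        mq j p0 p1 p2 k l m1 m2 n1 n2 (dtf h h1 g g1 t α) with hΦd
    have e : ∀ α, aa h h1 t α * Φ α + (N α - aa h h1 t α * Φ α) = N α := fun α => by ring
    have h3 := (hNG0 h h1 h2 hg.sm t (max K K') Φ (fun α => N α - aa h h1 t α * Φ α) ?_ ?_ ?_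
      ?_).2
    · simp only [e] at h3
      exact h3
    · simp only [e]
      have h4 : Continuous fun α : ℝ => ((t, α) : ℝ × ℝ) := by fun_prop
      exact (hcont.comp h4).continuousOn
    · intro α hα
      simp only [e]
      exact (hN t α (Ioo_subset_Icc_self hα)).trans
        (mul_le_mul_of_nonneg_right (le_max_left _ _) (sq_nonneg _))
    · intro α hα
      exact (hF t α (Ioo_subset_Icc_self hα)).trans
        (mul_le_mul_of_nonneg_right (le_max_right _ _) (sq_nonneg _))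
    · intro α hα
      exact nqD F φ φ1 hφ' j p0 p1 p2 k l m1 m2 n1 n2 t α hα
  -- bounds of `φ(b)`
  have hq0 : ∀ (h h1 h2 g g1 g2 : ℝ → ℝ), Sg h h1 h2 g g1 g2 →
      Bu 0 fun t α => φ (dtf h h1 g g1 t α).b := by
    intro h h1 h2 g g1 g2 hg
    have F := fc hABR hEBR hg
    obtain ⟨C1, hC1⟩ := isCompact_Icc.exists_bound_of_continuousOn
      (hφ.continuousOn (s := Icc (-1 : ℝ) 1))
    refine Bu.mk' C1 fun t α hα => ?_
    rw [pow_zero, mul_one]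
    exact hC1 _ (abs_le.1 (F.b1 t α hα))
  -- the case of one `δ`
  have one : φ (-1) * (-1) ^ (k + n1 + n2) = φ 1 → ∀ p0 p1 p2 : ℕ, p0 + p1 + p2 = 1 →
      (∀ (h h1 h2 g g1 g2 : ℝ → ℝ), Sg h h1 h2 g g1 g2 → ∀ t, ∃ c : ℝ,
        Tendsto (fun α => h (t + α) * mq 0 p0 p1 p2 0 0 0 0 0 0 (dtf h h1 g g1 t α) /
          (h t * sin α)) (𝓝[>] 0) (𝓝 c) ∧
        Tendsto (fun α => h (t + α) * mq 0 p0 p1 p2 0 0 0 0 0 0 (dtf h h1 g g1 t α) /
          (h t * sin α)) (𝓝[<] π) (𝓝 c)) →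
      Nul (NQ φ φ1 0 p0 p1 p2 k l m1 m2 n1 n2) := by
    intro hpm p0 p1 p2 hp hlimc h h1 h2 g g1 g2 hg
    have F := fc hABR hEBR hg
    have hcont := nqC F φ φ1 hφ hφ1 0 p0 p1 p2 k l m1 m2 n1 n2
    have hN : Bu 2 fun t α => NQ φ φ1 0 p0 p1 p2 k l m1 m2 n1 n2 (dtf h h1 g g1 t α) := by
      have k1 := nrB F φ φ1 hφ1 0 (hq0 h h1 h2 g g1 g2 hg) 0 p0 p1 p2 k l m1 m2 n1 n2
        (by omega)
      refine k1.congr fun t α => ?_
      have hp' : (p0 : ℝ) + p1 + p2 = 1 := by exact_mod_cast hp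
      have e : (1 : ℝ) - (((0 : ℕ) : ℝ) + p0 + p1 + p2) = 0 := by
        push_cast
        linarith
      rw [e, zero_mul, sub_zero]
    obtain ⟨K, hK, hN⟩ := hN
    refine ⟨hcont, ⟨K, hN⟩, fun t => ?_⟩
    obtain ⟨c, hc0, hcp⟩ := hlimc h h1 h2 g g1 g2 hg t
    set N : ℝ → ℝ := fun α => NQ φ φ1 0 p0 p1 p2 k l m1 m2 n1 n2 (dtf h h1 g g1 t α) with hNd
    set Φ : ℝ → ℝ := fun α => φ (dtf h h1 g g1 t α).b *
        mq 0 p0 p1 p2 k l m1 m2 n1 n2 (dtf h h1 g g1 t α) with hΦd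
    -- the bounded factor
    set M : ℝ → ℝ := fun α => φ (dtf h h1 g g1 t α).b *
      mq 0 0 0 0 k l m1 m2 n1 n2 (dtf h h1 g g1 t α) with hMd
    have hMc : Continuous M := by
      have h4 : Continuous fun α : ℝ => ((t, α) : ℝ × ℝ) := by fun_prop
      have h5 := (hφ.comp F.cb).mul (mqC F 0 0 0 0 k l m1 m2 n1 n2)
      exact h5.comp h4
    have e0 : (fun α => h (t + α) * Φ α / (h t * sin α)) = fun α => M α *
        (h (t + α) * mq 0 p0 p1 p2 0 0 0 0 0 0 (dtf h h1 g g1 t α) / (h t * sin α)) := by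
      funext α
      simp only [hΦd, hMd, mq, pow_zero]
      ring
    have hM : M π = M 0 := by
      obtain ⟨a1, a2, a3, a4⟩ := F.e0 t
      obtain ⟨c1, c2, c3, c4⟩ := F.ep t
      simp only [hMd, mq, pow_zero]
      rw [a1, a2, a3, a4, c1, c2, c3, c4, F.xgt t π 0, F.xx1 t π 0, F.xx2 t π 0, ← hpm,
        neg_pow (dtf h h1 g g1 t 0).gt, neg_pow (dtf h h1 g g1 t 0).x1,
        neg_pow (dtf h h1 g g1 t 0).x2, pow_add, pow_add]
      ring
    have e : ∀ α, aa h h1 t α * Φ α + (N α - aa h h1 t α * Φ α) = N α := fun α => by ring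
    have h3 := (hNGZ h h1 h2 hg.sm t K (M 0 * c) Φ (fun α => N α - aa h h1 t α * Φ α) ?_ ?_ ?_
      ?_ ?_).2
    · simp only [e] at h3
      exact h3
    · simp only [e]
      have h4 : Continuous fun α : ℝ => ((t, α) : ℝ × ℝ) := by fun_prop
      exact (hcont.comp h4).continuousOn
    · intro α hα
      simp only [e]
      exact hN t α (Ioo_subset_Icc_self hα)
    · intro α hα
      exact nqD F φ φ1 hφ' 0 p0 p1 p2 k l m1 m2 n1 n2 t α hα
    · rw [e0]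
      exact ((hMc.tendsto 0).mono_left nhdsWithin_le_nhds).mul hc0
    · rw [e0, ← hM]
      exact ((hMc.tendsto π).mono_left nhdsWithin_le_nhds).mul hcp
  refine ⟨fun j p0 p1 p2 ho => big 0 j p0 p1 p2 hq0 (by omega), fun hpm => ⟨?_, ?_, ?_⟩, ?_⟩
  · refine one hpm 1 0 0 rfl fun h h1 h2 g g1 g2 hg t => ?_
    obtain ⟨c, hc⟩ := (fc hABR hEBR hg).ld0 t
    refine ⟨c, ?_⟩
    simpa only [mq, pow_zero, pow_one, one_mul, mul_one] using hc
  · refine one hpm 0 1 0 rfl fun h h1 h2 g g1 g2 hg t => ?_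
    obtain ⟨c, hc⟩ := (fc hABR hEBR hg).ld1 t
    refine ⟨c, ?_⟩
    simpa only [mq, pow_zero, pow_one, one_mul, mul_one] using hc
  · refine one hpm 0 0 1 rfl fun h h1 h2 g g1 g2 hg t => ?_
    obtain ⟨c, hc⟩ := (fc hABR hEBR hg).ld2 t
    refine ⟨c, ?_⟩
    simpa only [mq, pow_zero, pow_one, one_mul, mul_one] using hc
  · rintro ⟨K, hK⟩
    refine big 2 0 0 0 0 (fun h h1 h2 g g1 g2 hg => ?_) (by norm_num)
    have F := fc hABR hEBR hg
    obtain ⟨L, hL, hbb⟩ := F.bbs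
    refine Bu.mk' (|K| * L) fun t α hα => ?_
    have k2 := F.b1 t α hα
    have h6 : 0 ≤ 1 - (dtf h h1 g g1 t α).b ^ 2 := by
      have := sq_le_one_iff_abs_le_one (dtf h h1 g g1 t α).b |>.2 k2
      linarith
    have k4 := (le_abs_self _).trans (hbb t α hα)
    calc |φ (dtf h h1 g g1 t α).b| ≤ K * (1 - (dtf h h1 g g1 t α).b ^ 2) := hK _ k2
      _ ≤ |K| * (1 - (dtf h h1 g g1 t α).b ^ 2) :=
        mul_le_mul_of_nonneg_right (le_abs_self K) h6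
      _ ≤ |K| * (L * sin α ^ 2) := mul_le_mul_of_nonneg_left k4 (abs_nonneg K)
      _ = |K| * L * sin α ^ 2 := by ring

end Pool.Agent.Lib.MP_084b88_gt.AY
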