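import Pool.Agent.Lib.MP_084b88_gt.AY.SpecP

/-!
# MP_084b88_gt, project AY: module RNG (concave functions on an interval; helper65)
-/

set_option autoImplicit false

open MeasureTheory Set Real Filter Topology
open scoped Pointwise InnerProductSpace

namespace Pool.Agent.Lib.MP_084b88_gt.AY

open Pool.Agent.Lib.MP_084b88_gt.CW Pool.Agent.Lib.MP_084b88_gt.SY Pool.Agent.Lib.MP_084b88_gt.LG

namespace RNGM

/-- Integrability of a continuous function times a bounded concave function. -/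
theorem integrable {c : ℝ → ℝ} {C : ℝ} (hc : ConcaveOn ℝ (Ioo (-1) 1) c)
    (hb : ∀ τ ∈ Ioo (-1 : ℝ) 1, 0 ≤ c τ ∧ c τ ≤ C) {G : ℝ → ℝ} (hG : Continuous G) :
    IntervalIntegrable (fun τ => G τ * c τ) volume (-1) 1 := by
  rw [intervalIntegrable_iff_integrableOn_Ioo_of_le (by norm_num)]
  obtain ⟨M, hM⟩ := (isCompact_Icc (a := (-1 : ℝ)) (b := 1)).exists_bound_of_continuousOn
    hG.continuousOn
  have hcc : ContinuousOn c (Ioo (-1) 1) := hc.continuousOn isOpen_Ioo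
  refine IntegrableOn.of_bound (C := M * C) (by simp) ?_ ?_
  · exact (hG.continuousOn.mul hcc).aestronglyMeasurable measurableSet_Ioo
  · rw [ae_restrict_iff' measurableSet_Ioo]
    refine Eventually.of_forall fun τ hτ => ?_
    rw [norm_mul]
    have h1 := hM τ (Ioo_subset_Icc_self hτ)
    have h2 := hb τ hτ
    rw [Real.norm_of_nonneg h2.1]
    exact mul_le_mul h1 h2.2 h2.1 ((norm_nonneg _).trans h1)

/-- Chord from the left end. For `-1 < a ≤ b < 1`: `c b * (1 + a) ≤ c a * (1 + b)`. -/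
theorem left {c : ℝ → ℝ} {C : ℝ} (hc : ConcaveOn ℝ (Ioo (-1) 1) c)
    (hb : ∀ τ ∈ Ioo (-1 : ℝ) 1, 0 ≤ c τ ∧ c τ ≤ C) {a b : ℝ} (ha : -1 < a) (hab : a ≤ b)
    (hb1 : b < 1) : c b * (1 + a) ≤ c a * (1 + b) := by
  rcases hab.eq_or_lt with rfl | hab
  · exact le_rfl
  -- for every e in (-1, a): c a ≥ ((b - a) c e + (a - e) c b)/(b - e) ≥ (a - e) c b/(b - e)
  have key : ∀ e ∈ Ioo (-1 : ℝ) a, c b * (a - e) ≤ c a * (b - e) := by
    intro e he
    have hbe : 0 < b - e := by linarith [he.2]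
    have hbe' : b - e ≠ 0 := hbe.ne'
    have h1 := hc.2 (show e ∈ Ioo (-1 : ℝ) 1 from ⟨he.1, by linarith [he.2]⟩)
      (show b ∈ Ioo (-1 : ℝ) 1 from ⟨by linarith, hb1⟩)
      (show 0 ≤ (b - a) / (b - e) from div_nonneg (by linarith) hbe.le)
      (show 0 ≤ (a - e) / (b - e) from div_nonneg (by linarith [he.2]) hbe.le)
      (by
        field_simp
        ring)
    have e1 : ((b - a) / (b - e)) • e + ((a - e) / (b - e)) • b = a := by
      simp only [smul_eq_mul]
      field_simp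
      ring
    rw [e1] at h1
    simp only [smul_eq_mul] at h1
    have h2 : 0 ≤ c e := (hb e ⟨he.1, by linarith [he.2]⟩).1
    have h3 : 0 ≤ (b - a) / (b - e) * c e := mul_nonneg (div_nonneg (by linarith) hbe.le) h2
    have h4 : (a - e) / (b - e) * c b ≤ c a := by linarith
    have h5 : (a - e) / (b - e) * c b * (b - e) ≤ c a * (b - e) :=
      mul_le_mul_of_nonneg_right h4 hbe.le
    have h6 : (a - e) / (b - e) * c b * (b - e) = c b * (a - e) := by field_simp
    linarith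
  have hcl : ∀ e ∈ closure (Ioo (-1 : ℝ) a), c b * (a - e) ≤ c a * (b - e) := by
    intro e he
    have hcl' : IsClosed {e : ℝ | c b * (a - e) ≤ c a * (b - e)} :=
      isClosed_le (by fun_prop) (by fun_prop)
    exact (hcl'.closure_subset_iff.2 fun e he => key e he) he
  have h := hcl (-1) (by rw [closure_Ioo (by linarith)]; exact ⟨le_rfl, ha.le⟩)
  linarith

/-- Chord from the right end. For `-1 < a ≤ b < 1`: `c a * (1 - b) ≤ c b * (1 - a)`. -/
theorem right {c : ℝ → ℝ} {C : ℝ} (hc : ConcaveOn ℝ (Ioo (-1) 1) c)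
    (hb : ∀ τ ∈ Ioo (-1 : ℝ) 1, 0 ≤ c τ ∧ c τ ≤ C) {a b : ℝ} (ha : -1 < a) (hab : a ≤ b)
    (hb1 : b < 1) : c a * (1 - b) ≤ c b * (1 - a) := by
  have hc' : ConcaveOn ℝ (Ioo (-1) 1) (fun τ => c (-τ)) := by
    refine ⟨convex_Ioo _ _, fun x hx y hy p q hp hq hpq => ?_⟩
    have h := hc.2 (show -x ∈ Ioo (-1 : ℝ) 1 from ⟨by linarith [hx.2], by linarith [hx.1]⟩)
      (show -y ∈ Ioo (-1 : ℝ) 1 from ⟨by linarith [hy.2], by linarith [hy.1]⟩) hp hq hpq
    have e1 : p • (-x) + q • (-y) = -(p • x + q • y) := by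
      simp only [smul_eq_mul]
      ring
    rw [e1] at h
    exact h
  have h := left (c := fun τ => c (-τ)) (C := C) hc'
    (fun τ hτ => hb (-τ) ⟨by linarith [hτ.2], by linarith [hτ.1]⟩) (a := -b) (b := -a)
    (by linarith) (by linarith) (by linarith)
  simp only [neg_neg] at h
  linarith

/-- The tent. -/
theorem tent (k1 k2 p : ℝ) (h1 : 0 ≤ k1) (h2 : 0 ≤ k2) :
    0 ≤ ∫ τ in (-1 : ℝ)..1, (6 * τ ^ 2 - 6 * p * τ + p ^ 2 - 1) *
      min (k1 * (1 + τ)) (k2 * (1 - τ)) := by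
  rcases (add_nonneg h1 h2).eq_or_lt with h0 | h0
  · have e1 : k1 = 0 := by linarith
    have e2 : k2 = 0 := by linarith
    subst e1
    subst e2
    simp
  set q : ℝ := (k2 - k1) / (k1 + k2) with hq
  have q1 : 1 + q = 2 * k2 / (k1 + k2) := by
    rw [hq]
    field_simp
    ring
  have q2 : 1 - q = 2 * k1 / (k1 + k2) := by
    rw [hq]
    field_simp
    ring
  have hq1 : -1 ≤ q := by
    have : 0 ≤ 2 * k2 / (k1 + k2) := by positivity
    linarith
  have hq2 : q ≤ 1 := by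
    have : 0 ≤ 2 * k1 / (k1 + k2) := by positivity
    linarith
  have hcont : Continuous fun τ : ℝ => (6 * τ ^ 2 - 6 * p * τ + p ^ 2 - 1) *
      min (k1 * (1 + τ)) (k2 * (1 - τ)) := by fun_prop
  rw [← intervalIntegral.integral_add_adjacent_intervals (b := q)
    (hcont.intervalIntegrable _ _) (hcont.intervalIntegrable _ _)]
  have hsw : ∀ τ : ℝ, k1 * (1 + τ) - k2 * (1 - τ) = (k1 + k2) * (τ - q) := by
    intro τ
    rw [hq]
    field_simp
    ring
  have i1 : ∫ τ in (-1 : ℝ)..q, (6 * τ ^ 2 - 6 * p * τ + p ^ 2 - 1) *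
      min (k1 * (1 + τ)) (k2 * (1 - τ)) =
      ∫ τ in (-1 : ℝ)..q, (6 * τ ^ 2 - 6 * p * τ + p ^ 2 - 1) * (k1 * (1 + τ)) := by
    refine intervalIntegral.integral_congr fun τ hτ => ?_
    rw [uIcc_of_le hq1] at hτ
    rw [min_eq_left]
    have := hsw τ
    nlinarith [hτ.2]
  have i2 : ∫ τ in q..1, (6 * τ ^ 2 - 6 * p * τ + p ^ 2 - 1) *
      min (k1 * (1 + τ)) (k2 * (1 - τ)) =
      ∫ τ in q..1, (6 * τ ^ 2 - 6 * p * τ + p ^ 2 - 1) * (k2 * (1 - τ)) := by
    refine intervalIntegral.integral_congr fun τ hτ => ?_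
    rw [uIcc_of_le hq2] at hτ
    rw [min_eq_right]
    have := hsw τ
    nlinarith [hτ.1]
  have j1 : ∫ τ in (-1 : ℝ)..q, (6 * τ ^ 2 - 6 * p * τ + p ^ 2 - 1) * (k1 * (1 + τ)) =
      k1 * (6 / 4 * q ^ 4 + (6 - 6 * p) / 3 * q ^ 3 + (p ^ 2 - 1 - 6 * p) / 2 * q ^ 2 +
        (p ^ 2 - 1) * q) -
      k1 * (6 / 4 * (-1) ^ 4 + (6 - 6 * p) / 3 * (-1) ^ 3 + (p ^ 2 - 1 - 6 * p) / 2 * (-1) ^ 2 +
        (p ^ 2 - 1) * (-1)) := by
    refine intervalIntegral.integral_eq_sub_of_hasDerivAt (f := fun τ =>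
      k1 * (6 / 4 * τ ^ 4 + (6 - 6 * p) / 3 * τ ^ 3 + (p ^ 2 - 1 - 6 * p) / 2 * τ ^ 2 +
        (p ^ 2 - 1) * τ)) (fun τ _ => ?_) (Continuous.intervalIntegrable (by fun_prop) _ _)
    have hd := (((((hasDerivAt_pow 4 τ).const_mul (6 / 4 : ℝ)).add
      ((hasDerivAt_pow 3 τ).const_mul ((6 - 6 * p) / 3))).add
      ((hasDerivAt_pow 2 τ).const_mul ((p ^ 2 - 1 - 6 * p) / 2))).add
      ((hasDerivAt_id τ).const_mul (p ^ 2 - 1))).const_mul k1
    refine hd.congr_deriv ?_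
    norm_num
    ring
  have j2 : ∫ τ in q..1, (6 * τ ^ 2 - 6 * p * τ + p ^ 2 - 1) * (k2 * (1 - τ)) =
      k2 * (-(6 / 4) * 1 ^ 4 + (6 + 6 * p) / 3 * 1 ^ 3 + (-(p ^ 2 - 1) - 6 * p) / 2 * 1 ^ 2 +
        (p ^ 2 - 1) * 1) -
      k2 * (-(6 / 4) * q ^ 4 + (6 + 6 * p) / 3 * q ^ 3 + (-(p ^ 2 - 1) - 6 * p) / 2 * q ^ 2 +
        (p ^ 2 - 1) * q) := by
    refine intervalIntegral.integral_eq_sub_of_hasDerivAt (f := fun τ =>
      k2 * (-(6 / 4) * τ ^ 4 + (6 + 6 * p) / 3 * τ ^ 3 + (-(p ^ 2 - 1) - 6 * p) / 2 * τ ^ 2 +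
        (p ^ 2 - 1) * τ)) (fun τ _ => ?_) (Continuous.intervalIntegrable (by fun_prop) _ _)
    have hd := (((((hasDerivAt_pow 4 τ).const_mul (-(6 / 4) : ℝ)).add
      ((hasDerivAt_pow 3 τ).const_mul ((6 + 6 * p) / 3))).add
      ((hasDerivAt_pow 2 τ).const_mul ((-(p ^ 2 - 1) - 6 * p) / 2))).add
      ((hasDerivAt_id τ).const_mul (p ^ 2 - 1))).const_mul k2
    refine hd.congr_deriv ?_
    norm_num
    ring
  rw [i1, i2, j1, j2]
  have hfin : k1 * (6 / 4 * q ^ 4 + (6 - 6 * p) / 3 * q ^ 3 + (p ^ 2 - 1 - 6 * p) / 2 * q ^ 2 +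
        (p ^ 2 - 1) * q) -
      k1 * (6 / 4 * (-1) ^ 4 + (6 - 6 * p) / 3 * (-1) ^ 3 + (p ^ 2 - 1 - 6 * p) / 2 * (-1) ^ 2 +
        (p ^ 2 - 1) * (-1)) +
      (k2 * (-(6 / 4) * 1 ^ 4 + (6 + 6 * p) / 3 * 1 ^ 3 + (-(p ^ 2 - 1) - 6 * p) / 2 * 1 ^ 2 +
        (p ^ 2 - 1) * 1) -
      k2 * (-(6 / 4) * q ^ 4 + (6 + 6 * p) / 3 * q ^ 3 + (-(p ^ 2 - 1) - 6 * p) / 2 * q ^ 2 +
        (p ^ 2 - 1) * q)) = 2 * k1 * k2 / (k1 + k2) * (q - p) ^ 2 := by
    rw [hq]
    field_simp
    ring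
  rw [hfin]
  positivity

end RNGM

open RNGM in
/-- **RNG**. -/
theorem specRNG : SpecRNG := by
  intro c C hc hb
  have hI : ∀ G : ℝ → ℝ, Continuous G → IntervalIntegrable (fun τ => G τ * c τ) volume (-1) 1 :=
    fun G hG => integrable hc hb hG
  set A : ℝ := ∫ τ in (-1 : ℝ)..1, (6 * τ ^ 2 - 1) * c τ with hA
  set B : ℝ := ∫ τ in (-1 : ℝ)..1, τ * c τ with hB
  set I : ℝ := ∫ τ in (-1 : ℝ)..1, c τ with hIdef
  have hIc : IntervalIntegrable c volume (-1) 1 := by
    have := hI (fun _ => 1) continuous_const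
    simpa using this
  -- the quadratic form
  have hexp : ∀ p : ℝ, ∫ τ in (-1 : ℝ)..1, (6 * τ ^ 2 - 6 * p * τ + p ^ 2 - 1) * c τ =
      A - 6 * p * B + p ^ 2 * I := by
    intro p
    have e1 : ∀ τ : ℝ, (6 * τ ^ 2 - 6 * p * τ + p ^ 2 - 1) * c τ =
        (6 * τ ^ 2 - 1) * c τ - 6 * p * (τ * c τ) + p ^ 2 * c τ := fun τ => by ring
    simp only [e1]
    rw [intervalIntegral.integral_add, intervalIntegral.integral_sub,
      intervalIntegral.integral_const_mul, intervalIntegral.integral_const_mul]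
    · exact hI _ (by fun_prop)
    · exact (hI (fun τ => τ) (by fun_prop)).const_mul _
    · exact (hI _ (by fun_prop)).sub ((hI (fun τ => τ) (by fun_prop)).const_mul _)
    · exact hIc.const_mul _
  have hopen : ∀ p ∈ Ioo (-1 : ℝ) 1, 0 ≤ A - 6 * p * B + p ^ 2 * I := by
    intro p hp
    rw [← hexp p]
    set d : ℝ := √(3 * p ^ 2 + 6) with hd
    have hd2 : d ^ 2 = 3 * p ^ 2 + 6 := Real.sq_sqrt (by positivity)
    have hd0 : 0 ≤ d := Real.sqrt_nonneg _
    have hp2 : p ^ 2 < 1 := by nlinarith [hp.1, hp.2]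
    have hd3 : d < 3 := by nlinarith
    set r1 : ℝ := (3 * p - d) / 6 with hr1
    set r2 : ℝ := (3 * p + d) / 6 with hr2
    have hr1l : -1 < r1 := by rw [hr1]; linarith [hp.1]
    have hr2u : r2 < 1 := by rw [hr2]; linarith [hp.2]
    have hr12 : r1 ≤ r2 := by rw [hr1, hr2]; linarith
    have hfac : ∀ τ : ℝ, 6 * τ ^ 2 - 6 * p * τ + p ^ 2 - 1 = 6 * ((τ - r1) * (τ - r2)) := by
      intro τ
      rw [hr1, hr2]
      nlinarith [hd2]
    have hc1 := (hb r1 ⟨hr1l, by linarith⟩).1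
    have hc2 := (hb r2 ⟨by linarith, hr2u⟩).1
    set k1 : ℝ := c r1 / (1 + r1) with hk1
    set k2 : ℝ := c r2 / (1 - r2) with hk2
    have hk1' : 0 ≤ k1 := div_nonneg hc1 (by linarith)
    have hk2' : 0 ≤ k2 := div_nonneg hc2 (by linarith)
    have e1 : k1 * (1 + r1) = c r1 := div_mul_cancel₀ _ (by linarith)
    have e2 : k2 * (1 - r2) = c r2 := div_mul_cancel₀ _ (by linarith)
    refine (tent k1 k2 p hk1' hk2').trans ?_
    refine intervalIntegral.integral_mono_on_of_le_Ioo (by norm_num)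
      (Continuous.intervalIntegrable (by fun_prop) _ _) (hI _ (by fun_prop)) fun τ hτ => ?_
    rw [hfac τ]
    -- k1 (1+τ) versus c τ
    have L1 : ∀ x, r1 ≤ x → x < 1 → c x ≤ k1 * (1 + x) := by
      intro x hx hx1
      have h := left hc hb hr1l hx hx1
      have h3 : 0 < 1 + r1 := by linarith
      have h4 : c x * (1 + r1) ≤ (k1 * (1 + x)) * (1 + r1) := by
        calc c x * (1 + r1) ≤ c r1 * (1 + x) := h
          _ = (k1 * (1 + x)) * (1 + r1) := by rw [← e1]; ring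
      exact le_of_mul_le_mul_right h4 h3
    have L2 : ∀ x, -1 < x → x ≤ r1 → k1 * (1 + x) ≤ c x := by
      intro x hx hx1
      have h := left hc hb hx hx1 (by linarith)
      have h3 : 0 < 1 + r1 := by linarith
      have h4 : (k1 * (1 + x)) * (1 + r1) ≤ c x * (1 + r1) := by
        calc (k1 * (1 + x)) * (1 + r1) = c r1 * (1 + x) := by rw [← e1]; ring
          _ ≤ c x * (1 + r1) := h
      exact le_of_mul_le_mul_right h4 h3
    have R1 : ∀ x, -1 < x → x ≤ r2 → c x ≤ k2 * (1 - x) := by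
      intro x hx hx1
      have h := right hc hb hx hx1 hr2u
      have h3 : 0 < 1 - r2 := by linarith
      have h4 : c x * (1 - r2) ≤ (k2 * (1 - x)) * (1 - r2) := by
        calc c x * (1 - r2) ≤ c r2 * (1 - x) := h
          _ = (k2 * (1 - x)) * (1 - r2) := by rw [← e2]; ring
      exact le_of_mul_le_mul_right h4 h3
    have R2 : ∀ x, r2 ≤ x → x < 1 → k2 * (1 - x) ≤ c x := by
      intro x hx hx1
      have h := right hc hb (by linarith) hx hx1
      have h3 : 0 < 1 - r2 := by linarith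
      have h4 : (k2 * (1 - x)) * (1 - r2) ≤ c x * (1 - r2) := by
        calc (k2 * (1 - x)) * (1 - r2) = c r2 * (1 - x) := by rw [← e2]; ring
          _ ≤ c x * (1 - r2) := h
      exact le_of_mul_le_mul_right h4 h3
    rcases le_total τ r1 with h | h
    · have hs : 0 ≤ 6 * ((τ - r1) * (τ - r2)) := by
        have := mul_nonneg_of_nonpos_of_nonpos (sub_nonpos.2 h) (sub_nonpos.2 (h.trans hr12))
        linarith
      exact mul_le_mul_of_nonneg_left ((min_le_left _ _).trans (L2 τ hτ.1 h)) hs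
    · rcases le_total r2 τ with h' | h'
      · have hs : 0 ≤ 6 * ((τ - r1) * (τ - r2)) := by
          have := mul_nonneg (sub_nonneg.2 h) (sub_nonneg.2 h')
          linarith
        exact mul_le_mul_of_nonneg_left ((min_le_right _ _).trans (R2 τ h' hτ.2)) hs
      · have hs : 6 * ((τ - r1) * (τ - r2)) ≤ 0 := by
          have := mul_nonpos_of_nonneg_of_nonpos (sub_nonneg.2 h) (sub_nonpos.2 h')
          linarith
        exact mul_le_mul_of_nonpos_left (le_min (L1 τ h hτ.2) (R1 τ hτ.1 h')) hs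
  have hcl : ∀ p ∈ Icc (-1 : ℝ) 1, 0 ≤ A - 6 * p * B + p ^ 2 * I := by
    intro p hp
    have h1 : IsClosed {p : ℝ | 0 ≤ A - 6 * p * B + p ^ 2 * I} :=
      isClosed_le continuous_const (by fun_prop)
    rw [← closure_Ioo (by norm_num : (-1 : ℝ) ≠ 1)] at hp
    exact (h1.closure_subset_iff.2 fun p hp => hopen p hp) hp
  -- |3 B| ≤ I
  have hI0 : 0 ≤ I := intervalIntegral.integral_nonneg_of_ae_restrict (by norm_num) (by
    rw [Filter.EventuallyLE, ae_restrict_iff' measurableSet_Icc]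
    have h0 : ∀ᵐ x : ℝ, x ∉ ({-1, 1} : Set ℝ) := by
      have := (Set.toFinite ({-1, 1} : Set ℝ)).measure_zero volume
      exact measure_eq_zero_iff_ae_notMem.1 this
    filter_upwards [h0] with x hx hx2
    simp only [mem_insert_iff, mem_singleton_iff, not_or] at hx
    exact (hb x ⟨lt_of_le_of_ne hx2.1 (Ne.symm hx.1), lt_of_le_of_ne hx2.2 hx.2⟩).1)
  have hlin : ∀ s : ℝ, ∫ τ in (-1 : ℝ)..1, (1 - s * τ) * c τ = I - s * B := by
    intro s
    have e1 : ∀ τ : ℝ, (1 - s * τ) * c τ = c τ - s * (τ * c τ) := fun τ => by ring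
    simp only [e1]
    rw [intervalIntegral.integral_sub, intervalIntegral.integral_const_mul]
    · exact hIc
    · exact (hI (fun τ => τ) (by fun_prop)).const_mul _
  have hB1 : 3 * B ≤ I := by
    have h := hlin 3
    have h13 := (hb (1 / 3) ⟨by norm_num, by norm_num⟩).1
    set k : ℝ := c (1 / 3) / (4 / 3) with hk
    have hk0 : 0 ≤ k := div_nonneg h13 (by norm_num)
    have e0 : k * (4 / 3) = c (1 / 3) := div_mul_cancel₀ _ (by norm_num)
    have hz : ∫ τ in (-1 : ℝ)..1, (1 - 3 * τ) * (k * (1 + τ)) = 0 := by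
      have e1 : ∀ τ : ℝ, (1 - 3 * τ) * (k * (1 + τ)) = k * (1 - 2 * τ - 3 * τ ^ 2) :=
        fun τ => by ring
      simp only [e1]
      rw [intervalIntegral.integral_const_mul, intervalIntegral.integral_eq_sub_of_hasDerivAt
        (f := fun τ => τ - τ ^ 2 - τ ^ 3) (fun τ _ => ?_)
        (Continuous.intervalIntegrable (by fun_prop) _ _)]
      · norm_num
      · have hd := ((hasDerivAt_id τ).sub (hasDerivAt_pow 2 τ)).sub (hasDerivAt_pow 3 τ)
        refine hd.congr_deriv ?_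
        norm_num
    have hm : ∫ τ in (-1 : ℝ)..1, (1 - 3 * τ) * (k * (1 + τ)) ≤
        ∫ τ in (-1 : ℝ)..1, (1 - 3 * τ) * c τ := by
      refine intervalIntegral.integral_mono_on_of_le_Ioo (by norm_num)
        (Continuous.intervalIntegrable (by fun_prop) _ _) (hI _ (by fun_prop)) fun τ hτ => ?_
      rcases le_total τ (1 / 3) with h' | h'
      · have h1 := left hc hb hτ.1 h' (by norm_num)
        have h2 : k * (1 + τ) ≤ c τ := by nlinarith
        exact mul_le_mul_of_nonneg_left h2 (by linarith)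
      · have h1 := left hc hb (by norm_num) h' hτ.2
        have h2 : c τ ≤ k * (1 + τ) := by nlinarith
        exact mul_le_mul_of_nonpos_left h2 (by linarith)
    linarith
  have hB2 : -(3 * B) ≤ I := by
    have h := hlin (-3)
    have h13 := (hb (-(1 / 3)) ⟨by norm_num, by norm_num⟩).1
    set k : ℝ := c (-(1 / 3)) / (4 / 3) with hk
    have hk0 : 0 ≤ k := div_nonneg h13 (by norm_num)
    have e0 : k * (4 / 3) = c (-(1 / 3)) := div_mul_cancel₀ _ (by norm_num)
    have hz : ∫ τ in (-1 : ℝ)..1, (1 - -3 * τ) * (k * (1 - τ)) = 0 := by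
      have e1 : ∀ τ : ℝ, (1 - -3 * τ) * (k * (1 - τ)) = k * (1 + 2 * τ - 3 * τ ^ 2) :=
        fun τ => by ring
      simp only [e1]
      rw [intervalIntegral.integral_const_mul, intervalIntegral.integral_eq_sub_of_hasDerivAt
        (f := fun τ => τ + τ ^ 2 - τ ^ 3) (fun τ _ => ?_)
        (Continuous.intervalIntegrable (by fun_prop) _ _)]
      · norm_num
      · have hd := ((hasDerivAt_id τ).add (hasDerivAt_pow 2 τ)).sub (hasDerivAt_pow 3 τ)
        refine hd.congr_deriv ?_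
        norm_num
    have hm : ∫ τ in (-1 : ℝ)..1, (1 - -3 * τ) * (k * (1 - τ)) ≤
        ∫ τ in (-1 : ℝ)..1, (1 - -3 * τ) * c τ := by
      refine intervalIntegral.integral_mono_on_of_le_Ioo (by norm_num)
        (Continuous.intervalIntegrable (by fun_prop) _ _) (hI _ (by fun_prop)) fun τ hτ => ?_
      rcases le_total τ (-(1 / 3)) with h' | h'
      · have h1 := right hc hb hτ.1 h' (by norm_num)
        have h2 : c τ ≤ k * (1 - τ) := by nlinarith
        exact mul_le_mul_of_nonpos_left h2 (by linarith)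
      · have h1 := right hc hb (by norm_num) h' hτ.2
        have h2 : k * (1 - τ) ≤ c τ := by nlinarith
        exact mul_le_mul_of_nonneg_left h2 (by linarith)
    linarith
  rcases hI0.eq_or_lt with h0 | h0
  · have hB0 : B = 0 := by linarith
    rw [← h0, hB0]
    norm_num
  · have hp : 3 * B / I ∈ Icc (-1 : ℝ) 1 := by
      constructor
      · rw [le_div_iff₀ h0]; linarith
      · rw [div_le_iff₀ h0]; linarith
    have h := hcl _ hp
    have e1 : A - 6 * (3 * B / I) * B + (3 * B / I) ^ 2 * I = (A * I - 9 * B ^ 2) / I := by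
      field_simp
      ring
    rw [e1] at h
    have h2 : 0 ≤ A * I - 9 * B ^ 2 := by
      by_contra hcon
      push Not at hcon
      have := div_neg_of_neg_of_pos hcon h0
      linarith
    linarith

end Pool.Agent.Lib.MP_084b88_gt.AY
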