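import Pool.Agent.Lib.MP_084b88_gt.AY.SpecQ
import Pool.Agent.Lib.MP_084b88_gt.AY.DIK

/-!
# MP_084b88_gt, project AY: module STP (the Steiner point lies in the body)

`h = HS K` is sublinear. For a unit vector `w`, `u` on the sphere, `c = ⟨u,w⟩` and the mirror image
`v = u - 2 c w` one has `c (h(u) - h(v)) ≤ 2 c² h(w)`; averaging over the sphere (invariance under the
reflection) gives `E[h(u) ⟨u,w⟩] ≤ h(w)/3`.
-/

set_option autoImplicit false

open MeasureTheory Set Real Filter Topology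
open scoped Pointwise InnerProductSpace

namespace Pool.Agent.Lib.MP_084b88_gt.AY

open Pool.Agent.Lib.MP_084b88_gt.CW Pool.Agent.Lib.MP_084b88_gt.SY

namespace STPM

/-- The matrix of the reflection in the plane orthogonal to `w`. -/
def rfM (w : E3) : Matrix (Fin 3) (Fin 3) ℝ :=
  Matrix.of fun i j => (if i = j then 1 else 0) - 2 * w i * w j

theorem rfM_mem {w : E3} (hw : ‖w‖ = 1) : rfM w ∈ unitary (Matrix (Fin 3) (Fin 3) ℝ) := by
  have h : w 0 ^ 2 + w 1 ^ 2 + w 2 ^ 2 = 1 := by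
    have h1 := real_inner_self_eq_norm_sq w
    rw [hw, inner_E3] at h1
    linarith
  have hM : star (rfM w) * rfM w = 1 := by
    ext i j
    rw [Matrix.mul_apply, Matrix.one_apply, Fin.sum_univ_three]
    simp only [Matrix.star_apply, star_trivial, rfM, Matrix.of_apply]
    fin_cases i <;> fin_cases j <;> simp
    · linear_combination (4 * w 0 * w 0) * h
    · linear_combination (4 * w 0 * w 1) * h
    · linear_combination (4 * w 0 * w 2) * h
    · linear_combination (4 * w 1 * w 0) * h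
    · linear_combination (4 * w 1 * w 1) * h
    · linear_combination (4 * w 1 * w 2) * h
    · linear_combination (4 * w 2 * w 0) * h
    · linear_combination (4 * w 2 * w 1) * h
    · linear_combination (4 * w 2 * w 2) * h
  exact Unitary.mem_iff.2 ⟨hM, mul_eq_one_comm.1 hM⟩

/-- The reflection. -/
def rf (w : E3) (hw : ‖w‖ = 1) : O3 := ⟨rfM w, rfM_mem hw⟩

theorem col_rf {w : E3} (hw : ‖w‖ = 1) (R : O3) :
    col (rf w hw * R) 0 = col R 0 - (2 * ⟪col R 0, w⟫_ℝ) • w := by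
  ext j
  simp only [col_apply, PiLp.sub_apply, PiLp.smul_apply, smul_eq_mul, inner_E3]
  change ((rfM w) * R.1) j 0 = _
  rw [Matrix.mul_apply, Fin.sum_univ_three]
  simp only [rfM, Matrix.of_apply]
  fin_cases j <;> simp <;> ring

theorem sublin {K : Set E3} (hHSB : SpecHSB) (hK : CC K) (x y : E3) :
    HS K (x + y) ≤ HS K x + HS K y := by
  obtain ⟨-, -, -, -, -, h6, -, -, h9⟩ := hHSB E3
  obtain ⟨z, hz, h⟩ := h9 K hK (x + y)
  rw [← h, inner_add_left]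
  exact add_le_add (h6 K hK x z hz) (h6 K hK y z hz)

/-- The pointwise inequality. -/
theorem pt {K : Set E3} (hHSB : SpecHSB) (hK : CC K) (u w : E3) :
    ⟪u, w⟫_ℝ * (HS K u - HS K (u - (2 * ⟪u, w⟫_ℝ) • w)) ≤ 2 * ⟪u, w⟫_ℝ ^ 2 * HS K w := by
  obtain ⟨-, -, -, -, -, -, -, h8, -⟩ := hHSB E3
  set c := ⟪u, w⟫_ℝ with hc
  rcases le_total 0 c with h0 | h0
  · have h1 := sublin hHSB hK (u - (2 * c) • w) ((2 * c) • w)
    rw [sub_add_cancel, h8 K hK (2 * c) w (by positivity)] at h1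
    nlinarith [mul_le_mul_of_nonneg_left h1 h0]
  · have h1 := sublin hHSB hK u ((-(2 * c)) • w)
    rw [h8 K hK (-(2 * c)) w (by linarith)] at h1
    have e : u + (-(2 * c)) • w = u - (2 * c) • w := by
      rw [neg_smul, sub_eq_add_neg]
    rw [e] at h1
    nlinarith [mul_le_mul_of_nonneg_left h1 (neg_nonneg.2 h0)]

/-- The same for the odd part. -/
theorem pt_odd {K : Set E3} (hHSB : SpecHSB) (hK : CC K) (u w : E3) :
    ⟪u, w⟫_ℝ * ((HS K u - HS K (-u)) / 2 -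
      (HS K (u - (2 * ⟪u, w⟫_ℝ) • w) - HS K (-(u - (2 * ⟪u, w⟫_ℝ) • w))) / 2) ≤
      2 * ⟪u, w⟫_ℝ ^ 2 * HS K w := by
  have h1 := pt hHSB hK u w
  have h2 := pt hHSB hK (-u) w
  rw [inner_neg_left] at h2
  have e : -u - (2 * -⟪u, w⟫_ℝ) • w = -(u - (2 * ⟪u, w⟫_ℝ) • w) := by
    rw [mul_neg, neg_smul]; abel
  rw [e] at h2
  nlinarith

/-- The Steiner point lies in every supporting half space. -/
theorem steiner_le {μ : Measure O3} (hμ : HaarO μ) (hHSB : SpecHSB) {K : Set E3} (hK : CC K)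
    {O : E3}
    (hO : ∀ x, ∫ R, ((HS K (col R 0) - HS K (-(col R 0))) / 2 - ⟪col R 0, O⟫_ℝ) *
      ⟪col R 0, x⟫_ℝ ∂μ = 0)
    {w : E3} (hw : ‖w‖ = 1) : ⟪w, O⟫_ℝ ≤ HS K w := by
  have hP := hμ.1
  have hHSc : Continuous (HS K) := (hHSB E3).2.2.2.2.1 K hK
  set m : E3 → ℝ := fun u => (HS K u - HS K (-u)) / 2 with hm
  have hmc : Continuous m := (hHSc.sub (hHSc.comp continuous_neg)).div_const 2
  have hcc : Continuous (fun R : O3 => col R 0) := continuous_col 0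
  have hci : ∀ x : E3, Continuous (fun R : O3 => ⟪col R 0, x⟫_ℝ) := fun x =>
    hcc.inner continuous_const
  have hF : Continuous (fun R : O3 => m (col R 0) * ⟪col R 0, w⟫_ℝ) := (hmc.comp hcc).mul (hci w)
  have hF2 : Continuous (fun R : O3 => m (col (rf w hw * R) 0) * ⟪col (rf w hw * R) 0, w⟫_ℝ) :=
    hF.comp (continuous_const.mul continuous_id)
  have e1 : ∫ R, m (col (rf w hw * R) 0) * ⟪col (rf w hw * R) 0, w⟫_ℝ ∂μ =
      ∫ R, m (col R 0) * ⟪col R 0, w⟫_ℝ ∂μ :=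
    LN3M.int_left hμ (rf w hw) (fun R => m (col R 0) * ⟪col R 0, w⟫_ℝ)
  have e2 : ∫ R, 2 * ⟪col R 0, w⟫_ℝ ^ 2 * HS K w ∂μ = 2 / 3 * HS K w := by
    rw [integral_mul_const, integral_const_mul, SULM.mean_sq hμ, hw]
    ring
  have hpt : ∀ R : O3, m (col R 0) * ⟪col R 0, w⟫_ℝ +
      m (col (rf w hw * R) 0) * ⟪col (rf w hw * R) 0, w⟫_ℝ ≤
      2 * ⟪col R 0, w⟫_ℝ ^ 2 * HS K w := by
    intro R
    have h1 := pt_odd hHSB hK (col R 0) w
    have h2 : ⟪col (rf w hw * R) 0, w⟫_ℝ = -⟪col R 0, w⟫_ℝ := by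
      rw [col_rf, inner_sub_left, inner_smul_left, real_inner_self_eq_norm_sq, hw]
      simp
      ring
    rw [h2, col_rf]
    refine le_trans (le_of_eq ?_) h1
    simp only [hm]
    ring
  have h3 := integral_mono (μ := μ) ((LN3M.integ hF).add (LN3M.integ hF2))
    (LN3M.integ (((hci w).pow 2).const_mul 2 |>.mul_const (HS K w))) hpt
  have h4 : ∫ R, (m (col R 0) * ⟪col R 0, w⟫_ℝ +
      m (col (rf w hw * R) 0) * ⟪col (rf w hw * R) 0, w⟫_ℝ) ∂μ =
      2 * ∫ R, m (col R 0) * ⟪col R 0, w⟫_ℝ ∂μ := by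
    rw [integral_add (LN3M.integ hF) (LN3M.integ hF2), e1]
    ring
  have h5 : 2 * ∫ R, m (col R 0) * ⟪col R 0, w⟫_ℝ ∂μ ≤ 2 / 3 * HS K w := by
    rw [← h4, ← e2]
    exact h3
  have h6 : ∫ R, m (col R 0) * ⟪col R 0, w⟫_ℝ ∂μ = ⟪O, w⟫_ℝ / 3 := by
    have h7 := hO w
    have e : ∀ R : O3, (m (col R 0) - ⟪col R 0, O⟫_ℝ) * ⟪col R 0, w⟫_ℝ =
        m (col R 0) * ⟪col R 0, w⟫_ℝ - ⟪col R 0, O⟫_ℝ * ⟪col R 0, w⟫_ℝ := fun R => by ring
    change ∫ R, (m (col R 0) - ⟪col R 0, O⟫_ℝ) * ⟪col R 0, w⟫_ℝ ∂μ = 0 at h7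
    simp only [e] at h7
    have hF3 : Continuous (fun R : O3 => ⟪col R 0, O⟫_ℝ * ⟪col R 0, w⟫_ℝ) := (hci O).mul (hci w)
    rw [integral_sub (LN3M.integ hF) (LN3M.integ hF3), DIKM.mean_pol hμ] at h7
    linarith
  rw [h6] at h5
  rw [real_inner_comm]
  linarith

end STPM

open STPM in
/-- **STP**. -/
theorem specSTP (hHSB : SpecHSB) (hMEB : SpecMEB) : SpecSTP := by
  intro μ hμ K hK hKi O hO R t
  obtain ⟨-, hmm, -⟩ := hMEB K hK hKi
  have hO' : ∀ x, ∫ R, ((HS K (col R 0) - HS K (-(col R 0))) / 2 - ⟪col R 0, O⟫_ℝ) *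
      ⟪col R 0, x⟫_ℝ ∂μ = 0 := by
    intro x
    have := hO x
    simp only [hmm] at this
    exact this
  have h1 := steiner_le hμ hHSB hK hO' (norm_col (R * rot t) 0)
  have h2 := steiner_le hμ hHSB hK hO' (w := -(col (R * rot t) 0))
    (by rw [norm_neg]; exact norm_col (R * rot t) 0)
  rw [inner_neg_left] at h2
  have e1 : mid (pr R K) t = (HS K (col (R * rot t) 0) - HS K (-(col (R * rot t) 0))) / 2 := by
    unfold mid
    rw [MEAM.sup2_pr, MEAM.sup2_pr, MEAM.col_rot_add_pi]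
  have e2 : wid (pr R K) t = HS K (col (R * rot t) 0) + HS K (-(col (R * rot t) 0)) := by
    unfold wid
    rw [MEAM.sup2_pr, MEAM.sup2_pr, MEAM.col_rot_add_pi]
  rw [e1, e2, dotu_cd, abs_le]
  constructor <;> linarith

end Pool.Agent.Lib.MP_084b88_gt.AY
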