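import Pool.Agent.Lib.MP_084b88_gt.AY.SpecP

/-!
# MP_084b88_gt, project AY: module TRA (translation; helper65)
-/

set_option autoImplicit false

open MeasureTheory Set Real Filter Topology
open scoped Pointwise InnerProductSpace

namespace Pool.Agent.Lib.MP_084b88_gt.AY

open Pool.Agent.Lib.MP_084b88_gt.CW Pool.Agent.Lib.MP_084b88_gt.SY Pool.Agent.Lib.MP_084b88_gt.LG

namespace TRAM

theorem dotu_add' (θ : ℝ) (p q : ℝ × ℝ) : dotu θ (p + q) = dotu θ p + dotu θ q := by
  unfold dotu
  simp only [Prod.fst_add, Prod.snd_add]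
  ring

theorem dotu_pi (θ : ℝ) (p : ℝ × ℝ) : dotu (θ + π) p = - dotu θ p := by
  unfold dotu
  rw [cos_add_pi, sin_add_pi]
  ring

theorem cont_dotu (θ : ℝ) : Continuous (dotu θ) := by
  unfold dotu
  fun_prop

theorem image_dotu (P : Set (ℝ × ℝ)) (w : ℝ × ℝ) (θ : ℝ) :
    dotu θ '' ((fun q => q + w) '' P) = (fun x => x + dotu θ w) '' (dotu θ '' P) := by
  rw [image_image, image_image]
  simp only [dotu_add']

theorem sup2_tra {P : Set (ℝ × ℝ)} (w : ℝ × ℝ) (hP : CC P) (θ : ℝ) :
    sup2 ((fun q => q + w) '' P) θ = sup2 P θ + dotu θ w := by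
  unfold sup2
  rw [image_dotu]
  have hb : BddAbove (dotu θ '' P) := (hP.2.1.image (cont_dotu θ)).bddAbove
  have hn : (dotu θ '' P).Nonempty := hP.2.2.image _
  exact ((OrderIso.addRight (dotu θ w)).map_csSup' hn hb).symm

theorem int_tra (P : Set (ℝ × ℝ)) (w : ℝ × ℝ) (f : ℝ × ℝ → ℝ) :
    ∫ p in (fun q => q + w) '' P, f p = ∫ q in P, f (q + w) :=
  ((measurePreserving_add_right (volume : Measure (ℝ × ℝ)) w).setIntegral_image_emb
    (measurableEmbedding_addRight w) f P)

end TRAM

open TRAM in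
/-- **TRA**. -/
theorem specTRA : SpecTRA := by
  intro P w hP
  refine ⟨⟨?_, hP.2.1.image (by fun_prop), hP.2.2.image _⟩, ?_, int_tra P w, fun θ => ?_⟩
  · have h := hP.1.translate w
    have e : (fun z => w + z) '' P = (fun q => q + w) '' P := by
      simp only [add_comm w]
    rwa [e] at h
  · have h := int_tra P w (fun _ => (1 : ℝ))
    simp only [integral_const, smul_eq_mul, mul_one, measureReal_restrict_apply, MeasurableSet.univ,
      univ_inter] at h
    exact h
  · have hs := sup2_tra w hP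
    have h1 : wid ((fun q => q + w) '' P) θ = wid P θ := by
      unfold wid
      rw [hs, hs, dotu_pi]
      ring
    have h2 : mid ((fun q => q + w) '' P) θ = mid P θ + dotu θ w := by
      unfold mid
      rw [hs, hs, dotu_pi]
      ring
    have h3 : ∀ q, dotu θ (q + w) - (mid P θ + dotu θ w) = dotu θ q - mid P θ := by
      intro q
      rw [dotu_add']
      ring
    refine ⟨hs θ, h1, h2, ?_, ?_⟩
    · unfold qf
      rw [int_tra, h1, h2]
      simp only [h3]
    · unfold mf
      rw [int_tra, h1, h2]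
      simp only [h3]

end Pool.Agent.Lib.MP_084b88_gt.AY
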