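import Pool.Agent.Lib.MP_084b88_gt.AY.SpecP

/-!
# MP_084b88_gt, project AY, module XMC: centroid-Legendre position
-/

set_option autoImplicit false

open MeasureTheory Set Real Filter Topology
open scoped Pointwise InnerProductSpace

namespace Pool.Agent.Lib.MP_084b88_gt.AY

open Pool.Agent.Lib.MP_084b88_gt.CW Pool.Agent.Lib.MP_084b88_gt.SY Pool.Agent.Lib.MP_084b88_gt.LG

namespace XMCM

theorem intOn (P : Set (ℝ × ℝ)) (hP : CC P) (f : ℝ × ℝ → ℝ) (hf : Continuous f) :
    IntegrableOn f P volume := hf.continuousOn.integrableOn_compact hP.2.1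

theorem int1 (P : Set (ℝ × ℝ)) (h : IsoC P) (s : ℝ) : ∫ p in P, dotu s p = 0 := by
  unfold dotu
  rw [integral_add, integral_mul_const, integral_mul_const, h.c1, h.c2]
  · simp
  · exact intOn P h.cc (fun p => p.1 * cos s) (by fun_prop)
  · exact intOn P h.cc (fun p => p.2 * sin s) (by fun_prop)

theorem int2 (P : Set (ℝ × ℝ)) (h : IsoC P) (s : ℝ) :
    ∫ p in P, dotu s p ^ 2 = area P / 3 := by
  have e : (fun p : ℝ × ℝ => dotu s p ^ 2) =
      fun p => p.1 ^ 2 * cos s ^ 2 + (p.1 * p.2 * (2 * cos s * sin s) + p.2 ^ 2 * sin s ^ 2) := by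
    funext p
    unfold dotu
    ring
  rw [e, integral_add, integral_add, integral_mul_const, integral_mul_const, integral_mul_const,
    h.m11, h.m22, h.m12]
  · have := sin_sq_add_cos_sq s
    linear_combination (area P / 3) * this
  · exact intOn P h.cc (fun p => p.1 * p.2 * (2 * cos s * sin s)) (by fun_prop)
  · exact intOn P h.cc (fun p => p.2 ^ 2 * sin s ^ 2) (by fun_prop)
  · exact intOn P h.cc (fun p => p.1 ^ 2 * cos s ^ 2) (by fun_prop)
  · exact intOn P h.cc (fun p => p.1 * p.2 * (2 * cos s * sin s) + p.2 ^ 2 * sin s ^ 2)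
      (by fun_prop)

theorem int0 (P : Set (ℝ × ℝ)) (a : ℝ) : ∫ _p in P, a = a * area P := by
  rw [setIntegral_const, smul_eq_mul, mul_comm]
  rfl

theorem cdotu (s : ℝ) : Continuous (dotu s) := by
  unfold dotu
  fun_prop

end XMCM

open XMCM in
theorem specXMC (hPRF : SpecPRF) (hRNG : SpecRNG) (hBNA : SpecBNA) : SpecXMC := by
  intro P h s
  have hc := cdotu s
  set w := wid P s / 2 with hw
  have hw0 : 0 < w := by rw [hw]; linarith [h.wpos s]
  set m := mid P s with hm
  have hA := h.apos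
  have hxf : xf P s = 1 / w ^ 2 := rfl
  have hgc : gc P s = m / w := rfl
  have hmf : mf P s = -(area P * gc P s) := by
    have e : (fun p : ℝ × ℝ => (dotu s p - m) / w) = fun p => dotu s p * (1 / w) + -(m / w) := by
      funext p
      field_simp
      ring
    unfold mf
    rw [e, integral_add, integral_mul_const, int1 P h s, int0, hgc]
    · ring
    · exact intOn P h.cc (fun p => dotu s p * (1 / w)) (by fun_prop)
    · exact intOn P h.cc (fun p => -(m / w)) (by fun_prop)
  have hsq : ∫ p in P, ((dotu s p - m) / w) ^ 2 =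
      area P / 3 * (1 / w ^ 2) + (m / w) ^ 2 * area P := by
    have e : (fun p : ℝ × ℝ => ((dotu s p - m) / w) ^ 2) =
        fun p => dotu s p ^ 2 * (1 / w ^ 2) + (dotu s p * (-(2 * m) / w ^ 2) + (m / w) ^ 2) := by
      funext p
      field_simp
      ring
    rw [e, integral_add, integral_add, integral_mul_const, integral_mul_const, int1 P h s,
      int2 P h s, int0]
    · ring
    · exact intOn P h.cc (fun p => dotu s p * (-(2 * m) / w ^ 2)) (by fun_prop)
    · exact intOn P h.cc (fun p => (m / w) ^ 2) (by fun_prop)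
    · exact intOn P h.cc (fun p => dotu s p ^ 2 * (1 / w ^ 2)) (by fun_prop)
    · exact intOn P h.cc (fun p => dotu s p * (-(2 * m) / w ^ 2) + (m / w) ^ 2) (by fun_prop)
  have hxm : xm P s = xf P s + 3 * gc P s ^ 2 := by
    unfold xm
    rw [← hw, ← hm, hsq, hxf, hgc]
    field_simp
  -- the range inequality
  obtain ⟨c, C, hcc, hcb, hint⟩ := hPRF P h.cc h.wpos s
  have hr := hRNG c C hcc hcb
  obtain ⟨i0, e0⟩ := hint (fun _ => 1) continuous_const
  obtain ⟨i1, e1⟩ := hint (fun τ => τ) continuous_id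
  obtain ⟨i2, e2⟩ := hint (fun τ => τ ^ 2) (by fun_prop)
  rw [← hw] at e0 e1 e2
  simp only [one_mul] at e0 i0
  have f0 : w * ∫ τ in (-1 : ℝ)..1, c τ = area P := by
    rw [← e0, int0, one_mul]
  have f1 : w * ∫ τ in (-1 : ℝ)..1, τ * c τ = -(area P * gc P s) := by
    rw [← hmf]
    exact e1.symm
  have f2 : w * ∫ τ in (-1 : ℝ)..1, τ ^ 2 * c τ = area P * xm P s / 3 := by
    rw [← e2]
    unfold xm
    rw [← hw, ← hm]
    field_simp
  have f3 : ∫ τ in (-1 : ℝ)..1, (6 * τ ^ 2 - 1) * c τ =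
      6 * (∫ τ in (-1 : ℝ)..1, τ ^ 2 * c τ) - ∫ τ in (-1 : ℝ)..1, c τ := by
    rw [← intervalIntegral.integral_const_mul, ← intervalIntegral.integral_sub (i2.const_mul 6) i0]
    refine intervalIntegral.integral_congr fun τ _ => ?_
    ring
  rw [f3] at hr
  set I0 := ∫ τ in (-1 : ℝ)..1, c τ with hI0
  set I1 := ∫ τ in (-1 : ℝ)..1, τ * c τ with hI1
  set I2 := ∫ τ in (-1 : ℝ)..1, τ ^ 2 * c τ with hI2
  have h1 : 9 * (w * I1) ^ 2 ≤ (6 * (w * I2) - w * I0) * (w * I0) := by
    have := mul_le_mul_of_nonneg_left hr (sq_nonneg w)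
    nlinarith
  rw [f0, f1, f2] at h1
  have h2 : 9 * gc P s ^ 2 ≤ 2 * xm P s - 1 := by
    have h3 : area P ^ 2 * (9 * gc P s ^ 2) ≤ area P ^ 2 * (2 * xm P s - 1) := by nlinarith
    exact le_of_mul_le_mul_left h3 (by positivity)
  have h3 := (hBNA P h.cc h.wpos h.apos s).2.1
  refine ⟨hxm, hmf, ?_, ?_⟩
  · rw [hxm] at h2
    linarith
  · rw [hxm] at h3
    nlinarith [sq_nonneg (gc P s)]

end Pool.Agent.Lib.MP_084b88_gt.AY
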