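import Pool.Agent.Lib.MP_084b88_gt.AY.EBR
import Pool.Agent.Lib.MP_084b88_gt.AY.NGZ
import Pool.Agent.Lib.MP_084b88_gt.AY.NG0
import Pool.Agent.Lib.MP_084b88_gt.AY.NF6
import Pool.Agent.Lib.MP_084b88_gt.AY.IGA
import Pool.Agent.Lib.MP_084b88_gt.AY.ACV
import Pool.Agent.Lib.MP_084b88_gt.AY.CAV
import Pool.Agent.Lib.MP_084b88_gt.AY.LEG
import Pool.Agent.Lib.MP_084b88_gt.AY.ADD
import Pool.Agent.Lib.MP_084b88_gt.AY.BAQ
import Pool.Agent.Lib.MP_084b88_gt.AY.EGF
import Pool.Agent.Lib.MP_084b88_gt.AY.KER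
import Pool.Agent.Lib.MP_084b88_gt.AY.KEY
import Pool.Agent.Lib.MP_084b88_gt.AY.E85
import Pool.Agent.Lib.MP_084b88_gt.AY.DIR
import Pool.Agent.Lib.MP_084b88_gt.AY.DIK
import Pool.Agent.Lib.MP_084b88_gt.AY.PRF
import Pool.Agent.Lib.MP_084b88_gt.AY.RNG
import Pool.Agent.Lib.MP_084b88_gt.AY.BNA
import Pool.Agent.Lib.MP_084b88_gt.AY.XMC
import Pool.Agent.Lib.MP_084b88_gt.AY.TRA
import Pool.Agent.Lib.MP_084b88_gt.AY.CEN
import Pool.Agent.Lib.MP_084b88_gt.AY.NQA
import Pool.Agent.Lib.MP_084b88_gt.AY.KPS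
import Pool.Agent.Lib.MP_084b88_gt.AY.KPC
import Pool.Agent.Lib.MP_084b88_gt.AY.STP
import Pool.Agent.Lib.MP_084b88_gt.AY.ASM
import Pool.Agent.Lib.MP_084b88_gt.AY.AS0
import Pool.Agent.Lib.MP_084b88_gt.AY.AllLG
import Pool.Agent.Lib.MP_084b88_gt.CW.AllE2
import Pool.Agent.Lib.MP_084b88_gt.CW.AllD
import Pool.Agent.Lib.MP_084b88_gt.SY.AllSY

/-!
# MP_084b88_gt, project AY: assembly of the two point calculus for arbitrary bodies
-/

set_option autoImplicit false

namespace Pool.Agent.Lib.MP_084b88_gt.AY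

open Pool.Agent.Lib.MP_084b88_gt.CW Pool.Agent.Lib.MP_084b88_gt.SY

theorem allEBR : SpecEBR := specEBR
theorem allNGZ : SpecNGZ := specNGZ SY.allABR
theorem allNG0 : SpecNG0 := specNG0 allNGZ
theorem allNF6 : SpecNF6 := specNF6 SY.allABR allEBR allNGZ allNG0
theorem allIGA : SpecIGA := specIGA CW.allHPB CW.allWMB CW.allGAG CW.allGAL
theorem allACV : SpecACV := specACV CW.allGAP CW.allGCV CW.allGAG CW.allHPB
theorem allCAV : SpecCAV := specCAV
theorem allLEG : SpecLEG := specLEG allCAV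
theorem allADD : SpecADD := specADD allCAV
theorem allBAQ : SpecBAQ := specBAQ
theorem allEGF : SpecEGF := specEGF allADD allBAQ allLEG
theorem allKER : SpecKER := specKER
theorem allKEY : SpecKEY := specKEY allEGF allKER allLEG allBAQ
theorem allE85 : SpecE85 := specE85 allKEY allLEG allCAV allBAQ
theorem allDIR : SpecDIR := specDIR allKEY allLEG allBAQ
theorem allPRF : SpecPRF := specPRF CW.allWB2 CW.allGDU
theorem allRNG : SpecRNG := specRNG
theorem allBNA : SpecBNA := specBNA allPRF LG.allMRB LG.allBHN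
theorem allXMC : SpecXMC := specXMC allPRF allRNG allBNA
theorem allTRA : SpecTRA := specTRA
theorem allCEN : SpecCEN := specCEN allTRA LG.allLEL LG.allAFQ
theorem allNQA : SpecNQA := specNQA SY.allABR allEBR allNGZ allNG0
theorem allKPS : SpecKPS := specKPS allIGA allEBR SY.allABR SY.allSWP CW.allHPB
theorem allKPC : SpecKPC := specKPC allKPS allACV CW.allGDU CW.allWB2 CW.allHPB CW.allGCV CW.allGAG
theorem allSTP : SpecSTP := specSTP CW.allHSB CW.allMEB

theorem allDI0 : SpecDI0 := specDI0 CW.allHSB CW.allMEB allE85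
theorem allAS0 : SpecAS0 := specAS0 CW.allHSB CW.allHAA CW.allMEA CW.allMEB CW.allLEN CW.allCAU CW.allRE2D LG.allDIA
  allDI0 allSTP

/-- With `SpecPLD` the spherical part and the 3D assembly are complete. -/
theorem asmOf (hPLD : SpecPLD) : SpecASM :=
  specASM CW.allHSB CW.allHAA CW.allMEA CW.allMEB CW.allLEN CW.allCAU CW.allRE2D LG.allDIA
    (specDIK CW.allHSB CW.allMEA CW.allMEB CW.allGDU allE85 allDIR hPLD) allSTP

end Pool.Agent.Lib.MP_084b88_gt.AY
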