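import Pool.Agent.Lib.MP_084b88_gt.AY.SpecT
import Pool.Agent.Lib.MP_084b88_gt.CW.RE2

/-!
# MP_084b88_gt, project AY, module THB
-/

set_option autoImplicit false

open MeasureTheory Set Real Filter Topology
open scoped Pointwise InnerProductSpace ENNReal

namespace Pool.Agent.Lib.MP_084b88_gt.AY

open Pool.Agent.Lib.MP_084b88_gt.CW

namespace THBM

open REDM

/-- reflection -/
noncomputable def dgM : Matrix (Fin 3) (Fin 3) ℝ := !![1, 0, 0; 0, 1, 0; 0, 0, -1]

theorem dgM_mem : dgM ∈ unitary (Matrix (Fin 3) (Fin 3) ℝ) := by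
  rw [Unitary.mem_iff]
  constructor <;>
  · ext i j
    rw [Matrix.mul_apply, Fin.sum_univ_three]
    fin_cases i <;> fin_cases j <;> simp [dgM, Matrix.star_apply]

noncomputable def dg : O3 := ⟨dgM, dgM_mem⟩

theorem bw_cont (hHSB : SpecHSB) (K : Set E3) (hK : CC K) : Continuous (bw K) := by
  obtain ⟨-, -, -, -, h5, -⟩ := hHSB E3
  have hc := h5 K hK
  unfold bw
  exact (hc.add (hc.comp continuous_neg)).div_const 2

theorem hs_add (hHSB : SpecHSB) (K : Set E3) (hK : CC K) (x y : E3) :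
    HS K (x + y) ≤ HS K x + HS K y := by
  obtain ⟨-, -, -, -, -, h6, -, -, h9⟩ := hHSB E3
  obtain ⟨z, hz, hzz⟩ := h9 K hK (x + y)
  rw [← hzz, inner_add_left]
  exact add_le_add (h6 K hK x z hz) (h6 K hK y z hz)

theorem bw_add (hHSB : SpecHSB) (K : Set E3) (hK : CC K) (x y : E3) :
    bw K (x + y) ≤ bw K x + bw K y := by
  unfold bw
  have h1 := hs_add hHSB K hK x y
  have h2 := hs_add hHSB K hK (-x) (-y)
  rw [show -(x + y) = -x + -y by abel]
  linarith

theorem bw_smul (hHSB : SpecHSB) (K : Set E3) (hK : CC K) (a : ℝ) (x : E3) (ha : 0 ≤ a) :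
    bw K (a • x) = a * bw K x := by
  obtain ⟨-, -, -, -, -, -, -, h8, -⟩ := hHSB E3
  unfold bw
  rw [← smul_neg, h8 K hK a x ha, h8 K hK a (-x) ha]
  ring

theorem cont_entry (i j : Fin 3) : Continuous (fun T : O3 => T.1 i j) :=
  (continuous_apply j).comp ((continuous_apply i).comp
    (show Continuous (fun R : O3 => (R.1 : Fin 3 → Fin 3 → ℝ)) from continuous_subtype_val))

theorem inv_left (μ : Measure O3) (hμ : HaarO μ) (G : O3 → ℝ) (hG : Measurable G) (S : O3) :
    ∫ R, G (S * R) ∂μ = ∫ R, G R ∂μ := by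
  have h := hμ.2.2 S
  nth_rewrite 2 [← h.map_eq]
  rw [integral_map h.measurable.aemeasurable]
  exact hG.aestronglyMeasurable

/-- The function in frame coordinates -/
noncomputable def FF' (K : Set E3) (R : O3) (a b c : ℝ) : ℝ :=
  bw K (a • col R 0 + b • col R 1 + c • col R 2)

theorem FF_cont (hHSB : SpecHSB) (K : Set E3) (hK : CC K) (R : O3) :
    Continuous (fun x : ℝ × ℝ × ℝ => FF' K R x.1 x.2.1 x.2.2) := by
  unfold FF'
  apply (bw_cont hHSB K hK).comp
  fun_prop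

theorem FF_comp (hHSB : SpecHSB) (K : Set E3) (hK : CC K) (R : O3) {X : Type}
    [TopologicalSpace X] {a b c : X → ℝ} (ha : Continuous a) (hb : Continuous b)
    (hc : Continuous c) : Continuous (fun x => FF' K R (a x) (b x) (c x)) :=
  (FF_cont hHSB K hK R).comp (f := fun x => (a x, b x, c x)) (ha.prodMk (hb.prodMk hc))

theorem step1 (hHSB : SpecHSB) (μ : Measure O3) (hμ : HaarO μ) (K : Set E3) (hK : CC K)
    (R : O3) :
    ∫ T, bw K (col T 0) ∂μ = ∫ T : O3, FF' K R (T.1 0 0) (T.1 1 0) (T.1 2 0) ∂μ := by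
  have hm : Measurable (fun T : O3 => bw K (col T 0)) :=
    ((bw_cont hHSB K hK).comp (continuous_col 0)).measurable
  rw [← inv_left μ hμ _ hm R]
  apply integral_congr_ae
  apply Filter.Eventually.of_forall
  intro T
  simp only [FF']
  rw [col_mul]

theorem step2 (hHSB : SpecHSB) (μ : Measure O3) (hμ : HaarO μ) (K : Set E3) (hK : CC K)
    (R : O3) :
    ∫ T : O3, FF' K R (T.1 0 0) (T.1 1 0) (-(T.1 2 0)) ∂μ =
      ∫ T : O3, FF' K R (T.1 0 0) (T.1 1 0) (T.1 2 0) ∂μ := by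
  have hm : Measurable (fun T : O3 => FF' K R (T.1 0 0) (T.1 1 0) (T.1 2 0)) :=
    (FF_comp hHSB K hK R (cont_entry 0 0) (cont_entry 1 0) (cont_entry 2 0)).measurable
  rw [← inv_left μ hμ _ hm dg]
  apply integral_congr_ae
  apply Filter.Eventually.of_forall
  intro T
  have h0 : (dg * T).1 0 0 = T.1 0 0 := by
    change (dgM * T.1) 0 0 = _
    rw [Matrix.mul_apply, Fin.sum_univ_three]
    simp [dgM]
  have h1 : (dg * T).1 1 0 = T.1 1 0 := by
    change (dgM * T.1) 1 0 = _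
    rw [Matrix.mul_apply, Fin.sum_univ_three]
    simp [dgM]
  have h2 : (dg * T).1 2 0 = -(T.1 2 0) := by
    change (dgM * T.1) 2 0 = _
    rw [Matrix.mul_apply, Fin.sum_univ_three]
    simp [dgM]
  simp only [h0, h1, h2]

theorem step3 (hHSB : SpecHSB) (μ : Measure O3) (hμ : HaarO μ) (K : Set E3) (hK : CC K)
    (R : O3) :
    ∫ T : O3, FF' K R (T.1 0 0) (T.1 1 0) 0 ∂μ ≤ ∫ T, bw K (col T 0) ∂μ := by
  have : IsProbabilityMeasure μ := hμ.1
  have e1 := step1 hHSB μ hμ K hK R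
  have e2 := step2 hHSB μ hμ K hK R
  have hc : ∀ (c : O3 → ℝ), Continuous c →
      Integrable (fun T : O3 => FF' K R (T.1 0 0) (T.1 1 0) (c T)) μ := fun c hc =>
    (FF_comp hHSB K hK R (cont_entry 0 0) (cont_entry 1 0) hc).integrable_of_hasCompactSupport
      (HasCompactSupport.of_compactSpace _)
  have i1 := hc (fun T => T.1 2 0) (cont_entry 2 0)
  have i2 := hc (fun T => -(T.1 2 0)) (cont_entry 2 0).neg
  have i0 := hc (fun _ => 0) continuous_const
  have h1 : ∫ T : O3, 2 * FF' K R (T.1 0 0) (T.1 1 0) 0 ∂μ ≤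
      ∫ T : O3, (FF' K R (T.1 0 0) (T.1 1 0) (T.1 2 0) +
        FF' K R (T.1 0 0) (T.1 1 0) (-(T.1 2 0))) ∂μ := by
    apply integral_mono (i0.const_mul 2) (i1.add i2)
    intro T
    simp only [FF']
    rw [← bw_smul hHSB K hK 2 _ (by norm_num)]
    refine le_trans (le_of_eq ?_) (bw_add hHSB K hK _ _)
    congr 1
    module
  rw [integral_const_mul, integral_add i1 i2, e2, ← e1] at h1
  linarith

theorem step4 (hHSB : SpecHSB) (μ : Measure O3) (hμ : HaarO μ) (K : Set E3) (hK : CC K)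
    (R : O3) (φ : ℝ) :
    ∫ T : O3, FF' K R (cos φ * T.1 0 0 - sin φ * T.1 1 0) (sin φ * T.1 0 0 + cos φ * T.1 1 0) 0 ∂μ =
      ∫ T : O3, FF' K R (T.1 0 0) (T.1 1 0) 0 ∂μ := by
  have hm : Measurable (fun T : O3 => FF' K R (T.1 0 0) (T.1 1 0) 0) :=
    (FF_comp hHSB K hK R (cont_entry 0 0) (cont_entry 1 0) continuous_const).measurable
  rw [← inv_left μ hμ _ hm (rot φ)]
  apply integral_congr_ae
  apply Filter.Eventually.of_forall
  intro T
  have h0 : (rot φ * T).1 0 0 = cos φ * T.1 0 0 - sin φ * T.1 1 0 := by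
    change (rotM φ * T.1) 0 0 = _
    rw [Matrix.mul_apply, Fin.sum_univ_three]
    simp [rotM]
    ring
  have h1 : (rot φ * T).1 1 0 = sin φ * T.1 0 0 + cos φ * T.1 1 0 := by
    change (rotM φ * T.1) 1 0 = _
    rw [Matrix.mul_apply, Fin.sum_univ_three]
    simp [rotM]
  simp only [h0, h1]

/-- `∫_0^{2π} B(cos φ r0 + sin φ r1) dφ`. -/
noncomputable def II (K : Set E3) (R : O3) : ℝ :=
  ∫ φ in (0 : ℝ)..(2 * π), FF' K R (cos φ) (sin φ) 0

theorem inner_eq (hHSB : SpecHSB) (K : Set E3) (hK : CC K) (R : O3) (t0 t1 : ℝ) :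
    ∫ φ in (0 : ℝ)..(2 * π), FF' K R (cos φ * t0 - sin φ * t1) (sin φ * t0 + cos φ * t1) 0 =
      √(t0 ^ 2 + t1 ^ 2) * II K R := by
  set z : ℂ := ⟨t0, t1⟩ with hz
  have e1 : ‖z‖ * cos (Complex.arg z) = t0 := by rw [Complex.norm_mul_cos_arg]
  have e2 : ‖z‖ * sin (Complex.arg z) = t1 := by rw [Complex.norm_mul_sin_arg]
  have h2 : ‖z‖ = √(t0 ^ 2 + t1 ^ 2) := by
    rw [Complex.norm_def, Complex.normSq_apply]
    congr 1
    simp only [hz]
    ring
  have h1 : ∀ φ : ℝ, FF' K R (cos φ * t0 - sin φ * t1) (sin φ * t0 + cos φ * t1) 0 =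
      ‖z‖ * FF' K R (cos (φ + Complex.arg z)) (sin (φ + Complex.arg z)) 0 := by
    intro φ
    simp only [FF']
    rw [← bw_smul hHSB K hK _ _ (norm_nonneg z), cos_add, sin_add]
    congr 1
    rw [smul_add, smul_add, smul_smul, smul_smul, smul_smul]
    have e3 : ‖z‖ * (cos φ * cos (Complex.arg z) - sin φ * sin (Complex.arg z)) =
        cos φ * t0 - sin φ * t1 := by
      linear_combination cos φ * e1 - sin φ * e2
    have e4 : ‖z‖ * (sin φ * cos (Complex.arg z) + cos φ * sin (Complex.arg z)) =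
        sin φ * t0 + cos φ * t1 := by
      linear_combination sin φ * e1 + cos φ * e2
    rw [e3, e4, mul_zero]
  simp only [h1]
  rw [intervalIntegral.integral_const_mul, h2]
  congr 1
  rw [intervalIntegral.integral_comp_add_right (fun φ => FF' K R (cos φ) (sin φ) 0)]
  have hper : Function.Periodic (fun φ : ℝ => FF' K R (cos φ) (sin φ) 0) (2 * π) := by
    intro φ
    simp only [cos_add_two_pi, sin_add_two_pi]
  have h3 := hper.intervalIntegral_add_eq (0 + Complex.arg z) 0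
  rw [zero_add (2 * π)] at h3
  unfold II
  rw [← h3]
  congr 1
  ring

theorem swap_O3 (μ : Measure O3) (hμ : HaarO μ) (H : O3 → ℝ → ℝ) (L : ℝ) (hL : 0 ≤ L)
    (hH : Continuous (fun x : O3 × ℝ => H x.1 x.2)) :
    ∫ φ in (0 : ℝ)..L, (∫ T, H T φ ∂μ) = ∫ T, (∫ φ in (0 : ℝ)..L, H T φ) ∂μ := by
  have : IsProbabilityMeasure μ := hμ.1
  obtain ⟨C, hC⟩ := (isCompact_univ (X := O3).prod (isCompact_Icc (a := (0 : ℝ)) (b := L))).exists_bound_of_continuousOn
    hH.continuousOn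
  have hint : Integrable (Function.uncurry H) (μ.prod (volume.restrict (Ioc (0 : ℝ) L))) := by
    have hfin : IsFiniteMeasure (volume.restrict (Ioc (0 : ℝ) L)) :=
      ⟨by rw [Measure.restrict_apply_univ, Real.volume_Ioc]; exact ENNReal.ofReal_lt_top⟩
    apply Integrable.of_bound (C := C)
    · exact hH.measurable.aestronglyMeasurable
    · have h1 : ∀ᵐ x ∂(μ.prod (volume.restrict (Ioc (0 : ℝ) L))), x ∈ (univ : Set O3) ×ˢ Ioc (0 : ℝ) L := by
        rw [← Measure.restrict_univ (μ := μ), Measure.prod_restrict]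
        exact ae_restrict_mem (MeasurableSet.univ.prod measurableSet_Ioc)
      filter_upwards [h1] with x hx
      exact hC x ⟨mem_univ _, Ioc_subset_Icc_self hx.2⟩
  simp_rw [intervalIntegral.integral_of_le hL]
  rw [integral_integral_swap hint]

theorem mean_abs (hAVH : SpecAVH) (μ : Measure O3) (hμ : HaarO μ) (y : E3) :
    ∫ T, |⟪y, col T 0⟫_ℝ| ∂μ = ‖y‖ / 2 := by
  rw [← hAVH μ hμ y]
  have hm : Measurable (fun T : O3 => |⟪y, col T 0⟫_ℝ|) :=
    (continuous_const.inner (continuous_col 0)).abs.measurable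
  rw [← inv_right μ hμ _ hm (cyc 0)]
  apply integral_congr_ae
  apply Filter.Eventually.of_forall
  intro T
  simp only
  rw [col_cyc_zero, real_inner_comm]

theorem mean_root (hAVH : SpecAVH) (hCIR : SpecCIR) (μ : Measure O3) (hμ : HaarO μ) :
    ∫ T : O3, √(T.1 0 0 ^ 2 + T.1 1 0 ^ 2) ∂μ = π / 4 := by
  have h1 : ∀ T : O3, √(T.1 0 0 ^ 2 + T.1 1 0 ^ 2) =
      1 / 2 * ∫ θ in (0 : ℝ)..π, |⟪col ((1 : O3) * cyc θ) 2, col T 0⟫_ℝ| := by
    intro T
    rw [hCIR 1 (col T 0)]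
    have h2 := norm_sq_frame 1 (col T 0)
    have e0 : ⟪col (1 : O3) 0, col T 0⟫_ℝ = T.1 0 0 := by
      rw [inner_E3]; simp only [col_apply]; simp
    have e1 : ⟪col (1 : O3) 1, col T 0⟫_ℝ = T.1 1 0 := by
      rw [inner_E3]; simp only [col_apply]; simp
    rw [e0, e1] at h2
    rw [← h2]
    rw [show T.1 0 0 ^ 2 + T.1 1 0 ^ 2 + ⟪col (1 : O3) 2, col T 0⟫_ℝ ^ 2 -
      ⟪col (1 : O3) 2, col T 0⟫_ℝ ^ 2 = T.1 0 0 ^ 2 + T.1 1 0 ^ 2 by ring]
    ring
  simp_rw [h1]
  rw [integral_const_mul, ← swap_O3 μ hμ (fun T θ => |⟪col ((1 : O3) * cyc θ) 2, col T 0⟫_ℝ|) π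
    pi_pos.le (by
      apply Continuous.abs
      exact ((continuous_col 2).comp (continuous_const.mul (continuous_cyc.comp continuous_snd))).inner
        ((continuous_col 0).comp continuous_fst))]
  simp_rw [mean_abs hAVH μ hμ]
  simp only [norm_col]
  rw [intervalIntegral.integral_const]
  simp only [sub_zero, smul_eq_mul]
  ring

end THBM

open THBM in
theorem specTHB (hHSB : SpecHSB) (hAVH : SpecAVH) (hCIR : SpecCIR) : SpecTHB := by
  intro μ hμ K hK hi R
  have : IsProbabilityMeasure μ := hμ.1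
  have hpi := pi_pos
  have hE : ∫ S, wid (pr S K) 0 / 2 ∂μ = ∫ T, bw K (col T 0) ∂μ := by
    apply integral_congr_ae
    apply Filter.Eventually.of_forall
    intro T
    simp only [bw]
    rw [RE2M.wid_eq]
  have h3 := step3 hHSB μ hμ K hK R
  have hcont : Continuous (fun x : O3 × ℝ => FF' K R (cos x.2 * x.1.1 0 0 - sin x.2 * x.1.1 1 0)
      (sin x.2 * x.1.1 0 0 + cos x.2 * x.1.1 1 0) 0) := by
    have c0 : Continuous (fun x : O3 × ℝ => x.1.1 0 0) := (cont_entry 0 0).comp continuous_fst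
    have c1 : Continuous (fun x : O3 × ℝ => x.1.1 1 0) := (cont_entry 1 0).comp continuous_fst
    have k0 : Continuous (fun x : O3 × ℝ => cos x.2) := continuous_cos.comp continuous_snd
    have k1 : Continuous (fun x : O3 × ℝ => sin x.2) := continuous_sin.comp continuous_snd
    exact FF_comp hHSB K hK R ((k0.mul c0).sub (k1.mul c1)) ((k1.mul c0).add (k0.mul c1))
      continuous_const
  have h5 := swap_O3 μ hμ (fun T φ => FF' K R (cos φ * T.1 0 0 - sin φ * T.1 1 0)
      (sin φ * T.1 0 0 + cos φ * T.1 1 0) 0) (2 * π) (by positivity) hcont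
  simp only [step4 hHSB μ hμ K hK R, inner_eq hHSB K hK R] at h5
  rw [integral_mul_const, mean_root hAVH hCIR μ hμ, intervalIntegral.integral_const] at h5
  simp only [sub_zero, smul_eq_mul] at h5
  have h6 : ∫ φ in (0 : ℝ)..(2 * π), bw K (col (R * cyc φ) 2) = II K R := by
    have e : ∀ φ : ℝ, bw K (col (R * cyc φ) 2) =
        FF' K R (cos (φ + π / 2)) (sin (φ + π / 2)) 0 := by
      intro φ
      simp only [FF']
      rw [col_cyc_two, cos_add_pi_div_two, sin_add_pi_div_two, zero_smul, add_zero]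
    simp only [e]
    rw [intervalIntegral.integral_comp_add_right (fun φ => FF' K R (cos φ) (sin φ) 0)]
    have hper : Function.Periodic (fun φ : ℝ => FF' K R (cos φ) (sin φ) 0) (2 * π) := by
      intro φ
      simp only [cos_add_two_pi, sin_add_two_pi]
    have h3 := hper.intervalIntegral_add_eq (0 + π / 2) 0
    rw [zero_add (2 * π)] at h3
    unfold II
    rw [← h3]
    congr 1
    ring
  rw [hE, h6]
  have h7 : π / 4 * (1 / (2 * π) * II K R) = 1 / (2 * π) * (π / 4 * II K R) := by ring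
  rw [h7, ← h5]
  have h8 : 1 / (2 * π) * (2 * π * ∫ T : O3, FF' K R (T.1 0 0) (T.1 1 0) 0 ∂μ) =
      ∫ T : O3, FF' K R (T.1 0 0) (T.1 1 0) 0 ∂μ := by
    field_simp
  rw [h8]
  exact h3

end Pool.Agent.Lib.MP_084b88_gt.AY
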