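import Pool.Agent.Lib.MP_084b88_gt.AY.SpecT
import Pool.Agent.Lib.MP_084b88_gt.CW.RE2

/-!
# MP_084b88_gt, project AY, module THF: thin bodies
-/

set_option autoImplicit false

open MeasureTheory Set Real Filter Topology
open scoped Pointwise InnerProductSpace ENNReal

namespace Pool.Agent.Lib.MP_084b88_gt.AY

open Pool.Agent.Lib.MP_084b88_gt.CW

namespace THFM

theorem tau_eq : 1 + taup = 3 * kap ^ 2 / 2 := by
  unfold taup
  ring

theorem kap_pos : 0 < kap := by
  unfold kap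
  positivity

/-- `G = 1/√(1+τ)` -/
noncomputable def G0 : ℝ := 1 / √(1 + taup)

theorem G0_sq : G0 ^ 2 + taup * (G0 - 0) ^ 2 + (0 : ℝ) ^ 2 / 2 ≤ 1 := by
  have h1 : 0 < 1 + taup := by rw [tau_eq]; have := kap_pos; positivity
  have h2 : G0 ^ 2 = 1 / (1 + taup) := by
    unfold G0
    rw [div_pow, Real.sq_sqrt h1.le, one_pow]
  have h3 : G0 ^ 2 + taup * (G0 - 0) ^ 2 + (0 : ℝ) ^ 2 / 2 = (1 + taup) * G0 ^ 2 := by ring
  rw [h3, h2]
  field_simp
  exact le_refl _

theorem kG : kap * G0 = √(2 / 3) := by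
  have hk := kap_pos
  have h1 : 0 < 1 + taup := by rw [tau_eq]; positivity
  unfold G0
  rw [tau_eq, mul_one_div, eq_comm]
  rw [Real.sqrt_eq_iff_mul_self_eq (by norm_num) (by positivity)]
  rw [div_mul_div_comm, Real.mul_self_sqrt (by positivity)]
  field_simp

/-- The numbers. -/
theorem num : √(8 / (3 * π)) ≤ 1 - (1 - 2 / π) * √(2 / 3 * (7 / 100)) := by
  have h1 := pi_gt_d4
  have h2 := pi_lt_d4
  have hpi := pi_pos
  have e1 : √(2 / 3 * (7 / 100)) ≤ 216025 / 1000000 := by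
    apply Real.sqrt_le_iff.2
    constructor <;> norm_num
  have e2 : √(8 / (3 * π)) ≤ 92134 / 100000 := by
    apply Real.sqrt_le_iff.2
    constructor
    · norm_num
    · rw [div_le_iff₀ (by positivity)]
      nlinarith
  have e3 : 1 - 2 / π ≤ 36341 / 100000 := by
    have : 63659 / 100000 ≤ 2 / π := by
      rw [le_div_iff₀ hpi]
      nlinarith
    linarith
  have e4 : 0 ≤ √(2 / 3 * (7 / 100)) := Real.sqrt_nonneg _
  have e5 : (1 - 2 / π) * √(2 / 3 * (7 / 100)) ≤ 36341 / 100000 * (216025 / 1000000) :=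
    mul_le_mul e3 e1 e4 (by norm_num)
  have e6 : (36341 : ℝ) / 100000 * (216025 / 1000000) ≤ 1 - 92134 / 100000 := by norm_num
  linarith

/-- Jensen for the square root. -/
theorem jensen (f : ℝ → ℝ) (hf : Continuous f) (hf0 : ∀ φ, 0 ≤ f φ) :
    1 / (2 * π) * (∫ φ in (0 : ℝ)..(2 * π), √(f φ)) ≤
      √(1 / (2 * π) * ∫ φ in (0 : ℝ)..(2 * π), f φ) := by
  have hpi := pi_pos
  set m := 1 / (2 * π) * (∫ φ in (0 : ℝ)..(2 * π), √(f φ)) with hm
  apply Real.le_sqrt_of_sq_le
  have h1 : 0 ≤ ∫ φ in (0 : ℝ)..(2 * π), (√(f φ) - m) ^ 2 :=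
    intervalIntegral.integral_nonneg (by positivity) (fun φ _ => sq_nonneg _)
  have hs : Continuous (fun φ => √(f φ)) := hf.sqrt
  have h2 : ∫ φ in (0 : ℝ)..(2 * π), (√(f φ) - m) ^ 2 =
      (∫ φ in (0 : ℝ)..(2 * π), f φ) - 2 * m * (∫ φ in (0 : ℝ)..(2 * π), √(f φ)) +
        m ^ 2 * (2 * π) := by
    have e : (fun φ => (√(f φ) - m) ^ 2) = fun φ => f φ - 2 * m * √(f φ) + m ^ 2 := by
      funext φ
      have := Real.sq_sqrt (hf0 φ)
      linear_combination this
    rw [e, intervalIntegral.integral_add, intervalIntegral.integral_sub,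
      intervalIntegral.integral_const_mul, intervalIntegral.integral_const]
    · simp only [sub_zero, smul_eq_mul]
      ring
    · exact hf.intervalIntegrable _ _
    · exact (hs.const_mul _).intervalIntegrable _ _
    · exact (hf.sub (hs.const_mul _)).intervalIntegrable _ _
    · exact continuous_const.intervalIntegrable _ _
  have h3 : ∫ φ in (0 : ℝ)..(2 * π), √(f φ) = 2 * π * m := by
    rw [hm]; field_simp
  rw [h2, h3] at h1
  have h4 : m ^ 2 * (2 * π) ≤ ∫ φ in (0 : ℝ)..(2 * π), f φ := by nlinarith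
  rw [one_div, ← div_eq_inv_mul, le_div_iff₀ (by positivity)]
  exact h4

end THFM

open THFM in
theorem specTHF (hMEA : SpecMEA) (hONE : SpecONE) (hTHA : SpecTHA)
    (hTHB : SpecTHB) : SpecTHF := by
  intro μ hμ K hK hi ⟨R1, hR1⟩ c
  have : IsProbabilityMeasure μ := hμ.1
  have hpi := pi_pos
  obtain ⟨hcc, hAm, ⟨CA, hCA⟩, hsup, hwc, ⟨b0, hb0, hbw⟩, hqm, hq, hrot⟩ := hMEA K hK hi
  set b : ℝ := ∫ S, wid (pr S K) 0 / 2 ∂μ with hb
  set Ab : ℝ := ∫ S, area (pr S K) ∂μ with hAb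
  have hwi : Integrable (fun S : O3 => wid (pr S K) 0 / 2) μ :=
    (hwc.div_const 2).integrable_of_hasCompactSupport (HasCompactSupport.of_compactSpace _)
  have hbpos : 0 < b := by
    have h1 : ∫ _S : O3, b0 / 2 ∂μ ≤ b := by
      apply integral_mono (integrable_const _) hwi
      intro S
      have := hbw S
      simp only
      linarith
    simp at h1
    linarith
  -- choose a frame with third column equal to the direction of small width
  set R : O3 := R1 * (cyc 0)⁻¹ with hRdef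
  have hcol : col R 2 = col R1 0 := by
    have h1 : R * cyc 0 = R1 := by rw [hRdef]; group
    rw [← col_cyc_zero R 0, h1]
  have hbwR : bw K (col R 2) ≤ 7 / 100 * b := by
    rw [hcol]
    have h1 : wid (pr R1 K) 0 / 2 = bw K (col R1 0) := by
      simp only [bw]; rw [RE2M.wid_eq]
    rw [← h1]
    exact hR1
  have hAb0 : 0 ≤ Ab := integral_nonneg (fun S => (hq S).1.trans (hq S).2)
  -- widths are nonnegative
  have hbwpos : ∀ S : O3, 0 < bw K (col S 2) := by
    intro S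
    have h1 : wid (pr (S * cyc 0) K) 0 / 2 = bw K (col S 2) := by
      simp only [bw]; rw [RE2M.wid_eq, col_cyc_zero]
    rw [← h1]
    have := hbw (S * cyc 0)
    linarith
  -- the criterion
  have hcrit : ∀ S : O3, 4 * √(2 / 3) * Ab * √(bw K (col S 2) / b) ≤ tt K S → Q1 K c := by
    intro S hS
    apply hONE μ hμ K hK hi b hb S G0 0 0 G0_sq
    have e : ∀ θ : ℝ, kap * (G0 - 0) * area (pr (S * cyc θ) K) + 0 * qf (pr (S * cyc θ) K) 0 +
        0 * mf (pr (S * cyc θ) K) 0 = √(2 / 3) * area (pr (S * cyc θ) K) := by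
      intro θ
      rw [← kG]; ring
    simp only [e]
    rw [intervalIntegral.integral_const_mul]
    change 4 / 3 * Ab * √(bw K (col S 2) / b) ≤ 1 / 2 * (√(2 / 3) * tt K S)
    have h1 : √(2 / 3 : ℝ) * √(2 / 3) = 2 / 3 := Real.mul_self_sqrt (by norm_num)
    have h2 : √(2 / 3 : ℝ) * (4 * √(2 / 3) * Ab * √(bw K (col S 2) / b)) ≤ √(2 / 3) * tt K S :=
      mul_le_mul_of_nonneg_left hS (Real.sqrt_nonneg _)
    have h3 : √(2 / 3 : ℝ) * (4 * √(2 / 3) * Ab * √(bw K (col S 2) / b)) =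
        8 / 3 * Ab * √(bw K (col S 2) / b) := by
      linear_combination (4 * Ab * √(bw K (col S 2) / b)) * h1
    rw [h3] at h2
    linarith
  by_contra hne
  have hall : ∀ S : O3, tt K S < 4 * √(2 / 3) * Ab * √(bw K (col S 2) / b) := by
    intro S
    by_contra h
    exact hne (hcrit S (not_lt.1 h))
  obtain ⟨hA1, hA2, hA3⟩ := hTHA μ hμ K hK hi R
  have hB1 := hTHB μ hμ K hK hi R
  -- bound of `tt K R`
  have hs23 : 0 ≤ √(2 / 3 : ℝ) := Real.sqrt_nonneg _
  have ht0 : tt K R ≤ 4 * Ab * √(2 / 3 * (7 / 100)) := by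
    have h1 : √(bw K (col R 2) / b) ≤ √(7 / 100) := by
      apply Real.sqrt_le_sqrt
      rw [div_le_iff₀ hbpos]
      exact hbwR
    have h2 : 4 * √(2 / 3) * Ab * √(bw K (col R 2) / b) ≤ 4 * √(2 / 3) * Ab * √(7 / 100) :=
      mul_le_mul_of_nonneg_left h1 (by positivity)
    have h3 : √(2 / 3 * (7 / 100) : ℝ) = √(2 / 3) * √(7 / 100) := Real.sqrt_mul (by norm_num) _
    rw [h3]
    have := hall R
    nlinarith
  -- the average over the circle
  have hxc : Continuous (fun φ : ℝ => bw K (col (R * cyc φ) 2) / b) := by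
    have h1 : Continuous (fun φ : ℝ => wid (pr (R * cyc φ * cyc 0) K) 0 / 2) :=
      (hwc.comp (((continuous_const.mul continuous_cyc)).mul continuous_const)).div_const 2
    have h2 : (fun φ : ℝ => wid (pr (R * cyc φ * cyc 0) K) 0 / 2) =
        fun φ => bw K (col (R * cyc φ) 2) := by
      funext φ
      simp only [bw]; rw [RE2M.wid_eq, col_cyc_zero]
    rw [h2] at h1
    exact h1.div_const b
  have hx0 : ∀ φ : ℝ, 0 ≤ bw K (col (R * cyc φ) 2) / b := fun φ =>
    (div_pos (hbwpos _) hbpos).le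
  have hJ := jensen _ hxc hx0
  have hmean : 1 / (2 * π) * ∫ φ in (0 : ℝ)..(2 * π), bw K (col (R * cyc φ) 2) / b ≤ 4 / π := by
    have h1 : ∫ φ in (0 : ℝ)..(2 * π), bw K (col (R * cyc φ) 2) / b =
        (∫ φ in (0 : ℝ)..(2 * π), bw K (col (R * cyc φ) 2)) / b := by
      rw [intervalIntegral.integral_div]
    rw [h1, le_div_iff₀ hpi]
    have h2 : 1 / (2 * π) * ((∫ φ in (0 : ℝ)..(2 * π), bw K (col (R * cyc φ) 2)) / b) * π =
        4 / b * (π / 4 * (1 / (2 * π) * ∫ φ in (0 : ℝ)..(2 * π), bw K (col (R * cyc φ) 2))) := by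
      ring
    rw [h2]
    calc 4 / b * (π / 4 * (1 / (2 * π) * ∫ φ in (0 : ℝ)..(2 * π), bw K (col (R * cyc φ) 2)))
        ≤ 4 / b * b := mul_le_mul_of_nonneg_left hB1 (by positivity)
      _ = 4 := by field_simp
  have hroot : 1 / (2 * π) * (∫ φ in (0 : ℝ)..(2 * π), √(bw K (col (R * cyc φ) 2) / b)) ≤
      √(4 / π) := hJ.trans (Real.sqrt_le_sqrt hmean)
  have hup : 1 / (2 * π) * (∫ φ in (0 : ℝ)..(2 * π), tt K (R * cyc φ)) ≤
      4 * √(2 / 3) * Ab * √(4 / π) := by
    have h1 : ∫ φ in (0 : ℝ)..(2 * π), tt K (R * cyc φ) ≤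
        ∫ φ in (0 : ℝ)..(2 * π), 4 * √(2 / 3) * Ab * √(bw K (col (R * cyc φ) 2) / b) := by
      apply intervalIntegral.integral_mono_on (by positivity) hA2
      · exact (hxc.sqrt.const_mul _).intervalIntegrable _ _
      · intro φ _
        exact (hall _).le
    rw [intervalIntegral.integral_const_mul] at h1
    calc 1 / (2 * π) * (∫ φ in (0 : ℝ)..(2 * π), tt K (R * cyc φ))
        ≤ 1 / (2 * π) * (4 * √(2 / 3) * Ab *
          ∫ φ in (0 : ℝ)..(2 * π), √(bw K (col (R * cyc φ) 2) / b)) :=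
          mul_le_mul_of_nonneg_left h1 (by positivity)
      _ = 4 * √(2 / 3) * Ab * (1 / (2 * π) *
          ∫ φ in (0 : ℝ)..(2 * π), √(bw K (col (R * cyc φ) 2) / b)) := by ring
      _ ≤ 4 * √(2 / 3) * Ab * √(4 / π) := mul_le_mul_of_nonneg_left hroot (by positivity)
  -- positivity of the mean area
  have hAbpos : 0 < Ab := by
    rcases hAb0.lt_or_eq with h | h
    · exact h
    · exfalso
      have h1 := hall R
      rw [← h] at h1
      simp only [mul_zero, zero_mul] at h1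
      linarith
  have hnum := num
  have h38 : √(2 / 3 : ℝ) * √(4 / π) = √(8 / (3 * π)) := by
    rw [← Real.sqrt_mul (by norm_num)]
    congr 1
    field_simp
    norm_num
  have hp : 0 ≤ 1 - 2 / π := by
    rw [sub_nonneg, div_le_one hpi]
    have := pi_gt_three
    linarith
  have h9 : (1 - 2 / π) * tt K R ≤ (1 - 2 / π) * (4 * Ab * √(2 / 3 * (7 / 100))) :=
    mul_le_mul_of_nonneg_left ht0 hp
  -- equality must hold everywhere, but `hall` is strict: use strictness at `R`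
  have hstrict : tt K R < 4 * Ab * √(2 / 3 * (7 / 100)) := by
    have h1 : √(bw K (col R 2) / b) ≤ √(7 / 100) := by
      apply Real.sqrt_le_sqrt
      rw [div_le_iff₀ hbpos]
      exact hbwR
    have h2 : 4 * √(2 / 3) * Ab * √(bw K (col R 2) / b) ≤ 4 * √(2 / 3) * Ab * √(7 / 100) :=
      mul_le_mul_of_nonneg_left h1 (by positivity)
    have h3 : √(2 / 3 * (7 / 100) : ℝ) = √(2 / 3) * √(7 / 100) := Real.sqrt_mul (by norm_num) _
    rw [h3]
    have := hall R
    nlinarith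
  have hp2 : 0 < 1 - 2 / π := by
    rw [sub_pos, div_lt_one hpi]
    have := pi_gt_three
    linarith
  have h10 : (1 - 2 / π) * tt K R < (1 - 2 / π) * (4 * Ab * √(2 / 3 * (7 / 100))) :=
    mul_lt_mul_of_pos_left hstrict hp2
  have h11 : 4 * √(2 / 3) * Ab * √(4 / π) = 4 * Ab * √(8 / (3 * π)) := by
    rw [← h38]; ring
  rw [h11] at hup
  have h12 : 4 * Ab * √(8 / (3 * π)) ≤ 4 * Ab * (1 - (1 - 2 / π) * √(2 / 3 * (7 / 100))) :=
    mul_le_mul_of_nonneg_left hnum (by positivity)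
  nlinarith

end Pool.Agent.Lib.MP_084b88_gt.AY
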