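import Pool.Agent.Lib.MP_084b88_gt.AY.THA
import Pool.Agent.Lib.MP_084b88_gt.AY.THB
import Pool.Agent.Lib.MP_084b88_gt.AY.THF
import Pool.Agent.Lib.MP_084b88_gt.CW.AllM
import Pool.Agent.Lib.MP_084b88_gt.CW.AllE2

/-!
# MP_084b88_gt, project AY, part T: assembly (thin bodies)
-/

set_option autoImplicit false

namespace Pool.Agent.Lib.MP_084b88_gt.AY

open Pool.Agent.Lib.MP_084b88_gt.CW

theorem allTHA : SpecTHA := specTHA allMIX allAVH allCIR allMEA
theorem allTHB : SpecTHB := specTHB allHSB allAVH allCIR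
theorem allTHF : SpecTHF := specTHF allMEA allONE allTHA allTHB

end Pool.Agent.Lib.MP_084b88_gt.AY
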