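import Pool.Agent.Lib.MP_084b88_gt.AY.SpecR

/-!
# MP_084b88_gt, project AY: module DAT (the data of a body in centroid-Legendre position)
-/

set_option autoImplicit false

open MeasureTheory Set Real Filter Topology
open scoped Pointwise InnerProductSpace

namespace Pool.Agent.Lib.MP_084b88_gt.AY

open Pool.Agent.Lib.MP_084b88_gt.CW Pool.Agent.Lib.MP_084b88_gt.SY Pool.Agent.Lib.MP_084b88_gt.LG

/-- **DAT**. -/
theorem specDAT (hBNA : SpecBNA) (hXMC : SpecXMC) (hCNT : SpecCNT) (hWB2 : SpecWB2) : SpecDAT := by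
  intro P hI
  obtain ⟨-, -, -, w4, -, -, -, -, -, w10, w11⟩ := hWB2
  obtain ⟨hsc, hwc⟩ := w10 P hI.cc
  have hX := hXMC P hI
  have hB := hBNA P hI.cc hI.wpos hI.apos
  obtain ⟨hqc, hqp, -⟩ := hCNT P hI.cc hI.wpos
  have hne : ∀ s, wid P s / 2 ≠ 0 := fun s => ne_of_gt (half_pos (hI.wpos s))
  have hmc : Continuous (mid P) := by
    unfold mid
    fun_prop
  have hxc : Continuous (xf P) := by
    unfold xf
    exact continuous_const.div ((hwc.div_const 2).pow 2) fun s => pow_ne_zero 2 (hne s)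
  have hgc : Continuous (gc P) := by
    unfold gc
    exact hmc.div (hwc.div_const 2) hne
  have hxm : xm P = fun s => xf P s + 3 * gc P s ^ 2 := funext fun s => (hX s).1
  have hmp : ∀ s, mid P (s + π) = -mid P s := by
    intro s
    have h1 : sup2 P (s + π + π) = sup2 P s := by
      rw [show s + π + π = s + 2 * π by ring]
      exact w4 P s
    unfold mid
    rw [h1]
    ring
  have hxp : ∀ s, xf P (s + π) = xf P s := fun s => by
    unfold xf
    rw [w11]
  have hgp : ∀ s, gc P (s + π) = -gc P s := fun s => by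
    unfold gc
    rw [w11, hmp]
    ring
  refine ⟨hxc, hgc, ?_, fun s => ?_⟩
  · unfold Rm
    rw [hxm]
    unfold Sf
    fun_prop
  · obtain ⟨h1, -, h3, h4⟩ := hX s
    obtain ⟨b1, b2, b3, b4⟩ := hB s
    rw [h1] at b1 b2 b3 b4
    refine ⟨hxp s, hgp s, ?_, h1, by nlinarith [sq_nonneg (gc P s)], b2, h3, ?_, b3, b4⟩
    · unfold Rm
      rw [hqp, hxm]
      simp only [hxp, hgp, neg_sq]
    · apply abs_le_of_sq_le_sq _ (by norm_num)
      nlinarith

end Pool.Agent.Lib.MP_084b88_gt.AY
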