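import Pool.Agent.Lib.MP_084b88_gt.AY.AllT
import Pool.Agent.Lib.MP_084b88_gt.CW.C0K
import Pool.Agent.Lib.MP_084b88_gt.CW.AllD


/-!
# MP_084b88_gt, project AY, module SYU: Q1 for all centrally symmetric bodies, from `SpecSYT (7/100)`
-/

set_option autoImplicit false

open MeasureTheory Set Real Filter Topology
open scoped Pointwise InnerProductSpace

namespace Pool.Agent.Lib.MP_084b88_gt.AY

open Pool.Agent.Lib.MP_084b88_gt.CW

/-- Q1 for a class of bodies: it is enough to treat the bodies whose minimal width is at least `7/100` of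
the mean width. -/
theorem union7 (hHAA : SpecHAA) (hMEA : SpecMEA) (hLEN : SpecLEN) (hCAU : SpecCAU)
    (hTHF : SpecTHF) (K : Set E3) (hK : CC K) (hi : (interior K).Nonempty)
    (h : ∀ V1 V2 : ℝ, STEI K V1 V2 →
      (∀ u : E3, ‖u‖ = 1 → 7 / 100 * (V1 / 2) ≤ HS K u + HS K (-u)) →
      ∀ c : ℝ, HSEC K c → 4 * c * V2 ^ 2 ≤ 3 * Real.pi * V1 * (volume K).toReal) :
    ∀ c : ℝ, Q1 K c := by
  intro c hc V1 V2 hst
  obtain ⟨μ, hμ⟩ := hHAA
  obtain ⟨hb, hV1, hV2⟩ := RE3M.mean_facts hMEA hLEN hCAU μ hμ K hK hi _ rfl V1 V2 hst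
  by_cases hthin : ∃ R : O3, wid (pr R K) 0 / 2 ≤ 7 / 100 * ∫ S, wid (pr S K) 0 / 2 ∂μ
  · exact hTHF μ hμ K hK hi hthin c hc V1 V2 hst
  · push Not at hthin
    refine h V1 V2 hst ?_ c hc
    intro u hu
    obtain ⟨R, hR⟩ := C0KM.exists_frame u hu
    have h1 := hthin (R * cyc 0)
    rw [RE2M.wid_eq, col_cyc_zero, hR] at h1
    rw [hV1]
    linarith

end Pool.Agent.Lib.MP_084b88_gt.AY
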