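import Pool.Agent.Lib.MP_084b88_gt.AY.SpecR
import Pool.Agent.Lib.MP_084b88_gt.AY.SYU
import Pool.Agent.Lib.MP_084b88_gt.AY.AS0

/-!
# MP_084b88_gt, project AY, module FUL: Q1 for all convex bodies from the planar certificate CERQ
-/

set_option autoImplicit false

open MeasureTheory Set Real Filter Topology
open scoped Pointwise InnerProductSpace

namespace Pool.Agent.Lib.MP_084b88_gt.AY

open Pool.Agent.Lib.MP_084b88_gt.CW

/-- Q1 for every convex body, from the certificate. -/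
theorem fullOf (hASM : SpecAS0) (hPLQ : SpecPLQ) (hHAA : SpecHAA) (hMEA : SpecMEA) (hLEN : SpecLEN)
    (hCAU : SpecCAU) (hTHF : SpecTHF) (T : Set GP) (W L : ℝ → ℝ) (mu : ℝ) (hmu : 0 ≤ mu)
    (hT : ∀ g ∈ T, GV8 g) (hW : ContinuousOn W (Icc (7 / 100) 2))
    (hL : ContinuousOn L (Icc (7 / 100) 2))
    (hroot : ∀ y ∈ Icc (7 / 100 : ℝ) 2,
      taup * W y ^ 2 ≤ (1 + taup) * ((1 + y) ^ 2 / (4 * y) - L y ^ 2 / 2))
    (hC : CERQ T W L mu (7 / 100)) (K : Set E3) (hK : CC K) (hi : (interior K).Nonempty) :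
    ∀ c : ℝ, Q1 K c := by
  refine union7 hHAA hMEA hLEN hCAU hTHF K hK hi fun V1 V2 hst hw c hc => ?_
  exact hASM (7 / 100) mu W L (by norm_num) (by norm_num) hmu hW hL hroot
    (hPLQ T W L mu (7 / 100) (by norm_num) (by norm_num) hmu hT hW hL hC) K hK hi V1 V2 hst hw c hc

end Pool.Agent.Lib.MP_084b88_gt.AY
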