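import Pool.Agent.Lib.MP_084b88_gt.AY.SpecV

/-!
# MP_084b88_gt, project AY, module GVK: kernel certificates give valid generators
-/

set_option autoImplicit false

open MeasureTheory Set Real Filter Topology
open scoped Pointwise InnerProductSpace

namespace Pool.Agent.Lib.MP_084b88_gt.AY

open Pool.Agent.Lib.MP_084b88_gt.CW Pool.Agent.Lib.MP_084b88_gt.SY Pool.Agent.Lib.MP_084b88_gt.LG

theorem specGVK (hXMC : SpecXMC) : SpecGVK := by
  intro g hg P hP D1 D2
  have key := hg D1 D2 P hP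
  have hEq : GI g D1 D2 (xf P) (gc P) (Rm P) =
      ∫ s in (0 : ℝ)..(2 * π), xf P s *
        ((1 - (g.rc * cos s ^ 2 + g.rs * sin s ^ 2) * xf P s) * (g.aS * Sf (xm P s) + g.aR * Rm P s) +
        (fun x1 x2 γ : ℝ => psQ g.rc g.rs x1 x2 * (g.C * γ ^ 2 + g.l * (γ * (D1 * x1 + D2 * x2)) +
          g.m * (D1 * x1 + D2 * x2) ^ 2 + g.eps - g.k * (x1 ^ 2 + x2 ^ 2 + 3 * γ ^ 2 - 3 / 4) ^ 2))
          (cos s / (wid P s / 2)) (sin s / (wid P s / 2)) (gc P s)) := by
    unfold GI
    apply intervalIntegral.integral_congr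
    intro s _
    have hw : 0 < wid P s / 2 := by have := hP.wpos s; linarith
    have hx : xm P s = xf P s + 3 * gc P s ^ 2 := (hXMC P hP s).1
    have hv : xf P s = 1 / (wid P s / 2) ^ 2 := rfl
    have hsq : √(xf P s) = 1 / (wid P s / 2) := by
      rw [hv, show (1 : ℝ) / (wid P s / 2) ^ 2 = (1 / (wid P s / 2)) ^ 2 by rw [one_div_pow]]
      exact Real.sqrt_sq (by positivity)
    have hcs : sin s ^ 2 + cos s ^ 2 = 1 := Real.sin_sq_add_cos_sq s
    have hY : YY D1 D2 (xf P) s =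
        D1 * (cos s / (wid P s / 2)) + D2 * (sin s / (wid P s / 2)) := by
      unfold YY
      rw [hsq]
      ring
    have hX : (cos s / (wid P s / 2)) ^ 2 + (sin s / (wid P s / 2)) ^ 2 = xf P s := by
      rw [hv, div_pow (cos s), div_pow (sin s), ← add_div, add_comm, hcs]
    have hpsi : psQ g.rc g.rs (cos s / (wid P s / 2)) (sin s / (wid P s / 2)) =
        1 - (g.rc * cos s ^ 2 + g.rs * sin s ^ 2) * xf P s := by
      unfold psQ
      rw [hv, div_pow (cos s), div_pow (sin s)]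
      ring
    simp only []
    rw [hpsi, hX, hx, hY]
    ring
  rw [hEq]
  exact key

end Pool.Agent.Lib.MP_084b88_gt.AY
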