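import Pool.Agent.Lib.MP_084b88_gt.AY.SpecV

/-!
# MP_084b88_gt, project AY, module GVM: monotonicity of the validity of generators
-/

set_option autoImplicit false

open MeasureTheory Set Real Filter Topology
open scoped Pointwise InnerProductSpace

namespace Pool.Agent.Lib.MP_084b88_gt.AY

open Pool.Agent.Lib.MP_084b88_gt.CW Pool.Agent.Lib.MP_084b88_gt.SY Pool.Agent.Lib.MP_084b88_gt.LG

namespace GVMM

/-- The integrand of `GI`. -/
noncomputable def gint (g : GP) (D1 D2 : ℝ) (v γ R : ℝ → ℝ) (s : ℝ) : ℝ :=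
  v s * (1 - (g.rc * cos s ^ 2 + g.rs * sin s ^ 2) * v s) *
    (g.aS * Sf (v s + 3 * γ s ^ 2) + g.aR * R s + g.C * γ s ^ 2 + g.l * (γ s * YY D1 D2 v s) +
      g.m * YY D1 D2 v s ^ 2 + g.eps - g.k * (v s + 3 * γ s ^ 2 - 3 / 4) ^ 2)

theorem cont (g : GP) (D1 D2 : ℝ) {v γ R : ℝ → ℝ} (hv : Continuous v) (hγ : Continuous γ)
    (hR : Continuous R) : Continuous (gint g D1 D2 v γ R) := by
  have hY : Continuous (YY D1 D2 v) := by
    unfold YY
    exact (hv.sqrt).mul ((continuous_const.mul Real.continuous_cos).add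
      (continuous_const.mul Real.continuous_sin))
  unfold gint Sf
  fun_prop

theorem yneg (D1 D2 : ℝ) (v : ℝ → ℝ) (s : ℝ) : YY (-D1) (-D2) v s = -YY D1 D2 v s := by
  unfold YY
  ring

/-- Monotonicity for one displacement, after the choice of the sign `σ` of `l`. -/
theorem mono (g g' : GP) (D1 D2 E1 E2 : ℝ) {v γ R : ℝ → ℝ} (hv : Continuous v)
    (hγ : Continuous γ) (hR : Continuous R) (v0 : ∀ s, 0 ≤ v s) (v1 : ∀ s, v s ≤ 1)
    (hrc : g'.rc = g.rc) (hrs : g'.rs = g.rs) (h1 : g.rc ≤ 1) (h2 : g.rs ≤ 1)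
    (haS : g'.aS = g.aS) (haR : g'.aR = g.aR)
    (hl : ∀ s, g'.l * YY D1 D2 v s = g.l * YY E1 E2 v s)
    (hY : ∀ s, YY D1 D2 v s ^ 2 = YY E1 E2 v s ^ 2)
    (hC : g.C ≤ g'.C) (hm : g.m ≤ g'.m) (he : g.eps ≤ g'.eps) (hk : g'.k ≤ g.k) :
    GI g E1 E2 v γ R ≤ GI g' D1 D2 v γ R := by
  have hpi : (0 : ℝ) ≤ 2 * π := by positivity
  have c1 := (cont g E1 E2 hv hγ hR).intervalIntegrable (μ := volume) 0 (2 * π)
  have c2 := (cont g' D1 D2 hv hγ hR).intervalIntegrable (μ := volume) 0 (2 * π)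
  have := intervalIntegral.integral_mono_on (μ := volume) hpi c1 c2 (fun s _ => ?_)
  · exact this
  · have hcs : sin s ^ 2 + cos s ^ 2 = 1 := Real.sin_sq_add_cos_sq s
    have hq : g.rc * cos s ^ 2 + g.rs * sin s ^ 2 ≤ 1 := by
      nlinarith [mul_nonneg (sub_nonneg.2 h1) (sq_nonneg (cos s)),
        mul_nonneg (sub_nonneg.2 h2) (sq_nonneg (sin s))]
    have hψ : 0 ≤ 1 - (g.rc * cos s ^ 2 + g.rs * sin s ^ 2) * v s := by
      nlinarith [mul_nonneg (sub_nonneg.2 hq) (v0 s), v1 s]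
    have hw : 0 ≤ v s * (1 - (g.rc * cos s ^ 2 + g.rs * sin s ^ 2) * v s) :=
      mul_nonneg (v0 s) hψ
    have hD : 0 ≤ (g'.C - g.C) * γ s ^ 2 + (g'.m - g.m) * YY E1 E2 v s ^ 2 + (g'.eps - g.eps) +
        (g.k - g'.k) * (v s + 3 * γ s ^ 2 - 3 / 4) ^ 2 := by
      have i1 := mul_nonneg (sub_nonneg.2 hC) (sq_nonneg (γ s))
      have i2 := mul_nonneg (sub_nonneg.2 hm) (sq_nonneg (YY E1 E2 v s))
      have i3 := mul_nonneg (sub_nonneg.2 hk) (sq_nonneg (v s + 3 * γ s ^ 2 - 3 / 4))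
      have i4 := sub_nonneg.2 he
      linarith
    have hP := mul_nonneg hw hD
    have hgl : g'.l * (γ s * YY D1 D2 v s) = g.l * (γ s * YY E1 E2 v s) := by
      have := hl s
      calc g'.l * (γ s * YY D1 D2 v s) = γ s * (g'.l * YY D1 D2 v s) := by ring
        _ = γ s * (g.l * YY E1 E2 v s) := by rw [this]
        _ = g.l * (γ s * YY E1 E2 v s) := by ring
    have hEq : gint g' D1 D2 v γ R s = gint g E1 E2 v γ R s +
        v s * (1 - (g.rc * cos s ^ 2 + g.rs * sin s ^ 2) * v s) *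
        ((g'.C - g.C) * γ s ^ 2 + (g'.m - g.m) * YY E1 E2 v s ^ 2 + (g'.eps - g.eps) +
        (g.k - g'.k) * (v s + 3 * γ s ^ 2 - 3 / 4) ^ 2) := by
      simp only [gint, hgl, hY s, hrc, hrs, haS, haR]
      ring
    rw [hEq]
    linarith

end GVMM

theorem specGVM (hDAT : SpecDAT) : SpecGVM := by
  intro g g' hg hrc hrs h1 h2 haS haR hl hC hm he hk P hP D1 D2
  obtain ⟨cv, cg, cR, hd⟩ := hDAT P hP
  have v0 : ∀ s, 0 ≤ xf P s := fun s => by
    obtain ⟨-, -, -, -, h, -⟩ := hd s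
    linarith
  have v1 : ∀ s, xf P s ≤ 1 := fun s => by
    obtain ⟨-, -, -, -, -, h, -⟩ := hd s
    nlinarith [sq_nonneg (gc P s)]
  rcases hl with hl | hl
  · exact le_trans (hg P hP D1 D2) (GVMM.mono g g' D1 D2 D1 D2 cv cg cR v0 v1 hrc hrs h1 h2 haS haR
      (fun s => by rw [hl]) (fun s => rfl) hC hm he hk)
  · exact le_trans (hg P hP (-D1) (-D2)) (GVMM.mono g g' D1 D2 (-D1) (-D2) cv cg cR v0 v1 hrc hrs h1
      h2 haS haR (fun s => by rw [hl, GVMM.yneg]; ring) (fun s => by rw [GVMM.yneg]; ring)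
      hC hm he hk)

end Pool.Agent.Lib.MP_084b88_gt.AY
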