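import Pool.Agent.Lib.MP_084b88_gt.AY.SpecV

/-!
# MP_084b88_gt, project AY, module GVX: convexity of the set of valid `(rc, rs)`
-/

set_option autoImplicit false

open MeasureTheory Set Real Filter Topology
open scoped Pointwise InnerProductSpace

namespace Pool.Agent.Lib.MP_084b88_gt.AY

open Pool.Agent.Lib.MP_084b88_gt.CW Pool.Agent.Lib.MP_084b88_gt.SY Pool.Agent.Lib.MP_084b88_gt.LG

namespace GVXM

/-- The integrand of `GI`. -/
noncomputable def gint (g : GP) (D1 D2 : ℝ) (v γ R : ℝ → ℝ) (s : ℝ) : ℝ :=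
  v s * (1 - (g.rc * cos s ^ 2 + g.rs * sin s ^ 2) * v s) *
    (g.aS * Sf (v s + 3 * γ s ^ 2) + g.aR * R s + g.C * γ s ^ 2 + g.l * (γ s * YY D1 D2 v s) +
      g.m * YY D1 D2 v s ^ 2 + g.eps - g.k * (v s + 3 * γ s ^ 2 - 3 / 4) ^ 2)

theorem cont (g : GP) (D1 D2 : ℝ) {v γ R : ℝ → ℝ} (hv : Continuous v) (hγ : Continuous γ)
    (hR : Continuous R) : Continuous (gint g D1 D2 v γ R) := by
  have hY : Continuous (YY D1 D2 v) := by
    unfold YY
    exact (hv.sqrt).mul ((continuous_const.mul Real.continuous_cos).add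
      (continuous_const.mul Real.continuous_sin))
  unfold gint Sf
  fun_prop

end GVXM

theorem specGVX (hDAT : SpecDAT) : SpecGVX := by
  intro g g' w h0 h1 hg hg' e1 e2 e3 e4 e5 e6 e7 P hP D1 D2
  obtain ⟨cv, cg, cR, -⟩ := hDAT P hP
  have a1 := hg P hP D1 D2
  have a2 := hg' P hP D1 D2
  have c1 := (GVXM.cont g D1 D2 cv cg cR).intervalIntegrable (μ := volume) 0 (2 * π)
  have c2 := (GVXM.cont g' D1 D2 cv cg cR).intervalIntegrable (μ := volume) 0 (2 * π)
  have key : GI ⟨(1 - w) * g.rc + w * g'.rc, (1 - w) * g.rs + w * g'.rs, g.aS, g.aR, g.C, g.l,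
      g.m, g.eps, g.k⟩ D1 D2 (xf P) (gc P) (Rm P) =
      (1 - w) * GI g D1 D2 (xf P) (gc P) (Rm P) + w * GI g' D1 D2 (xf P) (gc P) (Rm P) := by
    have b1 : (1 - w) * GI g D1 D2 (xf P) (gc P) (Rm P) =
        ∫ s in (0 : ℝ)..(2 * π), (1 - w) * GVXM.gint g D1 D2 (xf P) (gc P) (Rm P) s := by
      rw [intervalIntegral.integral_const_mul]
      rfl
    have b2 : w * GI g' D1 D2 (xf P) (gc P) (Rm P) =
        ∫ s in (0 : ℝ)..(2 * π), w * GVXM.gint g' D1 D2 (xf P) (gc P) (Rm P) s := by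
      rw [intervalIntegral.integral_const_mul]
      rfl
    rw [b1, b2, ← intervalIntegral.integral_add (c1.const_mul _) (c2.const_mul _)]
    unfold GI
    apply intervalIntegral.integral_congr
    intro s _
    simp only [GVXM.gint, e1, e2, e3, e4, e5, e6, e7]
    ring
  rw [key]
  have hw : 0 ≤ 1 - w := by linarith
  positivity

end Pool.Agent.Lib.MP_084b88_gt.AY
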