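import Pool.Agent.Lib.MP_084b88_gt.AY.SpecU

/-!
# MP_084b88_gt, project AY, module KEB: the binomial inequality
-/

set_option autoImplicit false

open MeasureTheory Set Real Filter Topology
open scoped Pointwise InnerProductSpace

namespace Pool.Agent.Lib.MP_084b88_gt.AY

open Pool.Agent.Lib.MP_084b88_gt.CW Pool.Agent.Lib.MP_084b88_gt.SY Pool.Agent.Lib.MP_084b88_gt.LG

namespace KEBM

theorem binom (a e : ℝ) (n : ℕ) :
    2 * a ^ (2 * n + 2) + (2 * (n : ℝ) + 1) * (2 * (n : ℝ) + 2) * (a ^ (2 * n) * e ^ 2) ≤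
        (e + a) ^ (2 * n + 2) + (e - a) ^ (2 * n + 2) ∧
      4 * ((n : ℝ) + 1) * (a ^ (2 * n + 2) * e ^ 2) ≤
        e * a * ((e + a) ^ (2 * n + 2) - (e - a) ^ (2 * n + 2)) := by
  induction n with
  | zero =>
    constructor
    · simp
      nlinarith [sq_nonneg a]
    · simp
      nlinarith [sq_nonneg a]
  | succ n ih =>
    obtain ⟨h1, h2⟩ := ih
    have hA : 0 ≤ a ^ (2 * n) := by rw [pow_mul]; positivity
    have hE : 0 ≤ e ^ 2 := sq_nonneg e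
    have hA2 : 0 ≤ a ^ 2 := sq_nonneg a
    have hn : (0 : ℝ) ≤ n := Nat.cast_nonneg n
    have e0 : a ^ (2 * n + 2) = a ^ (2 * n) * a ^ 2 := by rw [pow_add]
    have e1 : (e + a) ^ (2 * (n + 1) + 2) + (e - a) ^ (2 * (n + 1) + 2) =
        (e ^ 2 + a ^ 2) * ((e + a) ^ (2 * n + 2) + (e - a) ^ (2 * n + 2)) +
          2 * (e * a * ((e + a) ^ (2 * n + 2) - (e - a) ^ (2 * n + 2))) := by ring
    have e2 : e * a * ((e + a) ^ (2 * (n + 1) + 2) - (e - a) ^ (2 * (n + 1) + 2)) =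
        (e ^ 2 + a ^ 2) * (e * a * ((e + a) ^ (2 * n + 2) - (e - a) ^ (2 * n + 2))) +
          2 * (e ^ 2 * a ^ 2) * ((e + a) ^ (2 * n + 2) + (e - a) ^ (2 * n + 2)) := by ring
    have e3 : a ^ (2 * (n + 1) + 2) = a ^ (2 * n) * a ^ 2 * a ^ 2 := by ring
    have e4 : a ^ (2 * (n + 1)) = a ^ (2 * n) * a ^ 2 := by ring
    rw [e1, e2, e3, e4]
    rw [e0] at h1 h2
    set S := (e + a) ^ (2 * n + 2) + (e - a) ^ (2 * n + 2) with hS
    set D := e * a * ((e + a) ^ (2 * n + 2) - (e - a) ^ (2 * n + 2)) with hD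
    set A := a ^ (2 * n) with hAd
    have k0 : 0 ≤ A * a ^ 2 * e ^ 2 := by positivity
    have k1 : 0 ≤ A * e ^ 2 := by positivity
    have hS1 : 2 * (A * a ^ 2) ≤ S := by
      have : 0 ≤ (2 * (n : ℝ) + 1) * (2 * (n : ℝ) + 2) * (A * e ^ 2) := by positivity
      linarith
    have hD0 : 0 ≤ D := le_trans (by positivity) h2
    have m1 : e ^ 2 * (2 * (A * a ^ 2)) ≤ e ^ 2 * S := mul_le_mul_of_nonneg_left hS1 hE
    have m2 : a ^ 2 * (2 * (A * a ^ 2) + (2 * (n : ℝ) + 1) * (2 * (n : ℝ) + 2) * (A * e ^ 2)) ≤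
        a ^ 2 * S := mul_le_mul_of_nonneg_left h1 hA2
    have m3 : a ^ 2 * (4 * ((n : ℝ) + 1) * (A * a ^ 2 * e ^ 2)) ≤ a ^ 2 * D :=
      mul_le_mul_of_nonneg_left h2 hA2
    have m4 : 0 ≤ e ^ 2 * D := mul_nonneg hE hD0
    have m5 : 2 * (e ^ 2 * a ^ 2) * (2 * (A * a ^ 2)) ≤ 2 * (e ^ 2 * a ^ 2) * S :=
      mul_le_mul_of_nonneg_left hS1 (by positivity)
    push_cast
    constructor
    · nlinarith [m1, m2, h2]
    · nlinarith [m3, m4, m5]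

theorem ww_pos (n : ℕ) : 0 < ww n := by
  unfold ww
  apply Finset.prod_pos
  intro i _
  positivity

end KEBM

open KEBM in
theorem specKEB : SpecKEB := by
  intro n a e
  have hb := (binom a e n).1
  have hw := ww_pos n
  have hn : (0 : ℝ) ≤ n := Nat.cast_nonneg n
  have h1 : mu n * ww n = 1 / (((n : ℝ) + 1) * (2 * (n : ℝ) + 1)) := by
    unfold mu
    field_simp
  set c : ℝ := 1 / (((n : ℝ) + 1) * (2 * (n : ℝ) + 1)) with hc
  have hcp : 0 < c := by rw [hc]; positivity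
  have h2 : 1 / ((2 * (n : ℝ) + 1) * (2 * (n : ℝ) + 2)) = c / 2 := by
    rw [hc]
    field_simp
  have h3 : c * ((2 * (n : ℝ) + 1) * (2 * (n : ℝ) + 2)) = 2 := by
    rw [hc]
    field_simp
  have g : ∀ x : ℝ, gp n x = mu n * x ^ 2 / 2 - c / 2 * x ^ (2 * n + 2) := by
    intro x
    unfold gp
    rw [div_eq_mul_one_div (x ^ (2 * n + 2)), h2]
    ring
  unfold kk gN
  rw [g, g, g, g]
  have h4 : (-1 : ℝ) ^ (2 * n + 2) = 1 := by
    rw [show 2 * n + 2 = 2 * (n + 1) by ring, pow_mul]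
    norm_num
  have h4' : (1 : ℝ) ^ (2 * n + 2) = 1 := one_pow _
  rw [h4, h4']
  have h5 : c / 2 * (2 * a ^ (2 * n + 2) + (2 * (n : ℝ) + 1) * (2 * (n : ℝ) + 2) * (a ^ (2 * n) * e ^ 2)) ≤
      c / 2 * ((e + a) ^ (2 * n + 2) + (e - a) ^ (2 * n + 2)) :=
    mul_le_mul_of_nonneg_left hb (by positivity)
  have h6 : c / 2 * ((2 * (n : ℝ) + 1) * (2 * (n : ℝ) + 2) * (a ^ (2 * n) * e ^ 2)) =
      a ^ (2 * n) * e ^ 2 := by
    linear_combination (a ^ (2 * n) * e ^ 2 / 2) * h3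
  have h7 : mu n / 2 * (2 * (1 - a ^ 2) - 2 * ww n * (1 - a ^ (2 * n + 2))) =
      mu n * (1 - a ^ 2) - c * (1 - a ^ (2 * n + 2)) := by
    linear_combination (-(1 - a ^ (2 * n + 2))) * h1
  rw [h7]
  rw [mul_add, h6] at h5
  have h8 : mu n * (1 : ℝ) ^ 2 / 2 - c / 2 * 1 + (mu n * (-1) ^ 2 / 2 - c / 2 * 1) -
        (mu n * (e + a) ^ 2 / 2 - c / 2 * (e + a) ^ (2 * n + 2)) -
      (mu n * (e - a) ^ 2 / 2 - c / 2 * (e - a) ^ (2 * n + 2)) =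
      mu n * (1 - a ^ 2 - e ^ 2) - c +
        c / 2 * ((e + a) ^ (2 * n + 2) + (e - a) ^ (2 * n + 2)) := by ring
  rw [h8]
  have h9 : mu n * (1 - a ^ 2) - c * (1 - a ^ (2 * n + 2)) + (a ^ (2 * n) - mu n) * e ^ 2 =
      mu n * (1 - a ^ 2 - e ^ 2) - c + (c / 2 * (2 * a ^ (2 * n + 2)) + a ^ (2 * n) * e ^ 2) := by
    ring
  rw [h9]
  linarith [h5]

end Pool.Agent.Lib.MP_084b88_gt.AY
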