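import Pool.Agent.Lib.MP_084b88_gt.AY.SpecR
import Pool.Agent.Lib.MP_084b88_gt.CW.GSM

/-!
# MP_084b88_gt, project AY: module KPD (the kernel principle for all convex bodies, closed bound for `γ`)
-/

set_option autoImplicit false

open MeasureTheory Set Real Filter Topology
open scoped Pointwise InnerProductSpace

namespace Pool.Agent.Lib.MP_084b88_gt.AY

open Pool.Agent.Lib.MP_084b88_gt.CW Pool.Agent.Lib.MP_084b88_gt.SY

namespace KPDM

/-- a continuous `π`-periodic function attains its infimum and supremum -/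
theorem attain {f : ℝ → ℝ} (hc : Continuous f) (hper : ∀ θ, f (θ + π) = f θ) :
    (∃ x, f x = ⨅ s : ℝ, f s) ∧ (∃ y, f y = ⨆ s : ℝ, f s) := by
  have hP : Function.Periodic f π := hper
  have hne : (Icc (0 : ℝ) π).Nonempty := ⟨0, left_mem_Icc.2 Real.pi_pos.le⟩
  obtain ⟨x, -, hx⟩ := isCompact_Icc.exists_isMinOn hne hc.continuousOn
  obtain ⟨y, -, hy⟩ := isCompact_Icc.exists_isMaxOn hne hc.continuousOn
  have h1 : ∀ θ, f x ≤ f θ := fun θ => by
    obtain ⟨z, hz, hz2⟩ := hP.exists_mem_Ico₀ Real.pi_pos θ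
    rw [hz2]
    exact hx ⟨hz.1, hz.2.le⟩
  have h2 : ∀ θ, f θ ≤ f y := fun θ => by
    obtain ⟨z, hz, hz2⟩ := hP.exists_mem_Ico₀ Real.pi_pos θ
    rw [hz2]
    exact hy ⟨hz.1, hz.2.le⟩
  have b1 : BddBelow (range f) := ⟨f x, by rintro _ ⟨s, rfl⟩; exact h1 s⟩
  have b2 : BddAbove (range f) := ⟨f y, by rintro _ ⟨s, rfl⟩; exact h2 s⟩
  exact ⟨⟨x, le_antisymm (le_ciInf h1) (ciInf_le b1 x)⟩,
    ⟨y, le_antisymm (le_ciSup b2 y) (ciSup_le h2)⟩⟩

theorem cls {P : Set (ℝ × ℝ)} (hW1 : ∀ θ, ∀ p ∈ P, dotu θ p ≤ sup2 P θ)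
    (hW2 : ∀ θ, ∃ p ∈ P, dotu θ p = sup2 P θ) (φ α : ℝ) :
    2 * cos α * sup2 P φ ≤ sup2 P (φ + α) + sup2 P (φ - α) := by
  obtain ⟨p, hp, hpe⟩ := hW2 φ
  rw [← hpe]
  refine le_trans (le_of_eq ?_) (add_le_add (hW1 (φ + α) p hp) (hW1 (φ - α) p hp))
  unfold dotu
  rw [cos_add, sin_add, cos_sub, sin_sub]
  ring

/-- The density. -/
noncomputable def FF' (w : ℝ → ℝ → ℝ → ℝ) (t B g : ℝ) : ℝ :=
  w (cos t / B) (sin t / B) (g / B) / B ^ 2

theorem FF'_cont {w : ℝ → ℝ → ℝ → ℝ} (hw : Continuous (fun x : ℝ × ℝ × ℝ => w x.1 x.2.1 x.2.2)) :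
    ContinuousOn (fun x : ℝ × ℝ × ℝ => FF' w x.1 x.2.1 x.2.2) {x | 0 < x.2.1} := by
  have hne : ∀ x ∈ {x : ℝ × ℝ × ℝ | 0 < x.2.1}, x.2.1 ≠ 0 := fun x hx => ne_of_gt hx
  have h0 : ContinuousOn (fun x : ℝ × ℝ × ℝ => x.2.1) {x | 0 < x.2.1} := by fun_prop
  have h1 : ContinuousOn (fun x : ℝ × ℝ × ℝ => cos x.1 / x.2.1) {x | 0 < x.2.1} :=
    ContinuousOn.div (by fun_prop) h0 hne
  have h2 : ContinuousOn (fun x : ℝ × ℝ × ℝ => sin x.1 / x.2.1) {x | 0 < x.2.1} :=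
    ContinuousOn.div (by fun_prop) h0 hne
  have h3 : ContinuousOn (fun x : ℝ × ℝ × ℝ => x.2.2 / x.2.1) {x | 0 < x.2.1} :=
    ContinuousOn.div (by fun_prop) h0 hne
  have h4 : ContinuousOn (fun x : ℝ × ℝ × ℝ =>
      w (cos x.1 / x.2.1) (sin x.1 / x.2.1) (x.2.2 / x.2.1)) {x | 0 < x.2.1} :=
    hw.comp_continuousOn (h1.prodMk (h2.prodMk h3))
  exact h4.div (h0.pow 2) fun x hx => pow_ne_zero 2 (hne x hx)

end KPDM

open KPDM in
/-- **KPD**. -/
theorem specKPD (hKPS : SpecKPS) (hAC2 : SpecAC2) (hGDU : SpecGDU) (hWB2 : SpecWB2)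
    (hHPB : SpecHPB) (hGCV : SpecGCV) (hGAG : SpecGAG) : SpecKPD := by
  intro n ω G G1 G2 N Γ v1 v2 hΓpos hv1 hω hG hG1 hG2 hNul hKer P hP hw hv hgc
  obtain ⟨w1, w2, w3, w4, -, -, -, -, -, w10, w11⟩ := hWB2
  obtain ⟨Λ, hΛ0, -, hlip⟩ := w3 P hP
  set H : ℝ → ℝ := sup2 P with hH
  have hBpos : ∀ θ, 0 < Bh H θ := fun θ => half_pos (hw θ)
  have hper : ∀ θ, H (θ + 2 * π) = H θ := fun θ => w4 P θ
  have hcl : ∀ φ α, 2 * cos α * H φ ≤ H (φ + α) + H (φ - α) := fun φ α =>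
    cls (w1 P hP) (w2 P hP) φ α
  have hrel : ∀ θ, |gh H θ| ≤ Γ * Bh H θ := by
    intro t
    have h4 : |gh H t / Bh H t| ≤ Γ := hgc t
    rw [abs_div, abs_of_pos (hBpos t), div_le_iff₀ (hBpos t)] at h4
    exact h4
  obtain ⟨M, c, hRP, hlow, hup, hrl, hconv⟩ :=
    hAC2 H Λ Γ hΛ0 hΓpos hlip hper hBpos hcl hrel
  have hHc : Continuous H := (w10 P hP).1
  have hBc : Continuous (Bh H) := by
    unfold Bh
    fun_prop
  have hBper : ∀ θ, Bh H (θ + π) = Bh H θ := by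
    intro θ
    have := w11 P θ
    show wid P (θ + π) / 2 = wid P θ / 2
    rw [this]
  obtain ⟨⟨x, hx⟩, ⟨y, hy⟩⟩ := attain hBc hBper
  have hF : ∀ i, ContinuousOn (fun x : ℝ × ℝ × ℝ => FF' (ω i) x.1 x.2.1 x.2.2)
      {x | 0 < x.2.1} := fun i => FF'_cont (hω i)
  have e : ∀ i, (fun t => ω i (cos t / (wid P t / 2)) (sin t / (wid P t / 2)) (gc P t) /
        (wid P t / 2) ^ 2 * ∫ p in P, G i ((dotu t p - mid P t) / (wid P t / 2))) =
      fun t => FF' (ω i) t (Bh H t) (gh H t) * IG (G i) H t := by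
    intro i
    funext t
    rw [hGDU P hP hw (G i) (hG i) t]
    rfl
  refine ⟨fun i => ?_, ?_⟩
  · rw [e i]
    exact (hconv (FF' (ω i)) (G i) (hF i) (hG i)).1
  · have e2 : ∀ i, ∫ t in (0 : ℝ)..(2 * π), ω i (cos t / (wid P t / 2)) (sin t / (wid P t / 2))
        (gc P t) / (wid P t / 2) ^ 2 * ∫ p in P, G i ((dotu t p - mid P t) / (wid P t / 2)) =
        ∫ t in (0 : ℝ)..(2 * π), FF' (ω i) t (Bh H t) (gh H t) * IG (G i) H t := by
      intro i
      rw [← e i]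
    simp only [e2]
    have hlim : Tendsto (fun m => ∑ i, ∫ t in (0 : ℝ)..(2 * π),
        FF' (ω i) t (Bh (hp (M m) (c m)) t) (gh (hp (M m) (c m)) t) *
          IG (G i) (hp (M m) (c m)) t) atTop
        (𝓝 (∑ i, ∫ t in (0 : ℝ)..(2 * π), FF' (ω i) t (Bh H t) (gh H t) * IG (G i) H t)) :=
      tendsto_finsetSum _ fun i _ => (hconv (FF' (ω i)) (G i) (hF i) (hG i)).2
    refine ge_of_tendsto' hlim ?_
    intro m
    set β : ℝ := ⨅ s : ℝ, Bh H s with hβ
    have hβpos : 0 < β := by rw [← hx]; exact hBpos x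
    have hBm : ∀ t, β ≤ Bh (hp (M m) (c m)) t := hlow m
    have hBm0 : ∀ t, 0 < Bh (hp (M m) (c m)) t := fun t => hβpos.trans_le (hBm t)
    have hk := hKPS n ω G G1 G2 N Γ v1 v2 hv1 hω hG hG1 hG2 hNul hKer (M m) (c m) (hRP m) ?_ ?_
    · have hint : ∀ i : Fin n, IntervalIntegrable (fun t =>
          FF' (ω i) t (Bh (hp (M m) (c m)) t) (gh (hp (M m) (c m)) t) *
          IG (G i) (hp (M m) (c m)) t) volume 0 (2 * π) := by
        intro i
        obtain ⟨hIm, C, hIC⟩ := GSMM.IG_meas hHPB hGCV hGAG (M m) (c m) (hRP m) β hβpos hBm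
          (G i) (hG i)
        have hhc : Continuous (hp (M m) (c m)) := (hHPB (M m) (c m)).2.2.1
        have hFc : Continuous (fun t => FF' (ω i) t (Bh (hp (M m) (c m)) t)
            (gh (hp (M m) (c m)) t)) := by
          have h1 : Continuous (fun t : ℝ => (t, Bh (hp (M m) (c m)) t, gh (hp (M m) (c m)) t)) := by
            unfold Bh gh
            fun_prop
          exact (hF i).comp_continuous h1 fun t => hBm0 t
        have hI : IntervalIntegrable (IG (G i) (hp (M m) (c m))) volume 0 (2 * π) := by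
          refine (intervalIntegrable_const (c := C)).mono_fun hIm.aestronglyMeasurable ?_
          refine Eventually.of_forall fun t => ?_
          show ‖IG (G i) (hp (M m) (c m)) t‖ ≤ ‖C‖
          rw [Real.norm_eq_abs, Real.norm_eq_abs]
          exact (hIC t).trans (le_abs_self C)
        exact hI.continuousOn_mul hFc.continuousOn
      rw [← intervalIntegral.integral_finsetSum fun i _ => hint i]
      exact hk
    · intro t
      have hv1' := (hv y).1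
      have hv2' := (hv x).2
      constructor
      · refine hv1'.trans ?_
        have h1 : Bh (hp (M m) (c m)) t ≤ Bh H y := by rw [hy]; exact hup m t
        have h2 : Bh (hp (M m) (c m)) t ^ 2 ≤ (wid P y / 2) ^ 2 :=
          pow_le_pow_left₀ (hBm0 t).le h1 2
        exact one_div_le_one_div_of_le (pow_pos (hBm0 t) 2) h2
      · refine le_trans ?_ hv2'
        have h1 : Bh H x ≤ Bh (hp (M m) (c m)) t := by rw [hx]; exact hlow m t
        have h2 : (wid P x / 2) ^ 2 ≤ Bh (hp (M m) (c m)) t ^ 2 :=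
          pow_le_pow_left₀ (hBpos x).le h1 2
        exact one_div_le_one_div_of_le (pow_pos (hBpos x) 2) h2
    · intro t
      rw [abs_div, abs_of_pos (hBm0 t), div_le_iff₀ (hBm0 t)]
      exact hrl m t

end Pool.Agent.Lib.MP_084b88_gt.AY
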