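import Pool.Agent.Lib.MP_084b88_gt.AY.SpecR

/-!
# MP_084b88_gt, project AY, module PLQ: the planar theorem in centroid-Legendre data
-/

set_option autoImplicit false

open MeasureTheory Set Real Filter Topology
open scoped Pointwise InnerProductSpace

namespace Pool.Agent.Lib.MP_084b88_gt.AY

open Pool.Agent.Lib.MP_084b88_gt.CW Pool.Agent.Lib.MP_084b88_gt.SY Pool.Agent.Lib.MP_084b88_gt.LG

namespace PLQM

theorem int_cc : ∫ s in (0 : ℝ)..(2 * π), cos s * cos s = π := by
  have h := integral_cos_sq (a := 0) (b := 2 * π)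
  simp only [sq] at h
  rw [h]
  simp

theorem int_ss : ∫ s in (0 : ℝ)..(2 * π), sin s * sin s = π := by
  have h := integral_sin_sq (a := 0) (b := 2 * π)
  simp only [sq] at h
  rw [h]
  simp

theorem int_sc : ∫ s in (0 : ℝ)..(2 * π), sin s * cos s = 0 := by
  rw [integral_sin_mul_cos₁]
  simp

theorem cdotu (p : ℝ × ℝ) : Continuous (fun t => dotu t p) := by
  unfold dotu
  fun_prop

/-- the square integral of `g - dotu · c` -/
theorem sq_int {g : ℝ → ℝ} (hg : Continuous g) (c : ℝ × ℝ) :
    ∫ t in (0 : ℝ)..(2 * π), (g t - dotu t c) ^ 2 =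
      (∫ t in (0 : ℝ)..(2 * π), g t ^ 2) - 2 * c.1 * (∫ t in (0 : ℝ)..(2 * π), g t * cos t) -
        2 * c.2 * (∫ t in (0 : ℝ)..(2 * π), g t * sin t) + π * (c.1 ^ 2 + c.2 ^ 2) := by
  have i1 : IntervalIntegrable (fun t => g t ^ 2) volume 0 (2 * π) :=
    (by fun_prop : Continuous fun t => g t ^ 2).intervalIntegrable _ _
  have i2 : IntervalIntegrable (fun t => 2 * c.1 * (g t * cos t)) volume 0 (2 * π) :=
    (by fun_prop : Continuous fun t => 2 * c.1 * (g t * cos t)).intervalIntegrable _ _
  have i3 : IntervalIntegrable (fun t => 2 * c.2 * (g t * sin t)) volume 0 (2 * π) :=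
    (by fun_prop : Continuous fun t => 2 * c.2 * (g t * sin t)).intervalIntegrable _ _
  have i4 : IntervalIntegrable (fun t => c.1 ^ 2 * (cos t * cos t)) volume 0 (2 * π) :=
    (by fun_prop : Continuous fun t : ℝ => c.1 ^ 2 * (cos t * cos t)).intervalIntegrable _ _
  have i5 : IntervalIntegrable (fun t => 2 * c.1 * c.2 * (sin t * cos t)) volume 0 (2 * π) :=
    (by fun_prop : Continuous fun t : ℝ => 2 * c.1 * c.2 * (sin t * cos t)).intervalIntegrable _ _
  have i6 : IntervalIntegrable (fun t => c.2 ^ 2 * (sin t * sin t)) volume 0 (2 * π) :=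
    (by fun_prop : Continuous fun t : ℝ => c.2 ^ 2 * (sin t * sin t)).intervalIntegrable _ _
  have e : ∀ t, (g t - dotu t c) ^ 2 =
      g t ^ 2 - 2 * c.1 * (g t * cos t) - 2 * c.2 * (g t * sin t) +
        c.1 ^ 2 * (cos t * cos t) + 2 * c.1 * c.2 * (sin t * cos t) +
        c.2 ^ 2 * (sin t * sin t) := by
    intro t
    unfold dotu
    ring
  rw [intervalIntegral.integral_congr (fun t _ => e t),
    intervalIntegral.integral_add ((((i1.sub i2).sub i3).add i4).add i5) i6,
    intervalIntegral.integral_add (((i1.sub i2).sub i3).add i4) i5,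
    intervalIntegral.integral_add ((i1.sub i2).sub i3) i4,
    intervalIntegral.integral_sub (i1.sub i2) i3, intervalIntegral.integral_sub i1 i2,
    intervalIntegral.integral_const_mul, intervalIntegral.integral_const_mul,
    intervalIntegral.integral_const_mul, intervalIntegral.integral_const_mul,
    intervalIntegral.integral_const_mul, int_cc, int_ss, int_sc]
  ring

/-- `g3f` is the orthogonal projection -/
theorem proj_le {g : ℝ → ℝ} (hg : Continuous g) (c : ℝ × ℝ) :
    ∫ t in (0 : ℝ)..(2 * π), g3f g t ^ 2 ≤ ∫ t in (0 : ℝ)..(2 * π), (g t - dotu t c) ^ 2 := by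
  set a1 := (1 / π) * ∫ s in (0 : ℝ)..(2 * π), g s * cos s with ha1
  set a2 := (1 / π) * ∫ s in (0 : ℝ)..(2 * π), g s * sin s with ha2
  have hp : π ≠ 0 := pi_ne_zero
  have e1 : ∫ s in (0 : ℝ)..(2 * π), g s * cos s = π * a1 := by
    rw [ha1]
    field_simp
  have e2 : ∫ s in (0 : ℝ)..(2 * π), g s * sin s = π * a2 := by
    rw [ha2]
    field_simp
  have e3 : ∀ t, g3f g t ^ 2 = (g t - dotu t (a1, a2)) ^ 2 := by
    intro t
    unfold g3f dotu
    ring
  rw [intervalIntegral.integral_congr (fun t _ => e3 t), sq_int hg, sq_int hg, e1, e2]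
  have h1 : 0 ≤ π * ((c.1 - a1) ^ 2 + (c.2 - a2) ^ 2) := by
    have := pi_pos
    positivity
  dsimp only
  nlinarith

theorem dotu_lm {t0 a b θ s e : ℝ} (q : ℝ × ℝ) (h1 : a * cos θ = e * cos s)
    (h2 : b * sin θ = e * sin s) :
    dotu (t0 + θ) (lm t0 a b q) = e * (q.1 * cos s + q.2 * sin s) := by
  have h := sin_sq_add_cos_sq t0
  unfold dotu lm
  rw [cos_add, sin_add]
  dsimp only
  linear_combination (a * q.1 * cos θ + b * q.2 * sin θ) * h + q.1 * h1 + q.2 * h2

theorem lm_surj {t0 a b : ℝ} (ha : a ≠ 0) (hb : b ≠ 0) (z : ℝ × ℝ) : ∃ q, lm t0 a b q = z := by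
  have h := sin_sq_add_cos_sq t0
  refine ⟨((z.1 * cos t0 + z.2 * sin t0) / a, (-(z.1 * sin t0) + z.2 * cos t0) / b), ?_⟩
  unfold lm
  apply Prod.ext
  · dsimp only
    rw [mul_div_cancel₀ _ ha, mul_div_cancel₀ _ hb]
    linear_combination z.1 * h
  · dsimp only
    rw [mul_div_cancel₀ _ ha, mul_div_cancel₀ _ hb]
    linear_combination z.2 * h

theorem dotu_per (t : ℝ) (p : ℝ × ℝ) : dotu (t + 2 * π) p = dotu t p := by
  unfold dotu
  rw [cos_add_two_pi, sin_add_two_pi]

theorem cmf {P : Set (ℝ × ℝ)} (hP : CC P) (hm : Continuous (mid P)) (hw : Continuous (wid P))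
    (hwpos : ∀ θ, 0 < wid P θ) : Continuous (mf P) := by
  have e : mf P = fun t => ((∫ p in P, p.1) * cos t + (∫ p in P, p.2) * sin t -
      mid P t * area P) / (wid P t / 2) := by
    funext t
    have i1 : IntegrableOn (fun p : ℝ × ℝ => p.1) P volume :=
      continuous_fst.continuousOn.integrableOn_compact hP.2.1
    have i2 : IntegrableOn (fun p : ℝ × ℝ => p.2) P volume :=
      continuous_snd.continuousOn.integrableOn_compact hP.2.1
    have i3 : IntegrableOn (fun _ : ℝ × ℝ => mid P t) P volume :=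
      continuous_const.continuousOn.integrableOn_compact hP.2.1
    unfold mf
    rw [integral_div]
    congr 1
    have e1 : ∀ p : ℝ × ℝ, dotu t p - mid P t = p.1 * cos t + p.2 * sin t - mid P t := fun p => rfl
    simp only [e1]
    have e2 : ∫ p in P, (p.1 * cos t + p.2 * sin t - mid P t) =
        (∫ p in P, (p.1 * cos t + p.2 * sin t)) - ∫ _p in P, mid P t :=
      integral_sub ((i1.mul_const _).add (i2.mul_const _)) i3
    have e3 : ∫ p in P, (p.1 * cos t + p.2 * sin t) =
        (∫ p in P, p.1 * cos t) + ∫ p in P, p.2 * sin t :=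
      integral_add (i1.mul_const _) (i2.mul_const _)
    rw [e2, e3, integral_mul_const, integral_mul_const, setIntegral_const, smul_eq_mul]
    unfold area Measure.real
    ring
  rw [e]
  refine Continuous.div (by fun_prop) (by fun_prop) fun t => ?_
  have := hwpos t
  positivity

end PLQM

open PLQM in
theorem specPLQ (hCEN : SpecCEN) (hTRA : SpecTRA) (hDAT : SpecDAT) (hARE : SpecARE)
    (hXMC : SpecXMC) (hAFQ : SpecAFQ) (hACV : LG.SpecACV) (hCNT : SpecCNT) (hWB2 : SpecWB2) :
    SpecPLQ := by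
  intro T W L mu b0 hb0 hb01 hmu hT hW hL hCERQ P hP harea b hb hlo hhi o ho
  obtain ⟨-, -, -, hper2, -, -, -, -, -, hcont, hper⟩ := hWB2
  have hbb : 0 < b0 * b := mul_pos hb0 hb
  have hwpos : ∀ θ, 0 < wid P θ := fun t => by
    have := hlo t
    linarith
  obtain ⟨t0, a, b', w, P', hb', hba, hI, hPP⟩ := hCEN P hP hwpos harea
  have ha : 0 < a := lt_of_lt_of_le hb' hba
  obtain ⟨hQc, hAr, -, hAf⟩ := hAFQ P' t0 a b' hI.cc ha hb'
  obtain ⟨-, hTa, -, hTd⟩ := hTRA (lm t0 a b' '' P') w hQc
  rw [← hPP] at hTa hTd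
  have hAP : area P = a * b' * area P' := hTa.trans hAr
  have hA' := hI.apos
  obtain ⟨cv, cg, cR, hd⟩ := hDAT P' hI
  have hw' := hI.wpos
  have hLg : LgC T (xf P') (gc P') (Rm P') :=
    { cv := cv
      cg := cg
      cR := cR
      pv := fun s => (hd s).1
      pg := fun s => (hd s).2.1
      pR := fun s => (hd s).2.2.1
      v1 := fun s => (hd s).2.2.2.2.1
      x1 := fun s => (hd s).2.2.2.2.2.1
      g1 := fun s => (hd s).2.2.2.2.2.2.1
      lo := fun s => (hd s).2.2.2.2.2.2.2.2.1
      hi := fun l hl s => (hd s).2.2.2.2.2.2.2.2.2 l hl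
      gen := fun g hg D1 D2 => hT g hg P' hI D1 D2 }
  have hwid1 : ∀ s, 1 ≤ wid P' s / 2 := by
    intro s
    have h1 := hLg.x1 s
    unfold xf at h1
    have h2 : 0 < wid P' s / 2 := by
      have := hw' s
      linarith
    have h3 : 1 / (wid P' s / 2) ^ 2 ≤ 1 := by nlinarith [sq_nonneg (gc P' s)]
    rw [div_le_one (by positivity)] at h3
    exact le_of_sq_le_sq (by rw [one_pow]; exact h3) h2.le
  have hwid2 : ∀ s, (wid P' s / 2) ^ 2 ≤ 2 := by
    intro s
    have h1 := hLg.v1 s
    unfold xf at h1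
    have h2 : 0 < (wid P' s / 2) ^ 2 := by
      have := hw' s
      positivity
    rw [le_div_iff₀ h2] at h1
    linarith
  set A : ℝ := (b / a) ^ 2 with hA
  set B : ℝ := (b / b') ^ 2 with hBdef
  have hA0 : 0 < A := by positivity
  have hB0 : 0 < B := by positivity
  have hsA : √A = b / a := Real.sqrt_sq (by positivity)
  have hsB : √B = b / b' := Real.sqrt_sq (by positivity)
  have hA1 : 1 / 4 ≤ A := by
    have h1 := (hAf 0 0 a ha rfl (by rw [sin_zero, mul_zero, mul_zero])).2.1
    rw [add_zero, ← (hTd t0).2.1] at h1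
    have h2 := hhi t0
    rw [h1] at h2
    have h3 := hwid1 0
    have h4 : a * 1 ≤ a * (wid P' 0 / 2) := mul_le_mul_of_nonneg_left h3 ha.le
    have h5 : a ≤ 2 * b := by
      have h6 : a * wid P' 0 / 2 = a * (wid P' 0 / 2) := by ring
      rw [h6] at h2
      linarith
    have h6 : 1 / 2 ≤ b / a := by
      rw [le_div_iff₀ ha]
      linarith
    calc (1 : ℝ) / 4 = (1 / 2) ^ 2 := by norm_num
      _ ≤ (b / a) ^ 2 := pow_le_pow_left₀ (by norm_num) h6 2
  have hAB : A ≤ B := by
    refine pow_le_pow_left₀ (by positivity) ?_ 2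
    exact div_le_div_of_nonneg_left hb.le hb' hba
  have hB2 : B ≤ 2 / b0 ^ 2 := by
    have h1 := (hAf (π / 2) (π / 2) b' hb' (by rw [cos_pi_div_two, mul_zero, mul_zero])
      rfl).2.1
    rw [← (hTd _).2.1] at h1
    have h2 := hlo (t0 + π / 2)
    rw [h1] at h2
    have h3 := hwid2 (π / 2)
    have h4 : b' * wid P' (π / 2) / 2 = b' * (wid P' (π / 2) / 2) := by ring
    rw [h4] at h2
    have h5 : (b0 * b) ^ 2 ≤ (b' * (wid P' (π / 2) / 2)) ^ 2 := pow_le_pow_left₀ hbb.le h2 2
    have h6 : (b0 * b) ^ 2 ≤ b' ^ 2 * 2 := by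
      refine h5.trans ?_
      rw [mul_pow]
      exact mul_le_mul_of_nonneg_left h3 (sq_nonneg _)
    rw [hBdef, div_pow, div_le_div_iff₀ (by positivity) (by positivity)]
    linarith
  obtain ⟨hth, hint⟩ := hACV A B hA0 hB0
  obtain ⟨D, hD⟩ := lm_surj (t0 := t0) ha.ne' hb'.ne' (o - w)
  have ho' : o = w + lm t0 a b' D := by rw [hD]; abel
  -- the data at the direction `t0 + thf A B s`
  have hdat : ∀ s, ∃ e : ℝ, 0 < e ∧ e = b / √(nn A B s) ∧
      wid P (t0 + thf A B s) = e * wid P' s ∧
      mid P (t0 + thf A B s) = e * mid P' s + dotu (t0 + thf A B s) w ∧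
      qf P (t0 + thf A B s) = a * b' * qf P' s ∧ mf P (t0 + thf A B s) = a * b' * mf P' s ∧
      ∀ q : ℝ × ℝ, dotu (t0 + thf A B s) (w + lm t0 a b' q) =
        dotu (t0 + thf A B s) w + e * (q.1 * cos s + q.2 * sin s) := by
    intro s
    obtain ⟨hn, hc, hs⟩ := hth s
    have hsn : 0 < √(nn A B s) := Real.sqrt_pos.2 hn
    have he : 0 < b / √(nn A B s) := div_pos hb hsn
    have g1 : a * cos (thf A B s) = b / √(nn A B s) * cos s := by rw [hc, hsA]; field_simp
    have g2 : b' * sin (thf A B s) = b / √(nn A B s) * sin s := by rw [hs, hsB]; field_simp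
    have h1 := hAf s (thf A B s) (b / √(nn A B s)) he g1 g2
    obtain ⟨-, k2, k3, k4, k5⟩ := hTd (t0 + thf A B s)
    refine ⟨b / √(nn A B s), he, rfl, ?_, ?_, ?_, ?_, ?_⟩
    · rw [k2, h1.2.1]
    · rw [k3, h1.2.2.1]
    · rw [k4, (h1.2.2.2 (hw' s)).1]
    · rw [k5, (h1.2.2.2 (hw' s)).2]
    · intro q
      rw [dotu_add, dotu_lm q g1 g2]
  have hsv : ∀ s, √(xf P' s) = 1 / (wid P' s / 2) := by
    intro s
    have := hw' s
    unfold xf
    rw [← one_div_pow, Real.sqrt_sq (by positivity)]
  have hy : ∀ s, wid P (t0 + thf A B s) / 2 / b = 1 / √(nn A B s * xf P' s) := by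
    intro s
    obtain ⟨e, he, hee, h1, -, -, -, -⟩ := hdat s
    have hn := (hth s).1
    have hsn : 0 < √(nn A B s) := Real.sqrt_pos.2 hn
    have := hw' s
    rw [Real.sqrt_mul hn.le, hsv, h1, hee]
    field_simp
  have hgo : ∀ s, ∀ q : ℝ × ℝ, mid P (t0 + thf A B s) - dotu (t0 + thf A B s) (w + lm t0 a b' q) =
      wid P (t0 + thf A B s) / 2 * (gc P' s - YY q.1 q.2 (xf P') s) := by
    intro s q
    obtain ⟨e, he, hee, h1, h2, -, -, h3⟩ := hdat s
    have := hw' s
    rw [h3 q, h1, h2]
    unfold YY gc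
    rw [hsv]
    field_simp
    ring
  have hgo2 : ∀ s, (mid P (t0 + thf A B s) - dotu (t0 + thf A B s) o) /
      (wid P (t0 + thf A B s) / 2) = gc P' s - YY D.1 D.2 (xf P') s := by
    intro s
    have := hwpos (t0 + thf A B s)
    rw [ho', hgo s D]
    field_simp
  have hnv : ∀ s, 1 / (wid P (t0 + thf A B s) / 2 / b) ^ 2 = nn A B s * xf P' s := by
    intro s
    have hn := (hth s).1
    have h1 := hLg.v1 s
    have h2 : 0 < nn A B s * xf P' s := mul_pos hn (by linarith)
    rw [hy s, one_div_pow, one_div_one_div, Real.sq_sqrt h2.le]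
  set M : ℝ := mu * (√A * √B) / area P' with hM
  have hmu' : 0 ≤ mu * (√A * √B) := by positivity
  obtain ⟨hAre1, hAre2⟩ := hARE P' hI
  obtain ⟨E1, E2, hE⟩ := hCERQ (xf P') (gc P') (Rm P') hLg A B hA1 hAB hB2 (by
      intro s
      rw [← hnv s]
      have h4 : b0 ≤ wid P (t0 + thf A B s) / 2 / b := by
        rw [le_div_iff₀ hb]
        exact hlo _
      have h5 : wid P (t0 + thf A B s) / 2 / b ≤ 2 := by
        rw [div_le_iff₀ hb]
        exact hhi _
      have h6 : 0 < wid P (t0 + thf A B s) / 2 / b := lt_of_lt_of_le hb0 h4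
      constructor
      · rw [div_le_div_iff₀ (by norm_num) (by positivity)]
        nlinarith
      · exact one_div_le_one_div_of_le (by positivity) (pow_le_pow_left₀ hb0.le h4 2))
    D.1 D.2 (by
      intro s
      rw [← hgo2 s, abs_div]
      have h1 := hwpos (t0 + thf A B s)
      have h2 : 0 < wid P (t0 + thf A B s) / 2 := by linarith
      rw [abs_of_pos h2, div_le_one h2]
      exact ho _)
    M (by
      rw [hM]
      have h1 : 4 * π * (mu * (√A * √B) / area P') = (4 * π / area P') * (mu * (√A * √B)) := by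
        ring
      rw [h1]
      refine mul_le_mul_of_nonneg_right ?_ hmu'
      rw [le_div_iff₀ hA']
      exact hAre1)
    (by
      intro s
      rw [hM, hsv]
      have h1 : 2 * (mu * (√A * √B) / area P') = mu * (√A * √B) * (2 / area P') := by ring
      rw [h1]
      refine mul_le_mul_of_nonneg_left ?_ hmu'
      have h2 := hw' s
      have h3 := hAre2 s
      rw [div_le_div_iff₀ hA' (by positivity)]
      linarith)
  -- continuity and periodicity
  obtain ⟨hqc, hqp, -⟩ := hCNT P hP hwpos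
  have cwid : Continuous (wid P) := (hcont P hP).2
  have cs2 : Continuous (sup2 P) := (hcont P hP).1
  have cmid : Continuous (mid P) := by
    unfold mid
    exact (cs2.sub (cs2.comp (continuous_id.add continuous_const))).div_const 2
  have cmf' : Continuous (mf P) := cmf hP cmid cwid hwpos
  have cy : Continuous (fun t => wid P t / 2 / b) := (cwid.div_const 2).div_const b
  have hmaps : ∀ t, wid P t / 2 / b ∈ Icc b0 2 := by
    intro t
    constructor
    · rw [le_div_iff₀ hb]
      exact hlo t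
    · rw [div_le_iff₀ hb]
      exact hhi t
  have cW : Continuous (fun t => W (wid P t / 2 / b)) := hW.comp_continuous cy hmaps
  have cL : Continuous (fun t => L (wid P t / 2 / b)) := hL.comp_continuous cy hmaps
  have cgo : Continuous (fun t => (mid P t - dotu t o) / (wid P t / 2)) := by
    refine (cmid.sub (cdotu o)).div (cwid.div_const 2) fun t => ?_
    have := hwpos t
    positivity
  have cGV : Continuous (fun t => GV W L (wid P t / 2 / b)
      ((mid P t - dotu t o) / (wid P t / 2))) := by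
    unfold GV
    refine Continuous.div_const (Continuous.add (continuous_const.mul cW)
      (Real.continuous_sqrt.comp (Continuous.sub (continuous_const.mul (Continuous.sub ?_
        (((cL.mul cgo).pow 2).div_const 2))) (continuous_const.mul (cW.pow 2))))) _
    refine ((continuous_const.add cy).pow 2).div (continuous_const.mul cy) fun t => ?_
    have := (hmaps t).1
    have h2 : 0 < wid P t / 2 / b := lt_of_lt_of_le hb0 this
    positivity
  have hwp : ∀ t, wid P (t + 2 * π) = wid P t := by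
    intro t
    rw [two_mul, ← add_assoc, hper, hper]
  have hqp2 : ∀ t, qf P (t + 2 * π) = qf P t := by
    intro t
    rw [two_mul, ← add_assoc, hqp, hqp]
  have hmp : ∀ t, mid P (t + 2 * π) = mid P t := by
    intro t
    unfold mid
    rw [hper2, add_right_comm, hper2]
  have hmfp : ∀ t, mf P (t + 2 * π) = mf P t := by
    intro t
    unfold mf
    simp only [dotu_per, hmp, hwp]
  set c : ℝ × ℝ := w + lm t0 a b' (E1, E2) with hc
  -- the function
  have c1 : Continuous (fun t => kap * (GV W L (wid P t / 2 / b)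
      ((mid P t - dotu t o) / (wid P t / 2)) - 1) * area P +
      W (wid P t / 2 / b) * (qf P t - kap * area P) -
      L (wid P t / 2 / b) * ((mid P t - dotu t o) / (wid P t / 2)) * mf P t) :=
    (((continuous_const.mul (cGV.sub continuous_const)).mul continuous_const).add
      (cW.mul (hqc.sub continuous_const))).sub ((cL.mul cgo).mul cmf')
  have c2 : Continuous (fun t => (mid P t - dotu t o) ^ 2) := (cmid.sub (cdotu o)).pow 2
  have c3 : Continuous (fun t => (mid P t - dotu t c) ^ 2) := (cmid.sub (cdotu c)).pow 2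
  have hproj := proj_le cmid c
  have hF := hint (fun t => (kap * (GV W L (wid P t / 2 / b)
      ((mid P t - dotu t o) / (wid P t / 2)) - 1) * area P +
      W (wid P t / 2 / b) * (qf P t - kap * area P) -
      L (wid P t / 2 / b) * ((mid P t - dotu t o) / (wid P t / 2)) * mf P t) +
      mu * ((mid P t - dotu t o) ^ 2 - 8 / 5 * (mid P t - dotu t c) ^ 2))
    (c1.add (continuous_const.mul (c2.sub (continuous_const.mul c3)))) (fun t => by
      simp only [hwp, hqp2, hmp, hmfp, dotu_per]) t0
  have j4 : IntervalIntegrable (fun t => mu * ((mid P t - dotu t o) ^ 2 -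
      8 / 5 * (mid P t - dotu t c) ^ 2)) volume 0 (2 * π) :=
    (continuous_const.mul (c2.sub (continuous_const.mul c3))).intervalIntegrable _ _
  have j5 : IntervalIntegrable (fun t => 8 / 5 * (mid P t - dotu t c) ^ 2) volume 0 (2 * π) :=
    (continuous_const.mul c3).intervalIntegrable _ _
  rw [intervalIntegral.integral_add (c1.intervalIntegrable _ _) j4,
    intervalIntegral.integral_const_mul,
    intervalIntegral.integral_sub (c2.intervalIntegrable _ _) j5,
    intervalIntegral.integral_const_mul] at hF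
  have hMb : area P * M = mu * b ^ 2 := by
    rw [hM, hsA, hsB, hAP]
    field_simp
  have hXM := hXMC P' hI
  have hpt : ∀ s, ((kap * (GV W L (wid P (t0 + thf A B s) / 2 / b)
      ((mid P (t0 + thf A B s) - dotu (t0 + thf A B s) o) / (wid P (t0 + thf A B s) / 2)) - 1) *
        area P + W (wid P (t0 + thf A B s) / 2 / b) * (qf P (t0 + thf A B s) - kap * area P) -
      L (wid P (t0 + thf A B s) / 2 / b) *
        ((mid P (t0 + thf A B s) - dotu (t0 + thf A B s) o) / (wid P (t0 + thf A B s) / 2)) *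
        mf P (t0 + thf A B s)) +
      mu * ((mid P (t0 + thf A B s) - dotu (t0 + thf A B s) o) ^ 2 -
        8 / 5 * (mid P (t0 + thf A B s) - dotu (t0 + thf A B s) c) ^ 2)) *
          (√A * √B / nn A B s) =
      (area P * (√A * √B)) * JQ W L M (nn A B s) (xf P' s) (gc P' s) (Rm P' s)
        (YY D.1 D.2 (xf P') s) (YY E1 E2 (xf P') s) := by
    intro s
    obtain ⟨e, he, hee, -, -, hq, hmf, -⟩ := hdat s
    obtain ⟨hn, -, -⟩ := hth s
    obtain ⟨hx1, hx2, -, -⟩ := hXM s
    have hv : 0 < xf P' s := by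
      have := hLg.v1 s
      linarith
    have h4 : qf P (t0 + thf A B s) - kap * area P =
        area P * (Sf (xf P' s + 3 * gc P' s ^ 2) + Rm P' s) := by
      rw [hq, hAP, ← hx1]
      unfold Rm
      field_simp
      ring
    have h5 : mf P (t0 + thf A B s) = -(area P * gc P' s) := by
      rw [hmf, hx2, hAP]
      ring
    have h6 : (mid P (t0 + thf A B s) - dotu (t0 + thf A B s) o) ^ 2 =
        b ^ 2 / (nn A B s * xf P' s) * (gc P' s - YY D.1 D.2 (xf P') s) ^ 2 := by
      have h7 : (wid P (t0 + thf A B s) / 2) ^ 2 = b ^ 2 / (nn A B s * xf P' s) := by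
        rw [← hnv s]
        have := hwpos (t0 + thf A B s)
        field_simp
      rw [ho', hgo s D, mul_pow, h7]
    have h8 : (mid P (t0 + thf A B s) - dotu (t0 + thf A B s) c) ^ 2 =
        b ^ 2 / (nn A B s * xf P' s) * (gc P' s - YY E1 E2 (xf P') s) ^ 2 := by
      have h7 : (wid P (t0 + thf A B s) / 2) ^ 2 = b ^ 2 / (nn A B s * xf P' s) := by
        rw [← hnv s]
        have := hwpos (t0 + thf A B s)
        field_simp
      rw [hc, hgo s (E1, E2), mul_pow, h7]
    rw [h4, h5, h6, h8, hgo2 s, hy s]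
    unfold JQ
    generalize GV W L (1 / √(nn A B s * xf P' s)) (gc P' s - YY D.1 D.2 (xf P') s) = gv
    generalize W (1 / √(nn A B s * xf P' s)) = wy
    generalize L (1 / √(nn A B s * xf P' s)) = ly
    generalize Sf (xf P' s + 3 * gc P' s ^ 2) = sf
    generalize YY D.1 D.2 (xf P') s = Y
    generalize YY E1 E2 (xf P') s = E
    have h9 : mu * (b ^ 2 / (nn A B s * xf P' s)) * (1 / nn A B s) =
        area P * (M / (nn A B s ^ 2 * xf P' s)) := by
      have e1 : mu * (b ^ 2 / (nn A B s * xf P' s)) * (1 / nn A B s) =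
          (mu * b ^ 2) / (nn A B s ^ 2 * xf P' s) := by
        field_simp
      rw [e1, ← hMb]
      ring
    linear_combination (√A * √B) * ((gc P' s - Y) ^ 2 - 8 / 5 * (gc P' s - E) ^ 2) * h9
  have hI2 := intervalIntegral.integral_congr (a := 0) (b := 2 * π) (μ := volume)
    (fun s _ => hpt s)
  rw [hI2, intervalIntegral.integral_const_mul] at hF
  have hfin : 0 ≤ (area P * (√A * √B)) * ∫ s in (0 : ℝ)..(2 * π), JQ W L M (nn A B s) (xf P' s)
      (gc P' s) (Rm P' s) (YY D.1 D.2 (xf P') s) (YY E1 E2 (xf P') s) :=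
    mul_nonneg (by positivity) hE
  rw [← hF] at hfin
  unfold PVf
  have h1 : mu * (8 / 5 * ∫ t in (0 : ℝ)..(2 * π), g3f (mid P) t ^ 2) ≤
      mu * (8 / 5 * ∫ t in (0 : ℝ)..(2 * π), (mid P t - dotu t c) ^ 2) := by
    refine mul_le_mul_of_nonneg_left ?_ hmu
    linarith
  rw [zero_mul, sub_zero]
  linarith

end Pool.Agent.Lib.MP_084b88_gt.AY
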