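import Pool.Agent.Lib.MP_084b88_gt.AY.SpecU

/-!
# MP_084b88_gt, project AY, module SMT: uniform convergence of the power series of `1 - √(1-y)`
-/

set_option autoImplicit false

open MeasureTheory Set Real Filter Topology
open scoped Pointwise InnerProductSpace

namespace Pool.Agent.Lib.MP_084b88_gt.AY

open Pool.Agent.Lib.MP_084b88_gt.CW Pool.Agent.Lib.MP_084b88_gt.SY Pool.Agent.Lib.MP_084b88_gt.LG

namespace SMTM

/-- `∏ (2i+1)/(2i+2)` -/
noncomputable def pp : ℕ → ℝ
  | 0 => 1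
  | k + 1 => pp k * ((2 * (k : ℝ) + 1) / (2 * (k : ℝ) + 2))

theorem pp_pos (n : ℕ) : 0 < pp n := by
  induction n with
  | zero => simp [pp]
  | succ n ih =>
    rw [pp]
    positivity

theorem tcf_eq (n : ℕ) : (2 * (n : ℝ) + 2) * tcf n = pp n := by
  induction n with
  | zero => simp [tcf, pp]
  | succ n ih =>
    rw [tcf, pp, ← ih]
    have h1 : (2 * (n : ℝ) + 4) ≠ 0 := by positivity
    push_cast
    field_simp
    ring

theorem tcf_pos (n : ℕ) : 0 < tcf n := by
  have h := tcf_eq n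
  have h2 := pp_pos n
  rw [← h] at h2
  have h3 : (0 : ℝ) < 2 * (n : ℝ) + 2 := by positivity
  exact (mul_pos_iff_of_pos_left h3).1 h2

theorem pp_succ (n : ℕ) : pp (n + 1) = (2 * (n : ℝ) + 1) * tcf n := by
  rw [pp, ← tcf_eq n]
  field_simp

theorem pp_sq (n : ℕ) : (2 * (n : ℝ) + 1) * pp n ^ 2 ≤ 1 := by
  induction n with
  | zero => simp [pp]
  | succ n ih =>
    have hn : (0 : ℝ) ≤ n := Nat.cast_nonneg n
    rw [pp]
    push_cast
    have h1 : (2 * ((n : ℝ) + 1) + 1) * (pp n * ((2 * (n : ℝ) + 1) / (2 * (n : ℝ) + 2))) ^ 2 =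
        ((2 * (n : ℝ) + 1) * pp n ^ 2) * (((2 * (n : ℝ) + 3) * (2 * (n : ℝ) + 1)) / (2 * (n : ℝ) + 2) ^ 2) := by
      field_simp
      ring
    rw [h1]
    have h2 : ((2 * (n : ℝ) + 3) * (2 * (n : ℝ) + 1)) / (2 * (n : ℝ) + 2) ^ 2 ≤ 1 := by
      rw [div_le_one (by positivity)]
      nlinarith
    have h3 : 0 ≤ (2 * (n : ℝ) + 1) * pp n ^ 2 := by positivity
    calc _ ≤ ((2 * (n : ℝ) + 1) * pp n ^ 2) * 1 := mul_le_mul_of_nonneg_left h2 h3
      _ ≤ 1 := by linarith

/-- partial sums -/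
noncomputable def SS (N : ℕ) (y : ℝ) : ℝ := ∑ k ∈ Finset.range N, tcf k * y ^ (k + 1)

/-- derivative of the partial sums -/
noncomputable def SD (N : ℕ) (y : ℝ) : ℝ := ∑ k ∈ Finset.range N, tcf k * (((k : ℝ) + 1) * y ^ k)

theorem hasDeriv (N : ℕ) (y : ℝ) : HasDerivAt (SS N) (SD N y) y := by
  unfold SS SD
  have h := HasDerivAt.fun_sum (u := Finset.range N) (A := fun k (y : ℝ) => tcf k * y ^ (k + 1))
    (A' := fun k => tcf k * (((k : ℝ) + 1) * y ^ k)) (x := y) (fun k _ => by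
      have h1 := (hasDerivAt_pow (k + 1) y).const_mul (tcf k)
      simpa using h1)
  exact h

theorem ode (N : ℕ) (y : ℝ) : 2 * (1 - y) * SD N y + SS N y - 1 = -(pp N * y ^ N) := by
  induction N with
  | zero => simp [SS, SD, pp]
  | succ N ih =>
    have h1 : SS (N + 1) y = SS N y + tcf N * y ^ (N + 1) := by
      unfold SS
      rw [Finset.sum_range_succ]
    have h2 : SD (N + 1) y = SD N y + tcf N * (((N : ℝ) + 1) * y ^ N) := by
      unfold SD
      rw [Finset.sum_range_succ]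
    rw [h1, h2, pp_succ]
    have h3 := tcf_eq N
    have h4 : y ^ (N + 1) = y ^ N * y := pow_succ _ _
    rw [h4]
    linear_combination ih + y ^ N * h3

theorem SS_one (N : ℕ) : SS N 1 = 1 - pp N := by
  have := ode N 1
  simp at this
  linarith

theorem SD_nonneg (N : ℕ) (y : ℝ) (hy : 0 ≤ y) : 0 ≤ SD N y := by
  unfold SD
  apply Finset.sum_nonneg
  intro k _
  have := tcf_pos k
  positivity

theorem SS_le (N : ℕ) (y : ℝ) (hy : y ∈ Icc (0 : ℝ) 1) : SS N y ≤ 1 - pp N := by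
  rw [← SS_one]
  unfold SS
  apply Finset.sum_le_sum
  intro k _
  apply mul_le_mul_of_nonneg_left _ (tcf_pos k).le
  rw [one_pow]
  exact pow_le_one₀ hy.1 hy.2

theorem SS_zero (N : ℕ) : SS N 0 = 0 := by
  unfold SS
  simp

theorem lower (N : ℕ) (y : ℝ) (hy : y ∈ Ico (0 : ℝ) 1) : 1 - y ≤ (1 - SS N y) ^ 2 := by
  set h : ℝ → ℝ := fun x => (1 - SS N x) ^ 2 / (1 - x) with hh
  have hd : ∀ x ∈ Ico (0 : ℝ) 1, HasDerivAt h
      ((1 - SS N x) * (pp N * x ^ N) / (1 - x) ^ 2) x := by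
    intro x hx
    have hx1 : (1 : ℝ) - x ≠ 0 := by have := hx.2; intro h0; linarith
    have d1 : HasDerivAt (fun x => (1 - SS N x) ^ 2) (2 * (1 - SS N x) * (-(SD N x))) x := by
      have := ((hasDeriv N x).const_sub 1).fun_pow 2
      simpa using this
    have d2 : HasDerivAt (fun x : ℝ => 1 - x) (-1) x := by
      simpa using (hasDerivAt_id x).const_sub 1
    have d3 := d1.fun_div d2 hx1
    refine d3.congr_deriv ?_
    have := ode N x
    congr 1
    linear_combination (-(1 - SS N x)) * this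
  have hm : MonotoneOn h (Ico 0 1) := by
    apply monotoneOn_of_deriv_nonneg (convex_Ico 0 1)
    · intro x hx
      exact (hd x hx).continuousAt.continuousWithinAt
    · intro x hx
      rw [interior_Ico] at hx
      exact (hd x ⟨hx.1.le, hx.2⟩).differentiableAt.differentiableWithinAt
    · intro x hx
      rw [interior_Ico] at hx
      rw [(hd x ⟨hx.1.le, hx.2⟩).deriv]
      have h1 := SS_le N x ⟨hx.1.le, hx.2.le⟩
      have h2 := pp_pos N
      have h3 : 0 ≤ 1 - SS N x := by linarith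
      have h4 := hx.1.le
      positivity
  have h0 := hm (show (0 : ℝ) ∈ Ico (0 : ℝ) 1 from ⟨le_refl _, by norm_num⟩) hy hy.1
  simp only [hh, SS_zero] at h0
  norm_num at h0
  have hy1 : 0 < 1 - y := by linarith [hy.2]
  rw [le_div_iff₀ hy1] at h0
  linarith

theorem upper (N : ℕ) (hN : 1 ≤ N) (y : ℝ) (hy : y ∈ Ico (0 : ℝ) 1) :
    (1 - (SS N y + pp N * y ^ N)) ^ 2 ≤ 1 - y := by
  set T : ℝ → ℝ := fun x => SS N x + pp N * x ^ N with hT
  set h : ℝ → ℝ := fun x => (1 - T x) ^ 2 / (1 - x) with hh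
  have hTle : ∀ x ∈ Icc (0 : ℝ) 1, T x ≤ 1 := by
    intro x hx
    have h1 := SS_le N x hx
    have h2 : pp N * x ^ N ≤ pp N * 1 :=
      mul_le_mul_of_nonneg_left (pow_le_one₀ hx.1 hx.2) (pp_pos N).le
    simp only [hT]
    linarith
  have hd : ∀ x ∈ Ico (0 : ℝ) 1, HasDerivAt h
      (-((1 - T x) * (2 * (1 - x) * (pp N * ((N : ℝ) * x ^ (N - 1)))) / (1 - x) ^ 2)) x := by
    intro x hx
    have hx1 : (1 : ℝ) - x ≠ 0 := by have := hx.2; intro h0; linarith
    have dT : HasDerivAt T (SD N x + pp N * ((N : ℝ) * x ^ (N - 1))) x := by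
      have := (hasDeriv N x).fun_add ((hasDerivAt_pow N x).const_mul (pp N))
      simpa using this
    have d1 : HasDerivAt (fun x => (1 - T x) ^ 2)
        (2 * (1 - T x) * (-(SD N x + pp N * ((N : ℝ) * x ^ (N - 1))))) x := by
      have := (dT.const_sub 1).fun_pow 2
      simpa using this
    have d2 : HasDerivAt (fun x : ℝ => 1 - x) (-1) x := by
      simpa using (hasDerivAt_id x).const_sub 1
    have d3 := d1.fun_div d2 hx1
    refine d3.congr_deriv ?_
    rw [← neg_div]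
    have := ode N x
    congr 1
    have hTx : T x = SS N x + pp N * x ^ N := rfl
    linear_combination (-(1 - T x)) * this - (1 - T x) * hTx
  have hm : AntitoneOn h (Ico 0 1) := by
    apply antitoneOn_of_deriv_nonpos (convex_Ico 0 1)
    · intro x hx
      exact (hd x hx).continuousAt.continuousWithinAt
    · intro x hx
      rw [interior_Ico] at hx
      exact (hd x ⟨hx.1.le, hx.2⟩).differentiableAt.differentiableWithinAt
    · intro x hx
      rw [interior_Ico] at hx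
      rw [(hd x ⟨hx.1.le, hx.2⟩).deriv]
      have h1 := hTle x ⟨hx.1.le, hx.2.le⟩
      have h2 := pp_pos N
      have h3 : 0 ≤ 1 - T x := by linarith
      have h4 := hx.1.le
      have h5 : 0 ≤ 1 - x := by linarith [hx.2]
      have h6 : 0 ≤ (1 - T x) * (2 * (1 - x) * (pp N * ((N : ℝ) * x ^ (N - 1)))) / (1 - x) ^ 2 := by
        positivity
      linarith
  have h0 := hm (show (0 : ℝ) ∈ Ico (0 : ℝ) 1 from ⟨le_refl _, by norm_num⟩) hy hy.1
  have hz : (0 : ℝ) ^ N = 0 := zero_pow (by omega)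
  simp only [hh, hT, SS_zero, hz] at h0
  norm_num at h0
  have hy1 : 0 < 1 - y := by linarith [hy.2]
  rw [div_le_iff₀ hy1] at h0
  linarith

theorem bound (N : ℕ) (hN : 1 ≤ N) (y : ℝ) (hy : y ∈ Icc (0 : ℝ) 1) :
    |(1 - √(1 - y)) - SS N y| ≤ pp N := by
  have hp := pp_pos N
  rcases eq_or_lt_of_le hy.2 with h1 | h1
  · rw [h1, SS_one]
    simp
    rw [abs_of_pos hp]
  · have hy' : y ∈ Ico (0 : ℝ) 1 := ⟨hy.1, h1⟩
    have a1 := lower N y hy'
    have a2 := upper N hN y hy'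
    have b1 := SS_le N y hy
    have b2 : 0 ≤ pp N * y ^ N := mul_nonneg hp.le (pow_nonneg hy.1 _)
    have b3 : pp N * y ^ N ≤ pp N * 1 :=
      mul_le_mul_of_nonneg_left (pow_le_one₀ hy.1 hy.2) hp.le
    have c1 : √(1 - y) ≤ 1 - SS N y := by
      rw [← Real.sqrt_sq (show 0 ≤ 1 - SS N y by linarith)]
      exact Real.sqrt_le_sqrt a1
    have c2 : 1 - (SS N y + pp N * y ^ N) ≤ √(1 - y) := by
      apply Real.le_sqrt_of_sq_le
      exact a2
    rw [abs_le]
    constructor <;> linarith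

end SMTM

open SMTM in
theorem specSMT (hWAL : SpecWAL) : SpecSMT := by
  refine ⟨tcf_pos, ?_⟩
  intro ε hε
  obtain ⟨n, hn⟩ := exists_nat_gt (1 / ε ^ 2)
  refine ⟨n + 1, fun N hN => ?_⟩
  have hN1 : 1 ≤ N := by omega
  have hpN : pp N ≤ ε := by
    have h1 := pp_sq N
    have h2 : (n : ℝ) + 1 ≤ N := by exact_mod_cast hN
    have h3 : 1 < (n : ℝ) * ε ^ 2 := by
      rw [div_lt_iff₀ (by positivity)] at hn
      exact hn
    have hp := pp_pos N
    by_contra hc
    push Not at hc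
    have h4 : ε ^ 2 < pp N ^ 2 := by nlinarith
    have h5 : (0 : ℝ) ≤ n := Nat.cast_nonneg n
    have h6 : (n : ℝ) * ε ^ 2 ≤ (2 * (N : ℝ) + 1) * pp N ^ 2 := by
      have e1 : (n : ℝ) ≤ 2 * (N : ℝ) + 1 := by linarith
      have e2 : 0 ≤ ε ^ 2 := by positivity
      nlinarith
    linarith
  have hb : ∀ y ∈ Icc (0 : ℝ) 1, |(1 - √(1 - y)) - SS N y| ≤ ε := fun y hy =>
    (bound N hN1 y hy).trans hpN
  refine ⟨fun y hy => hb y hy, ?_⟩
  have h1 : ∑ k ∈ Finset.range N, tcf k * mu (k + 1) =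
      2 / π * ∫ x in (-1 : ℝ)..1, SS N (x ^ 2) * √(1 - x ^ 2) := by
    have h2 : ∀ x : ℝ, SS N (x ^ 2) * √(1 - x ^ 2) =
        ∑ k ∈ Finset.range N, tcf k * (x ^ (2 * (k + 1)) * √(1 - x ^ 2)) := by
      intro x
      unfold SS
      rw [Finset.sum_mul]
      apply Finset.sum_congr rfl
      intro k _
      rw [← pow_mul]
      ring
    simp only [h2]
    rw [intervalIntegral.integral_finsetSum
      (fun k _ => Continuous.intervalIntegrable (by fun_prop) _ _), Finset.mul_sum]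
    apply Finset.sum_congr rfl
    intro k _
    rw [intervalIntegral.integral_const_mul, (hWAL (k + 1)).2]
    ring
  have hsq : ∫ x in (-1 : ℝ)..1, √(1 - x ^ 2) = π / 2 := integral_sqrt_one_sub_sq
  have hu : ∫ x in (-1 : ℝ)..1, (1 - √(1 - x ^ 2)) * √(1 - x ^ 2) = π / 2 - 4 / 3 := by
    have h3 : ∀ x ∈ Set.uIcc (-1 : ℝ) 1, (1 - √(1 - x ^ 2)) * √(1 - x ^ 2) =
        √(1 - x ^ 2) - (1 - x ^ 2) := by
      intro x hx
      rw [Set.uIcc_of_le (by norm_num)] at hx
      have h4 : √(1 - x ^ 2) * √(1 - x ^ 2) = 1 - x ^ 2 :=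
        Real.mul_self_sqrt (by nlinarith [hx.1, hx.2])
      linear_combination -h4
    rw [intervalIntegral.integral_congr h3, intervalIntegral.integral_sub
      (Continuous.intervalIntegrable (by fun_prop) _ _)
      (Continuous.intervalIntegrable (by fun_prop) _ _), hsq, intervalIntegral.integral_sub
      (Continuous.intervalIntegrable (by fun_prop) _ _)
      (Continuous.intervalIntegrable (by fun_prop) _ _), integral_pow]
    simp
    norm_num
  have hk : 1 - kap = 2 / π * ∫ x in (-1 : ℝ)..1, (1 - √(1 - x ^ 2)) * √(1 - x ^ 2) := by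
    rw [hu, kap]
    have := Real.pi_pos
    field_simp
    ring
  have hSc : Continuous (fun x : ℝ => SS N (x ^ 2) * √(1 - x ^ 2)) := by
    unfold SS
    fun_prop
  rw [h1, hk, ← mul_sub, ← intervalIntegral.integral_sub
      (hSc.intervalIntegrable _ _)
      (Continuous.intervalIntegrable (by fun_prop) _ _), abs_mul,
      abs_of_pos (by have := Real.pi_pos; positivity)]
  have h5 : |∫ x in (-1 : ℝ)..1, (SS N (x ^ 2) * √(1 - x ^ 2) -
      (1 - √(1 - x ^ 2)) * √(1 - x ^ 2))| ≤ ∫ x in (-1 : ℝ)..1, ε * √(1 - x ^ 2) := by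
    rw [← Real.norm_eq_abs]
    apply intervalIntegral.norm_integral_le_of_norm_le (by norm_num)
    · filter_upwards with x hx
      have h6 : x ^ 2 ∈ Icc (0 : ℝ) 1 := ⟨by positivity, by nlinarith [hx.1, hx.2]⟩
      have h7 := hb _ h6
      rw [Real.norm_eq_abs, ← sub_mul, abs_mul, abs_of_nonneg (Real.sqrt_nonneg _),
        abs_sub_comm]
      exact mul_le_mul_of_nonneg_right h7 (Real.sqrt_nonneg _)
    · exact Continuous.intervalIntegrable (by fun_prop) _ _
  rw [intervalIntegral.integral_const_mul, hsq] at h5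
  have hpi := Real.pi_pos
  calc 2 / π * |∫ x in (-1 : ℝ)..1, (SS N (x ^ 2) * √(1 - x ^ 2) -
      (1 - √(1 - x ^ 2)) * √(1 - x ^ 2))| ≤ 2 / π * (ε * (π / 2)) :=
        mul_le_mul_of_nonneg_left h5 (by positivity)
    _ = ε := by field_simp

end Pool.Agent.Lib.MP_084b88_gt.AY
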