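import Pool.Agent.Lib.MP_084b88_gt.AY.SpecR

/-!
# MP_084b88_gt, project AY, module TIN: from a kernel certificate to an integral inequality
-/

set_option autoImplicit false

open MeasureTheory Set Real Filter Topology
open scoped Pointwise InnerProductSpace

namespace Pool.Agent.Lib.MP_084b88_gt.AY

open Pool.Agent.Lib.MP_084b88_gt.CW Pool.Agent.Lib.MP_084b88_gt.SY Pool.Agent.Lib.MP_084b88_gt.LG

namespace TINM

/-- The weight of the constant. -/
noncomputable def w1 (Φ μ1 μ2 : ℝ → ℝ → ℝ → ℝ) (x y g : ℝ) : ℝ :=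
  Φ x y g + μ1 x y g * g + μ2 x y g * (g ^ 2 - (x ^ 2 + y ^ 2) / 3)

/-- The weight of `τ`. -/
noncomputable def w2 (μ1 μ2 : ℝ → ℝ → ℝ → ℝ) (x y g : ℝ) : ℝ := μ1 x y g + 2 * g * μ2 x y g

/-- The weights. -/
noncomputable def om (ω Φ μ1 μ2 : ℝ → ℝ → ℝ → ℝ) : Fin 4 → ℝ → ℝ → ℝ → ℝ :=
  ![ω, w1 Φ μ1 μ2, w2 μ1 μ2, μ2]

/-- The functions. -/
def G0 (F : ℝ → ℝ) : Fin 4 → ℝ → ℝ := ![F, fun _ => 1, fun x => x, fun x => x ^ 2]

/-- Primitives. -/
noncomputable def G1 (F1 : ℝ → ℝ) : Fin 4 → ℝ → ℝ :=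
  ![F1, fun x => x, fun x => x ^ 2 / 2, fun x => x ^ 3 / 3]

/-- Second primitives. -/
noncomputable def G2 (F2 : ℝ → ℝ) : Fin 4 → ℝ → ℝ :=
  ![F2, fun x => x ^ 2 / 2, fun x => x ^ 3 / 6, fun x => x ^ 4 / 12]

theorem kk1 (a e : ℝ) : kk (fun x : ℝ => x ^ 2 / 2) a e = 1 - a ^ 2 - e ^ 2 := by
  unfold kk
  ring

theorem kk2 (a e : ℝ) : kk (fun x : ℝ => x ^ 3 / 6) a e = -((e ^ 3 + 3 * a ^ 2 * e) / 3) := by
  unfold kk
  ring

theorem kk3 (a e : ℝ) : kk (fun x : ℝ => x ^ 4 / 12) a e =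
    (1 - a ^ 4 - 6 * a ^ 2 * e ^ 2 - e ^ 4) / 6 := by
  unfold kk
  ring

theorem kkn (F2 : ℝ → ℝ) (b f : ℝ) : kk F2 (-b) f = kk F2 b f := by
  unfold kk
  rw [← sub_eq_add_neg, sub_neg_eq_add]
  ring

theorem d0 (x : ℝ) : HasDerivAt (fun x : ℝ => x) ((fun _ => (1 : ℝ)) x) x := hasDerivAt_id' x

theorem d1 (x : ℝ) : HasDerivAt (fun x : ℝ => x ^ 2 / 2) x x :=
  ((hasDerivAt_pow 2 x).div_const 2).congr_deriv (by norm_num)

theorem d2 (x : ℝ) : HasDerivAt (fun x : ℝ => x ^ 3 / 3) (x ^ 2) x :=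
  ((hasDerivAt_pow 3 x).div_const 3).congr_deriv (by norm_num)

theorem d3 (x : ℝ) : HasDerivAt (fun x : ℝ => x ^ 3 / 6) (x ^ 2 / 2) x :=
  ((hasDerivAt_pow 3 x).div_const 6).congr_deriv (by norm_num; ring)

theorem d4 (x : ℝ) : HasDerivAt (fun x : ℝ => x ^ 4 / 12) (x ^ 3 / 3) x :=
  ((hasDerivAt_pow 4 x).div_const 12).congr_deriv (by norm_num; ring)

end TINM

open TINM in
theorem specTIN (hKPD : SpecKPD) (hDAT : SpecDAT) (hXMC : SpecXMC) : SpecTIN := by
  intro ω Φ μ1 μ2 F F1 F2 N cω cΦ cμ1 cμ2 cF dF1 dF2 hN hK P hP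
  obtain ⟨-, -, -, hd⟩ := hDAT P hP
  have hA := hP.apos
  have hker : KerIneq 4 (om ω Φ μ1 μ2) (G2 F2) N (1 / 3) (1 / 2) 1 := by
    intro d hdom
    have h := hK d hdom
    have e : KT ω Φ μ1 μ2 F2 d + KT ω Φ μ1 μ2 F2 d.sw =
        ∑ i, (om ω Φ μ1 μ2 i d.x1 d.x2 d.gt * kk (G2 F2 i) d.a d.e +
          om ω Φ μ1 μ2 i d.y1 d.y2 d.gs * kk (G2 F2 i) d.b d.f) := by
      rw [Fin.sum_univ_four]
      change _ = (ω d.x1 d.x2 d.gt * kk F2 d.a d.e + ω d.y1 d.y2 d.gs * kk F2 d.b d.f) +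
        (w1 Φ μ1 μ2 d.x1 d.x2 d.gt * kk (fun x : ℝ => x ^ 2 / 2) d.a d.e +
          w1 Φ μ1 μ2 d.y1 d.y2 d.gs * kk (fun x : ℝ => x ^ 2 / 2) d.b d.f) +
        (w2 μ1 μ2 d.x1 d.x2 d.gt * kk (fun x : ℝ => x ^ 3 / 6) d.a d.e +
          w2 μ1 μ2 d.y1 d.y2 d.gs * kk (fun x : ℝ => x ^ 3 / 6) d.b d.f) +
        (μ2 d.x1 d.x2 d.gt * kk (fun x : ℝ => x ^ 4 / 12) d.a d.e +
          μ2 d.y1 d.y2 d.gs * kk (fun x : ℝ => x ^ 4 / 12) d.b d.f)
      rw [kk1, kk1, kk2, kk2, kk3, kk3]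
      unfold KT Dt.sw w1 w2
      dsimp only
      rw [kkn]
      ring
    rw [← e]
    exact h
  obtain ⟨hint, hsum⟩ := hKPD 4 (om ω Φ μ1 μ2) (G0 F) (G1 F1) (G2 F2) N (1 / 3) (1 / 2) 1
    (by norm_num) (by norm_num)
    (by
      intro i
      fin_cases i
      · exact cω
      · exact (cΦ.add (cμ1.mul (by fun_prop))).add (cμ2.mul (by fun_prop))
      · exact cμ1.add (Continuous.mul (by fun_prop) cμ2)
      · exact cμ2)
    (by
      intro i
      fin_cases i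
      · exact cF
      · exact continuous_const
      · exact continuous_id
      · exact continuous_pow 2)
    (by
      intro i x
      fin_cases i
      · exact dF1 x
      · exact d0 x
      · exact d1 x
      · exact d2 x)
    (by
      intro i x
      fin_cases i
      · exact dF2 x
      · exact d1 x
      · exact d3 x
      · exact d4 x)
    hN hker P hP.cc hP.wpos
    (by
      intro t
      obtain ⟨-, -, -, -, h1, h2, -, -, -, -⟩ := hd t
      have e : xf P t = 1 / (wid P t / 2) ^ 2 := rfl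
      rw [e] at h1 h2
      exact ⟨h1, by nlinarith [sq_nonneg (gc P t)]⟩)
    (by
      intro t
      obtain ⟨-, -, -, -, -, -, -, h3, -, -⟩ := hd t
      exact h3)
  have key : ∑ i, ∫ t in (0 : ℝ)..(2 * π), om ω Φ μ1 μ2 i (cos t / (wid P t / 2))
      (sin t / (wid P t / 2)) (gc P t) / (wid P t / 2) ^ 2 *
        ∫ p in P, G0 F i ((dotu t p - mid P t) / (wid P t / 2)) =
      area P * ∫ s in (0 : ℝ)..(2 * π), xf P s *
        (ω (cos s / (wid P s / 2)) (sin s / (wid P s / 2)) (gc P s) *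
          ((∫ p in P, F ((dotu s p - mid P s) / (wid P s / 2))) / area P) +
        Φ (cos s / (wid P s / 2)) (sin s / (wid P s / 2)) (gc P s)) := by
    rw [← intervalIntegral.integral_finsetSum (fun i _ => hint i),
      ← intervalIntegral.integral_const_mul]
    refine intervalIntegral.integral_congr fun t _ => ?_
    rw [Fin.sum_univ_four]
    obtain ⟨hx1, hx2, -, -⟩ := hXMC P hP t
    have hw : 0 < wid P t / 2 := by linarith [hP.wpos t]
    set w := wid P t / 2 with hwd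
    have i1 : ∫ _p in P, (1 : ℝ) = area P := by
      rw [setIntegral_const, smul_eq_mul, mul_one]
      rfl
    have i2 : ∫ p in P, (dotu t p - mid P t) / w = -(area P * gc P t) := hx2
    have i3 : ∫ p in P, ((dotu t p - mid P t) / w) ^ 2 = area P * (xf P t + 3 * gc P t ^ 2) / 3 := by
      rw [← hx1]
      unfold xm
      rw [← hwd]
      field_simp
    have ev : cos t ^ 2 + sin t ^ 2 = 1 := by rw [add_comm]; exact sin_sq_add_cos_sq t
    have exf : xf P t = 1 / w ^ 2 := rfl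
    change ω (cos t / w) (sin t / w) (gc P t) / w ^ 2 *
          (∫ p in P, F ((dotu t p - mid P t) / w)) +
        w1 Φ μ1 μ2 (cos t / w) (sin t / w) (gc P t) / w ^ 2 * (∫ _p in P, (1 : ℝ)) +
        w2 μ1 μ2 (cos t / w) (sin t / w) (gc P t) / w ^ 2 *
          (∫ p in P, (dotu t p - mid P t) / w) +
        μ2 (cos t / w) (sin t / w) (gc P t) / w ^ 2 *
          (∫ p in P, ((dotu t p - mid P t) / w) ^ 2) =
      area P * (xf P t * (ω (cos t / w) (sin t / w) (gc P t) *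
          ((∫ p in P, F ((dotu t p - mid P t) / w)) / area P) +
        Φ (cos t / w) (sin t / w) (gc P t)))
    rw [i1, i2, i3]
    unfold w1 w2
    have e2 : (cos t / w) ^ 2 + (sin t / w) ^ 2 = xf P t := by
      rw [exf, ← ev]
      ring
    rw [e2]
    have e3 : ∀ z : ℝ, z / w ^ 2 = z * xf P t := fun z => by
      rw [exf]
      ring
    simp only [e3]
    generalize ω (cos t / w) (sin t / w) (gc P t) = o
    generalize Φ (cos t / w) (sin t / w) (gc P t) = ph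
    generalize μ1 (cos t / w) (sin t / w) (gc P t) = m1
    generalize μ2 (cos t / w) (sin t / w) (gc P t) = m2
    generalize (∫ p in P, F ((dotu t p - mid P t) / w)) = I
    field_simp
    ring
  rw [key] at hsum
  exact nonneg_of_mul_nonneg_right hsum hA

end Pool.Agent.Lib.MP_084b88_gt.AY
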