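import Pool.Agent.Lib.MP_084b88_gt.AY.SpecQ
import Pool.Agent.Lib.MP_084b88_gt.AY.NGZ

/-!
# MP_084b88_gt, project AY, module NLV: null forms form a vector space
-/

set_option autoImplicit false

open MeasureTheory Set Real Filter Topology
open scoped Pointwise InnerProductSpace

namespace Pool.Agent.Lib.MP_084b88_gt.AY

open Pool.Agent.Lib.MP_084b88_gt.CW Pool.Agent.Lib.MP_084b88_gt.SY

theorem Nul_zero : Nul (fun _ => 0) := by
  intro h h1 h2 g g1 g2 _
  refine ⟨continuous_const, ⟨0, fun t α _ => by simp⟩, fun t => by simp⟩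

theorem Nul_int {N : Dt → ℝ} (hN : Nul N) {h h1 h2 g g1 g2 : ℝ → ℝ} (S : Sg h h1 h2 g g1 g2) (t : ℝ) :
    IntervalIntegrable (fun α => N (dtf h h1 g g1 t α) / sin α ^ 2) volume 0 π := by
  obtain ⟨c1, ⟨L, c2⟩, -⟩ := hN h h1 h2 g g1 g2 S
  refine NGZM.intble (fun α => N (dtf h h1 g g1 t α)) L ?_ fun α hα => c2 t α ⟨hα.1.le, hα.2.le⟩
  exact (c1.comp (by fun_prop : Continuous fun α : ℝ => (t, α))).continuousOn

theorem Nul_add {N1 N2 : Dt → ℝ} (h1 : Nul N1) (h2 : Nul N2) : Nul (fun d => N1 d + N2 d) := by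
  intro h k1 k2 g g1 g2 S
  obtain ⟨a1, ⟨L1, a2⟩, a3⟩ := h1 h k1 k2 g g1 g2 S
  obtain ⟨b1, ⟨L2, b2⟩, b3⟩ := h2 h k1 k2 g g1 g2 S
  refine ⟨a1.add b1, ⟨L1 + L2, fun t α hα => ?_⟩, fun t => ?_⟩
  · refine (abs_add_le _ _).trans ?_
    have := a2 t α hα
    have := b2 t α hα
    linarith
  · have e : (fun α => (N1 (dtf h k1 g g1 t α) + N2 (dtf h k1 g g1 t α)) / sin α ^ 2) = fun α =>
        N1 (dtf h k1 g g1 t α) / sin α ^ 2 + N2 (dtf h k1 g g1 t α) / sin α ^ 2 := by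
      funext α
      ring
    rw [e, intervalIntegral.integral_add (Nul_int h1 S t) (Nul_int h2 S t), a3 t, b3 t, add_zero]

theorem Nul_smul {N : Dt → ℝ} (hN : Nul N) (c : ℝ) : Nul (fun d => c * N d) := by
  intro h k1 k2 g g1 g2 S
  obtain ⟨a1, ⟨L, a2⟩, a3⟩ := hN h k1 k2 g g1 g2 S
  refine ⟨continuous_const.mul a1, ⟨|c| * L, fun t α hα => ?_⟩, fun t => ?_⟩
  · rw [abs_mul]
    have := mul_le_mul_of_nonneg_left (a2 t α hα) (abs_nonneg c)
    linarith
  · have e : (fun α => c * N (dtf h k1 g g1 t α) / sin α ^ 2) = fun α =>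
        c * (N (dtf h k1 g g1 t α) / sin α ^ 2) := by
      funext α
      ring
    rw [e, intervalIntegral.integral_const_mul, a3 t, mul_zero]

theorem Nul_congr {N1 N2 : Dt → ℝ} (h1 : Nul N1) (h : ∀ d, N2 d = N1 d) : Nul N2 := by
  have : N2 = N1 := funext h
  rw [this]
  exact h1

theorem Nul_neg {N : Dt → ℝ} (hN : Nul N) : Nul (fun d => -N d) :=
  Nul_congr (Nul_smul hN (-1)) fun d => by ring

theorem Nul_sub {N1 N2 : Dt → ℝ} (h1 : Nul N1) (h2 : Nul N2) : Nul (fun d => N1 d - N2 d) :=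
  Nul_congr (Nul_add h1 (Nul_neg h2)) fun d => by ring

theorem Nul_sum {ι : Type*} (s : Finset ι) (N : ι → Dt → ℝ) (h : ∀ i ∈ s, Nul (N i)) :
    Nul (fun d => ∑ i ∈ s, N i d) := by
  classical
  induction s using Finset.induction_on with
  | empty => simpa using Nul_zero
  | insert a s ha ih =>
    have h1 := Nul_add (h a (Finset.mem_insert_self a s))
      (ih fun i hi => h i (Finset.mem_insert_of_mem hi))
    refine Nul_congr h1 fun d => ?_
    rw [Finset.sum_insert ha]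

end Pool.Agent.Lib.MP_084b88_gt.AY
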