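import Pool.Agent.Lib.MP_084b88_gt.AY.SpecV
import Pool.Agent.Lib.MP_084b88_gt.AY.NLV

/-!
# MP_084b88_gt, project AY, modules TTE and TTN: the symmetric kernels of all powers
-/

set_option autoImplicit false

open MeasureTheory Set Real Filter Topology
open scoped Pointwise InnerProductSpace

namespace Pool.Agent.Lib.MP_084b88_gt.AY

open Pool.Agent.Lib.MP_084b88_gt.CW Pool.Agent.Lib.MP_084b88_gt.SY Pool.Agent.Lib.MP_084b88_gt.LG

namespace TTEM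

/-- The null form of project SY at the data. -/
noncomputable def NSd (n : ℕ) (rc rs : ℝ) (d : Dt) : ℝ :=
  NS (GN n) (dG n) (fun x => 2 * AN n x) (fun x => 2 * SY.dA n x) (fun x => 2 * BN n x)
    (fun x => 2 * dB n x) (fun x => 2 * CN n x) (fun x => 2 * dC n x) 1 d.a d.b
    (rc * d.x1 ^ 2 + rs * d.x2 ^ 2) (rc * d.y1 ^ 2 + rs * d.y2 ^ 2)
    (rc * (d.x1 * d.y1) + rs * (d.x2 * d.y2))

theorem nsd_nul (hALG : SpecALG) (hNQA : SpecNQA) (n : ℕ) (rc rs : ℝ) : Nul (NSd n rc rs) := by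
  obtain ⟨K, hK, hb⟩ := hALG.bnd n
  obtain ⟨cG, cA, cB, cC⟩ := hALG.cont n
  -- one term
  have one : ∀ (f f1 : ℝ → ℝ) (r : ℝ), Continuous f1 → (∀ x, HasDerivAt f (f1 x) x) →
      (∀ x, |x| ≤ 1 → |f x| ≤ K * (1 - x ^ 2)) → ∀ m1 m2 n1 n2 : ℕ,
      Nul (NQ (fun x => r * f x) (fun x => r * f1 x) 0 0 0 0 0 0 m1 m2 n1 n2) := by
    intro f f1 r hc hd hbf m1 m2 n1 n2
    refine (hNQA (fun x => r * f x) (fun x => r * f1 x) (continuous_const.mul hc)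
      (fun x => (hd x).const_mul r) 0 0 m1 m2 n1 n2).2.2 ⟨|r| * K, fun x hx => ?_⟩
    rw [abs_mul, mul_assoc]
    exact mul_le_mul_of_nonneg_left (hbf x hx) (abs_nonneg r)
  have g0 := one (GN n) (dG n) 1 cG (hALG.derG n) (fun x hx => (hb x hx).1) 0 0 0 0
  have a1 := one (AN n) (SY.dA n) (2 * rc) cA (hALG.derA n) (fun x hx => (hb x hx).2.1) 0 0 2 0
  have a2 := one (AN n) (SY.dA n) (2 * rs) cA (hALG.derA n) (fun x hx => (hb x hx).2.1) 0 0 0 2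
  have b1 := one (BN n) (dB n) (2 * rc) cB (hALG.derB n) (fun x hx => (hb x hx).2.2.1) 1 0 1 0
  have b2 := one (BN n) (dB n) (2 * rs) cB (hALG.derB n) (fun x hx => (hb x hx).2.2.1) 0 1 0 1
  have c1 := one (CN n) (dC n) (2 * rc) cC (hALG.derC n) (fun x hx => (hb x hx).2.2.2.1) 2 0 0 0
  have c2 := one (CN n) (dC n) (2 * rs) cC (hALG.derC n) (fun x hx => (hb x hx).2.2.2.1) 0 2 0 0
  refine Nul_congr (Nul_add (Nul_add (Nul_add g0 (Nul_add a1 a2)) (Nul_add b1 b2)) (Nul_add c1 c2))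
    fun d => ?_
  unfold NSd NS
  simp only [NQ, dq, mq, pow_zero, pow_one, Nat.cast_zero, Nat.cast_one, Nat.cast_ofNat, Nat.sub_self, zero_mul, mul_zero,
    add_zero, zero_add, one_mul, mul_one, sub_zero, neg_zero, Nat.reduceSub]
  ring

theorem sw_id (n : ℕ) (rc rs : ℝ) (hALG : SpecALG) (d : Dt) :
    psQ rc rs d.x1 d.x2 * (mu n / 2 * gN n d.a) + psQ rc rs d.y1 d.y2 * (mu n / 2 * gN n d.b) +
      (-(mu n / 2) * NSd n rc rs d) + (-(mu n / 2) * NSd n rc rs d.sw) = mu n * TTd n rc rs d := by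
  have e1 : psQ rc rs d.x1 d.x2 * (mu n / 2 * gN n d.a) + (-(mu n / 2) * NSd n rc rs d) =
      mu n / 2 * XX n 1 d.a d.b (rc * d.x1 ^ 2 + rs * d.x2 ^ 2) (rc * d.y1 ^ 2 + rs * d.y2 ^ 2)
        (rc * (d.x1 * d.y1) + rs * (d.x2 * d.y2)) := by
    unfold psQ NSd NS XX
    ring
  have e2 : psQ rc rs d.y1 d.y2 * (mu n / 2 * gN n d.b) + (-(mu n / 2) * NSd n rc rs d.sw) =
      mu n / 2 * XX n 1 (-d.b) (-d.a) (rc * d.y1 ^ 2 + rs * d.y2 ^ 2) (rc * d.x1 ^ 2 + rs * d.x2 ^ 2)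
        (-(rc * (d.x1 * d.y1) + rs * (d.x2 * d.y2))) := by
    have hg : gN n (-d.b) = gN n d.b := by
      unfold gN
      have h1 : (-d.b) ^ (2 * n + 2) = d.b ^ (2 * n + 2) := by
        have : Even (2 * n + 2) := ⟨n + 1, by ring⟩
        exact this.neg_pow _
      rw [h1, neg_sq]
    have h3 : NSd n rc rs d.sw = NS (GN n) (dG n) (fun x => 2 * AN n x) (fun x => 2 * SY.dA n x)
        (fun x => 2 * BN n x) (fun x => 2 * dB n x) (fun x => 2 * CN n x) (fun x => 2 * dC n x) 1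
        (-d.b) (-d.a) (rc * d.y1 ^ 2 + rs * d.y2 ^ 2) (rc * d.x1 ^ 2 + rs * d.x2 ^ 2)
        (-(rc * (d.x1 * d.y1) + rs * (d.x2 * d.y2))) := by
      unfold NSd Dt.sw
      congr 1 <;> ring
    rw [h3]
    unfold psQ NS XX
    rw [hg]
    ring
  have e3 := hALG.parX n 1 d.b d.a (rc * d.y1 ^ 2 + rs * d.y2 ^ 2) (rc * d.x1 ^ 2 + rs * d.x2 ^ 2)
    (rc * (d.x1 * d.y1) + rs * (d.x2 * d.y2))
  have e4 := hALG.idn n 1 d.a d.b (rc * d.x1 ^ 2 + rs * d.x2 ^ 2) (rc * d.y1 ^ 2 + rs * d.y2 ^ 2)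
    (rc * (d.x1 * d.y1) + rs * (d.x2 * d.y2))
  rw [e3] at e2
  unfold TTd
  linear_combination e1 + e2 + mu n / 2 * e4

end TTEM

open TTEM

/-- **TTE**. -/
theorem specTTE (hALG : SpecALG) (hNQA : SpecNQA) : SpecTTE := by
  intro n rc rs
  exact ⟨fun d => -(mu n / 2) * NSd n rc rs d, Nul_smul (nsd_nul hALG hNQA n rc rs) _,
    fun d => sw_id n rc rs hALG d⟩

/-- **TTN**. -/
theorem specTTN (hTTE : SpecTTE) (hPOS : SpecPOS) : SpecTTN := by
  intro n rc rs hrc hrc1 hrs hrs1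
  obtain ⟨N, hN, hd⟩ := hTTE n rc rs
  refine ⟨N, hN, fun d hD => ?_⟩
  rw [hd d]
  have ha : |d.a| ≤ 1 := by
    have := hD.ae
    have := abs_nonneg d.e
    linarith
  have hb : |d.b| ≤ 1 := by
    have := hD.bf
    have := abs_nonneg d.f
    linarith
  have hmu : 0 ≤ mu n := by
    unfold mu ww
    positivity
  refine mul_nonneg hmu (hPOS n 1 d.a d.b _ _ _ one_pos ha hb (by positivity) (by positivity) ?_ ?_ ?_)
  · have h1 := hD.x2
    nlinarith [mul_le_mul_of_nonneg_right hrc1 (sq_nonneg d.x1),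
      mul_le_mul_of_nonneg_right hrs1 (sq_nonneg d.x2)]
  · have h1 := hD.y2
    nlinarith [mul_le_mul_of_nonneg_right hrc1 (sq_nonneg d.y1),
      mul_le_mul_of_nonneg_right hrs1 (sq_nonneg d.y2)]
  · have h1 : 0 ≤ rc * rs * (d.x1 * d.y2 - d.x2 * d.y1) ^ 2 := by positivity
    nlinarith

end Pool.Agent.Lib.MP_084b88_gt.AY
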