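import Pool.Agent.Lib.MP_084b88_gt.AY.AllAY
import Pool.Agent.Lib.MP_084b88_gt.AY.AC2
import Pool.Agent.Lib.MP_084b88_gt.AY.KPD
import Pool.Agent.Lib.MP_084b88_gt.AY.DAT
import Pool.Agent.Lib.MP_084b88_gt.AY.TIN
import Pool.Agent.Lib.MP_084b88_gt.AY.ARE
import Pool.Agent.Lib.MP_084b88_gt.AY.PLQ
import Pool.Agent.Lib.MP_084b88_gt.AY.SMT
import Pool.Agent.Lib.MP_084b88_gt.AY.KEB
import Pool.Agent.Lib.MP_084b88_gt.AY.GVK
import Pool.Agent.Lib.MP_084b88_gt.AY.GVS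
import Pool.Agent.Lib.MP_084b88_gt.AY.GVX
import Pool.Agent.Lib.MP_084b88_gt.AY.GVM
import Pool.Agent.Lib.MP_084b88_gt.AY.FUL
import Pool.Agent.Lib.MP_084b88_gt.AY.FU2
import Pool.Agent.Lib.MP_084b88_gt.AY.PLR
import Pool.Agent.Lib.MP_084b88_gt.AY.ARF
import Pool.Agent.Lib.MP_084b88_gt.AY.TTE
import Pool.Agent.Lib.MP_084b88_gt.AY.AllT

/-!
# MP_084b88_gt, project AY: assembly of part R (planar theorem for arbitrary bodies from generators)
-/

set_option autoImplicit false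

namespace Pool.Agent.Lib.MP_084b88_gt.AY

open Pool.Agent.Lib.MP_084b88_gt.CW Pool.Agent.Lib.MP_084b88_gt.SY

theorem allAC2 : SpecAC2 := specAC2 allACV CW.allGCV CW.allGAG CW.allHPB
theorem allKPD : SpecKPD := specKPD allKPS allAC2 CW.allGDU CW.allWB2 CW.allHPB CW.allGCV CW.allGAG
theorem allDAT : SpecDAT := specDAT allBNA allXMC LG.allCNT CW.allWB2
theorem allTIN : SpecTIN := specTIN allKPD allDAT allXMC
theorem allARE : SpecARE := specARE CW.allRO2 CW.allWB2 allXMC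
theorem allPLQ : SpecPLQ := specPLQ allCEN allTRA allDAT allARE allXMC LG.allAFQ LG.allLACV LG.allCNT CW.allWB2
theorem allSMT : SpecSMT := specSMT SY.allWAL
theorem allKEB : SpecKEB := specKEB
theorem allGVK : SpecGVK := specGVK allXMC
theorem allGVS : SpecGVS := specGVS LG.allAFQ
theorem allGVX : SpecGVX := specGVX allDAT
theorem allGVM : SpecGVM := specGVM allDAT

theorem allARF : SpecARF := specARF CW.allWB2 CW.allGDU allXMC
theorem allPLR : SpecPLR :=
  specPLR allCEN allTRA allDAT allARE allARF allXMC LG.allAFQ LG.allLACV LG.allCNT CW.allWB2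
theorem allTTE : SpecTTE := specTTE SY.allALG allNQA
theorem allTTN : SpecTTN := specTTN allTTE SY.allPOS

/-- Q1 for every convex body, from a planar certificate CERR. -/
theorem fullR (T : Set GP) (W L : ℝ → ℝ) (mu : ℝ) (hmu : 0 ≤ mu)
    (hT : ∀ g ∈ T, GV8 g) (hW : ContinuousOn W (Set.Icc (7 / 100) 2))
    (hL : ContinuousOn L (Set.Icc (7 / 100) 2))
    (hroot : ∀ y ∈ Set.Icc (7 / 100 : ℝ) 2,
      taup * W y ^ 2 ≤ (1 + taup) * ((1 + y) ^ 2 / (4 * y) - L y ^ 2 / 2))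
    (hC : CERR T W L mu (7 / 100)) (K : Set E3) (hK : CC K) (hi : (interior K).Nonempty) :
    ∀ c : ℝ, Q1 K c :=
  fullOf2 allAS0 allPLR CW.allHAA CW.allMEA CW.allLEN CW.allCAU allTHF T W L mu hmu hT hW hL hroot hC
    K hK hi

end Pool.Agent.Lib.MP_084b88_gt.AY
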