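import Pool.Agent.Lib.MP_084b88_gt.SY.Defs

/-!
# MP_084b88_gt (Chakerian), project AY (asymmetric bodies): definitions

Two point calculus of a smooth planar body with half width `h` and odd part `g` of the support function:
`s = t + α`, `0 < α < π`, `P = sin α/(h(s) h(t))`, `a = <y_s,u_t>/h(t)`, `b = <y_t,u_s>/h(s)` (`y` = boundary point
of the symmetral, `SY.aa`, `SY.bb`), `ea`, `eb` the strip coordinates of the midpoints,
`Gt = g(t)/h(t)`, `Gs = g(s)/h(s)`.
-/

set_option autoImplicit false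

open MeasureTheory Set Real
open scoped Pointwise InnerProductSpace

namespace Pool.Agent.Lib.MP_084b88_gt.AY

open Pool.Agent.Lib.MP_084b88_gt.CW Pool.Agent.Lib.MP_084b88_gt.SY

/-- Smooth planar bodies: half width `h`, odd part `g`; `h1 = h'`, `h2 = h''`, `g1 = g'`, `g2 = g''`. -/
structure Sg (h h1 h2 g g1 g2 : ℝ → ℝ) : Prop where
  sm : Sm h h1 h2
  d1 : ∀ x, HasDerivAt g (g1 x) x
  d2 : ∀ x, HasDerivAt g1 (g2 x) x
  c2 : Continuous g2
  per : ∀ x, g (x + π) = - g x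
  per1 : ∀ x, g1 (x + π) = - g1 x
  rad : ∀ x, |g x + g2 x| ≤ h x + h2 x

/-- Strip coordinate in direction `t` of the midpoint `m_s`, `s = t + α`. -/
noncomputable def ea (h g g1 : ℝ → ℝ) (t α : ℝ) : ℝ :=
  (g (t + α) * cos α - g1 (t + α) * sin α - g t) / h t

/-- Strip coordinate in direction `s = t + α` of the midpoint `m_t`. -/
noncomputable def eb (h g g1 : ℝ → ℝ) (t α : ℝ) : ℝ :=
  (g t * cos α + g1 t * sin α - g (t + α)) / h (t + α)

/-- `γ(θ) = g(θ)/h(θ)`. -/
noncomputable def gm (h g : ℝ → ℝ) (θ : ℝ) : ℝ := g θ / h θ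

/-- `δ = Gs - b Gt`. -/
noncomputable def dl (h h1 g : ℝ → ℝ) (t α : ℝ) : ℝ := gm h g (t + α) - bb h h1 t α * gm h g t

/-- The linear function `<(x,y), u_θ>`. -/
noncomputable def ln (x y θ : ℝ) : ℝ := x * cos θ + y * sin θ

end Pool.Agent.Lib.MP_084b88_gt.AY
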