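import Pool.Agent.Lib.MP_084b88_gt.AY.Spec
import Pool.Agent.Lib.MP_084b88_gt.SY.ABR

/-!
# MP_084b88_gt, project AY, module EBR: calculus of `ea`, `eb`, `gm`, `dl`, `ln`
-/

set_option autoImplicit false

open MeasureTheory Set Real Filter Topology
open scoped Pointwise InnerProductSpace

namespace Pool.Agent.Lib.MP_084b88_gt.AY

open Pool.Agent.Lib.MP_084b88_gt.CW Pool.Agent.Lib.MP_084b88_gt.SY

namespace EBRM

variable {h h1 h2 g g1 g2 : ℝ → ℝ}

theorem cont_g (S : Sg h h1 h2 g g1 g2) : Continuous g :=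
  continuous_iff_continuousAt.2 fun x => (S.d1 x).continuousAt

theorem cont_g1 (S : Sg h h1 h2 g g1 g2) : Continuous g1 :=
  continuous_iff_continuousAt.2 fun x => (S.d2 x).continuousAt

/-- anti-periodic continuous functions are bounded -/
theorem bdd {f : ℝ → ℝ} (hf : Continuous f) (hp : ∀ x, |f (x + π)| = |f x|) :
    ∃ K : ℝ, 0 ≤ K ∧ ∀ x, |f x| ≤ K := by
  have hper : Function.Periodic (fun x => |f x|) π := hp
  have hc := hper.compact_of_continuous Real.pi_ne_zero hf.abs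
  obtain ⟨m, hm⟩ := hc.exists_isGreatest (Set.range_nonempty _)
  have h0 : ∀ x, |f x| ≤ m := fun x => hm.2 ⟨x, rfl⟩
  exact ⟨m, (abs_nonneg _).trans (h0 0), h0⟩

theorem ea_ends (S : Sg h h1 h2 g g1 g2) (t : ℝ) :
    ea h g g1 t 0 = 0 ∧ ea h g g1 t π = 0 := by
  unfold ea
  constructor
  · simp
  · rw [S.per, S.per1]
    simp

theorem ea_swap (S : Sg h h1 h2 g g1 g2) (t α : ℝ) :
    ea h g g1 (t + α) (π - α) = eb h g g1 t α ∧ eb h g g1 (t + α) (π - α) = - ea h g g1 t α := by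
  have e : t + α + (π - α) = t + π := by ring
  unfold ea eb
  rw [e, S.per, S.per1, S.sm.per, Real.cos_pi_sub, Real.sin_pi_sub]
  constructor
  · congr 1
    ring
  · rw [← neg_div]
    congr 1
    ring

theorem ea_shift (S : Sg h h1 h2 g g1 g2) (t α : ℝ) :
    ea h g g1 (t + π) α = - ea h g g1 t α ∧ eb h g g1 (t + π) α = - eb h g g1 t α := by
  have e : t + π + α = t + α + π := by ring
  unfold ea eb
  rw [e, S.per, S.per, S.per1, S.per1, S.sm.per, S.sm.per, ← neg_div, ← neg_div]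
  constructor
  · congr 1
    ring
  · congr 1
    ring

theorem gm_shift (S : Sg h h1 h2 g g1 g2) (t : ℝ) : gm h g (t + π) = - gm h g t := by
  unfold gm
  rw [S.per, S.sm.per, neg_div]

theorem ea_der (S : Sg h h1 h2 g g1 g2) (t α : ℝ) :
    HasDerivAt (fun y => ea h g g1 t y) (-((g (t + α) + g2 (t + α)) * sin α) / h t) α := by
  have e1 : HasDerivAt (fun y => g (t + y)) (g1 (t + α)) α := (S.d1 (t + α)).comp_const_add t α
  have e2 : HasDerivAt (fun y => g1 (t + y)) (g2 (t + α)) α := (S.d2 (t + α)).comp_const_add t α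
  have e3 := ((((e1.mul (Real.hasDerivAt_cos α)).sub (e2.mul (Real.hasDerivAt_sin α))).sub_const
    (g t))).div_const (h t)
  refine HasDerivAt.congr_deriv (f := fun y => ea h g g1 t y) e3 ?_
  ring

theorem abs_pair {x y : ℝ} (h1 : -1 ≤ x + y) (h2 : x + y ≤ 1) (h3 : -1 ≤ x - y)
    (h4 : x - y ≤ 1) : |x| + |y| ≤ 1 := by
  rcases abs_cases x with ⟨h, -⟩ | ⟨h, -⟩ <;> rcases abs_cases y with ⟨h', -⟩ | ⟨h', -⟩ <;>
    rw [h, h'] <;> linarith

theorem aa_ea (S : Sg h h1 h2 g g1 g2) (t α : ℝ) (hα : α ∈ Icc (0 : ℝ) π) :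
    |aa h h1 t α| + |ea h g g1 t α| ≤ 1 := by
  have ht := S.sm.pos t
  have hsin : ∀ y ∈ Icc (0 : ℝ) π, 0 ≤ sin y := fun y hy =>
    Real.sin_nonneg_of_nonneg_of_le_pi hy.1 hy.2
  obtain ⟨a0, aπ⟩ := ABRM.aa_ends S.sm t
  obtain ⟨e0, eπ⟩ := ea_ends S t
  have m1 := ABRM.mono_aux (fun y => -(aa h h1 t y + ea h g g1 t y))
    (fun y => -(-((h (t + y) + h2 (t + y)) * sin y) / h t +
      -((g (t + y) + g2 (t + y)) * sin y) / h t))
    (fun y => ((ABRM.aa_der S.sm t y).add (ea_der S t y)).neg)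
    (fun y hy => by
      have h3 := hsin y hy
      have h4 := abs_le.1 (S.rad (t + y))
      have : -(-((h (t + y) + h2 (t + y)) * sin y) / h t +
        -((g (t + y) + g2 (t + y)) * sin y) / h t) =
        ((h (t + y) + h2 (t + y)) + (g (t + y) + g2 (t + y))) * sin y / h t := by ring
      rw [this]
      exact div_nonneg (mul_nonneg (by linarith [h4.1]) h3) ht.le) α hα
  have m2 := ABRM.mono_aux (fun y => -(aa h h1 t y - ea h g g1 t y))
    (fun y => -(-((h (t + y) + h2 (t + y)) * sin y) / h t -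
      -((g (t + y) + g2 (t + y)) * sin y) / h t))
    (fun y => ((ABRM.aa_der S.sm t y).sub (ea_der S t y)).neg)
    (fun y hy => by
      have h3 := hsin y hy
      have h4 := abs_le.1 (S.rad (t + y))
      have : -(-((h (t + y) + h2 (t + y)) * sin y) / h t -
        -((g (t + y) + g2 (t + y)) * sin y) / h t) =
        ((h (t + y) + h2 (t + y)) - (g (t + y) + g2 (t + y))) * sin y / h t := by ring
      rw [this]
      exact div_nonneg (mul_nonneg (by linarith [h4.2]) h3) ht.le) α hα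
  simp only [a0, aπ, e0, eπ] at m1 m2
  exact abs_pair (by linarith [m1.2]) (by linarith [m1.1]) (by linarith [m2.2])
    (by linarith [m2.1])

theorem bb_eb (S : Sg h h1 h2 g g1 g2) (t α : ℝ) (hα : α ∈ Icc (0 : ℝ) π) :
    |bb h h1 t α| + |eb h g g1 t α| ≤ 1 := by
  have hα' : π - α ∈ Icc (0 : ℝ) π := ⟨by linarith [hα.2], by linarith [hα.1]⟩
  have := aa_ea S (t + α) (π - α) hα'
  rw [(ea_swap S t α).1] at this
  rw [ABRM.bb_aa S.sm t α, abs_neg]
  exact this

/-- the numerator of `δ` -/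
noncomputable def DD (h h1 g : ℝ → ℝ) (t α : ℝ) : ℝ :=
  g (t + α) * h t - (h t * cos α + h1 t * sin α) * g t

/-- its derivative -/
noncomputable def DD' (h h1 g g1 : ℝ → ℝ) (t α : ℝ) : ℝ :=
  g1 (t + α) * h t - (h t * (-sin α) + h1 t * cos α) * g t

theorem DD_der (S : Sg h h1 h2 g g1 g2) (t α : ℝ) :
    HasDerivAt (fun y => DD h h1 g t y) (DD' h h1 g g1 t α) α := by
  have e1 : HasDerivAt (fun y => g (t + y)) (g1 (t + α)) α := (S.d1 (t + α)).comp_const_add t α
  exact (e1.mul_const (h t)).sub (((((Real.hasDerivAt_cos α).const_mul (h t)).add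
    ((Real.hasDerivAt_sin α).const_mul (h1 t)))).mul_const (g t))

theorem DD_ends (S : Sg h h1 h2 g g1 g2) (t : ℝ) : DD h h1 g t 0 = 0 ∧ DD h h1 g t π = 0 := by
  unfold DD
  constructor
  · simp [mul_comm]
  · rw [S.per]
    simp only [Real.cos_pi, Real.sin_pi]
    ring

theorem DD'_ends (S : Sg h h1 h2 g g1 g2) (t : ℝ) :
    DD' h h1 g g1 t 0 = g1 t * h t - g t * h1 t ∧
      DD' h h1 g g1 t π = -(g1 t * h t - g t * h1 t) := by
  unfold DD'
  constructor
  · simp [mul_comm]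
  · rw [S.per1]
    simp only [Real.cos_pi, Real.sin_pi]
    ring

theorem dl_eq (S : Sg h h1 h2 g g1 g2) (t α : ℝ) :
    dl h h1 g t α = DD h h1 g t α / (h (t + α) * h t) := by
  have hs := (S.sm.pos (t + α)).ne'
  have ht := (S.sm.pos t).ne'
  unfold dl gm bb DD
  field_simp

theorem dl_bd (S : Sg h h1 h2 g g1 g2) :
    ∃ L : ℝ, 0 ≤ L ∧ ∀ t, ∀ α ∈ Icc (0 : ℝ) π, |dl h h1 g t α| ≤ L * sin α := by
  obtain ⟨m, hm, hmh⟩ := ABRM.exists_min S.sm
  obtain ⟨Kh, hKh, bh⟩ := bdd (ABRM.cont_h S.sm) (fun x => by rw [S.sm.per])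
  obtain ⟨Kh1, hKh1, bh1⟩ := bdd (ABRM.cont_h1 S.sm) (fun x => by rw [S.sm.per1])
  obtain ⟨Kg, hKg, bg⟩ := bdd (cont_g S) (fun x => by rw [S.per, abs_neg])
  obtain ⟨Kg1, hKg1, bg1⟩ := bdd (cont_g1 S) (fun x => by rw [S.per1, abs_neg])
  set K : ℝ := Kg1 * Kh + (Kh + Kh1) * Kg with hK
  have hK0 : 0 ≤ K := by positivity
  have hD' : ∀ t α, |DD' h h1 g g1 t α| ≤ K := by
    intro t α
    unfold DD'
    have i1 : |g1 (t + α) * h t| ≤ Kg1 * Kh := by
      rw [abs_mul]
      exact mul_le_mul (bg1 _) (bh _) (abs_nonneg _) hKg1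
    have i2 : |h t * (-sin α)| ≤ Kh := by
      rw [abs_mul, abs_neg]
      exact (mul_le_of_le_one_right (abs_nonneg _) (Real.abs_sin_le_one α)).trans (bh _)
    have i3 : |h1 t * cos α| ≤ Kh1 := by
      rw [abs_mul]
      exact (mul_le_of_le_one_right (abs_nonneg _) (Real.abs_cos_le_one α)).trans (bh1 _)
    have i4 : |(h t * (-sin α) + h1 t * cos α) * g t| ≤ (Kh + Kh1) * Kg := by
      rw [abs_mul]
      exact mul_le_mul ((abs_add_le _ _).trans (add_le_add i2 i3)) (bg _) (abs_nonneg _)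
        (by positivity)
    exact (abs_sub _ _).trans (add_le_add i1 i4)
  have hlip : ∀ t x y, |DD h h1 g t y - DD h h1 g t x| ≤ K * |y - x| := by
    intro t x y
    have := Convex.norm_image_sub_le_of_norm_hasDerivWithin_le (f := fun z => DD h h1 g t z)
      (f' := fun z => DD' h h1 g g1 t z) (C := K) (s := Set.univ) (x := x) (y := y)
      (fun z _ => (DD_der S t z).hasDerivWithinAt) (fun z _ => by
        rw [Real.norm_eq_abs]
        exact hD' t z) convex_univ (mem_univ _) (mem_univ _)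
    simpa only [Real.norm_eq_abs] using this
  have hD : ∀ t, ∀ α ∈ Icc (0 : ℝ) π, |DD h h1 g t α| ≤ K * (π / 2) * sin α := by
    intro t α hα
    obtain ⟨d0, dπ⟩ := DD_ends S t
    have hpi := Real.pi_pos
    rcases le_total α (π / 2) with hc | hc
    · have h3 := hlip t 0 α
      rw [d0, sub_zero, sub_zero, abs_of_nonneg hα.1] at h3
      have h4 := Real.mul_le_sin hα.1 hc
      have h5 : α ≤ π / 2 * sin α := by
        have : π / 2 * (2 / π * α) ≤ π / 2 * sin α := mul_le_mul_of_nonneg_left h4 (by positivity)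
        calc α = π / 2 * (2 / π * α) := by field_simp
          _ ≤ _ := this
      calc |DD h h1 g t α| ≤ K * α := h3
        _ ≤ K * (π / 2 * sin α) := mul_le_mul_of_nonneg_left h5 hK0
        _ = _ := by ring
    · have h3 := hlip t π α
      rw [dπ, sub_zero, abs_sub_comm, abs_of_nonneg (by linarith [hα.2] : 0 ≤ π - α)] at h3
      have h4 := Real.mul_le_sin (x := π - α) (by linarith [hα.2]) (by linarith)
      rw [Real.sin_pi_sub] at h4
      have h5 : π - α ≤ π / 2 * sin α := by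
        have : π / 2 * (2 / π * (π - α)) ≤ π / 2 * sin α :=
          mul_le_mul_of_nonneg_left h4 (by positivity)
        calc π - α = π / 2 * (2 / π * (π - α)) := by field_simp
          _ ≤ _ := this
      calc |DD h h1 g t α| ≤ K * (π - α) := h3
        _ ≤ K * (π / 2 * sin α) := mul_le_mul_of_nonneg_left h5 hK0
        _ = _ := by ring
  refine ⟨K * (π / 2) / (m * m), by positivity, fun t α hα => ?_⟩
  have hsin : 0 ≤ sin α := Real.sin_nonneg_of_nonneg_of_le_pi hα.1 hα.2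
  rw [dl_eq S, abs_div, abs_of_pos (mul_pos (S.sm.pos (t + α)) (S.sm.pos t)),
    div_mul_eq_mul_div]
  exact div_le_div₀ (by positivity) (hD t α hα) (by positivity)
    (mul_le_mul (hmh _) (hmh _) hm.le (S.sm.pos _).le)

theorem gm_bd (S : Sg h h1 h2 g g1 g2) : ∃ L : ℝ, 0 ≤ L ∧ ∀ t, |gm h g t| ≤ L := by
  obtain ⟨m, hm, hmh⟩ := ABRM.exists_min S.sm
  obtain ⟨Kg, hKg, bg⟩ := bdd (cont_g S) (fun x => by rw [S.per, abs_neg])
  refine ⟨Kg / m, by positivity, fun t => ?_⟩
  unfold gm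
  rw [abs_div, abs_of_pos (S.sm.pos t)]
  exact div_le_div₀ hKg (bg t) hm (hmh t)

theorem bounds (S : Sg h h1 h2 g g1 g2) :
    ∃ L : ℝ, 0 ≤ L ∧ ∀ t, ∀ α ∈ Icc (0 : ℝ) π, |ea h g g1 t α| ≤ L * sin α ^ 2 ∧
      |eb h g g1 t α| ≤ L * sin α ^ 2 ∧ |dl h h1 g t α| ≤ L * sin α ∧ |gm h g t| ≤ L := by
  obtain ⟨L1, hL1, b1⟩ := ABRM.bounds S.sm
  obtain ⟨L2, hL2, b2⟩ := dl_bd S
  obtain ⟨L3, hL3, b3⟩ := gm_bd S
  refine ⟨L1 + L2 + L3, by positivity, fun t α hα => ?_⟩
  obtain ⟨a1, a2, a3, a4, -⟩ := b1 t α hα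
  have c1 := aa_ea S t α hα
  have c2 := bb_eb S t α hα
  have hs2 : 0 ≤ sin α ^ 2 := sq_nonneg _
  have hs : 0 ≤ sin α := Real.sin_nonneg_of_nonneg_of_le_pi hα.1 hα.2
  have q1 : aa h h1 t α ^ 2 ≤ |aa h h1 t α| := by
    rw [← sq_abs]
    nlinarith [abs_nonneg (aa h h1 t α)]
  have q2 : bb h h1 t α ^ 2 ≤ |bb h h1 t α| := by
    rw [← sq_abs]
    nlinarith [abs_nonneg (bb h h1 t α)]
  have r1 : 0 ≤ L2 * sin α ^ 2 := by positivity
  have r2 : 0 ≤ L3 * sin α ^ 2 := by positivity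
  have r3 : 0 ≤ L1 * sin α := by positivity
  have r4 : 0 ≤ L3 * sin α := by positivity
  have d1 := b2 t α hα
  have d2 := b3 t
  refine ⟨?_, ?_, ?_, ?_⟩
  · linarith
  · linarith
  · linarith
  · linarith

theorem eb_der (S : Sg h h1 h2 g g1 g2) (t α : ℝ) (hα : α ∈ Ioo (0 : ℝ) π) :
    HasDerivAt (fun y => eb h g g1 t y)
      ((ea h g g1 t α + aa h h1 t α * eb h g g1 t α) * h t / (h (t + α) * sin α)) α := by
  have e1 : HasDerivAt (fun y => h (t + y)) (h1 (t + α)) α := (S.sm.d1 (t + α)).comp_const_add t α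
  have e2 : HasDerivAt (fun y => g (t + y)) (g1 (t + α)) α := (S.d1 (t + α)).comp_const_add t α
  have hs := S.sm.pos (t + α)
  have ht := S.sm.pos t
  have hsin := ABRM.sin_pos' hα
  have e3 := ((((Real.hasDerivAt_cos α).const_mul (g t)).add
    ((Real.hasDerivAt_sin α).const_mul (g1 t))).sub e2).div e1 hs.ne'
  refine HasDerivAt.congr_deriv (f := fun y => eb h g g1 t y) e3 ?_
  have hp : sin α ^ 2 + cos α ^ 2 = 1 := Real.sin_sq_add_cos_sq α
  unfold ea eb aa
  simp only [Pi.add_apply, Pi.sub_apply]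
  field_simp
  linear_combination (-(g t * h (t + α))) * hp

theorem gm_der (S : Sg h h1 h2 g g1 g2) (t α : ℝ) (hα : α ∈ Ioo (0 : ℝ) π) :
    HasDerivAt (fun y => gm h g (t + y))
      (-((ea h g g1 t α + gm h g t - aa h h1 t α * gm h g (t + α)) * h t) /
        (h (t + α) * sin α)) α := by
  have e1 : HasDerivAt (fun y => h (t + y)) (h1 (t + α)) α := (S.sm.d1 (t + α)).comp_const_add t α
  have e2 : HasDerivAt (fun y => g (t + y)) (g1 (t + α)) α := (S.d1 (t + α)).comp_const_add t α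
  have hs := S.sm.pos (t + α)
  have ht := S.sm.pos t
  have hsin := ABRM.sin_pos' hα
  have e3 := e2.div e1 hs.ne'
  refine HasDerivAt.congr_deriv (f := fun y => gm h g (t + y)) e3 ?_
  unfold ea aa gm
  field_simp
  ring

theorem dl_der (S : Sg h h1 h2 g g1 g2) (t α : ℝ) (hα : α ∈ Ioo (0 : ℝ) π) :
    HasDerivAt (fun y => dl h h1 g t y)
      (-((ea h g g1 t α - aa h h1 t α * dl h h1 g t α) * h t) / (h (t + α) * sin α)) α := by
  have e3 := (gm_der S t α hα).sub ((ABRM.bb_der S.sm t α hα).mul_const (gm h g t))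
  refine HasDerivAt.congr_deriv (f := fun y => dl h h1 g t y) e3 ?_
  unfold dl
  ring

theorem lim_ratio {D T : ℝ → ℝ} {D' T' x : ℝ} (hD : HasDerivAt D D' x) (hT : HasDerivAt T T' x)
    (D0 : D x = 0) (T0 : T x = 0) (hT' : T' ≠ 0) :
    Tendsto (fun α => D α / T α) (𝓝[≠] x) (𝓝 (D' / T')) := by
  have h1 := (hasDerivAt_iff_tendsto_slope.1 hD).div (hasDerivAt_iff_tendsto_slope.1 hT) hT'
  refine h1.congr' ?_
  filter_upwards [self_mem_nhdsWithin] with y hy
  have hy' : y - x ≠ 0 := sub_ne_zero.2 hy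
  show slope D x y / slope T x y = D y / T y
  rw [slope_def_field, slope_def_field, D0, T0, sub_zero, sub_zero]
  exact div_div_div_cancel_right₀ hy' _ _

theorem lims (S : Sg h h1 h2 g g1 g2) (t : ℝ) :
    Tendsto (fun α => h (t + α) * dl h h1 g t α / (h t * sin α)) (𝓝[>] 0)
        (𝓝 ((g1 t * h t - g t * h1 t) / h t ^ 2)) ∧
      Tendsto (fun α => h (t + α) * dl h h1 g t α / (h t * sin α)) (𝓝[<] π)
        (𝓝 ((g1 t * h t - g t * h1 t) / h t ^ 2)) := by
  have ht := S.sm.pos t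
  have heq : (fun α => h (t + α) * dl h h1 g t α / (h t * sin α)) =
      fun α => (DD h h1 g t α / sin α) / h t ^ 2 := by
    funext α
    rw [dl_eq S]
    have hs := (S.sm.pos (t + α)).ne'
    field_simp
  obtain ⟨d0, dπ⟩ := DD_ends S t
  obtain ⟨f0, fπ⟩ := DD'_ends S t
  rw [heq]
  constructor
  · have h3 := lim_ratio (DD_der S t 0) (Real.hasDerivAt_sin 0) d0 Real.sin_zero
      (by rw [Real.cos_zero]; exact one_ne_zero)
    rw [f0, Real.cos_zero, div_one] at h3
    exact (h3.mono_left (nhdsWithin_mono _ fun y hy => (ne_of_gt hy))).div_const _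
  · have h3 := lim_ratio (DD_der S t π) (Real.hasDerivAt_sin π) dπ Real.sin_pi
      (by rw [Real.cos_pi]; norm_num)
    rw [fπ, Real.cos_pi, div_neg, div_one, neg_neg] at h3
    exact (h3.mono_left (nhdsWithin_mono _ fun y hy => (ne_of_lt hy))).div_const _

theorem ln_der (S : Sg h h1 h2 g g1 g2) (x y t α : ℝ) (hα : α ∈ Ioo (0 : ℝ) π) :
    HasDerivAt (fun z => ln x y (t + z) / h (t + z))
      (-((ln x y t / h t - aa h h1 t α * (ln x y (t + α) / h (t + α))) * h t) /
        (h (t + α) * sin α)) α := by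
  have e1 : HasDerivAt (fun y => h (t + y)) (h1 (t + α)) α := (S.sm.d1 (t + α)).comp_const_add t α
  have ec : HasDerivAt (fun y => cos (t + y)) (-sin (t + α)) α :=
    (Real.hasDerivAt_cos (t + α)).comp_const_add t α
  have es : HasDerivAt (fun y => sin (t + y)) (cos (t + α)) α :=
    (Real.hasDerivAt_sin (t + α)).comp_const_add t α
  have hs := S.sm.pos (t + α)
  have ht := S.sm.pos t
  have hsin := ABRM.sin_pos' hα
  have e2 := ((ec.const_mul x).add (es.const_mul y)).div e1 hs.ne'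
  refine HasDerivAt.congr_deriv (f := fun z => ln x y (t + z) / h (t + z)) e2 ?_
  have hct : cos t = cos (t + α) * cos α + sin (t + α) * sin α := by
    rw [← Real.cos_sub]
    congr 1
    ring
  have hst : sin t = sin (t + α) * cos α - cos (t + α) * sin α := by
    rw [← Real.sin_sub]
    congr 1
    ring
  unfold aa ln
  simp only [Pi.add_apply]
  rw [hct, hst]
  field_simp
  ring

end EBRM

theorem specEBR : SpecEBR := by
  intro h h1 h2 g g1 g2 S
  have ch := ABRM.cont_h S.sm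
  have ch1 := ABRM.cont_h1 S.sm
  have cg := EBRM.cont_g S
  have cg1 := EBRM.cont_g1 S
  refine ⟨?_, ?_, ?_, EBRM.ea_ends S, EBRM.ea_swap S, EBRM.ea_shift S, EBRM.gm_shift S,
    EBRM.ea_der S, fun t α hα => ⟨EBRM.aa_ea S t α hα, EBRM.bb_eb S t α hα⟩, EBRM.bounds S,
    EBRM.eb_der S, EBRM.gm_der S, EBRM.dl_der S, EBRM.lims S,
    fun x y t α hα => EBRM.ln_der S x y t α hα⟩
  · unfold ea
    exact Continuous.div (by fun_prop) (by fun_prop) (fun x => (S.sm.pos _).ne')
  · unfold eb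
    exact Continuous.div (by fun_prop) (by fun_prop) (fun x => (S.sm.pos _).ne')
  · unfold gm
    exact Continuous.div cg ch (fun x => (S.sm.pos _).ne')

end Pool.Agent.Lib.MP_084b88_gt.AY
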