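import Pool.Agent.Lib.MP_084b88_gt.AY.SpecU

/-!
# MP_084b88_gt, project AY, part V: kernel certificates with indefinite forms `Q`

As part U, for arbitrary real `rc, rs ≤ 4/5`. The symmetric part of the tail is `∑_{k ≥ K0} c_k μ_{k+1} TT_{k+1}` with the
kernel `TT` of project SY, which is not nonnegative for indefinite `Q`; the certificate uses a minorant `TL d`.

Rules as in part U.
-/

set_option autoImplicit false

open MeasureTheory Set Real Filter Topology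
open scoped Pointwise InnerProductSpace

namespace Pool.Agent.Lib.MP_084b88_gt.AY

open Pool.Agent.Lib.MP_084b88_gt.CW Pool.Agent.Lib.MP_084b88_gt.SY Pool.Agent.Lib.MP_084b88_gt.LG

/-- The kernel `TT` at the data. -/
noncomputable def TTd (n : ℕ) (rc rs : ℝ) (d : Dt) : ℝ :=
  TT n 1 d.a d.b (rc * d.x1 ^ 2 + rs * d.x2 ^ 2) (rc * d.y1 ^ 2 + rs * d.y2 ^ 2)
    (rc * (d.x1 * d.y1) + rs * (d.x2 * d.y2))

/-- **TTE** (120 lines, from `SY` ALG, AY NQA). The identity behind TTN, for all real `rc, rs` (no sign condition; no `Dom`). -/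
def SpecTTE : Prop :=
  ∀ (n : ℕ) (rc rs : ℝ), ∃ N : Dt → ℝ, Nul N ∧ ∀ d : Dt,
    psQ rc rs d.x1 d.x2 * (mu n / 2 * gN n d.a) + psQ rc rs d.y1 d.y2 * (mu n / 2 * gN n d.b) +
      N d + N d.sw = mu n * TTd n rc rs d

/-- **KRI** (250 lines, from TIN, SMT, KEB, TTE, DAT, XMC; proof of KRN). Certificate for `∫ v (ψ (aS S + aR R) + Φ) ≥ 0`, `Q` arbitrary;
`ψ ≥ 1/5` because `|x|² ≤ 1` and `rc, rs ≤ 4/5`. (KRN: `TL = 0`, POS.) -/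
def SpecKRI : Prop :=
  ∀ (K0 : ℕ) (rc rs aS aR κ0 : ℝ) (U : ℝ → ℝ) (Φ μ1 μ2 : ℝ → ℝ → ℝ → ℝ) (N TL : Dt → ℝ), 1 ≤ K0 →
    rc ≤ 4 / 5 → rs ≤ 4 / 5 → 0 ≤ aS → 0 ≤ aR → κ0 < kap →
    (∀ y ∈ Icc (0 : ℝ) 1, √(1 - y) ≤ U y) →
    Continuous (fun x : ℝ × ℝ × ℝ => Φ x.1 x.2.1 x.2.2) →
    Continuous (fun x : ℝ × ℝ × ℝ => μ1 x.1 x.2.1 x.2.2) →
    Continuous (fun x : ℝ × ℝ × ℝ => μ2 x.1 x.2.1 x.2.2) → Nul N →
    (∃ N1 : ℕ, ∀ n : ℕ, N1 ≤ n → ∀ d : Dt, Dom (1 / 3) (1 / 2) 1 d →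
      TL d ≤ aR * ∑ k ∈ Finset.Ico K0 n, tcf k * (mu (k + 1) * TTd (k + 1) rc rs d)) →
    (∀ d : Dt, Dom (1 / 3) (1 / 2) 1 d →
      0 ≤ KQ K0 rc rs aS aR κ0 U Φ μ1 μ2 d + KQ K0 rc rs aS aR κ0 U Φ μ1 μ2 d.sw + N d + N d.sw +
        TL d) →
    ∀ P : Set (ℝ × ℝ), IsoC P →
      0 ≤ ∫ s in (0 : ℝ)..(2 * π), xf P s *
        ((1 - (rc * cos s ^ 2 + rs * sin s ^ 2) * xf P s) * (aS * Sf (xm P s) + aR * Rm P s) +
        Φ (cos s / (wid P s / 2)) (sin s / (wid P s / 2)) (gc P s))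

/-- **GVK** (80 lines, from DAT, XMC). The generator `g` is valid if the conclusion of KRI holds for all `D` with
`Φ = ψ (C γ² + l γ X + m X² + eps - k (v + 3γ² - 3/4)²)`, `X = D1 x1 + D2 x2`, `v = x1² + x2²`
(`x1 = cos s/(wid/2)`, so `x1² + x2² = xf`, `x1 = √xf cos s`). -/
def SpecGVK : Prop :=
  ∀ g : GP, (∀ D1 D2 : ℝ, ∀ P : Set (ℝ × ℝ), IsoC P →
      0 ≤ ∫ s in (0 : ℝ)..(2 * π), xf P s *
        ((1 - (g.rc * cos s ^ 2 + g.rs * sin s ^ 2) * xf P s) * (g.aS * Sf (xm P s) + g.aR * Rm P s) +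
        (fun x1 x2 γ : ℝ => psQ g.rc g.rs x1 x2 * (g.C * γ ^ 2 + g.l * (γ * (D1 * x1 + D2 * x2)) +
          g.m * (D1 * x1 + D2 * x2) ^ 2 + g.eps - g.k * (x1 ^ 2 + x2 ^ 2 + 3 * γ ^ 2 - 3 / 4) ^ 2))
          (cos s / (wid P s / 2)) (sin s / (wid P s / 2)) (gc P s))) → GV8 g

/-- **GVX** (60 lines). Convexity: the valid `(rc, rs)` with fixed other parameters form a convex set (`GI` is affine in `(rc, rs)`). -/
def SpecGVX : Prop :=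
  ∀ g g' : GP, ∀ w : ℝ, 0 ≤ w → w ≤ 1 → GV8 g → GV8 g' → g'.aS = g.aS → g'.aR = g.aR → g'.C = g.C →
    g'.l = g.l → g'.m = g.m → g'.eps = g.eps → g'.k = g.k →
    GV8 ⟨(1 - w) * g.rc + w * g'.rc, (1 - w) * g.rs + w * g'.rs, g.aS, g.aR, g.C, g.l, g.m, g.eps, g.k⟩

/-- **GVM** (60 lines). Monotonicity: larger `C`, `m`, `eps` and smaller `k` are weaker (`ψ ≥ 0`), `l ↦ -l` (`D ↦ -D`). -/
def SpecGVM : Prop :=
  ∀ g g' : GP, GV8 g → g'.rc = g.rc → g'.rs = g.rs → g.rc ≤ 1 → g.rs ≤ 1 → g'.aS = g.aS → g'.aR = g.aR →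
    (g'.l = g.l ∨ g'.l = -g.l) → g.C ≤ g'.C → g.m ≤ g'.m → g.eps ≤ g'.eps → g'.k ≤ g.k → GV8 g'

/-- **GVS** (60 lines, from `LG` AFQ or directly). Rotation of the body by a right angle exchanges `rc` and `rs`. -/
def SpecGVS : Prop :=
  ∀ g : GP, GV8 g → GV8 ⟨g.rs, g.rc, g.aS, g.aR, g.C, g.l, g.m, g.eps, g.k⟩

end Pool.Agent.Lib.MP_084b88_gt.AY
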