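import Pool.Agent.Lib.MP_084b88_gt.AY.ASQ
import Pool.Agent.Lib.MP_084b88_gt.AY.SpecV

/-!
# MP_084b88_gt, project AY, module HUL: the generators of regime I from three certificates (bilinear interpolation)
-/

set_option autoImplicit false

open MeasureTheory Set Real Filter Topology
open scoped Pointwise InnerProductSpace

namespace Pool.Agent.Lib.MP_084b88_gt.AY

open Pool.Agent.Lib.MP_084b88_gt.CW Pool.Agent.Lib.MP_084b88_gt.SY Pool.Agent.Lib.MP_084b88_gt.LG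

/-- The valid `(rc, rs)` contain the square spanned by `(1/4, 1/4)`, `(1/4, 1/2)`, `(1/2, 1/4)`, `(1/2, 1/2)`. -/
theorem hull (hGVX : SpecGVX) (hGVS : SpecGVS) {C l m : ℝ}
    (h11 : GV8 ⟨1 / 4, 1 / 4, 1, 1, C, l, m, 0, 0⟩) (h12 : GV8 ⟨1 / 4, 1 / 2, 1, 1, C, l, m, 0, 0⟩)
    (h22 : GV8 ⟨1 / 2, 1 / 2, 1, 1, C, l, m, 0, 0⟩) {x y : ℝ} (hx1 : 1 / 4 ≤ x) (hx2 : x ≤ 1 / 2)
    (hy1 : 1 / 4 ≤ y) (hy2 : y ≤ 1 / 2) : GV8 ⟨x, y, 1, 1, C, l, m, 0, 0⟩ := by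
  have h21 : GV8 ⟨1 / 2, 1 / 4, 1, 1, C, l, m, 0, 0⟩ := hGVS _ h12
  have k1 := hGVX _ _ (4 * x - 1) (by linarith) (by linarith) h11 h21 rfl rfl rfl rfl rfl rfl rfl
  have k2 := hGVX _ _ (4 * x - 1) (by linarith) (by linarith) h12 h22 rfl rfl rfl rfl rfl rfl rfl
  have k3 := hGVX _ _ (4 * y - 1) (by linarith) (by linarith) k1 k2 rfl rfl rfl rfl rfl rfl rfl
  simp only at k3
  have e1 : (1 - (4 * y - 1)) * ((1 - (4 * x - 1)) * (1 / 4) + (4 * x - 1) * (1 / 2)) +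
      (4 * y - 1) * ((1 - (4 * x - 1)) * (1 / 4) + (4 * x - 1) * (1 / 2)) = x := by ring
  have e2 : (1 - (4 * y - 1)) * ((1 - (4 * x - 1)) * (1 / 4) + (4 * x - 1) * (1 / 4)) +
      (4 * y - 1) * ((1 - (4 * x - 1)) * (1 / 2) + (4 * x - 1) * (1 / 2)) = y := by ring
  rw [e1, e2] at k3
  exact k3

/-- The hypothesis `hull` of `covI`. -/
theorem hullI (hGVX : SpecGVX) (hGVS : SpecGVS) (p : RP) {C l m : ℝ} (hC : (p.C : ℝ) = C) (hl : (p.l : ℝ) = l)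
    (hm : (p.m : ℝ) = m) (h0 : 0 < (p.q : ℝ)) (hA : 1 / 4 * (1 + (p.q : ℝ)) ≤ p.q * p.A0)
    (hB : (p.q : ℝ) * p.B0 ≤ 1 / 2 * (1 + (p.q : ℝ)))
    (h11 : GV8 ⟨1 / 4, 1 / 4, 1, 1, C, l, m, 0, 0⟩) (h12 : GV8 ⟨1 / 4, 1 / 2, 1, 1, C, l, m, 0, 0⟩)
    (h22 : GV8 ⟨1 / 2, 1 / 2, 1, 1, C, l, m, 0, 0⟩) :
    ∀ A B : ℝ, (p.A0 : ℝ) ≤ A → A ≤ B → B ≤ p.B0 →
      GV8 ⟨p.q / (1 + p.q) * A, p.q / (1 + p.q) * B, 1, 1, p.C, p.l, p.m, 0, 0⟩ := by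
  intro A B h1 h2 h3
  rw [hC, hl, hm]
  have hq : (0 : ℝ) < 1 + p.q := by linarith
  have lo : ∀ t : ℝ, (p.A0 : ℝ) ≤ t → 1 / 4 ≤ p.q / (1 + p.q) * t := by
    intro t ht
    rw [div_mul_eq_mul_div, le_div_iff₀ hq]
    have := mul_le_mul_of_nonneg_left ht h0.le
    linarith
  have hi : ∀ t : ℝ, t ≤ (p.B0 : ℝ) → p.q / (1 + p.q) * t ≤ 1 / 2 := by
    intro t ht
    rw [div_mul_eq_mul_div, div_le_iff₀ hq]
    have := mul_le_mul_of_nonneg_left ht h0.le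
    linarith
  exact hull hGVX hGVS h11 h12 h22 (lo A h1) (hi A (h2.trans h3)) (lo B (h1.trans h2)) (hi B h3)

end Pool.Agent.Lib.MP_084b88_gt.AY
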