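import Pool.Agent.Lib.MP_084b88_gt.AY.RGM

/-!
# MP_084b88_gt, project AY, module RTC: the discriminant of the root, rational check

`rtOK`: `DZ W L 1 y ≥ 89/100` for all `z = 1/y² ∈ [1/4, 205]`; then the root condition of FUL and the hypotheses of `JQ_ge`
with `c0 = 9/40` hold.
-/

set_option autoImplicit false

open MeasureTheory Set Real Filter Topology
open scoped Pointwise InnerProductSpace

namespace Pool.Agent.Lib.MP_084b88_gt.AY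

open Pool.Agent.Lib.MP_084b88_gt.CW Pool.Agent.Lib.MP_084b88_gt.SY Pool.Agent.Lib.MP_084b88_gt.LG
open RG0M RGSM

theorem tau_lo : 807 / 10000 ≤ taup := by
  have h1 := Real.pi_lt_d6
  have h2 : 84882 / 100000 ≤ kap := by
    unfold kap
    rw [le_div_iff₀ (by positivity)]
    linarith
  unfold taup
  nlinarith

/-- Lower bound of `(w+1)²/(4w)`. -/
def omQ (c : RC) : ℚ :=
  if c.w1 ≤ 1 then (c.w1 + 1) ^ 2 / (4 * c.w1) else if 1 ≤ c.w0 then (c.w0 + 1) ^ 2 / (4 * c.w0) else 1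

/-- The check of a cell. -/
def rtQ (c : RC) : Bool :=
  decide (0 < c.w0) && decide (0 < c.z0) && decide (c.z0 < c.z1) && decide (c.w0 ^ 2 ≤ c.z0) &&
  decide (0 < c.w1) && decide (c.z1 ≤ c.w1 ^ 2) &&
  decide (89 / 100 ≤ (1 + 807 / 10000) * omQ c -
    (1 + 8077 / 100000) * max (-(qlo c.z0 c.z1 c.l0 c.l1)) (qhi c.z0 c.z1 c.l0 c.l1) ^ 2 / 2 -
    8077 / 100000 * max (-(qlo c.z0 c.z1 c.o0 c.o1)) (qhi c.z0 c.z1 c.o0 c.o1) ^ 2)

/-- All the checks. -/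
def rtOK (OM LA : List (ℚ × ℚ)) (cs : List RC) : Bool :=
  Inc OM && Inc LA && chn 205 (1 / 4) cs &&
  cs.all fun c => rtQ c && lnOK OM c.z0 c.z1 c.o0 c.o1 && lnOK LA c.z0 c.z1 c.l0 c.l1

theorem om_fun {w : ℝ} (hw : 0 < w) : (w + 1) ^ 2 / (4 * w) = 1 + (w - 1) ^ 2 / (4 * w) := by
  field_simp
  ring

theorem omQ_le {c : RC} (h0 : 0 < c.w0) {w : ℝ} (h1 : (c.w0 : ℝ) ≤ w) (h2 : w ≤ c.w1) :
    ((omQ c : ℚ) : ℝ) ≤ (w + 1) ^ 2 / (4 * w) := by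
  have h0' : (0 : ℝ) < c.w0 := by exact_mod_cast h0
  have hw : 0 < w := by linarith
  unfold omQ
  split_ifs with g1 g2
  · have g := c_le g1
    push_cast at g ⊢
    have hw1 : (0 : ℝ) < c.w1 := by linarith
    rw [div_le_div_iff₀ (by linarith) (by linarith)]
    have : 0 ≤ 4 * ((c.w1 - w) * (1 - c.w1 * w)) := by
      have h3 : c.w1 * w ≤ 1 := by nlinarith
      have := mul_nonneg (sub_nonneg.2 h2) (sub_nonneg.2 h3)
      linarith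
    nlinarith
  · have g := c_le g2
    push_cast at g ⊢
    rw [div_le_div_iff₀ (by linarith) (by linarith)]
    have : 0 ≤ 4 * ((w - c.w0) * (c.w0 * w - 1)) := by
      have h3 : 1 ≤ c.w0 * w := by nlinarith
      have := mul_nonneg (sub_nonneg.2 h1) (sub_nonneg.2 h3)
      linarith
    nlinarith
  · push_cast
    rw [om_fun hw]
    have : 0 ≤ (w - 1) ^ 2 / (4 * w) := by positivity
    linarith

theorem sq_bd {x : ℝ} {a b : ℚ} (h1 : (a : ℝ) ≤ x) (h2 : x ≤ b) : x ^ 2 ≤ ((max (-a) b : ℚ) : ℝ) ^ 2 := by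
  rw [Rat.cast_max]
  push_cast
  apply sq_le_sq'
  · have := le_max_left (-(a : ℝ)) (b : ℝ)
    linarith
  · exact h2.trans (le_max_right _ _)

/-- The lower bound of the discriminant. -/
theorem rt_sound {OM LA : List (ℚ × ℚ)} {cs : List RC} (h : rtOK OM LA cs = true) {z : ℝ}
    (h0 : 1 / 4 ≤ z) (h1 : z < 205) : 89 / 100 ≤ DZ (Wp OM) (Wp LA) 1 (1 / √z) := by
  simp only [rtOK, Bool.and_eq_true, List.all_eq_true] at h
  obtain ⟨⟨⟨i1, i2⟩, i3⟩, i4⟩ := h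
  have hzp : 0 < z := by linarith
  obtain ⟨c, hc, hc0, hc1⟩ := chn_sound i3 (z := z) (by push_cast; linarith) (by push_cast; linarith)
  obtain ⟨⟨j1, j2⟩, j3⟩ := i4 c hc
  simp only [rtQ, Bool.and_eq_true, decide_eq_true_eq] at j1
  obtain ⟨⟨⟨⟨⟨⟨a1, a2⟩, a3⟩, a4⟩, a5⟩, a6⟩, a7⟩ := j1
  have a3' := c_lt a3
  have a4' := c_le a4
  have a5' := c_lt a5
  have a6' := c_le a6
  have a7' := c_le a7
  push_cast at a3' a4' a5' a6'
  obtain ⟨t, ht⟩ : ∃ t, t = (z - (c.z0 : ℝ)) / (c.z1 - c.z0) := ⟨_, rfl⟩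
  have hd : 0 < (c.z1 : ℝ) - c.z0 := by linarith
  have ht0 : 0 ≤ t := by
    rw [ht]
    exact div_nonneg (by linarith) hd.le
  have ht1 : t ≤ 1 := by
    rw [ht, div_le_one hd]
    linarith
  have hzt : z = c.z0 + (c.z1 - c.z0) * t := by
    rw [ht]
    field_simp
    ring
  have hW : Wp OM (1 / √z) = z * (c.o0 + (c.o1 - c.o0) * t) := by
    rw [Wp_z OM hzp, lnOK_sound i1 a3 j2 hc0 hc1, ht]
  have hL : Wp LA (1 / √z) = z * (c.l0 + (c.l1 - c.l0) * t) := by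
    rw [Wp_z LA hzp, lnOK_sound i2 a3 j3 hc0 hc1, ht]
  have b1 := q_bd c.z0 c.z1 c.o0 c.o1 ht0 ht1 hzt
  have b2 := q_bd c.z0 c.z1 c.l0 c.l1 ht0 ht1 hzt
  rw [← hW] at b1
  rw [← hL] at b2
  have s1 := sq_bd b1.1 b1.2
  have s2 := sq_bd b2.1 b2.2
  obtain ⟨w, hw⟩ : ∃ w, w = √z := ⟨_, rfl⟩
  have hw0 : 0 < w := hw ▸ Real.sqrt_pos.2 hzp
  have hwl : (c.w0 : ℝ) ≤ w := by
    rw [hw]
    exact Real.le_sqrt_of_sq_le (a4'.trans hc0)
  have hwu : w ≤ c.w1 := by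
    rw [hw]
    exact Real.sqrt_le_iff.2 ⟨a5'.le, hc1.trans a6'⟩
  have ho := omQ_le a1 hwl hwu
  obtain ⟨x, hx⟩ : ∃ x, x = max (-(qlo c.z0 c.z1 c.l0 c.l1)) (qhi c.z0 c.z1 c.l0 c.l1) := ⟨_, rfl⟩
  obtain ⟨y, hy⟩ : ∃ y, y = max (-(qlo c.z0 c.z1 c.o0 c.o1)) (qhi c.z0 c.z1 c.o0 c.o1) := ⟨_, rfl⟩
  rw [← hx] at s2 a7'
  rw [← hy] at s1 a7'
  push_cast at a7'
  have e1 : (1 + 1 / w) ^ 2 / (4 * (1 / w)) = (w + 1) ^ 2 / (4 * w) := by
    field_simp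
  unfold DZ
  rw [← hw] at s1 s2 ⊢
  rw [e1]
  obtain ⟨o, hoo⟩ : ∃ o, o = (w + 1) ^ 2 / (4 * w) := ⟨_, rfl⟩
  rw [← hoo] at ho ⊢
  have ho1 : 1 ≤ o := by
    rw [hoo, om_fun hw0]
    have : 0 ≤ (w - 1) ^ 2 / (4 * w) := by positivity
    linarith
  have t1 := tau_lo
  have t2 := tau_hi2
  have k1 : (1 + 807 / 10000) * ((omQ c : ℚ) : ℝ) ≤ (1 + taup) * o := by
    have : (1 + 807 / 10000) * ((omQ c : ℚ) : ℝ) ≤ (1 + 807 / 10000) * o :=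
      mul_le_mul_of_nonneg_left ho (by norm_num)
    have : (1 + 807 / 10000) * o ≤ (1 + taup) * o := mul_le_mul_of_nonneg_right (by linarith) (by linarith)
    linarith
  have k2 : (1 + taup) * (Wp LA (1 / w) ^ 2 * 1 / 2) ≤ (1 + 8077 / 100000) * (x : ℝ) ^ 2 / 2 := by
    have : (1 + taup) * Wp LA (1 / w) ^ 2 ≤ (1 + 8077 / 100000) * (x : ℝ) ^ 2 :=
      mul_le_mul (by linarith) s2 (sq_nonneg _) (by norm_num)
    linarith
  have k3 : taup * Wp OM (1 / w) ^ 2 ≤ 8077 / 100000 * (y : ℝ) ^ 2 :=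
    mul_le_mul t2 s1 (sq_nonneg _) (by norm_num)
  have e2 : (1 + taup) * (o - Wp LA (1 / w) ^ 2 * 1 / 2) - taup * Wp OM (1 / w) ^ 2 =
      (1 + taup) * o - (1 + taup) * (Wp LA (1 / w) ^ 2 * 1 / 2) - taup * Wp OM (1 / w) ^ 2 := by ring
  rw [e2]
  linarith

/-- The root condition of FUL. -/
theorem rt_root {OM LA : List (ℚ × ℚ)} {cs : List RC} (h : rtOK OM LA cs = true) :
    ∀ y ∈ Icc (7 / 100 : ℝ) 2,
      taup * Wp OM y ^ 2 ≤ (1 + taup) * ((1 + y) ^ 2 / (4 * y) - Wp LA y ^ 2 / 2) := by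
  intro y hy
  have hy0 : 0 < y := by
    have := hy.1
    linarith
  obtain ⟨z, hz⟩ : ∃ z, z = 1 / y ^ 2 := ⟨_, rfl⟩
  have hzp : 0 < z := by rw [hz]; positivity
  have hsz : 1 / √z = y := by
    rw [hz, Real.sqrt_div zero_le_one, Real.sqrt_one, Real.sqrt_sq hy0.le, one_div_one_div]
  have h0 : 1 / 4 ≤ z := by
    rw [hz, div_le_div_iff₀ (by norm_num) (by positivity)]
    have : y ^ 2 ≤ 2 ^ 2 := pow_le_pow_left₀ hy0.le hy.2 2
    linarith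
  have h1 : z < 205 := by
    rw [hz, div_lt_iff₀ (by positivity)]
    have : (7 / 100 : ℝ) ^ 2 ≤ y ^ 2 := pow_le_pow_left₀ (by norm_num) hy.1 2
    linarith
  have h2 := rt_sound h h0 h1
  rw [hsz] at h2
  unfold DZ at h2
  linarith

/-- The hypotheses of `JQ_ge`. -/
theorem rt_JQ {OM LA : List (ℚ × ℚ)} {cs : List RC} (h : rtOK OM LA cs = true) {z : ℝ}
    (h0 : 1 / 4 ≤ z) (h1 : z < 205) :
    0 ≤ DZ (Wp OM) (Wp LA) 1 (1 / √z) ∧ 0 < DZ (Wp OM) (Wp LA) 0 (1 / √z) ∧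
    kap ≤ 2 * (9 / 40) * (√(DZ (Wp OM) (Wp LA) 0 (1 / √z)) + √(DZ (Wp OM) (Wp LA) 1 (1 / √z))) := by
  have h2 := rt_sound h h0 h1
  have h3 : DZ (Wp OM) (Wp LA) 1 (1 / √z) ≤ DZ (Wp OM) (Wp LA) 0 (1 / √z) := by
    unfold DZ
    have := tau_pos
    nlinarith [mul_nonneg this.le (sq_nonneg (Wp LA (1 / √z))), sq_nonneg (Wp LA (1 / √z))]
  have h4 : (9432 / 10000 : ℝ) ≤ √(DZ (Wp OM) (Wp LA) 1 (1 / √z)) :=
    Real.le_sqrt_of_sq_le (le_trans (by norm_num) h2)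
  have h5 : √(DZ (Wp OM) (Wp LA) 1 (1 / √z)) ≤ √(DZ (Wp OM) (Wp LA) 0 (1 / √z)) :=
    Real.sqrt_le_sqrt h3
  have hk := kap_hi2
  exact ⟨by linarith, by linarith, by linarith⟩

end Pool.Agent.Lib.MP_084b88_gt.AY
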