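import Pool.Agent.Lib.MP_084b88_gt.AY.AllR
import Pool.Agent.Lib.MP_084b88_gt.AY.HUL
import Pool.Agent.Lib.MP_084b88_gt.AY.RTC

/-!
# MP_084b88_gt, project AY, module FNA: Q1 for all convex bodies from the generators, the rational checks and the cover
-/

set_option autoImplicit false

open MeasureTheory Set Real Filter Topology
open scoped Pointwise InnerProductSpace

namespace Pool.Agent.Lib.MP_084b88_gt.AY

open Pool.Agent.Lib.MP_084b88_gt.CW Pool.Agent.Lib.MP_084b88_gt.SY Pool.Agent.Lib.MP_084b88_gt.LG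

/-- Q1 for all convex bodies with interior points. -/
theorem finalQ1 {OM LA : List (ℚ × ℚ)} {p : RP} {cs rts : List RC} (hrg : rgOK OM LA p cs = true)
    (hrt : rtOK OM LA rts = true) (hmu : 0 ≤ p.mu) (hq : 0 < p.q) (hA : 1 / 4 * (1 + p.q) ≤ p.q * p.A0)
    (hB : p.q * p.B0 ≤ 1 / 2 * (1 + p.q))
    (h11 : GV8 ⟨1 / 4, 1 / 4, 1, 1, p.C, p.l, p.m, 0, 0⟩) (h12 : GV8 ⟨1 / 4, 1 / 2, 1, 1, p.C, p.l, p.m, 0, 0⟩)
    (h22 : GV8 ⟨1 / 2, 1 / 2, 1, 1, p.C, p.l, p.m, 0, 0⟩)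
    (hcov : CovQ (Wp OM) (Wp LA) p.mu (7 / 100) (fun A B => A < (p.A0 : ℝ) ∨ (p.B0 : ℝ) < B))
    (K : Set E3) (hK : CC K) (hi : (interior K).Nonempty) : ∀ c : ℝ, Q1 K c := by
  have hb0 : (0 : ℝ) < 7 / 100 := by norm_num
  have hA' : 1 / 4 * (1 + (p.q : ℝ)) ≤ p.q * p.A0 := by
    have : ((1 / 4 * (1 + p.q) : ℚ) : ℝ) ≤ ((p.q * p.A0 : ℚ) : ℝ) := by exact_mod_cast hA
    push_cast at this
    exact this
  have hB' : (p.q : ℝ) * p.B0 ≤ 1 / 2 * (1 + (p.q : ℝ)) := by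
    have : ((p.q * p.B0 : ℚ) : ℝ) ≤ ((1 / 2 * (1 + p.q) : ℚ) : ℝ) := by exact_mod_cast hB
    push_cast at this
    exact this
  have hq' : (0 : ℝ) < p.q := by exact_mod_cast hq
  have hcI := covI hrg hb0 (hullI allGVX allGVS p rfl rfl rfl hq' hA' hB' h11 h12 h22)
  exact fullR TV (Wp OM) (Wp LA) p.mu (by exact_mod_cast hmu) (fun g hg => hg) (Wp_cont OM hb0)
    (Wp_cont LA hb0) (rt_root hrt) (cerrOf hcI hcov) K hK hi

end Pool.Agent.Lib.MP_084b88_gt.AY
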