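import Pool.Agent.Lib.MP_084b88_gt.AY.SpecV

/-!
# MP_084b88_gt, project AY, GVS: rotation by a right angle exchanges `rc` and `rs`
-/

set_option autoImplicit false

open MeasureTheory Set Real Filter Topology
open scoped Pointwise InnerProductSpace

namespace Pool.Agent.Lib.MP_084b88_gt.AY

open Pool.Agent.Lib.MP_084b88_gt.CW Pool.Agent.Lib.MP_084b88_gt.SY Pool.Agent.Lib.MP_084b88_gt.LG

namespace GVSM

theorem lmq (q : ℝ × ℝ) : lm (π / 2) 1 1 q = (-q.2, q.1) := by
  simp [lm]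

theorem dotu_per (θ : ℝ) : dotu (θ + 2 * π) = dotu θ := by
  funext p
  simp [dotu]

theorem sup_per (P : Set (ℝ × ℝ)) (θ : ℝ) : sup2 P (θ + 2 * π) = sup2 P θ := by
  simp [sup2, dotu_per]

theorem wid_per (P : Set (ℝ × ℝ)) (θ : ℝ) : wid P (θ + 2 * π) = wid P θ := by
  have h : θ + 2 * π + π = θ + π + 2 * π := by ring
  rw [wid, wid, h, sup_per, sup_per]

theorem mid_per (P : Set (ℝ × ℝ)) (θ : ℝ) : mid P (θ + 2 * π) = mid P θ := by
  have h : θ + 2 * π + π = θ + π + 2 * π := by ring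
  rw [mid, mid, h, sup_per, sup_per]

theorem xf_per (P : Set (ℝ × ℝ)) (θ : ℝ) : xf P (θ + 2 * π) = xf P θ := by
  rw [xf, xf, wid_per]

theorem gc_per (P : Set (ℝ × ℝ)) (θ : ℝ) : gc P (θ + 2 * π) = gc P θ := by
  rw [gc, gc, wid_per, mid_per]

theorem xm_per (P : Set (ℝ × ℝ)) (θ : ℝ) : xm P (θ + 2 * π) = xm P θ := by
  rw [xm, xm, wid_per, mid_per, dotu_per]

theorem qf_per (P : Set (ℝ × ℝ)) (θ : ℝ) : qf P (θ + 2 * π) = qf P θ := by
  rw [qf, qf, wid_per, mid_per, dotu_per]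

theorem Rm_per (P : Set (ℝ × ℝ)) (θ : ℝ) : Rm P (θ + 2 * π) = Rm P θ := by
  rw [Rm, Rm, qf_per, xm_per]

/-- shift of an integral of a periodic function by a quarter period -/
theorem shift (f : ℝ → ℝ) (hf : ∀ s, f (s + 2 * π) = f s) :
    ∫ s in (0 : ℝ)..(2 * π), f s = ∫ s in (0 : ℝ)..(2 * π), f (π / 2 + s) := by
  have hp : Function.Periodic f (2 * π) := hf
  rw [intervalIntegral.integral_comp_add_left (fun s => f s) (π / 2)]
  have h := hp.intervalIntegral_add_eq 0 (π / 2)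
  simpa using h

end GVSM

open GVSM in
theorem specGVS (hAFQ : SpecAFQ) : SpecGVS := by
  intro g hg P hP E1 E2
  obtain ⟨hC, hA, hI, hdir⟩ := hAFQ P (π / 2) 1 1 hP.cc one_pos one_pos
  set P' := lm (π / 2) 1 1 '' P with hP'
  have hA' : area P' = area P := by rw [hA]; ring
  have hI' : ∀ f : ℝ × ℝ → ℝ, ∫ p in P', f p = ∫ q in P, f (-q.2, q.1) := by
    intro f
    rw [hI f]
    simp only [lmq, mul_one, one_mul]
  have hd : ∀ s, sup2 P' (π / 2 + s) = sup2 P s ∧ wid P' (π / 2 + s) = wid P s ∧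
      mid P' (π / 2 + s) = mid P s ∧ (0 < wid P s → qf P' (π / 2 + s) = qf P s) := by
    intro s
    obtain ⟨h1, h2, h3, h4⟩ := hdir s s 1 one_pos rfl rfl
    refine ⟨by rw [h1]; ring, by rw [h2]; ring, by rw [h3]; ring, fun hw => ?_⟩
    rw [(h4 hw).1]; ring
  have hq : ∀ s, qf P' (π / 2 + s) = qf P s := fun s => (hd s).2.2.2 (hP.wpos s)
  have hxf : ∀ s, xf P' (π / 2 + s) = xf P s := fun s => by rw [xf, xf, (hd s).2.1]
  have hgc : ∀ s, gc P' (π / 2 + s) = gc P s := fun s => by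
    rw [gc, gc, (hd s).2.1, (hd s).2.2.1]
  have hdot : ∀ s (q : ℝ × ℝ), dotu (π / 2 + s) (-q.2, q.1) = dotu s q := by
    intro s q
    have h1 : cos (π / 2 + s) = -sin s := by rw [add_comm, Real.cos_add_pi_div_two]
    have h2 : sin (π / 2 + s) = cos s := by rw [add_comm, Real.sin_add_pi_div_two]
    simp only [dotu, h1, h2]
    ring
  have hxm : ∀ s, xm P' (π / 2 + s) = xm P s := fun s => by
    rw [xm, xm, hI', (hd s).2.1, (hd s).2.2.1, hA']
    simp only [hdot]
  have hRm : ∀ s, Rm P' (π / 2 + s) = Rm P s := fun s => by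
    rw [Rm, Rm, hq, hxm, hA']
  have hiso : IsoC P' := by
    refine ⟨hC, fun θ => ?_, by rw [hA']; exact hP.apos, ?_, ?_, ?_, ?_, ?_⟩
    · have h := (hd (θ - π / 2)).2.1
      have h2 : π / 2 + (θ - π / 2) = θ := by ring
      rw [h2] at h
      rw [h]
      exact hP.wpos _
    · rw [hI']
      simp only [MeasureTheory.integral_neg, hP.c2, neg_zero]
    · rw [hI']
      exact hP.c1
    · rw [hI', hA']
      simp only [neg_sq, hP.m22]
    · rw [hI', hA']
      exact hP.m11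
    · rw [hI']
      have h : ∀ q : ℝ × ℝ, (-q.2) * q.1 = -(q.1 * q.2) := fun q => by ring
      simp only [h, MeasureTheory.integral_neg, hP.m12, neg_zero]
  have hmain := hg P' hiso (-E2) E1
  rw [GI, shift] at hmain
  · rw [GI]
    refine le_of_le_of_eq hmain ?_
    congr 1
    funext s
    have h1 : cos (π / 2 + s) = -sin s := by rw [add_comm, Real.cos_add_pi_div_two]
    have h2 : sin (π / 2 + s) = cos s := by rw [add_comm, Real.sin_add_pi_div_two]
    have hY : YY (-E2) E1 (xf P') (π / 2 + s) = YY E1 E2 (xf P) s := by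
      rw [YY, YY, hxf, h1, h2]
      ring
    rw [hY, hxf, hgc, hRm, h1, h2]
    ring
  · intro s
    simp only [YY, xf_per, gc_per, Rm_per, Real.cos_add_two_pi, Real.sin_add_two_pi]

end Pool.Agent.Lib.MP_084b88_gt.AY
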