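import Pool.Agent.Lib.MP_084b88_gt.AY.SpecS

/-!
# MP_084b88_gt, project AY, module KER: approximate identity on the sphere
-/

set_option autoImplicit false

open MeasureTheory Set Real Filter Topology
open scoped Pointwise InnerProductSpace

namespace Pool.Agent.Lib.MP_084b88_gt.AY

open Pool.Agent.Lib.MP_084b88_gt.CW Pool.Agent.Lib.MP_084b88_gt.SY

namespace KERM

/-- the weight -/
noncomputable def w (S : O3) : ℝ := (1 + S.1 0 0) / 2

theorem w_nonneg (S : O3) : 0 ≤ w S := by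
  have h := abs_le.1 (O3_entry_le S 0 0)
  unfold w
  linarith [h.1]

theorem w_le (S : O3) : w S ≤ 1 := by
  have h := abs_le.1 (O3_entry_le S 0 0)
  unfold w
  linarith [h.2]

theorem cont_entry : Continuous (fun S : O3 => S.1 0 0) :=
  (continuous_apply (0 : Fin 3)).comp ((continuous_apply (0 : Fin 3)).comp
    (show Continuous (fun R : O3 => (R.1 : Fin 3 → Fin 3 → ℝ)) from continuous_subtype_val))

theorem cont_w : Continuous w := (continuous_const.add cont_entry).div_const 2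

theorem inner_mul (R S : O3) : ⟪col (R * S) 0, col R 0⟫_ℝ = S.1 0 0 := by
  rw [col_mul, inner_add_left, inner_add_left, inner_smul_left, inner_smul_left, inner_smul_left,
    inner_col_col, inner_col_col, inner_col_col]
  simp

theorem norm_sub_sq' (R S : O3) : ‖col (R * S) 0 - col R 0‖ ^ 2 = 2 - 2 * S.1 0 0 := by
  rw [norm_sub_sq_real, norm_col, norm_col, inner_mul]
  ring

theorem integrable_of_cont {μ : Measure O3} (hμ : HaarO μ) {g : O3 → ℝ} (hg : Continuous g) :
    Integrable g μ := by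
  have : IsProbabilityMeasure μ := hμ.1
  exact hg.integrable_of_hasCompactSupport (HasCompactSupport.of_compactSpace g)

theorem leftInv {μ : Measure O3} (hμ : HaarO μ) : μ.IsMulLeftInvariant :=
  ⟨fun g => (hμ.2.2 g).map_eq⟩

theorem pos {μ : Measure O3} (hμ : HaarO μ) {δ : ℝ} (hδ : 0 < δ) :
    0 < μ.real {S : O3 | 1 - δ < S.1 0 0} := by
  have h1 : IsProbabilityMeasure μ := hμ.1
  have h2 := leftInv hμ
  have h3 : μ.IsOpenPosMeasure :=
    isOpenPosMeasure_of_mulLeftInvariant_of_compact univ isCompact_univ (by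
      rw [measure_univ]
      exact one_ne_zero)
  have ho : IsOpen {S : O3 | 1 - δ < S.1 0 0} := isOpen_lt continuous_const cont_entry
  have hne : ({S : O3 | 1 - δ < S.1 0 0}).Nonempty := by
    refine ⟨1, ?_⟩
    change 1 - δ < (1 : Matrix (Fin 3) (Fin 3) ℝ) 0 0
    rw [Matrix.one_apply_eq]
    linarith
  exact ENNReal.toReal_pos (ho.measure_pos μ hne).ne' (measure_ne_top _ _)

theorem subst {μ : Measure O3} (hμ : HaarO μ) (f : E3 → ℝ) (n : ℕ) (R : O3) :
    ∫ S, f (col S 0) * ((1 + ⟪col S 0, col R 0⟫_ℝ) / 2) ^ n ∂μ =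
      ∫ S, f (col (R * S) 0) * w S ^ n ∂μ := by
  have h2 := leftInv hμ
  rw [← integral_mul_left_eq_self (μ := μ)
    (fun S => f (col S 0) * ((1 + ⟪col S 0, col R 0⟫_ℝ) / 2) ^ n) R]
  refine integral_congr_ae (Eventually.of_forall fun S => ?_)
  change f (col (R * S) 0) * ((1 + ⟪col (R * S) 0, col R 0⟫_ℝ) / 2) ^ n = _
  rw [inner_mul]
  rfl

end KERM

open KERM in
theorem specKER : SpecKER := by
  intro μ hμ f hf ε hε
  have hprob : IsProbabilityMeasure μ := hμ.1
  -- a bound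
  obtain ⟨M, hM⟩ : ∃ M : ℝ, ∀ S : O3, |f (col S 0)| ≤ M := by
    obtain ⟨M, hM⟩ := (isCompact_univ (X := O3)).bddAbove_image
      ((hf.comp (continuous_col 0)).abs.continuousOn)
    exact ⟨M, fun S => hM (mem_image_of_mem _ (mem_univ S))⟩
  have hM0 : 0 ≤ M := (abs_nonneg _).trans (hM 1)
  -- uniform continuity
  obtain ⟨δ, hδ0, hδ1, hδ⟩ : ∃ δ : ℝ, 0 < δ ∧ δ ≤ 1 ∧ ∀ R S : O3, 1 - δ ≤ S.1 0 0 →
      |f (col (R * S) 0) - f (col R 0)| ≤ ε / 2 := by
    have huc := (isCompact_closedBall (0 : E3) 1).uniformContinuousOn_of_continuous hf.continuousOn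
    rw [Metric.uniformContinuousOn_iff] at huc
    obtain ⟨η, hη, h⟩ := huc (ε / 2) (half_pos hε)
    refine ⟨min 1 (η ^ 2 / 4), lt_min one_pos (by positivity), min_le_left _ _, fun R S hS => ?_⟩
    have hmem : ∀ R : O3, col R 0 ∈ Metric.closedBall (0 : E3) 1 := fun R => by
      rw [mem_closedBall_zero_iff, norm_col]
    have h1 : ‖col (R * S) 0 - col R 0‖ < η := by
      have h2 := norm_sub_sq' R S
      have h3 : min 1 (η ^ 2 / 4) ≤ η ^ 2 / 4 := min_le_right _ _
      have h4 : ‖col (R * S) 0 - col R 0‖ ^ 2 < η ^ 2 := by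
        rw [h2]
        nlinarith [sq_pos_of_pos hη]
      exact lt_of_pow_lt_pow_left₀ 2 hη.le h4
    have h2 := h _ (hmem (R * S)) _ (hmem R) (by rw [dist_eq_norm]; exact h1)
    rw [Real.dist_eq] at h2
    exact h2.le
  set m := μ.real {S : O3 | 1 - δ / 2 < S.1 0 0} with hm
  have hm0 : 0 < m := pos hμ (half_pos hδ0)
  -- the masses
  have hWint : ∀ n : ℕ, Integrable (fun S => w S ^ n) μ := fun n =>
    integrable_of_cont hμ (cont_w.pow n)
  have hW : ∀ n : ℕ, (1 - δ / 4) ^ n * m ≤ ∫ S, w S ^ n ∂μ := by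
    intro n
    have h1 := mul_meas_ge_le_integral_of_nonneg (μ := μ) (f := fun S => w S ^ n)
      (Eventually.of_forall fun S => pow_nonneg (w_nonneg S) n) (hWint n) ((1 - δ / 4) ^ n)
    refine le_trans (mul_le_mul_of_nonneg_left ?_ (pow_nonneg (by linarith) n)) h1
    refine measureReal_mono ?_ (measure_ne_top _ _)
    intro S hS
    have hS' : 1 - δ / 2 < S.1 0 0 := hS
    change (1 - δ / 4) ^ n ≤ w S ^ n
    refine pow_le_pow_left₀ (by linarith) ?_ n
    unfold w
    linarith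
  -- choice of `n`
  obtain ⟨n, hn⟩ : ∃ n : ℕ, 2 * M * ((1 - δ / 2) / (1 - δ / 4)) ^ n < ε / 2 * m := by
    have hq0 : 0 ≤ (1 - δ / 2) / (1 - δ / 4) := div_nonneg (by linarith) (by linarith)
    have hq1 : (1 - δ / 2) / (1 - δ / 4) < 1 := by
      rw [div_lt_one (by linarith)]
      linarith
    have h1 := (tendsto_pow_atTop_nhds_zero_of_lt_one hq0 hq1).const_mul (2 * M)
    rw [mul_zero] at h1
    exact (h1.eventually_lt_const (by positivity)).exists
  have hWn : 0 < ∫ S, w S ^ n ∂μ :=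
    lt_of_lt_of_le (mul_pos (pow_pos (by linarith) n) hm0) (hW n)
  refine ⟨n, (∫ S, w S ^ n ∂μ)⁻¹, fun R => ?_⟩
  rw [subst hμ f n R]
  have hfc : Continuous (fun S : O3 => f (col (R * S) 0)) :=
    hf.comp ((continuous_col 0).comp (continuous_const.mul continuous_id))
  have e1 : (∫ S, w S ^ n ∂μ)⁻¹ * (∫ S, f (col (R * S) 0) * w S ^ n ∂μ) - f (col R 0) =
      (∫ S, w S ^ n ∂μ)⁻¹ * ∫ S, (f (col (R * S) 0) - f (col R 0)) * w S ^ n ∂μ := by
    have e2 : ∫ S, (f (col (R * S) 0) - f (col R 0)) * w S ^ n ∂μ =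
        (∫ S, f (col (R * S) 0) * w S ^ n ∂μ) - f (col R 0) * ∫ S, w S ^ n ∂μ := by
      have hi : Integrable (fun S => f (col (R * S) 0) * w S ^ n) μ :=
        integrable_of_cont hμ (hfc.mul (cont_w.pow n))
      rw [← integral_const_mul, ← integral_sub hi ((hWint n).const_mul _)]
      refine integral_congr_ae (Eventually.of_forall fun S => ?_)
      change (f (col (R * S) 0) - f (col R 0)) * w S ^ n = _
      ring
    rw [e2, mul_sub, mul_left_comm, inv_mul_cancel₀ hWn.ne', mul_one]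
  rw [e1, abs_mul, abs_of_pos (inv_pos.2 hWn), inv_mul_le_iff₀ hWn]
  have h5 : |∫ S, (f (col (R * S) 0) - f (col R 0)) * w S ^ n ∂μ| ≤
      ∫ S, (ε / 2 * w S ^ n + 2 * M * (1 - δ / 2) ^ n) ∂μ := by
    rw [← Real.norm_eq_abs]
    refine norm_integral_le_of_norm_le (((hWint n).const_mul _).add (integrable_const _))
      (Eventually.of_forall fun S => ?_)
    rw [Real.norm_eq_abs, abs_mul, abs_of_nonneg (pow_nonneg (w_nonneg S) n)]
    have hp : 0 ≤ 2 * M * (1 - δ / 2) ^ n :=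
      mul_nonneg (by linarith) (pow_nonneg (by linarith) n)
    by_cases hS : 1 - δ ≤ S.1 0 0
    · have h6 := mul_le_mul_of_nonneg_right (hδ R S hS) (pow_nonneg (w_nonneg S) n)
      linarith
    · push Not at hS
      have h6 : |f (col (R * S) 0) - f (col R 0)| ≤ 2 * M := by
        refine (abs_sub _ _).trans ?_
        linarith [hM (R * S), hM R]
      have h7 : w S ^ n ≤ (1 - δ / 2) ^ n := by
        refine pow_le_pow_left₀ (w_nonneg S) ?_ n
        unfold w
        linarith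
      have h8 := mul_le_mul h6 h7 (pow_nonneg (w_nonneg S) n) (by linarith)
      have h9 : 0 ≤ ε / 2 * w S ^ n := mul_nonneg (by linarith) (pow_nonneg (w_nonneg S) n)
      linarith
  refine h5.trans ?_
  rw [integral_add ((hWint n).const_mul _) (integrable_const _), integral_const_mul,
    integral_const, probReal_univ, one_smul]
  have h6 : 2 * M * (1 - δ / 2) ^ n ≤ ε / 2 * ∫ S, w S ^ n ∂μ := by
    have h7 : 0 < (1 - δ / 4) ^ n := pow_pos (by linarith) n
    have h8 : 2 * M * (1 - δ / 2) ^ n =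
        (2 * M * ((1 - δ / 2) / (1 - δ / 4)) ^ n) * (1 - δ / 4) ^ n := by
      rw [div_pow, mul_assoc (2 * M), div_mul_cancel₀ _ h7.ne']
    rw [h8]
    calc (2 * M * ((1 - δ / 2) / (1 - δ / 4)) ^ n) * (1 - δ / 4) ^ n
        ≤ (ε / 2 * m) * (1 - δ / 4) ^ n := mul_le_mul_of_nonneg_right hn.le h7.le
      _ = ε / 2 * ((1 - δ / 4) ^ n * m) := by ring
      _ ≤ _ := mul_le_mul_of_nonneg_left (hW n) (by linarith)
  linarith

end Pool.Agent.Lib.MP_084b88_gt.AY
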