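import Pool.Agent.Lib.MP_084b88_gt.AY.SpecQ
import Pool.Agent.Lib.MP_084b88_gt.SY.TWO

/-!
# MP_084b88_gt, project AY: module KPS (the kernel principle, smooth case)
-/

set_option autoImplicit false

open MeasureTheory Set Real Filter Topology
open scoped Pointwise InnerProductSpace

namespace Pool.Agent.Lib.MP_084b88_gt.AY

open Pool.Agent.Lib.MP_084b88_gt.CW Pool.Agent.Lib.MP_084b88_gt.SY

namespace KPSM

/-- A continuous periodic function is bounded. -/
theorem per_bdd {F : ℝ → ℝ} (hF : Continuous F) (hper : ∀ t, F (t + 2 * π) = F t) :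
    ∃ C : ℝ, 0 ≤ C ∧ ∀ t, |F t| ≤ C := by
  have hp : Function.Periodic F (2 * π) := hper
  obtain ⟨C, hC⟩ := (isCompact_Icc (a := (0 : ℝ)) (b := 2 * π)).exists_bound_of_continuousOn
    hF.continuousOn
  refine ⟨|C|, abs_nonneg _, fun t => ?_⟩
  obtain ⟨y, hy, hty⟩ := hp.exists_mem_Ico₀ (by positivity) t
  rw [hty]
  exact (hC y ⟨hy.1, hy.2.le⟩).trans (le_abs_self _)

/-- `h² + h1² ≤ 1/v1`. -/
theorem hh1_le {h h1 h2 : ℝ → ℝ} (hS : Sm h h1 h2) {v1 : ℝ} (hv : 0 < v1)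
    (hb : ∀ t, v1 * h t ^ 2 ≤ 1) (t : ℝ) : v1 * (h t ^ 2 + h1 t ^ 2) ≤ 1 := by
  set F : ℝ → ℝ := fun x => h x ^ 2 + h1 x ^ 2 with hF
  have hd : ∀ x, HasDerivAt F (2 * h1 x * (h x + h2 x)) x := by
    intro x
    have := ((hS.d1 x).pow 2).add ((hS.d2 x).pow 2)
    refine this.congr_deriv ?_
    simp
    ring
  have hc : Continuous F := continuous_iff_continuousAt.2 fun x => (hd x).continuousAt
  have hp : Function.Periodic F π := fun x => by simp only [hF, hS.per, hS.per1]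
  obtain ⟨x0, hx0, hmax⟩ := (isCompact_Icc (a := (0 : ℝ)) (b := π)).exists_isMaxOn
    (nonempty_Icc.2 Real.pi_pos.le) hc.continuousOn
  have hall : ∀ x, F x ≤ F x0 := by
    intro x
    obtain ⟨y, hy, hxy⟩ := hp.exists_mem_Ico₀ Real.pi_pos x
    rw [hxy]
    exact hmax ⟨hy.1, hy.2.le⟩
  have hloc : IsLocalMax F x0 := Filter.Eventually.of_forall hall
  have h0 := hloc.hasDerivAt_eq_zero (hd x0)
  have h1z : h1 x0 = 0 := by
    have hr := hS.rad x0
    rcases mul_eq_zero.1 h0 with h3 | h3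
    · linarith
    · exact absurd h3 hr.ne'
  have h4 : F t ≤ h x0 ^ 2 := by
    have := hall t
    simp only [hF, h1z] at this ⊢
    linarith
  calc v1 * (h t ^ 2 + h1 t ^ 2) = v1 * F t := rfl
    _ ≤ v1 * h x0 ^ 2 := mul_le_mul_of_nonneg_left h4 hv.le
    _ ≤ 1 := hb x0

/-- The mean value bound. -/
theorem mv {G2 G1 : ℝ → ℝ} (h2 : ∀ x, HasDerivAt G2 (G1 x) x) {C : ℝ}
    (hC : ∀ x ∈ Icc (-1 : ℝ) 1, |G1 x| ≤ C) {x y : ℝ} (hx : x ∈ Icc (-1 : ℝ) 1)
    (hy : y ∈ Icc (-1 : ℝ) 1) : |G2 x - G2 y| ≤ C * |x - y| := by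
  have := (convex_Icc (-1 : ℝ) 1).norm_image_sub_le_of_norm_hasDerivWithin_le (f := G2) (f' := G1)
    (C := C) (fun x _ => (h2 x).hasDerivWithinAt) (fun x hx => hC x hx) hy hx
  simpa [Real.norm_eq_abs] using this

/-- The kernel is `O(1 - a² + |e|)`. -/
theorem kk_bd {G2 G1 : ℝ → ℝ} (h2 : ∀ x, HasDerivAt G2 (G1 x) x) {C : ℝ}
    (hC : ∀ x ∈ Icc (-1 : ℝ) 1, |G1 x| ≤ C) {a e : ℝ} (hae : |a| + |e| ≤ 1) :
    |kk G2 a e| ≤ 2 * C * ((1 - a ^ 2) + |e|) := by
  have hC0 : 0 ≤ C := (abs_nonneg _).trans (hC 0 (by constructor <;> norm_num))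
  have ha1 : |a| ≤ 1 := by linarith [abs_nonneg e]
  have ha : 1 - |a| ≤ 1 - a ^ 2 := by
    rw [← sq_abs]
    nlinarith [abs_nonneg a]
  have hap := le_abs_self a
  have han := neg_abs_le a
  have hep := le_abs_self e
  have hen := neg_abs_le e
  have m1 : e + a ∈ Icc (-1 : ℝ) 1 := ⟨by linarith, by linarith⟩
  have m2 : e - a ∈ Icc (-1 : ℝ) 1 := ⟨by linarith, by linarith⟩
  have p1 : (1 : ℝ) ∈ Icc (-1 : ℝ) 1 := by constructor <;> norm_num
  have p2 : (-1 : ℝ) ∈ Icc (-1 : ℝ) 1 := by constructor <;> norm_num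
  unfold kk
  rcases le_total 0 a with h0 | h0
  · have e1 := mv h2 hC p1 m1
    have e2 := mv h2 hC p2 m2
    rw [abs_of_nonneg (by linarith [m1.2] : 0 ≤ 1 - (e + a))] at e1
    rw [abs_of_nonpos (by linarith [m2.1] : -1 - (e - a) ≤ 0)] at e2
    rw [abs_of_nonneg h0] at ha
    have e3 : G2 1 + G2 (-1) - G2 (e + a) - G2 (e - a) =
        (G2 1 - G2 (e + a)) + (G2 (-1) - G2 (e - a)) := by ring
    rw [e3]
    refine (abs_add_le _ _).trans ((add_le_add e1 e2).trans ?_)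
    have e4 : C * (1 - (e + a)) + C * (-(-1 - (e - a))) = 2 * C * (1 - a) := by ring
    rw [e4]
    apply mul_le_mul_of_nonneg_left _ (by positivity)
    linarith [abs_nonneg e]
  · have e1 := mv h2 hC p1 m2
    have e2 := mv h2 hC p2 m1
    rw [abs_of_nonneg (by linarith [m2.2] : 0 ≤ 1 - (e - a))] at e1
    rw [abs_of_nonpos (by linarith [m1.1] : -1 - (e + a) ≤ 0)] at e2
    rw [abs_of_nonpos h0] at ha
    have e3 : G2 1 + G2 (-1) - G2 (e + a) - G2 (e - a) =
        (G2 1 - G2 (e - a)) + (G2 (-1) - G2 (e + a)) := by ring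
    rw [e3]
    refine (abs_add_le _ _).trans ((add_le_add e1 e2).trans ?_)
    have e4 : C * (1 - (e - a)) + C * (-(-1 - (e + a))) = 2 * C * (1 - -a) := by ring
    rw [e4]
    apply mul_le_mul_of_nonneg_left _ (by positivity)
    linarith [abs_nonneg e]

/-- The swapped data. -/
theorem dtf_sw (hABR : SpecABR) (hEBR : SpecEBR) {h h1 h2 g g1 g2 : ℝ → ℝ}
    (hS : Sg h h1 h2 g g1 g2) (t α : ℝ) :
    dtf h h1 g g1 (t + α) (π - α) = (dtf h h1 g g1 t α).sw := by
  obtain ⟨-, -, -, -, hsw, -, -, -, -, -, -, -, -, hper⟩ := hABR h h1 h2 hS.sm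
  obtain ⟨-, -, -, -, hesw, -, hgp, -⟩ := hEBR h h1 h2 g g1 g2 hS
  have e1 : aa h h1 (t + α) (π - α) = -(bb h h1 t α) := by
    have := hsw t α
    linarith
  have e2 : bb h h1 (t + α) (π - α) = -(aa h h1 t α) := by
    have h3 := hsw (t + α) (π - α)
    rw [show t + α + (π - α) = t + π by ring, show π - (π - α) = α by ring] at h3
    rw [h3, (hper t α).1]
  have hts : t + α + (π - α) = t + π := by ring
  unfold dtf Dt.sw
  simp only [Dt.mk.injEq]
  refine ⟨e1, e2, (hesw t α).1, (hesw t α).2, trivial, ?_, trivial, trivial, ?_, ?_⟩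
  · rw [hts, hgp]
  · rw [hts, Real.cos_add_pi, hS.sm.per, neg_div]
  · rw [hts, Real.sin_add_pi, hS.sm.per, neg_div]

/-- The data of a smooth body lie in `Dom`. -/
theorem dom_dtf (hEBR : SpecEBR) {h h1 h2 g g1 g2 : ℝ → ℝ}
    (hS : Sg h h1 h2 g g1 g2) {Γ v1 v2 : ℝ} (hv : 0 < v1)
    (hb : ∀ t, v1 ≤ 1 / h t ^ 2 ∧ 1 / h t ^ 2 ≤ v2) (hg : ∀ t, |g t / h t| ≤ Γ) (t : ℝ) {α : ℝ}
    (hα : α ∈ Ioo (0 : ℝ) π) : Dom Γ v1 v2 (dtf h h1 g g1 t α) := by
  obtain ⟨-, -, -, -, -, -, -, -, hae, -⟩ := hEBR h h1 h2 g g1 g2 hS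
  have hpos := hS.sm.pos
  have hp1 := hpos t
  have hp2 := hpos (t + α)
  have hsin : 0 < sin α := Real.sin_pos_of_mem_Ioo hα
  have hxx : ∀ s, (cos s / h s) ^ 2 + (sin s / h s) ^ 2 = 1 / h s ^ 2 := by
    intro s
    rw [div_pow, div_pow, ← add_div, Real.cos_sq_add_sin_sq]
  have hvh : ∀ s, v1 * h s ^ 2 ≤ 1 := by
    intro s
    have := (hb s).1
    rwa [le_div_iff₀ (by have := hpos s; positivity)] at this
  have hF := hh1_le hS.sm hv hvh
  have hdet : cos t / h t * (sin (t + α) / h (t + α)) - sin t / h t * (cos (t + α) / h (t + α)) =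
      sin α / (h t * h (t + α)) := by
    have h3 : sin α = sin (t + α) * cos t - cos (t + α) * sin t := by
      rw [← Real.sin_sub]; congr 1; ring
    rw [h3]
    field_simp
  have hC := Real.cos_sq_add_sin_sq t
  have hC' := Real.cos_sq_add_sin_sq (t + α)
  refine ⟨(hae t α ⟨hα.1.le, hα.2.le⟩).1, (hae t α ⟨hα.1.le, hα.2.le⟩).2, hg t, hg (t + α),
    ?_, ?_, ?_, ?_, ?_, ?_, ?_⟩
  · change v1 ≤ (cos t / h t) ^ 2 + (sin t / h t) ^ 2
    rw [hxx]; exact (hb t).1
  · change (cos t / h t) ^ 2 + (sin t / h t) ^ 2 ≤ v2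
    rw [hxx]; exact (hb t).2
  · change v1 ≤ (cos (t + α) / h (t + α)) ^ 2 + (sin (t + α) / h (t + α)) ^ 2
    rw [hxx]; exact (hb (t + α)).1
  · change (cos (t + α) / h (t + α)) ^ 2 + (sin (t + α) / h (t + α)) ^ 2 ≤ v2
    rw [hxx]; exact (hb (t + α)).2
  · change 0 < cos t / h t * (sin (t + α) / h (t + α)) - sin t / h t * (cos (t + α) / h (t + α))
    rw [hdet]; positivity
  · change v1 * ((cos (t + α) / h (t + α) - bb h h1 t α * (cos t / h t)) ^ 2 +
      (sin (t + α) / h (t + α) - bb h h1 t α * (sin t / h t)) ^ 2) ≤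
      (cos t / h t * (sin (t + α) / h (t + α)) - sin t / h t * (cos (t + α) / h (t + α))) ^ 2
    rw [hdet]
    have k1 : cos (t + α) / h (t + α) - bb h h1 t α * (cos t / h t) =
        (sin α / (h t * h (t + α))) * (-(sin t * h t + h1 t * cos t)) := by
      unfold bb
      rw [Real.cos_add]
      field_simp
      ring
    have k2 : sin (t + α) / h (t + α) - bb h h1 t α * (sin t / h t) =
        (sin α / (h t * h (t + α))) * (cos t * h t - h1 t * sin t) := by
      unfold bb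
      rw [Real.sin_add]
      field_simp
      ring
    rw [k1, k2]
    have k3 : v1 * ((sin α / (h t * h (t + α)) * -(sin t * h t + h1 t * cos t)) ^ 2 +
        (sin α / (h t * h (t + α)) * (cos t * h t - h1 t * sin t)) ^ 2) =
        (sin α / (h t * h (t + α))) ^ 2 * (v1 * (h t ^ 2 + h1 t ^ 2)) := by
      linear_combination (v1 * (sin α / (h t * h (t + α))) ^ 2 * (h t ^ 2 + h1 t ^ 2)) * hC
    rw [k3]
    exact mul_le_of_le_one_right (sq_nonneg _) (hF t)
  · change v1 * ((cos t / h t - aa h h1 t α * (cos (t + α) / h (t + α))) ^ 2 +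
      (sin t / h t - aa h h1 t α * (sin (t + α) / h (t + α))) ^ 2) ≤
      (cos t / h t * (sin (t + α) / h (t + α)) - sin t / h t * (cos (t + α) / h (t + α))) ^ 2
    rw [hdet]
    have et : cos t = cos (t + α) * cos α + sin (t + α) * sin α := by
      rw [← Real.cos_sub]; congr 1; ring
    have es : sin t = sin (t + α) * cos α - cos (t + α) * sin α := by
      rw [← Real.sin_sub]; congr 1; ring
    have k1 : cos t / h t - aa h h1 t α * (cos (t + α) / h (t + α)) =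
        (sin α / (h t * h (t + α))) * (h (t + α) * sin (t + α) + h1 (t + α) * cos (t + α)) := by
      unfold aa
      rw [et]
      field_simp
      ring
    have k2 : sin t / h t - aa h h1 t α * (sin (t + α) / h (t + α)) =
        (sin α / (h t * h (t + α))) * (h1 (t + α) * sin (t + α) - h (t + α) * cos (t + α)) := by
      unfold aa
      rw [es]
      field_simp
      ring
    rw [k1, k2]
    have k3 : v1 * ((sin α / (h t * h (t + α)) *
        (h (t + α) * sin (t + α) + h1 (t + α) * cos (t + α))) ^ 2 +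
        (sin α / (h t * h (t + α)) *
        (h1 (t + α) * sin (t + α) - h (t + α) * cos (t + α))) ^ 2) =
        (sin α / (h t * h (t + α))) ^ 2 * (v1 * (h (t + α) ^ 2 + h1 (t + α) ^ 2)) := by
      linear_combination (v1 * (sin α / (h t * h (t + α))) ^ 2 *
        (h (t + α) ^ 2 + h1 (t + α) ^ 2)) * hC'
    rw [k3]
    exact mul_le_of_le_one_right (sq_nonneg _) (hF (t + α))

/-- The kernel sum. -/
noncomputable def Ks (n : ℕ) (ω : Fin n → ℝ → ℝ → ℝ → ℝ) (G2 : Fin n → ℝ → ℝ) (d : Dt) : ℝ :=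
  ∑ i, ω i d.x1 d.x2 d.gt * kk (G2 i) d.a d.e

/-- The kernel principle for smooth data. -/
theorem main (hEBR : SpecEBR) (hABR : SpecABR) (hSWP : SpecSWP)
    {n : ℕ} {ω : Fin n → ℝ → ℝ → ℝ → ℝ} {G1 G2 : Fin n → ℝ → ℝ} {N : Dt → ℝ}
    {Γ v1 v2 : ℝ} (hv : 0 < v1)
    (hω : ∀ i, Continuous (fun x : ℝ × ℝ × ℝ => ω i x.1 x.2.1 x.2.2))
    (hG1c : ∀ i, Continuous (G1 i)) (hG2 : ∀ i x, HasDerivAt (G2 i) (G1 i x) x) (hN : Nul N)
    (hK : KerIneq n ω G2 N Γ v1 v2) {h h1 h2 g g1 g2 : ℝ → ℝ} (hS : Sg h h1 h2 g g1 g2)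
    (hbd : ∀ t, v1 ≤ 1 / h t ^ 2 ∧ 1 / h t ^ 2 ≤ v2) (hgam : ∀ t, |g t / h t| ≤ Γ) :
    0 ≤ ∫ t in (0 : ℝ)..(2 * π), ∑ i, ω i (cos t / h t) (sin t / h t) (gm h g t) *
        ∫ α in (0 : ℝ)..π, kk (G2 i) (aa h h1 t α) (ea h g g1 t α) / sin α ^ 2 := by
  obtain ⟨ca, cb, -, -, hsw, -, ⟨La, hLa0, hLa⟩, -, -, -, -, -, -, hper⟩ := hABR h h1 h2 hS.sm
  obtain ⟨ce, cf, cg, -, hesw, -, hgp, -, hae, ⟨Le, hLe0, hLe⟩, -⟩ := hEBR h h1 h2 g g1 g2 hS
  obtain ⟨cN, ⟨Ln, hLn⟩, hzero⟩ := hN h h1 h2 g g1 g2 hS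
  have hpos := hS.sm.pos
  have ch : Continuous h := continuous_iff_continuousAt.2 fun x => (hS.sm.d1 x).continuousAt
  have cx1 : Continuous (fun t => cos t / h t) :=
    Real.continuous_cos.div ch fun t => (hpos t).ne'
  have cx2 : Continuous (fun t => sin t / h t) :=
    Real.continuous_sin.div ch fun t => (hpos t).ne'
  -- the weights
  have cw : ∀ i, Continuous (fun t => ω i (cos t / h t) (sin t / h t) (gm h g t)) := by
    intro i
    exact (hω i).comp (cx1.prodMk (cx2.prodMk cg))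
  have hp2 : ∀ t, h (t + 2 * π) = h t := fun t => by
    rw [show t + 2 * π = (t + π) + π by ring, hS.sm.per, hS.sm.per]
  have hgm2 : ∀ t, gm h g (t + 2 * π) = gm h g t := fun t => by
    rw [show t + 2 * π = (t + π) + π by ring, hgp, hgp, neg_neg]
  have hwb : ∀ i, ∃ C : ℝ, 0 ≤ C ∧
      ∀ t, |ω i (cos t / h t) (sin t / h t) (gm h g t)| ≤ C := by
    intro i
    refine per_bdd (cw i) fun t => ?_
    rw [Real.cos_add_two_pi, Real.sin_add_two_pi, hp2, hgm2]
  choose Cw hCw0 hCw using hwb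
  -- the kernels
  have hG2c : ∀ i, Continuous (G2 i) := fun i =>
    continuous_iff_continuousAt.2 fun x => (hG2 i x).continuousAt
  have hCg : ∀ i, ∃ C : ℝ, ∀ x ∈ Icc (-1 : ℝ) 1, |G1 i x| ≤ C := fun i =>
    (isCompact_Icc (a := (-1 : ℝ)) (b := 1)).exists_bound_of_continuousOn (hG1c i).continuousOn
  choose Cg hCg using hCg
  have hCg0 : ∀ i, 0 ≤ Cg i := fun i =>
    (abs_nonneg _).trans (hCg i 0 (by constructor <;> norm_num))
  have hkb : ∀ i t, ∀ α ∈ Icc (0 : ℝ) π,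
      |kk (G2 i) (aa h h1 t α) (ea h g g1 t α)| ≤ 2 * Cg i * (La + Le) * sin α ^ 2 := by
    intro i t α hα
    have e1 := kk_bd (hG2 i) (hCg i) (hae t α hα).1
    have e2 := (hLa t α hα).2.2.1
    have e3 := (hLe t α hα).1
    calc _ ≤ 2 * Cg i * ((1 - aa h h1 t α ^ 2) + |ea h g g1 t α|) := e1
      _ ≤ 2 * Cg i * (La * sin α ^ 2 + Le * sin α ^ 2) := by
        apply mul_le_mul_of_nonneg_left (add_le_add e2 e3)
        have := hCg0 i
        positivity
      _ = _ := by ring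
  have ckk : ∀ i, Continuous (fun x : ℝ × ℝ => kk (G2 i) (aa h h1 x.1 x.2) (ea h g g1 x.1 x.2)) := by
    intro i
    unfold kk
    exact (continuous_const.sub ((hG2c i).comp (ce.add ca))).sub ((hG2c i).comp (ce.sub ca))
  -- Y
  obtain ⟨Y, hYd⟩ : ∃ Y : ℝ → ℝ → ℝ, ∀ t α, Y t α =
      Ks n ω G2 (dtf h h1 g g1 t α) + N (dtf h h1 g g1 t α) := ⟨_, fun _ _ => rfl⟩
  have cKs : Continuous (fun x : ℝ × ℝ => Ks n ω G2 (dtf h h1 g g1 x.1 x.2)) := by
    unfold Ks
    refine continuous_finsetSum _ fun i _ => ?_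
    exact ((cw i).comp continuous_fst).mul (ckk i)
  have cY : Continuous (fun x : ℝ × ℝ => Y x.1 x.2) := by
    have e : (fun x : ℝ × ℝ => Y x.1 x.2) = fun x => Ks n ω G2 (dtf h h1 g g1 x.1 x.2) +
      N (dtf h h1 g g1 x.1 x.2) := funext fun x => hYd x.1 x.2
    rw [e]
    exact cKs.add cN
  set LK : ℝ := ∑ i, Cw i * (2 * Cg i * (La + Le)) with hLK
  have hKb : ∀ t, ∀ α ∈ Icc (0 : ℝ) π,
      |Ks n ω G2 (dtf h h1 g g1 t α)| ≤ LK * sin α ^ 2 := by
    intro t α hα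
    unfold Ks
    refine (Finset.abs_sum_le_sum_abs _ _).trans ?_
    rw [hLK, Finset.sum_mul]
    refine Finset.sum_le_sum fun i _ => ?_
    rw [abs_mul, mul_assoc]
    exact mul_le_mul (hCw i t) (hkb i t α hα) (abs_nonneg _) (hCw0 i)
  have hYb : ∀ t, ∀ α ∈ Icc (0 : ℝ) π, |Y t α| ≤ (LK + Ln) * sin α ^ 2 := by
    intro t α hα
    rw [add_mul, hYd]
    exact (abs_add_le _ _).trans (add_le_add (hKb t α hα) (hLn t α hα))
  -- periodicity and swap
  have hYsw : ∀ t α, Y (t + α) (π - α) = Ks n ω G2 (dtf h h1 g g1 t α).sw +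
      N (dtf h h1 g g1 t α).sw := by
    intro t α
    rw [hYd, dtf_sw hABR hEBR hS]
  have hYper : ∀ t α, Y (t + 2 * π) α = Y t α := by
    intro t α
    have e : dtf h h1 g g1 (t + 2 * π) α = dtf h h1 g g1 t α := by
      have h1p : ∀ x, h1 (x + 2 * π) = h1 x := fun x => by
        rw [show x + 2 * π = (x + π) + π by ring, hS.sm.per1, hS.sm.per1]
      have gp : ∀ x, g (x + 2 * π) = g x := fun x => by
        rw [show x + 2 * π = (x + π) + π by ring, hS.per, hS.per, neg_neg]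
      have g1p : ∀ x, g1 (x + 2 * π) = g1 x := fun x => by
        rw [show x + 2 * π = (x + π) + π by ring, hS.per1, hS.per1, neg_neg]
      have hts : t + 2 * π + α = (t + α) + 2 * π := by ring
      unfold dtf aa bb ea eb gm
      rw [hts]
      simp only [hp2, h1p, gp, g1p, Real.cos_add_two_pi, Real.sin_add_two_pi]
    rw [hYd, hYd, e]
  have hswap := hSWP Y _ cY hYper hYb
  have hpt : ∀ t, ∀ α ∈ Icc (0 : ℝ) π, 0 ≤ Y t α + Y (t + α) (π - α) := by
    intro t α hα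
    have hend : sin α = 0 → 0 ≤ Y t α + Y (t + α) (π - α) := by
      intro hs
      have e1 := hYb t α hα
      have e2 := hYb (t + α) (π - α) ⟨by linarith [hα.2], by linarith [hα.1]⟩
      rw [Real.sin_pi_sub, hs] at e2
      rw [hs] at e1
      have e3 : Y t α = 0 := by
        rw [← abs_nonpos_iff]; simpa using e1
      have e4 : Y (t + α) (π - α) = 0 := by
        rw [← abs_nonpos_iff]; simpa using e2
      rw [e3, e4, add_zero]
    rcases eq_or_lt_of_le hα.1 with h0 | h0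
    · exact hend (by rw [← h0, Real.sin_zero])
    rcases eq_or_lt_of_le hα.2 with h3 | h3
    · exact hend (by rw [h3, Real.sin_pi])
    have hdom := dom_dtf hEBR hS hv hbd hgam t ⟨h0, h3⟩
    have hk := hK _ hdom
    rw [hYsw, hYd]
    refine hk.trans (le_of_eq ?_)
    have e5 : Ks n ω G2 (dtf h h1 g g1 t α).sw = ∑ i, ω i (dtf h h1 g g1 t α).y1
        (dtf h h1 g g1 t α).y2 (dtf h h1 g g1 t α).gs *
        kk (G2 i) (dtf h h1 g g1 t α).b (dtf h h1 g g1 t α).f := by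
      unfold Ks
      refine Finset.sum_congr rfl fun i _ => ?_
      congr 1
      unfold kk Dt.sw
      simp only
      rw [show (dtf h h1 g g1 t α).f + -(dtf h h1 g g1 t α).b =
        (dtf h h1 g g1 t α).f - (dtf h h1 g g1 t α).b by ring,
        show (dtf h h1 g g1 t α).f - -(dtf h h1 g g1 t α).b =
        (dtf h h1 g g1 t α).f + (dtf h h1 g g1 t α).b by ring]
      ring
    rw [e5]
    unfold Ks
    rw [Finset.sum_add_distrib]
    ring
  have hfin := TWOM.final cY hYb hswap hpt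
  refine hfin.trans (le_of_eq ?_)
  refine intervalIntegral.integral_congr fun t _ => ?_
  have i1 : ∀ i, IntervalIntegrable (fun α => kk (G2 i) (aa h h1 t α) (ea h g g1 t α) / sin α ^ 2)
      volume 0 π := fun i =>
    TWOM.int_of_bd ((ckk i).comp (continuous_const.prodMk continuous_id)) (hkb i t)
  have i2 : IntervalIntegrable (fun α => N (dtf h h1 g g1 t α) / sin α ^ 2) volume 0 π :=
    TWOM.int_of_bd (cN.comp (continuous_const.prodMk continuous_id)) (hLn t)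
  have e7 : ∀ α, Y t α / sin α ^ 2 = (∑ i, ω i (cos t / h t) (sin t / h t) (gm h g t) *
      (kk (G2 i) (aa h h1 t α) (ea h g g1 t α) / sin α ^ 2)) +
      N (dtf h h1 g g1 t α) / sin α ^ 2 := by
    intro α
    rw [hYd, add_div]
    congr 1
    unfold Ks
    rw [Finset.sum_div]
    refine Finset.sum_congr rfl fun i _ => ?_
    rw [mul_div_assoc]
    rfl
  change (∫ α in (0 : ℝ)..π, Y t α / sin α ^ 2) = _
  have i3 : IntervalIntegrable (fun α => ∑ i, ω i (cos t / h t) (sin t / h t) (gm h g t) *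
      (kk (G2 i) (aa h h1 t α) (ea h g g1 t α) / sin α ^ 2)) volume 0 π := by
    have := IntervalIntegrable.sum Finset.univ fun i _ =>
      (i1 i).const_mul (ω i (cos t / h t) (sin t / h t) (gm h g t))
    refine this.congr ?_
    intro α _
    exact Finset.sum_apply _ _ _
  rw [intervalIntegral.integral_congr (fun α _ => e7 α), intervalIntegral.integral_add i3 i2,
    hzero t, add_zero, intervalIntegral.integral_finsetSum fun i _ => (i1 i).const_mul _]
  refine Finset.sum_congr rfl fun i _ => ?_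
  rw [intervalIntegral.integral_const_mul]

end KPSM

open KPSM in
/-- **KPS**. -/
theorem specKPS (hIGA : SpecIGA) (hEBR : SpecEBR) (hABR : SpecABR) (hSWP : SpecSWP)
    (hHPB : SpecHPB) : SpecKPS := by
  intro n ω G G1 G2 N Γ v1 v2 hv hω hG hG1 hG2 hN hK M c hRP hbd hgam
  obtain ⟨hS, hI⟩ := hIGA M c hRP
  obtain ⟨-, -, -, -, hgh, hBh, -⟩ := hHPB M c
  simp only [hBh, hgh] at hbd hgam ⊢
  have hG1c : ∀ i, Continuous (G1 i) := fun i =>
    continuous_iff_continuousAt.2 fun x => (hG1 i x).continuousAt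
  refine (main hEBR hABR hSWP hv hω hG1c hG2 hN hK hS hbd hgam).trans (le_of_eq ?_)
  refine intervalIntegral.integral_congr fun t _ => ?_
  refine Finset.sum_congr rfl fun i _ => ?_
  have e8 := hI (G i) (G1 i) (G2 i) (hG i) (hG1 i) (hG2 i) t
  have hne := (hS.sm.pos t).ne'
  rw [e8]
  change ω i _ _ _ * (∫ α in (0 : ℝ)..π, kk (G2 i) _ _ / sin α ^ 2) =
    ω i _ _ _ / _ * (_ * ∫ α in (0 : ℝ)..π, kk (G2 i) _ _ / sin α ^ 2)
  rw [div_mul_eq_mul_div, eq_div_iff (pow_ne_zero 2 hne)]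
  unfold gm
  ring

end Pool.Agent.Lib.MP_084b88_gt.AY
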