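import Pool.Agent.Lib.MP_084b88_gt.AY.SpecV
import Pool.Agent.Lib.MP_084b88_gt.AY.NLV

/-!
# MP_084b88_gt, project AY, module KRI: kernel certificates for the functionals `S` and `R`
-/

set_option autoImplicit false

open MeasureTheory Set Real Filter Topology
open scoped Pointwise InnerProductSpace

namespace Pool.Agent.Lib.MP_084b88_gt.AY

open Pool.Agent.Lib.MP_084b88_gt.CW Pool.Agent.Lib.MP_084b88_gt.SY Pool.Agent.Lib.MP_084b88_gt.LG

namespace KRIM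

/-! ## The truncated functions -/

/-- First antiderivative of `μ_n - x^{2n}`. -/
noncomputable def gp1 (n : ℕ) (x : ℝ) : ℝ := mu n * x - x ^ (2 * n + 1) / (2 * (n : ℝ) + 1)

/-- The truncated function. -/
noncomputable def FF (n : ℕ) (aS aR x : ℝ) : ℝ :=
  aS * (tcf 0 * (mu 1 - x ^ 2)) +
    aR * ∑ k ∈ Finset.Ico 1 n, tcf k * (mu (k + 1) - x ^ (2 * (k + 1)))

/-- Its antiderivative. -/
noncomputable def FF1 (n : ℕ) (aS aR x : ℝ) : ℝ :=
  aS * (tcf 0 * gp1 1 x) + aR * ∑ k ∈ Finset.Ico 1 n, tcf k * gp1 (k + 1) x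

/-- Its second antiderivative. -/
noncomputable def FF2 (n : ℕ) (aS aR x : ℝ) : ℝ :=
  aS * (tcf 0 * gp 1 x) + aR * ∑ k ∈ Finset.Ico 1 n, tcf k * gp (k + 1) x

theorem dgp1 (n : ℕ) (x : ℝ) : HasDerivAt (gp1 n) (mu n - x ^ (2 * n)) x := by
  have h1 : HasDerivAt (fun x : ℝ => mu n * x) (mu n * 1) x := (hasDerivAt_id' x).const_mul _
  have h2 : HasDerivAt (fun x : ℝ => x ^ (2 * n + 1) / (2 * (n : ℝ) + 1))
      (((2 * n + 1 : ℕ) : ℝ) * x ^ (2 * n + 1 - 1) / (2 * (n : ℝ) + 1)) x :=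
    (hasDerivAt_pow (2 * n + 1) x).div_const _
  refine (h1.sub h2).congr_deriv ?_
  have h3 : (2 * (n : ℝ) + 1) ≠ 0 := by positivity
  rw [Nat.add_sub_cancel]
  push_cast
  field_simp

theorem dgp (n : ℕ) (x : ℝ) : HasDerivAt (gp n) (gp1 n x) x := by
  have h1 : HasDerivAt (fun x : ℝ => mu n * x ^ 2 / 2) (mu n * (((2 : ℕ) : ℝ) * x ^ (2 - 1)) / 2) x :=
    ((hasDerivAt_pow 2 x).const_mul _).div_const _
  have h2 : HasDerivAt (fun x : ℝ => x ^ (2 * n + 2) / ((2 * (n : ℝ) + 1) * (2 * (n : ℝ) + 2)))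
      (((2 * n + 2 : ℕ) : ℝ) * x ^ (2 * n + 2 - 1) / ((2 * (n : ℝ) + 1) * (2 * (n : ℝ) + 2))) x :=
    (hasDerivAt_pow (2 * n + 2) x).div_const _
  refine (h1.sub h2).congr_deriv ?_
  have h3 : (2 * (n : ℝ) + 1) ≠ 0 := by positivity
  have h4 : (2 * (n : ℝ) + 2) ≠ 0 := by positivity
  rw [show 2 * n + 2 - 1 = 2 * n + 1 by omega]
  unfold gp1
  push_cast
  field_simp

theorem dFF1 (n : ℕ) (aS aR x : ℝ) : HasDerivAt (FF1 n aS aR) (FF n aS aR x) x := by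
  have h1 : HasDerivAt (fun x => aS * (tcf 0 * gp1 1 x)) (aS * (tcf 0 * (mu 1 - x ^ (2 * 1)))) x :=
    ((dgp1 1 x).const_mul _).const_mul _
  have h2 : HasDerivAt (fun x => ∑ k ∈ Finset.Ico 1 n, tcf k * gp1 (k + 1) x)
      (∑ k ∈ Finset.Ico 1 n, tcf k * (mu (k + 1) - x ^ (2 * (k + 1)))) x :=
    HasDerivAt.fun_sum fun k _ => (dgp1 (k + 1) x).const_mul _
  exact h1.add (h2.const_mul aR)

theorem dFF2 (n : ℕ) (aS aR x : ℝ) : HasDerivAt (FF2 n aS aR) (FF1 n aS aR x) x := by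
  have h1 : HasDerivAt (fun x => aS * (tcf 0 * gp 1 x)) (aS * (tcf 0 * gp1 1 x)) x :=
    ((dgp 1 x).const_mul _).const_mul _
  have h2 : HasDerivAt (fun x => ∑ k ∈ Finset.Ico 1 n, tcf k * gp (k + 1) x)
      (∑ k ∈ Finset.Ico 1 n, tcf k * gp1 (k + 1) x) x :=
    HasDerivAt.fun_sum fun k _ => (dgp (k + 1) x).const_mul _
  exact h1.add (h2.const_mul aR)

theorem cFF (n : ℕ) (aS aR : ℝ) : Continuous (FF n aS aR) := by
  unfold FF
  fun_prop

/-- The kernel of the truncated function. -/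
theorem kkFF (n : ℕ) (aS aR a e : ℝ) : kk (FF2 n aS aR) a e = hdk n aS aR a e := by
  unfold kk FF2 hdk kk
  have h : ∑ k ∈ Finset.Ico 1 n, tcf k * (gp (k + 1) 1 + gp (k + 1) (-1) - gp (k + 1) (e + a) -
      gp (k + 1) (e - a)) = (∑ k ∈ Finset.Ico 1 n, tcf k * gp (k + 1) 1) +
        (∑ k ∈ Finset.Ico 1 n, tcf k * gp (k + 1) (-1)) -
        (∑ k ∈ Finset.Ico 1 n, tcf k * gp (k + 1) (e + a)) -
        ∑ k ∈ Finset.Ico 1 n, tcf k * gp (k + 1) (e - a) := by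
    rw [← Finset.sum_add_distrib, ← Finset.sum_sub_distrib, ← Finset.sum_sub_distrib]
    refine Finset.sum_congr rfl fun k _ => ?_
    ring
  rw [h]
  ring

/-- Head and tail. -/
theorem hdk_split (K0 n : ℕ) (h1 : 1 ≤ K0) (h2 : K0 ≤ n) (aS aR a e : ℝ) :
    hdk n aS aR a e = hdk K0 aS aR a e +
      aR * ∑ k ∈ Finset.Ico K0 n, tcf k * kk (gp (k + 1)) a e := by
  unfold hdk
  rw [← Finset.sum_Ico_consecutive _ h1 h2]
  ring

theorem gN_neg (n : ℕ) (x : ℝ) : gN n (-x) = gN n x := by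
  unfold gN
  have h1 : (-x) ^ (2 * n + 2) = x ^ (2 * n + 2) := by
    have : Even (2 * n + 2) := ⟨n + 1, by ring⟩
    exact this.neg_pow _
  rw [h1, neg_sq]

/-! ## The tail -/

/-- The coefficient of `e²` of the tail. -/
theorem etl_le {K0 n : ℕ} {κ0 ε : ℝ} {U : ℝ → ℝ} (hn : K0 ≤ n) (hε : 2 * ε ≤ kap - κ0)
    (hU : ∀ y ∈ Icc (0 : ℝ) 1, √(1 - y) ≤ U y)
    (h1 : ∀ y ∈ Icc (0 : ℝ) 1, |(1 - √(1 - y)) - ∑ k ∈ Finset.range n, tcf k * y ^ (k + 1)| ≤ ε)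
    (h2 : |(∑ k ∈ Finset.range n, tcf k * mu (k + 1)) - (1 - kap)| ≤ ε) {a : ℝ} (ha : |a| ≤ 1) :
    etl K0 κ0 U a ≤ ∑ k ∈ Finset.Ico K0 n, tcf k * (a ^ (2 * (k + 1)) - mu (k + 1)) := by
  have hy : a ^ 2 ∈ Icc (0 : ℝ) 1 := ⟨sq_nonneg a, (sq_le_one_iff_abs_le_one a).2 ha⟩
  have h3 := (abs_le.1 (h1 _ hy)).2
  have h4 := (abs_le.1 h2).2
  have h5 := hU _ hy
  have e : ∑ k ∈ Finset.range n, tcf k * (a ^ (2 * (k + 1)) - mu (k + 1)) =
      (∑ k ∈ Finset.range n, tcf k * (a ^ 2) ^ (k + 1)) -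
        ∑ k ∈ Finset.range n, tcf k * mu (k + 1) := by
    rw [← Finset.sum_sub_distrib]
    refine Finset.sum_congr rfl fun k _ => ?_
    rw [pow_mul]
    ring
  rw [Finset.sum_Ico_eq_sub _ hn, e]
  unfold etl
  linarith

/-- The tail of the kernel on one side. -/
theorem tail_le (hKEB : SpecKEB) (hc : ∀ k, 0 < tcf k) (K0 n : ℕ) (a e E : ℝ)
    (hE : E ≤ ∑ k ∈ Finset.Ico K0 n, tcf k * (a ^ (2 * (k + 1)) - mu (k + 1))) :
    E * e ^ 2 + ∑ k ∈ Finset.Ico K0 n, tcf k * (mu (k + 1) / 2 * gN (k + 1) a) ≤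
      ∑ k ∈ Finset.Ico K0 n, tcf k * kk (gp (k + 1)) a e := by
  have h1 : ∑ k ∈ Finset.Ico K0 n, (tcf k * (a ^ (2 * (k + 1)) - mu (k + 1)) * e ^ 2 +
      tcf k * (mu (k + 1) / 2 * gN (k + 1) a)) ≤
      ∑ k ∈ Finset.Ico K0 n, tcf k * kk (gp (k + 1)) a e := by
    refine Finset.sum_le_sum fun k _ => ?_
    have h := mul_le_mul_of_nonneg_left (hKEB (k + 1) a e) (hc k).le
    linarith
  rw [Finset.sum_add_distrib, ← Finset.sum_mul] at h1
  have h2 := mul_le_mul_of_nonneg_right hE (sq_nonneg e)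
  linarith

/-- One side of the kernel of the truncated functional. -/
theorem side_le (hKEB : SpecKEB) (hc : ∀ k, 0 < tcf k) {K0 n : ℕ} (h1 : 1 ≤ K0) (h2 : K0 ≤ n)
    (rc rs aS aR κ0 : ℝ) (U : ℝ → ℝ) (Φ μ1 μ2 : ℝ → ℝ → ℝ → ℝ) (haR : 0 ≤ aR) (d : Dt)
    (hψ : 0 ≤ psQ rc rs d.x1 d.x2)
    (hE : etl K0 κ0 U d.a ≤
      ∑ k ∈ Finset.Ico K0 n, tcf k * (d.a ^ (2 * (k + 1)) - mu (k + 1))) :
    KQ K0 rc rs aS aR κ0 U Φ μ1 μ2 d + aR * ∑ k ∈ Finset.Ico K0 n,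
        tcf k * (psQ rc rs d.x1 d.x2 * (mu (k + 1) / 2 * gN (k + 1) d.a)) ≤
      KT (fun x1 x2 _ => psQ rc rs x1 x2) Φ μ1 μ2 (FF2 n aS aR) d := by
  have h3 := tail_le hKEB hc K0 n d.a d.e _ hE
  have h4 := mul_le_mul_of_nonneg_left h3 (mul_nonneg haR hψ)
  have e1 : KT (fun x1 x2 _ => psQ rc rs x1 x2) Φ μ1 μ2 (FF2 n aS aR) d =
      psQ rc rs d.x1 d.x2 * hdk n aS aR d.a d.e + mlt Φ μ1 μ2 d := by
    unfold KT mlt
    rw [kkFF]
    ring
  have e2 : ∑ k ∈ Finset.Ico K0 n,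
        tcf k * (psQ rc rs d.x1 d.x2 * (mu (k + 1) / 2 * gN (k + 1) d.a)) =
      psQ rc rs d.x1 d.x2 * ∑ k ∈ Finset.Ico K0 n, tcf k * (mu (k + 1) / 2 * gN (k + 1) d.a) := by
    rw [Finset.mul_sum]
    refine Finset.sum_congr rfl fun k _ => ?_
    ring
  rw [e1, e2, hdk_split K0 n h1 h2]
  unfold KQ
  linarith

theorem psQ_nonneg {rc rs : ℝ} (h1 : rc ≤ 4 / 5) (h2 : rs ≤ 4 / 5) {x y : ℝ}
    (h : x ^ 2 + y ^ 2 ≤ 1) : 0 ≤ psQ rc rs x y := by
  unfold psQ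
  have h3 := mul_le_mul_of_nonneg_right h1 (sq_nonneg x)
  have h4 := mul_le_mul_of_nonneg_right h2 (sq_nonneg y)
  linarith

/-- The kernel inequality for the truncated functional. -/
theorem ker (hKEB : SpecKEB) (hTTE : SpecTTE) (hc : ∀ k, 0 < tcf k) {K0 n : ℕ} (h1 : 1 ≤ K0)
    (h2 : K0 ≤ n) (rc rs aS aR κ0 : ℝ) (U : ℝ → ℝ) (Φ μ1 μ2 : ℝ → ℝ → ℝ → ℝ) (N TL : Dt → ℝ)
    (hrc : rc ≤ 4 / 5) (hrs : rs ≤ 4 / 5) (haR : 0 ≤ aR) (hN : Nul N)
    (hE : ∀ a : ℝ, |a| ≤ 1 → etl K0 κ0 U a ≤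
      ∑ k ∈ Finset.Ico K0 n, tcf k * (a ^ (2 * (k + 1)) - mu (k + 1)))
    (hTL : ∀ d : Dt, Dom (1 / 3) (1 / 2) 1 d →
      TL d ≤ aR * ∑ k ∈ Finset.Ico K0 n, tcf k * (mu (k + 1) * TTd (k + 1) rc rs d))
    (hK : ∀ d : Dt, Dom (1 / 3) (1 / 2) 1 d →
      0 ≤ KQ K0 rc rs aS aR κ0 U Φ μ1 μ2 d + KQ K0 rc rs aS aR κ0 U Φ μ1 μ2 d.sw + N d + N d.sw +
        TL d) :
    ∃ N' : Dt → ℝ, Nul N' ∧ ∀ d : Dt, Dom (1 / 3) (1 / 2) 1 d →
      0 ≤ KT (fun x1 x2 _ => psQ rc rs x1 x2) Φ μ1 μ2 (FF2 n aS aR) d +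
        KT (fun x1 x2 _ => psQ rc rs x1 x2) Φ μ1 μ2 (FF2 n aS aR) d.sw + N' d + N' d.sw := by
  choose M hM hMd using fun k : ℕ => hTTE (k + 1) rc rs
  refine ⟨fun d => N d + aR * ∑ k ∈ Finset.Ico K0 n, tcf k * M k d, ?_, fun d hd => ?_⟩
  · exact Nul_add hN (Nul_smul (Nul_sum _ (fun k d => tcf k * M k d)
      fun k _ => Nul_smul (hM k) (tcf k)) aR)
  · have ha : |d.a| ≤ 1 := by
      have := hd.ae
      have := abs_nonneg d.e
      linarith
    have hb : |d.b| ≤ 1 := by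
      have := hd.bf
      have := abs_nonneg d.f
      linarith
    have s1 := side_le hKEB hc h1 h2 rc rs aS aR κ0 U Φ μ1 μ2 haR d
      (psQ_nonneg hrc hrs hd.x2) (hE _ ha)
    have s2 := side_le hKEB hc h1 h2 rc rs aS aR κ0 U Φ μ1 μ2 haR d.sw
      (psQ_nonneg hrc hrs hd.y2) (hE (-d.b) (by rw [abs_neg]; exact hb))
    have e1 : ∑ k ∈ Finset.Ico K0 n,
        tcf k * (psQ rc rs d.sw.x1 d.sw.x2 * (mu (k + 1) / 2 * gN (k + 1) d.sw.a)) =
      ∑ k ∈ Finset.Ico K0 n,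
        tcf k * (psQ rc rs d.y1 d.y2 * (mu (k + 1) / 2 * gN (k + 1) d.b)) := by
      refine Finset.sum_congr rfl fun k _ => ?_
      change tcf k * (psQ rc rs d.y1 d.y2 * (mu (k + 1) / 2 * gN (k + 1) (-d.b))) = _
      rw [gN_neg]
    rw [e1] at s2
    have e2 : ∑ k ∈ Finset.Ico K0 n, tcf k * (mu (k + 1) * TTd (k + 1) rc rs d) =
        (∑ k ∈ Finset.Ico K0 n, tcf k * (psQ rc rs d.x1 d.x2 * (mu (k + 1) / 2 * gN (k + 1) d.a))) +
        (∑ k ∈ Finset.Ico K0 n, tcf k * (psQ rc rs d.y1 d.y2 * (mu (k + 1) / 2 * gN (k + 1) d.b))) +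
        (∑ k ∈ Finset.Ico K0 n, tcf k * M k d) + ∑ k ∈ Finset.Ico K0 n, tcf k * M k d.sw := by
      rw [← Finset.sum_add_distrib, ← Finset.sum_add_distrib, ← Finset.sum_add_distrib]
      refine Finset.sum_congr rfl fun k _ => ?_
      rw [← hMd k d]
      ring
    have h5 := hTL d hd
    rw [e2] at h5
    have h6 := hK d hd
    dsimp only
    linarith

/-! ## The limit -/

/-- The limit argument. -/
theorem limit {w T B : ℝ → ℝ} (hw : Continuous w) (hT : Continuous T) (hB : Continuous B)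
    (hw0 : ∀ t, 0 ≤ w t)
    (key : ∀ ε : ℝ, 0 < ε → ∃ A : ℝ → ℝ, Continuous A ∧ (∀ t, A t ≤ T t + ε) ∧
      0 ≤ ∫ t in (0 : ℝ)..(2 * π), (w t * A t + B t)) :
    0 ≤ ∫ t in (0 : ℝ)..(2 * π), (w t * T t + B t) := by
  have h2π : (0 : ℝ) ≤ 2 * π := by positivity
  obtain ⟨W, hW⟩ : ∃ W : ℝ, W = ∫ t in (0 : ℝ)..(2 * π), w t := ⟨_, rfl⟩
  have hW0 : 0 ≤ W := by
    rw [hW]
    exact intervalIntegral.integral_nonneg h2π fun t _ => hw0 t
  obtain ⟨V, hV⟩ : ∃ V : ℝ, V = ∫ t in (0 : ℝ)..(2 * π), (w t * T t + B t) := ⟨_, rfl⟩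
  have hlow : ∀ ε : ℝ, 0 < ε → 0 ≤ V + ε * W := by
    intro ε hε
    obtain ⟨A, hA, hAT, h0⟩ := key ε hε
    refine h0.trans ?_
    have i1 : IntervalIntegrable (fun t => w t * T t + B t) volume 0 (2 * π) :=
      ((hw.mul hT).add hB).intervalIntegrable _ _
    have i2 : IntervalIntegrable (fun t => ε * w t) volume 0 (2 * π) :=
      (continuous_const.mul hw).intervalIntegrable _ _
    have i3 : IntervalIntegrable (fun t => w t * A t + B t) volume 0 (2 * π) :=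
      ((hw.mul hA).add hB).intervalIntegrable _ _
    have e : V + ε * W = ∫ t in (0 : ℝ)..(2 * π), ((w t * T t + B t) + ε * w t) := by
      rw [intervalIntegral.integral_add i1 i2, intervalIntegral.integral_const_mul, ← hW, ← hV]
    rw [e]
    refine intervalIntegral.integral_mono h2π i3 (i1.add i2) fun t => ?_
    have h := mul_le_mul_of_nonneg_left (hAT t) (hw0 t)
    change w t * A t + B t ≤ (w t * T t + B t) + ε * w t
    linarith
  rw [← hV]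
  by_contra hneg
  rw [not_le] at hneg
  have hD : 0 < 2 * (W + 1) := by linarith
  have h := hlow (-V / (2 * (W + 1))) (by
    apply div_pos <;> linarith)
  have e : -V / (2 * (W + 1)) * W = (-V) * (W / (2 * (W + 1))) := by ring
  rw [e] at h
  have h5 : W / (2 * (W + 1)) ≤ 1 / 2 := by
    rw [div_le_iff₀ hD]
    linarith
  have h6 : (-V) * (W / (2 * (W + 1))) ≤ (-V) * (1 / 2) :=
    mul_le_mul_of_nonneg_left h5 (by linarith)
  linarith

theorem mu_one : mu 1 = 1 / 4 := by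
  unfold mu ww
  norm_num

/-- The truncated function is at most the function. -/
theorem FF_le {n : ℕ} {ε aS aR : ℝ} (hn : 1 ≤ n) (haR : 0 ≤ aR)
    (h1 : ∀ y ∈ Icc (0 : ℝ) 1, |(1 - √(1 - y)) - ∑ k ∈ Finset.range n, tcf k * y ^ (k + 1)| ≤ ε)
    (h2 : |(∑ k ∈ Finset.range n, tcf k * mu (k + 1)) - (1 - kap)| ≤ ε) {x : ℝ} (hx : |x| ≤ 1) :
    FF n aS aR x ≤ (aS - aR) * (1 / 8 - x ^ 2 / 2) + aR * (√(1 - x ^ 2) + (2 * ε - kap)) := by
  have hy : x ^ 2 ∈ Icc (0 : ℝ) 1 := ⟨sq_nonneg x, (sq_le_one_iff_abs_le_one x).2 hx⟩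
  have h3 := (abs_le.1 (h1 _ hy)).2
  have h4 := (abs_le.1 h2).2
  have e : ∑ k ∈ Finset.range n, tcf k * (mu (k + 1) - x ^ (2 * (k + 1))) =
      (∑ k ∈ Finset.range n, tcf k * mu (k + 1)) -
        ∑ k ∈ Finset.range n, tcf k * (x ^ 2) ^ (k + 1) := by
    rw [← Finset.sum_sub_distrib]
    refine Finset.sum_congr rfl fun k _ => ?_
    rw [pow_mul]
    ring
  have h5 : ∑ k ∈ Finset.Ico 1 n, tcf k * (mu (k + 1) - x ^ (2 * (k + 1))) ≤
      √(1 - x ^ 2) + (2 * ε - kap) - (1 / 8 - x ^ 2 / 2) := by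
    rw [Finset.sum_Ico_eq_sub _ hn, e, Finset.sum_range_one, zero_add, mu_one, mul_one]
    change _ - 1 / 2 * (1 / 4 - x ^ 2) ≤ _
    linarith
  have h6 := mul_le_mul_of_nonneg_left h5 haR
  unfold FF
  rw [mu_one]
  change aS * (1 / 2 * (1 / 4 - x ^ 2)) + _ ≤ _
  linarith

theorem dotu_pi (t : ℝ) (p : ℝ × ℝ) : dotu (t + π) p = -dotu t p := by
  unfold dotu
  rw [cos_add_pi, sin_add_pi]
  ring

/-- Relative position. -/
theorem abs_tau (hWB2 : SpecWB2) {P : Set (ℝ × ℝ)} (hP : IsoC P) (t : ℝ) {p : ℝ × ℝ} (hp : p ∈ P) :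
    |(dotu t p - mid P t) / (wid P t / 2)| ≤ 1 := by
  have hw := hP.wpos t
  have h1 := hWB2.1 P hP.cc t p hp
  have h2 := hWB2.1 P hP.cc (t + π) p hp
  rw [dotu_pi] at h2
  rw [abs_div, abs_of_pos (by linarith : 0 < wid P t / 2), div_le_one (by linarith)]
  unfold mid wid
  rw [abs_le]
  constructor <;> linarith

theorem cmid (hWB2 : SpecWB2) {P : Set (ℝ × ℝ)} (hP : IsoC P) : Continuous (mid P) := by
  have h := (hWB2.2.2.2.2.2.2.2.2.2.1 P hP.cc).1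
  have h2 : Continuous fun θ : ℝ => sup2 P (θ + π) := h.comp (by fun_prop)
  exact (h.sub h2).div_const 2

theorem cwid (hWB2 : SpecWB2) {P : Set (ℝ × ℝ)} (hP : IsoC P) : Continuous (wid P) :=
  (hWB2.2.2.2.2.2.2.2.2.2.1 P hP.cc).2

/-- The averages are continuous. -/
theorem cavg (hWB2 : SpecWB2) {P : Set (ℝ × ℝ)} (hP : IsoC P) {F : ℝ → ℝ} (hF : Continuous F) :
    Continuous fun s => ∫ p in P, F ((dotu s p - mid P s) / (wid P s / 2)) := by
  have hm := cmid hWB2 hP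
  have hw := cwid hWB2 hP
  have h1 : Continuous fun x : ℝ × (ℝ × ℝ) => (dotu x.1 x.2 - mid P x.1) / (wid P x.1 / 2) := by
    refine Continuous.div ?_ ((hw.comp continuous_fst).div_const 2) fun x => ?_
    · refine Continuous.sub ?_ (hm.comp continuous_fst)
      unfold dotu
      fun_prop
    · have := hP.wpos x.1
      linarith
  exact continuous_parametric_integral_of_continuous
    (f := fun s p => F ((dotu s p - mid P s) / (wid P s / 2))) (hF.comp h1) hP.cc.2.1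

/-- The average of the truncated function. -/
theorem avg_le (hWB2 : SpecWB2) {n : ℕ} {ε aS aR : ℝ} (hn : 1 ≤ n) (haR : 0 ≤ aR)
    (h1 : ∀ y ∈ Icc (0 : ℝ) 1, |(1 - √(1 - y)) - ∑ k ∈ Finset.range n, tcf k * y ^ (k + 1)| ≤ ε)
    (h2 : |(∑ k ∈ Finset.range n, tcf k * mu (k + 1)) - (1 - kap)| ≤ ε)
    {P : Set (ℝ × ℝ)} (hP : IsoC P) (t : ℝ) :
    (∫ p in P, FF n aS aR ((dotu t p - mid P t) / (wid P t / 2))) / area P ≤
      aS * Sf (xm P t) + aR * Rm P t + aR * (2 * ε) := by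
  have hA := hP.apos
  have hc : IsCompact P := hP.cc.2.1
  have hτ : Continuous fun p : ℝ × ℝ => (dotu t p - mid P t) / (wid P t / 2) := by
    unfold dotu
    fun_prop
  have iF : IntegrableOn (fun p => FF n aS aR ((dotu t p - mid P t) / (wid P t / 2))) P volume :=
    ((cFF n aS aR).comp hτ).continuousOn.integrableOn_compact hc
  have i1 : IntegrableOn (fun _ : ℝ × ℝ => (1 : ℝ)) P volume :=
    continuousOn_const.integrableOn_compact hc
  have i2 : IntegrableOn (fun p : ℝ × ℝ => ((dotu t p - mid P t) / (wid P t / 2)) ^ 2) P volume :=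
    (hτ.pow 2).continuousOn.integrableOn_compact hc
  have i3 : IntegrableOn (fun p : ℝ × ℝ => √(1 - ((dotu t p - mid P t) / (wid P t / 2)) ^ 2))
      P volume :=
    (Real.continuous_sqrt.comp (continuous_const.sub (hτ.pow 2))).continuousOn.integrableOn_compact hc
  have hmono : ∫ p in P, FF n aS aR ((dotu t p - mid P t) / (wid P t / 2)) ≤
      ∫ p in P, ((((aS - aR) / 8 + aR * (2 * ε - kap)) * 1 +
        (-((aS - aR) / 2)) * ((dotu t p - mid P t) / (wid P t / 2)) ^ 2) +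
        aR * √(1 - ((dotu t p - mid P t) / (wid P t / 2)) ^ 2)) := by
    refine setIntegral_mono_on iF (((i1.const_mul _).add (i2.const_mul _)).add (i3.const_mul _))
      hc.isClosed.measurableSet fun p hp => ?_
    have h := FF_le (aS := aS) hn haR h1 h2 (abs_tau hWB2 hP t hp)
    refine h.trans (le_of_eq ?_)
    ring
  have i12 : IntegrableOn (fun p : ℝ × ℝ => ((aS - aR) / 8 + aR * (2 * ε - kap)) * 1 +
        (-((aS - aR) / 2)) * ((dotu t p - mid P t) / (wid P t / 2)) ^ 2) P volume :=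
    (i1.const_mul _).add (i2.const_mul _)
  rw [integral_add i12 (i3.const_mul _), integral_add (i1.const_mul _) (i2.const_mul _),
    integral_const_mul, integral_const_mul, integral_const_mul] at hmono
  have e1 : ∫ _p in P, (1 : ℝ) = area P := by
    rw [setIntegral_const, smul_eq_mul, mul_one]
    rfl
  have e2 : ∫ p in P, ((dotu t p - mid P t) / (wid P t / 2)) ^ 2 = area P * xm P t / 3 := by
    unfold xm
    generalize (∫ p in P, ((dotu t p - mid P t) / (wid P t / 2)) ^ 2) = I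
    field_simp
  have e3 : ∫ p in P, √(1 - ((dotu t p - mid P t) / (wid P t / 2)) ^ 2) = qf P t := rfl
  rw [e1, e2, e3] at hmono
  rw [div_le_iff₀ hA]
  refine hmono.trans (le_of_eq ?_)
  unfold Rm Sf
  field_simp
  ring

end KRIM

open KRIM in
/-- **KRI**. -/
theorem specKRI (hTIN : SpecTIN) (hSMT : SpecSMT) (hKEB : SpecKEB) (hTTE : SpecTTE)
    (hDAT : SpecDAT) (hWB2 : SpecWB2) : SpecKRI := by
  intro K0 rc rs aS aR κ0 U Φ μ1 μ2 N TL hK0 hrc hrs _ haR hκ hU cΦ cμ1 cμ2 hN hTL hK P hP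
  obtain ⟨hc, hS⟩ := hSMT
  obtain ⟨N1, hN1⟩ := hTL
  obtain ⟨cx, cg, cR, hd⟩ := hDAT P hP
  have cw := cwid hWB2 hP
  have cψ : Continuous fun x : ℝ × ℝ × ℝ => (fun x1 x2 _ => psQ rc rs x1 x2 : ℝ → ℝ → ℝ → ℝ)
      x.1 x.2.1 x.2.2 := by
    unfold psQ
    fun_prop
  have hψ0 : ∀ s, 0 ≤ 1 - (rc * cos s ^ 2 + rs * sin s ^ 2) * xf P s := by
    intro s
    obtain ⟨-, -, -, -, h1, h2, -, -, -, -⟩ := hd s
    have hx1 : xf P s ≤ 1 := by nlinarith [sq_nonneg (gc P s)]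
    have h3 := mul_le_mul_of_nonneg_right hrc (sq_nonneg (cos s))
    have h4 := mul_le_mul_of_nonneg_right hrs (sq_nonneg (sin s))
    have h5 : rc * cos s ^ 2 + rs * sin s ^ 2 ≤ 4 / 5 := by
      have := sin_sq_add_cos_sq s
      linarith
    have h6 := mul_le_mul_of_nonneg_right h5 (by linarith : 0 ≤ xf P s)
    linarith
  have hwne : ∀ s, wid P s / 2 ≠ 0 := fun s => by
    have := hP.wpos s
    linarith
  have cB : Continuous fun s => xf P s *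
      Φ (cos s / (wid P s / 2)) (sin s / (wid P s / 2)) (gc P s) := by
    have h1 : Continuous fun s => (cos s / (wid P s / 2), sin s / (wid P s / 2), gc P s) :=
      (continuous_cos.div (cw.div_const 2) hwne).prodMk
        ((continuous_sin.div (cw.div_const 2) hwne).prodMk cg)
    exact cx.mul (cΦ.comp h1)
  have cT : Continuous fun s => aS * Sf (xm P s) + aR * Rm P s := by
    have h1 : (fun s => aS * Sf (xm P s) + aR * Rm P s) =
        fun s => aS * (1 / 8 - (xf P s + 3 * gc P s ^ 2) / 6) + aR * Rm P s := by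
      funext s
      obtain ⟨-, -, -, h1, -⟩ := hd s
      rw [h1]
      rfl
    rw [h1]
    fun_prop
  have cW : Continuous fun s => xf P s * (1 - (rc * cos s ^ 2 + rs * sin s ^ 2) * xf P s) := by
    fun_prop
  have hW0 : ∀ s, 0 ≤ xf P s * (1 - (rc * cos s ^ 2 + rs * sin s ^ 2) * xf P s) := by
    intro s
    obtain ⟨-, -, -, -, h1, -⟩ := hd s
    exact mul_nonneg (by linarith) (hψ0 s)
  have main := limit cW cT cB hW0 (by
    intro ε hε
    obtain ⟨δ, hδ, hδ1, hδ2⟩ : ∃ δ : ℝ, 0 < δ ∧ 2 * δ ≤ kap - κ0 ∧ aR * (2 * δ) ≤ ε := by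
      refine ⟨min ((kap - κ0) / 2) (ε / (2 * (aR + 1))), lt_min (by linarith) (by positivity), ?_, ?_⟩
      · have := min_le_left ((kap - κ0) / 2) (ε / (2 * (aR + 1)))
        linarith
      · have h1 := min_le_right ((kap - κ0) / 2) (ε / (2 * (aR + 1)))
        have h2 := mul_le_mul_of_nonneg_left h1 (by positivity : 0 ≤ 2 * aR)
        have h3 : 2 * aR * (ε / (2 * (aR + 1))) ≤ ε := by
          rw [← mul_div_assoc, div_le_iff₀ (by positivity)]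
          nlinarith
        linarith
    obtain ⟨N0, hN0⟩ := hS δ hδ
    obtain ⟨n, hn0, hn1, hn2⟩ : ∃ n : ℕ, N0 ≤ n ∧ N1 ≤ n ∧ K0 ≤ n :=
      ⟨max N0 (max N1 K0), le_max_left _ _, le_trans (le_max_left _ _) (le_max_right _ _),
        le_trans (le_max_right _ _) (le_max_right _ _)⟩
    obtain ⟨p1, p2⟩ := hN0 n hn0
    obtain ⟨N', hN', hKer⟩ := ker hKEB hTTE hc hK0 hn2 rc rs aS aR κ0 U Φ μ1 μ2 N TL hrc hrs haR hN
      (fun a ha => etl_le hn2 hδ1 hU p1 p2 ha) (hN1 n hn1) hK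
    have h := hTIN (fun x1 x2 _ => psQ rc rs x1 x2) Φ μ1 μ2 (FF n aS aR) (FF1 n aS aR)
      (FF2 n aS aR) N' cψ cΦ cμ1 cμ2 (cFF n aS aR) (dFF1 n aS aR) (dFF2 n aS aR) hN' hKer P hP
    refine ⟨fun s => (∫ p in P, FF n aS aR ((dotu s p - mid P s) / (wid P s / 2))) / area P,
      (cavg hWB2 hP (cFF n aS aR)).div_const _, fun t => ?_, ?_⟩
    · exact (avg_le hWB2 (le_trans hK0 hn2) haR p1 p2 hP t).trans (by linarith)
    · refine h.trans (le_of_eq ?_)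
      refine intervalIntegral.integral_congr fun s _ => ?_
      have e1 : psQ rc rs (cos s / (wid P s / 2)) (sin s / (wid P s / 2)) =
          1 - (rc * cos s ^ 2 + rs * sin s ^ 2) * xf P s := by
        unfold psQ xf
        ring
      change xf P s * (psQ rc rs (cos s / (wid P s / 2)) (sin s / (wid P s / 2)) * _ + _) = _
      rw [e1]
      ring)
  refine main.trans (le_of_eq ?_)
  refine intervalIntegral.integral_congr fun s _ => ?_
  ring

end Pool.Agent.Lib.MP_084b88_gt.AY
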