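import Pool.Agent.Lib.MP_084b88_gt.AY.SpecX
import Pool.Agent.Lib.MP_084b88_gt.AY.KRI

/-!
# MP_084b88_gt, project AY, module KRJ: KRI with the full even part in `e` of the tail
-/

set_option autoImplicit false

open MeasureTheory Set Real Filter Topology
open scoped Pointwise InnerProductSpace

namespace Pool.Agent.Lib.MP_084b88_gt.AY

open Pool.Agent.Lib.MP_084b88_gt.CW Pool.Agent.Lib.MP_084b88_gt.SY Pool.Agent.Lib.MP_084b88_gt.LG

namespace KRJM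

open KRIM

theorem gp_even (n : ℕ) (x : ℝ) : gp n (-x) = gp n x := by
  unfold gp
  have h1 : (-x) ^ (2 * n + 2) = x ^ (2 * n + 2) := by
    have : Even (2 * n + 2) := ⟨n + 1, by ring⟩
    exact this.neg_pow _
  rw [h1, neg_sq]

/-- The tail of the kernel on one side. -/
theorem tail_le2 (hKEB : SpecKEB) (hc : ∀ k, 0 < tcf k) (K0 n : ℕ) {κ0 : ℝ} {U E1 E2 : ℝ → ℝ}
    (h2 : ∀ x, HasDerivAt E2 (E1 x) x) (h1 : ∀ x, HasDerivAt E1 (etl K0 κ0 U x) x)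
    (hE : ∀ a : ℝ, |a| ≤ 1 → etl K0 κ0 U a ≤
      ∑ k ∈ Finset.Ico K0 n, tcf k * (a ^ (2 * (k + 1)) - mu (k + 1)))
    {a e : ℝ} (hae : |a| + |e| ≤ 1) :
    (E2 (a + e) + E2 (a - e) - 2 * E2 a) + ∑ k ∈ Finset.Ico K0 n, tcf k * (mu (k + 1) / 2 * gN (k + 1) a) ≤
      ∑ k ∈ Finset.Ico K0 n, tcf k * kk (gp (k + 1)) a e := by
  -- the convex function
  obtain ⟨H, hH⟩ : ∃ H : ℝ → ℝ, H = fun x => (-∑ k ∈ Finset.Ico K0 n, tcf k * gp (k + 1) x) - E2 x :=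
    ⟨_, rfl⟩
  obtain ⟨H1, hH1⟩ : ∃ H1 : ℝ → ℝ, H1 = fun x => (-∑ k ∈ Finset.Ico K0 n, tcf k * gp1 (k + 1) x) - E1 x :=
    ⟨_, rfl⟩
  have d1 : ∀ x, HasDerivAt H (H1 x) x := by
    intro x
    rw [hH, hH1]
    have g : HasDerivAt (fun x => ∑ k ∈ Finset.Ico K0 n, tcf k * gp (k + 1) x)
        (∑ k ∈ Finset.Ico K0 n, tcf k * gp1 (k + 1) x) x :=
      HasDerivAt.fun_sum fun k _ => (dgp (k + 1) x).const_mul _
    exact g.neg.sub (h2 x)
  have d2 : ∀ x, HasDerivAt H1 ((-∑ k ∈ Finset.Ico K0 n, tcf k * (mu (k + 1) - x ^ (2 * (k + 1)))) -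
      etl K0 κ0 U x) x := by
    intro x
    rw [hH1]
    have g : HasDerivAt (fun x => ∑ k ∈ Finset.Ico K0 n, tcf k * gp1 (k + 1) x)
        (∑ k ∈ Finset.Ico K0 n, tcf k * (mu (k + 1) - x ^ (2 * (k + 1)))) x :=
      HasDerivAt.fun_sum fun k _ => (dgp1 (k + 1) x).const_mul _
    exact g.neg.sub (h1 x)
  have hconv : ConvexOn ℝ (Icc (-1 : ℝ) 1) H := by
    refine convexOn_of_hasDerivWithinAt2_nonneg (convex_Icc _ _)
      (fun x _ => (d1 x).continuousAt.continuousWithinAt)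
      (fun x _ => (d1 x).hasDerivWithinAt) (fun x _ => (d2 x).hasDerivWithinAt) (fun x hx => ?_)
    rw [interior_Icc] at hx
    have h3 := hE x (abs_le.2 ⟨hx.1.le, hx.2.le⟩)
    have e1 : ∑ k ∈ Finset.Ico K0 n, tcf k * (mu (k + 1) - x ^ (2 * (k + 1))) =
        -∑ k ∈ Finset.Ico K0 n, tcf k * (x ^ (2 * (k + 1)) - mu (k + 1)) := by
      rw [← Finset.sum_neg_distrib]
      refine Finset.sum_congr rfl fun k _ => ?_
      ring
    rw [e1]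
    linarith
  have ha1 := abs_le.1 (le_refl |a|)
  have he1 := abs_le.1 (le_refl |e|)
  have m1 : a + e ∈ Icc (-1 : ℝ) 1 := ⟨by linarith [ha1.1, he1.1], by linarith [ha1.2, he1.2]⟩
  have m2 : a - e ∈ Icc (-1 : ℝ) 1 := ⟨by linarith [ha1.1, he1.2], by linarith [ha1.2, he1.1]⟩
  have hmid : 2 * H a ≤ H (a + e) + H (a - e) := by
    have h3 := hconv.2 m1 m2 (by norm_num : (0 : ℝ) ≤ 1 / 2) (by norm_num : (0 : ℝ) ≤ 1 / 2) (by norm_num)
    simp only [smul_eq_mul] at h3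
    have e2 : 1 / 2 * (a + e) + 1 / 2 * (a - e) = a := by ring
    rw [e2] at h3
    linarith
  -- the sums
  have s1 : ∑ k ∈ Finset.Ico K0 n, tcf k * (mu (k + 1) / 2 * gN (k + 1) a) ≤
      ∑ k ∈ Finset.Ico K0 n, tcf k * kk (gp (k + 1)) a 0 := by
    refine Finset.sum_le_sum fun k _ => ?_
    have h := hKEB (k + 1) a 0
    have h' : mu (k + 1) / 2 * gN (k + 1) a ≤ kk (gp (k + 1)) a 0 := by
      refine le_trans (le_of_eq ?_) h
      ring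
    exact mul_le_mul_of_nonneg_left h' (hc k).le
  have s2 : ∑ k ∈ Finset.Ico K0 n, tcf k * kk (gp (k + 1)) a e =
      (∑ k ∈ Finset.Ico K0 n, tcf k * kk (gp (k + 1)) a 0) +
      (2 * (∑ k ∈ Finset.Ico K0 n, tcf k * gp (k + 1) a) -
        (∑ k ∈ Finset.Ico K0 n, tcf k * gp (k + 1) (a + e)) -
        ∑ k ∈ Finset.Ico K0 n, tcf k * gp (k + 1) (a - e)) := by
    rw [Finset.mul_sum, ← Finset.sum_sub_distrib, ← Finset.sum_sub_distrib, ← Finset.sum_add_distrib]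
    refine Finset.sum_congr rfl fun k _ => ?_
    unfold kk
    have g1 : gp (k + 1) (0 - a) = gp (k + 1) a := by rw [zero_sub, gp_even]
    have g2 : gp (k + 1) (e - a) = gp (k + 1) (a - e) := by rw [← gp_even (k + 1) (a - e), neg_sub]
    rw [g1, g2, zero_add, add_comm e a]
    ring
  rw [s2]
  rw [hH] at hmid
  simp only at hmid
  linarith

/-- One side of the kernel of the truncated functional. -/
theorem side_le2 (hKEB : SpecKEB) (hc : ∀ k, 0 < tcf k) {K0 n : ℕ} (h1 : 1 ≤ K0) (h2 : K0 ≤ n)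
    (rc rs aS aR : ℝ) {κ0 : ℝ} {U E1 E2 : ℝ → ℝ} (Φ μ1 μ2 : ℝ → ℝ → ℝ → ℝ) (haR : 0 ≤ aR) (d : Dt)
    (hψ : 0 ≤ psQ rc rs d.x1 d.x2) (hae : |d.a| + |d.e| ≤ 1)
    (g2 : ∀ x, HasDerivAt E2 (E1 x) x) (g1 : ∀ x, HasDerivAt E1 (etl K0 κ0 U x) x)
    (hE : ∀ a : ℝ, |a| ≤ 1 → etl K0 κ0 U a ≤
      ∑ k ∈ Finset.Ico K0 n, tcf k * (a ^ (2 * (k + 1)) - mu (k + 1))) :
    KR K0 rc rs aS aR E2 Φ μ1 μ2 d + aR * ∑ k ∈ Finset.Ico K0 n,
        tcf k * (psQ rc rs d.x1 d.x2 * (mu (k + 1) / 2 * gN (k + 1) d.a)) ≤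
      KT (fun x1 x2 _ => psQ rc rs x1 x2) Φ μ1 μ2 (FF2 n aS aR) d := by
  have h3 := tail_le2 hKEB hc K0 n g2 g1 hE hae
  have h4 := mul_le_mul_of_nonneg_left h3 (mul_nonneg haR hψ)
  have e1 : KT (fun x1 x2 _ => psQ rc rs x1 x2) Φ μ1 μ2 (FF2 n aS aR) d =
      psQ rc rs d.x1 d.x2 * hdk n aS aR d.a d.e + mlt Φ μ1 μ2 d := by
    unfold KT mlt
    rw [kkFF]
    ring
  have e2 : ∑ k ∈ Finset.Ico K0 n,
        tcf k * (psQ rc rs d.x1 d.x2 * (mu (k + 1) / 2 * gN (k + 1) d.a)) =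
      psQ rc rs d.x1 d.x2 * ∑ k ∈ Finset.Ico K0 n, tcf k * (mu (k + 1) / 2 * gN (k + 1) d.a) := by
    rw [Finset.mul_sum]
    refine Finset.sum_congr rfl fun k _ => ?_
    ring
  rw [e1, e2, hdk_split K0 n h1 h2]
  unfold KR
  linarith

/-- The kernel inequality for the truncated functional. -/
theorem ker2 (hKEB : SpecKEB) (hTTE : SpecTTE) (hc : ∀ k, 0 < tcf k) {K0 n : ℕ} (h1 : 1 ≤ K0)
    (h2 : K0 ≤ n) (rc rs aS aR : ℝ) {κ0 : ℝ} {U E1 E2 : ℝ → ℝ} (Φ μ1 μ2 : ℝ → ℝ → ℝ → ℝ) (N TL : Dt → ℝ)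
    (hrc : rc ≤ 4 / 5) (hrs : rs ≤ 4 / 5) (haR : 0 ≤ aR) (hN : Nul N)
    (g2 : ∀ x, HasDerivAt E2 (E1 x) x) (g1 : ∀ x, HasDerivAt E1 (etl K0 κ0 U x) x)
    (hE : ∀ a : ℝ, |a| ≤ 1 → etl K0 κ0 U a ≤
      ∑ k ∈ Finset.Ico K0 n, tcf k * (a ^ (2 * (k + 1)) - mu (k + 1)))
    (hTL : ∀ d : Dt, Dom (1 / 3) (1 / 2) 1 d →
      TL d ≤ aR * ∑ k ∈ Finset.Ico K0 n, tcf k * (mu (k + 1) * TTd (k + 1) rc rs d))
    (hK : ∀ d : Dt, Dom (1 / 3) (1 / 2) 1 d →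
      0 ≤ KR K0 rc rs aS aR E2 Φ μ1 μ2 d + KR K0 rc rs aS aR E2 Φ μ1 μ2 d.sw + N d + N d.sw + TL d) :
    ∃ N' : Dt → ℝ, Nul N' ∧ ∀ d : Dt, Dom (1 / 3) (1 / 2) 1 d →
      0 ≤ KT (fun x1 x2 _ => psQ rc rs x1 x2) Φ μ1 μ2 (FF2 n aS aR) d +
        KT (fun x1 x2 _ => psQ rc rs x1 x2) Φ μ1 μ2 (FF2 n aS aR) d.sw + N' d + N' d.sw := by
  choose M hM hMd using fun k : ℕ => hTTE (k + 1) rc rs
  refine ⟨fun d => N d + aR * ∑ k ∈ Finset.Ico K0 n, tcf k * M k d, ?_, fun d hd => ?_⟩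
  · exact Nul_add hN (Nul_smul (Nul_sum _ (fun k d => tcf k * M k d)
      fun k _ => Nul_smul (hM k) (tcf k)) aR)
  · have s1 := side_le2 hKEB hc h1 h2 rc rs aS aR Φ μ1 μ2 haR d
      (psQ_nonneg hrc hrs hd.x2) hd.ae g2 g1 hE
    have s2 := side_le2 hKEB hc h1 h2 rc rs aS aR Φ μ1 μ2 haR d.sw
      (psQ_nonneg hrc hrs hd.y2) (by
        change |-d.b| + |d.f| ≤ 1
        rw [abs_neg]
        exact hd.bf) g2 g1 hE
    have e1 : ∑ k ∈ Finset.Ico K0 n,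
        tcf k * (psQ rc rs d.sw.x1 d.sw.x2 * (mu (k + 1) / 2 * gN (k + 1) d.sw.a)) =
      ∑ k ∈ Finset.Ico K0 n,
        tcf k * (psQ rc rs d.y1 d.y2 * (mu (k + 1) / 2 * gN (k + 1) d.b)) := by
      refine Finset.sum_congr rfl fun k _ => ?_
      change tcf k * (psQ rc rs d.y1 d.y2 * (mu (k + 1) / 2 * gN (k + 1) (-d.b))) = _
      rw [gN_neg]
    rw [e1] at s2
    have e2 : ∑ k ∈ Finset.Ico K0 n, tcf k * (mu (k + 1) * TTd (k + 1) rc rs d) =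
        (∑ k ∈ Finset.Ico K0 n, tcf k * (psQ rc rs d.x1 d.x2 * (mu (k + 1) / 2 * gN (k + 1) d.a))) +
        (∑ k ∈ Finset.Ico K0 n, tcf k * (psQ rc rs d.y1 d.y2 * (mu (k + 1) / 2 * gN (k + 1) d.b))) +
        (∑ k ∈ Finset.Ico K0 n, tcf k * M k d) + ∑ k ∈ Finset.Ico K0 n, tcf k * M k d.sw := by
      rw [← Finset.sum_add_distrib, ← Finset.sum_add_distrib, ← Finset.sum_add_distrib]
      refine Finset.sum_congr rfl fun k _ => ?_
      rw [← hMd k d]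
      ring
    have h5 := hTL d hd
    rw [e2] at h5
    have h6 := hK d hd
    dsimp only
    linarith

end KRJM

open KRIM KRJM in
/-- **KRJ**. -/
theorem specKRJ (hTIN : SpecTIN) (hSMT : SpecSMT) (hKEB : SpecKEB) (hTTE : SpecTTE)
    (hDAT : SpecDAT) (hWB2 : SpecWB2) : SpecKRJ := by
  intro K0 rc rs aS aR κ0 U E1 E2 Φ μ1 μ2 N TL hK0 hrc hrs _ haR hκ hU g2 g1 cΦ cμ1 cμ2 hN hTL hK P hP
  obtain ⟨hc, hS⟩ := hSMT
  obtain ⟨N1, hN1⟩ := hTL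
  obtain ⟨cx, cg, cR, hd⟩ := hDAT P hP
  have cw := cwid hWB2 hP
  have cψ : Continuous fun x : ℝ × ℝ × ℝ => (fun x1 x2 _ => psQ rc rs x1 x2 : ℝ → ℝ → ℝ → ℝ)
      x.1 x.2.1 x.2.2 := by
    unfold psQ
    fun_prop
  have hψ0 : ∀ s, 0 ≤ 1 - (rc * cos s ^ 2 + rs * sin s ^ 2) * xf P s := by
    intro s
    obtain ⟨-, -, -, -, h1, h2, -, -, -, -⟩ := hd s
    have hx1 : xf P s ≤ 1 := by nlinarith [sq_nonneg (gc P s)]
    have h3 := mul_le_mul_of_nonneg_right hrc (sq_nonneg (cos s))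
    have h4 := mul_le_mul_of_nonneg_right hrs (sq_nonneg (sin s))
    have h5 : rc * cos s ^ 2 + rs * sin s ^ 2 ≤ 4 / 5 := by
      have := sin_sq_add_cos_sq s
      linarith
    have h6 := mul_le_mul_of_nonneg_right h5 (by linarith : 0 ≤ xf P s)
    linarith
  have hwne : ∀ s, wid P s / 2 ≠ 0 := fun s => by
    have := hP.wpos s
    linarith
  have cB : Continuous fun s => xf P s *
      Φ (cos s / (wid P s / 2)) (sin s / (wid P s / 2)) (gc P s) := by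
    have h1 : Continuous fun s => (cos s / (wid P s / 2), sin s / (wid P s / 2), gc P s) :=
      (continuous_cos.div (cw.div_const 2) hwne).prodMk
        ((continuous_sin.div (cw.div_const 2) hwne).prodMk cg)
    exact cx.mul (cΦ.comp h1)
  have cT : Continuous fun s => aS * Sf (xm P s) + aR * Rm P s := by
    have h1 : (fun s => aS * Sf (xm P s) + aR * Rm P s) =
        fun s => aS * (1 / 8 - (xf P s + 3 * gc P s ^ 2) / 6) + aR * Rm P s := by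
      funext s
      obtain ⟨-, -, -, h1, -⟩ := hd s
      rw [h1]
      rfl
    rw [h1]
    fun_prop
  have cW : Continuous fun s => xf P s * (1 - (rc * cos s ^ 2 + rs * sin s ^ 2) * xf P s) := by
    fun_prop
  have hW0 : ∀ s, 0 ≤ xf P s * (1 - (rc * cos s ^ 2 + rs * sin s ^ 2) * xf P s) := by
    intro s
    obtain ⟨-, -, -, -, h1, -⟩ := hd s
    exact mul_nonneg (by linarith) (hψ0 s)
  have main := limit cW cT cB hW0 (by
    intro ε hε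
    obtain ⟨δ, hδ, hδ1, hδ2⟩ : ∃ δ : ℝ, 0 < δ ∧ 2 * δ ≤ kap - κ0 ∧ aR * (2 * δ) ≤ ε := by
      refine ⟨min ((kap - κ0) / 2) (ε / (2 * (aR + 1))), lt_min (by linarith) (by positivity), ?_, ?_⟩
      · have := min_le_left ((kap - κ0) / 2) (ε / (2 * (aR + 1)))
        linarith
      · have h1 := min_le_right ((kap - κ0) / 2) (ε / (2 * (aR + 1)))
        have h2 := mul_le_mul_of_nonneg_left h1 (by positivity : 0 ≤ 2 * aR)
        have h3 : 2 * aR * (ε / (2 * (aR + 1))) ≤ ε := by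
          rw [← mul_div_assoc, div_le_iff₀ (by positivity)]
          nlinarith
        linarith
    obtain ⟨N0, hN0⟩ := hS δ hδ
    obtain ⟨n, hn0, hn1, hn2⟩ : ∃ n : ℕ, N0 ≤ n ∧ N1 ≤ n ∧ K0 ≤ n :=
      ⟨max N0 (max N1 K0), le_max_left _ _, le_trans (le_max_left _ _) (le_max_right _ _),
        le_trans (le_max_right _ _) (le_max_right _ _)⟩
    obtain ⟨p1, p2⟩ := hN0 n hn0
    obtain ⟨N', hN', hKer⟩ := ker2 hKEB hTTE hc hK0 hn2 rc rs aS aR Φ μ1 μ2 N TL hrc hrs haR hN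
      g2 g1 (fun a ha => etl_le hn2 hδ1 hU p1 p2 ha) (hN1 n hn1) hK
    have h := hTIN (fun x1 x2 _ => psQ rc rs x1 x2) Φ μ1 μ2 (FF n aS aR) (FF1 n aS aR)
      (FF2 n aS aR) N' cψ cΦ cμ1 cμ2 (cFF n aS aR) (dFF1 n aS aR) (dFF2 n aS aR) hN' hKer P hP
    refine ⟨fun s => (∫ p in P, FF n aS aR ((dotu s p - mid P s) / (wid P s / 2))) / area P,
      (cavg hWB2 hP (cFF n aS aR)).div_const _, fun t => ?_, ?_⟩
    · exact (avg_le hWB2 (le_trans hK0 hn2) haR p1 p2 hP t).trans (by linarith)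
    · refine h.trans (le_of_eq ?_)
      refine intervalIntegral.integral_congr fun s _ => ?_
      have e1 : psQ rc rs (cos s / (wid P s / 2)) (sin s / (wid P s / 2)) =
          1 - (rc * cos s ^ 2 + rs * sin s ^ 2) * xf P s := by
        unfold psQ xf
        ring
      change xf P s * (psQ rc rs (cos s / (wid P s / 2)) (sin s / (wid P s / 2)) * _ + _) = _
      rw [e1]
      ring)
  refine main.trans (le_of_eq ?_)
  refine intervalIntegral.integral_congr fun s _ => ?_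
  ring

end Pool.Agent.Lib.MP_084b88_gt.AY
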