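import Mathlib

/-!
# MP_084b88_gt, project AY, module PWL: piecewise linear functions from lists of rational nodes
-/

set_option autoImplicit false

namespace Pool.Agent.Lib.MP_084b88_gt.AY

/-- The clamp of `z` to `[a, b]`. -/
noncomputable def clampR (a b z : ℝ) : ℝ := max a (min z b)

/-- The piecewise linear interpolation of the nodes, constant outside. -/
noncomputable def pwl : List (ℚ × ℚ) → ℝ → ℝ
  | [], _ => 0
  | p :: t, z => match t with
    | [] => (p.2 : ℝ)
    | q :: _ => pwl t z + ((q.2 : ℝ) - (p.2 : ℝ)) * ((clampR p.1 q.1 z - (q.1 : ℝ)) / ((q.1 : ℝ) - (p.1 : ℝ)))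

/-- The nodes are strictly increasing. -/
def Inc : List (ℚ × ℚ) → Bool
  | [] => true
  | p :: t => match t with
    | [] => true
    | q :: _ => decide (p.1 < q.1) && Inc t

theorem pwl_nil (z : ℝ) : pwl [] z = 0 := rfl
theorem pwl_one (p : ℚ × ℚ) (z : ℝ) : pwl [p] z = (p.2 : ℝ) := rfl
theorem pwl_cons (p q : ℚ × ℚ) (t : List (ℚ × ℚ)) (z : ℝ) :
    pwl (p :: q :: t) z = pwl (q :: t) z +
      ((q.2 : ℝ) - (p.2 : ℝ)) * ((clampR p.1 q.1 z - (q.1 : ℝ)) / ((q.1 : ℝ) - (p.1 : ℝ))) := rfl

theorem Inc_cons {p q : ℚ × ℚ} {t : List (ℚ × ℚ)} (h : Inc (p :: q :: t) = true) :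
    p.1 < q.1 ∧ Inc (q :: t) = true := by
  have h1 : (decide (p.1 < q.1) && Inc (q :: t)) = true := h
  rw [Bool.and_eq_true, decide_eq_true_eq] at h1
  exact h1

theorem pwl_cont (l : List (ℚ × ℚ)) : Continuous (pwl l) := by
  induction l with
  | nil => exact continuous_const
  | cons p t ih =>
    cases t with
    | nil => exact continuous_const
    | cons q t =>
      have e : pwl (p :: q :: t) = fun z => pwl (q :: t) z +
          ((q.2 : ℝ) - (p.2 : ℝ)) * ((max (p.1 : ℝ) (min z q.1) - (q.1 : ℝ)) / ((q.1 : ℝ) - (p.1 : ℝ))) := by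
        funext z
        rfl
      rw [e]
      fun_prop

/-- Constant before the first node. -/
theorem pwl_before {p : ℚ × ℚ} {t : List (ℚ × ℚ)} (h : Inc (p :: t) = true) {z : ℝ} (hz : z ≤ p.1) :
    pwl (p :: t) z = p.2 := by
  induction t generalizing p with
  | nil => rfl
  | cons q t ih =>
    obtain ⟨h1, h2⟩ := Inc_cons h
    have h1r : (p.1 : ℝ) < q.1 := by exact_mod_cast h1
    rw [pwl_cons, ih h2 (hz.trans h1r.le)]
    have hc : clampR p.1 q.1 z = p.1 := by
      unfold clampR
      rw [min_eq_left (hz.trans h1r.le), max_eq_left hz]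
    rw [hc]
    have h3 : ((q.1 : ℝ) - p.1) ≠ 0 := (sub_pos.2 h1r).ne'
    have h4 : ((p.1 : ℝ) - q.1) / ((q.1 : ℝ) - p.1) = -1 := by
      rw [div_eq_iff h3]
      ring
    rw [h4]
    ring

/-- The formula on the first segment. -/
theorem pwl_seg0 {p q : ℚ × ℚ} {t : List (ℚ × ℚ)} (h : Inc (p :: q :: t) = true) {z : ℝ}
    (h1 : (p.1 : ℝ) ≤ z) (h2 : z ≤ q.1) :
    pwl (p :: q :: t) z = p.2 + ((q.2 : ℝ) - p.2) / ((q.1 : ℝ) - p.1) * (z - p.1) := by
  obtain ⟨h3, h4⟩ := Inc_cons h
  have h3r : (p.1 : ℝ) < q.1 := by exact_mod_cast h3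
  rw [pwl_cons, pwl_before h4 h2]
  have hc : clampR p.1 q.1 z = z := by
    unfold clampR
    rw [min_eq_left h2, max_eq_right h1]
  rw [hc]
  have h5 : ((q.1 : ℝ) - p.1) ≠ 0 := (sub_pos.2 h3r).ne'
  field_simp
  ring

/-- Nodes to the left can be dropped. -/
theorem pwl_drop {p q : ℚ × ℚ} {t : List (ℚ × ℚ)} {z : ℝ} (h2 : (q.1 : ℝ) ≤ z)
    (h : Inc (p :: q :: t) = true) : pwl (p :: q :: t) z = pwl (q :: t) z := by
  obtain ⟨h3, h4⟩ := Inc_cons h
  have h3r : (p.1 : ℝ) < q.1 := by exact_mod_cast h3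
  rw [pwl_cons]
  have hc : clampR p.1 q.1 z = q.1 := by
    unfold clampR
    rw [min_eq_right h2, max_eq_right h3r.le]
  rw [hc]
  simp

/-- After the last node. -/
theorem pwl_after {l : List (ℚ × ℚ)} (p : ℚ × ℚ) (h : Inc (l ++ [p]) = true) {z : ℝ} (hz : (p.1 : ℝ) ≤ z) :
    pwl (l ++ [p]) z = p.2 := by
  induction l with
  | nil => rfl
  | cons a l ih =>
    cases l with
    | nil =>
      have h1 := Inc_cons (p := a) (q := p) (t := []) h
      have h1r : (a.1 : ℝ) < p.1 := by exact_mod_cast h1.1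
      show pwl [a, p] z = _
      rw [pwl_drop hz h]
      rfl
    | cons b l =>
      have h1 := Inc_cons (p := a) (q := b) (t := l ++ [p]) h
      have hlast : ∀ (b : ℚ × ℚ) (l : List (ℚ × ℚ)), Inc (b :: l ++ [p]) = true → b.1 < p.1 := by
        intro b l
        induction l generalizing b with
        | nil => exact fun hh => (Inc_cons (p := b) (q := p) (t := []) hh).1
        | cons c l ih2 =>
          intro hh
          have h5 := Inc_cons (p := b) (q := c) (t := l ++ [p]) hh
          exact h5.1.trans (ih2 c h5.2)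
      have h2r : (b.1 : ℝ) < p.1 := by exact_mod_cast hlast b l h1.2
      have h4 : Inc (a :: b :: (l ++ [p])) = true := h
      show pwl (a :: b :: (l ++ [p])) z = _
      rw [pwl_drop (h2r.le.trans hz) h4]
      exact ih h1.2

/-- The lines of the segments: `(z0, z1, f0, slope)`. -/
def segs : List (ℚ × ℚ) → List (ℚ × ℚ × ℚ × ℚ)
  | [] => []
  | p :: t => match t with
    | [] => []
    | q :: _ => (p.1, q.1, p.2, (q.2 - p.2) / (q.1 - p.1)) :: segs t

/-- The formula on every segment. -/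
theorem pwl_segs {l : List (ℚ × ℚ)} (h : Inc l = true) {x : ℚ × ℚ × ℚ × ℚ} (hx : x ∈ segs l) {z : ℝ}
    (h1 : (x.1 : ℝ) ≤ z) (h2 : z ≤ x.2.1) : pwl l z = x.2.2.1 + x.2.2.2 * (z - x.1) := by
  induction l with
  | nil => exact absurd hx (by simp [segs])
  | cons p t ih =>
    cases t with
    | nil => exact absurd hx (by simp [segs])
    | cons q t =>
      have hi := Inc_cons h
      have e : segs (p :: q :: t) = (p.1, q.1, p.2, (q.2 - p.2) / (q.1 - p.1)) :: segs (q :: t) := rfl
      rw [e, List.mem_cons] at hx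
      rcases hx with hx | hx
      · rw [hx] at h1 h2 ⊢
        rw [pwl_seg0 h h1 h2]
        push_cast
        ring
      · have hge : ∀ (l : List (ℚ × ℚ)) (r : ℚ × ℚ), Inc (r :: l) = true → ∀ x ∈ segs (r :: l), r.1 ≤ x.1 := by
          intro l
          induction l with
          | nil =>
            intro r _ x hx
            exact absurd hx (by simp [segs])
          | cons s l ih2 =>
            intro r hr x hx
            have h5 := Inc_cons hr
            have e2 : segs (r :: s :: l) = (r.1, s.1, r.2, (s.2 - r.2) / (s.1 - r.1)) :: segs (s :: l) := rfl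
            rw [e2, List.mem_cons] at hx
            rcases hx with hx | hx
            · rw [hx]
            · exact h5.1.le.trans (ih2 s h5.2 x hx)
        have h6 : (q.1 : ℝ) ≤ z := le_trans (by exact_mod_cast hge t q hi.2 x hx) h1
        rw [pwl_drop h6 h]
        exact ih hi.2 hx

end Pool.Agent.Lib.MP_084b88_gt.AY
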