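import Pool.Agent.Lib.MP_084b88_gt.AY.REI

/-!
# MP_084b88_gt, project AY, module REB: regime II (cover), reduction to a pointwise inequality with multipliers

`rebMain`: `(A, B)` fixed, generators `g i ∈ T`, reals `c i ≥ 0`, sector bounds `b` with `0 ≤ ∫ b`, displacement `E = θ D`.
`JQ_ge`: lower bound of the planar integrand which is quadratic in `(γ, γ - Y)`.
-/

set_option autoImplicit false

open MeasureTheory Set Real Filter Topology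
open scoped Pointwise InnerProductSpace

namespace Pool.Agent.Lib.MP_084b88_gt.AY

open Pool.Agent.Lib.MP_084b88_gt.CW Pool.Agent.Lib.MP_084b88_gt.SY Pool.Agent.Lib.MP_084b88_gt.LG

/-- The integrand of a generator at the direction `s` (`cos² = 1 - y`, `sin² = y`). -/
noncomputable def gI (g : GP) (y v γ R Y : ℝ) : ℝ :=
  v * (1 - (g.rc * (1 - y) + g.rs * y) * v) *
    (g.aS * Sf (v + 3 * γ ^ 2) + g.aR * R + g.C * γ ^ 2 + g.l * (γ * Y) + g.m * Y ^ 2 + g.eps -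
      g.k * (v + 3 * γ ^ 2 - 3 / 4) ^ 2)

/-- Admissible values at one direction; `n = nn A B s`. -/
structure AdmQ (mu b0 A B n v γ R Y M : ℝ) : Prop where
  v1 : 1 / 2 ≤ v
  x1 : v + 3 * γ ^ 2 ≤ 1
  g1 : 3 * γ ^ 2 ≤ 2 * v - 1
  lo : (3 * π / 4 - 4 / 3 - kap - 1 / 8) - (π / 2 - 3 / 2) * (v + 3 * γ ^ 2) ≤ R
  hi : ∀ l ∈ bandQ, R ≤ (l.1 : ℝ) * (v + 3 * γ ^ 2) + (l.2 : ℝ)
  z1 : 1 / 4 ≤ n * v
  z2 : n * v ≤ 1 / b0 ^ 2
  o1 : |γ - Y| ≤ 1
  M1 : 3 * (mu * (√A * √B)) ≤ 4 * π * M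
  M2 : 12 / 5 * M ≤ mu * (√A * √B) * √v

theorem YY_smul (θ D1 D2 : ℝ) (v : ℝ → ℝ) (s : ℝ) : YY (θ * D1) (θ * D2) v s = θ * YY D1 D2 v s := by
  unfold YY
  ring

/-- **REB**: regime II from the pointwise inequality with multipliers. -/
theorem rebMain {T : Set GP} {W L : ℝ → ℝ} {b0 mu θ : ℝ}
    (hW : ContinuousOn W (Icc b0 2)) (hL : ContinuousOn L (Icc b0 2))
    {v γ R : ℝ → ℝ} (hD : LgC T v γ R) {A B M D1 D2 : ℝ} (hA : 0 < A) (hB : 0 < B)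
    (hr : ∀ s, 1 / √(nn A B s * v s) ∈ Icc b0 2)
    (hz : ∀ s, 1 / 4 ≤ nn A B s * v s ∧ nn A B s * v s ≤ 1 / b0 ^ 2)
    (ho : ∀ s, |γ s - YY D1 D2 v s| ≤ 1)
    (hM1 : 3 * (mu * (√A * √B)) ≤ 4 * π * M) (hM2 : ∀ s, 12 / 5 * M ≤ mu * (√A * √B) * √(v s))
    {k : ℕ} (g : Fin k → GP) (hg : ∀ i, g i ∈ T) (c : Fin k → ℝ) (hc : ∀ i, 0 ≤ c i)
    (b : ℝ → ℝ) (hbi : IntervalIntegrable b volume 0 (2 * π))
    (hb0 : 0 ≤ ∫ s in (0 : ℝ)..(2 * π), b s)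
    (hK : ∀ s v' γ' R' Y', AdmQ mu b0 A B (nn A B s) v' γ' R' Y' M →
      (∑ i, c i * gI (g i) (sin s ^ 2) v' γ' R' Y') + b s ≤
        JQ W L M (nn A B s) v' γ' R' Y' (θ * Y')) :
    0 ≤ ∫ s in (0 : ℝ)..(2 * π), JQ W L M (nn A B s) (v s) (γ s) (R s) (YY D1 D2 v s)
      (YY (θ * D1) (θ * D2) v s) := by
  have hv : ∀ s, 0 < v s := fun s => by linarith [hD.v1 s]
  have cY := YY_cont hD.cv D1 D2
  have cE := YY_cont hD.cv (θ * D1) (θ * D2)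
  have cJ := JQ_cont hW hL hD.cv hD.cg hD.cR cY cE hA hB hv hr M
  have c1 := hD.cv
  have c2 := hD.cg
  have c3 := hD.cR
  have cG : ∀ i, Continuous fun s => gI (g i) (sin s ^ 2) (v s) (γ s) (R s) (YY D1 D2 v s) := by
    intro i
    unfold gI Sf
    fun_prop
  have hG : ∀ i, 0 ≤ ∫ s in (0 : ℝ)..(2 * π), gI (g i) (sin s ^ 2) (v s) (γ s) (R s) (YY D1 D2 v s) := by
    intro i
    have h := hD.gen _ (hg i) D1 D2
    unfold GI at h
    refine le_of_le_of_eq h ?_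
    refine intervalIntegral.integral_congr fun s _ => ?_
    have e : cos s ^ 2 = 1 - sin s ^ 2 := by
      have := sin_sq_add_cos_sq s
      linarith
    simp only [gI]
    rw [e]
  have cH : ∀ i, Continuous fun s => c i * gI (g i) (sin s ^ 2) (v s) (γ s) (R s) (YY D1 D2 v s) :=
    fun i => continuous_const.mul (cG i)
  have cS : Continuous fun s => ∑ i, c i * gI (g i) (sin s ^ 2) (v s) (γ s) (R s) (YY D1 D2 v s) :=
    continuous_finsetSum _ fun i _ => cH i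
  have hS : 0 ≤ ∫ s in (0 : ℝ)..(2 * π),
      ∑ i, c i * gI (g i) (sin s ^ 2) (v s) (γ s) (R s) (YY D1 D2 v s) := by
    rw [intervalIntegral.integral_finsetSum fun i _ => (cH i).intervalIntegrable _ _]
    refine Finset.sum_nonneg fun i _ => ?_
    rw [intervalIntegral.integral_const_mul]
    exact mul_nonneg (hc i) (hG i)
  have h1 : ∫ s in (0 : ℝ)..(2 * π),
      ((∑ i, c i * gI (g i) (sin s ^ 2) (v s) (γ s) (R s) (YY D1 D2 v s)) + b s) =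
      (∫ s in (0 : ℝ)..(2 * π), ∑ i, c i * gI (g i) (sin s ^ 2) (v s) (γ s) (R s) (YY D1 D2 v s)) +
        ∫ s in (0 : ℝ)..(2 * π), b s :=
    intervalIntegral.integral_add (cS.intervalIntegrable _ _) hbi
  have h2 : ∫ s in (0 : ℝ)..(2 * π),
      ((∑ i, c i * gI (g i) (sin s ^ 2) (v s) (γ s) (R s) (YY D1 D2 v s)) + b s) ≤
      ∫ s in (0 : ℝ)..(2 * π), JQ W L M (nn A B s) (v s) (γ s) (R s) (YY D1 D2 v s)
        (YY (θ * D1) (θ * D2) v s) := by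
    refine intervalIntegral.integral_mono_on (by positivity)
      ((cS.intervalIntegrable _ _).add hbi) (cJ.intervalIntegrable _ _) fun s _ => ?_
    rw [YY_smul]
    exact hK s _ _ _ _ ⟨hD.v1 s, hD.x1 s, hD.g1 s, hD.lo s, fun l hl => hD.hi l hl s, (hz s).1,
      (hz s).2, ho s, hM1, hM2 s⟩
  linarith

/-- `K(z) = κ (G - 1)/z` with `G` the root at `γ_o = 0`. -/
noncomputable def KZ (W L : ℝ → ℝ) (z : ℝ) : ℝ := kap * (GV W L (1 / √z) 0 - 1) / z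

/-- The discriminant `D(t) = (1+τ)((1+y)²/(4y) - L² t/2) - τ W²`. -/
noncomputable def DZ (W L : ℝ → ℝ) (t y : ℝ) : ℝ :=
  (1 + taup) * ((1 + y) ^ 2 / (4 * y) - L y ^ 2 * t / 2) - taup * W y ^ 2

/-- The root is bounded below by a function which is affine in `γ_o²`. -/
theorem GV_ge {W L : ℝ → ℝ} {y o c0 : ℝ} (ht : 0 < taup) (ho : |o| ≤ 1)
    (hD : 0 ≤ DZ W L 1 y) (hD0 : 0 < DZ W L 0 y)
    (hc : kap ≤ 2 * c0 * (√(DZ W L 0 y) + √(DZ W L 1 y))) :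
    kap * GV W L y 0 - c0 * L y ^ 2 * o ^ 2 ≤ kap * GV W L y o := by
  have ho2 : o ^ 2 ≤ 1 := by
    rw [← sq_abs]
    nlinarith [abs_nonneg o]
  have e0 : (1 + taup) * ((1 + y) ^ 2 / (4 * y) - (L y * 0) ^ 2 / 2) - taup * W y ^ 2 = DZ W L 0 y := by
    unfold DZ
    ring
  have e1 : (1 + taup) * ((1 + y) ^ 2 / (4 * y) - (L y * o) ^ 2 / 2) - taup * W y ^ 2 =
      DZ W L (o ^ 2) y := by
    unfold DZ
    ring
  have m1 : DZ W L 1 y ≤ DZ W L (o ^ 2) y := by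
    unfold DZ
    nlinarith [mul_nonneg (sq_nonneg (L y)) (sub_nonneg.2 ho2),
      mul_nonneg (mul_nonneg ht.le (sq_nonneg (L y))) (sub_nonneg.2 ho2)]
  obtain ⟨p, hp⟩ : ∃ p, p = √(DZ W L 0 y) := ⟨_, rfl⟩
  obtain ⟨r, hr⟩ : ∃ r, r = √(DZ W L (o ^ 2) y) := ⟨_, rfl⟩
  obtain ⟨r1, hr1⟩ : ∃ r1, r1 = √(DZ W L 1 y) := ⟨_, rfl⟩
  have hp0 : 0 < p := hp ▸ Real.sqrt_pos.2 hD0
  have hr0 : 0 ≤ r := hr ▸ Real.sqrt_nonneg _
  have hr10 : 0 ≤ r1 := hr1 ▸ Real.sqrt_nonneg _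
  have hr1r : r1 ≤ r := by
    rw [hr1, hr]
    exact Real.sqrt_le_sqrt m1
  have sp : p ^ 2 = DZ W L 0 y := by rw [hp, Real.sq_sqrt hD0.le]
  have sr : r ^ 2 = DZ W L (o ^ 2) y := by rw [hr, Real.sq_sqrt (hD.trans m1)]
  have hdf : (p - r) * (p + r) = (1 + taup) * (L y ^ 2 * o ^ 2 / 2) := by
    have : (p - r) * (p + r) = p ^ 2 - r ^ 2 := by ring
    rw [this, sp, sr]
    unfold DZ
    ring
  have hc' : kap ≤ 2 * c0 * (p + r1) := by
    rw [hp, hr1]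
    exact hc
  have hk : 0 < kap := by
    unfold kap
    positivity
  have hc0 : 0 < c0 := by
    by_contra h
    have h1 : c0 * (p + r1) ≤ 0 := mul_nonpos_of_nonpos_of_nonneg (not_lt.1 h) (by linarith)
    linarith
  have hkey : kap * (p - r) ≤ (1 + taup) * (c0 * L y ^ 2 * o ^ 2) := by
    have hpr : 0 < p + r := by linarith
    rw [← mul_le_mul_iff_of_pos_right hpr]
    have h1 : kap * (p - r) * (p + r) = kap * ((1 + taup) * (L y ^ 2 * o ^ 2 / 2)) := by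
      rw [mul_assoc, hdf]
    rw [h1]
    have h2 : kap ≤ 2 * c0 * (p + r) := by
      have : c0 * (p + r1) ≤ c0 * (p + r) := mul_le_mul_of_nonneg_left (by linarith) hc0.le
      linarith
    have h3 : 0 ≤ (1 + taup) * (L y ^ 2 * o ^ 2 / 2) := by positivity
    nlinarith [mul_le_mul_of_nonneg_right h2 h3]
  unfold GV
  rw [e0, e1, ← hp, ← hr]
  have h1t : 0 < 1 + taup := by linarith
  have e : kap * ((taup * W y + p) / (1 + taup)) - c0 * L y ^ 2 * o ^ 2 =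
      (kap * (taup * W y + r) + (kap * (p - r) - (1 + taup) * (c0 * L y ^ 2 * o ^ 2))) / (1 + taup) := by
    field_simp
    ring
  rw [e, ← mul_div_assoc, div_le_div_iff_of_pos_right h1t]
  linarith

/-- The lower bound of the planar integrand, `z = n v`, `o = γ - Y`, `E = θ Y`. -/
theorem JQ_ge {W L : ℝ → ℝ} {M n v γ R Y c0 : ℝ} (θ : ℝ) (ht : 0 < taup) (hn : 0 < n) (hv : 0 < v)
    (ho : |γ - Y| ≤ 1) (hD : 0 ≤ DZ W L 1 (1 / √(n * v))) (hD0 : 0 < DZ W L 0 (1 / √(n * v)))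
    (hc : kap ≤ 2 * c0 * (√(DZ W L 0 (1 / √(n * v))) + √(DZ W L 1 (1 / √(n * v))))) :
    v * (KZ W L (n * v) + W (1 / √(n * v)) / (n * v) * (Sf (v + 3 * γ ^ 2) + R) +
      L (1 / √(n * v)) / (n * v) * ((γ - Y) * γ) -
      c0 * L (1 / √(n * v)) ^ 2 / (n * v) * (γ - Y) ^ 2 +
      M / (n * v) ^ 2 * ((1 - 8 / 5 * θ ^ 2) * (γ - Y) ^ 2 - 16 / 5 * (θ * (1 - θ)) * (γ * (γ - Y)) -
        8 / 5 * (1 - θ) ^ 2 * γ ^ 2)) ≤
    JQ W L M n v γ R Y (θ * Y) := by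
  have h := GV_ge (W := W) (L := L) (y := 1 / √(n * v)) ht ho hD hD0 hc
  have e : JQ W L M n v γ R Y (θ * Y) =
      v * (KZ W L (n * v) + W (1 / √(n * v)) / (n * v) * (Sf (v + 3 * γ ^ 2) + R) +
      L (1 / √(n * v)) / (n * v) * ((γ - Y) * γ) -
      c0 * L (1 / √(n * v)) ^ 2 / (n * v) * (γ - Y) ^ 2 +
      M / (n * v) ^ 2 * ((1 - 8 / 5 * θ ^ 2) * (γ - Y) ^ 2 - 16 / 5 * (θ * (1 - θ)) * (γ * (γ - Y)) -
        8 / 5 * (1 - θ) ^ 2 * γ ^ 2)) +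
      1 / n * (kap * GV W L (1 / √(n * v)) (γ - Y) -
        (kap * GV W L (1 / √(n * v)) 0 - c0 * L (1 / √(n * v)) ^ 2 * (γ - Y) ^ 2)) := by
    unfold JQ KZ
    field_simp
    ring
  rw [e]
  have : 0 ≤ 1 / n * (kap * GV W L (1 / √(n * v)) (γ - Y) -
        (kap * GV W L (1 / √(n * v)) 0 - c0 * L (1 / √(n * v)) ^ 2 * (γ - Y) ^ 2)) :=
    mul_nonneg (one_div_pos.2 hn).le (by linarith)
  linarith

/-- regime I with a weight which is not exactly `z (1 + q - q z)`. -/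
theorem reiMain2 {T : Set GP} {W L : ℝ → ℝ} {b0 q C l m θ : ℝ} (hq : 0 < q)
    (hW : ContinuousOn W (Icc b0 2)) (hL : ContinuousOn L (Icc b0 2))
    {v γ R : ℝ → ℝ} (hD : LgC T v γ R) {A B M D1 D2 : ℝ} (hA : 0 < A) (hB : 0 < B)
    (hT : (⟨q / (1 + q) * A, q / (1 + q) * B, 1, 1, C, l, m, 0, 0⟩ : GP) ∈ T)
    (hr : ∀ s, 1 / √(nn A B s * v s) ∈ Icc b0 2)
    (hK : ∀ s, 0 ≤ K1 W L C l m (nn A B s * v s) (γ s) (YY D1 D2 v s) (θ * YY D1 D2 v s)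
      (M / (nn A B s * v s)) + (W (1 / √(nn A B s * v s)) -
        nn A B s * v s * (1 + q - q * (nn A B s * v s))) *
        (Sf (v s + 3 * γ s ^ 2) + R s + (C * γ s ^ 2 + l * (γ s * YY D1 D2 v s) +
          m * YY D1 D2 v s ^ 2))) :
    0 ≤ ∫ s in (0 : ℝ)..(2 * π), JQ W L M (nn A B s) (v s) (γ s) (R s) (YY D1 D2 v s)
      (YY (θ * D1) (θ * D2) v s) := by
  have hv : ∀ s, 0 < v s := fun s => by linarith [hD.v1 s]
  have cY := YY_cont hD.cv D1 D2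
  have cE := YY_cont hD.cv (θ * D1) (θ * D2)
  have cJ := JQ_cont hW hL hD.cv hD.cg hD.cR cY cE hA hB hv hr M
  have hgen := hD.gen _ hT D1 D2
  unfold GI at hgen
  have cG : Continuous (fun s => v s * (1 - (q / (1 + q) * A * cos s ^ 2 +
      q / (1 + q) * B * sin s ^ 2) * v s) * (1 * Sf (v s + 3 * γ s ^ 2) + 1 * R s + C * γ s ^ 2 +
      l * (γ s * YY D1 D2 v s) + m * YY D1 D2 v s ^ 2 + 0 -
      0 * (v s + 3 * γ s ^ 2 - 3 / 4) ^ 2)) := by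
    have := hD.cv
    have := hD.cg
    have := hD.cR
    unfold Sf
    fun_prop
  refine int_split cJ cG (c := 1 + q) (by linarith) hgen fun s => ?_
  have hn := nn_pos hA hB s
  have hvs := hv s
  have h1 := hK s
  rw [YY_smul]
  have e : JQ W L M (nn A B s) (v s) (γ s) (R s) (YY D1 D2 v s) (θ * YY D1 D2 v s) -
      (1 + q) * (v s * (1 - (q / (1 + q) * A * cos s ^ 2 +
      q / (1 + q) * B * sin s ^ 2) * v s) * (1 * Sf (v s + 3 * γ s ^ 2) + 1 * R s + C * γ s ^ 2 +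
      l * (γ s * YY D1 D2 v s) + m * YY D1 D2 v s ^ 2 + 0 -
      0 * (v s + 3 * γ s ^ 2 - 3 / 4) ^ 2)) =
      1 / nn A B s * (K1 W L C l m (nn A B s * v s) (γ s) (YY D1 D2 v s) (θ * YY D1 D2 v s)
      (M / (nn A B s * v s)) + (W (1 / √(nn A B s * v s)) -
        nn A B s * v s * (1 + q - q * (nn A B s * v s))) *
        (Sf (v s + 3 * γ s ^ 2) + R s + (C * γ s ^ 2 + l * (γ s * YY D1 D2 v s) +
          m * YY D1 D2 v s ^ 2))) := by
    have e2 : q / (1 + q) * A * cos s ^ 2 + q / (1 + q) * B * sin s ^ 2 = q / (1 + q) * nn A B s := by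
      unfold nn
      ring
    rw [e2]
    unfold JQ K1
    field_simp
    ring
  rw [e]
  exact mul_nonneg (one_div_pos.2 hn).le h1

end Pool.Agent.Lib.MP_084b88_gt.AY
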