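import Pool.Agent.Lib.MP_084b88_gt.AY.SpecR

/-!
# MP_084b88_gt, project AY, module REI: regime I (the weight `W = z (1+q-qz)`), reduction to a pointwise inequality
-/

set_option autoImplicit false

open MeasureTheory Set Real Filter Topology
open scoped Pointwise InnerProductSpace

namespace Pool.Agent.Lib.MP_084b88_gt.AY

open Pool.Agent.Lib.MP_084b88_gt.CW Pool.Agent.Lib.MP_084b88_gt.SY Pool.Agent.Lib.MP_084b88_gt.LG

/-- The pointwise integrand of regime I; `z = n v`, `P = M/z`. -/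
noncomputable def K1 (W L : ℝ → ℝ) (C l m z γ Y E P : ℝ) : ℝ :=
  kap * (GV W L (1 / √z) (γ - Y) - 1) - W (1 / √z) * (C * γ ^ 2 + l * (γ * Y) + m * Y ^ 2) +
    L (1 / √z) * (γ - Y) * γ + P * ((γ - Y) ^ 2 - 8 / 5 * (γ - E) ^ 2)

/-- A lower bound for the root `GV`. -/
theorem le_GV {W L : ℝ → ℝ} {y γ g : ℝ} (ht : 0 < taup)
    (h : g ^ 2 + taup * (g - W y) ^ 2 + (L y * γ) ^ 2 / 2 ≤ (1 + y) ^ 2 / (4 * y)) :
    g ≤ GV W L y γ := by
  unfold GV
  rw [le_div_iff₀ (by linarith)]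
  have h1 : (g * (1 + taup) - taup * W y) ^ 2 ≤
      (1 + taup) * ((1 + y) ^ 2 / (4 * y) - (L y * γ) ^ 2 / 2) - taup * W y ^ 2 := by
    have h2 : 0 ≤ (1 + taup) * ((1 + y) ^ 2 / (4 * y) - (g ^ 2 + taup * (g - W y) ^ 2 +
        (L y * γ) ^ 2 / 2)) := mul_nonneg (by linarith) (by linarith)
    nlinarith [h2]
  have h3 := Real.le_sqrt_of_sq_le h1
  linarith

theorem YY_cont {v : ℝ → ℝ} (hv : Continuous v) (D1 D2 : ℝ) : Continuous (YY D1 D2 v) := by
  unfold YY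
  fun_prop

theorem nn_pos {A B : ℝ} (hA : 0 < A) (hB : 0 < B) (s : ℝ) : 0 < nn A B s := by
  unfold nn
  have h1 := sin_sq_add_cos_sq s
  rcases lt_or_ge 0 (cos s ^ 2) with h | h
  · have : 0 ≤ B * sin s ^ 2 := by positivity
    have : 0 < A * cos s ^ 2 := mul_pos hA h
    linarith
  · have h2 : cos s ^ 2 = 0 := le_antisymm h (sq_nonneg _)
    rw [h2] at h1 ⊢
    have h3 : sin s ^ 2 = 1 := by linarith
    rw [h3]
    linarith

/-- the key identity -/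
theorem JQ_eq {W L : ℝ → ℝ} {q C l m M n v γ R Y E P1 : ℝ} (hn : 0 < n) (hv : 0 < v) (hq : 0 < 1 + q)
    (hP : P1 = q / (1 + q) * n) (hW : W (1 / √(n * v)) = n * v * (1 + q - q * (n * v))) :
    JQ W L M n v γ R Y E =
      (1 + q) * (v * (1 - P1 * v) * (1 * Sf (v + 3 * γ ^ 2) + 1 * R + C * γ ^ 2 + l * (γ * Y) +
        m * Y ^ 2 + 0 - 0 * (v + 3 * γ ^ 2 - 3 / 4) ^ 2)) +
      1 / n * K1 W L C l m (n * v) γ Y E (M / (n * v)) := by
  unfold JQ K1
  rw [hW, hP]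
  field_simp
  ring

theorem nn_cont (A B : ℝ) : Continuous (nn A B) := by
  unfold nn
  fun_prop

/-- Continuity of the planar integrand. -/
theorem JQ_cont {W L : ℝ → ℝ} {b0 : ℝ} (hW : ContinuousOn W (Icc b0 2)) (hL : ContinuousOn L (Icc b0 2))
    {v γ R Y E : ℝ → ℝ} (cv : Continuous v) (cg : Continuous γ) (cR : Continuous R)
    (cY : Continuous Y) (cE : Continuous E) {A B : ℝ} (hA : 0 < A) (hB : 0 < B) (hv : ∀ s, 0 < v s)
    (hr : ∀ s, 1 / √(nn A B s * v s) ∈ Icc b0 2) (M : ℝ) :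
    Continuous (fun s => JQ W L M (nn A B s) (v s) (γ s) (R s) (Y s) (E s)) := by
  have hn : Continuous (nn A B) := nn_cont A B
  have hn0 : ∀ s, nn A B s ≠ 0 := fun s => (nn_pos hA hB s).ne'
  have hz : Continuous (fun s => √(nn A B s * v s)) := by fun_prop
  have hz0 : ∀ s, √(nn A B s * v s) ≠ 0 := fun s =>
    (Real.sqrt_pos.2 (mul_pos (nn_pos hA hB s) (hv s))).ne'
  have hy : Continuous (fun s => 1 / √(nn A B s * v s)) := continuous_const.div hz hz0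
  have hy0 : ∀ s, 4 * (1 / √(nn A B s * v s)) ≠ 0 := fun s =>
    mul_ne_zero (by norm_num) (one_div_ne_zero (hz0 s))
  have hWc : Continuous (fun s => W (1 / √(nn A B s * v s))) := hW.comp_continuous hy hr
  have hLc : Continuous (fun s => L (1 / √(nn A B s * v s))) := hL.comp_continuous hy hr
  have h1 : Continuous (fun s => (1 + 1 / √(nn A B s * v s)) ^ 2 / (4 * (1 / √(nn A B s * v s)))) :=
    Continuous.div (by fun_prop) (by fun_prop) hy0
  have h2 : Continuous (fun s => 1 / nn A B s) := continuous_const.div hn hn0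
  have h3 : Continuous (fun s => M / (nn A B s ^ 2 * v s)) :=
    continuous_const.div (by fun_prop) fun s =>
      mul_ne_zero (pow_ne_zero 2 (hn0 s)) (hv s).ne'
  obtain ⟨w, hw⟩ : ∃ w : ℝ → ℝ, w = fun s => W (1 / √(nn A B s * v s)) := ⟨_, rfl⟩
  obtain ⟨u, hu⟩ : ∃ u : ℝ → ℝ, u = fun s => L (1 / √(nn A B s * v s)) := ⟨_, rfl⟩
  obtain ⟨o, ho⟩ : ∃ o : ℝ → ℝ, o = fun s => (1 + 1 / √(nn A B s * v s)) ^ 2 /
    (4 * (1 / √(nn A B s * v s))) := ⟨_, rfl⟩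
  obtain ⟨p, hp⟩ : ∃ p : ℝ → ℝ, p = fun s => 1 / nn A B s := ⟨_, rfl⟩
  obtain ⟨r, hrr⟩ : ∃ r : ℝ → ℝ, r = fun s => M / (nn A B s ^ 2 * v s) := ⟨_, rfl⟩
  rw [← hw] at hWc
  rw [← hu] at hLc
  rw [← ho] at h1
  rw [← hp] at h2
  rw [← hrr] at h3
  have e : (fun s => JQ W L M (nn A B s) (v s) (γ s) (R s) (Y s) (E s)) = fun s =>
      p s * (kap * ((taup * w s + √((1 + taup) * (o s - (u s * (γ s - Y s)) ^ 2 / 2) -
        taup * w s ^ 2)) / (1 + taup) - 1) + w s * (1 / 8 - (v s + 3 * γ s ^ 2) / 6 + R s) +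
        u s * (γ s - Y s) * γ s) + r s * ((γ s - Y s) ^ 2 - 8 / 5 * (γ s - E s) ^ 2) := by
    funext s
    rw [hw, hu, ho, hp, hrr]
    rfl
  rw [e]
  fun_prop

theorem int_split {f g : ℝ → ℝ} {c : ℝ} (hf : Continuous f) (hg : Continuous g) (hc : 0 ≤ c)
    (h0 : 0 ≤ ∫ s in (0 : ℝ)..(2 * π), g s) (hp : ∀ s, 0 ≤ f s - c * g s) :
    0 ≤ ∫ s in (0 : ℝ)..(2 * π), f s := by
  have h1 : ∫ s in (0 : ℝ)..(2 * π), (f s - c * g s) =
      (∫ s in (0 : ℝ)..(2 * π), f s) - c * ∫ s in (0 : ℝ)..(2 * π), g s := by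
    rw [← intervalIntegral.integral_const_mul]
    exact intervalIntegral.integral_sub (hf.intervalIntegrable _ _)
      ((continuous_const.mul hg).intervalIntegrable _ _)
  have h2 : 0 ≤ ∫ s in (0 : ℝ)..(2 * π), (f s - c * g s) :=
    intervalIntegral.integral_nonneg (by positivity) fun s _ => hp s
  have h3 := mul_nonneg hc h0
  linarith

/-- **REI**: regime I from the pointwise inequality. -/
theorem reiMain {T : Set GP} {W L : ℝ → ℝ} {b0 q C l m θ : ℝ} (hq : 0 < q)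
    (hW : ContinuousOn W (Icc b0 2)) (hL : ContinuousOn L (Icc b0 2))
    {v γ R : ℝ → ℝ} (hD : LgC T v γ R) {A B M D1 D2 : ℝ} (hA : 0 < A) (hB : 0 < B)
    (hT : (⟨q / (1 + q) * A, q / (1 + q) * B, 1, 1, C, l, m, 0, 0⟩ : GP) ∈ T)
    (hr : ∀ s, 1 / √(nn A B s * v s) ∈ Icc b0 2)
    (hWz : ∀ s, W (1 / √(nn A B s * v s)) =
      nn A B s * v s * (1 + q - q * (nn A B s * v s)))
    (hK : ∀ s, 0 ≤ K1 W L C l m (nn A B s * v s) (γ s) (YY D1 D2 v s) (YY (θ * D1) (θ * D2) v s)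
      (M / (nn A B s * v s))) :
    0 ≤ ∫ s in (0 : ℝ)..(2 * π), JQ W L M (nn A B s) (v s) (γ s) (R s) (YY D1 D2 v s)
      (YY (θ * D1) (θ * D2) v s) := by
  have hv : ∀ s, 0 < v s := fun s => by linarith [hD.v1 s]
  have cY := YY_cont hD.cv D1 D2
  have cE := YY_cont hD.cv (θ * D1) (θ * D2)
  have cJ := JQ_cont hW hL hD.cv hD.cg hD.cR cY cE hA hB hv hr M
  have hgen := hD.gen _ hT D1 D2
  unfold GI at hgen
  have cG : Continuous (fun s => v s * (1 - (q / (1 + q) * A * cos s ^ 2 +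
      q / (1 + q) * B * sin s ^ 2) * v s) * (1 * Sf (v s + 3 * γ s ^ 2) + 1 * R s + C * γ s ^ 2 +
      l * (γ s * YY D1 D2 v s) + m * YY D1 D2 v s ^ 2 + 0 -
      0 * (v s + 3 * γ s ^ 2 - 3 / 4) ^ 2)) := by
    have := hD.cv
    have := hD.cg
    have := hD.cR
    unfold Sf
    fun_prop
  refine int_split cJ cG (c := 1 + q) (by linarith) hgen fun s => ?_
  have hn := nn_pos hA hB s
  rw [JQ_eq (P1 := q / (1 + q) * A * cos s ^ 2 + q / (1 + q) * B * sin s ^ 2) (C := C) (l := l)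
    (m := m) hn (hv s) (by linarith) (by unfold nn; ring) (hWz s), add_sub_cancel_left]
  exact mul_nonneg (one_div_pos.2 hn).le (hK s)

end Pool.Agent.Lib.MP_084b88_gt.AY
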