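import Pool.Agent.Lib.MP_084b88_gt.AY.REB

/-!
# MP_084b88_gt, project AY, module RG0: regime I, the pointwise inequality on a cell of `z` (real version)
-/

set_option autoImplicit false

open MeasureTheory Set Real Filter Topology
open scoped Pointwise InnerProductSpace

namespace Pool.Agent.Lib.MP_084b88_gt.AY

open Pool.Agent.Lib.MP_084b88_gt.CW Pool.Agent.Lib.MP_084b88_gt.SY Pool.Agent.Lib.MP_084b88_gt.LG

namespace RG0M

theorem kap_lo : 8488 / 10000 ≤ kap := by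
  have h1 := Real.pi_lt_d6
  unfold kap
  rw [le_div_iff₀ (by positivity)]
  linarith

theorem kap_hi : kap ≤ 8489 / 10000 := by
  have h1 := Real.pi_gt_d6
  unfold kap
  rw [div_le_iff₀ (by positivity)]
  linarith

theorem kap_hi2 : kap ≤ 84883 / 100000 := by
  have h1 := Real.pi_gt_d6
  unfold kap
  rw [div_le_iff₀ (by positivity)]
  linarith

theorem tau_pos : 0 < taup := by
  have h1 := kap_lo
  unfold taup
  nlinarith

theorem tau_hi : taup ≤ 81 / 1000 := by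
  have h1 := kap_hi
  have h2 := kap_lo
  unfold taup
  nlinarith

theorem tau_hi2 : taup ≤ 8077 / 100000 := by
  have h1 := Real.pi_gt_d6
  have h2 : kap ≤ 84883 / 100000 := by
    unfold kap
    rw [div_le_iff₀ (by positivity)]
    linarith
  have h3 := kap_lo
  unfold taup
  nlinarith

end RG0M

open RG0M

/-- Lower bound of the root, `w = √z = 1/y`. -/
theorem GV_low {W L : ℝ → ℝ} {w D σ η o Wd : ℝ} (hw : 0 < w) (ho : o ^ 2 ≤ 1) (hD : 0 ≤ D)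
    (hσ : 0 ≤ σ) (hη : 0 < η) (hWd : |W (1 / w) - 1| ≤ Wd)
    (h1 : 2 * D + D ^ 2 + taup * (1 + η) * (Wd + D) ^ 2 ≤ (w - 1) ^ 2 / (4 * w))
    (h2 : L (1 / w) ^ 2 / 2 + σ ^ 2 * (1 + taup * (1 + 1 / η)) ≤ 2 * σ) :
    1 + D - σ * o ^ 2 ≤ GV W L (1 / w) o := by
  have ht := tau_pos
  refine le_GV ht ?_
  have e1 : (1 + 1 / w) ^ 2 / (4 * (1 / w)) = 1 + (w - 1) ^ 2 / (4 * w) := by
    field_simp
    ring
  rw [e1]
  obtain ⟨V, hV⟩ : ∃ V, V = W (1 / w) - 1 := ⟨_, rfl⟩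
  have hW : W (1 / w) = 1 + V := by rw [hV]; ring
  rw [← hV] at hWd
  rw [hW]
  obtain ⟨t, htt⟩ : ∃ t, t = o ^ 2 := ⟨_, rfl⟩
  have ht0 : 0 ≤ t := htt ▸ sq_nonneg o
  have ht1 : t ≤ 1 := htt ▸ ho
  have e2 : (L (1 / w) * o) ^ 2 / 2 = L (1 / w) ^ 2 / 2 * t := by
    rw [htt]
    ring
  rw [e2, ← htt]
  have ht2 : t ^ 2 ≤ t := by nlinarith
  -- squares
  have s1 : (D - σ * t) ^ 2 ≤ D ^ 2 + σ ^ 2 * t := by
    nlinarith [mul_nonneg hD (mul_nonneg hσ ht0), mul_le_mul_of_nonneg_left ht2 (sq_nonneg σ)]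
  have hVD : (V - D) ^ 2 ≤ (Wd + D) ^ 2 := by
    apply sq_le_sq'
    · have := (abs_le.1 hWd).1
      linarith
    · have := (abs_le.1 hWd).2
      linarith
  have s2 : (1 + D - σ * t - (1 + V)) ^ 2 ≤ (1 + η) * (V - D) ^ 2 + (1 + 1 / η) * (σ ^ 2 * t) := by
    have h3 : 0 ≤ (1 / η) * (η * (V - D) - σ * t) ^ 2 := by positivity
    have h4 : (1 / η) * (η * (V - D) - σ * t) ^ 2 =
        η * (V - D) ^ 2 - 2 * (V - D) * (σ * t) + 1 / η * (σ * t) ^ 2 := by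
      field_simp
      ring
    have h5 : (1 + 1 / η) * (σ ^ 2 * t ^ 2) ≤ (1 + 1 / η) * (σ ^ 2 * t) := by
      apply mul_le_mul_of_nonneg_left _ (by positivity)
      exact mul_le_mul_of_nonneg_left ht2 (sq_nonneg σ)
    nlinarith
  have s3 : taup * (1 + D - σ * t - (1 + V)) ^ 2 ≤
      taup * ((1 + η) * (Wd + D) ^ 2 + (1 + 1 / η) * (σ ^ 2 * t)) := by
    apply mul_le_mul_of_nonneg_left _ ht.le
    have : (1 + η) * (V - D) ^ 2 ≤ (1 + η) * (Wd + D) ^ 2 :=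
      mul_le_mul_of_nonneg_left hVD (by linarith)
    linarith
  have s4 := mul_le_mul_of_nonneg_left h2 ht0
  nlinarith [s1, s3, s4, h1]

/-- The pointwise inequality from bounds of the coefficients. -/
theorem K1_cell {W L : ℝ → ℝ} {C l m z w ψ γ Y P S R D σ a b gl0 ol0 gl1 ol1 h0 h1 P0 P1 e G2 : ℝ}
    (hw : w = √z)
    (hG : 1 + D - σ * (γ - Y) ^ 2 ≤ GV W L (1 / w) (γ - Y))
    (hP0 : P0 ≤ P) (hP1 : P ≤ P1)
    (hgl0 : gl0 ≤ -(ψ * (C + l + m))) (hol0 : ol0 ≤ -(kap * σ) - ψ * m)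
    (hgl1 : gl1 ≤ -(ψ * (C + l + m))) (hol1 : ol1 ≤ -(kap * σ) - ψ * m)
    (hc0 : |ψ * (l + 2 * m) + L (1 / w) - 4 / 5 * P0| ≤ h0)
    (hc1 : |ψ * (l + 2 * m) + L (1 / w) - 4 / 5 * P1| ≤ h1)
    (f0 : h0 ^ 2 ≤ 4 * (gl0 - 2 / 5 * P0 + a) * (ol0 + 3 / 5 * P0 + b))
    (f01 : 0 ≤ gl0 - 2 / 5 * P0 + a) (f02 : 0 ≤ ol0 + 3 / 5 * P0 + b)
    (f1 : h1 ^ 2 ≤ 4 * (gl1 - 2 / 5 * P1 + a) * (ol1 + 3 / 5 * P1 + b))
    (f11 : 0 ≤ gl1 - 2 / 5 * P1 + a) (f12 : 0 ≤ ol1 + 3 / 5 * P1 + b)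
    (he : e ≤ (W (1 / w) - ψ) * (S + R)) (hbud : a * G2 + b ≤ kap * D + e)
    (ha : 0 ≤ a) (hb : 0 ≤ b) (hγ : γ ^ 2 ≤ G2) (ho : (γ - Y) ^ 2 ≤ 1) :
    0 ≤ K1 W L C l m z γ Y (1 / 2 * Y) P + (W (1 / √z) - ψ) *
      (S + R + (C * γ ^ 2 + l * (γ * Y) + m * Y ^ 2)) := by
  rw [← hw]
  unfold K1
  rw [← hw]
  have hk : 0 < kap := by
    have := kap_lo
    linarith
  obtain ⟨o, hoo⟩ : ∃ o, o = γ - Y := ⟨_, rfl⟩
  have hY : Y = γ - o := by rw [hoo]; ring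
  rw [← hoo] at hG ho
  -- quadratic form at an end
  have qf : ∀ (gl ol P' h : ℝ), gl ≤ -(ψ * (C + l + m)) → ol ≤ -(kap * σ) - ψ * m →
      |ψ * (l + 2 * m) + L (1 / w) - 4 / 5 * P'| ≤ h →
      h ^ 2 ≤ 4 * (gl - 2 / 5 * P' + a) * (ol + 3 / 5 * P' + b) →
      0 ≤ gl - 2 / 5 * P' + a → 0 ≤ ol + 3 / 5 * P' + b →
      0 ≤ (-(ψ * (C + l + m)) - 2 / 5 * P' + a) * γ ^ 2 +
        (ψ * (l + 2 * m) + L (1 / w) - 4 / 5 * P') * (γ * o) +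
        (-(kap * σ) - ψ * m + 3 / 5 * P' + b) * o ^ 2 := by
    intro gl ol P' h hgl hol hh hf g1 g2
    obtain ⟨x, hx⟩ : ∃ x, x = ψ * (l + 2 * m) + L (1 / w) - 4 / 5 * P' := ⟨_, rfl⟩
    obtain ⟨G, hGG⟩ : ∃ G, G = gl - 2 / 5 * P' + a := ⟨_, rfl⟩
    obtain ⟨O, hO⟩ : ∃ O, O = ol + 3 / 5 * P' + b := ⟨_, rfl⟩
    rw [← hx] at hh ⊢
    rw [← hGG, ← hO] at hf
    rw [← hGG] at g1
    rw [← hO] at g2
    have hx2 : x ^ 2 ≤ 4 * G * O := by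
      have h5 : x ^ 2 ≤ h ^ 2 := by
        rw [← sq_abs x]
        exact pow_le_pow_left₀ (abs_nonneg x) hh 2
      linarith
    have hq : 0 ≤ G * γ ^ 2 + x * (γ * o) + O * o ^ 2 := by
      rcases eq_or_lt_of_le g1 with hG0 | hG0
      · have hx0 : x = 0 := by
          have : x ^ 2 ≤ 0 := by rw [← hG0] at hx2; linarith
          exact pow_eq_zero_iff (two_ne_zero) |>.1 (le_antisymm this (sq_nonneg x))
        rw [hx0, ← hG0]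
        nlinarith [mul_nonneg g2 (sq_nonneg o)]
      · have h6 : 0 ≤ 4 * G * (G * γ ^ 2 + x * (γ * o) + O * o ^ 2) := by
          nlinarith [sq_nonneg (2 * G * γ + x * o), mul_le_mul_of_nonneg_right hx2 (sq_nonneg o)]
        by_contra h7
        have h8 : 4 * G * (G * γ ^ 2 + x * (γ * o) + O * o ^ 2) < 0 :=
          mul_neg_of_pos_of_neg (by linarith) (not_le.1 h7)
        linarith
    have h9 : G * γ ^ 2 ≤ (-(ψ * (C + l + m)) - 2 / 5 * P' + a) * γ ^ 2 :=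
      mul_le_mul_of_nonneg_right (by rw [hGG]; linarith) (sq_nonneg γ)
    have h10 : O * o ^ 2 ≤ (-(kap * σ) - ψ * m + 3 / 5 * P' + b) * o ^ 2 :=
      mul_le_mul_of_nonneg_right (by rw [hO]; linarith) (sq_nonneg o)
    linarith
  have q0 := qf gl0 ol0 P0 h0 hgl0 hol0 hc0 f0 f01 f02
  have q1 := qf gl1 ol1 P1 h1 hgl1 hol1 hc1 f1 f11 f12
  -- interpolation in P
  have qP : 0 ≤ (-(ψ * (C + l + m)) - 2 / 5 * P + a) * γ ^ 2 +
        (ψ * (l + 2 * m) + L (1 / w) - 4 / 5 * P) * (γ * o) +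
        (-(kap * σ) - ψ * m + 3 / 5 * P + b) * o ^ 2 := by
    rcases le_or_gt 0 (3 / 5 * o ^ 2 - 4 / 5 * (γ * o) - 2 / 5 * γ ^ 2) with hs | hs
    · nlinarith [mul_nonneg (sub_nonneg.2 hP0) hs]
    · nlinarith [mul_nonneg (sub_nonneg.2 hP1) (neg_nonneg.2 hs.le)]
  have hGk : kap * (D - σ * o ^ 2) ≤ kap * (GV W L (1 / w) o - 1) :=
    mul_le_mul_of_nonneg_left (by linarith) hk.le
  have ha2 : a * γ ^ 2 ≤ a * G2 := mul_le_mul_of_nonneg_left hγ ha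
  have hb2 : b * o ^ 2 ≤ b := by nlinarith
  rw [← hoo]
  have key : kap * (GV W L (1 / w) o - 1) - W (1 / w) * (C * γ ^ 2 + l * (γ * Y) + m * Y ^ 2) +
      L (1 / w) * o * γ + P * (o ^ 2 - 8 / 5 * (γ - 1 / 2 * Y) ^ 2) +
      (W (1 / w) - ψ) * (S + R + (C * γ ^ 2 + l * (γ * Y) + m * Y ^ 2)) =
      kap * (GV W L (1 / w) o - 1) - kap * (D - σ * o ^ 2) +
      ((-(ψ * (C + l + m)) - 2 / 5 * P + a) * γ ^ 2 +
        (ψ * (l + 2 * m) + L (1 / w) - 4 / 5 * P) * (γ * o) +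
        (-(kap * σ) - ψ * m + 3 / 5 * P + b) * o ^ 2) +
      (kap * D - a * γ ^ 2 - b * o ^ 2 + (W (1 / w) - ψ) * (S + R)) := by
    rw [hY]
    ring
  rw [key]
  linarith

end Pool.Agent.Lib.MP_084b88_gt.AY
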