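import Pool.Agent.Lib.MP_084b88_gt.AY.RG0

/-!
# MP_084b88_gt, project AY, module RGC: regime I, rational check of a cell and its soundness
-/

set_option autoImplicit false

open MeasureTheory Set Real Filter Topology
open scoped Pointwise InnerProductSpace

namespace Pool.Agent.Lib.MP_084b88_gt.AY

open Pool.Agent.Lib.MP_084b88_gt.CW Pool.Agent.Lib.MP_084b88_gt.SY Pool.Agent.Lib.MP_084b88_gt.LG

/-- Parameters of regime I; `sB ≥ √B0`. -/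
structure RP where
  q : ℚ
  C : ℚ
  l : ℚ
  m : ℚ
  mu : ℚ
  A0 : ℚ
  B0 : ℚ
  sB : ℚ

/-- A cell `z ∈ [z0, z1]`, `w0 ≤ √z ≤ w1`; `W/z` and `L/z` are linear on it with the end values `o0, o1` and `l0, l1`. `D` is the
constant (`ex = false`), or the coefficient of `(√z - 1)²` (`ex = true`, `W = ψ`). -/
structure RC where
  z0 : ℚ
  z1 : ℚ
  w0 : ℚ
  w1 : ℚ
  o0 : ℚ
  o1 : ℚ
  l0 : ℚ
  l1 : ℚ
  D : ℚ
  sg : ℚ
  et : ℚ
  a : ℚ
  b : ℚ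
  ex : Bool

/-- Minimum of three. -/
def mn3 (x y z : ℚ) : ℚ := min x (min y z)
/-- Maximum of three. -/
def mx3 (x y z : ℚ) : ℚ := max x (max y z)

/-- Lower bound of `z (a + (b - a)(z - z0)/(z1 - z0))` on `[z0, z1]`. -/
def qlo (z0 z1 a b : ℚ) : ℚ := mn3 (z0 * a) ((z0 * b + z1 * a) / 2) (z1 * b)
/-- Upper bound. -/
def qhi (z0 z1 a b : ℚ) : ℚ := mx3 (z0 * a) ((z0 * b + z1 * a) / 2) (z1 * b)

/-- Upper bound of `S + R` for `x ≥ v0`. -/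
def suQ (v0 : ℚ) : ℚ := bandQ.foldr (fun l r => min (l.2 + 1 / 8 + (l.1 - 1 / 6) * v0) r) 1

/-- The value of `ψ/z`. -/
def psq (p : RP) (z : ℚ) : ℚ := 1 + p.q - p.q * z

/-- Lower bound of `(W - ψ)(S + R)`. -/
def eQ (p : RP) (c : RC) : ℚ :=
  min (qlo c.z0 c.z1 (c.o0 - psq p c.z0) (c.o1 - psq p c.z1)) 0 * max (suQ (max (1 / 2) (c.z0 / p.B0))) 0 -
    max (qhi c.z0 c.z1 (c.o0 - psq p c.z0) (c.o1 - psq p c.z1)) 0 * (635 / 10000)

/-- Bound of `γ²`. -/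
def g2Q (p : RP) (c : RC) : ℚ :=
  mn3 (1 / 9) (max 0 ((2 * (c.z1 / p.A0) - 1) / 3)) (max 0 ((1 - c.z0 / p.B0) / 3))

/-- Lower bound of `P`. -/
def p0Q (p : RP) (c : RC) : ℚ := 3 * p.mu * p.A0 / (4 * (31416 / 10000) * c.z1)
/-- Upper bound of `P`. -/
def p1Q (p : RP) (c : RC) : ℚ := p.mu * p.sB / (12 / 5 * c.w0)

/-- The check of the quadratic form at one end. -/
def frQ (p : RP) (c : RC) (P : ℚ) : Bool :=
  let pl := qlo c.z0 c.z1 (psq p c.z0) (psq p c.z1)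
  let pu := qhi c.z0 c.z1 (psq p c.z0) (psq p c.z1)
  let Ll := qlo c.z0 c.z1 c.l0 c.l1
  let Lu := qhi c.z0 c.z1 c.l0 c.l1
  let s := p.C + p.l + p.m
  let r := p.l + 2 * p.m
  let gl := -(max (pl * s) (pu * s)) - 2 / 5 * P + c.a
  let ol := -(8489 / 10000 * c.sg) - max (pl * p.m) (pu * p.m) + 3 / 5 * P + c.b
  let lo := min (pl * r) (pu * r) + Ll - 4 / 5 * P
  let hi := max (pl * r) (pu * r) + Lu - 4 / 5 * P
  let h := max (-lo) hi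
  decide (0 ≤ gl) && decide (0 ≤ ol) && decide (h ^ 2 ≤ 4 * gl * ol)

/-- Lower bound of `(√z - 1)²`. -/
def um2 (c : RC) : ℚ := if c.w1 ≤ 1 then (1 - c.w1) ^ 2 else if 1 ≤ c.w0 then (c.w0 - 1) ^ 2 else 0

/-- The check of the lower bound of the root. -/
def gvQ (p : RP) (c : RC) : Bool :=
  let Wl := qlo c.z0 c.z1 c.o0 c.o1
  let Wu := qhi c.z0 c.z1 c.o0 c.o1
  let Ll := qlo c.z0 c.z1 c.l0 c.l1
  let Lu := qhi c.z0 c.z1 c.l0 c.l1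
  let Lm := max (-Ll) Lu
  decide (Lm ^ 2 / 2 + c.sg ^ 2 * (1 + 8077 / 100000 * (1 + 1 / c.et)) ≤ 2 * c.sg) &&
  (if c.ex then
    let U := max (1 - c.w0) (c.w1 - 1)
    let ah := (c.w1 + 1) * (1 - p.q * c.w0 ^ 2)
    decide (c.o0 = psq p c.z0) && decide (c.o1 = psq p c.z1) && decide (p.q * c.w1 ^ 2 ≤ 1) &&
    decide (2 * c.D + c.D ^ 2 * U ^ 2 + 8077 / 100000 * (1 + c.et) * (ah + c.D * U) ^ 2 ≤ 1 / (4 * c.w1)) &&
    decide (c.a * g2Q p c + c.b ≤ eQ p c)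
  else
    let Wd := max (1 - Wl) (Wu - 1)
    decide (2 * c.D + c.D ^ 2 + 8077 / 100000 * (1 + c.et) * (Wd + c.D) ^ 2 ≤ um2 c / (4 * c.w1)) &&
    decide (c.a * g2Q p c + c.b ≤ 8488 / 10000 * c.D + eQ p c))

/-- The check of a cell. -/
def rcOK (p : RP) (c : RC) : Bool :=
  decide (0 < c.w0) && decide (0 < c.z0) && decide (c.z0 < c.z1) && decide (c.w0 ^ 2 ≤ c.z0) &&
  decide (0 < c.w1) && decide (c.z1 ≤ c.w1 ^ 2) && decide (0 ≤ c.D) && decide (0 ≤ c.sg) && decide (0 < c.et) &&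
  decide (0 ≤ c.a) && decide (0 ≤ c.b) && gvQ p c && frQ p c (p0Q p c) && frQ p c (p1Q p c)

/-- The checks of the parameters. -/
def rpOK (p : RP) : Bool :=
  decide (0 < p.q) && decide (0 ≤ p.mu) && decide (0 < p.A0) && decide (p.A0 ≤ p.B0) && decide (0 < p.sB) &&
  decide (p.B0 ≤ p.sB ^ 2)

end Pool.Agent.Lib.MP_084b88_gt.AY
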