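import Pool.Agent.Lib.MP_084b88_gt.AY.RGS
import Pool.Agent.Lib.MP_084b88_gt.AY.PWL

/-!
# MP_084b88_gt, project AY, module RGM: regime I for the weights `W = z pwl OM z`, `L = z pwl LA z`
-/

set_option autoImplicit false

open MeasureTheory Set Real Filter Topology
open scoped Pointwise InnerProductSpace

namespace Pool.Agent.Lib.MP_084b88_gt.AY

open Pool.Agent.Lib.MP_084b88_gt.CW Pool.Agent.Lib.MP_084b88_gt.SY Pool.Agent.Lib.MP_084b88_gt.LG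
open RG0M

/-- The weight `z Ω(z)`, `z = 1/y²`, `Ω` piecewise linear. -/
noncomputable def Wp (l : List (ℚ × ℚ)) (y : ℝ) : ℝ := 1 / y ^ 2 * pwl l (1 / y ^ 2)

theorem Wp_z (l : List (ℚ × ℚ)) {z : ℝ} (hz : 0 < z) : Wp l (1 / √z) = z * pwl l z := by
  have h : 1 / (1 / √z) ^ 2 = z := by
    rw [div_pow, one_pow, one_div_one_div, Real.sq_sqrt hz.le]
  unfold Wp
  rw [h]

theorem Wp_cont (l : List (ℚ × ℚ)) {b0 : ℝ} (hb : 0 < b0) : ContinuousOn (Wp l) (Icc b0 2) := by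
  have h1 : ContinuousOn (fun y : ℝ => 1 / y ^ 2) (Icc b0 2) := by
    apply ContinuousOn.div continuousOn_const (by fun_prop)
    intro y hy
    have : 0 < y := lt_of_lt_of_le hb hy.1
    positivity
  exact h1.mul ((pwl_cont l).comp_continuousOn h1)

/-- The nodes agree on `[z0, z1]` with the line through `(z0, o0)`, `(z1, o1)`. -/
def lnOK (l : List (ℚ × ℚ)) (z0 z1 o0 o1 : ℚ) : Bool :=
  (segs l).any fun x => decide (x.1 ≤ z0) && decide (z1 ≤ x.2.1) &&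
    decide (o0 = x.2.2.1 + x.2.2.2 * (z0 - x.1)) && decide (o1 = x.2.2.1 + x.2.2.2 * (z1 - x.1))

theorem lnOK_sound {l : List (ℚ × ℚ)} {z0 z1 o0 o1 : ℚ} (hi : Inc l = true) (hz : z0 < z1)
    (h : lnOK l z0 z1 o0 o1 = true) {z : ℝ} (h0 : (z0 : ℝ) ≤ z) (h1 : z ≤ z1) :
    pwl l z = o0 + (o1 - o0) * ((z - z0) / (z1 - z0)) := by
  unfold lnOK at h
  rw [List.any_eq_true] at h
  obtain ⟨x, hx, hc⟩ := h
  simp only [Bool.and_eq_true, decide_eq_true_eq] at hc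
  obtain ⟨⟨⟨c1, c2⟩, c3⟩, c4⟩ := hc
  have c1' : (x.1 : ℝ) ≤ z0 := by exact_mod_cast c1
  have c2' : (z1 : ℝ) ≤ x.2.1 := by exact_mod_cast c2
  have hz' : (z0 : ℝ) < z1 := by exact_mod_cast hz
  rw [pwl_segs hi hx (c1'.trans h0) (h1.trans c2'), c3, c4]
  push_cast
  have h5 : (z1 : ℝ) - z0 ≠ 0 := (sub_pos.2 hz').ne'
  field_simp
  ring

/-- The cells form a chain from `a` to `b`. -/
def chn (b : ℚ) : ℚ → List RC → Bool
  | a, [] => decide (b ≤ a)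
  | a, c :: t => decide (c.z0 ≤ a) && chn b c.z1 t

theorem chn_sound {b : ℚ} {l : List RC} {a : ℚ} (h : chn b a l = true) {z : ℝ} (h0 : (a : ℝ) ≤ z)
    (h1 : z < b) : ∃ c ∈ l, (c.z0 : ℝ) ≤ z ∧ z ≤ c.z1 := by
  induction l generalizing a with
  | nil =>
    unfold chn at h
    rw [decide_eq_true_eq] at h
    have : (b : ℝ) ≤ a := by exact_mod_cast h
    linarith
  | cons c t ih =>
    unfold chn at h
    rw [Bool.and_eq_true, decide_eq_true_eq] at h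
    have h2 : (c.z0 : ℝ) ≤ a := by exact_mod_cast h.1
    rcases le_total z (c.z1 : ℝ) with h3 | h3
    · exact ⟨c, List.mem_cons_self .., h2.trans h0, h3⟩
    · obtain ⟨c', hc', h4⟩ := ih h.2 h3
      exact ⟨c', List.mem_cons_of_mem _ hc', h4⟩

/-- All the checks of regime I. -/
def rgOK (OM LA : List (ℚ × ℚ)) (p : RP) (cs : List RC) : Bool :=
  Inc OM && Inc LA && rpOK p && chn (p.B0 + 1 / 1000000) (p.A0 / 2) cs &&
  cs.all fun c => rcOK p c && lnOK OM c.z0 c.z1 c.o0 c.o1 && lnOK LA c.z0 c.z1 c.l0 c.l1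

theorem rcOK_lt {p : RP} {c : RC} (h : rcOK p c = true) : c.z0 < c.z1 := by
  simp only [rcOK, Bool.and_eq_true, decide_eq_true_eq] at h
  exact h.1.1.1.1.1.1.1.1.1.1.1.2

/-- **RGM**: regime I. -/
theorem regI {OM LA : List (ℚ × ℚ)} {p : RP} {cs : List RC} (hck : rgOK OM LA p cs = true) {T : Set GP}
    {b0 : ℝ} (hb0 : 0 < b0)
    {v γ R : ℝ → ℝ} (hD : LgC T v γ R) {A B M D1 D2 : ℝ} (hA : (p.A0 : ℝ) ≤ A) (hAB : A ≤ B)
    (hB : B ≤ p.B0)
    (hT : (⟨p.q / (1 + p.q) * A, p.q / (1 + p.q) * B, 1, 1, p.C, p.l, p.m, 0, 0⟩ : GP) ∈ T)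
    (hz : ∀ s, 1 / 4 ≤ nn A B s * v s ∧ nn A B s * v s ≤ 1 / b0 ^ 2)
    (ho : ∀ s, |γ s - YY D1 D2 v s| ≤ 1)
    (hM1 : 3 * ((p.mu : ℝ) * (√A * √B)) ≤ 4 * π * M) (hM2 : ∀ s, 12 / 5 * M ≤ (p.mu : ℝ) * (√A * √B) * √(v s)) :
    0 ≤ ∫ s in (0 : ℝ)..(2 * π), JQ (Wp OM) (Wp LA) M (nn A B s) (v s) (γ s) (R s) (YY D1 D2 v s)
      (YY (1 / 2 * D1) (1 / 2 * D2) v s) := by
  simp only [rgOK, Bool.and_eq_true, List.all_eq_true] at hck
  obtain ⟨⟨⟨⟨i1, i2⟩, i3⟩, i4⟩, i5⟩ := hck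
  have hp := i3
  simp only [rpOK, Bool.and_eq_true, decide_eq_true_eq] at hp
  obtain ⟨⟨⟨⟨⟨b1, b2⟩, b3⟩, b4⟩, b5⟩, b6⟩ := hp
  have b1' : (0 : ℝ) < p.q := by exact_mod_cast b1
  have b2' : (0 : ℝ) ≤ p.mu := by exact_mod_cast b2
  have b3' : (0 : ℝ) < p.A0 := by exact_mod_cast b3
  have b5' : (0 : ℝ) < p.sB := by exact_mod_cast b5
  have b6' : (p.B0 : ℝ) ≤ p.sB ^ 2 := by exact_mod_cast b6
  have hA0 : 0 < A := lt_of_lt_of_le b3' hA
  have hB0 : 0 < B := lt_of_lt_of_le hA0 hAB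
  have hr : ∀ s, 1 / √(nn A B s * v s) ∈ Icc b0 2 := by
    intro s
    have h1 : 0 < nn A B s * v s := by linarith [(hz s).1]
    have h2 : 0 < √(nn A B s * v s) := Real.sqrt_pos.2 h1
    constructor
    · rw [le_div_iff₀ h2]
      have h3 : √(nn A B s * v s) ≤ 1 / b0 := by
        rw [Real.sqrt_le_left (by positivity)]
        have h4 := (hz s).2
        rw [div_pow, one_pow]
        exact h4
      have h4 : b0 * √(nn A B s * v s) ≤ b0 * (1 / b0) := mul_le_mul_of_nonneg_left h3 hb0.le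
      rwa [mul_one_div_cancel hb0.ne'] at h4
    · rw [div_le_iff₀ h2]
      have h3 : (1 / 2 : ℝ) ≤ √(nn A B s * v s) := by
        apply Real.le_sqrt_of_sq_le
        norm_num
        linarith [(hz s).1]
      linarith
  have hnb : ∀ s, A ≤ nn A B s ∧ nn A B s ≤ B := by
    intro s
    unfold nn
    have h1 := sin_sq_add_cos_sq s
    have h2 : 0 ≤ (B - A) * sin s ^ 2 := mul_nonneg (by linarith) (sq_nonneg _)
    have h3 : 0 ≤ (B - A) * cos s ^ 2 := mul_nonneg (by linarith) (sq_nonneg _)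
    constructor
    · nlinarith
    · nlinarith
  refine reiMain2 (C := p.C) (l := p.l) (m := p.m) (q := p.q) b1' (Wp_cont OM hb0) (Wp_cont LA hb0) hD
    hA0 hB0 hT hr fun s => ?_
  obtain ⟨z, hzz⟩ : ∃ z, z = nn A B s * v s := ⟨_, rfl⟩
  have hv := hD.v1 s
  have hx := hD.x1 s
  have hg := hD.g1 s
  obtain ⟨n1, n2⟩ := hnb s
  have hv1 : v s ≤ 1 := by linarith [sq_nonneg (γ s)]
  have hz0 : ((p.A0 / 2 : ℚ) : ℝ) ≤ z := by
    push_cast
    rw [hzz]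
    nlinarith
  have hz1 : z < ((p.B0 + 1 / 1000000 : ℚ) : ℝ) := by
    push_cast
    have h1 : nn A B s * v s ≤ nn A B s * 1 :=
      mul_le_mul_of_nonneg_left hv1 (by linarith)
    rw [hzz]
    linarith
  have hzp : 0 < z := by
    rw [hzz]
    linarith [(hz s).1]
  obtain ⟨c, hc, hc0, hc1⟩ := chn_sound i4 hz0 hz1
  obtain ⟨⟨j1, j2⟩, j3⟩ := i5 c hc
  have hlt := rcOK_lt j1
  have hW : Wp OM (1 / √z) = z * (c.o0 + (c.o1 - c.o0) * ((z - c.z0) / (c.z1 - c.z0))) := by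
    rw [Wp_z OM hzp, lnOK_sound i1 hlt j2 hc0 hc1]
  have hL : Wp LA (1 / √z) = z * (c.l0 + (c.l1 - c.l0) * ((z - c.z0) / (c.z1 - c.z0))) := by
    rw [Wp_z LA hzp, lnOK_sound i2 hlt j3 hc0 hc1]
  rw [← hzz]
  have hsz : 0 < √z := Real.sqrt_pos.2 hzp
  have hzM : z * (M / z) = M := by field_simp
  have hsA : √A ≤ √B := Real.sqrt_le_sqrt hAB
  have hsA0 : 0 < √A := Real.sqrt_pos.2 hA0
  have hAA : √A * √A = A := Real.mul_self_sqrt hA0.le
  have hPl : 3 * ((p.mu : ℝ) * p.A0) ≤ 4 * π * (z * (M / z)) := by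
    rw [hzM]
    refine le_trans ?_ hM1
    have h1 : (p.A0 : ℝ) ≤ √A * √B := by
      have : √A * √A ≤ √A * √B := mul_le_mul_of_nonneg_left hsA hsA0.le
      linarith
    have h2 : (p.mu : ℝ) * p.A0 ≤ (p.mu : ℝ) * (√A * √B) := mul_le_mul_of_nonneg_left h1 b2'
    linarith
  have hPu : 12 / 5 * (√z * (M / z)) ≤ (p.mu : ℝ) * p.sB := by
    have h1 : √z * (M / z) = M / √z := by
      rw [eq_div_iff hsz.ne']
      have h9 : √z * √z = z := Real.mul_self_sqrt hzp.le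
      have h10 : √z * (M / z) * √z = (√z * √z) * (M / z) := by ring
      rw [h10, h9, hzM]
    rw [h1, ← mul_div_assoc, div_le_iff₀ hsz]
    refine (hM2 s).trans ?_
    have h2 : √A * √(v s) ≤ √z := by
      rw [← Real.sqrt_mul hA0.le, hzz]
      exact Real.sqrt_le_sqrt (mul_le_mul_of_nonneg_right n1 (by linarith))
    have h3 : √B ≤ p.sB := by
      rw [Real.sqrt_le_left b5'.le]
      exact hB.trans b6'
    have h4 : (√A * √(v s)) * √B ≤ √z * p.sB :=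
      mul_le_mul h2 h3 (Real.sqrt_nonneg _) hsz.le
    have h5 := mul_le_mul_of_nonneg_left h4 b2'
    linarith
  exact rc_sound i3 j1 hc0 hc1 hW hL (hA.trans n1) (n2.trans hB) hzz hv hx hg (hD.lo s)
    (fun l hl => hD.hi l hl s) (ho s) hPl hPu

end Pool.Agent.Lib.MP_084b88_gt.AY
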