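import Pool.Agent.Lib.MP_084b88_gt.AY.RGC

/-!
# MP_084b88_gt, project AY, module RGS: soundness of the check of a cell of regime I
-/

set_option autoImplicit false

open MeasureTheory Set Real Filter Topology
open scoped Pointwise InnerProductSpace

namespace Pool.Agent.Lib.MP_084b88_gt.AY

open Pool.Agent.Lib.MP_084b88_gt.CW Pool.Agent.Lib.MP_084b88_gt.SY Pool.Agent.Lib.MP_084b88_gt.LG
open RG0M

namespace RGSM

theorem c_le {a b : ℚ} (h : a ≤ b) : (a : ℝ) ≤ (b : ℝ) := by exact_mod_cast h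
theorem c_lt {a b : ℚ} (h : a < b) : (a : ℝ) < (b : ℝ) := by exact_mod_cast h

theorem mn3_le (x y z : ℚ) : mn3 x y z ≤ x ∧ mn3 x y z ≤ y ∧ mn3 x y z ≤ z := by
  unfold mn3
  exact ⟨min_le_left _ _, (min_le_right _ _).trans (min_le_left _ _),
    (min_le_right _ _).trans (min_le_right _ _)⟩

theorem le_mx3 (x y z : ℚ) : x ≤ mx3 x y z ∧ y ≤ mx3 x y z ∧ z ≤ mx3 x y z := by
  unfold mx3
  exact ⟨le_max_left _ _, (le_max_left _ _).trans (le_max_right _ _),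
    (le_max_right _ _).trans (le_max_right _ _)⟩

/-- Bernstein bounds of a product of two affine functions. -/
theorem q_bd (z0 z1 a b : ℚ) {t z : ℝ} (h0 : 0 ≤ t) (h1 : t ≤ 1) (hz : z = z0 + (z1 - z0) * t) :
    ((qlo z0 z1 a b : ℚ) : ℝ) ≤ z * (a + (b - a) * t) ∧
      z * (a + (b - a) * t) ≤ ((qhi z0 z1 a b : ℚ) : ℝ) := by
  have e : z * (a + (b - a) * t) = (1 - t) ^ 2 * (z0 * a) + 2 * (t * (1 - t)) * ((z0 * b + z1 * a) / 2) +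
      t ^ 2 * (z1 * b) := by
    rw [hz]
    ring
  have p1 : 0 ≤ (1 - t) ^ 2 := sq_nonneg _
  have p2 : 0 ≤ 2 * (t * (1 - t)) := by
    have := mul_nonneg h0 (sub_nonneg.2 h1)
    linarith
  have p3 : 0 ≤ t ^ 2 := sq_nonneg _
  obtain ⟨l1, l2, l3⟩ := mn3_le (z0 * a) ((z0 * b + z1 * a) / 2) (z1 * b)
  obtain ⟨u1, u2, u3⟩ := le_mx3 (z0 * a) ((z0 * b + z1 * a) / 2) (z1 * b)
  have l1' := c_le l1
  have l2' := c_le l2
  have l3' := c_le l3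
  have u1' := c_le u1
  have u2' := c_le u2
  have u3' := c_le u3
  push_cast at l1' l2' l3' u1' u2' u3'
  rw [e]
  unfold qlo qhi
  obtain ⟨m, hm⟩ : ∃ m : ℝ, m = ((mn3 (z0 * a) ((z0 * b + z1 * a) / 2) (z1 * b) : ℚ) : ℝ) := ⟨_, rfl⟩
  obtain ⟨M, hM⟩ : ∃ M : ℝ, M = ((mx3 (z0 * a) ((z0 * b + z1 * a) / 2) (z1 * b) : ℚ) : ℝ) := ⟨_, rfl⟩
  rw [← hm] at l1' l2' l3' ⊢
  rw [← hM] at u1' u2' u3' ⊢
  constructor
  · nlinarith [mul_le_mul_of_nonneg_left l1' p1, mul_le_mul_of_nonneg_left l2' p2,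
      mul_le_mul_of_nonneg_left l3' p3]
  · nlinarith [mul_le_mul_of_nonneg_left u1' p1, mul_le_mul_of_nonneg_left u2' p2,
      mul_le_mul_of_nonneg_left u3' p3]

/-- Upper bound of `S + R`. -/
theorem su_le (v0 : ℚ) {x R : ℝ} (hx : (v0 : ℝ) ≤ x) (hv : 0 ≤ x)
    (hi : ∀ l ∈ bandQ, R ≤ (l.1 : ℝ) * x + (l.2 : ℝ)) : Sf x + R ≤ ((suQ v0 : ℚ) : ℝ) := by
  have hR1 : R ≤ 1 / 10 := by
    have h := hi (-857 / 30000, 28074 / 1000000) (by simp [bandQ])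
    push_cast at h
    nlinarith
  have key : ∀ L : List (ℚ × ℚ), (∀ l ∈ L, R ≤ (l.1 : ℝ) * x + (l.2 : ℝ) ∧ l.1 ≤ 1 / 6) →
      Sf x + R ≤ ((L.foldr (fun l r => min (l.2 + 1 / 8 + (l.1 - 1 / 6) * v0) r) 1 : ℚ) : ℝ) := by
    intro L
    induction L with
    | nil =>
      intro _
      simp only [List.foldr_nil, Rat.cast_one]
      unfold Sf
      linarith
    | cons a L ih =>
      intro h
      have h1 := h a (List.mem_cons_self ..)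
      have h2 := ih fun l hl => h l (List.mem_cons_of_mem _ hl)
      simp only [List.foldr_cons]
      rw [Rat.cast_min]
      refine le_min ?_ h2
      push_cast
      unfold Sf
      have h3 : (a.1 : ℝ) ≤ 1 / 6 := by
        have := c_le h1.2
        push_cast at this
        exact this
      nlinarith [h1.1]
  refine key bandQ fun l hl => ⟨hi l hl, ?_⟩
  fin_cases hl <;> norm_num

/-- The form check. -/
theorem fr_sound {p : RP} {c : RC} {P : ℚ} (h : frQ p c P = true) {t z ψ Lv : ℝ} (h0 : 0 ≤ t) (h1 : t ≤ 1)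
    (hz : z = c.z0 + (c.z1 - c.z0) * t) (hψ : ψ = z * (1 + p.q - p.q * z))
    (hL : Lv = z * (c.l0 + (c.l1 - c.l0) * t)) (hsg : 0 ≤ c.sg) :
    ∃ gl ol hh : ℝ, gl ≤ -(ψ * (p.C + p.l + p.m)) ∧ ol ≤ -(kap * c.sg) - ψ * p.m ∧
      |ψ * (p.l + 2 * p.m) + Lv - 4 / 5 * P| ≤ hh ∧
      hh ^ 2 ≤ 4 * (gl - 2 / 5 * P + c.a) * (ol + 3 / 5 * P + c.b) ∧ 0 ≤ gl - 2 / 5 * P + c.a ∧
      0 ≤ ol + 3 / 5 * P + c.b := by
  have hψ2 : ψ = z * ((psq p c.z0 : ℚ) + ((psq p c.z1 : ℚ) - (psq p c.z0 : ℚ)) * t) := by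
    rw [hψ]
    congr 1
    unfold psq
    push_cast
    rw [hz]
    ring
  obtain ⟨b1, b2⟩ := q_bd c.z0 c.z1 (psq p c.z0) (psq p c.z1) h0 h1 hz
  rw [← hψ2] at b1 b2
  obtain ⟨b3, b4⟩ := q_bd c.z0 c.z1 c.l0 c.l1 h0 h1 hz
  rw [← hL] at b3 b4
  simp only [frQ, Bool.and_eq_true, decide_eq_true_eq] at h
  obtain ⟨⟨f1, f2⟩, f3⟩ := h
  obtain ⟨pl, hpl⟩ : ∃ pl, pl = qlo c.z0 c.z1 (psq p c.z0) (psq p c.z1) := ⟨_, rfl⟩
  obtain ⟨pu, hpu⟩ : ∃ pu, pu = qhi c.z0 c.z1 (psq p c.z0) (psq p c.z1) := ⟨_, rfl⟩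
  obtain ⟨Ll, hLl⟩ : ∃ Ll, Ll = qlo c.z0 c.z1 c.l0 c.l1 := ⟨_, rfl⟩
  obtain ⟨Lu, hLu⟩ : ∃ Lu, Lu = qhi c.z0 c.z1 c.l0 c.l1 := ⟨_, rfl⟩
  rw [← hpl, ← hpu] at f1 f2 f3
  rw [← hLl, ← hLu] at f3
  rw [← hpl] at b1
  rw [← hpu] at b2
  rw [← hLl] at b3
  rw [← hLu] at b4
  -- products with a constant
  have pc : ∀ s : ℚ, ψ * s ≤ ((max (pl * s) (pu * s) : ℚ) : ℝ) ∧ ((min (pl * s) (pu * s) : ℚ) : ℝ) ≤ ψ * s := by
    intro s
    rw [Rat.cast_max, Rat.cast_min]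
    push_cast
    rcases le_total 0 (s : ℝ) with hs | hs
    · exact ⟨le_max_of_le_right (mul_le_mul_of_nonneg_right b2 hs),
        min_le_of_left_le (mul_le_mul_of_nonneg_right b1 hs)⟩
    · exact ⟨le_max_of_le_left (mul_le_mul_of_nonpos_right b1 hs),
        min_le_of_right_le (mul_le_mul_of_nonpos_right b2 hs)⟩
  have r1 := (pc (p.C + p.l + p.m)).1
  have r2 := (pc p.m).1
  obtain ⟨r3, r4⟩ := pc (p.l + 2 * p.m)
  have hk : kap * (c.sg : ℝ) ≤ 8489 / 10000 * c.sg := mul_le_mul_of_nonneg_right kap_hi (by exact_mod_cast hsg)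
  have f1' := c_le f1
  have f2' := c_le f2
  have f3' := c_le f3
  obtain ⟨x1, hx1⟩ : ∃ x, x = max (pl * (p.C + p.l + p.m)) (pu * (p.C + p.l + p.m)) := ⟨_, rfl⟩
  obtain ⟨x2, hx2⟩ : ∃ x, x = max (pl * p.m) (pu * p.m) := ⟨_, rfl⟩
  obtain ⟨x3, hx3⟩ : ∃ x, x = max (pl * (p.l + 2 * p.m)) (pu * (p.l + 2 * p.m)) := ⟨_, rfl⟩
  obtain ⟨x4, hx4⟩ : ∃ x, x = min (pl * (p.l + 2 * p.m)) (pu * (p.l + 2 * p.m)) := ⟨_, rfl⟩
  rw [← hx1] at r1 f1' f3'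
  rw [← hx2] at r2 f2' f3'
  rw [← hx3] at r3
  rw [← hx4] at r4
  rw [← hx3, ← hx4] at f3'
  obtain ⟨hh, hhh⟩ : ∃ x, x = max (-(x4 + Ll - 4 / 5 * P)) (x3 + Lu - 4 / 5 * P) := ⟨_, rfl⟩
  rw [← hhh] at f3'
  have hm1 : ((-(x4 + Ll - 4 / 5 * P) : ℚ) : ℝ) ≤ (hh : ℝ) := c_le (hhh ▸ le_max_left _ _)
  have hm2 : ((x3 + Lu - 4 / 5 * P : ℚ) : ℝ) ≤ (hh : ℝ) := c_le (hhh ▸ le_max_right _ _)
  push_cast at r1 r2 r3 r4 f1' f2' f3' hm1 hm2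
  refine ⟨-(x1 : ℝ), -(8489 / 10000 * (c.sg : ℝ)) - x2, hh, by linarith, by linarith, ?_, ?_, ?_, ?_⟩
  · rw [abs_le]
    constructor <;> linarith
  · refine le_trans f3' (le_of_eq ?_)
    ring
  · linarith
  · linarith

theorem e_bd {x s su dl du : ℝ} (h1 : dl ≤ x) (h2 : x ≤ du) (hs1 : s ≤ su) (hs2 : -(635 / 10000) ≤ s) :
    min dl 0 * max su 0 - max du 0 * (635 / 10000) ≤ x * s := by
  have m1 : min dl 0 ≤ 0 := min_le_right _ _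
  have m2 : 0 ≤ max su 0 := le_max_right _ _
  have m3 : 0 ≤ max du 0 := le_max_right _ _
  have m5 : min dl 0 * max su 0 ≤ 0 := mul_nonpos_of_nonpos_of_nonneg m1 m2
  rcases le_total 0 x with hs | hs
  · have h5 : x * (635 / 10000) ≤ max du 0 * (635 / 10000) :=
      mul_le_mul_of_nonneg_right (h2.trans (le_max_left _ _)) (by norm_num)
    have h6 : x * (-(635 / 10000)) ≤ x * s := mul_le_mul_of_nonneg_left hs2 hs
    linarith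
  · have h6 : x * max su 0 ≤ x * s := mul_le_mul_of_nonpos_left (hs1.trans (le_max_left _ _)) hs
    have h7 : min dl 0 * max su 0 ≤ x * max su 0 :=
      mul_le_mul_of_nonneg_right ((min_le_left _ _).trans h1) m2
    have h8 : 0 ≤ max du 0 * (635 / 10000) := by positivity
    linarith

theorem sr_lo {x R : ℝ} (h1 : x ≤ 1)
    (lo : (3 * π / 4 - 4 / 3 - kap - 1 / 8) - (π / 2 - 3 / 2) * x ≤ R) : -(635 / 10000) ≤ Sf x + R := by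
  have hk := kap_hi2
  have hp1 := Real.pi_gt_d4
  unfold Sf
  have h2 : (π / 2 - 3 / 2) * x ≤ (π / 2 - 3 / 2) * 1 :=
    mul_le_mul_of_nonneg_left h1 (by linarith)
  linarith

/-- The exact case. -/
theorem gv_ex {W L : ℝ → ℝ} {w w0 w1 q D U ah et sg o : ℝ} (hw0 : 0 < w) (hwl : w0 ≤ w) (hwu : w ≤ w1)
    (hp0 : 0 < w0) (hq : 0 < q) (hD : 0 ≤ D) (hs : 0 ≤ sg) (het : 0 < et) (ho : o ^ 2 ≤ 1)
    (hW : W (1 / w) = w ^ 2 * (1 + q - q * w ^ 2)) (hU : |w - 1| ≤ U)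
    (hah : ah = (w1 + 1) * (1 - q * w0 ^ 2)) (g3 : q * w1 ^ 2 ≤ 1)
    (g4 : 2 * D + D ^ 2 * U ^ 2 + 8077 / 100000 * (1 + et) * (ah + D * U) ^ 2 ≤ 1 / (4 * w1))
    (h2 : L (1 / w) ^ 2 / 2 + sg ^ 2 * (1 + taup * (1 + 1 / et)) ≤ 2 * sg) :
    1 + D * (w - 1) ^ 2 - sg * o ^ 2 ≤ GV W L (1 / w) o := by
  have ht2 := tau_hi2
  have ht3 := tau_pos
  have hqw : q * w ^ 2 ≤ 1 := by
    have : q * w ^ 2 ≤ q * w1 ^ 2 := mul_le_mul_of_nonneg_left (pow_le_pow_left₀ hw0.le hwu 2) hq.le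
    linarith
  have ha1 : (w + 1) * (1 - q * w ^ 2) ≤ ah := by
    rw [hah]
    apply mul_le_mul (by linarith) _ (by linarith) (by linarith)
    have : q * w0 ^ 2 ≤ q * w ^ 2 := mul_le_mul_of_nonneg_left (pow_le_pow_left₀ hp0.le hwl 2) hq.le
    linarith
  have ha0 : 0 ≤ (w + 1) * (1 - q * w ^ 2) := mul_nonneg (by linarith) (by linarith)
  refine GV_low (Wd := |w - 1| * ((w + 1) * (1 - q * w ^ 2))) hw0 ho (by positivity) hs het ?_ ?_ h2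
  · have h6 : W (1 / w) - 1 = (w - 1) * ((w + 1) * (1 - q * w ^ 2)) := by
      rw [hW]
      ring
    rw [h6, abs_mul, abs_of_nonneg ha0]
  · obtain ⟨u, hu⟩ : ∃ u, u = |w - 1| := ⟨_, rfl⟩
    obtain ⟨aa, haa⟩ : ∃ aa, aa = (w + 1) * (1 - q * w ^ 2) := ⟨_, rfl⟩
    have hu2 : (w - 1) ^ 2 = u ^ 2 := by rw [hu, sq_abs]
    have hu0 : 0 ≤ u := hu ▸ abs_nonneg _
    rw [← hu, ← haa, hu2]
    rw [← haa] at ha1 ha0
    rw [← hu] at hU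
    have k1 : (aa + D * u) ^ 2 ≤ (ah + D * U) ^ 2 :=
      pow_le_pow_left₀ (by positivity) (add_le_add ha1 (mul_le_mul_of_nonneg_left hU hD)) 2
    have k2 : D ^ 2 * u ^ 2 ≤ D ^ 2 * U ^ 2 :=
      mul_le_mul_of_nonneg_left (pow_le_pow_left₀ hu0 hU 2) (sq_nonneg D)
    have k3 : taup * (1 + et) * (aa + D * u) ^ 2 ≤ 8077 / 100000 * (1 + et) * (ah + D * U) ^ 2 := by
      apply mul_le_mul _ k1 (sq_nonneg _) (by positivity)
      exact mul_le_mul_of_nonneg_right ht2 (by linarith)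
    have k4 : 1 / (4 * w1) ≤ 1 / (4 * w) := one_div_le_one_div_of_le (by linarith) (by linarith)
    have k5 : 2 * D + D ^ 2 * u ^ 2 + taup * (1 + et) * (aa + D * u) ^ 2 ≤ 1 / (4 * w) := by
      linarith
    have k6 := mul_le_mul_of_nonneg_left k5 (sq_nonneg u)
    have e9 : u ^ 2 / (4 * w) = u ^ 2 * (1 / (4 * w)) := by ring
    rw [e9]
    refine le_trans (le_of_eq ?_) k6
    ring

/-- The other case. -/
theorem gv_ne {W L : ℝ → ℝ} {w w1 D Wd um et sg o : ℝ} (hw0 : 0 < w) (hwu : w ≤ w1)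
    (hD : 0 ≤ D) (hs : 0 ≤ sg) (het : 0 < et) (ho : o ^ 2 ≤ 1)
    (hW : |W (1 / w) - 1| ≤ Wd) (hu : um ≤ (w - 1) ^ 2)
    (g4 : 2 * D + D ^ 2 + 8077 / 100000 * (1 + et) * (Wd + D) ^ 2 ≤ um / (4 * w1))
    (h2 : L (1 / w) ^ 2 / 2 + sg ^ 2 * (1 + taup * (1 + 1 / et)) ≤ 2 * sg) :
    1 + D - sg * o ^ 2 ≤ GV W L (1 / w) o := by
  have ht2 := tau_hi2
  have ht3 := tau_pos
  refine GV_low hw0 ho hD hs het hW ?_ h2
  have k1 : taup * (1 + et) * (Wd + D) ^ 2 ≤ 8077 / 100000 * (1 + et) * (Wd + D) ^ 2 := by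
    apply mul_le_mul_of_nonneg_right _ (sq_nonneg _)
    exact mul_le_mul_of_nonneg_right ht2 (by linarith)
  have k2 : um / (4 * w1) ≤ (w - 1) ^ 2 / (4 * w) := by
    apply div_le_div₀ (sq_nonneg _) hu (by linarith) (by linarith)
  linarith

theorem um2_le {c : RC} {w : ℝ} (h0 : (c.w0 : ℝ) ≤ w) (h1 : w ≤ c.w1) :
    ((um2 c : ℚ) : ℝ) ≤ (w - 1) ^ 2 := by
  unfold um2
  split_ifs with g1 g2
  · have g := c_le g1
    push_cast at g ⊢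
    nlinarith
  · have g := c_le g2
    push_cast at g ⊢
    nlinarith
  · push_cast
    exact sq_nonneg _

end RGSM

open RGSM

/-- **RGS**: soundness of the check. -/
theorem rc_sound {p : RP} {c : RC} (hp : rpOK p = true) (h : rcOK p c = true) {W L : ℝ → ℝ}
    {z n v γ Y R P : ℝ} (hz0 : (c.z0 : ℝ) ≤ z) (hz1 : z ≤ c.z1)
    (hW : W (1 / √z) = z * (c.o0 + (c.o1 - c.o0) * ((z - c.z0) / (c.z1 - c.z0))))
    (hL : L (1 / √z) = z * (c.l0 + (c.l1 - c.l0) * ((z - c.z0) / (c.z1 - c.z0))))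
    (hn0 : (p.A0 : ℝ) ≤ n) (hn1 : n ≤ p.B0) (hzn : z = n * v) (v1 : 1 / 2 ≤ v)
    (x1 : v + 3 * γ ^ 2 ≤ 1) (g1 : 3 * γ ^ 2 ≤ 2 * v - 1)
    (lo : (3 * π / 4 - 4 / 3 - kap - 1 / 8) - (π / 2 - 3 / 2) * (v + 3 * γ ^ 2) ≤ R)
    (hi : ∀ l ∈ bandQ, R ≤ (l.1 : ℝ) * (v + 3 * γ ^ 2) + (l.2 : ℝ)) (ho : |γ - Y| ≤ 1)
    (hPl : 3 * ((p.mu : ℝ) * p.A0) ≤ 4 * π * (z * P)) (hPu : 12 / 5 * (√z * P) ≤ (p.mu : ℝ) * p.sB) :
    0 ≤ K1 W L p.C p.l p.m z γ Y (1 / 2 * Y) P + (W (1 / √z) - z * (1 + p.q - p.q * z)) *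
      (Sf (v + 3 * γ ^ 2) + R + (p.C * γ ^ 2 + p.l * (γ * Y) + p.m * Y ^ 2)) := by
  simp only [rcOK, Bool.and_eq_true, decide_eq_true_eq] at h
  obtain ⟨⟨⟨⟨⟨⟨⟨⟨⟨⟨⟨⟨⟨a1, a2⟩, a3⟩, a4⟩, a5⟩, a6⟩, a7⟩, a8⟩, a9⟩, a10⟩, a11⟩, a12⟩, a13⟩, a14⟩ := h
  simp only [rpOK, Bool.and_eq_true, decide_eq_true_eq] at hp
  obtain ⟨⟨⟨⟨⟨b1, b2⟩, b3⟩, b4⟩, b5⟩, b6⟩ := hp
  have a1' := c_lt a1
  have a2' := c_lt a2
  have a3' := c_lt a3
  have a4' := c_le a4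
  have a5' := c_lt a5
  have a6' := c_le a6
  have a7' := c_le a7
  have a8' := c_le a8
  have a9' := c_lt a9
  have a10' := c_le a10
  have a11' := c_le a11
  have b1' := c_lt b1
  have b2' := c_le b2
  have b3' := c_lt b3
  have b5' := c_lt b5
  push_cast at a1' a2' a3' a4' a5' a6' a7' a8' a9' a10' a11' b1' b2' b3' b5'
  have hz : 0 < z := lt_of_lt_of_le a2' hz0
  obtain ⟨t, ht⟩ : ∃ t, t = (z - (c.z0 : ℝ)) / (c.z1 - c.z0) := ⟨_, rfl⟩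
  have hd : 0 < (c.z1 : ℝ) - c.z0 := by linarith
  have ht0 : 0 ≤ t := by
    rw [ht]
    exact div_nonneg (by linarith) hd.le
  have ht1 : t ≤ 1 := by
    rw [ht, div_le_one hd]
    linarith
  have hzt : z = c.z0 + (c.z1 - c.z0) * t := by
    rw [ht]
    field_simp
    ring
  rw [← ht] at hW hL
  obtain ⟨w, hw⟩ : ∃ w, w = √z := ⟨_, rfl⟩
  have hw0 : 0 < w := hw ▸ Real.sqrt_pos.2 hz
  have hww : w ^ 2 = z := by rw [hw, Real.sq_sqrt hz.le]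
  have hwl : (c.w0 : ℝ) ≤ w := by
    rw [hw]
    exact Real.le_sqrt_of_sq_le (a4'.trans hz0)
  have hwu : w ≤ c.w1 := by
    rw [hw]
    exact Real.sqrt_le_iff.2 ⟨a5'.le, hz1.trans a6'⟩
  have ho2 : (γ - Y) ^ 2 ≤ 1 := by
    have h5 := abs_le.1 ho
    nlinarith [h5.1, h5.2]
  -- form
  obtain ⟨ψ, hψ⟩ : ∃ ψ, ψ = z * (1 + (p.q : ℝ) - p.q * z) := ⟨_, rfl⟩
  obtain ⟨gl0, ol0, h0, c1, c2, c3, c4, c5, c6⟩ := fr_sound a13 ht0 ht1 hzt hψ hL a8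
  obtain ⟨gl1, ol1, h1, d1, d2, d3, d4, d5, d6⟩ := fr_sound a14 ht0 ht1 hzt hψ hL a8
  -- P
  have hπ : 0 < π := Real.pi_pos
  have hPz : 0 ≤ z * P := by
    have h3 : 0 ≤ 3 * ((p.mu : ℝ) * p.A0) := by positivity
    exact nonneg_of_mul_nonneg_right (h3.trans hPl) (by linarith)
  have hP : 0 ≤ P := nonneg_of_mul_nonneg_right hPz hz
  have hP0 : ((p0Q p c : ℚ) : ℝ) ≤ P := by
    unfold p0Q
    push_cast
    rw [div_le_iff₀ (by linarith)]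
    have h5 : π ≤ 31416 / 10000 := by
      have := Real.pi_lt_d4
      linarith
    have h6 : π * (z * P) ≤ 31416 / 10000 * (c.z1 * P) :=
      mul_le_mul h5 (mul_le_mul_of_nonneg_right hz1 hP) hPz (by norm_num)
    linarith
  have hP1 : P ≤ ((p1Q p c : ℚ) : ℝ) := by
    unfold p1Q
    push_cast
    rw [le_div_iff₀ (by linarith)]
    have h4 : (c.w0 : ℝ) * P ≤ √z * P := mul_le_mul_of_nonneg_right (hw ▸ hwl) hP
    linarith
  -- e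
  have hx0 : 0 ≤ v + 3 * γ ^ 2 := by positivity
  have hB0 : 0 < (p.B0 : ℝ) := lt_of_lt_of_le b3' (c_le b4)
  have hvA : v ≤ c.z1 / p.A0 := by
    rw [le_div_iff₀ b3']
    have : v * p.A0 ≤ v * n := mul_le_mul_of_nonneg_left hn0 (by linarith)
    linarith
  have hvB : (c.z0 : ℝ) / p.B0 ≤ v := by
    rw [div_le_iff₀ hB0]
    have : n * v ≤ p.B0 * v := mul_le_mul_of_nonneg_right hn1 (by linarith)
    linarith
  have hv0 : ((max (1 / 2) (c.z0 / p.B0) : ℚ) : ℝ) ≤ v + 3 * γ ^ 2 := by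
    rw [Rat.cast_max]
    push_cast
    exact max_le (by linarith [sq_nonneg γ]) (by linarith [sq_nonneg γ])
  have hSR := su_le (max (1 / 2) (c.z0 / p.B0)) hv0 hx0 hi
  have hSR2 := sr_lo x1 lo
  have hWb := q_bd c.z0 c.z1 (c.o0 - psq p c.z0) (c.o1 - psq p c.z1) ht0 ht1 hzt
  have hWe : z * (((c.o0 - psq p c.z0 : ℚ) : ℝ) + (((c.o1 - psq p c.z1 : ℚ) : ℝ) - ((c.o0 - psq p c.z0 : ℚ) : ℝ)) * t) =
      W (1 / √z) - ψ := by
    rw [hW, hψ]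
    unfold psq
    push_cast
    rw [hzt]
    ring
  rw [hWe] at hWb
  have he : ((eQ p c : ℚ) : ℝ) ≤ (W (1 / √z) - ψ) * (Sf (v + 3 * γ ^ 2) + R) := by
    have h5 := e_bd hWb.1 hWb.2 hSR hSR2
    unfold eQ
    push_cast
    exact h5
  -- γ²
  have hγ : γ ^ 2 ≤ ((g2Q p c : ℚ) : ℝ) := by
    unfold g2Q mn3
    push_cast
    exact le_min (by linarith) (le_min (le_max_of_le_right (by linarith)) (le_max_of_le_right (by linarith)))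
  -- the root
  simp only [gvQ, Bool.and_eq_true, decide_eq_true_eq] at a12
  obtain ⟨e1, e2⟩ := a12
  have hLb := q_bd c.z0 c.z1 c.l0 c.l1 ht0 ht1 hzt
  rw [← hL] at hLb
  have h2 : L (1 / w) ^ 2 / 2 + (c.sg : ℝ) ^ 2 * (1 + taup * (1 + 1 / (c.et : ℝ))) ≤ 2 * c.sg := by
    have hLm : L (1 / √z) ^ 2 ≤
        ((max (-(qlo c.z0 c.z1 c.l0 c.l1)) (qhi c.z0 c.z1 c.l0 c.l1) : ℚ) : ℝ) ^ 2 := by
      rw [Rat.cast_max]
      push_cast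
      apply sq_le_sq'
      · have := le_max_left (-((qlo c.z0 c.z1 c.l0 c.l1 : ℚ) : ℝ)) ((qhi c.z0 c.z1 c.l0 c.l1 : ℚ) : ℝ)
        linarith
      · exact hLb.2.trans (le_max_right _ _)
    have e1' := c_le e1
    rw [hw]
    push_cast at e1' hLm
    have h6 : taup * (1 + 1 / (c.et : ℝ)) ≤ 8077 / 100000 * (1 + 1 / (c.et : ℝ)) :=
      mul_le_mul_of_nonneg_right tau_hi2 (by positivity)
    have h5 : (c.sg : ℝ) ^ 2 * (1 + taup * (1 + 1 / (c.et : ℝ))) ≤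
        (c.sg : ℝ) ^ 2 * (1 + 8077 / 100000 * (1 + 1 / (c.et : ℝ))) :=
      mul_le_mul_of_nonneg_left (by linarith) (sq_nonneg _)
    linarith
  have hWb2 := q_bd c.z0 c.z1 c.o0 c.o1 ht0 ht1 hzt
  rw [← hW] at hWb2
  rw [← hψ]
  have hk := kap_lo
  by_cases hex : c.ex = true
  · rw [if_pos hex] at e2
    simp only [Bool.and_eq_true, decide_eq_true_eq] at e2
    obtain ⟨⟨⟨⟨g1', g2'⟩, g3'⟩, g4'⟩, g5'⟩ := e2
    have hWψ : W (1 / √z) = ψ := by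
      have h5 : W (1 / √z) - ψ = 0 := by
        rw [← hWe, g1', g2']
        push_cast
        ring
      linarith
    have g4 := c_le g4'
    have g5 := c_le g5'
    have g3 := c_le g3'
    push_cast at g3 g4 g5
    have hU0 : |w - 1| ≤ max (1 - (c.w0 : ℝ)) ((c.w1 : ℝ) - 1) := by
      rw [abs_le]
      constructor
      · have := le_max_left (1 - (c.w0 : ℝ)) ((c.w1 : ℝ) - 1)
        linarith
      · have := le_max_right (1 - (c.w0 : ℝ)) ((c.w1 : ℝ) - 1)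
        linarith
    have hW6 : W (1 / w) = w ^ 2 * (1 + (p.q : ℝ) - p.q * w ^ 2) := by
      have h5 : W (1 / w) = ψ := by
        rw [hw]
        exact hWψ
      rw [h5, hψ, hww]
    have hG := gv_ex (o := γ - Y) hw0 hwl hwu a1' b1' a7' a8' a9' ho2 hW6 hU0 rfl g3 g4 h2
    have hDn : 0 ≤ kap * ((c.D : ℝ) * (w - 1) ^ 2) := mul_nonneg (by linarith) (mul_nonneg a7' (sq_nonneg _))
    rw [hw] at hG
    exact K1_cell (σ := c.sg) (a := c.a) (b := c.b) (e := eQ p c) (G2 := g2Q p c) rfl hG hP0 hP1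
      c1 c2 d1 d2 c3 d3 c4 c5 c6 d4 d5 d6 he (by rw [← hw]; linarith) a10' a11' hγ ho2
  · rw [if_neg hex] at e2
    simp only [Bool.and_eq_true, decide_eq_true_eq] at e2
    obtain ⟨g4', g5'⟩ := e2
    have g4 := c_le g4'
    have g5 := c_le g5'
    push_cast at g4 g5
    have um := um2_le (c := c) hwl hwu
    have hWd : |W (1 / w) - 1| ≤ max (1 - ((qlo c.z0 c.z1 c.o0 c.o1 : ℚ) : ℝ))
        (((qhi c.z0 c.z1 c.o0 c.o1 : ℚ) : ℝ) - 1) := by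
      rw [hw, abs_le]
      constructor
      · have := le_max_left (1 - ((qlo c.z0 c.z1 c.o0 c.o1 : ℚ) : ℝ)) (((qhi c.z0 c.z1 c.o0 c.o1 : ℚ) : ℝ) - 1)
        linarith [hWb2.1]
      · have := le_max_right (1 - ((qlo c.z0 c.z1 c.o0 c.o1 : ℚ) : ℝ)) (((qhi c.z0 c.z1 c.o0 c.o1 : ℚ) : ℝ) - 1)
        linarith [hWb2.2]
    have hG := gv_ne (o := γ - Y) hw0 hwu a7' a8' a9' ho2 hWd um g4 h2
    have hkD : 8488 / 10000 * (c.D : ℝ) ≤ kap * c.D := mul_le_mul_of_nonneg_right hk a7'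
    rw [hw] at hG
    exact K1_cell (σ := c.sg) (a := c.a) (b := c.b) (e := eQ p c) (G2 := g2Q p c) rfl hG hP0 hP1
      c1 c2 d1 d2 c3 d3 c4 c5 c6 d4 d5 d6 he (by linarith) a10' a11' hγ ho2

end Pool.Agent.Lib.MP_084b88_gt.AY
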