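import Pool.Agent.Lib.MP_084b88_gt.AY.AllLG
import Pool.Agent.Lib.MP_084b88_gt.AY.SYU

/-!
# MP_084b88_gt: Q1 for all centrally symmetric bodies, from the certificate CERT
-/

set_option autoImplicit false

namespace Pool.Agent.Lib.MP_084b88_gt.AY

open Pool.Agent.Lib.MP_084b88_gt.CW

/-- Q1 for every centrally symmetric convex body, from the certificate. -/
theorem symOf (hCERT : LG.SpecCERT (7 / 100)) (K : Set E3) (hK : CC K)
    (hi : (interior K).Nonempty) (hs : ∃ o : E3, ∀ x ∈ K, (2 : ℝ) • o - x ∈ K) :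
    ∀ c : ℝ, Q1 K c :=
  union7 allHAA allMEA allLEN allCAU allTHF K hK hi (fun V1 V2 hst hw c hc =>
    LG.allSYT (7 / 100) (by norm_num) hCERT K hK hi hs V1 V2 hst hw c hc)

end Pool.Agent.Lib.MP_084b88_gt.AY
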