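import Pool.Agent.Lib.MP_084b88_gt.AY.Defs
import Pool.Agent.Lib.MP_084b88_gt.SY.Spec

/-!
# MP_084b88_gt, project AY: the two point calculus for arbitrary (asymmetric) planar bodies

For a smooth planar body `P` with half width `h` and odd part `g` (structure `Sg`), `s = t + α`, and for every
continuous `G`, `G = G2''`:
`∫_P G((<x,u_t> - g(t))/h(t)) dx = h(t)² ∫_0^π (G2(1) + G2(-1) - G2(ea + a) - G2(ea - a))/sin² α dα` (IGA).
So every functional `∫ w(t) ∫_P G dx dt` is a double integral of a function of `a`, `ea` and one-point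
quantities, divided by `sin² α`. To it one may add NULL FORMS (NGZ) and one may exchange `s` and `t` (`SY.SpecSWP`):
`(a,b,ea,eb,Gt,Gs) → (-b,-a,eb,-ea,Gs,-Gt)`.

Rules: file `AY/XXX.lean`, `import Pool.Agent.Lib.MP_084b88_gt.AY.Spec`, namespace
`Pool.Agent.Lib.MP_084b88_gt.AY`, `theorem specXXX (hYYY : SpecYYY) .. : SpecXXX` (any Spec of this file, of `SY/Spec`
or of `CW/SpecA, SpecB, SpecC` may be a hypothesis), own lemmas in the namespace `..AY.XXXM`.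
-/

set_option autoImplicit false

open MeasureTheory Set Real Filter Topology
open scoped Pointwise InnerProductSpace

namespace Pool.Agent.Lib.MP_084b88_gt.AY

open Pool.Agent.Lib.MP_084b88_gt.CW Pool.Agent.Lib.MP_084b88_gt.SY

/-- **EBR** (250 lines, from ABR). Facts on `ea`, `eb`, `gm`, `dl`, `ln`. Write `s = t + α`,
`κ = h(t)/(h(s) sin α)`.
(1) continuity. (2) `ea(t,0) = ea(t,π) = 0` (`g(t+π) = -g(t)`), (3) swap:
`ea(t+α,π-α) = eb(t,α)`, `eb(t+α,π-α) = -ea(t,α)`, shift by `π`: `ea, eb` change sign, `gm` too.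
(4) `∂ea/∂α = -(g+g2)(s) sin α/h(t)` (for all `α`).
(5) `|a| + |ea| ≤ 1` on `[0,π]`: `a ± ea` has derivative `-((h+h2) ± (g+g2))(s) sin α/h(t) ≤ 0` and goes from `1` to
`-1`; so `-1 ≤ a ± ea ≤ 1`. By the swap (and ABR (4)) `|b| + |eb| ≤ 1`. Hence
`|ea| ≤ 1 - |a| ≤ 1 - a² ≤ L sin² α`, same for `eb` (ABR (6)).
(6) for `0 < α < π`: `∂eb/∂α = (ea + a eb) κ`. (With `N = g(t) cos α + g1(t) sin α - g(s)`, `eb = N/h(s)`:
`sin α N' = N cos α + ea h(t)` and `h1(s) sin α = h(s) cos α - a h(t)`.)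
(7) `∂Gs/∂α = -(ea + Gt - a Gs) κ`. (8) `∂δ/∂α = -(ea - a δ) κ` (from (7) and ABR (7)).
(9) `|δ| ≤ L sin α` on `[0,π]`: `δ h(s) h(t) = g(s) h(t) - (h(t) cos α + h1(t) sin α) g(t)`; near `0` the
mean value theorem; cleanly: `D(α) = g(s) h(t) - h(t) g(t) cos α` is `C¹` with `D(0) = 0`, `D(π) = 0`, so
`|D(α)| ≤ K min(α, π-α) ≤ K (π/2) sin α` (Jordan: `Real.mul_le_sin` or `two_div_pi_mul_le_sin`), uniformly in `t` since `g, g1, h` are
bounded. (10) limits of `δ/sin α`: at `α → 0+` and at `α → π-` the limit is `γ'(t) = (g1 h - g h1)(t)/h(t)²` in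
both cases, in the form `h(s) δ/(h(t) sin α) → γ'(t)`.
(11) the linear function `ln x y`: `(ln x y)(s) = ..` satisfies (7) with `ea` replaced by `0`:
`∂(ln(s)/h(s))/∂α = -(ln(t)/h(t) - a ln(s)/h(s)) κ`, since
`ln(s) cos α - ln'(s) sin α = ln(t)`. -/
def SpecEBR : Prop :=
  ∀ (h h1 h2 g g1 g2 : ℝ → ℝ), Sg h h1 h2 g g1 g2 →
    Continuous (fun x : ℝ × ℝ => ea h g g1 x.1 x.2) ∧
    Continuous (fun x : ℝ × ℝ => eb h g g1 x.1 x.2) ∧
    Continuous (gm h g) ∧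
    (∀ t, ea h g g1 t 0 = 0 ∧ ea h g g1 t π = 0) ∧
    (∀ t α, ea h g g1 (t + α) (π - α) = eb h g g1 t α ∧ eb h g g1 (t + α) (π - α) = - ea h g g1 t α) ∧
    (∀ t α, ea h g g1 (t + π) α = - ea h g g1 t α ∧ eb h g g1 (t + π) α = - eb h g g1 t α) ∧
    (∀ t, gm h g (t + π) = - gm h g t) ∧
    (∀ t α, HasDerivAt (fun y => ea h g g1 t y) (-((g (t + α) + g2 (t + α)) * sin α) / h t) α) ∧
    (∀ t, ∀ α ∈ Icc (0 : ℝ) π, |aa h h1 t α| + |ea h g g1 t α| ≤ 1 ∧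
      |bb h h1 t α| + |eb h g g1 t α| ≤ 1) ∧
    (∃ L : ℝ, 0 ≤ L ∧ ∀ t, ∀ α ∈ Icc (0 : ℝ) π, |ea h g g1 t α| ≤ L * sin α ^ 2 ∧
      |eb h g g1 t α| ≤ L * sin α ^ 2 ∧ |dl h h1 g t α| ≤ L * sin α ∧ |gm h g t| ≤ L) ∧
    (∀ t, ∀ α ∈ Ioo (0 : ℝ) π, HasDerivAt (fun y => eb h g g1 t y)
      ((ea h g g1 t α + aa h h1 t α * eb h g g1 t α) * h t / (h (t + α) * sin α)) α) ∧
    (∀ t, ∀ α ∈ Ioo (0 : ℝ) π, HasDerivAt (fun y => gm h g (t + y))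
      (-((ea h g g1 t α + gm h g t - aa h h1 t α * gm h g (t + α)) * h t) / (h (t + α) * sin α)) α) ∧
    (∀ t, ∀ α ∈ Ioo (0 : ℝ) π, HasDerivAt (fun y => dl h h1 g t y)
      (-((ea h g g1 t α - aa h h1 t α * dl h h1 g t α) * h t) / (h (t + α) * sin α)) α) ∧
    (∀ t, Tendsto (fun α => h (t + α) * dl h h1 g t α / (h t * sin α)) (𝓝[>] 0)
        (𝓝 ((g1 t * h t - g t * h1 t) / h t ^ 2)) ∧
      Tendsto (fun α => h (t + α) * dl h h1 g t α / (h t * sin α)) (𝓝[<] π)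
        (𝓝 ((g1 t * h t - g t * h1 t) / h t ^ 2))) ∧
    (∀ x y t, ∀ α ∈ Ioo (0 : ℝ) π, HasDerivAt (fun z => ln x y (t + z) / h (t + z))
      (-((ln x y t / h t - aa h h1 t α * (ln x y (t + α) / h (t + α))) * h t) /
        (h (t + α) * sin α)) α)

/-- **NGZ** (150 lines, from ABR). General null forms. Let `Φ(t,α)` be a function with
`∂Φ/∂α = -Ψ h(t)/(h(s) sin α)` on `(0,π)`, `N = aΦ + Ψ` continuous in `α` with `|N| ≤ K sin² α`, and suppose that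
`h(s) Φ/(h(t) sin α)` has the same limit at `0+` and at `π-`. Then `∫_0^π N/sin² α dα = 0`.
PROOF. `F(α) = h(s) Φ/(h(t) sin α)` has `F' = Φ ∂(h(s)/(h(t) sin α)) + (h(s)/(h(t) sin α)) ∂Φ =
-(aΦ + Ψ)/sin² α` (ABR (8)); `N/sin²` is bounded and continuous on `(0,π)`, so it is integrable; the
fundamental theorem on the open interval with limits at the end points is
`intervalIntegral.integral_eq_of_hasDerivAt_of_tendsto` (value: difference of the two limits). -/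
def SpecNGZ : Prop :=
  ∀ (h h1 h2 : ℝ → ℝ), Sm h h1 h2 → ∀ (t K l : ℝ) (Φ Ψ : ℝ → ℝ),
    ContinuousOn (fun α => aa h h1 t α * Φ α + Ψ α) (Ioo 0 π) →
    (∀ α ∈ Ioo (0 : ℝ) π, |aa h h1 t α * Φ α + Ψ α| ≤ K * sin α ^ 2) →
    (∀ α ∈ Ioo (0 : ℝ) π, HasDerivAt Φ (-(Ψ α * h t) / (h (t + α) * sin α)) α) →
    Tendsto (fun α => h (t + α) * Φ α / (h t * sin α)) (𝓝[>] 0) (𝓝 l) →
    Tendsto (fun α => h (t + α) * Φ α / (h t * sin α)) (𝓝[<] π) (𝓝 l) →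
    IntervalIntegrable (fun α => (aa h h1 t α * Φ α + Ψ α) / sin α ^ 2) volume 0 π ∧
    ∫ α in (0 : ℝ)..π, (aa h h1 t α * Φ α + Ψ α) / sin α ^ 2 = 0

/-- **NG0** (40 lines, from NGZ). The case `|Φ| ≤ K sin² α` (then `l = 0`). -/
def SpecNG0 : Prop :=
  ∀ (h h1 h2 : ℝ → ℝ), Sm h h1 h2 → ∀ (t K : ℝ) (Φ Ψ : ℝ → ℝ),
    ContinuousOn (fun α => aa h h1 t α * Φ α + Ψ α) (Ioo 0 π) →
    (∀ α ∈ Ioo (0 : ℝ) π, |aa h h1 t α * Φ α + Ψ α| ≤ K * sin α ^ 2) →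
    (∀ α ∈ Ioo (0 : ℝ) π, |Φ α| ≤ K * sin α ^ 2) →
    (∀ α ∈ Ioo (0 : ℝ) π, HasDerivAt Φ (-(Ψ α * h t) / (h (t + α) * sin α)) α) →
    IntervalIntegrable (fun α => (aa h h1 t α * Φ α + Ψ α) / sin α ^ 2) volume 0 π ∧
    ∫ α in (0 : ℝ)..π, (aa h h1 t α * Φ α + Ψ α) / sin α ^ 2 = 0

/-- The six basic null forms with the factor `R` (`R` = 1, `p`, `c`, `q` or a product with `Y`s) are obtained from NGZ
with `Φ = f(b) R X`. **NF6** (250 lines, from ABR, EBR, NGZ). The case `R = ρ(t)` (constant in `α`). `f` is `C¹`, `f' = f1`: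
`X = eb²`: `N = f1(b)(1-ab) eb² - 2 f(b) ea eb - a f(b) eb²`;
`X = eb δ`: `N = f1(b)(1-ab) eb δ - f(b) ea δ + f(b) ea eb - a f(b) eb δ`;
`X = eb Gt`: `N = f1(b)(1-ab) eb Gt - f(b) ea Gt`;
`X = δ²`: `N = f1(b)(1-ab) δ² + 2 f(b) ea δ - a f(b) δ²`;
`X = δ Gt`, `f` even: `N = f1(b)(1-ab) δ Gt + f(b) ea Gt` (the two limits agree because `f(1) = f(-1)`; EBR (10));
`X = Gt²`, `|f(x)| ≤ K (1-x²)` on `[-1,1]`: `N = f1(b)(1-ab) Gt² + a f(b) Gt²`.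
Each is a direct application of NGZ: `|N| ≤ K sin²` since `1 - ab`, `ea`, `eb`, `δ²` are `O(sin²)` and everything else
is bounded. -/
def SpecNF6 : Prop :=
  ∀ (h h1 h2 g g1 g2 : ℝ → ℝ), Sg h h1 h2 g g1 g2 → ∀ (f f1 : ℝ → ℝ), Continuous f1 →
    (∀ x, HasDerivAt f (f1 x) x) → ∀ t : ℝ,
    (∫ α in (0 : ℝ)..π, (f1 (bb h h1 t α) * (1 - aa h h1 t α * bb h h1 t α) * eb h g g1 t α ^ 2 -
      2 * f (bb h h1 t α) * ea h g g1 t α * eb h g g1 t α -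
      aa h h1 t α * f (bb h h1 t α) * eb h g g1 t α ^ 2) / sin α ^ 2 = 0) ∧
    (∫ α in (0 : ℝ)..π, (f1 (bb h h1 t α) * (1 - aa h h1 t α * bb h h1 t α) * eb h g g1 t α *
      dl h h1 g t α - f (bb h h1 t α) * ea h g g1 t α * dl h h1 g t α +
      f (bb h h1 t α) * ea h g g1 t α * eb h g g1 t α -
      aa h h1 t α * f (bb h h1 t α) * eb h g g1 t α * dl h h1 g t α) / sin α ^ 2 = 0) ∧
    (∫ α in (0 : ℝ)..π, (f1 (bb h h1 t α) * (1 - aa h h1 t α * bb h h1 t α) * eb h g g1 t α *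
      gm h g t - f (bb h h1 t α) * ea h g g1 t α * gm h g t) / sin α ^ 2 = 0) ∧
    (∫ α in (0 : ℝ)..π, (f1 (bb h h1 t α) * (1 - aa h h1 t α * bb h h1 t α) * dl h h1 g t α ^ 2 +
      2 * f (bb h h1 t α) * ea h g g1 t α * dl h h1 g t α -
      aa h h1 t α * f (bb h h1 t α) * dl h h1 g t α ^ 2) / sin α ^ 2 = 0) ∧
    (f 1 = f (-1) → ∫ α in (0 : ℝ)..π, (f1 (bb h h1 t α) * (1 - aa h h1 t α * bb h h1 t α) *
      dl h h1 g t α * gm h g t + f (bb h h1 t α) * ea h g g1 t α * gm h g t) / sin α ^ 2 = 0) ∧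
    ((∃ K, ∀ x, |x| ≤ 1 → |f x| ≤ K * (1 - x ^ 2)) →
      ∫ α in (0 : ℝ)..π, (f1 (bb h h1 t α) * (1 - aa h h1 t α * bb h h1 t α) * gm h g t ^ 2 +
      aa h h1 t α * f (bb h h1 t α) * gm h g t ^ 2) / sin α ^ 2 = 0)

/-- **IGA** (250 lines, from `CW` HPB, WMB, GAG, GAL; copy of `SY/IGE`). The formula for `IG` in the smooth case, any `G`.
`h = Bh (hp M c) = hp M (evc c)`, `h1 = hp M (dk (evc c))`, `g = gh (hp M c) = hp M (odc c)`, ... With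
`CW/GS2` `IG_formula`: `IG G = B² [∫ (G1(cos α) - G1(-cos α)) cos α] - B² [∫ (G2(p(t,α)) - G2(cos α))/sin² +
∫ (G2(-p(t+π,α)) - G2(-cos α))/sin²]`, `p(t,α) = cos α + sin² α Ψ/B = a + ea`,
`-p(t+π,α) = -(a - ea) = ea - a` (WMB: `B p = h_P(t+α) cos α - h_P'(t+α) sin α - g(t)`; replacing `t` by `t+π` changes
`g`, `g1` to `-g`, `-g1`). The even part `E(x) = G2(x) + G2(-x)` satisfies
`∫_0^π E'(cos α) cos α dα = ∫_0^π (E(1) - E(cos α))/sin² α dα` (`IGEM.parts` with `E' = G1(x) - G1(-x)`), and the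
sum of the integrals is the claim. Integrability: `|E(1) - G2(ea+a) - G2(ea-a)| ≤ C(1 - |a| ...)`: it is
`≤ C (|1 - |a|| + |ea|) ≤ C' sin²`. `Sg`: GAG, RP (`h + h2 ± (g+g2)` are the radii of curvature at `t`, `t+π`, which are positive). -/
def SpecIGA : Prop :=
  ∀ (M : ℕ) (c : ℕ → ℂ), RP M c →
    Sg (hp M (evc c)) (hp M (dk (evc c))) (hp M (dk (dk (evc c))))
      (hp M (odc c)) (hp M (dk (odc c))) (hp M (dk (dk (odc c)))) ∧
    ∀ (G G1 G2 : ℝ → ℝ), Continuous G → (∀ x, HasDerivAt G1 (G x) x) →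
      (∀ x, HasDerivAt G2 (G1 x) x) → ∀ t,
      IG G (hp M c) t = hp M (evc c) t ^ 2 *
        ∫ α in (0 : ℝ)..π, (G2 1 + G2 (-1) -
          G2 (ea (hp M (evc c)) (hp M (odc c)) (hp M (dk (odc c))) t α +
            aa (hp M (evc c)) (hp M (dk (evc c))) t α) -
          G2 (ea (hp M (evc c)) (hp M (odc c)) (hp M (dk (odc c))) t α -
            aa (hp M (evc c)) (hp M (dk (evc c))) t α)) / sin α ^ 2

/-- **ACV** (300 lines, from `CW` GAP, GCV, GAG, HPB; the limit argument of `CW/GLM`, `SY/CQL`). Approximation: for every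
Lipschitz support function `h` with positive half width there are trigonometric polynomials `h_n` with
positive radii of curvature, `h_n → h` uniformly, all bounds of GAP, and for ALL continuous `F(t,B,g)` and `G`
the integrals `∫ F(t,B_n,g_n) IG G h_n t dt` converge.
PROOF. `Bh h` has a minimum `m > 0` and maximum `M'`; GAP with `b = (m+M')/2`, `δ = (M'-m)/(M'+m) < 1`,
`σ = sup |gh h|/b`, `ε = 1/(n+1)`: `choose`. GCV (with a common Lipschitz bound `Λ' ≥ Λ`, `|h_n| ≤ Λ'`, `β = (1-δ) b`):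
`UB (h_n) t τ → UB h t τ`; GAG: `|UB h_n| ≤ C`; dominated convergence on `(-1,1)` gives `IG G h_n t → IG G h t` and
`|IG G h_n t| ≤ C'`; `F(t, Bh h_n t, gh h_n t) → F(t, Bh h t, gh h t)` (continuity) and bounded (compactness); dominated convergence in `t`.
Measurability of `t ↦ IG G h t`: limit of the continuous functions `IG G h_n` (IGA or GCV). -/
def SpecACV : Prop :=
  ∀ (h : ℝ → ℝ) (Λ : ℝ), 0 ≤ Λ → (∀ θ θ', |h θ - h θ'| ≤ Λ * |θ - θ'|) →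
    (∀ θ, h (θ + 2 * π) = h θ) → (∀ θ, 0 < Bh h θ) →
    (∀ φ α, 2 * cos α * h φ ≤ h (φ + α) + h (φ - α)) →
    ∃ (M : ℕ → ℕ) (c : ℕ → ℕ → ℂ), (∀ n, RP (M n) (c n)) ∧
      (∀ n θ, |hp (M n) (c n) θ - h θ| ≤ 1 / ((n : ℝ) + 1)) ∧
      (∀ n θ, |hp (M n) (dk (c n)) θ| ≤ Λ) ∧
      (∀ n θ, (⨅ s : ℝ, Bh h s) ≤ Bh (hp (M n) (c n)) θ) ∧
      (∀ n θ, Bh (hp (M n) (c n)) θ ≤ ⨆ s : ℝ, Bh h s) ∧
      (∀ n θ, |gh (hp (M n) (c n)) θ| ≤ ⨆ s : ℝ, |gh h s|) ∧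
      ∀ (F : ℝ → ℝ → ℝ → ℝ) (G : ℝ → ℝ),
        ContinuousOn (fun x : ℝ × ℝ × ℝ => F x.1 x.2.1 x.2.2) {x | 0 < x.2.1} → Continuous G →
        IntervalIntegrable (fun t => F t (Bh h t) (gh h t) * IG G h t) volume 0 (2 * π) ∧
        Tendsto (fun n => ∫ t in (0 : ℝ)..(2 * π), F t (Bh (hp (M n) (c n)) t)
          (gh (hp (M n) (c n)) t) * IG G (hp (M n) (c n)) t) atTop
          (𝓝 (∫ t in (0 : ℝ)..(2 * π), F t (Bh h t) (gh h t) * IG G h t)) ∧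
        Tendsto (fun n => ∫ t in (0 : ℝ)..(2 * π), F t (Bh (hp (M n) (c n)) t)
          (gh (hp (M n) (c n)) t)) atTop (𝓝 (∫ t in (0 : ℝ)..(2 * π), F t (Bh h t) (gh h t)))

end Pool.Agent.Lib.MP_084b88_gt.AY
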