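import Pool.Agent.Lib.MP_084b88_gt.AY.Spec
import Pool.Agent.Lib.MP_084b88_gt.LG.Spec

/-!
# MP_084b88_gt, project AY, part P: one direction of an arbitrary (asymmetric) planar body

`τ = (<p,u_s> - mid)/(wid/2) ∈ [-1,1]` the position relative to the MIDDLE of the strip; `x = xm P s = 3 avg τ²`,
`v = xf P s = 1/(wid/2)²`, `γ = gc P s = mid/(wid/2)`. In centroid-Legendre position (`IsoC`: centroid `0`, covariance `I/3`)
`x = v + 3γ²` and `3γ² ≤ 2v - 1`; the band for `∫ √(1-τ²)` in terms of `x` is the same as for symmetric bodies, because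
only the even part of the profile (length of the chord over `τ`) enters.

Rules: file `AY/XXX.lean`, `import Pool.Agent.Lib.MP_084b88_gt.AY.SpecP`, namespace
`Pool.Agent.Lib.MP_084b88_gt.AY`, `theorem specXXX (hYYY : SpecYYY) .. : SpecXXX`, own lemmas in the namespace
`..AY.XXXM`. All Specs of CW, SY, LG (except CERT), PC are proved (`allXXX`).
-/

set_option autoImplicit false

open MeasureTheory Set Real Filter Topology
open scoped Pointwise InnerProductSpace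

namespace Pool.Agent.Lib.MP_084b88_gt.AY

open Pool.Agent.Lib.MP_084b88_gt.CW Pool.Agent.Lib.MP_084b88_gt.SY Pool.Agent.Lib.MP_084b88_gt.LG

/-- `x(s) = 3 avg τ²`, `τ` relative to the middle of the strip. -/
noncomputable def xm (P : Set (ℝ × ℝ)) (s : ℝ) : ℝ :=
  3 * (∫ p in P, ((dotu s p - mid P s) / (wid P s / 2)) ^ 2) / area P

/-- `γ(s) = mid/(wid/2)`. -/
noncomputable def gc (P : Set (ℝ × ℝ)) (s : ℝ) : ℝ := mid P s / (wid P s / 2)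

/-- `R(s) = qf/area - κ - S(x(s))`. -/
noncomputable def Rm (P : Set (ℝ × ℝ)) (s : ℝ) : ℝ := qf P s / area P - kap - Sf (xm P s)

/-- Planar body in centroid-Legendre position. -/
structure IsoC (P : Set (ℝ × ℝ)) : Prop where
  cc : CC P
  wpos : ∀ θ, 0 < wid P θ
  apos : 0 < area P
  c1 : ∫ p in P, p.1 = 0
  c2 : ∫ p in P, p.2 = 0
  m11 : ∫ p in P, p.1 ^ 2 = area P / 3
  m22 : ∫ p in P, p.2 ^ 2 = area P / 3
  m12 : ∫ p in P, p.1 * p.2 = 0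

/-- **PRF** (100 lines, from `CW` GDU, GCV, SLC; copy of parts of `CW/GDU.lean`, or of `PC/BOD.lean`). The profile. GDU:
`∫_P G(τ) = (wid/2) ∫_{(-1,1)} (UB h t τ + UB h (t+π) (-τ)) G τ`, `h = sup2 P`. `c(τ) = UB h t τ + UB h (t+π) (-τ)`: `UB h t`
is an infimum of affine functions of `τ` (bounded below: GCV), so it is concave; `c ≥ 0` because `c τ` is the length of the
slice `[-UB (t+π) (-τ), UB t τ]` (`CW/GDU.lean`, `CW/SLC.lean`); bounded because `P` is bounded. -/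
def SpecPRF : Prop :=
  ∀ P : Set (ℝ × ℝ), CC P → (∀ θ, 0 < wid P θ) → ∀ t : ℝ, ∃ (c : ℝ → ℝ) (C : ℝ),
    ConcaveOn ℝ (Ioo (-1) 1) c ∧ (∀ τ ∈ Ioo (-1 : ℝ) 1, 0 ≤ c τ ∧ c τ ≤ C) ∧
    ∀ G : ℝ → ℝ, Continuous G → IntervalIntegrable (fun τ => G τ * c τ) volume (-1) 1 ∧
      ∫ p in P, G ((dotu t p - mid P t) / (wid P t / 2)) =
        wid P t / 2 * ∫ τ in (-1 : ℝ)..1, G τ * c τ

/-- **RNG** (150 lines). Concave `c ≥ 0` on `(-1,1)`: `9 (∫ τ c)² ≤ (∫ (6τ²-1) c) (∫ c)`.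
PROOF. Let `I = ∫ c` (if `I = 0` all is `0`), `p = 3 ∫ τ c/I`. Suffices: `∫ (6τ² - 6pτ + p² - 1) c ≥ 0` for every `p ∈ [-1,1]`
(that is `∫(6τ²-1)c ≥ 6p ∫τc - p² I = p² I`; and `|p| ≤ 1`: `∫ (1 - 3τ) c ≥ 0` and `∫ (1+3τ) c ≥ 0`, by the same argument as
follows with the one root `±1/3` and the line through `(±1, 0)`: on one side `c ≥ l`, on the other `c ≤ l`).
`ψ(τ) = 6τ² - 6pτ + p² - 1` has roots `r1 < r2` in `(-1,1)` (`ψ(±1) = 5 ∓ 6p + p² = (1 ∓ p)(5 ∓ p) ≥ 0`; for `|p| = 1` one root is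
`±1`: then use a limit or take `p` in the open interval and let `p` tend to `±1`). `T(τ) = min (k1 (1+τ)) (k2 (1-τ))`, `k1 = c(r1)/(1+r1)`,
`k2 = c(r2)/(1-r2)`. Concavity and `c ≥ 0`: `c ≥ T` on `(-1,r1]` and `[r2,1)`, `c ≤ T` on `[r1,r2]` (`c τ ≤ k1 (1+τ)` for
`τ ≥ r1`: the chord from `-1+` to `τ`; likewise `c τ ≤ k2 (1-τ)` for `τ ≤ r2`). So `ψ (c - T) ≥ 0`, and for a tent
`T` with top at `p'`, of area `J`: `∫ ψ T = (p' - p)² J ≥ 0`. -/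
def SpecRNG : Prop :=
  ∀ (c : ℝ → ℝ) (C : ℝ), ConcaveOn ℝ (Ioo (-1) 1) c → (∀ τ ∈ Ioo (-1 : ℝ) 1, 0 ≤ c τ ∧ c τ ≤ C) →
    9 * (∫ τ in (-1 : ℝ)..1, τ * c τ) ^ 2 ≤
      (∫ τ in (-1 : ℝ)..1, (6 * τ ^ 2 - 1) * c τ) * ∫ τ in (-1 : ℝ)..1, c τ

/-- **BNA** (150 lines, from PRF, `PC` EPB, MRB, BHN; copy of `LG/BND.lean`). The band for arbitrary planar bodies. `c` from PRF,
`e(τ) = (c(τ) + c(-τ))/2` is `PC.EPF`; for even `G`: `∫_{-1}^1 G c = 2 ∫_0^1 G e`; `xm = 3 ∫_0^1 τ² e/∫_0^1 e`,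
`qf/area = ∫_0^1 √(1-τ²) e/∫_0^1 e` (`qf` has the integrand `√(1-τ²)`, continuous). MRB, BHN. -/
def SpecBNA : Prop :=
  ∀ P : Set (ℝ × ℝ), CC P → (∀ θ, 0 < wid P θ) → 0 < area P → ∀ s,
    1 / 2 ≤ xm P s ∧ xm P s ≤ 1 ∧
    (3 * π / 4 - 4 / 3 - kap - 1 / 8) - (π / 2 - 3 / 2) * xm P s ≤ Rm P s ∧
    ∀ l ∈ bandQ, Rm P s ≤ (l.1 : ℝ) * xm P s + (l.2 : ℝ)

/-- **XMC** (100 lines, from PRF, RNG). In centroid-Legendre position: expand `(dotu s p - mid)²`, `∫_P dotu s p = 0`,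
`∫_P (dotu s p)² = area/3` (`cos² + sin² = 1`). RNG with `∫ c`, `∫ τ c`, `∫ τ² c` from PRF: `(wid/2) ∫ τ c = -area γ`,
`(wid/2) ∫ τ² c = area x/3`: `9 γ² ≤ 2x - 1`. -/
def SpecXMC : Prop :=
  ∀ P : Set (ℝ × ℝ), IsoC P → ∀ s,
    xm P s = xf P s + 3 * gc P s ^ 2 ∧ mf P s = -(area P * gc P s) ∧
    3 * gc P s ^ 2 ≤ 2 * xf P s - 1 ∧ xf P s ≤ 1

/-- **TRA** (100 lines, from WB2). Translation. `P + w = (fun q => q + w) '' P` is a translate: all integrals are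
translated (`MeasureTheory.measurePreserving_add_right`), `sup2 (P + w) θ = sup2 P θ + dotu θ w`, `dotu (θ+π) = -dotu θ`. -/
def SpecTRA : Prop :=
  ∀ (P : Set (ℝ × ℝ)) (w : ℝ × ℝ), CC P →
    CC ((fun q => q + w) '' P) ∧ area ((fun q => q + w) '' P) = area P ∧
    (∀ f : ℝ × ℝ → ℝ, ∫ p in (fun q => q + w) '' P, f p = ∫ q in P, f (q + w)) ∧
    ∀ θ, sup2 ((fun q => q + w) '' P) θ = sup2 P θ + dotu θ w ∧
      wid ((fun q => q + w) '' P) θ = wid P θ ∧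
      mid ((fun q => q + w) '' P) θ = mid P θ + dotu θ w ∧
      qf ((fun q => q + w) '' P) θ = qf P θ ∧ mf ((fun q => q + w) '' P) θ = mf P θ

/-- **CEN** (120 lines, from TRA, `LG` LEL, AFQ). Every planar body is the image of a body in centroid-Legendre position under
`q ↦ lm t0 a b q + w`. `w` = centroid of `P`, TRA with `-w`, LEL for the translate `P₀` (`∫_{P₀} p = 0`); AFQ gives
`∫_{P'} q = 0` (`∫_{P₀} f = ab ∫_{P'} f ∘ lm`, with `f = dotu t0`, `dotu (t0 + π/2)`). -/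
def SpecCEN : Prop :=
  ∀ P : Set (ℝ × ℝ), CC P → (∀ θ, 0 < wid P θ) → 0 < area P →
    ∃ (t0 a b : ℝ) (w : ℝ × ℝ) (P' : Set (ℝ × ℝ)), 0 < b ∧ b ≤ a ∧ IsoC P' ∧
      P = (fun q => q + w) '' (lm t0 a b '' P')

end Pool.Agent.Lib.MP_084b88_gt.AY
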