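import Pool.Agent.Lib.MP_084b88_gt.AY.Spec
import Pool.Agent.Lib.MP_084b88_gt.CW.SpecD

/-!
# MP_084b88_gt, project AY, second part: the spectral inequalities on the sphere

THEOREMS. Let `g` be continuous and odd on `S²` with `E g(u) u = 0`. Then
(E85) `E_u g² ≤ (8/5) E_v avg_{u ⟂ v} (g_v)_{≥3}²` (`(g_v)_{≥3}` = restriction to the great circle minus its first mode),
(DIK) `E_v avg (g_v')² ≥ 6 E_u g²`, for the odd part `g` of a support function.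
METHOD (no spherical harmonics): the Legendre polynomial `Lp l` is given by Laplace's integral
`Lp l (x) = avg_φ (x + i √(1-x²) cos φ)^l`; powers of isotropic linear forms give the addition theorem
`avg_θ Lp l (cos α A + sin α (B cos θ + C sin θ)) = Lp l (cos α) Lp l (A)`, so
`F_l(x) = E_u f(u) Lp l <u,x>` is an eigenfunction of all circle means; `F_l ⟂ F_m` since the eigenvalues
`Lp l (cos α)` differ; `f` is the uniform limit of `c E_u f(u) ((1 + <u,x>)/2)^n`, a combination of the `F_l`.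

Rules as in `AY/Spec`: file `AY/XXX.lean`, `import Pool.Agent.Lib.MP_084b88_gt.AY.SpecS`, namespace
`Pool.Agent.Lib.MP_084b88_gt.AY`, `theorem specXXX (hYYY : SpecYYY) .. : SpecXXX`, own lemmas in `..AY.XXXM`.
-/

set_option autoImplicit false

open MeasureTheory Set Real Filter Topology
open scoped Pointwise InnerProductSpace

namespace Pool.Agent.Lib.MP_084b88_gt.AY

open Pool.Agent.Lib.MP_084b88_gt.CW Pool.Agent.Lib.MP_084b88_gt.SY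

/-- `a_j = C(2j,j)/4^j`, the mean of `cos^{2j}`. -/
noncomputable def am (j : ℕ) : ℝ := (Nat.choose (2 * j) j : ℝ) / 4 ^ j

/-- The Legendre polynomial. -/
noncomputable def Lp (l : ℕ) (x : ℝ) : ℝ :=
  ∑ j ∈ Finset.range (l / 2 + 1),
    (-1 : ℝ) ^ j * (Nat.choose l (2 * j) : ℝ) * am j * (x ^ (l - 2 * j) * (1 - x ^ 2) ^ j)

/-- `F_l(x) = E_u f(u) Lp l <u,x>`. -/
noncomputable def FL (μ : Measure O3) (f : E3 → ℝ) (l : ℕ) (x : E3) : ℝ :=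
  ∫ S, f (col S 0) * Lp l ⟪col S 0, x⟫_ℝ ∂μ

/-- `B_α(f1,f2) = E f1(u) f2(w)`, `u, w` at angle `α`. -/
noncomputable def BA (μ : Measure O3) (f1 f2 : E3 → ℝ) (α : ℝ) : ℝ :=
  ∫ R, f1 (col R 0) * f2 (col (R * rot α) 0) ∂μ

/-- Scalar product on the sphere. -/
noncomputable def IP (μ : Measure O3) (f1 f2 : E3 → ℝ) : ℝ := ∫ R, f1 (col R 0) * f2 (col R 0) ∂μ

/-- **CAV** (200 lines). Complex circle means. With `u = (p - iq)/2`, `v = (p + iq)/2`: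
`p cos φ + q sin φ = u e^{iφ} + v e^{-iφ}`, `uv = (p²+q²)/4`; binomial theorem and
`∫_0^{2π} e^{imφ} dφ = 0` for `m ≠ 0` (integer). (1) `∫ (p cos φ + q sin φ)^k = 0` for odd `k`,
`= 2π C(2j,j) (uv)^j` for `k = 2j`; then expand `(x + ..)^l` by the binomial theorem. (2) the coefficient of
`e^{∓iφ}` in `(u e^{iφ} + v e^{-iφ})^{2n+1}` is `C(2n+1,n) (uv)^n` times `v`, resp. `u`, `u + v = p`, and
`C(2n+2,n+1) = 2 C(2n+1,n)`. (3) numbers: `a_{j+1} = a_j (2j+1)/(2j+2)` (`Nat.succ_mul_centralBinom_succ`). -/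
def SpecCAV : Prop :=
  (∀ (l : ℕ) (x p q : ℂ), ∫ φ in (0 : ℝ)..(2 * π), (x + p * (cos φ : ℂ) + q * (sin φ : ℂ)) ^ l =
    2 * π * ∑ j ∈ Finset.range (l / 2 + 1),
      (Nat.choose l (2 * j) : ℂ) * (am j : ℂ) * (x ^ (l - 2 * j) * (p ^ 2 + q ^ 2) ^ j)) ∧
  (∀ (n : ℕ) (p q : ℂ), ∫ φ in (0 : ℝ)..(2 * π),
    (cos φ : ℂ) * (p * (cos φ : ℂ) + q * (sin φ : ℂ)) ^ (2 * n + 1) =
    2 * π * (am (n + 1) : ℂ) * p * (p ^ 2 + q ^ 2) ^ n) ∧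
  am 0 = 1 ∧ am 1 = 1 / 2 ∧ am 2 = 3 / 8 ∧ (∀ j, 0 < am j ∧ am (j + 1) ≤ am j)

/-- **LEG** (250 lines, from CAV). Facts on `Lp`. (1) direct. Derivative at `1`: only `j = 0` (`l`) and `j = 1`
(`-C(l,2) (1/2) (-2) = l(l-1)/2`) contribute. (2) LAPLACE: `Lp l (cos α) = (1/2π) ∫ (cos α + i sin α cos φ)^l dφ` (CAV (1)
with `x = cos α`, `p = i sin α`, `q = 0`), and `|cos α + i sin α cos φ| ≤ 1`: `|Lp l| ≤ 1` on `[-1,1]`. (3)
`∫ cos α Lp (2n+1)(cos α) dα = (1/2π) ∫_φ ∫_α cos α (cos α + i cos φ sin α)^{2n+1}`, CAV (2) with `p = 1`,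
`q = i cos φ`: inner integral `2π a_{n+1} sin^{2n} φ`, and `∫ sin^{2n} = 2π a_n` (CAV (1)). (4) `Lp l` is a polynomial of degree `≤ l` with
coefficient of `x^l` equal to `∑ C(l,2j) a_j > 0` (`(-1)^j (1-x²)^j` has leading coefficient `1`): so
`x^m` is a combination of `Lp 0, .., Lp m` (strong induction), hence every polynomial. (5) `Lp l = Lp m` on `[-1,1]` would
give equal derivatives at `1` (one sided), `l(l+1) = m(m+1)`, `l = m`. -/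
def SpecLEG : Prop :=
  (∀ l : ℕ, Continuous (Lp l) ∧ Lp l 1 = 1 ∧ (∀ x, Lp l (-x) = (-1) ^ l * Lp l x) ∧
    HasDerivAt (Lp l) ((l : ℝ) * (l + 1) / 2) 1 ∧ (∀ x, |x| ≤ 1 → |Lp l x| ≤ 1)) ∧
  (∀ x, Lp 1 x = x) ∧
  (∀ (l : ℕ) (α : ℝ), ∫ φ in (0 : ℝ)..(2 * π),
    ((cos α : ℂ) + Complex.I * (sin α : ℂ) * (cos φ : ℂ)) ^ l = 2 * π * (Lp l (cos α) : ℂ)) ∧
  (∀ n : ℕ, ∫ α in (0 : ℝ)..(2 * π), cos α * Lp (2 * n + 1) (cos α) = 2 * π * (am (n + 1) * am n)) ∧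
  (∀ n : ℕ, ∃ b : ℕ → ℝ, ∀ x, ((1 + x) / 2) ^ n = ∑ l ∈ Finset.range (n + 1), b l * Lp l x) ∧
  (∀ l m : ℕ, l ≠ m → ∃ α : ℝ, Lp l (cos α) ≠ Lp m (cos α))

/-- **ADD** (150 lines, from CAV, LEG). Addition theorem. PROOF. `B cos θ + C sin θ = ρ cos (θ - θ0)`, `ρ² = 1 - A²`; by
periodicity we may take `B = ρ`, `C = 0`. For `φ ∈ ℝ` put `zA = A - iρ cos φ`, `zB = ρ + iA cos φ`, `zC = i sin φ`
(the coordinates of the isotropic vector `y + i(cos φ y' + sin φ y'')`): `zA² + zB² + zC² = 0`. The first claim is, for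
`x = (cos α, sin α cos θ, sin α sin θ)` in the order `(A,B,C)` (a unit vector) and `X = <y,x> = cos α A + sin α cos θ ρ`:
`Lp l (X) = (1/2π) ∫_φ (cos α zA + sin α (cos θ zB + sin θ zC))^l dφ`: the integrand is
`(X + i (X' cos φ + X'' sin φ))^l`, `X' = -ρ cos α + A sin α cos θ`, `X'' = sin α sin θ`, `X'² + X''² = 1 - X²`
(orthogonal frame), CAV (1). Integrate over `θ` first (Fubini): CAV (1) gives
`∑ C(l,2j) a_j (cos α zA)^{l-2j} (sin² α)^j (zB² + zC²)^j = zA^l Lp l (cos α)` since `zB² + zC² = -zA²`. Then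
`(1/2π) ∫_φ zA^l = Lp l (A)` (CAV (1) again, `ρ² = 1 - A²`). -/
def SpecADD : Prop :=
  ∀ (l : ℕ) (A B C α : ℝ), A ^ 2 + B ^ 2 + C ^ 2 = 1 →
    ∫ θ in (0 : ℝ)..(2 * π), Lp l (cos α * A + sin α * (B * cos θ + C * sin θ)) =
      2 * π * (Lp l (cos α) * Lp l A)

/-- **BAQ** (150 lines). The forms `B_α`, `f1, f2` continuous. (1) symmetry: substitute `R → R J`, `J` the matrix
`(cos α, sin α, 0; sin α, -cos α, 0; 0, 0, 1)`: `col (RJ) 0 = col (R rot α) 0`, `col (R J rot α) 0 = col R 0`.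
(2) `R → R cyc θ`, average over `θ`, Fubini. (3) `2|xy| ≤ x² + y²` and invariance. (4) `E h(col R 2) = E h(col R 0)`
(`R → R cyc 0`). (5) bilinearity is clear. (6) `E (f(col R 0) - f(col (R rot α) 0))² = 2 (B_0 - B_α)`, `B_0 = IP`. -/
def SpecBAQ : Prop :=
  ∀ μ : Measure O3, HaarO μ → ∀ f1 f2 : E3 → ℝ, Continuous f1 → Continuous f2 → ∀ α : ℝ,
    Integrable (fun R : O3 => f1 (col R 0) * f2 (col (R * rot α) 0)) μ ∧
    BA μ f1 f2 α = BA μ f2 f1 α ∧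
    BA μ f1 f2 α = 1 / (2 * π) * ∫ R, f1 (col R 2) *
      (∫ θ in (0 : ℝ)..(2 * π), f2 (col (R * cyc θ * rot α) 0)) ∂μ ∧
    2 * |BA μ f1 f2 α| ≤ IP μ f1 f1 + IP μ f2 f2 ∧
    ∫ R, f1 (col R 2) * f2 (col R 2) ∂μ = IP μ f1 f2 ∧
    ∫ R, (f1 (col R 0) - f1 (col (R * rot α) 0)) ^ 2 ∂μ = 2 * (IP μ f1 f1 - BA μ f1 f1 α) ∧
    Continuous (fun β => BA μ f1 f2 β)

/-- **EGF** (200 lines, from ADD, BAQ, LEG). Eigenfunctions. `F = FL μ f l` is continuous (dominated convergence, compactness).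
`col (R * cyc θ * rot α) 0 = cos α col R 2 + sin α (cos θ col R 0 + sin θ col R 1)`, so by ADD with
`A = <u, col R 2>`, `B = <u, col R 0>`, `C = <u, col R 1>` (`u = col S 0`, a unit vector) and Fubini the mean over `θ` of
`F(col (R cyc θ rot α) 0)` is `Lp l (cos α) F(col R 2)`; BAQ (2), (4): (2). (3): `B_α(F_l,F_m)` is `Lp m (cos α) IP` and
`Lp l (cos α) IP` (symmetry); choose `α` by LEG. (4) `f` odd, `l` even: `S → -S`-type substitution: `S → S * diag(-1,1,1)` (or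
`S * cyc 0 ..`; any element with `col (S J) 0 = -col S 0`) gives `F_l = -F_l`. (5) `Lp 1 x = x`. -/
def SpecEGF : Prop :=
  ∀ μ : Measure O3, HaarO μ → ∀ f : E3 → ℝ, Continuous f →
    (∀ l, Continuous (FL μ f l)) ∧
    (∀ (h : E3 → ℝ), Continuous h → ∀ l α, BA μ h (FL μ f l) α = Lp l (cos α) * IP μ h (FL μ f l)) ∧
    (∀ l m, l ≠ m → IP μ (FL μ f l) (FL μ f m) = 0) ∧
    ((∀ x, f (-x) = - f x) → ∀ l, l % 2 = 0 → ∀ x, FL μ f l x = 0) ∧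
    ((∀ x, ∫ S, f (col S 0) * ⟪col S 0, x⟫_ℝ ∂μ = 0) → ∀ x, FL μ f 1 x = 0)

/-- **KER** (200 lines). Approximate identity. PROOF. Left invariance (`S → R S`,
`col (R S) 0 = ∑_i S_{i0} col R i`, `<col (R S) 0, col R 0> = S_{00}`): the integral is
`c ∫ f(col (R S) 0) w(S)^n dμ(S)`, `w(S) = (1 + S_{00})/2 ∈ [0,1]`; take `c = 1/∫ w^n` (`> 0`, as `w > 0` near `S = 1`; open sets
have positive measure: `IsOpenPosMeasure` or finitely many translates cover `O3`). `|f(col (R S) 0) - f(col R 0)| ≤ ε/2` if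
`S_{00} ≥ 1 - δ` (`‖col (R S) 0 - col R 0‖² = 2 - 2 S_{00}`, uniform continuity of `f` on the sphere), `≤ 2 sup |f|`
otherwise, and `∫_{S_{00} < 1-δ} w^n ≤ (1-δ/2)^n`, `∫ w^n ≥ (1-δ/4)^n μ{S_{00} > 1 - δ/2}`: the quotient tends to `0`. -/
def SpecKER : Prop :=
  ∀ μ : Measure O3, HaarO μ → ∀ f : E3 → ℝ, Continuous f → ∀ ε : ℝ, 0 < ε →
    ∃ (n : ℕ) (c : ℝ), ∀ R : O3,
      |c * (∫ S, f (col S 0) * ((1 + ⟪col S 0, col R 0⟫_ℝ) / 2) ^ n ∂μ) - f (col R 0)| ≤ ε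

/-- **KEY** (200 lines, from EGF, KER, LEG, BAQ). Spectral decomposition up to `ε`. PROOF. By KER and LEG (4) there is
`q = ∑_{l ≤ n} c b_l F_l` (only odd `l ≥ 3` contribute, EGF (4), (5)) with `|q - f| ≤ ε1` on the sphere. Let `a_l =
IP(f,F_l)/IP(F_l,F_l)` (`0` if `IP(F_l,F_l) = 0`; then also `IP(f,F_l) = 0` by Cauchy-Schwarz, e.g. from
`0 ≤ IP(f - sF_l, f - sF_l)` for all `s`), `p = ∑ a_l F_l` over odd `3 ≤ l ≤ n`, `r = f - p`. Then `IP(r,F_l) = 0`, so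
`B_α(r,p) = B_α(p,r) = 0` for all `α` (EGF (2)), `B_α(f,f) = ∑ a_l² IP(F_l,F_l) Lp l (cos α) + B_α(r,r)`, and
`IP(r,r) ≤ IP(f-q,f-q) ≤ ε1²` (`f - q = r + (p - q)`, orthogonal). `β_l = a_l² IP(F_l,F_l) ≥ 0`, `|B_α(r,r)| ≤ IP(r,r) ≤ ε`. -/
def SpecKEY : Prop :=
  ∀ μ : Measure O3, HaarO μ → ∀ f : E3 → ℝ, Continuous f → (∀ x, f (-x) = - f x) →
    (∀ x, ∫ S, f (col S 0) * ⟪col S 0, x⟫_ℝ ∂μ = 0) → ∀ ε : ℝ, 0 < ε →
    ∃ (N : ℕ) (β : ℕ → ℝ), (∀ n, 0 ≤ β n) ∧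
      (∀ α, |BA μ f f α - ∑ n ∈ Finset.range N, β n * Lp (2 * n + 3) (cos α)| ≤ ε) ∧
      (∀ α, ∑ n ∈ Finset.range N, β n * (1 - Lp (2 * n + 3) (cos α)) ≤ IP μ f f - BA μ f f α) ∧
      IP μ f f - ε ≤ ∑ n ∈ Finset.range N, β n

/-- **E85** (150 lines, from KEY, LEG, CAV, BAQ). The constant `8/5`. Put `G(R) = f(col R 0)`, `γ_R(t) = f(col (R rot t) 0)`
(`= G(R rot t)`), `x(R) = (1/π) ∫ γ_R cos`, `y(R) = (1/π) ∫ γ_R sin`: `g3f γ_R 0 = G(R) - x(R)`. By right invariance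
`E G x = (1/π) ∫ cos t B_t(f,f) dt`, and `E (G - x)² = E G² - E G x`: (`E x² = E G x`:
`x(R rot t) = x(R) cos t + y(R) sin t`, so `E x² = E x(R rot t)²`, average over `t`: `E (x²+y²)/2`; and
`E G x = E G(R rot t) x(R rot t)`, average over `t`: `E (1/2π)(x ∫ γ cos + y ∫ γ sin) = E (x² + y²)/2`.) By KEY and
LEG (3), CAV: `(1/π) ∫ cos t B_t dt ≤ ∑ β_n 2 a_{n+2} a_{n+1} + 2·2ε ≤ (3/8) ∑ β_n + 4ε` (`2 a_2 a_1 = 3/8`),
`∑ β_n ≤ IP + ε` (KEY with `α = 0`). Let `ε → 0`: `E G x ≤ (3/8) E G²`, `E (G-x)² ≥ (5/8) E G²`. -/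
def SpecE85 : Prop :=
  ∀ μ : Measure O3, HaarO μ → ∀ f : E3 → ℝ, Continuous f → (∀ x, f (-x) = - f x) →
    (∀ x, ∫ S, f (col S 0) * ⟪col S 0, x⟫_ℝ ∂μ = 0) →
    ∫ R, f (col R 0) ^ 2 ∂μ ≤
      8 / 5 * ∫ R, g3f (fun t => f (col (R * rot t) 0)) 0 ^ 2 ∂μ

/-- **DIR** (120 lines, from KEY, LEG, BAQ). If `(1/α²) E (f(u) - f(w))² ≤ D` for all `0 < α ≤ 1`, then
`6 E f² ≤ D`. PROOF. BAQ (6): `E(..)² = 2 (IP - B_α) ≥ 2 ∑ β_n (1 - Lp (2n+3)(cos α))` (KEY); as `α → 0`,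
`(1 - Lp l (cos α))/α² → l(l+1)/4` (LEG: derivative at `1`, `(1 - cos α)/α² → 1/2`), and `l(l+1)/4 ≥ 3`: so
`D ≥ 6 ∑ β_n ≥ 6 (IP - ε)`. -/
def SpecDIR : Prop :=
  ∀ μ : Measure O3, HaarO μ → ∀ f : E3 → ℝ, Continuous f → (∀ x, f (-x) = - f x) →
    (∀ x, ∫ S, f (col S 0) * ⟪col S 0, x⟫_ℝ ∂μ = 0) → ∀ D : ℝ,
    (∀ α : ℝ, 0 < α → α ≤ 1 →
      ∫ R, (f (col R 0) - f (col (R * rot α) 0)) ^ 2 ∂μ ≤ α ^ 2 * D) →
    6 * ∫ R, f (col R 0) ^ 2 ∂μ ≤ D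

/-- Area of the symmetral minus area, `= ∫_0^{2π} (g'² - g²)/2` for smooth bodies. -/
noncomputable def dA (P : Set (ℝ × ℝ)) : ℝ :=
  IG (fun _ => 1) (Bh (sup2 P)) 0 - area P

/-- **PLD** (300 lines, from `CW` HPB, PSB, ORB, COE, GAG, GAL, WMB, GDU, WB2 and AY ACV, IGA). Planar Dirichlet energy without
derivatives: for all linear functions `ln x y`, all `α` and `g = mid P - ln x y`:
`∫_0^{2π} (g(t+α) - g(t))² dt ≤ α² (2 dA P + ∫_0^{2π} g²)`; `dA P ≥ 0`.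
PROOF. Smooth case `sup2 P = hp M c`: `∫ (g(t+α) - g(t))² ≤ α² ∫ g'²` (`g(t+α) - g(t) = ∫_0^α g'(t+s) ds`, Cauchy-Schwarz, Fubini,
periodicity), and `∫ g'² - ∫ g² = 2 dA`: IGA with `G = 1`, `G2 = x²/2`: `area = B² ∫ (1 - a² - ea²)/sin²` for every
`t`, and `IG 1 (Bh ..) = B² ∫ (1 - a²)/sin²` (IGA for `evc c`), so `dA = ∫_0^π (B ea)²/sin² dα` for every `t`, `B ea = sin² α Ψ_g` (WMB for `odc c`,
`gh`), average over `t` with PSB: `2π dA = π ∑_{k odd} |c_k|² Uk k`, `Uk k = π (k²-1)` for odd `k` (as in COE: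
`Uk k = 4π (a_0² + a_{m-1}² + m - 1)`, `k = 2m+1`, `a_0 = m`, `a_{m-1} = 1`), and `∫ (g'² - g²) = π ∑ (k²-1)|c_k|²`. Removing
a linear function does not change `∫ g'² - ∫ g²`. (Alternatively: average over `t` directly and integrate by parts.)
General case: ACV applied to `h = sup2 P` (`F = 1`, `G = 1`: `area`, and to `Bh h` for the symmetral, the approximants of
`h` have half widths `Bh h_n → Bh h` uniformly, so use GCV for `IG 1 (Bh h_n) 0 → IG 1 (Bh h) 0`), `g_n → g` uniformly.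
If `wid P` vanishes somewhere this is not needed: hypothesis `wid > 0`. -/
def SpecPLD : Prop :=
  ∀ P : Set (ℝ × ℝ), CC P → (∀ θ, 0 < wid P θ) → 0 ≤ dA P ∧
    (∀ t, IG (fun _ => 1) (Bh (sup2 P)) t = IG (fun _ => 1) (Bh (sup2 P)) 0) ∧
    ∀ x y α : ℝ,
      ∫ t in (0 : ℝ)..(2 * π), ((mid P (t + α) - ln x y (t + α)) - (mid P t - ln x y t)) ^ 2 ≤
        α ^ 2 * (2 * dA P + ∫ t in (0 : ℝ)..(2 * π), (mid P t - ln x y t) ^ 2)

/-- **DIK** (200 lines, from DIR, PLD, MEA, MEB). For every convex body there is a point `O` (the Steiner point,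
`O = 3 E mid(pr R K) 0 col R 0`) with `E g_O(u) u = 0` and `E dA(pr R K) ≥ 5π E g_O²`.
PROOF. `E <col R 0, x> <col R 0, y> = <x,y>/3` (invariance, `∑_i <col R i, x>² = ‖x‖²`). `f(x) = (HS K x - HS K (-x))/2 - <x,O>` is
continuous and odd, `f(col R 0) = g_O(R)`, `f(col (R rot t) 0) = mid (pr R K) t - ln .. t`. PLD averaged over `R` and right
invariance: `2π E (f(col R 0) - f(col (R rot α) 0))² ≤ α² (2 E dA + 2π E f²)`; DIR with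
`D = (1/π) E dA + E f²`: `5 E f² ≤ (1/π) E dA`. Measurability of `R ↦ dA (pr R K)`: `area` by MEA;
`IG 1 (Bh (sup2 (pr R K))) 0` is the area of `pr R K'`, `K' = (1/2)(K + (-K))`, (its support function is `Bh (sup2 (pr R K))`; GDU) MEA for `K'`. -/
def SpecDIK : Prop :=
  ∀ μ : Measure O3, HaarO μ → ∀ K : Set E3, CC K → (interior K).Nonempty →
    Integrable (fun R : O3 => dA (pr R K)) μ ∧
    ∃ O : E3, (∀ x, ∫ R, (mid (pr R K) 0 - ⟪col R 0, O⟫_ℝ) * ⟪col R 0, x⟫_ℝ ∂μ = 0) ∧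
      ∫ R, (mid (pr R K) 0 - ⟪col R 0, O⟫_ℝ) ^ 2 ∂μ ≤
        8 / 5 * ∫ R, g3f (mid (pr R K)) 0 ^ 2 ∂μ ∧
      5 * π * ∫ R, (mid (pr R K) 0 - ⟪col R 0, O⟫_ℝ) ^ 2 ∂μ ≤ ∫ R, dA (pr R K) ∂μ

end Pool.Agent.Lib.MP_084b88_gt.AY
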