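import Pool.Agent.Lib.MP_084b88_gt.AY.SpecP
import Pool.Agent.Lib.MP_084b88_gt.AY.SpecS

/-!
# MP_084b88_gt, project AY, part Q: the kernel principle, and the 3D assembly

Everything here is independent of the final certificate.

I. NULL FORMS. The two point data of a smooth planar body at `(t, s = t + α)` are collected in a `Dt`:
`a, b, e = ea, f = eb, gt = γ(t), gs = γ(s), x = u_t/h(t), y = u_s/h(s)`. A function `N` of the data is a null form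
(`Nul N`) if `∫_0^π N/sin² α dα = 0` for every `t` and every smooth body. As functions of `α` (`' = d/dα`,
`κ = h(t)/(h(s) sin α)`): `b' = -(1 - ab) κ`, `f' = (e + a f) κ`, `gs' = -(e + gt - a gs) κ`, `y_i' = -(x_i - a y_i) κ`; so
for `F = F(b, f, gs, y; gt, x)` with derivation `D`: `D b = 1 - ab`, `D f = -(e + a f)`, `D gs = e + gt - a gs`,
`D y_i = x_i - a y_i`, `D gt = D x_i = 0`, the form `N = a F + D F` is null if the boundary terms cancel (NGZ). For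
`δ0 = gs - b gt`, `δi = y_i - b x_i`: `D δ0 = e - a δ0`, `D δi = -a δi`.
Quadratic forms: `p = r1 x1² + r2 x2²`, `q = r1 y1² + r2 y2²`, `c = r1 x1 y1 + r2 x2 y2`.
II. KERNEL PRINCIPLE. A pointwise inequality between functions of the data gives an inequality for all planar bodies.
III. The Steiner point lies in the body; 3D assembly.

Rules: file `AY/XXX.lean`, `import Pool.Agent.Lib.MP_084b88_gt.AY.SpecQ`, namespace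
`Pool.Agent.Lib.MP_084b88_gt.AY`, `theorem specXXX (hYYY : SpecYYY) .. : SpecXXX`, own lemmas in the namespace
`..AY.XXXM`. Every Spec of CW, SY, LG (not CERT), PC, AY/Spec, SpecS, SpecP may be a hypothesis.
-/

set_option autoImplicit false

open MeasureTheory Set Real Filter Topology
open scoped Pointwise InnerProductSpace

namespace Pool.Agent.Lib.MP_084b88_gt.AY

open Pool.Agent.Lib.MP_084b88_gt.CW Pool.Agent.Lib.MP_084b88_gt.SY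

/-! ## I. Two point data and null forms -/

/-- Two point data. -/
structure Dt where
  a : ℝ
  b : ℝ
  e : ℝ
  f : ℝ
  gt : ℝ
  gs : ℝ
  x1 : ℝ
  x2 : ℝ
  y1 : ℝ
  y2 : ℝ

/-- Exchange of the two points. -/
def Dt.sw (d : Dt) : Dt := ⟨-d.b, -d.a, d.f, -d.e, d.gs, -d.gt, d.y1, d.y2, -d.x1, -d.x2⟩

/-- The data of a smooth body at `t`, `s = t + α`. -/
noncomputable def dtf (h h1 g g1 : ℝ → ℝ) (t α : ℝ) : Dt :=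
  ⟨aa h h1 t α, bb h h1 t α, ea h g g1 t α, eb h g g1 t α, gm h g t, gm h g (t + α),
    cos t / h t, sin t / h t, cos (t + α) / h (t + α), sin (t + α) / h (t + α)⟩

/-- Null forms. -/
def Nul (N : Dt → ℝ) : Prop :=
  ∀ (h h1 h2 g g1 g2 : ℝ → ℝ), Sg h h1 h2 g g1 g2 →
    Continuous (fun x : ℝ × ℝ => N (dtf h h1 g g1 x.1 x.2)) ∧
    (∃ L : ℝ, ∀ t, ∀ α ∈ Icc (0 : ℝ) π, |N (dtf h h1 g g1 t α)| ≤ L * sin α ^ 2) ∧
    ∀ t, ∫ α in (0 : ℝ)..π, N (dtf h h1 g g1 t α) / sin α ^ 2 = 0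

/-- `f^j δ0^p0 δ1^p1 δ2^p2 gs^k gt^l x1^m1 x2^m2 y1^n1 y2^n2`. -/
def mq (j p0 p1 p2 k l m1 m2 n1 n2 : ℕ) (d : Dt) : ℝ :=
  d.f ^ j * (d.gs - d.b * d.gt) ^ p0 * (d.y1 - d.b * d.x1) ^ p1 * (d.y2 - d.b * d.x2) ^ p2 *
    (d.gs ^ k * d.gt ^ l * d.x1 ^ m1 * d.x2 ^ m2 * d.y1 ^ n1 * d.y2 ^ n2)

/-- `D` of this monomial. -/
def dq (j p0 p1 p2 k l m1 m2 n1 n2 : ℕ) (d : Dt) : ℝ :=
  -(d.a * ((j : ℝ) + p0 + p1 + p2) * mq j p0 p1 p2 k l m1 m2 n1 n2 d) -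
    j * d.e * mq (j - 1) p0 p1 p2 k l m1 m2 n1 n2 d +
    p0 * d.e * mq j (p0 - 1) p1 p2 k l m1 m2 n1 n2 d +
    k * (d.e + d.gt - d.a * d.gs) * mq j p0 p1 p2 (k - 1) l m1 m2 n1 n2 d +
    n1 * (d.x1 - d.a * d.y1) * mq j p0 p1 p2 k l m1 m2 (n1 - 1) n2 d +
    n2 * (d.x2 - d.a * d.y2) * mq j p0 p1 p2 k l m1 m2 n1 (n2 - 1) d

/-- The null form `a F + D F` of `F = φ(b) f^j δ0^p0 .. y2^n2`, `φ1 = φ'`. -/
def NQ (φ φ1 : ℝ → ℝ) (j p0 p1 p2 k l m1 m2 n1 n2 : ℕ) (d : Dt) : ℝ :=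
  (d.a * φ d.b + φ1 d.b * (1 - d.a * d.b)) * mq j p0 p1 p2 k l m1 m2 n1 n2 d +
    φ d.b * dq j p0 p1 p2 k l m1 m2 n1 n2 d

/-- **NQA** (250 lines, from EBR, ABR, NGZ, NG0). The basic null forms; `O(sin²)`: `f`, `1 - ab`, `e`, products of two
`δ`s; `O(sin)`: `δ0, δ1, δ2`, hence also `D gs = e + (1-ab) gt - a δ0`, `D y_i = (1-ab) x_i - a δi`; everything else is bounded
(`δi`: write `δi = c_i h(t) sin α/h(s)`: `(h(s) δi/(h(t) sin α))' = 0` by ABR (8), EBR (11)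
(`cos t = ln 1 0 t`, `sin t = ln 0 1 t`), or directly
`δ1 h(s) h(t) = cos s h(t) - (h(t) cos α + h1(t) sin α) cos t = -(sin t h(t) + h1(t) cos t) sin α`, similarly
`δ2 h(s) h(t) = (cos t h(t) - h1(t) sin t) sin α`).
(1) order `2j + p0 + p1 + p2 ≥ 2`: `|F| ≤ K sin²`, NG0. (2) one `δ` and a matching parity: NGZ; `N = O(sin²)` because
`N` is a sum of terms with one factor `δ` and one factor `1 - ab` or `D gs`, `D y_i` (`O(sin)`), and of `φ e M` for `δ0`;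
the limits at `0+` and `π-` of `h(s) F/(h(t) sin α)` are `φ(1) c M(+)` and `φ(-1) c M(-)`, `M(-)` = `M` at `gs = -γ(t)`,
`y = -x`, that is `(-1)^(k+n1+n2) M(+)`; `c` = limit of `h(s) δ/(h(t) sin α)`, the same at both ends (EBR (10) for `δ0`,
constant for `δ1, δ2`). (3) `|φ| ≤ K (1-x²)`: NG0. Continuity in `(t,α)`: EBR, ABR. -/
def SpecNQA : Prop :=
  ∀ φ φ1 : ℝ → ℝ, Continuous φ1 → (∀ x, HasDerivAt φ (φ1 x) x) →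
    ∀ k l m1 m2 n1 n2 : ℕ,
    (∀ j p0 p1 p2 : ℕ, 2 ≤ 2 * j + p0 + p1 + p2 →
      Nul (NQ φ φ1 j p0 p1 p2 k l m1 m2 n1 n2)) ∧
    (φ (-1) * (-1) ^ (k + n1 + n2) = φ 1 →
      Nul (NQ φ φ1 0 1 0 0 k l m1 m2 n1 n2) ∧ Nul (NQ φ φ1 0 0 1 0 k l m1 m2 n1 n2) ∧
      Nul (NQ φ φ1 0 0 0 1 k l m1 m2 n1 n2)) ∧
    ((∃ K, ∀ x, |x| ≤ 1 → |φ x| ≤ K * (1 - x ^ 2)) →
      Nul (NQ φ φ1 0 0 0 0 k l m1 m2 n1 n2))

/-! ## II. The kernel principle -/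

/-- The kernel of `∫_P G(τ)`: `G2'' = G`. -/
def kk (G2 : ℝ → ℝ) (a e : ℝ) : ℝ := G2 1 + G2 (-1) - G2 (e + a) - G2 (e - a)

/-- What is known on the data: `|γ| ≤ Γ`, `v1 ≤ 1/h² ≤ v2`. -/
structure Dom (Γ v1 v2 : ℝ) (d : Dt) : Prop where
  ae : |d.a| + |d.e| ≤ 1
  bf : |d.b| + |d.f| ≤ 1
  gt : |d.gt| ≤ Γ
  gs : |d.gs| ≤ Γ
  x1 : v1 ≤ d.x1 ^ 2 + d.x2 ^ 2
  x2 : d.x1 ^ 2 + d.x2 ^ 2 ≤ v2
  y1 : v1 ≤ d.y1 ^ 2 + d.y2 ^ 2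
  y2 : d.y1 ^ 2 + d.y2 ^ 2 ≤ v2
  det : 0 < d.x1 * d.y2 - d.x2 * d.y1
  b1 : v1 * ((d.y1 - d.b * d.x1) ^ 2 + (d.y2 - d.b * d.x2) ^ 2) ≤ (d.x1 * d.y2 - d.x2 * d.y1) ^ 2
  a1 : v1 * ((d.x1 - d.a * d.y1) ^ 2 + (d.x2 - d.a * d.y2) ^ 2) ≤ (d.x1 * d.y2 - d.x2 * d.y1) ^ 2

/-- The pointwise kernel inequality for the functional `∑ ∫ ω_i(u_t/h, γ)/h² ∫_P G_i(τ)`, with the null form `N`. -/
def KerIneq (n : ℕ) (ω : Fin n → ℝ → ℝ → ℝ → ℝ) (G2 : Fin n → ℝ → ℝ) (N : Dt → ℝ) (Γ v1 v2 : ℝ) : Prop :=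
  ∀ d : Dt, Dom Γ v1 v2 d →
    0 ≤ (∑ i, (ω i d.x1 d.x2 d.gt * kk (G2 i) d.a d.e + ω i d.y1 d.y2 d.gs * kk (G2 i) d.b d.f)) +
      N d + N d.sw

/-- **KPS** (250 lines, from IGA, EBR, ABR, SWP, HPB; copy of SY TWO + CQM). The smooth case. `B = hp M (evc c)`,
`g = hp M (odc c)`. IGA: `ω_i/B² IG G_i = ∫_0^π ω_i(x, gt) kk (G2 i) a e/sin²`. `|kk G2 a e| ≤ C (1 - |a| + |e|) ≤ C' sin²`
(`G2` is `C¹`; `1 - |a| ≤ 1 - a²`). Add `N` (`Nul`), exchange the points (SWP, applied to `Y = ∑ ω_i kk + N`; `dtf (t+α) (π-α) =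
(dtf t α).sw` by ABR (4), EBR (3), `s + (π - α) = t + π`; `ω_i` is applied to `(d.sw).x1 = y1` ..; `kk G2 (-b) f = kk G2 b f`):
twice the integral is the integral of the left side of `KerIneq`. The data satisfy `Dom` for `0 < α < π`: EBR (5),
`det = sin α/(h(t) h(s)) > 0`; `(y - b x)² h(t)² h(s)² = sin² α (h(t)² + h1(t)²)` (formulas for `δi` in NQA), and `h² + h1² ≤ 1/v1`:
the function `h² + h1²` is continuous and periodic, at its maximum `0 = 2 h1 (h + h2)`, so `h1 = 0`, and `h² ≤ 1/v1`; the same for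
`a` (`(x - a y) h(t) h(s)` has length `sin α √(h(s)² + h1(s)²)`). -/
def SpecKPS : Prop :=
  ∀ (n : ℕ) (ω : Fin n → ℝ → ℝ → ℝ → ℝ) (G G1 G2 : Fin n → ℝ → ℝ) (N : Dt → ℝ) (Γ v1 v2 : ℝ), 0 < v1 →
    (∀ i, Continuous (fun x : ℝ × ℝ × ℝ => ω i x.1 x.2.1 x.2.2)) → (∀ i, Continuous (G i)) →
    (∀ i x, HasDerivAt (G1 i) (G i x) x) → (∀ i x, HasDerivAt (G2 i) (G1 i x) x) → Nul N →
    KerIneq n ω G2 N Γ v1 v2 →
    ∀ (M : ℕ) (c : ℕ → ℂ), RP M c →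
      (∀ t, v1 ≤ 1 / Bh (hp M c) t ^ 2 ∧ 1 / Bh (hp M c) t ^ 2 ≤ v2) →
      (∀ t, |gh (hp M c) t / Bh (hp M c) t| ≤ Γ) →
      0 ≤ ∫ t in (0 : ℝ)..(2 * π), ∑ i, ω i (cos t / Bh (hp M c) t) (sin t / Bh (hp M c) t)
        (gh (hp M c) t / Bh (hp M c) t) / Bh (hp M c) t ^ 2 * IG (G i) (hp M c) t

/-- **KPC** (200 lines, from KPS, ACV, `CW` GDU, WB2, SLI). All convex bodies. `H = sup2 P`: Lipschitz, class inequality (WB2),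
`Bh H = wid P/2`, `gh H = mid P`. ACV: `H_n = hp (M n) (c n) → H`, `v1 ≤ 1/B_n² ≤ v2` (`inf B ≤ B_n ≤ sup B`),
`|g_n/B_n| ≤ Γ` for large `n` (uniform convergence, `|γ| ≤ Γ0 < Γ`). KPS for `H_n`; the integrals converge (ACV with
`F(t,B,g) = ω_i(cos t/B, sin t/B, g/B)/B²`, continuous on `B > 0`). GDU: `IG G H t = ∫_P G(τ)`. -/
def SpecKPC : Prop :=
  ∀ (n : ℕ) (ω : Fin n → ℝ → ℝ → ℝ → ℝ) (G G1 G2 : Fin n → ℝ → ℝ) (N : Dt → ℝ) (Γ v1 v2 : ℝ), 0 < v1 →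
    (∀ i, Continuous (fun x : ℝ × ℝ × ℝ => ω i x.1 x.2.1 x.2.2)) → (∀ i, Continuous (G i)) →
    (∀ i x, HasDerivAt (G1 i) (G i x) x) → (∀ i x, HasDerivAt (G2 i) (G1 i x) x) → Nul N →
    KerIneq n ω G2 N Γ v1 v2 →
    ∀ P : Set (ℝ × ℝ), CC P → (∀ θ, 0 < wid P θ) →
      (∀ t, v1 ≤ 1 / (wid P t / 2) ^ 2 ∧ 1 / (wid P t / 2) ^ 2 ≤ v2) →
      (∃ Γ0, Γ0 < Γ ∧ ∀ t, |gc P t| ≤ Γ0) →
      (∀ i, IntervalIntegrable (fun t => ω i (cos t / (wid P t / 2)) (sin t / (wid P t / 2)) (gc P t) /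
        (wid P t / 2) ^ 2 * ∫ p in P, G i ((dotu t p - mid P t) / (wid P t / 2))) volume 0 (2 * π)) ∧
      0 ≤ ∑ i, ∫ t in (0 : ℝ)..(2 * π), ω i (cos t / (wid P t / 2)) (sin t / (wid P t / 2)) (gc P t) /
        (wid P t / 2) ^ 2 * ∫ p in P, G i ((dotu t p - mid P t) / (wid P t / 2))

/-! ## III. Space -/

/-- **STP** (250 lines, from `CW` HSB, MEA, MEB, SUL, AY DIK (DIKM.mean_pol)). The Steiner point lies in the body: `⟨w,O⟩ ≤ h(w)`,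
`h = HS K`, for `‖w‖ = 1`. PROOF. For `0 < ε < 1/2` let `D_ε = {x : ‖x - ε w‖ ≤ 1}`, `D_0` the unit ball, `V = vol D_0`. (1) `h` is
sublinear, so `h(x + ε w) ≤ h(x) + ε h(w)` and `∫_{D_ε} h - ∫_{D_0} h = ∫_{D_0} (h(x+εw) - h(x)) dx ≤ ε V h(w)`. (2) Averaging:
for integrable `F` `∫ F(x) dx = ∫ (E_S F(S x)) dx` (rotation invariance of `volume`, Fubini) and `E_S F(S x) =
E_S F(‖x‖ col S 0)` (invariance of `μ`). For `F = h 1_{D_ε}`: `= ‖x‖ E_S[h(col S 0) 1(‖x‖ ≤ ρ(col S 0))]`,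
`ρ(u) = ε⟨u,w⟩ + √(1 - ε²(1 - ⟨u,w⟩²))` (radial function of `D_ε`); Fubini and scaling: `∫_{‖x‖ ≤ ρ} ‖x‖ dx = C ρ⁴`,
`C = ∫_{D_0} ‖x‖ > 0`. So `∫_{D_ε} h - ∫_{D_0} h = C E_S[h(col S 0) (ρ⁴ - 1)]` and by (1)
`C E_S[h(col S 0) (ρ_ε⁴ - 1)/ε] ≤ V h(w)`; `ε → 0`: `(ρ_ε⁴ - 1)/ε → 4⟨u,w⟩` uniformly: `4 C E[h(col S 0) ⟨col S 0,w⟩] ≤ V h(w)`. (3) for
the linear function `h(x) = ⟨x,w⟩` (instead of `HS K`; or `K = {w}`) there is equality: `4 C/3 = V`. (4) So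
`3 E[h(col S 0) ⟨col S 0, w⟩] ≤ h(w)`, and the hypothesis on `O` with `x = w` gives `⟨O,w⟩/3 = E[mid ⟨col,w⟩] = E[h(col S 0) ⟨col S 0,w⟩]`
(`mid (pr R K) 0 = (h(u) - h(-u))/2`, `R → R J` with `col (RJ) 0 = -col R 0`; `mean_pol`). Then
`|mid (pr R K) t - dotu t (cd R O)| ≤ wid (pr R K) t/2` says `⟨u,O⟩ ≤ h(u)` and `-⟨u,O⟩ ≤ h(-u)`, `u = col (R * rot t) 0`. -/
def SpecSTP : Prop :=
  ∀ μ : Measure O3, HaarO μ → ∀ K : Set E3, CC K → (interior K).Nonempty → ∀ O : E3,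
    (∀ x, ∫ R, (mid (pr R K) 0 - ⟪col R 0, O⟫_ℝ) * ⟪col R 0, x⟫_ℝ ∂μ = 0) →
    ∀ (R : O3) (t : ℝ), |mid (pr R K) t - dotu t (cd R O)| ≤ wid (pr R K) t / 2

/-- The larger root of `G² + τ (G - W)² + V²/2 = (1+y)²/(4y)`, `V = L(y) γ`. -/
noncomputable def GV (W L : ℝ → ℝ) (y γ : ℝ) : ℝ :=
  (taup * W y + √((1 + taup) * ((1 + y) ^ 2 / (4 * y) - (L y * γ) ^ 2 / 2) - taup * W y ^ 2)) /
    (1 + taup)

/-- The planar functional: weights `W`, `V = -L(y) γ_o`, `y = h/b`, `γ_o = (mid - ⟨u,o⟩)/h`, `o` the projected Steiner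
point; payments `mu` (E85) and `nu` (DIK). -/
noncomputable def PVf (W L : ℝ → ℝ) (mu nu b : ℝ) (P : Set (ℝ × ℝ)) (o : ℝ × ℝ) : ℝ :=
  (∫ t in (0 : ℝ)..(2 * π),
    (kap * (GV W L (wid P t / 2 / b) ((mid P t - dotu t o) / (wid P t / 2)) - 1) * area P +
      W (wid P t / 2 / b) * (qf P t - kap * area P) -
      L (wid P t / 2 / b) * ((mid P t - dotu t o) / (wid P t / 2)) * mf P t)) +
  mu * ((∫ t in (0 : ℝ)..(2 * π), (mid P t - dotu t o) ^ 2) -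
    8 / 5 * ∫ t in (0 : ℝ)..(2 * π), g3f (mid P) t ^ 2) -
  nu * (dA P - 5 / 2 * ∫ t in (0 : ℝ)..(2 * π), (mid P t - dotu t o) ^ 2)

/-- **ASM** (helper31). 3D assembly. -/
def SpecASM : Prop :=
  ∀ (b0 mu nu : ℝ) (W L : ℝ → ℝ), 0 < b0 → b0 ≤ 1 → 0 ≤ mu → 0 ≤ nu →
    ContinuousOn W (Icc b0 2) → ContinuousOn L (Icc b0 2) →
    (∀ y ∈ Icc b0 2, taup * W y ^ 2 ≤ (1 + taup) * ((1 + y) ^ 2 / (4 * y) - L y ^ 2 / 2)) →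
    (∀ P : Set (ℝ × ℝ), CC P → 0 < area P → ∀ b : ℝ, 0 < b →
      (∀ t, b0 * b ≤ wid P t / 2) → (∀ t, wid P t / 2 ≤ 2 * b) →
      ∀ o : ℝ × ℝ, (∀ t, |mid P t - dotu t o| ≤ wid P t / 2) → 0 ≤ PVf W L mu nu b P o) →
    ∀ K : Set E3, CC K → (interior K).Nonempty → ∀ V1 V2 : ℝ, STEI K V1 V2 →
      (∀ u : E3, ‖u‖ = 1 → b0 * (V1 / 2) ≤ HS K u + HS K (-u)) →
      ∀ c : ℝ, HSEC K c → 4 * c * V2 ^ 2 ≤ 3 * Real.pi * V1 * (volume K).toReal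

end Pool.Agent.Lib.MP_084b88_gt.AY
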