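import Pool.Agent.Lib.MP_084b88_gt.AY.SpecQ

/-!
# MP_084b88_gt, project AY, part R: from kernel certificates to the planar theorem for arbitrary bodies

Independent of the numbers of the final certificate (weights `W, L`, payment `mu`, list of generators `T`).

I. The kernel principle with `|γ| ≤ Γ` (not `< Γ`). II. The data `v = 1/h²`, `γ`, `R` of a body in centroid-Legendre position; the
generators `∫ v ψ (aS S(x) + aR R + C γ² + l γ Y + m Y² + eps - k (x - 3/4)²) ≥ 0`, `ψ = 1 - (rc cos² + rs sin²) v`, `Y = <D,u>/h`, `D`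
arbitrary. III. The planar functional `PVf` in these data.

Rules: file `AY/XXX.lean`, `import Pool.Agent.Lib.MP_084b88_gt.AY.SpecR`, namespace
`Pool.Agent.Lib.MP_084b88_gt.AY`, `theorem specXXX (hYYY : SpecYYY) .. : SpecXXX`, own lemmas in the namespace
`..AY.XXXM`. Every Spec of CW, SY, LG (not CERT), PC, AY/Spec, SpecS, SpecP, SpecQ may be a hypothesis.
-/

set_option autoImplicit false

open MeasureTheory Set Real Filter Topology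
open scoped Pointwise InnerProductSpace

namespace Pool.Agent.Lib.MP_084b88_gt.AY

open Pool.Agent.Lib.MP_084b88_gt.CW Pool.Agent.Lib.MP_084b88_gt.SY Pool.Agent.Lib.MP_084b88_gt.LG

/-! ## I. The kernel principle with a closed bound for `γ` -/

/-- **AC2** (250 lines, copy of `AY/ACV.lean`, from `CW` GAP, GCV, GAG, HPB). ACV with the relative bound `|g| ≤ Γ B` kept.
PROOF. `M, c` as in ACV (`happ`). From `|hp - h| ≤ δ = 1/(n+1)`: `|B_n - B|, |g_n - g| ≤ δ`, so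
`|g_n| ≤ Γ B + δ ≤ Γ B_n + (Γ+1) δ ≤ (Γ + (Γ+1) δ/m) B_n`, `m = inf B`. Replace `c` by `c' = evc c + ρ odc c`,
`ρ = Γ/(Γ + (Γ+1) δ/m) ∈ (0,1]`, `ρ → 1`: `hp M c' = Bh (hp M c) + ρ gh (hp M c)` (HPB), `Bh (hp M c') = Bh (hp M c)`,
`gh (hp M c') = ρ gh (hp M c)`. `RP M c'`: with `r = hp M c + hp M (dk (dk c)) > 0`, `r(θ) = r_B(θ) + r_g(θ)` and
`r(θ+π) = r_B(θ) - r_g(θ)`, so `r_B > |r_g|` and `r_B + ρ r_g > 0`. `|hp M (dk c')| ≤ 2Λ`. `|hp M c' - h| ≤ δ + (1-ρ) S → 0`.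
The rest is the limit argument of ACV (with `Λ' = 2Λ + Mx + S`). -/
def SpecAC2 : Prop :=
  ∀ (h : ℝ → ℝ) (Λ Γ : ℝ), 0 ≤ Λ → 0 < Γ → (∀ θ θ', |h θ - h θ'| ≤ Λ * |θ - θ'|) →
    (∀ θ, h (θ + 2 * π) = h θ) → (∀ θ, 0 < Bh h θ) →
    (∀ φ α, 2 * cos α * h φ ≤ h (φ + α) + h (φ - α)) → (∀ θ, |gh h θ| ≤ Γ * Bh h θ) →
    ∃ (M : ℕ → ℕ) (c : ℕ → ℕ → ℂ), (∀ n, RP (M n) (c n)) ∧
      (∀ n θ, (⨅ s : ℝ, Bh h s) ≤ Bh (hp (M n) (c n)) θ) ∧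
      (∀ n θ, Bh (hp (M n) (c n)) θ ≤ ⨆ s : ℝ, Bh h s) ∧
      (∀ n θ, |gh (hp (M n) (c n)) θ| ≤ Γ * Bh (hp (M n) (c n)) θ) ∧
      ∀ (F : ℝ → ℝ → ℝ → ℝ) (G : ℝ → ℝ),
        ContinuousOn (fun x : ℝ × ℝ × ℝ => F x.1 x.2.1 x.2.2) {x | 0 < x.2.1} → Continuous G →
        IntervalIntegrable (fun t => F t (Bh h t) (gh h t) * IG G h t) volume 0 (2 * π) ∧
        Tendsto (fun n => ∫ t in (0 : ℝ)..(2 * π), F t (Bh (hp (M n) (c n)) t)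
          (gh (hp (M n) (c n)) t) * IG G (hp (M n) (c n)) t) atTop
          (𝓝 (∫ t in (0 : ℝ)..(2 * π), F t (Bh h t) (gh h t) * IG G h t))

/-- **KPD** (200 lines, copy of `AY/KPC.lean` with AC2 instead of ACV; no `Γ0`). -/
def SpecKPD : Prop :=
  ∀ (n : ℕ) (ω : Fin n → ℝ → ℝ → ℝ → ℝ) (G G1 G2 : Fin n → ℝ → ℝ) (N : Dt → ℝ) (Γ v1 v2 : ℝ),
    0 < Γ → 0 < v1 →
    (∀ i, Continuous (fun x : ℝ × ℝ × ℝ => ω i x.1 x.2.1 x.2.2)) → (∀ i, Continuous (G i)) →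
    (∀ i x, HasDerivAt (G1 i) (G i x) x) → (∀ i x, HasDerivAt (G2 i) (G1 i x) x) → Nul N →
    KerIneq n ω G2 N Γ v1 v2 →
    ∀ P : Set (ℝ × ℝ), CC P → (∀ θ, 0 < wid P θ) →
      (∀ t, v1 ≤ 1 / (wid P t / 2) ^ 2 ∧ 1 / (wid P t / 2) ^ 2 ≤ v2) →
      (∀ t, |gc P t| ≤ Γ) →
      (∀ i, IntervalIntegrable (fun t => ω i (cos t / (wid P t / 2)) (sin t / (wid P t / 2)) (gc P t) /
        (wid P t / 2) ^ 2 * ∫ p in P, G i ((dotu t p - mid P t) / (wid P t / 2))) volume 0 (2 * π)) ∧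
      0 ≤ ∑ i, ∫ t in (0 : ℝ)..(2 * π), ω i (cos t / (wid P t / 2)) (sin t / (wid P t / 2)) (gc P t) /
        (wid P t / 2) ^ 2 * ∫ p in P, G i ((dotu t p - mid P t) / (wid P t / 2))

/-! ## II. Centroid-Legendre position -/

/-- **DAT** (120 lines, from BNA, XMC, `LG` CNT, `CW` WB2). Everything known on the data. `v + 3γ² = xm ≤ 1` (BNA, XMC) and
`3γ² ≤ 2v - 1` give `9γ² ≤ 1`. `Rm = qf/area - κ - Sf (v + 3γ²)` is continuous (CNT). -/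
def SpecDAT : Prop :=
  ∀ P : Set (ℝ × ℝ), IsoC P →
    Continuous (xf P) ∧ Continuous (gc P) ∧ Continuous (Rm P) ∧
    ∀ s, xf P (s + π) = xf P s ∧ gc P (s + π) = -gc P s ∧ Rm P (s + π) = Rm P s ∧
      xm P s = xf P s + 3 * gc P s ^ 2 ∧ 1 / 2 ≤ xf P s ∧ xf P s + 3 * gc P s ^ 2 ≤ 1 ∧
      3 * gc P s ^ 2 ≤ 2 * xf P s - 1 ∧ |gc P s| ≤ 1 / 3 ∧
      (3 * π / 4 - 4 / 3 - kap - 1 / 8) - (π / 2 - 3 / 2) * (xf P s + 3 * gc P s ^ 2) ≤ Rm P s ∧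
      ∀ l ∈ bandQ, Rm P s ≤ (l.1 : ℝ) * (xf P s + 3 * gc P s ^ 2) + (l.2 : ℝ)

/-- One side of the kernel of the functional `∫ v (ω ∫_P F(τ)/area + Φ)` with the multipliers `μ1` (centroid) and `μ2`
(Legendre): `ω kk_F + (Φ + μ1 γ + μ2 (γ² - v/3)) kk_1 + (μ1 + 2γ μ2) kk_τ + μ2 kk_{τ²}`, `v = x1² + x2²`. -/
noncomputable def KT (ω Φ μ1 μ2 : ℝ → ℝ → ℝ → ℝ) (F2 : ℝ → ℝ) (d : Dt) : ℝ :=
  ω d.x1 d.x2 d.gt * kk F2 d.a d.e +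
    (Φ d.x1 d.x2 d.gt + μ1 d.x1 d.x2 d.gt * d.gt +
      μ2 d.x1 d.x2 d.gt * (d.gt ^ 2 - (d.x1 ^ 2 + d.x2 ^ 2) / 3)) * (1 - d.a ^ 2 - d.e ^ 2) -
    (μ1 d.x1 d.x2 d.gt + 2 * d.gt * μ2 d.x1 d.x2 d.gt) * ((d.e ^ 3 + 3 * d.a ^ 2 * d.e) / 3) +
    μ2 d.x1 d.x2 d.gt * ((1 - d.a ^ 4 - 6 * d.a ^ 2 * d.e ^ 2 - d.e ^ 4) / 6)

/-- **TIN** (200 lines, from KPD, DAT, XMC, PRF). Kernel certificate to integral inequality, in centroid-Legendre position.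
KPD with `n = 4`, `Γ = 1/3`, `v1 = 1/2`, `v2 = 1`, `G = F, 1, τ, τ²`, `G2 = F2, x²/2, x³/6, x⁴/12` and the weights
`ω`, `Φ + μ1 γ + μ2 (γ² - v/3)`, `μ1 + 2 γ μ2`, `μ2`. `kk (x²/2) = 1 - a² - e²`, `kk (x³/6) = -(e³ + 3a²e)/3`,
`kk (x⁴/12) = (1 - a⁴ - 6a²e² - e⁴)/6`. For `P`: `∫_P 1 = area`, `∫_P τ = -γ area` (centroid `0`), `∫_P τ² = area xm/3`,
`xm = v + 3γ²`: the `μ1`, `μ2` terms cancel. `d.sw` has `kk F2 (-b) f = kk F2 b f`. Divide by `area`. -/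
def SpecTIN : Prop :=
  ∀ (ω Φ μ1 μ2 : ℝ → ℝ → ℝ → ℝ) (F F1 F2 : ℝ → ℝ) (N : Dt → ℝ),
    Continuous (fun x : ℝ × ℝ × ℝ => ω x.1 x.2.1 x.2.2) →
    Continuous (fun x : ℝ × ℝ × ℝ => Φ x.1 x.2.1 x.2.2) →
    Continuous (fun x : ℝ × ℝ × ℝ => μ1 x.1 x.2.1 x.2.2) →
    Continuous (fun x : ℝ × ℝ × ℝ => μ2 x.1 x.2.1 x.2.2) → Continuous F →
    (∀ x, HasDerivAt F1 (F x) x) → (∀ x, HasDerivAt F2 (F1 x) x) → Nul N →
    (∀ d : Dt, Dom (1 / 3) (1 / 2) 1 d →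
      0 ≤ KT ω Φ μ1 μ2 F2 d + KT ω Φ μ1 μ2 F2 d.sw + N d + N d.sw) →
    ∀ P : Set (ℝ × ℝ), IsoC P →
      0 ≤ ∫ s in (0 : ℝ)..(2 * π), xf P s *
        (ω (cos s / (wid P s / 2)) (sin s / (wid P s / 2)) (gc P s) *
          ((∫ p in P, F ((dotu s p - mid P s) / (wid P s / 2))) / area P) +
        Φ (cos s / (wid P s / 2)) (sin s / (wid P s / 2)) (gc P s))

/-- Parameters of a generator. -/
structure GP where
  rc : ℝ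
  rs : ℝ
  aS : ℝ
  aR : ℝ
  C : ℝ
  l : ℝ
  m : ℝ
  eps : ℝ
  k : ℝ

/-- `Y = <D,u>/h`, as a function of `v = 1/h²`. -/
noncomputable def YY (D1 D2 : ℝ) (v : ℝ → ℝ) (s : ℝ) : ℝ := √(v s) * (D1 * cos s + D2 * sin s)

/-- The integral of the generator `g` with displacement `D`. -/
noncomputable def GI (g : GP) (D1 D2 : ℝ) (v γ R : ℝ → ℝ) : ℝ :=
  ∫ s in (0 : ℝ)..(2 * π), v s * (1 - (g.rc * cos s ^ 2 + g.rs * sin s ^ 2) * v s) *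
    (g.aS * Sf (v s + 3 * γ s ^ 2) + g.aR * R s + g.C * γ s ^ 2 + g.l * (γ s * YY D1 D2 v s) +
      g.m * YY D1 D2 v s ^ 2 + g.eps - g.k * (v s + 3 * γ s ^ 2 - 3 / 4) ^ 2)

/-- The generator `g` is valid. -/
def GV8 (g : GP) : Prop :=
  ∀ P : Set (ℝ × ℝ), IsoC P → ∀ D1 D2 : ℝ, 0 ≤ GI g D1 D2 (xf P) (gc P) (Rm P)

/-- Data of a body in centroid-Legendre position, generators `T`. -/
structure LgC (T : Set GP) (v γ R : ℝ → ℝ) : Prop where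
  cv : Continuous v
  cg : Continuous γ
  cR : Continuous R
  pv : ∀ s, v (s + π) = v s
  pg : ∀ s, γ (s + π) = -γ s
  pR : ∀ s, R (s + π) = R s
  v1 : ∀ s, 1 / 2 ≤ v s
  x1 : ∀ s, v s + 3 * γ s ^ 2 ≤ 1
  g1 : ∀ s, 3 * γ s ^ 2 ≤ 2 * v s - 1
  lo : ∀ s, (3 * π / 4 - 4 / 3 - kap - 1 / 8) - (π / 2 - 3 / 2) * (v s + 3 * γ s ^ 2) ≤ R s
  hi : ∀ l ∈ bandQ, ∀ s, R s ≤ (l.1 : ℝ) * (v s + 3 * γ s ^ 2) + (l.2 : ℝ)
  gen : ∀ g ∈ T, ∀ D1 D2 : ℝ, 0 ≤ GI g D1 D2 v γ R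

/-- **ARE** (120 lines, from PRF, DAT, WB2). The area. UPPER: `∫_P (|p|² - 4/3) = 2/3 area - 4/3 area ≥ ∫_{|p|² ≤ 4/3} (|p|² - 4/3)
= -8π/9` (for every measurable `P`: the integrand is negative exactly on the disc). LOWER: let `p, q ∈ P` with
`dotu s (p - q) = wid P s` (WB2), `|p - q| ≥ wid P s = 2h(s)`; `t` the direction orthogonal to `p - q`. By convexity the slices of `P`
orthogonal to `t` have length `≥ |p-q| (1 - |τ - τ0|/(1 + |τ0|))` at relative position `τ` (cone over `[p,q]` with a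
point of `P` on each of the two supporting lines), so `area ≥ h(t) |p - q| ≥ 1 · 2 h(s)` (`h(t) ≥ 1` as `v ≤ 1`). -/
def SpecARE : Prop :=
  ∀ P : Set (ℝ × ℝ), IsoC P → 3 * area P ≤ 4 * π ∧ ∀ s, wid P s ≤ area P

/-! ## III. The planar functional -/

/-- The integrand in the data: `n = A cos² + B sin²`, `y = 1/√(n v)`, `M = mu √A √B/area`. -/
noncomputable def JQ (W L : ℝ → ℝ) (M n v γ R Y E : ℝ) : ℝ :=
  1 / n * (kap * (GV W L (1 / √(n * v)) (γ - Y) - 1) + W (1 / √(n * v)) * (Sf (v + 3 * γ ^ 2) + R) +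
    L (1 / √(n * v)) * (γ - Y) * γ) + M / (n ^ 2 * v) * ((γ - Y) ^ 2 - 8 / 5 * (γ - E) ^ 2)

/-- The inequality for the data. The vector `(E1, E2)` may depend on the body. -/
def CERQ (T : Set GP) (W L : ℝ → ℝ) (mu b0 : ℝ) : Prop :=
  ∀ v γ R : ℝ → ℝ, LgC T v γ R → ∀ A B : ℝ, 1 / 4 ≤ A → A ≤ B → B ≤ 2 / b0 ^ 2 →
    (∀ s, 1 / 4 ≤ nn A B s * v s ∧ nn A B s * v s ≤ 1 / b0 ^ 2) →
    ∀ D1 D2 : ℝ, (∀ s, |γ s - YY D1 D2 v s| ≤ 1) →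
    ∀ M : ℝ, 3 * (mu * (√A * √B)) ≤ 4 * π * M → (∀ s, 2 * M ≤ mu * (√A * √B) * √(v s)) →
    ∃ E1 E2 : ℝ, 0 ≤ ∫ s in (0 : ℝ)..(2 * π),
      JQ W L M (nn A B s) (v s) (γ s) (R s) (YY D1 D2 v s) (YY E1 E2 v s)

/-- **PLQ** (250 lines, from CEN, TRA, DAT, ARE, XMC, `LG` AFQ, ACV, CNT, WB2; copy of `LG/PLN.lean`). The planar theorem.
CEN: `P = (fun q => q + w) '' (lm t0 a b' '' P')`. `A = (b/a)²`, `B = (b/b')²`; bounds as in PLN (`1 ≤ wid P'/2 ≤ √2`).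
`o = w + lm t0 a b' D'`, `D = D'` (`o` is given: `D'` = the preimage), `dotu (t0+θ) (lm D') = e dotu s D'` (AFQ for the point), so at
`t = t0 + thf A B s`, `e = b/√n`: `wid P t/2/b = 1/√(n v)`, `(mid P t - dotu t o)/(wid P t/2) = γ - YY D1 D2 v`,
`qf P t/area P = κ + Sf (v + 3γ²) + R`, `mf P t = -area P γ`. The payment:
`∫ g3f (mid P)² ≤ ∫ (mid P - dotu t c)²` for every `c` (`g3f` is the orthogonal projection; here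
`c = w + lm t0 a b' E`): `∫ (mid - dotu o)² - 8/5 ∫ (mid - dotu c)² = ∫ h² ((γ-Y)² - 8/5 (γ - YY E1 E2 v)²)`, `h² = b²/(n v)`.
`area P = a b' area P' = b² area P'/(√A √B)`. ACV (`LG`):
`PVf W L mu 0 b P o ≥ area P √A √B ∫ JQ`, `M = mu √A √B/area P'`; ARE gives the bounds on `M` (`wid P' s = 2/√v`). Continuity of the
integrand for ACV: `W, L` are continuous on `[b0,2]`, the values `y` lie there. -/
def SpecPLQ : Prop :=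
  ∀ (T : Set GP) (W L : ℝ → ℝ) (mu b0 : ℝ), 0 < b0 → b0 ≤ 1 → 0 ≤ mu → (∀ g ∈ T, GV8 g) →
    ContinuousOn W (Icc b0 2) → ContinuousOn L (Icc b0 2) → CERQ T W L mu b0 →
    ∀ P : Set (ℝ × ℝ), CC P → 0 < area P → ∀ b : ℝ, 0 < b →
      (∀ t, b0 * b ≤ wid P t / 2) → (∀ t, wid P t / 2 ≤ 2 * b) →
      ∀ o : ℝ × ℝ, (∀ t, |mid P t - dotu t o| ≤ wid P t / 2) → 0 ≤ PVf W L mu 0 b P o

end Pool.Agent.Lib.MP_084b88_gt.AY
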