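import Pool.Agent.Lib.MP_084b88_gt.CW.SpecM

/-!
# MP_084b88_gt, project AY, part T: thin bodies

Q1 holds for every convex body whose minimal width is at most `7/100` of the mean width.
-/

set_option autoImplicit false

open MeasureTheory Set Real Filter Topology
open scoped Pointwise InnerProductSpace

namespace Pool.Agent.Lib.MP_084b88_gt.AY

open Pool.Agent.Lib.MP_084b88_gt.CW

/-- Half width of `K` in direction `u`. -/
noncomputable def bw (K : Set E3) (u : E3) : ℝ := (HS K u + HS K (-u)) / 2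

/-- `∫_0^π A(K | v_θ^⊥) dθ`, the `v_θ` orthogonal to `u = col R 2`. -/
noncomputable def tt (K : Set E3) (R : O3) : ℝ := ∫ θ in (0 : ℝ)..π, area (pr (R * cyc θ) K)

/-- **THA** (from MIX, AVH, CIR, MEA). For unit `n` and `s = √(1-<n,u>²)` the mean of `√(1-<n,w>²)` over the unit
vectors `w ⟂ u` is at least `1 - (1-2/π) s`: `√(1 - s² cos² φ) ≥ (1-s) + s |sin φ|`. By MIX the same holds for
projection areas. -/
def SpecTHA : Prop :=
  ∀ μ : Measure O3, HaarO μ → ∀ K : Set E3, CC K → (interior K).Nonempty → ∀ R : O3,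
    4 * (∫ S, area (pr S K) ∂μ) ≤
      1 / (2 * π) * (∫ φ in (0 : ℝ)..(2 * π), tt K (R * cyc φ)) + (1 - 2 / π) * tt K R ∧
    IntervalIntegrable (fun φ => tt K (R * cyc φ)) volume 0 (2 * π) ∧ 0 ≤ tt K R

/-- **THB** (from AVH, CIR, MEA). The mean half width is at least `π/4` times the mean half width in the directions
orthogonal to `u`: `B(x) + B(x') ≥ 2 B(Px)`, `x'` the reflected point, and `E |Px| = π/4`. -/
def SpecTHB : Prop :=
  ∀ μ : Measure O3, HaarO μ → ∀ K : Set E3, CC K → (interior K).Nonempty → ∀ R : O3,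
    π / 4 * (1 / (2 * π) * ∫ φ in (0 : ℝ)..(2 * π), bw K (col (R * cyc φ) 2)) ≤
      ∫ S, wid (pr S K) 0 / 2 ∂μ

/-- **THF** (from THA, THB, ONE, MEA). Thin bodies. -/
def SpecTHF : Prop :=
  ∀ μ : Measure O3, HaarO μ → ∀ K : Set E3, CC K → (interior K).Nonempty →
    (∃ R : O3, wid (pr R K) 0 / 2 ≤ 7 / 100 * ∫ S, wid (pr S K) 0 / 2 ∂μ) → ∀ c : ℝ, Q1 K c

end Pool.Agent.Lib.MP_084b88_gt.AY
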