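import Pool.Agent.Lib.MP_084b88_gt.AY.SpecR

/-!
# MP_084b88_gt, project AY, part U: kernel certificates for the functionals `S` and `R` (all powers)

`1 - √(1-y) = ∑ c_k y^{k+1}`, `c_k = tcf k > 0`: 1/2, 1/8, 1/16, 5/128, ... The functional `qf/area - κ` is
`∑ c_k (μ_{k+1} - avg τ^{2k+2})`; `S` is the term `k = 0`, `R` the rest. The terms `k < K0` are used exactly, for `k ≥ K0`
the kernel is bounded below by its part of degree `≤ 2` in `e`; the part with `e = 0` is the kernel of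
project SY, nonnegative for every power after subtraction of null forms (positive semidefinite forms `Q ≤ 4/5`); the parts `e²` are
summed: `∑_{k ≥ K0} c_k (a^{2k+2} - μ_{k+1}) = κ - √(1-a²) - ∑_{k < K0} ..`, and `√(1-a²) ≤ U(a²)`.

Rules: file `AY/XXX.lean`, `import Pool.Agent.Lib.MP_084b88_gt.AY.SpecU`, namespace
`Pool.Agent.Lib.MP_084b88_gt.AY`, `theorem specXXX (hYYY : SpecYYY) .. : SpecXXX`, own lemmas in the namespace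
`..AY.XXXM`. Every Spec of CW, SY, LG (not CERT), PC, AY/Spec, SpecS, SpecP, SpecQ, SpecR may be a hypothesis.
-/

set_option autoImplicit false

open MeasureTheory Set Real Filter Topology
open scoped Pointwise InnerProductSpace

namespace Pool.Agent.Lib.MP_084b88_gt.AY

open Pool.Agent.Lib.MP_084b88_gt.CW Pool.Agent.Lib.MP_084b88_gt.SY Pool.Agent.Lib.MP_084b88_gt.LG

/-- `1 - √(1-y) = ∑ tcf k y^{k+1}`. -/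
noncomputable def tcf : ℕ → ℝ
  | 0 => 1 / 2
  | k + 1 => tcf k * ((2 * (k : ℝ) + 1) / (2 * (k : ℝ) + 4))

/-- **SMT** (120 lines, from SY WAL). The power series converges uniformly on `[0,1]`.
`p_N = ∏_{i<N} (2i+1)/(2i+2)`. (1) `tcf N = p_N/(2N+2)`, so `∑_{k<N} tcf k = 1 - p_N` (induction), `p_N² ≤ 1/(2N+1)` (induction).
(2) `S(y) = ∑_{k<N} tcf k y^{k+1}` satisfies `2(1-y) S' + S - 1 = -p_N y^N` (`N ≥ 1`; telescoping: `2(k+2) tcf (k+1) = (2k+1) tcf k`,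
`(2N-1) tcf (N-1) = p_N`). (3) on `[0,1)`: `(1-S)/√(1-y)` has the derivative `p_N y^N/(2 (1-y)^{3/2}) ≥ 0` and value `1` at `0`, so
`S ≤ f = 1 - √(1-y)`. `D = p_N y^N - (f - S)` satisfies `(D/√(1-y))' = N p_N y^{N-1}/√(1-y) ≥ 0`, `D(0) = 0`, so
`f - S ≤ p_N y^N ≤ p_N`; `y = 1` by continuity. (4) Second claim: by WAL `∑ tcf k μ_{k+1} = (2/π) ∫_{-1}^1 S(x²) √(1-x²) dx`, which differs
from `(2/π) ∫ (1 - √(1-x²)) √(1-x²) dx = 1 - κ` by at most `p_N` (as in SEM). -/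
def SpecSMT : Prop :=
  (∀ k, 0 < tcf k) ∧ ∀ ε : ℝ, 0 < ε → ∃ N0 : ℕ, ∀ N : ℕ, N0 ≤ N →
    (∀ y ∈ Icc (0 : ℝ) 1, |(1 - √(1 - y)) - ∑ k ∈ Finset.range N, tcf k * y ^ (k + 1)| ≤ ε) ∧
    |(∑ k ∈ Finset.range N, tcf k * mu (k + 1)) - (1 - kap)| ≤ ε

/-- Second antiderivative of `μ_n - τ^{2n}`. -/
noncomputable def gp (n : ℕ) (x : ℝ) : ℝ :=
  mu n * x ^ 2 / 2 - x ^ (2 * n + 2) / ((2 * (n : ℝ) + 1) * (2 * (n : ℝ) + 2))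

/-- **KEB** (60 lines). `(e+a)^{2m} + (e-a)^{2m} ≥ 2 a^{2m} + 2m(2m-1) a^{2m-2} e²`, `m = n+1` (binomial theorem, all terms are
`≥ 0`; or twice differentiate in `e`: `(e+a)^{2n} + (e-a)^{2n} ≥ 2 a^{2n}`), and `1/((2n+1)(n+1)) = μ_n w_n`. -/
def SpecKEB : Prop :=
  ∀ (n : ℕ) (a e : ℝ), mu n / 2 * gN n a + (a ^ (2 * n) - mu n) * e ^ 2 ≤ kk (gp n) a e

/-- The weight `ψ = 1 - (rc x1² + rs x2²)`. -/
noncomputable def psQ (rc rs x1 x2 : ℝ) : ℝ := 1 - (rc * x1 ^ 2 + rs * x2 ^ 2)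

/-- **TTN** (150 lines, from `SY` ALG, POS, AY NQA). The symmetric kernels. `p = rc x1² + rs x2²`, `q = rc y1² + rs y2²`,
`c = rc x1 y1 + rs x2 y2`; `XX n 1 a b p q c = (1-p) gN n a - NS ..`, and `NS` (with `G, 2α, 2β, 2γ`) is a sum of `NQ` with
the functions `GN n`, `2 rc AN n`, .. and the monomials `1`, `y1²`, `y2²`, `x1 y1`, `x2 y2`, `x1²`, `x2²` (third case of NQA, ALG.bnd, ALG.der):
take `N = -(μ_n/2) NS`. `d.sw` changes `(a,b,p,q,c)` into `(-b,-a,q,p,-c)`: ALG.parX, ALG.idn, POS (`c² ≤ pq`: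
Cauchy-Schwarz; `p ≤ 4/5 |x|² ≤ 4/5`). `|a|, |b| ≤ 1` from `Dom`. -/
def SpecTTN : Prop :=
  ∀ (n : ℕ) (rc rs : ℝ), 0 ≤ rc → rc ≤ 4 / 5 → 0 ≤ rs → rs ≤ 4 / 5 →
    ∃ N : Dt → ℝ, Nul N ∧ ∀ d : Dt, Dom (1 / 3) (1 / 2) 1 d →
      0 ≤ psQ rc rs d.x1 d.x2 * (mu n / 2 * gN n d.a) + psQ rc rs d.y1 d.y2 * (mu n / 2 * gN n d.b) +
        N d + N d.sw

/-- The exact head: `aS` times the kernel of `1/8 - τ²/2`, `aR` times the kernels of the powers `4, .., 2 K0`. -/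
noncomputable def hdk (K0 : ℕ) (aS aR a e : ℝ) : ℝ :=
  aS * (tcf 0 * kk (gp 1) a e) + aR * ∑ k ∈ Finset.Ico 1 K0, tcf k * kk (gp (k + 1)) a e

/-- The coefficient of `e²` of the tail, `κ0 < κ`. -/
noncomputable def etl (K0 : ℕ) (κ0 : ℝ) (U : ℝ → ℝ) (a : ℝ) : ℝ :=
  κ0 - U (a ^ 2) - ∑ k ∈ Finset.range K0, tcf k * (a ^ (2 * (k + 1)) - mu (k + 1))

/-- The part of one side of the kernel with `Φ` and the multipliers. -/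
noncomputable def mlt (Φ μ1 μ2 : ℝ → ℝ → ℝ → ℝ) (d : Dt) : ℝ :=
  (Φ d.x1 d.x2 d.gt + μ1 d.x1 d.x2 d.gt * d.gt +
      μ2 d.x1 d.x2 d.gt * (d.gt ^ 2 - (d.x1 ^ 2 + d.x2 ^ 2) / 3)) * (1 - d.a ^ 2 - d.e ^ 2) -
    (μ1 d.x1 d.x2 d.gt + 2 * d.gt * μ2 d.x1 d.x2 d.gt) * ((d.e ^ 3 + 3 * d.a ^ 2 * d.e) / 3) +
    μ2 d.x1 d.x2 d.gt * ((1 - d.a ^ 4 - 6 * d.a ^ 2 * d.e ^ 2 - d.e ^ 4) / 6)

/-- One side of the kernel of the certificate. -/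
noncomputable def KQ (K0 : ℕ) (rc rs aS aR κ0 : ℝ) (U : ℝ → ℝ) (Φ μ1 μ2 : ℝ → ℝ → ℝ → ℝ) (d : Dt) : ℝ :=
  psQ rc rs d.x1 d.x2 * (hdk K0 aS aR d.a d.e + aR * (etl K0 κ0 U d.a * d.e ^ 2)) + mlt Φ μ1 μ2 d

/-- **KRN** (250 lines, from TIN, SMT, KEB, TTN, DAT, XMC). Certificate for `∫ v (ψ (aS S + aR R) + Φ) ≥ 0`, positive semidefinite `Q`.
For `N ≥ K0` let `F_N = aS tcf 0 (μ_1 - τ²) + aR ∑_{1 ≤ k < N} tcf k (μ_{k+1} - τ^{2k+2})`, TIN with `ω = ψ`, `F2` the corresponding sum of `gp` and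
the null form `N0 + aR ∑_{K0 ≤ k < N} tcf k N_{k+1}` (TTN; finite sums of `Nul` are `Nul`). Pointwise: for `k ≥ K0` KEB, the parts `gN` are paid
by TTN, and `∑_{K0 ≤ k < N} tcf k (a^{2k+2} - μ_{k+1}) ≥ etl K0 κ0 U a` for large `N`: by SMT with `ε = (κ - κ0)/2` it is
`≥ κ - √(1-a²) - 2ε - ∑_{k<K0} ..`. (`ψ ≥ 1/5 > 0`, `e² ≥ 0`.) So `0 ≤ ∫ v (ψ (∫_P F_N/area) + Φ)` for large `N`, and
`|∫_P F_N/area - (aS S(xm) + aR Rm)| ≤ 2 aR ε'` (`avg τ² = xm/3`, `aS tcf 0 (μ_1 - xm/3) = aS S(xm)`,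
`Rm = avg √(1-τ²) - κ - S(xm)`); let `N → ∞`. -/
def SpecKRN : Prop :=
  ∀ (K0 : ℕ) (rc rs aS aR κ0 : ℝ) (U : ℝ → ℝ) (Φ μ1 μ2 : ℝ → ℝ → ℝ → ℝ) (N : Dt → ℝ), 1 ≤ K0 →
    0 ≤ rc → rc ≤ 4 / 5 → 0 ≤ rs → rs ≤ 4 / 5 → 0 ≤ aS → 0 ≤ aR → κ0 < kap →
    (∀ y ∈ Icc (0 : ℝ) 1, √(1 - y) ≤ U y) →
    Continuous (fun x : ℝ × ℝ × ℝ => Φ x.1 x.2.1 x.2.2) →
    Continuous (fun x : ℝ × ℝ × ℝ => μ1 x.1 x.2.1 x.2.2) →
    Continuous (fun x : ℝ × ℝ × ℝ => μ2 x.1 x.2.1 x.2.2) → Nul N →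
    (∀ d : Dt, Dom (1 / 3) (1 / 2) 1 d →
      0 ≤ KQ K0 rc rs aS aR κ0 U Φ μ1 μ2 d + KQ K0 rc rs aS aR κ0 U Φ μ1 μ2 d.sw + N d + N d.sw) →
    ∀ P : Set (ℝ × ℝ), IsoC P →
      0 ≤ ∫ s in (0 : ℝ)..(2 * π), xf P s *
        ((1 - (rc * cos s ^ 2 + rs * sin s ^ 2) * xf P s) * (aS * Sf (xm P s) + aR * Rm P s) +
        Φ (cos s / (wid P s / 2)) (sin s / (wid P s / 2)) (gc P s))

end Pool.Agent.Lib.MP_084b88_gt.AY
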