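import Pool.Agent.Lib.MP_084b88_gt.AY.SpecV

/-!
# MP_084b88_gt, project AY, part X: KRI with the full even part in `e` of the tail

`∑_{k ≥ K0} c_k (kk (gp (k+1)) a e - kk (gp (k+1)) a 0) = ∫_{-e}^e (e - |u|) ∑ c_k ((a+u)^{2k+2} - μ_{k+1}) du`, and the sum is at
least `etl K0 κ0 U (a+u)`. With `E2'' = etl K0 κ0 U` this is `≥ E2 (a+e) + E2 (a-e) - 2 E2 a`.
-/

set_option autoImplicit false

open MeasureTheory Set Real Filter Topology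
open scoped Pointwise InnerProductSpace

namespace Pool.Agent.Lib.MP_084b88_gt.AY

open Pool.Agent.Lib.MP_084b88_gt.CW Pool.Agent.Lib.MP_084b88_gt.SY Pool.Agent.Lib.MP_084b88_gt.LG

/-- One side of the kernel of the certificate. -/
noncomputable def KR (K0 : ℕ) (rc rs aS aR : ℝ) (E2 : ℝ → ℝ) (Φ μ1 μ2 : ℝ → ℝ → ℝ → ℝ) (d : Dt) : ℝ :=
  psQ rc rs d.x1 d.x2 * (hdk K0 aS aR d.a d.e + aR * (E2 (d.a + d.e) + E2 (d.a - d.e) - 2 * E2 d.a)) +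
    mlt Φ μ1 μ2 d

/-- **KRJ** (from TIN, SMT, KEB, TTE, DAT, WB2; proof of KRI). -/
def SpecKRJ : Prop :=
  ∀ (K0 : ℕ) (rc rs aS aR κ0 : ℝ) (U E1 E2 : ℝ → ℝ) (Φ μ1 μ2 : ℝ → ℝ → ℝ → ℝ) (N TL : Dt → ℝ), 1 ≤ K0 →
    rc ≤ 4 / 5 → rs ≤ 4 / 5 → 0 ≤ aS → 0 ≤ aR → κ0 < kap →
    (∀ y ∈ Icc (0 : ℝ) 1, √(1 - y) ≤ U y) →
    (∀ x, HasDerivAt E2 (E1 x) x) → (∀ x, HasDerivAt E1 (etl K0 κ0 U x) x) →
    Continuous (fun x : ℝ × ℝ × ℝ => Φ x.1 x.2.1 x.2.2) →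
    Continuous (fun x : ℝ × ℝ × ℝ => μ1 x.1 x.2.1 x.2.2) →
    Continuous (fun x : ℝ × ℝ × ℝ => μ2 x.1 x.2.1 x.2.2) → Nul N →
    (∃ N1 : ℕ, ∀ n : ℕ, N1 ≤ n → ∀ d : Dt, Dom (1 / 3) (1 / 2) 1 d →
      TL d ≤ aR * ∑ k ∈ Finset.Ico K0 n, tcf k * (mu (k + 1) * TTd (k + 1) rc rs d)) →
    (∀ d : Dt, Dom (1 / 3) (1 / 2) 1 d →
      0 ≤ KR K0 rc rs aS aR E2 Φ μ1 μ2 d + KR K0 rc rs aS aR E2 Φ μ1 μ2 d.sw + N d + N d.sw + TL d) →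
    ∀ P : Set (ℝ × ℝ), IsoC P →
      0 ≤ ∫ s in (0 : ℝ)..(2 * π), xf P s *
        ((1 - (rc * cos s ^ 2 + rs * sin s ^ 2) * xf P s) * (aS * Sf (xm P s) + aR * Rm P s) +
        Φ (cos s / (wid P s / 2)) (sin s / (wid P s / 2)) (gc P s))

end Pool.Agent.Lib.MP_084b88_gt.AY
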