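import Pool.Agent.Lib.MP_084b88_gt.AY.SpecT
import Pool.Agent.Lib.MP_084b88_gt.CW.AVH

/-!
# MP_084b88_gt, project AY, module THA
-/

set_option autoImplicit false

open MeasureTheory Set Real Filter Topology
open scoped Pointwise InnerProductSpace ENNReal

namespace Pool.Agent.Lib.MP_084b88_gt.AY

open Pool.Agent.Lib.MP_084b88_gt.CW

namespace THAM

theorem int_abs_cos_two (c : ℝ) : ∫ φ in (0 : ℝ)..(2 * π), |cos (φ - c)| = 4 := by
  have h1 : ∫ φ in (0 : ℝ)..π, |cos (φ - c)| = 2 := de2_int_abs_cos c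
  have h2 : ∫ φ in π..(2 * π), |cos (φ - c)| = 2 := by
    have h3 := intervalIntegral.integral_comp_add_right (fun φ => |cos (φ - c)|) (a := 0) (b := π) π
    rw [zero_add, ← two_mul] at h3
    rw [← h3]
    have h4 : (fun x : ℝ => |cos (x + π - c)|) = fun x => |cos (x - c)| := by
      funext x
      rw [show x + π - c = (x - c) + π by ring, cos_add_pi, abs_neg]
    rw [h4, h1]
  have hc : Continuous (fun φ : ℝ => |cos (φ - c)|) := by fun_prop
  rw [← intervalIntegral.integral_add_adjacent_intervals (hc.intervalIntegrable 0 π)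
    (hc.intervalIntegrable π (2 * π)), h1, h2]
  norm_num

/-- frame coordinates -/
theorem int_abs_Q (A0 A1 : ℝ) :
    ∫ φ in (0 : ℝ)..(2 * π), |cos φ * A0 + sin φ * A1| = 4 * √(A0 ^ 2 + A1 ^ 2) := by
  set z : ℂ := ⟨A0, A1⟩ with hz
  have e1 : ‖z‖ * cos (Complex.arg z) = A0 := by rw [Complex.norm_mul_cos_arg]
  have e2 : ‖z‖ * sin (Complex.arg z) = A1 := by rw [Complex.norm_mul_sin_arg]
  have h1 : ∀ φ : ℝ, |cos φ * A0 + sin φ * A1| = ‖z‖ * |cos (φ - Complex.arg z)| := by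
    intro φ
    have e3 : cos φ * A0 + sin φ * A1 = ‖z‖ * cos (φ - Complex.arg z) := by
      rw [cos_sub]
      linear_combination (-cos φ) * e1 - sin φ * e2
    rw [e3, abs_mul, abs_of_nonneg (norm_nonneg z)]
  simp only [h1]
  rw [intervalIntegral.integral_const_mul, int_abs_cos_two]
  have h2 : ‖z‖ = √(A0 ^ 2 + A1 ^ 2) := by
    rw [Complex.norm_def, Complex.normSq_apply]
    congr 1
    simp only [hz]
    ring
  rw [h2]
  ring

/-- the two measures -/
noncomputable def nu1 (R : O3) : Measure O3 :=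
  Measure.map (fun p : ℝ × ℝ => R * cyc p.1 * cyc p.2)
    ((volume.restrict (Ioc 0 (2 * π))).prod (volume.restrict (Ioc 0 π)))

noncomputable def nu2 (R : O3) : Measure O3 :=
  Measure.map (fun θ : ℝ => R * cyc θ) (volume.restrict (Ioc 0 π))

theorem cont1 (R : O3) : Continuous (fun p : ℝ × ℝ => R * cyc p.1 * cyc p.2) :=
  (continuous_const.mul (continuous_cyc.comp continuous_fst)).mul
    (continuous_cyc.comp continuous_snd)

theorem cont2 (R : O3) : Continuous (fun θ : ℝ => R * cyc θ) :=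
  continuous_const.mul continuous_cyc

instance (R : O3) : IsFiniteMeasure (nu1 R) := by
  unfold nu1
  have h1 : IsFiniteMeasure (volume.restrict (Ioc (0 : ℝ) (2 * π))) :=
    ⟨by rw [Measure.restrict_apply_univ, Real.volume_Ioc]; exact ENNReal.ofReal_lt_top⟩
  have h2 : IsFiniteMeasure (volume.restrict (Ioc (0 : ℝ) π)) :=
    ⟨by rw [Measure.restrict_apply_univ, Real.volume_Ioc]; exact ENNReal.ofReal_lt_top⟩
  infer_instance

instance (R : O3) : IsFiniteMeasure (nu2 R) := by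
  unfold nu2
  have h2 : IsFiniteMeasure (volume.restrict (Ioc (0 : ℝ) π)) :=
    ⟨by rw [Measure.restrict_apply_univ, Real.volume_Ioc]; exact ENNReal.ofReal_lt_top⟩
  infer_instance

theorem int_bdd {Ω : Type} [MeasurableSpace Ω] (ρ : Measure Ω) [IsFiniteMeasure ρ] {f : Ω → ℝ}
    (hf : Measurable f) (C : ℝ) (hC : ∀ x, |f x| ≤ C) : Integrable f ρ :=
  Integrable.of_bound hf.aestronglyMeasurable C (Eventually.of_forall hC)

theorem int_nu1 (R : O3) {f : O3 → ℝ} (hf : Measurable f) (C : ℝ) (hC : ∀ S, |f S| ≤ C) :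
    ∫ S, f S ∂(nu1 R) = ∫ φ in (0 : ℝ)..(2 * π), (∫ θ in (0 : ℝ)..π, f (R * cyc φ * cyc θ)) ∧
    IntervalIntegrable (fun φ => ∫ θ in (0 : ℝ)..π, f (R * cyc φ * cyc θ)) volume 0 (2 * π) := by
  have h1 : IsFiniteMeasure (volume.restrict (Ioc (0 : ℝ) (2 * π))) :=
    ⟨by rw [Measure.restrict_apply_univ, Real.volume_Ioc]; exact ENNReal.ofReal_lt_top⟩
  have h2 : IsFiniteMeasure (volume.restrict (Ioc (0 : ℝ) π)) :=
    ⟨by rw [Measure.restrict_apply_univ, Real.volume_Ioc]; exact ENNReal.ofReal_lt_top⟩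
  have hpi := pi_pos
  have hm : Measurable (fun p : ℝ × ℝ => f (R * cyc p.1 * cyc p.2)) :=
    hf.comp (cont1 R).measurable
  have hi : Integrable (fun p : ℝ × ℝ => f (R * cyc p.1 * cyc p.2))
      ((volume.restrict (Ioc 0 (2 * π))).prod (volume.restrict (Ioc 0 π))) :=
    int_bdd _ hm C (fun p => hC _)
  constructor
  · unfold nu1
    rw [integral_map (cont1 R).measurable.aemeasurable hf.aestronglyMeasurable,
      integral_prod _ hi, intervalIntegral.integral_of_le (by positivity)]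
    apply integral_congr_ae
    apply Filter.Eventually.of_forall
    intro φ
    simp only
    rw [intervalIntegral.integral_of_le hpi.le]
  · rw [intervalIntegrable_iff_integrableOn_Ioc_of_le (by positivity)]
    have h3 := hi.integral_prod_left
    have h4 : (fun φ : ℝ => ∫ θ in (0 : ℝ)..π, f (R * cyc φ * cyc θ)) =
        fun φ => ∫ θ, f (R * cyc φ * cyc θ) ∂(volume.restrict (Ioc 0 π)) := by
      funext φ
      rw [intervalIntegral.integral_of_le hpi.le]
    rw [h4]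
    exact h3

theorem int_nu2 (R : O3) {f : O3 → ℝ} (hf : Measurable f) :
    ∫ S, f S ∂(nu2 R) = ∫ θ in (0 : ℝ)..π, f (R * cyc θ) := by
  have hpi := pi_pos
  unfold nu2
  rw [integral_map (cont2 R).measurable.aemeasurable hf.aestronglyMeasurable,
    intervalIntegral.integral_of_le hpi.le]

theorem pi_bd : 0 ≤ 1 - 2 / π := by
  have := pi_gt_three
  rw [sub_nonneg, div_le_one pi_pos]
  linarith

/-- the combined measure -/
noncomputable def rho (R : O3) : Measure O3 :=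
  ENNReal.ofReal (1 / (2 * π)) • nu1 R + ENNReal.ofReal (1 - 2 / π) • nu2 R

instance (R : O3) : IsFiniteMeasure (rho R) := by
  unfold rho
  have h1 : IsFiniteMeasure (ENNReal.ofReal (1 / (2 * π)) • nu1 R) :=
    (nu1 R).smul_finite ENNReal.ofReal_ne_top
  have h2 : IsFiniteMeasure (ENNReal.ofReal (1 - 2 / π) • nu2 R) :=
    (nu2 R).smul_finite ENNReal.ofReal_ne_top
  infer_instance

theorem int_rho (R : O3) {f : O3 → ℝ} (hf : Measurable f) (C : ℝ) (hC : ∀ S, |f S| ≤ C) :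
    ∫ S, f S ∂(rho R) =
      1 / (2 * π) * (∫ φ in (0 : ℝ)..(2 * π), (∫ θ in (0 : ℝ)..π, f (R * cyc φ * cyc θ))) +
        (1 - 2 / π) * ∫ θ in (0 : ℝ)..π, f (R * cyc θ) := by
  unfold rho
  have h1 : Integrable f (nu1 R) := int_bdd _ hf C hC
  have h2 : Integrable f (nu2 R) := int_bdd _ hf C hC
  rw [integral_add_measure (h1.smul_measure ENNReal.ofReal_ne_top)
    (h2.smul_measure ENNReal.ofReal_ne_top), integral_smul_measure, integral_smul_measure,
    (int_nu1 R hf C hC).1, int_nu2 R hf, ENNReal.toReal_ofReal (by positivity),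
    ENNReal.toReal_ofReal pi_bd]
  simp only [smul_eq_mul]

theorem cont_abs (x : E3) : Continuous (fun R : O3 => |⟪col R 2, x⟫_ℝ|) :=
  ((continuous_col 2).inner continuous_const).abs

theorem abs_le' (x : E3) (R : O3) : |(|⟪col R 2, x⟫_ℝ|)| ≤ ‖x‖ := by
  rw [abs_abs]
  have h := norm_sq_frame R x
  apply abs_le_of_sq_le_sq _ (norm_nonneg x)
  nlinarith [sq_nonneg ⟪col R 0, x⟫_ℝ, sq_nonneg ⟪col R 1, x⟫_ℝ]

/-- the elementary lower bound -/
theorem root_ge (N s P Q : ℝ) (hs : 0 ≤ s) (hN : s ≤ N) (h : P ^ 2 + Q ^ 2 = s ^ 2) :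
    (N - s) + |Q| ≤ √(N ^ 2 - P ^ 2) := by
  apply Real.le_sqrt_of_sq_le
  have hQ : |Q| ≤ s := abs_le_of_sq_le_sq (by nlinarith [sq_nonneg P]) hs
  have hQ2 : |Q| ^ 2 = Q ^ 2 := sq_abs Q
  have h0 := abs_nonneg Q
  nlinarith [mul_nonneg (sub_nonneg.2 hN) (sub_nonneg.2 hQ)]

theorem key (hCIR : SpecCIR) (R : O3) (x : E3) :
    2 * ‖x‖ ≤ 1 / (2 * π) * (∫ φ in (0 : ℝ)..(2 * π),
        (∫ θ in (0 : ℝ)..π, |⟪col (R * cyc φ * cyc θ) 2, x⟫_ℝ|)) +
      (1 - 2 / π) * ∫ θ in (0 : ℝ)..π, |⟪col (R * cyc θ) 2, x⟫_ℝ| := by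
  have hpi := pi_pos
  rw [hCIR R x]
  have h0 : (fun φ : ℝ => ∫ θ in (0 : ℝ)..π, |⟪col (R * cyc φ * cyc θ) 2, x⟫_ℝ|) =
      fun φ => 2 * √(‖x‖ ^ 2 - ⟪col (R * cyc φ) 2, x⟫_ℝ ^ 2) := by
    funext φ
    rw [hCIR (R * cyc φ) x]
  rw [h0]
  set A0 := ⟪col R 0, x⟫_ℝ with hA0
  set A1 := ⟪col R 1, x⟫_ℝ with hA1
  set A2 := ⟪col R 2, x⟫_ℝ with hA2
  set N := ‖x‖ with hN
  have hfr : A0 ^ 2 + A1 ^ 2 + A2 ^ 2 = N ^ 2 := norm_sq_frame R x
  have hN0 : 0 ≤ N := norm_nonneg x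
  set s := √(N ^ 2 - A2 ^ 2) with hs
  have hs0 : 0 ≤ s := Real.sqrt_nonneg _
  have hs2 : s ^ 2 = A0 ^ 2 + A1 ^ 2 := by
    rw [hs, Real.sq_sqrt (by nlinarith [sq_nonneg A0, sq_nonneg A1])]
    linarith
  have hsN : s ≤ N := by
    rw [hs]
    apply Real.sqrt_le_iff.2 ⟨hN0, by nlinarith [sq_nonneg A2]⟩
  have hcol : ∀ φ : ℝ, ⟪col (R * cyc φ) 2, x⟫_ℝ = -sin φ * A0 + cos φ * A1 := by
    intro φ
    rw [col_cyc_two, inner_add_left, inner_smul_left, inner_smul_left]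
    simp only [RCLike.conj_to_real]
    rfl
  have hcont : Continuous (fun φ : ℝ => 2 * √(N ^ 2 - ⟪col (R * cyc φ) 2, x⟫_ℝ ^ 2)) := by
    simp only [hcol]
    fun_prop
  have hlow : ∫ φ in (0 : ℝ)..(2 * π), 2 * ((N - s) + |cos φ * A0 + sin φ * A1|) ≤
      ∫ φ in (0 : ℝ)..(2 * π), 2 * √(N ^ 2 - ⟪col (R * cyc φ) 2, x⟫_ℝ ^ 2) := by
    apply intervalIntegral.integral_mono_on (by positivity)
    · apply Continuous.intervalIntegrable
      fun_prop
    · exact hcont.intervalIntegrable _ _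
    · intro φ _
      apply mul_le_mul_of_nonneg_left _ (by norm_num)
      rw [hcol]
      apply root_ge N s _ _ hs0 hsN
      rw [hs2]
      have h1 := sin_sq_add_cos_sq φ
      linear_combination (A0 ^ 2 + A1 ^ 2) * h1
  have hval : ∫ φ in (0 : ℝ)..(2 * π), 2 * ((N - s) + |cos φ * A0 + sin φ * A1|) =
      2 * ((N - s) * (2 * π) + 4 * s) := by
    rw [intervalIntegral.integral_const_mul, intervalIntegral.integral_add
      (by apply Continuous.intervalIntegrable; fun_prop)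
      (by apply Continuous.intervalIntegrable; fun_prop), int_abs_Q, ← hs2,
      Real.sqrt_sq hs0, intervalIntegral.integral_const]
    simp only [sub_zero, smul_eq_mul]
    ring
  rw [hval] at hlow
  have h3 : 1 / (2 * π) * (2 * ((N - s) * (2 * π) + 4 * s)) ≤
      1 / (2 * π) * ∫ φ in (0 : ℝ)..(2 * π), 2 * √(N ^ 2 - ⟪col (R * cyc φ) 2, x⟫_ℝ ^ 2) :=
    mul_le_mul_of_nonneg_left hlow (by positivity)
  have h4 : 1 / (2 * π) * (2 * ((N - s) * (2 * π) + 4 * s)) + (1 - 2 / π) * (2 * s) = 2 * N := by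
    field_simp
    ring
  linarith

end THAM

open THAM in
theorem specTHA (hMIX : SpecMIX) (hAVH : SpecAVH) (hCIR : SpecCIR) (hMEA : SpecMEA) : SpecTHA := by
  intro μ hμ K hK hi R
  have : IsProbabilityMeasure μ := hμ.1
  obtain ⟨hcc, hAm, ⟨CA, hCA⟩, -, -, -, -, hq, -⟩ := hMEA K hK hi
  have hA0 : ∀ S : O3, 0 ≤ area (pr S K) := fun S => (hq S).1.trans (hq S).2
  have hAb : ∀ S : O3, |area (pr S K)| ≤ CA := fun S => by
    rw [abs_of_nonneg (hA0 S)]; exact hCA S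
  have hfin : IsFiniteMeasure ((4 : ℝ≥0∞) • μ) := μ.smul_finite (by norm_num)
  have h1 := hMIX K hK hi ((4 : ℝ≥0∞) • μ) (rho R) inferInstance inferInstance (by
    intro x
    rw [integral_smul_measure, hAVH μ hμ x,
      int_rho R (cont_abs x).measurable ‖x‖ (abs_le' x)]
    have h2 := key hCIR R x
    have h3 : ((4 : ℝ≥0∞).toReal) • (‖x‖ / 2) = 2 * ‖x‖ := by
      simp only [ENNReal.toReal_ofNat, smul_eq_mul]
      ring
    rw [h3]
    exact h2)
  rw [integral_smul_measure, int_rho R hAm CA hAb] at h1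
  refine ⟨?_, (int_nu1 R hAm CA hAb).2, ?_⟩
  · simp only [ENNReal.toReal_ofNat, smul_eq_mul] at h1
    exact h1
  · exact intervalIntegral.integral_nonneg pi_pos.le (fun θ _ => hA0 _)

end Pool.Agent.Lib.MP_084b88_gt.AY
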