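import Pool.Agent.Lib.MP_084b88_gt.AY.SpecV
import Pool.Agent.Lib.MP_084b88_gt.SY.POS
import Pool.Agent.Lib.MP_084b88_gt.SY.HHB
import Pool.Agent.Lib.MP_084b88_gt.SY.HHA

/-!
# MP_084b88_gt, project AY, module TLA: the terms of the two point kernel `TT` for indefinite forms `Q`
-/

set_option autoImplicit false

open MeasureTheory Set Real Filter Topology
open scoped Pointwise InnerProductSpace

namespace Pool.Agent.Lib.MP_084b88_gt.AY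

open Pool.Agent.Lib.MP_084b88_gt.CW Pool.Agent.Lib.MP_084b88_gt.SY Pool.Agent.Lib.MP_084b88_gt.LG

namespace TLM

/-- A binary quadratic form. -/
theorem psd2 {α β γ s t : ℝ} (h0 : 0 ≤ α + γ) (h : (γ - α) ^ 2 + 4 * β ^ 2 ≤ (α + γ) ^ 2) :
    0 ≤ α * s ^ 2 + 2 * β * (s * t) + γ * t ^ 2 := by
  have hR : 0 ≤ s ^ 2 + t ^ 2 := by positivity
  have h1 : ((α - γ) * (s ^ 2 - t ^ 2) + 2 * β * (2 * (s * t))) ^ 2 ≤ ((α + γ) * (s ^ 2 + t ^ 2)) ^ 2 := by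
    have e1 : ((α - γ) * (s ^ 2 - t ^ 2) + 2 * β * (2 * (s * t))) ^ 2 +
        ((α - γ) * (2 * (s * t)) - 2 * β * (s ^ 2 - t ^ 2)) ^ 2 =
        ((γ - α) ^ 2 + 4 * β ^ 2) * (s ^ 2 + t ^ 2) ^ 2 := by ring
    have e2 := mul_le_mul_of_nonneg_right h (sq_nonneg (s ^ 2 + t ^ 2))
    have e3 := sq_nonneg ((α - γ) * (2 * (s * t)) - 2 * β * (s ^ 2 - t ^ 2))
    calc _ ≤ ((γ - α) ^ 2 + 4 * β ^ 2) * (s ^ 2 + t ^ 2) ^ 2 := by linarith
      _ ≤ (α + γ) ^ 2 * (s ^ 2 + t ^ 2) ^ 2 := e2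
      _ = _ := by ring
  have h2 := abs_le_of_sq_le_sq h1 (mul_nonneg h0 hR)
  have h3 := neg_le_of_abs_le h2
  nlinarith

/-- The termwise inequality. `H = h_{2j}`, `N1 = N_{2j}(a,b)/(2j)`, `N2 = N_{2j}(b,a)/(2j)`, `K = h_{2j+1}`. -/
theorem core {lam s0 κ E G H N1 N2 K rc rs x1 x2 y1 y2 : ℝ}
    (hH : 0 ≤ H) (hN : N1 + N2 = H) (hD : (N2 - N1) ^ 2 ≤ E * H ^ 2) (hK : K ^ 2 ≤ G * H ^ 2)
    (hs0 : 0 ≤ s0) (hl : 0 ≤ lam) (hl2 : lam ≤ 2)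
    (h1 : (1 + κ) ^ 2 * E + lam ^ 2 * G ≤ (2 + s0 - lam) ^ 2)
    (h2 : (4 / 5 - κ) ^ 2 * E + (4 / 5 * lam) ^ 2 * G ≤ (1 / 5 + s0 + 4 / 5 * lam) ^ 2)
    (h3 : κ ^ 2 * E ≤ 1)
    (hrc : -1 ≤ rc) (hrc' : rc ≤ 4 / 5) (hrs : -1 ≤ rs) (hrs' : rs ≤ 4 / 5)
    (hx : x1 ^ 2 + x2 ^ 2 ≤ 1) (hy : y1 ^ 2 + y2 ^ 2 ≤ 1) :
    -(s0 * H) ≤ H - ((rc * x1 ^ 2 + rs * x2 ^ 2) * N1 + (rc * y1 ^ 2 + rs * y2 ^ 2) * N2) +
      lam / 2 * (((rc * x1 ^ 2 + rs * x2 ^ 2) + (rc * y1 ^ 2 + rs * y2 ^ 2)) * H -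
        2 * (rc * (x1 * y1) + rs * (x2 * y2)) * K) := by
  have hH2 : 0 ≤ H ^ 2 := sq_nonneg H
  -- d1, d2
  have hd : |κ * (N2 - N1)| ≤ H := by
    apply abs_le_of_sq_le_sq _ hH
    calc (κ * (N2 - N1)) ^ 2 = κ ^ 2 * (N2 - N1) ^ 2 := by ring
      _ ≤ κ ^ 2 * (E * H ^ 2) := mul_le_mul_of_nonneg_left hD (sq_nonneg _)
      _ = (κ ^ 2 * E) * H ^ 2 := by ring
      _ ≤ 1 * H ^ 2 := mul_le_mul_of_nonneg_right h3 hH2
      _ = H ^ 2 := one_mul _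
  rw [abs_le] at hd
  set d1 : ℝ := (1 + s0) / 2 * H - κ / 2 * (N2 - N1) with hd1
  set d2 : ℝ := (1 + s0) / 2 * H + κ / 2 * (N2 - N1) with hd2
  have hsH : 0 ≤ s0 * H := mul_nonneg hs0 hH
  have p1 : 0 ≤ d1 := by
    have : d1 = (H - κ * (N2 - N1)) / 2 + s0 * H / 2 := by rw [hd1]; ring
    linarith [hd.2]
  have p2 : 0 ≤ d2 := by
    have : d2 = (H + κ * (N2 - N1)) / 2 + s0 * H / 2 := by rw [hd2]; ring
    linarith [hd.1]
  have hlH : 0 ≤ (2 + s0 - lam) * H := mul_nonneg (by linarith) hH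
  have hlH' : 0 ≤ (1 / 5 + s0 + 4 / 5 * lam) * H := mul_nonneg (by linarith) hH
  -- the two extreme forms
  have f1 : ∀ s t : ℝ, 0 ≤ d1 * s ^ 2 + d2 * t ^ 2 + (N1 * s ^ 2 + N2 * t ^ 2) -
      lam / 2 * H * (s ^ 2 + t ^ 2) + lam * K * (s * t) := by
    intro s t
    have h := psd2 (α := d1 + N1 - lam / 2 * H) (β := lam * K / 2) (γ := d2 + N2 - lam / 2 * H)
      (s := s) (t := t) (by
        have : d1 + N1 - lam / 2 * H + (d2 + N2 - lam / 2 * H) = (2 + s0 - lam) * H := by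
          rw [hd1, hd2]; linear_combination hN
        rw [this]; exact hlH) (by
        have e1 : d1 + N1 - lam / 2 * H + (d2 + N2 - lam / 2 * H) = (2 + s0 - lam) * H := by
          rw [hd1, hd2]; linear_combination hN
        have e2 : d2 + N2 - lam / 2 * H - (d1 + N1 - lam / 2 * H) = (1 + κ) * (N2 - N1) := by
          rw [hd1, hd2]; ring
        rw [e1, e2]
        calc ((1 + κ) * (N2 - N1)) ^ 2 + 4 * (lam * K / 2) ^ 2 =
            (1 + κ) ^ 2 * (N2 - N1) ^ 2 + lam ^ 2 * K ^ 2 := by ring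
          _ ≤ (1 + κ) ^ 2 * (E * H ^ 2) + lam ^ 2 * (G * H ^ 2) :=
              add_le_add (mul_le_mul_of_nonneg_left hD (sq_nonneg _))
                (mul_le_mul_of_nonneg_left hK (sq_nonneg _))
          _ = ((1 + κ) ^ 2 * E + lam ^ 2 * G) * H ^ 2 := by ring
          _ ≤ (2 + s0 - lam) ^ 2 * H ^ 2 := mul_le_mul_of_nonneg_right h1 hH2
          _ = _ := by ring)
    linarith
  have f2 : ∀ s t : ℝ, 0 ≤ d1 * s ^ 2 + d2 * t ^ 2 - 4 / 5 * ((N1 * s ^ 2 + N2 * t ^ 2) -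
      lam / 2 * H * (s ^ 2 + t ^ 2) + lam * K * (s * t)) := by
    intro s t
    have h := psd2 (α := d1 - 4 / 5 * (N1 - lam / 2 * H)) (β := -(4 / 5 * lam * K / 2))
      (γ := d2 - 4 / 5 * (N2 - lam / 2 * H)) (s := s) (t := t) (by
        have : d1 - 4 / 5 * (N1 - lam / 2 * H) + (d2 - 4 / 5 * (N2 - lam / 2 * H)) =
            (1 / 5 + s0 + 4 / 5 * lam) * H := by
          rw [hd1, hd2]; linear_combination (-(4 / 5 : ℝ)) * hN
        rw [this]; exact hlH') (by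
        have e1 : d1 - 4 / 5 * (N1 - lam / 2 * H) + (d2 - 4 / 5 * (N2 - lam / 2 * H)) =
            (1 / 5 + s0 + 4 / 5 * lam) * H := by
          rw [hd1, hd2]; linear_combination (-(4 / 5 : ℝ)) * hN
        have e2 : d2 - 4 / 5 * (N2 - lam / 2 * H) - (d1 - 4 / 5 * (N1 - lam / 2 * H)) =
            -((4 / 5 - κ) * (N2 - N1)) := by
          rw [hd1, hd2]; ring
        rw [e1, e2]
        calc (-((4 / 5 - κ) * (N2 - N1))) ^ 2 + 4 * (-(4 / 5 * lam * K / 2)) ^ 2 =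
            (4 / 5 - κ) ^ 2 * (N2 - N1) ^ 2 + (4 / 5 * lam) ^ 2 * K ^ 2 := by ring
          _ ≤ (4 / 5 - κ) ^ 2 * (E * H ^ 2) + (4 / 5 * lam) ^ 2 * (G * H ^ 2) :=
              add_le_add (mul_le_mul_of_nonneg_left hD (sq_nonneg _))
                (mul_le_mul_of_nonneg_left hK (sq_nonneg _))
          _ = ((4 / 5 - κ) ^ 2 * E + (4 / 5 * lam) ^ 2 * G) * H ^ 2 := by ring
          _ ≤ (1 / 5 + s0 + 4 / 5 * lam) ^ 2 * H ^ 2 := mul_le_mul_of_nonneg_right h2 hH2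
          _ = _ := by ring)
    linarith
  -- all r
  have f3 : ∀ r s t : ℝ, -1 ≤ r → r ≤ 4 / 5 → 0 ≤ d1 * s ^ 2 + d2 * t ^ 2 -
      r * ((N1 * s ^ 2 + N2 * t ^ 2) - lam / 2 * H * (s ^ 2 + t ^ 2) + lam * K * (s * t)) := by
    intro r s t hr hr'
    have g1 := f1 s t
    have g2 := f2 s t
    set Y := (N1 * s ^ 2 + N2 * t ^ 2) - lam / 2 * H * (s ^ 2 + t ^ 2) + lam * K * (s * t) with hY
    set X := d1 * s ^ 2 + d2 * t ^ 2 with hX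
    have g1' : 0 ≤ X + Y := by rw [hX, hY]; linarith
    have g2' : 0 ≤ X - 4 / 5 * Y := by rw [hX, hY]; linarith
    have g3 := mul_nonneg (by linarith : (0 : ℝ) ≤ 4 / 5 - r) g1'
    have g4 := mul_nonneg (by linarith : (0 : ℝ) ≤ 1 + r) g2'
    nlinarith
  have g1 := f3 rc x1 y1 hrc hrc'
  have g2 := f3 rs x2 y2 hrs hrs'
  have g3 := mul_nonneg p1 (by linarith : (0 : ℝ) ≤ 1 - (x1 ^ 2 + x2 ^ 2))
  have g4 := mul_nonneg p2 (by linarith : (0 : ℝ) ≤ 1 - (y1 ^ 2 + y2 ^ 2))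
  have g5 : d1 + d2 = (1 + s0) * H := by rw [hd1, hd2]; ring
  nlinarith

/-! ### Bounds of `N_n` and `h_{n+1}` -/

theorem hh_abs (n : ℕ) {a b : ℝ} (ha : |a| ≤ 1) (hb : |b| ≤ 1) : |hh n a b| ≤ (n : ℝ) + 1 := by
  unfold hh
  refine (Finset.abs_sum_le_sum_abs _ _).trans ?_
  have h1 : ∀ i ∈ Finset.range (n + 1), |a ^ i * b ^ (n - i)| ≤ 1 := by
    intro i _
    rw [abs_mul, abs_pow, abs_pow]
    exact mul_le_one₀ (pow_le_one₀ (abs_nonneg _) ha) (by positivity) (pow_le_one₀ (abs_nonneg _) hb)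
  refine (Finset.sum_le_sum h1).trans ?_
  simp

/-- ratio of consecutive `h`, nonnegative arguments -/
theorem hh_ratio_pos (n : ℕ) {a b : ℝ} (ha : 0 ≤ a) (hab : a ≤ b) (hb : b ≤ 1) :
    ((n : ℝ) + 1) * hh (n + 1) a b ≤ ((n : ℝ) + 2) * hh n a b := by
  have hb0 : 0 ≤ b := ha.trans hab
  have h1 : ((n : ℝ) + 1) * a ^ (n + 1) ≤ b * hh n a b := by
    unfold hh
    rw [Finset.mul_sum]
    have : ∑ i ∈ Finset.range (n + 1), a ^ (n + 1) = ((n : ℝ) + 1) * a ^ (n + 1) := by simp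
    rw [← this]
    refine Finset.sum_le_sum fun i hi => ?_
    have hi' := Finset.mem_range.1 hi
    calc a ^ (n + 1) = a * (a ^ i * a ^ (n - i)) := by
          rw [← pow_add, show i + (n - i) = n by omega, pow_succ]; ring
      _ ≤ b * (a ^ i * b ^ (n - i)) := by
          apply mul_le_mul hab _ (by positivity) hb0
          exact mul_le_mul_of_nonneg_left (pow_le_pow_left₀ ha hab _) (by positivity)
  have h2 : 0 ≤ hh n a b := by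
    unfold hh
    exact Finset.sum_nonneg fun i _ => by positivity
  have h3 : b * hh n a b ≤ hh n a b := by nlinarith
  rw [HHAM.hh_succ]
  have h4 : 0 ≤ (n : ℝ) := Nat.cast_nonneg n
  nlinarith

theorem hh_ratio (n : ℕ) {a b : ℝ} (ha : 0 ≤ a) (hb0 : 0 ≤ b) (ha1 : a ≤ 1) (hb : b ≤ 1) :
    ((n : ℝ) + 1) * hh (n + 1) a b ≤ ((n : ℝ) + 2) * hh n a b := by
  rcases le_total a b with h | h
  · exact hh_ratio_pos n ha h hb
  · have := hh_ratio_pos n hb0 h ha1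
    rwa [HHAM.three (n + 1) a b, HHAM.three n a b] at this

theorem ratio_even (hA : SpecHHA) (j : ℕ) {a b : ℝ} (ha : |a| ≤ 1) (hb : |b| ≤ 1) (hab : 0 ≤ a * b) :
    (2 * (j : ℝ) + 1) * |hh (2 * j + 1) a b| ≤ (2 * (j : ℝ) + 2) * hh (2 * j) a b := by
  rw [abs_le] at ha hb
  have key : ∀ x y : ℝ, 0 ≤ x → 0 ≤ y → x ≤ 1 → y ≤ 1 →
      (2 * (j : ℝ) + 1) * |hh (2 * j + 1) x y| ≤ (2 * (j : ℝ) + 2) * hh (2 * j) x y := by
    intro x y hx hy hx1 hy1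
    have h1 := hh_ratio (2 * j) hx hy hx1 hy1
    have h2 : 0 ≤ hh (2 * j + 1) x y := by
      unfold hh
      exact Finset.sum_nonneg fun i _ => by positivity
    rw [abs_of_nonneg h2]
    push_cast at h1
    exact h1
  rcases mul_nonneg_iff.1 hab with h | h
  · exact key a b h.1 h.2 ha.2 hb.2
  · have h1 := key (-a) (-b) (by linarith) (by linarith) (by linarith) (by linarith)
    have h2 := hA.2.2.2.2 j a b
    rw [h2.1, h2.2.2, abs_neg] at h1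
    exact h1

/-- sharp form of HHB (5) -/
theorem opp_nn (hA : SpecHHA) (j : ℕ) (a r : ℝ) (ha : 0 ≤ a) (hr : 0 ≤ r) :
    -(NN (2 * j + 2) a (-r)) ≤ 1 / 2 * hh (2 * j + 2) a (-r) := by
  have hh0 : 0 ≤ hh (2 * j + 2) a (-r) := HHBM.nonneg_even hA (j + 1) a (-r)
  have hj : (0 : ℝ) ≤ j := Nat.cast_nonneg j
  rcases eq_or_lt_of_le (add_nonneg ha hr) with h | h
  · have ha0 : a = 0 := by linarith
    have hr0 : r = 0 := by linarith
    subst ha0 hr0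
    rw [neg_zero, HHBM.nn_zero] at *
    rw [neg_zero]
    positivity
  · have h0 := hA.1 (2 * j + 2) a (-r)
    have h1 := hA.2.1 (2 * j + 2) a (-r)
    have hodd : Odd (2 * j + 2 + 1) := ⟨j + 1, by ring⟩
    rw [hodd.neg_pow, sub_neg_eq_add, sub_neg_eq_add] at h0
    rw [sub_neg_eq_add] at h1
    push_cast at h1
    have hp : 0 ≤ a ^ (2 * j + 2 + 1) := by positivity
    have goal : (a + r) * -(NN (2 * j + 2) a (-r)) ≤
        (a + r) * (1 / 2 * hh (2 * j + 2) a (-r)) := by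
      have e1 : (a + r) * -(NN (2 * j + 2) a (-r)) =
          a * hh (2 * j + 2) a (-r) - (2 * (j : ℝ) + 2 + 1) * a ^ (2 * j + 2 + 1) := by
        linarith
      rw [e1]
      rcases le_or_gt a r with har | har
      · have h2 : a * hh (2 * j + 2) a (-r) ≤ (a + r) / 2 * hh (2 * j + 2) a (-r) :=
          mul_le_mul_of_nonneg_right (by linarith) hh0
        have h3 : 0 ≤ (2 * (j : ℝ) + 2 + 1) * a ^ (2 * j + 2 + 1) := by positivity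
        nlinarith
      · have h2 : r ^ (2 * j + 2 + 1) ≤ a ^ (2 * j + 2 + 1) :=
          pow_le_pow_left₀ hr har.le _
        have h3 : a * hh (2 * j + 2) a (-r) ≤ (a + r) * hh (2 * j + 2) a (-r) :=
          mul_le_mul_of_nonneg_right (by linarith) hh0
        have h4 : 0 ≤ (a + r) * (1 / 2 * hh (2 * j + 2) a (-r)) := by positivity
        have h5 : 0 ≤ (j : ℝ) * a ^ (2 * j + 2 + 1) := by positivity
        nlinarith
    exact le_of_mul_le_mul_left goal h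

theorem nn_sharp (hA : SpecHHA) (j : ℕ) {a b : ℝ} (hab : a * b ≤ 0) :
    -(NN (2 * j + 2) a b) ≤ 1 / 2 * hh (2 * j + 2) a b := by
  rcases mul_nonpos_iff.1 hab with h | h
  · have := opp_nn hA j a (-b) h.1 (by linarith)
    rwa [neg_neg] at this
  · have h1 := opp_nn hA j (-a) b (by linarith) h.2
    have h2 := hA.2.2.2.2 (j + 1) a b
    have h3 : 2 * (j + 1) = 2 * j + 2 := by ring
    rw [h3] at h2
    rw [h2.1, h2.2.1] at h1
    exact h1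

/-- the case `n = 6` -/
theorem nn_six (a b : ℝ) : -(NN 6 a b) ≤ 147 / 500 * hh 6 a b := by
  have e1 : NN 6 a b = a * b ^ 5 + 2 * a ^ 2 * b ^ 4 + 3 * a ^ 3 * b ^ 3 + 4 * a ^ 4 * b ^ 2 +
      5 * a ^ 5 * b + 6 * a ^ 6 := by
    simp [NN, Finset.sum_range_succ]
    ring
  have e2 : hh 6 a b = b ^ 6 + a * b ^ 5 + a ^ 2 * b ^ 4 + a ^ 3 * b ^ 3 + a ^ 4 * b ^ 2 +
      a ^ 5 * b + a ^ 6 := by
    simp [hh, Finset.sum_range_succ]
  have e3 : 147 / 500 * hh 6 a b + NN 6 a b =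
      147 / 500 * (b ^ 3 + 647 / 294 * (a * b ^ 2)) ^ 2 +
      255827 / 294000 * (a * b ^ 2 + 484218 / 255827 * (a ^ 2 * b)) ^ 2 +
      75253523 / 63956750 * (a ^ 2 * b + 677174069 / 301014092 * a ^ 3) ^ 2 +
      20420586881 / 60202818400 * (a ^ 3) ^ 2 := by
    rw [e1, e2]
    ring
  have e4 : 0 ≤ 147 / 500 * hh 6 a b + NN 6 a b := by
    rw [e3]
    positivity
  linarith

/-! ### The terms -/

/-- `F_{j}/w_j`, `j = i + 1`. -/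
noncomputable def Fq (i : ℕ) (a b p q : ℝ) : ℝ :=
  hh (2 * i + 2) a b - (p * NN (2 * i + 2) a b + q * NN (2 * i + 2) b a) / (2 * ((i : ℝ) + 1))

/-- `G_j/w_j`. -/
noncomputable def Gq (j : ℕ) (a b p q c : ℝ) : ℝ :=
  ((p + q) * hh (2 * j) a b - 2 * c * hh (2 * j + 1) a b) / 2

/-- `-s0 h ≤ F + lam G`. -/
theorem term (hA : SpecHHA) (i : ℕ) {lam s0 κ E G a b rc rs x1 x2 y1 y2 : ℝ}
    (hD : ((NN (2 * i + 2) b a - NN (2 * i + 2) a b) / (2 * ((i : ℝ) + 1))) ^ 2 ≤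
      E * hh (2 * i + 2) a b ^ 2)
    (hK : hh (2 * i + 3) a b ^ 2 ≤ G * hh (2 * i + 2) a b ^ 2)
    (hs0 : 0 ≤ s0) (hl : 0 ≤ lam) (hl2 : lam ≤ 2)
    (h1 : (1 + κ) ^ 2 * E + lam ^ 2 * G ≤ (2 + s0 - lam) ^ 2)
    (h2 : (4 / 5 - κ) ^ 2 * E + (4 / 5 * lam) ^ 2 * G ≤ (1 / 5 + s0 + 4 / 5 * lam) ^ 2)
    (h3 : κ ^ 2 * E ≤ 1)
    (hrc : -1 ≤ rc) (hrc' : rc ≤ 4 / 5) (hrs : -1 ≤ rs) (hrs' : rs ≤ 4 / 5)
    (hx : x1 ^ 2 + x2 ^ 2 ≤ 1) (hy : y1 ^ 2 + y2 ^ 2 ≤ 1) :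
    -(s0 * hh (2 * i + 2) a b) ≤ Fq i a b (rc * x1 ^ 2 + rs * x2 ^ 2) (rc * y1 ^ 2 + rs * y2 ^ 2) +
      lam * Gq (i + 1) a b (rc * x1 ^ 2 + rs * x2 ^ 2) (rc * y1 ^ 2 + rs * y2 ^ 2)
        (rc * (x1 * y1) + rs * (x2 * y2)) := by
  have hH : 0 ≤ hh (2 * i + 2) a b := HHBM.nonneg_even hA (i + 1) a b
  have hi : (0 : ℝ) < 2 * ((i : ℝ) + 1) := by positivity
  have hN : NN (2 * i + 2) a b / (2 * ((i : ℝ) + 1)) + NN (2 * i + 2) b a / (2 * ((i : ℝ) + 1)) =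
      hh (2 * i + 2) a b := by
    rw [← add_div, div_eq_iff hi.ne', hA.2.2.2.1]
    push_cast
    ring
  have h := core (N1 := NN (2 * i + 2) a b / (2 * ((i : ℝ) + 1)))
    (N2 := NN (2 * i + 2) b a / (2 * ((i : ℝ) + 1))) (K := hh (2 * i + 3) a b) hH hN
    (by rw [← sub_div]; exact hD) hK hs0 hl hl2 h1 h2 h3 hrc hrc' hrs hrs' hx hy
  refine h.trans (le_of_eq ?_)
  unfold Fq Gq
  rw [show 2 * (i + 1) = 2 * i + 2 by ring, show 2 * i + 2 + 1 = 2 * i + 3 by ring]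
  ring

/-- bound of the difference from the bounds of `-N` -/
theorem diff_bound (hA : SpecHHA) (i : ℕ) {δ a b : ℝ}
    (h1 : -(NN (2 * i + 2) a b) ≤ δ * (2 * ((i : ℝ) + 1)) * hh (2 * i + 2) a b)
    (h2 : -(NN (2 * i + 2) b a) ≤ δ * (2 * ((i : ℝ) + 1)) * hh (2 * i + 2) a b) :
    ((NN (2 * i + 2) b a - NN (2 * i + 2) a b) / (2 * ((i : ℝ) + 1))) ^ 2 ≤
      (1 + 2 * δ) ^ 2 * hh (2 * i + 2) a b ^ 2 := by
  have hH : 0 ≤ hh (2 * i + 2) a b := HHBM.nonneg_even hA (i + 1) a b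
  have hi : (0 : ℝ) < 2 * ((i : ℝ) + 1) := by positivity
  have hs := hA.2.2.2.1 (2 * i + 2) a b
  push_cast at hs
  rw [← mul_pow]
  apply sq_le_sq'
  · rw [le_div_iff₀ hi]
    nlinarith
  · rw [div_le_iff₀ hi]
    nlinarith

end TLM

end Pool.Agent.Lib.MP_084b88_gt.AY
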