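import Pool.Agent.Lib.MP_084b88_gt.AY.TLA
import Pool.Agent.Lib.MP_084b88_gt.AY.SMT

/-!
# MP_084b88_gt, project AY, module TLM: a minorant of the tail `∑_{k ≥ 3} c_k μ_{k+1} TT_{k+1}` for forms `Q` with `-1 ≤ Q ≤ 4/5`
-/

set_option autoImplicit false

open MeasureTheory Set Real Filter Topology
open scoped Pointwise InnerProductSpace

namespace Pool.Agent.Lib.MP_084b88_gt.AY

open Pool.Agent.Lib.MP_084b88_gt.CW Pool.Agent.Lib.MP_084b88_gt.SY Pool.Agent.Lib.MP_084b88_gt.LG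

namespace TLM

/-! ### The weights `u_k = tcf k μ_{k+1}` -/

noncomputable def uu (k : ℕ) : ℝ := tcf k * mu (k + 1)

theorem mu_succ (k : ℕ) : mu (k + 1) = mu k * ((2 * (k : ℝ) + 1) / (2 * (k : ℝ) + 4)) := by
  have h1 := POSM.ww_pos k
  unfold mu
  rw [POSM.ww_succ]
  push_cast
  have h2 : (0 : ℝ) ≤ k := Nat.cast_nonneg k
  field_simp
  ring

theorem mu_pos (k : ℕ) : 0 < mu k := by
  have h1 := POSM.ww_pos k
  unfold mu
  positivity

theorem uu_pos (k : ℕ) : 0 < uu k := mul_pos (SMTM.tcf_pos k) (mu_pos _)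

theorem uu_succ (k : ℕ) : uu (k + 1) =
    uu k * ((2 * (k : ℝ) + 1) * (2 * (k : ℝ) + 3) / (4 * ((k : ℝ) + 2) * ((k : ℝ) + 3))) := by
  unfold uu
  rw [mu_succ, tcf]
  push_cast
  field_simp
  ring

theorem mu_one : mu 1 = 1 / 4 := by
  have : mu 0 = 1 := by simp [mu, ww]
  rw [mu_succ, this]
  norm_num

theorem uu_zero : uu 0 = 1 / 8 := by
  unfold uu
  rw [tcf, zero_add, mu_one]
  norm_num

theorem uu_one : uu 1 = 1 / 64 := by
  rw [uu_succ, uu_zero]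
  norm_num

theorem uu_two : uu 2 = 5 / 1024 := by
  rw [uu_succ 1, uu_one]
  norm_num

theorem uu_three : uu 3 = 35 / 16384 := by
  rw [uu_succ 2, uu_two]
  norm_num

/-- `A_n`. -/
noncomputable def An (n : ℕ) : ℝ := ∑ k ∈ Finset.Ico 3 n, uu k

/-- `B_n`. -/
noncomputable def Bn (n : ℕ) : ℝ := ∑ k ∈ Finset.Ico 3 n, uu k / ((k : ℝ) + 2)

/-- Gosper sum. -/
theorem gosper (n : ℕ) (hn : 3 ≤ n) :
    8 / 3 * An n - Bn n = 20 / 3 * uu 3 - 4 / 3 * (((n : ℝ) + 2) * uu n) := by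
  induction n, hn using Nat.le_induction with
  | base =>
    simp only [An, Bn, Finset.Ico_self, Finset.sum_empty]
    push_cast
    ring
  | succ n hn ih =>
    have e1 : An (n + 1) = An n + uu n := by
      unfold An
      rw [Finset.sum_Ico_succ_top hn]
    have e2 : Bn (n + 1) = Bn n + uu n / ((n : ℝ) + 2) := by
      unfold Bn
      rw [Finset.sum_Ico_succ_top hn]
    rw [e1, e2, uu_succ n]
    push_cast
    have h2 : (0 : ℝ) < (n : ℝ) + 2 := by positivity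
    have h3 : (0 : ℝ) < (n : ℝ) + 3 := by positivity
    have e3 : 8 / 3 * uu n - uu n / ((n : ℝ) + 2) = 4 / 3 * (((n : ℝ) + 2) * uu n) -
        4 / 3 * (((n : ℝ) + 1 + 2) * (uu n * ((2 * (n : ℝ) + 1) * (2 * (n : ℝ) + 3) /
          (4 * ((n : ℝ) + 2) * ((n : ℝ) + 3))))) := by
      field_simp
      ring
    linear_combination ih + e3

/-- decay -/
theorem decay (n : ℕ) (hn : 3 ≤ n) : ((n : ℝ) + 2) ^ 2 * uu n ≤ 25 * uu 3 := by
  induction n, hn using Nat.le_induction with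
  | base =>
    push_cast
    norm_num
  | succ n hn ih =>
    refine le_trans ?_ ih
    rw [uu_succ n]
    push_cast
    have hn0 : (0 : ℝ) ≤ n := Nat.cast_nonneg n
    have h0 := uu_pos n
    have e : ((n : ℝ) + 1 + 2) ^ 2 * (uu n * ((2 * (n : ℝ) + 1) * (2 * (n : ℝ) + 3) /
        (4 * ((n : ℝ) + 2) * ((n : ℝ) + 3)))) =
        uu n * (((n : ℝ) + 3) * ((2 * (n : ℝ) + 1) * (2 * (n : ℝ) + 3)) / (4 * ((n : ℝ) + 2))) := by
      field_simp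
      ring
    rw [e, mul_comm (((n : ℝ) + 2) ^ 2)]
    apply mul_le_mul_of_nonneg_left _ h0.le
    rw [div_le_iff₀ (by positivity)]
    nlinarith [mul_nonneg hn0 hn0]

theorem uu_small (ε : ℝ) (hε : 0 < ε) : ∃ N1 : ℕ, ∀ n : ℕ, N1 ≤ n → ((n : ℝ) + 2) * uu n ≤ ε := by
  obtain ⟨m, hm⟩ := exists_nat_ge (25 * uu 3 / ε)
  refine ⟨max 3 m, fun n hn => ?_⟩
  have h1 := decay n (le_trans (le_max_left _ _) hn)
  have h2 : (m : ℝ) ≤ n := by exact_mod_cast le_trans (le_max_right _ _) hn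
  have h3 : 25 * uu 3 ≤ ε * ((n : ℝ) + 2) := by
    rw [div_le_iff₀ hε] at hm
    nlinarith
  have h4 : (0 : ℝ) < (n : ℝ) + 2 := by positivity
  have h5 : ((n : ℝ) + 2) * (((n : ℝ) + 2) * uu n) ≤ ((n : ℝ) + 2) * ε := by nlinarith
  exact le_of_mul_le_mul_left h5 h4

/-- Ratio of the sums, `j ≥ 6`. -/
theorem ratio (i n : ℕ) (hi : 5 ≤ i) (hn : i ≤ n) :
    ∑ k ∈ Finset.Ico i n, uu k * (((k : ℝ) - i) / ((k : ℝ) + 2)) ≤
      32 / 81 * ∑ k ∈ Finset.Ico i n, uu k := by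
  have key : 32 / 81 * (((n : ℝ) - i) * uu n) ≤
      32 / 81 * (∑ k ∈ Finset.Ico i n, uu k) -
        ∑ k ∈ Finset.Ico i n, uu k * (((k : ℝ) - i) / ((k : ℝ) + 2)) := by
    induction n, hn using Nat.le_induction with
    | base => simp
    | succ n hn ih =>
      rw [Finset.sum_Ico_succ_top hn, Finset.sum_Ico_succ_top hn]
      have hn0 : (5 : ℝ) ≤ n := by exact_mod_cast hi.trans hn
      have hm : (0 : ℝ) ≤ (n : ℝ) - i := by
        have : (i : ℝ) ≤ n := by exact_mod_cast hn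
        linarith
      have h0 := uu_pos n
      rw [uu_succ n]
      push_cast
      set m : ℝ := (n : ℝ) - i with hmd
      have e1 : (n : ℝ) + 1 - i = m + 1 := by rw [hmd]; ring
      rw [e1]
      have h3 : (0 : ℝ) < (n : ℝ) + 2 := by positivity
      have h4 : (0 : ℝ) < (n : ℝ) + 3 := by positivity
      have h5 : 32 / 81 * ((m + 1) * ((2 * (n : ℝ) + 1) * (2 * (n : ℝ) + 3) /
          (4 * ((n : ℝ) + 2) * ((n : ℝ) + 3)))) ≤ 32 / 81 * m + 32 / 81 - m / ((n : ℝ) + 2) := by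
        have e2 : 32 / 81 * m + 32 / 81 - m / ((n : ℝ) + 2) -
            32 / 81 * ((m + 1) * ((2 * (n : ℝ) + 1) * (2 * (n : ℝ) + 3) /
              (4 * ((n : ℝ) + 2) * ((n : ℝ) + 3)))) =
            (32 * (12 * (n : ℝ) + 21) + 60 * m * ((n : ℝ) - 5)) /
              (81 * (4 * ((n : ℝ) + 2) * ((n : ℝ) + 3))) := by
          field_simp
          ring
        have e3 : 0 ≤ (32 * (12 * (n : ℝ) + 21) + 60 * m * ((n : ℝ) - 5)) /
              (81 * (4 * ((n : ℝ) + 2) * ((n : ℝ) + 3))) := by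
          have : 0 ≤ (n : ℝ) - 5 := by linarith
          positivity
        linarith
      have h6 := mul_le_mul_of_nonneg_left h5 h0.le
      have e4 : uu n * (32 / 81 * ((m + 1) * ((2 * (n : ℝ) + 1) * (2 * (n : ℝ) + 3) /
          (4 * ((n : ℝ) + 2) * ((n : ℝ) + 3))))) = 32 / 81 * ((m + 1) * (uu n * ((2 * (n : ℝ) + 1) * (2 * (n : ℝ) + 3) /
          (4 * ((n : ℝ) + 2) * ((n : ℝ) + 3))))) := by ring
      rw [e4] at h6
      refine h6.trans ?_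
      linarith
  have h1 : (0 : ℝ) ≤ (n : ℝ) - i := by
    have : (i : ℝ) ≤ n := by exact_mod_cast hn
    linarith
  have h2 : 0 ≤ 32 / 81 * (((n : ℝ) - i) * uu n) := by
    have := (uu_pos n).le
    positivity
  linarith

/-! ### Numbers -/

theorem kap_lo9 : (84882636315 : ℝ) / 100000000000 ≤ kap := by
  have h1 := Real.pi_lt_d20
  unfold kap
  rw [div_le_div_iff₀ (by positivity) (by positivity)]
  norm_num at h1 ⊢
  linarith

theorem kap_hi9 : kap ≤ (84882636316 : ℝ) / 100000000000 := by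
  have h1 := Real.pi_gt_d20
  unfold kap
  rw [div_le_div_iff₀ (by positivity) (by positivity)]
  norm_num at h1 ⊢
  linarith

theorem An_eq (n : ℕ) (hn : 3 ≤ n) : An n = (∑ k ∈ Finset.range n, tcf k * mu (k + 1)) - 149 / 1024 := by
  have h1 : ∑ k ∈ Finset.range 3, tcf k * mu (k + 1) = 149 / 1024 := by
    simp only [Finset.sum_range_succ, Finset.sum_range_zero]
    have e0 : tcf 0 * mu (0 + 1) = 1 / 8 := uu_zero
    have e1 : tcf 1 * mu (1 + 1) = 1 / 64 := uu_one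
    have e2 : tcf 2 * mu (2 + 1) = 5 / 1024 := uu_two
    rw [e0, e1, e2]
    norm_num
  have h2 := Finset.sum_range_add_sum_Ico (fun k => tcf k * mu (k + 1)) hn
  unfold An uu
  linarith

theorem nums (hSMT : SpecSMT) : ∃ N1 : ℕ, 3 ≤ N1 ∧ ∀ n : ℕ, N1 ≤ n →
    (56658242 / 10 ^ 10 ≤ An n ∧ An n ≤ 56658245 / 10 ^ 10) ∧
    (8 / 3 * An n - 20 / 3 * uu 3 ≤ Bn n ∧ Bn n ≤ 8 / 3 * An n - 20 / 3 * uu 3 + 1 / 10 ^ 10) := by
  obtain ⟨N0, h0⟩ := hSMT.2 (1 / 10 ^ 10) (by norm_num)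
  obtain ⟨N2, h2⟩ := uu_small (3 / 4 / 10 ^ 10) (by norm_num)
  refine ⟨max 3 (max N0 N2), le_max_left _ _, fun n hn => ?_⟩
  have hn3 : 3 ≤ n := le_trans (le_max_left _ _) hn
  have hn0 : N0 ≤ n := le_trans (le_trans (le_max_left _ _) (le_max_right _ _)) hn
  have hn2 : N2 ≤ n := le_trans (le_trans (le_max_right _ _) (le_max_right _ _)) hn
  have h3 := (h0 n hn0).2
  have h4 := An_eq n hn3
  have h5 := kap_lo9
  have h6 := kap_hi9
  have h7 := gosper n hn3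
  have h8 := h2 n hn2
  have h9 : 0 ≤ ((n : ℝ) + 2) * uu n := by
    have := (uu_pos n).le
    positivity
  rw [abs_le] at h3
  have h10 : (∑ k ∈ Finset.range n, tcf k * mu (k + 1)) = An n + 149 / 1024 := by linarith
  rw [h10] at h3
  norm_num at h3 h5 h6 h8 ⊢
  refine ⟨⟨by linarith [h3.1], by linarith [h3.2]⟩, by linarith, by linarith⟩

/-! ### The sums -/

theorem T1_eq (k : ℕ) (a b p q c : ℝ) : T1 (k + 1) 1 a b p q c =
    ((k : ℝ) + 1) / ((k : ℝ) + 2) * Gq 0 a b p q c +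
      ∑ i ∈ Finset.range (k + 1), (ww (i + 1) * Fq i a b p q +
        ((k : ℝ) - i) / ((k : ℝ) + 2) * (ww (i + 1) * Gq (i + 1) a b p q c)) := by
  have hk : (0 : ℝ) < (k : ℝ) + 2 := by positivity
  unfold T1
  rw [Finset.sum_add_distrib]
  have e1 : ∑ j ∈ Finset.range (k + 1), ((((k + 1 : ℕ) : ℝ) - j) / (2 * (((k + 1 : ℕ) : ℝ) + 1)) * ww j *
      ((p + q) * hh (2 * j) a b - 2 * c * hh (2 * j + 1) a b)) =
      ((k : ℝ) + 1) / ((k : ℝ) + 2) * Gq 0 a b p q c + ∑ i ∈ Finset.range (k + 1),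
        (((k : ℝ) - i) / ((k : ℝ) + 2) * (ww (i + 1) * Gq (i + 1) a b p q c)) := by
    rw [Finset.sum_range_succ', Finset.sum_range_succ _ k]
    have e0 : ((k : ℝ) - (k : ℕ)) / ((k : ℝ) + 2) * (ww (k + 1) * Gq (k + 1) a b p q c) = 0 := by
      simp
    rw [e0, add_zero, add_comm]
    congr 1
    · unfold Gq
      have : ww 0 = 1 := by simp [ww]
      rw [this]
      push_cast
      have h2 : (k : ℝ) + 1 + 1 ≠ 0 := by positivity
      field_simp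
      ring
    · refine Finset.sum_congr rfl fun i _ => ?_
      unfold Gq
      push_cast
      have h2 : (k : ℝ) + 1 + 1 ≠ 0 := by positivity
      field_simp
      ring
  rw [e1]
  have e2 : ∑ j ∈ Finset.range (k + 1), ww (j + 1) * (1 * hh (2 * j + 2) a b -
      (p * NN (2 * j + 2) a b + q * NN (2 * j + 2) b a) / (2 * ((j : ℝ) + 1))) =
      ∑ i ∈ Finset.range (k + 1), ww (i + 1) * Fq i a b p q := by
    refine Finset.sum_congr rfl fun i _ => ?_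
    unfold Fq
    rw [one_mul]
  rw [e2]
  ring

theorem sum_eq (n : ℕ) (G : ℝ) (f g : ℕ → ℝ) :
    ∑ k ∈ Finset.Ico 3 n, uu k * (((k : ℝ) + 1) / ((k : ℝ) + 2) * G +
      ∑ i ∈ Finset.range (k + 1), (f i + ((k : ℝ) - i) / ((k : ℝ) + 2) * g i)) =
    (An n - Bn n) * G + (An n * f 0 + (An n - 2 * Bn n) * g 0) +
      (An n * f 1 + (An n - 3 * Bn n) * g 1) +
      ∑ i ∈ Finset.Ico 2 n, ((∑ k ∈ Finset.Ico (max 3 i) n, uu k) * f i +
        (∑ k ∈ Finset.Ico (max 3 i) n, uu k * (((k : ℝ) - i) / ((k : ℝ) + 2))) * g i) := by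
  have h1 : ∀ k ∈ Finset.Ico 3 n, uu k * (((k : ℝ) + 1) / ((k : ℝ) + 2) * G +
      ∑ i ∈ Finset.range (k + 1), (f i + ((k : ℝ) - i) / ((k : ℝ) + 2) * g i)) =
      (uu k * (G + f 0 + g 0 + f 1 + g 1) + uu k / ((k : ℝ) + 2) * (-G - 2 * g 0 - 3 * g 1)) +
      ∑ i ∈ Finset.Ico 2 (k + 1), uu k * (f i + ((k : ℝ) - i) / ((k : ℝ) + 2) * g i) := by
    intro k hk
    have hk3 := (Finset.mem_Ico.1 hk).1
    have hk0 : (0 : ℝ) < (k : ℝ) + 2 := by positivity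
    have h2 := Finset.sum_range_add_sum_Ico
      (fun i : ℕ => f i + ((k : ℝ) - i) / ((k : ℝ) + 2) * g i) (show 2 ≤ k + 1 by omega)
    rw [← h2, ← Finset.mul_sum]
    simp only [Finset.sum_range_succ, Finset.sum_range_zero]
    push_cast
    field_simp
    ring
  rw [Finset.sum_congr rfl h1, Finset.sum_add_distrib, Finset.sum_add_distrib,
    ← Finset.sum_mul, ← Finset.sum_mul]
  have h3 : ∑ k ∈ Finset.Ico 3 n, ∑ i ∈ Finset.Ico 2 (k + 1),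
      uu k * (f i + ((k : ℝ) - i) / ((k : ℝ) + 2) * g i) =
      ∑ i ∈ Finset.Ico 2 n, ∑ k ∈ Finset.Ico (max 3 i) n,
        uu k * (f i + ((k : ℝ) - i) / ((k : ℝ) + 2) * g i) := by
    apply Finset.sum_comm'
    intro x y
    simp only [Finset.mem_Ico]
    omega
  rw [h3]
  have h4 : ∀ i ∈ Finset.Ico 2 n, ∑ k ∈ Finset.Ico (max 3 i) n,
        uu k * (f i + ((k : ℝ) - i) / ((k : ℝ) + 2) * g i) =
      (∑ k ∈ Finset.Ico (max 3 i) n, uu k) * f i +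
        (∑ k ∈ Finset.Ico (max 3 i) n, uu k * (((k : ℝ) - i) / ((k : ℝ) + 2))) * g i := by
    intro i _
    rw [Finset.sum_mul, Finset.sum_mul, ← Finset.sum_add_distrib]
    refine Finset.sum_congr rfl fun k _ => ?_
    ring
  rw [Finset.sum_congr rfl h4]
  unfold An Bn
  ring

/-! ### The terms `i ≥ 2` -/

/-- The data of a term. -/
structure Dp (a b rc rs x1 x2 y1 y2 : ℝ) : Prop where
  ha : |a| ≤ 1
  hb : |b| ≤ 1
  hrc : -1 ≤ rc
  hrc' : rc ≤ 4 / 5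
  hrs : -1 ≤ rs
  hrs' : rs ≤ 4 / 5
  hx : x1 ^ 2 + x2 ^ 2 ≤ 1
  hy : y1 ^ 2 + y2 ^ 2 ≤ 1

theorem term_pos (hA : SpecHHA) (hB : SpecHHB) (i : ℕ) (hi : 2 ≤ i) {lam κ a b rc rs x1 x2 y1 y2 : ℝ}
    (h : Dp a b rc rs x1 x2 y1 y2) (hab : 0 ≤ a * b) (hl : 0 ≤ lam) (hl2 : lam ≤ 2)
    (h1 : (1 + κ) ^ 2 + lam ^ 2 * (64 / 49) ≤ (2 - lam) ^ 2)
    (h2 : (4 / 5 - κ) ^ 2 + (4 / 5 * lam) ^ 2 * (64 / 49) ≤ (1 / 5 + 4 / 5 * lam) ^ 2)
    (h3 : κ ^ 2 ≤ 1) :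
    0 ≤ Fq i a b (rc * x1 ^ 2 + rs * x2 ^ 2) (rc * y1 ^ 2 + rs * y2 ^ 2) +
      lam * Gq (i + 1) a b (rc * x1 ^ 2 + rs * x2 ^ 2) (rc * y1 ^ 2 + rs * y2 ^ 2)
        (rc * (x1 * y1) + rs * (x2 * y2)) := by
  have hH : 0 ≤ hh (2 * i + 2) a b := HHBM.nonneg_even hA (i + 1) a b
  have n1 := hB.2.1 i a b hab
  have n2 := hB.2.1 i b a (by rw [mul_comm]; exact hab)
  have hD := diff_bound hA i (δ := 0) (a := a) (b := b) (by linarith) (by linarith)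
  have hK : hh (2 * i + 3) a b ^ 2 ≤ 64 / 49 * hh (2 * i + 2) a b ^ 2 := by
    have h4 := ratio_even hA (i + 1) h.ha h.hb hab
    rw [show 2 * (i + 1) + 1 = 2 * i + 3 by ring, show 2 * (i + 1) = 2 * i + 2 by ring] at h4
    push_cast at h4
    have hi2 : (2 : ℝ) ≤ i := by exact_mod_cast hi
    have h5 : |hh (2 * i + 3) a b| ≤ 8 / 7 * hh (2 * i + 2) a b := by
      have h6 : (2 * ((i : ℝ) + 1) + 2) * hh (2 * i + 2) a b ≤
          (2 * ((i : ℝ) + 1) + 1) * (8 / 7 * hh (2 * i + 2) a b) := by nlinarith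
      exact le_of_mul_le_mul_left (h4.trans h6) (by positivity)
    have h7 := pow_le_pow_left₀ (abs_nonneg _) h5 2
    rw [sq_abs] at h7
    calc _ ≤ _ := h7
      _ = _ := by ring
  have := term hA i (lam := lam) (s0 := 0) (κ := κ) hD hK le_rfl hl hl2 (by simpa using h1)
    (by simpa using h2) (by simpa using h3) h.hrc h.hrc' h.hrs h.hrs' h.hx h.hy
  simpa using this

theorem term_neg (hA : SpecHHA) (hB : SpecHHB) (i : ℕ) {δ lam s0 κ a b rc rs x1 x2 y1 y2 : ℝ}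
    (h : Dp a b rc rs x1 x2 y1 y2) (hab : a * b ≤ 0) (hs : 0 ≤ s0) (hl : 0 ≤ lam) (hl2 : lam ≤ 2)
    (hd1 : -(NN (2 * i + 2) a b) ≤ δ * (2 * ((i : ℝ) + 1)) * hh (2 * i + 2) a b)
    (hd2 : -(NN (2 * i + 2) b a) ≤ δ * (2 * ((i : ℝ) + 1)) * hh (2 * i + 2) a b)
    (h1 : (1 + κ) ^ 2 * (1 + 2 * δ) ^ 2 + lam ^ 2 ≤ (2 + s0 - lam) ^ 2)
    (h2 : (4 / 5 - κ) ^ 2 * (1 + 2 * δ) ^ 2 + (4 / 5 * lam) ^ 2 ≤ (1 / 5 + s0 + 4 / 5 * lam) ^ 2)
    (h3 : κ ^ 2 * (1 + 2 * δ) ^ 2 ≤ 1) :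
    -(s0 * hh (2 * i + 2) a b) ≤ Fq i a b (rc * x1 ^ 2 + rs * x2 ^ 2) (rc * y1 ^ 2 + rs * y2 ^ 2) +
      lam * Gq (i + 1) a b (rc * x1 ^ 2 + rs * x2 ^ 2) (rc * y1 ^ 2 + rs * y2 ^ 2)
        (rc * (x1 * y1) + rs * (x2 * y2)) := by
  have hD := diff_bound hA i hd1 hd2
  have hK : hh (2 * i + 3) a b ^ 2 ≤ 1 * hh (2 * i + 2) a b ^ 2 := by
    have h4 := hB.2.2.2.1 (i + 1) a b h.ha h.hb hab
    rw [show 2 * (i + 1) + 1 = 2 * i + 3 by ring, show 2 * (i + 1) = 2 * i + 2 by ring] at h4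
    have h7 := pow_le_pow_left₀ (abs_nonneg _) h4 2
    rw [sq_abs] at h7
    linarith
  exact term hA i hD hK hs hl hl2 (by simpa using h1) (by simpa using h2) h3 h.hrc h.hrc' h.hrs h.hrs'
    h.hx h.hy

/-- crude bound of `-N` -/
theorem crude (hA : SpecHHA) (i : ℕ) {δ a b : ℝ} (hab : a * b ≤ 0) (hδ : 1 ≤ δ * (4 * ((i : ℝ) + 1))) :
    -(NN (2 * i + 2) a b) ≤ δ * (2 * ((i : ℝ) + 1)) * hh (2 * i + 2) a b ∧
    -(NN (2 * i + 2) b a) ≤ δ * (2 * ((i : ℝ) + 1)) * hh (2 * i + 2) a b := by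
  have hH : 0 ≤ hh (2 * i + 2) a b := HHBM.nonneg_even hA (i + 1) a b
  have h1 := nn_sharp hA i hab
  have h2 := nn_sharp hA i (a := b) (b := a) (by rw [mul_comm]; exact hab)
  rw [hA.2.2.1 (2 * i + 2) a b] at h2
  have h3 : 1 / 2 * hh (2 * i + 2) a b ≤ δ * (2 * ((i : ℝ) + 1)) * hh (2 * i + 2) a b :=
    mul_le_mul_of_nonneg_right (by linarith) hH
  exact ⟨h1.trans h3, h2.trans h3⟩

/-- `F ≥ 0` -/
theorem tF (hA : SpecHHA) (hB : SpecHHB) (i : ℕ) (hi : 2 ≤ i) {a b rc rs x1 x2 y1 y2 : ℝ}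
    (h : Dp a b rc rs x1 x2 y1 y2) :
    0 ≤ Fq i a b (rc * x1 ^ 2 + rs * x2 ^ 2) (rc * y1 ^ 2 + rs * y2 ^ 2) := by
  rcases le_total (a * b) 0 with hab | hab
  · have hi2 : (2 : ℝ) ≤ i := by exact_mod_cast hi
    obtain ⟨c1, c2⟩ := crude hA i (δ := 1 / 12) hab (by linarith)
    have := term_neg hA hB i (lam := 0) (s0 := 0) (κ := 7 / 10) h hab le_rfl le_rfl (by norm_num) c1 c2
      (by norm_num) (by norm_num) (by norm_num)
    simpa using this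
  · have := term_pos hA hB i hi (lam := 0) (κ := 7 / 10) h hab le_rfl (by norm_num)
      (by norm_num) (by norm_num) (by norm_num)
    simpa using this

/-- `F + lam G ≥ 0`, `i ≥ 3` -/
theorem tG (hA : SpecHHA) (hB : SpecHHB) (i : ℕ) (hi : 2 ≤ i) {δ lam κ a b rc rs x1 x2 y1 y2 : ℝ}
    (h : Dp a b rc rs x1 x2 y1 y2) (hl : 0 ≤ lam) (hl2 : lam ≤ 2)
    (hδ : 1 ≤ δ * (4 * ((i : ℝ) + 1)))
    (h1 : (1 + κ) ^ 2 * (1 + 2 * δ) ^ 2 + lam ^ 2 ≤ (2 - lam) ^ 2)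
    (h2 : (4 / 5 - κ) ^ 2 * (1 + 2 * δ) ^ 2 + (4 / 5 * lam) ^ 2 ≤ (1 / 5 + 4 / 5 * lam) ^ 2)
    (h3 : κ ^ 2 * (1 + 2 * δ) ^ 2 ≤ 1)
    (h1' : (3 / 2) ^ 2 + lam ^ 2 * (64 / 49) ≤ (2 - lam) ^ 2)
    (h2' : (3 / 10) ^ 2 + (4 / 5 * lam) ^ 2 * (64 / 49) ≤ (1 / 5 + 4 / 5 * lam) ^ 2) :
    0 ≤ Fq i a b (rc * x1 ^ 2 + rs * x2 ^ 2) (rc * y1 ^ 2 + rs * y2 ^ 2) +
      lam * Gq (i + 1) a b (rc * x1 ^ 2 + rs * x2 ^ 2) (rc * y1 ^ 2 + rs * y2 ^ 2)
        (rc * (x1 * y1) + rs * (x2 * y2)) := by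
  rcases le_total (a * b) 0 with hab | hab
  · obtain ⟨c1, c2⟩ := crude hA i hab hδ
    have := term_neg hA hB i (lam := lam) (s0 := 0) (κ := κ) h hab le_rfl hl hl2 c1 c2
      (by simpa using h1) (by simpa using h2) h3
    simpa using this
  · exact term_pos hA hB i hi (lam := lam) (κ := 1 / 2) h hab hl hl2
      (by norm_num at h1' ⊢; exact h1') (by norm_num at h2' ⊢; exact h2') (by norm_num)

/-- `F + lam G ≥ -s0 h6`, `i = 2` -/
theorem tG2 (hA : SpecHHA) (hB : SpecHHB) {a b rc rs x1 x2 y1 y2 : ℝ}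
    (h : Dp a b rc rs x1 x2 y1 y2) :
    -(1 / 250 * hh 6 a b) ≤ Fq 2 a b (rc * x1 ^ 2 + rs * x2 ^ 2) (rc * y1 ^ 2 + rs * y2 ^ 2) +
      97 / 250 * Gq 3 a b (rc * x1 ^ 2 + rs * x2 ^ 2) (rc * y1 ^ 2 + rs * y2 ^ 2)
        (rc * (x1 * y1) + rs * (x2 * y2)) := by
  rcases le_total (a * b) 0 with hab | hab
  · have e1 := nn_six a b
    have e2 := nn_six b a
    rw [hA.2.2.1 6 a b] at e2
    exact term_neg hA hB 2 (δ := 49 / 1000) (lam := 97 / 250) (s0 := 1 / 250) (κ := 107 / 250) h hab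
      (by norm_num) (by norm_num) (by norm_num) (by push_cast; norm_num; linarith)
      (by push_cast; norm_num; linarith) (by norm_num) (by norm_num) (by norm_num)
  · have h1 := term_pos hA hB 2 le_rfl (lam := 97 / 250) (κ := 1 / 2) h hab (by norm_num) (by norm_num)
      (by norm_num) (by norm_num) (by norm_num)
    have h2 : 0 ≤ hh 6 a b := HHBM.nonneg_even hA 3 a b
    have h3 : 0 ≤ 1 / 250 * hh 6 a b := by positivity
    exact le_trans (by linarith) h1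

/-- combination -/
theorem comb {W V lam s H f g : ℝ} (hV : 0 ≤ V) (hVW : V ≤ lam * W) (hl : 0 < lam) (hs : 0 ≤ s)
    (hH : 0 ≤ H) (hf : 0 ≤ f) (hg : -(s * H) ≤ f + lam * g) : -(W * (s * H)) ≤ W * f + V * g := by
  have h1 : 0 ≤ (lam * W - V) * f := mul_nonneg (by linarith) hf
  have h2 : V * -(s * H) ≤ V * (f + lam * g) := mul_le_mul_of_nonneg_left hg hV
  have h3 : V * (s * H) ≤ lam * W * (s * H) := mul_le_mul_of_nonneg_right hVW (mul_nonneg hs hH)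
  have h4 : lam * -(W * (s * H)) ≤ lam * (W * f + V * g) := by nlinarith
  exact le_of_mul_le_mul_left h4 hl

theorem V_eq (n i : ℕ) :
    ∑ k ∈ Finset.Ico 3 n, uu k * (((k : ℝ) - i) / ((k : ℝ) + 2)) = An n - ((i : ℝ) + 2) * Bn n := by
  unfold An Bn
  rw [Finset.mul_sum, ← Finset.sum_sub_distrib]
  refine Finset.sum_congr rfl fun k _ => ?_
  have hk0 : (0 : ℝ) < (k : ℝ) + 2 := by positivity
  field_simp
  ring

theorem V_nonneg (n i m : ℕ) (hm : i ≤ m) :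
    0 ≤ ∑ k ∈ Finset.Ico m n, uu k * (((k : ℝ) - i) / ((k : ℝ) + 2)) := by
  refine Finset.sum_nonneg fun k hk => ?_
  have h1 : (i : ℝ) ≤ k := by exact_mod_cast hm.trans (Finset.mem_Ico.1 hk).1
  have h2 : 0 ≤ (k : ℝ) - i := by linarith
  exact mul_nonneg (uu_pos k).le (div_nonneg h2 (by positivity))

theorem W_nonneg (n m : ℕ) : 0 ≤ ∑ k ∈ Finset.Ico m n, uu k :=
  Finset.sum_nonneg fun k _ => (uu_pos k).le

/-- the terms `i ≥ 3` are nonnegative -/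
theorem rest_ge3 (hA : SpecHHA) (hB : SpecHHB) (n i : ℕ) (hi : 3 ≤ i) (hin : i < n)
    (hn1 : 56658 / 10 ^ 7 ≤ An n) (hn2 : 8 / 3 * An n - 20 / 3 * uu 3 ≤ Bn n)
    {a b rc rs x1 x2 y1 y2 : ℝ} (h : Dp a b rc rs x1 x2 y1 y2) :
    0 ≤ (∑ k ∈ Finset.Ico (max 3 i) n, uu k) *
        Fq i a b (rc * x1 ^ 2 + rs * x2 ^ 2) (rc * y1 ^ 2 + rs * y2 ^ 2) +
      (∑ k ∈ Finset.Ico (max 3 i) n, uu k * (((k : ℝ) - i) / ((k : ℝ) + 2))) *
        Gq (i + 1) a b (rc * x1 ^ 2 + rs * x2 ^ 2) (rc * y1 ^ 2 + rs * y2 ^ 2)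
          (rc * (x1 * y1) + rs * (x2 * y2)) := by
  rw [max_eq_right hi]
  have hF := tF hA hB i (by omega) h
  have hV := V_nonneg n i i le_rfl
  have hu := uu_three
  have aux : ∀ lam : ℝ, 0 < lam → (∑ k ∈ Finset.Ico i n, uu k * (((k : ℝ) - i) / ((k : ℝ) + 2)) ≤
      lam * ∑ k ∈ Finset.Ico i n, uu k) →
      0 ≤ Fq i a b (rc * x1 ^ 2 + rs * x2 ^ 2) (rc * y1 ^ 2 + rs * y2 ^ 2) +
      lam * Gq (i + 1) a b (rc * x1 ^ 2 + rs * x2 ^ 2) (rc * y1 ^ 2 + rs * y2 ^ 2)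
        (rc * (x1 * y1) + rs * (x2 * y2)) → 
      0 ≤ (∑ k ∈ Finset.Ico i n, uu k) *
        Fq i a b (rc * x1 ^ 2 + rs * x2 ^ 2) (rc * y1 ^ 2 + rs * y2 ^ 2) +
      (∑ k ∈ Finset.Ico i n, uu k * (((k : ℝ) - i) / ((k : ℝ) + 2))) *
        Gq (i + 1) a b (rc * x1 ^ 2 + rs * x2 ^ 2) (rc * y1 ^ 2 + rs * y2 ^ 2)
          (rc * (x1 * y1) + rs * (x2 * y2)) := by
    intro lam hl hVW hG
    have := comb (s := 0) (H := 0) hV hVW hl le_rfl le_rfl hF (by simpa using hG)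
    simpa using this
  rcases Nat.lt_or_ge i 5 with h5 | h5
  · interval_cases i
    · apply aux (47 / 200) (by norm_num)
      · rw [V_eq n 3]
        have : ∑ k ∈ Finset.Ico 3 n, uu k = An n := rfl
        rw [this]
        push_cast
        rw [hu] at hn2
        norm_num at hn1 hn2 ⊢
        linarith
      · exact tG hA hB 3 (by norm_num) (δ := 1 / 16) (κ := 13 / 25) h (by norm_num) (by norm_num)
          (by push_cast; norm_num) (by norm_num) (by norm_num) (by norm_num) (by norm_num) (by norm_num)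
    · apply aux (13 / 50) (by norm_num)
      · have e1 := V_eq n 4
        rw [Finset.sum_eq_sum_Ico_succ_bot (by omega : 3 < n)] at e1
        have e2 : An n = uu 3 + ∑ k ∈ Finset.Ico (3 + 1) n, uu k := by
          unfold An
          rw [Finset.sum_eq_sum_Ico_succ_bot (by omega : 3 < n)]
        rw [show 3 + 1 = 4 by norm_num] at e1 e2
        rw [hu] at e1 e2 hn2
        push_cast at e1 ⊢
        norm_num at e1 e2 hn1 hn2 ⊢
        linarith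
      · exact tG hA hB 4 (by norm_num) (δ := 1 / 20) (κ := 13 / 25) h (by norm_num) (by norm_num)
          (by push_cast; norm_num) (by norm_num) (by norm_num) (by norm_num) (by norm_num) (by norm_num)
  · apply aux (32 / 81) (by norm_num) (ratio i n h5 hin.le)
    have hi5 : (5 : ℝ) ≤ i := by exact_mod_cast h5
    exact tG hA hB i (by omega) (δ := 1 / 24) (κ := 43 / 100) h (by norm_num) (by norm_num)
      (by linarith) (by norm_num) (by norm_num) (by norm_num) (by norm_num) (by norm_num)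

/-- `h6 ≤ (7/3) h2` -/
theorem h6_le {a b : ℝ} (hA : SpecHHA) (ha : |a| ≤ 1) (hb : |b| ≤ 1) : hh 6 a b ≤ 7 / 3 * hh 2 a b := by
  have e6 := HHBM.int_eq hA 6 a b
  have e2 := HHBM.int_eq hA 2 a b
  have hi : ∀ n : ℕ, IntervalIntegrable (fun t : ℝ => (t * a + (1 - t) * b) ^ n) volume 0 1 :=
    fun n => Continuous.intervalIntegrable (by fun_prop) _ _
  rw [abs_le] at ha hb
  have h1 : ∫ t in (0 : ℝ)..1, (t * a + (1 - t) * b) ^ 6 ≤ ∫ t in (0 : ℝ)..1, (t * a + (1 - t) * b) ^ 2 := by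
    apply intervalIntegral.integral_mono_on (by norm_num) (hi _) (hi _)
    intro t ht
    set x := t * a + (1 - t) * b with hx
    have hx1 : x ≤ 1 := by
      rw [hx]
      nlinarith [ht.1, ht.2, ha.2, hb.2]
    have hx2 : -1 ≤ x := by
      rw [hx]
      nlinarith [ht.1, ht.2, ha.1, hb.1]
    have h2 : x ^ 2 ≤ 1 := by nlinarith
    have h3 : (x ^ 2) ^ 2 ≤ 1 := pow_le_one₀ (sq_nonneg _) h2
    have h4 := mul_le_mul_of_nonneg_left h3 (sq_nonneg x)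
    calc x ^ 6 = x ^ 2 * (x ^ 2) ^ 2 := by ring
      _ ≤ x ^ 2 * 1 := h4
      _ = x ^ 2 := mul_one _
  rw [← e6, ← e2] at h1
  push_cast at h1
  norm_num at h1
  linarith

theorem ww1 : ww 1 = 2 / 3 := by simp [ww]
theorem ww2 : ww 2 = 8 / 15 := by
  rw [POSM.ww_succ, ww1]
  norm_num
theorem ww3 : ww 3 = 16 / 35 := by
  rw [POSM.ww_succ 2, ww2]
  norm_num

/-- the term `i = 2` -/
theorem rest_ge2 (hA : SpecHHA) (hB : SpecHHB) (n : ℕ)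
    (hn1 : 56658 / 10 ^ 7 ≤ An n) (hn1' : An n ≤ 5665825 / 10 ^ 9)
    (hn2 : 8 / 3 * An n - 20 / 3 * uu 3 ≤ Bn n)
    {a b rc rs x1 x2 y1 y2 : ℝ} (h : Dp a b rc rs x1 x2 y1 y2) :
    -(25 / 10 ^ 6 * hh 2 a b) ≤ (∑ k ∈ Finset.Ico (max 3 2) n, uu k) *
        (ww 3 * Fq 2 a b (rc * x1 ^ 2 + rs * x2 ^ 2) (rc * y1 ^ 2 + rs * y2 ^ 2)) +
      (∑ k ∈ Finset.Ico (max 3 2) n, uu k * (((k : ℝ) - (2 : ℕ)) / ((k : ℝ) + 2))) *
        (ww 3 * Gq 3 a b (rc * x1 ^ 2 + rs * x2 ^ 2) (rc * y1 ^ 2 + rs * y2 ^ 2)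
          (rc * (x1 * y1) + rs * (x2 * y2))) := by
  rw [show max 3 2 = 3 by norm_num]
  have hF := tF hA hB 2 le_rfl h
  have hV := V_nonneg n 2 3 (by norm_num)
  have hu := uu_three
  have h6 : 0 ≤ hh 6 a b := HHBM.nonneg_even hA 3 a b
  have h26 := h6_le hA h.ha h.hb
  have hG := tG2 hA hB h
  have hVW : ∑ k ∈ Finset.Ico 3 n, uu k * (((k : ℝ) - (2 : ℕ)) / ((k : ℝ) + 2)) ≤
      97 / 250 * ∑ k ∈ Finset.Ico 3 n, uu k := by
    rw [V_eq n 2]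
    have : ∑ k ∈ Finset.Ico 3 n, uu k = An n := rfl
    rw [this]
    push_cast
    rw [hu] at hn2
    norm_num at hn1 hn2 ⊢
    linarith
  have hc := comb hV hVW (by norm_num) (by norm_num) h6 hF hG
  have hW : ∑ k ∈ Finset.Ico 3 n, uu k = An n := rfl
  rw [hW] at hc ⊢
  rw [ww3]
  have h2 : 0 ≤ hh 2 a b := HHBM.nonneg_even hA 1 a b
  have hb1 : An n * (1 / 250 * hh 6 a b) ≤ 5665825 / 10 ^ 9 * (1 / 250 * (7 / 3 * hh 2 a b)) := by
    apply mul_le_mul hn1' (by linarith) (by positivity) (by norm_num)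
  have hb2 : 16 / 35 * (5665825 / 10 ^ 9 * (1 / 250 * (7 / 3 * hh 2 a b))) ≤ 25 / 10 ^ 6 * hh 2 a b := by
    norm_num
    nlinarith
  have e : An n * (16 / 35 * Fq 2 a b (rc * x1 ^ 2 + rs * x2 ^ 2) (rc * y1 ^ 2 + rs * y2 ^ 2)) +
      (∑ k ∈ Finset.Ico 3 n, uu k * (((k : ℝ) - (2 : ℕ)) / ((k : ℝ) + 2))) *
        (16 / 35 * Gq 3 a b (rc * x1 ^ 2 + rs * x2 ^ 2) (rc * y1 ^ 2 + rs * y2 ^ 2)
          (rc * (x1 * y1) + rs * (x2 * y2))) = 16 / 35 * (An n * Fq 2 a b (rc * x1 ^ 2 + rs * x2 ^ 2) (rc * y1 ^ 2 + rs * y2 ^ 2) +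
      (∑ k ∈ Finset.Ico 3 n, uu k * (((k : ℝ) - (2 : ℕ)) / ((k : ℝ) + 2))) *
        Gq 3 a b (rc * x1 ^ 2 + rs * x2 ^ 2) (rc * y1 ^ 2 + rs * y2 ^ 2)
          (rc * (x1 * y1) + rs * (x2 * y2))) := by ring
  rw [e]
  linarith

theorem NN_abs (n : ℕ) {a b : ℝ} (ha : |a| ≤ 1) (hb : |b| ≤ 1) :
    |NN n a b| ≤ ∑ i ∈ Finset.range (n + 1), (i : ℝ) := by
  unfold NN
  refine (Finset.abs_sum_le_sum_abs _ _).trans ?_
  refine Finset.sum_le_sum fun i _ => ?_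
  rw [abs_mul, abs_mul, abs_pow, abs_pow, Nat.abs_cast]
  have : |a| ^ i * |b| ^ (n - i) ≤ 1 :=
    mul_le_one₀ (pow_le_one₀ (abs_nonneg _) ha) (by positivity) (pow_le_one₀ (abs_nonneg _) hb)
  calc (i : ℝ) * (|a| ^ i * |b| ^ (n - i)) ≤ i * 1 := mul_le_mul_of_nonneg_left this (Nat.cast_nonneg i)
    _ = i := mul_one _

theorem prod_lb {x y e M : ℝ} (hx : |x| ≤ e) (hy : |y| ≤ M) : -(e * M) ≤ x * y := by
  have h1 : |x * y| ≤ e * M := by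
    rw [abs_mul]
    exact mul_le_mul hx hy (abs_nonneg _) ((abs_nonneg _).trans hx)
  exact neg_le_of_abs_le h1

theorem abs_pm {p x M : ℝ} (hp : |p| ≤ 1) (hx : |x| ≤ M) : |p * x| ≤ M := by
  rw [abs_mul]
  calc |p| * |x| ≤ 1 * |x| := mul_le_mul_of_nonneg_right hp (abs_nonneg _)
    _ ≤ M := by rw [one_mul]; exact hx

/-- The minorant as a function of `a, b, p, q, c`. -/
noncomputable def TLp (a b p q c : ℝ) : ℝ :=
  (a - b) ^ 2 * (56658 / 10 ^ 7 * (2 / 3 * ((a ^ 2 + a * b + b ^ 2) -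
      (p * (a * b + 2 * a ^ 2) + q * (a * b + 2 * b ^ 2)) / 2) +
    8 / 15 * ((a ^ 4 + a ^ 3 * b + a ^ 2 * b ^ 2 + a * b ^ 3 + b ^ 4) -
      (p * (a * b ^ 3 + 2 * a ^ 2 * b ^ 2 + 3 * a ^ 3 * b + 4 * a ^ 4) +
        q * (b * a ^ 3 + 2 * b ^ 2 * a ^ 2 + 3 * b ^ 3 * a + 4 * b ^ 4)) / 4)) +
    47985 / 10 ^ 7 * (1 / 2 * ((p + q) - 2 * c * (a + b))) +
    39312 / 10 ^ 7 * (1 / 3 * ((p + q) * (a ^ 2 + a * b + b ^ 2) -
      2 * c * (a ^ 3 + a ^ 2 * b + a * b ^ 2 + b ^ 3))) +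
    30638 / 10 ^ 7 * (4 / 15 * ((p + q) * (a ^ 4 + a ^ 3 * b + a ^ 2 * b ^ 2 + a * b ^ 3 + b ^ 4) -
      2 * c * (a ^ 5 + a ^ 4 * b + a ^ 3 * b ^ 2 + a ^ 2 * b ^ 3 + a * b ^ 4 + b ^ 5))) -
    10 / 10 ^ 7 - 250 / 10 ^ 7 * (a ^ 2 + a * b + b ^ 2))

/-- The minorant. -/
noncomputable def TLd (rc rs : ℝ) (d : Dt) : ℝ :=
  TLp d.a d.b (rc * d.x1 ^ 2 + rs * d.x2 ^ 2) (rc * d.y1 ^ 2 + rs * d.y2 ^ 2)
    (rc * (d.x1 * d.y1) + rs * (d.x2 * d.y2))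

theorem main (hSMT : SpecSMT) (hA : SpecHHA) (hB : SpecHHB) : ∃ N1 : ℕ, ∀ n : ℕ, N1 ≤ n →
    ∀ a b rc rs x1 x2 y1 y2 : ℝ, Dp a b rc rs x1 x2 y1 y2 →
    TLp a b (rc * x1 ^ 2 + rs * x2 ^ 2) (rc * y1 ^ 2 + rs * y2 ^ 2) (rc * (x1 * y1) + rs * (x2 * y2)) ≤
      ∑ k ∈ Finset.Ico 3 n, tcf k * (mu (k + 1) * TT (k + 1) 1 a b (rc * x1 ^ 2 + rs * x2 ^ 2)
        (rc * y1 ^ 2 + rs * y2 ^ 2) (rc * (x1 * y1) + rs * (x2 * y2))) := by
  obtain ⟨N1, hN3, hN⟩ := nums hSMT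
  refine ⟨N1, fun n hn a b rc rs x1 x2 y1 y2 h => ?_⟩
  obtain ⟨⟨hm1, hm1'⟩, hn2, hn2'⟩ := hN n hn
  have hn1 : 56658 / 10 ^ 7 ≤ An n := le_trans (by norm_num) hm1
  have hn1' : An n ≤ 5665825 / 10 ^ 9 := hm1'.trans (by norm_num)
  have hn3 : 3 ≤ n := hN3.trans hn
  have hp : |rc * x1 ^ 2 + rs * x2 ^ 2| ≤ 1 := by
    have := h.hx
    rw [abs_le]
    constructor
    · nlinarith [mul_nonneg (by linarith [h.hrc] : (0 : ℝ) ≤ rc + 1) (sq_nonneg x1),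
        mul_nonneg (by linarith [h.hrs] : (0 : ℝ) ≤ rs + 1) (sq_nonneg x2)]
    · nlinarith [mul_nonneg (by linarith [h.hrc'] : (0 : ℝ) ≤ 1 - rc) (sq_nonneg x1),
        mul_nonneg (by linarith [h.hrs'] : (0 : ℝ) ≤ 1 - rs) (sq_nonneg x2)]
  have hq : |rc * y1 ^ 2 + rs * y2 ^ 2| ≤ 1 := by
    have := h.hy
    rw [abs_le]
    constructor
    · nlinarith [mul_nonneg (by linarith [h.hrc] : (0 : ℝ) ≤ rc + 1) (sq_nonneg y1),
        mul_nonneg (by linarith [h.hrs] : (0 : ℝ) ≤ rs + 1) (sq_nonneg y2)]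
    · nlinarith [mul_nonneg (by linarith [h.hrc'] : (0 : ℝ) ≤ 1 - rc) (sq_nonneg y1),
        mul_nonneg (by linarith [h.hrs'] : (0 : ℝ) ≤ 1 - rs) (sq_nonneg y2)]
  have hc : |rc * (x1 * y1) + rs * (x2 * y2)| ≤ 1 := by
    have hrc1 : |rc| ≤ 1 := by rw [abs_le]; exact ⟨h.hrc, by linarith [h.hrc']⟩
    have hrs1 : |rs| ≤ 1 := by rw [abs_le]; exact ⟨h.hrs, by linarith [h.hrs']⟩
    have g1 : |x1 * y1| ≤ (x1 ^ 2 + y1 ^ 2) / 2 := by
      rw [abs_le]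
      constructor <;> nlinarith [sq_nonneg (x1 - y1), sq_nonneg (x1 + y1)]
    have g2 : |x2 * y2| ≤ (x2 ^ 2 + y2 ^ 2) / 2 := by
      rw [abs_le]
      constructor <;> nlinarith [sq_nonneg (x2 - y2), sq_nonneg (x2 + y2)]
    refine (abs_add_le _ _).trans ?_
    have g3 := abs_pm hrc1 g1
    have g4 := abs_pm hrs1 g2
    linarith [h.hx, h.hy]
  set p := rc * x1 ^ 2 + rs * x2 ^ 2 with hpd
  set q := rc * y1 ^ 2 + rs * y2 ^ 2 with hqd
  set c := rc * (x1 * y1) + rs * (x2 * y2) with hcd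
  -- the sum
  have e1 : ∑ k ∈ Finset.Ico 3 n, tcf k * (mu (k + 1) * TT (k + 1) 1 a b p q c) =
      (a - b) ^ 2 * ∑ k ∈ Finset.Ico 3 n, uu k * (((k : ℝ) + 1) / ((k : ℝ) + 2) * Gq 0 a b p q c +
      ∑ i ∈ Finset.range (k + 1), (ww (i + 1) * Fq i a b p q +
        ((k : ℝ) - i) / ((k : ℝ) + 2) * (ww (i + 1) * Gq (i + 1) a b p q c))) := by
    rw [Finset.mul_sum]
    refine Finset.sum_congr rfl fun k _ => ?_
    rw [← T1_eq]
    unfold TT uu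
    ring
  rw [e1, sum_eq n (Gq 0 a b p q c) (fun i => ww (i + 1) * Fq i a b p q)
    (fun i => ww (i + 1) * Gq (i + 1) a b p q c)]
  -- the rest
  have hrest : -(25 / 10 ^ 6 * hh 2 a b) ≤ ∑ i ∈ Finset.Ico 2 n,
      ((∑ k ∈ Finset.Ico (max 3 i) n, uu k) * (ww (i + 1) * Fq i a b p q) +
        (∑ k ∈ Finset.Ico (max 3 i) n, uu k * (((k : ℝ) - i) / ((k : ℝ) + 2))) *
          (ww (i + 1) * Gq (i + 1) a b p q c)) := by
    rw [Finset.sum_eq_sum_Ico_succ_bot (by omega : 2 < n)]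
    have r2 := rest_ge2 hA hB n hn1 hn1' hn2 h
    have r3 : 0 ≤ ∑ i ∈ Finset.Ico (2 + 1) n,
        ((∑ k ∈ Finset.Ico (max 3 i) n, uu k) * (ww (i + 1) * Fq i a b p q) +
        (∑ k ∈ Finset.Ico (max 3 i) n, uu k * (((k : ℝ) - i) / ((k : ℝ) + 2))) *
          (ww (i + 1) * Gq (i + 1) a b p q c)) := by
      refine Finset.sum_nonneg fun i hi => ?_
      have hi' := Finset.mem_Ico.1 hi
      have r4 := rest_ge3 hA hB n i hi'.1 hi'.2 hn1 hn2 h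
      have r5 := mul_nonneg (POSM.ww_pos (i + 1)).le r4
      refine le_trans r5 (le_of_eq ?_)
      rw [hpd, hqd, hcd]
      ring
    have r6 := add_le_add r2 r3
    rw [add_zero] at r6
    exact r6
  -- bounds
  have hh2 := hh_abs 2 h.ha h.hb
  have hh3 := hh_abs 3 h.ha h.hb
  have hh4 := hh_abs 4 h.ha h.hb
  have hh5 := hh_abs 5 h.ha h.hb
  have hh1 := hh_abs 1 h.ha h.hb
  have hh0 := hh_abs 0 h.ha h.hb
  have n2 := NN_abs 2 h.ha h.hb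
  have n2' := NN_abs 2 h.hb h.ha
  have n4 := NN_abs 4 h.ha h.hb
  have n4' := NN_abs 4 h.hb h.ha
  simp only [Finset.sum_range_succ, Finset.sum_range_zero] at n2 n2' n4 n4'
  push_cast at hh2 hh3 hh4 hh5 hh1 hh0 n2 n2' n4 n4'
  have bF0 : |ww 1 * Fq 0 a b p q| ≤ 4 := by
    have t1 := abs_le.1 (abs_pm hp n2)
    have t2 := abs_le.1 (abs_pm hq n2')
    have t3 := abs_le.1 hh2
    have e : ww 1 * Fq 0 a b p q = 2 / 3 * hh 2 a b - 1 / 3 * (p * NN 2 a b) - 1 / 3 * (q * NN 2 b a) := by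
      rw [ww1]
      unfold Fq
      norm_num
      ring
    rw [e, abs_le]
    constructor <;> linarith [t1.1, t1.2, t2.1, t2.2, t3.1, t3.2]
  have bF1 : |ww 2 * Fq 1 a b p q| ≤ 16 / 3 := by
    have t1 := abs_le.1 (abs_pm hp n4)
    have t2 := abs_le.1 (abs_pm hq n4')
    have t3 := abs_le.1 hh4
    have e : ww 2 * Fq 1 a b p q = 8 / 15 * hh 4 a b - 2 / 15 * (p * NN 4 a b) -
        2 / 15 * (q * NN 4 b a) := by
      rw [ww2]
      unfold Fq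
      norm_num
      ring
    rw [e, abs_le]
    constructor <;> linarith [t1.1, t1.2, t2.1, t2.2, t3.1, t3.2]
  have bG0 : |Gq 0 a b p q c| ≤ 3 := by
    have t1 := abs_le.1 (abs_pm hp hh0)
    have t2 := abs_le.1 (abs_pm hq hh0)
    have t3 := abs_le.1 (abs_pm hc hh1)
    have e : Gq 0 a b p q c = 1 / 2 * (p * hh 0 a b) + 1 / 2 * (q * hh 0 a b) - c * hh 1 a b := by
      unfold Gq
      norm_num
      ring
    rw [e, abs_le]
    constructor <;> linarith [t1.1, t1.2, t2.1, t2.2, t3.1, t3.2]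
  have bG1 : |ww 1 * Gq 1 a b p q c| ≤ 14 / 3 := by
    have t1 := abs_le.1 (abs_pm hp hh2)
    have t2 := abs_le.1 (abs_pm hq hh2)
    have t3 := abs_le.1 (abs_pm hc hh3)
    have e : ww 1 * Gq 1 a b p q c = 1 / 3 * (p * hh 2 a b) + 1 / 3 * (q * hh 2 a b) -
        2 / 3 * (c * hh 3 a b) := by
      rw [ww1]
      unfold Gq
      norm_num
      ring
    rw [e, abs_le]
    constructor <;> linarith [t1.1, t1.2, t2.1, t2.2, t3.1, t3.2]
  have bG2 : |ww 2 * Gq 2 a b p q c| ≤ 88 / 15 := by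
    have t1 := abs_le.1 (abs_pm hp hh4)
    have t2 := abs_le.1 (abs_pm hq hh4)
    have t3 := abs_le.1 (abs_pm hc hh5)
    have e : ww 2 * Gq 2 a b p q c = 4 / 15 * (p * hh 4 a b) + 4 / 15 * (q * hh 4 a b) -
        8 / 15 * (c * hh 5 a b) := by
      rw [ww2]
      unfold Gq
      norm_num
      ring
    rw [e, abs_le]
    constructor <;> linarith [t1.1, t1.2, t2.1, t2.2, t3.1, t3.2]
  have u3 := uu_three
  rw [u3] at hn2 hn2'
  have dA : |An n - 56658 / 10 ^ 7| ≤ 3 / 10 ^ 8 := by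
    rw [abs_le]
    norm_num at hm1 hm1' ⊢
    constructor <;> linarith
  have d0 : |An n - Bn n - 47985 / 10 ^ 7| ≤ 1 / 10 ^ 8 := by
    rw [abs_le]
    norm_num at hm1 hm1' hn2 hn2' ⊢
    constructor <;> linarith
  have d1 : |An n - 2 * Bn n - 39312 / 10 ^ 7| ≤ 4 / 10 ^ 8 := by
    rw [abs_le]
    norm_num at hm1 hm1' hn2 hn2' ⊢
    constructor <;> linarith
  have d2 : |An n - 3 * Bn n - 30638 / 10 ^ 7| ≤ 4 / 10 ^ 8 := by
    rw [abs_le]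
    norm_num at hm1 hm1' hn2 hn2' ⊢
    constructor <;> linarith
  have m1 := prod_lb dA bF0
  have m2 := prod_lb dA bF1
  have m3 := prod_lb d0 bG0
  have m4 := prod_lb d1 bG1
  have m5 := prod_lb d2 bG2
  -- explicit forms
  have eT : TLp a b p q c = (a - b) ^ 2 * (56658 / 10 ^ 7 * (ww 1 * Fq 0 a b p q + ww 2 * Fq 1 a b p q) +
      47985 / 10 ^ 7 * Gq 0 a b p q c + 39312 / 10 ^ 7 * (ww 1 * Gq 1 a b p q c) +
      30638 / 10 ^ 7 * (ww 2 * Gq 2 a b p q c) - 10 / 10 ^ 7 - 250 / 10 ^ 7 * hh 2 a b) := by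
    have q0 : Fq 0 a b p q = hh 2 a b - (p * NN 2 a b + q * NN 2 b a) / 2 := by
      unfold Fq
      norm_num
    have q1 : Fq 1 a b p q = hh 4 a b - (p * NN 4 a b + q * NN 4 b a) / 4 := by
      unfold Fq
      norm_num
    have g0 : Gq 0 a b p q c = ((p + q) * hh 0 a b - 2 * c * hh 1 a b) / 2 := by
      unfold Gq
      norm_num
    have g1 : Gq 1 a b p q c = ((p + q) * hh 2 a b - 2 * c * hh 3 a b) / 2 := by
      unfold Gq
      norm_num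
    have g2 : Gq 2 a b p q c = ((p + q) * hh 4 a b - 2 * c * hh 5 a b) / 2 := by
      unfold Gq
      norm_num
    have k0 : hh 0 a b = 1 := by simp [hh]
    have k1 : hh 1 a b = a + b := by simp [hh, Finset.sum_range_succ]; ring
    have k2 : hh 2 a b = a ^ 2 + a * b + b ^ 2 := by simp [hh, Finset.sum_range_succ]; ring
    have k3 : hh 3 a b = a ^ 3 + a ^ 2 * b + a * b ^ 2 + b ^ 3 := by
      simp [hh, Finset.sum_range_succ]; ring
    have k4 : hh 4 a b = a ^ 4 + a ^ 3 * b + a ^ 2 * b ^ 2 + a * b ^ 3 + b ^ 4 := by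
      simp [hh, Finset.sum_range_succ]; ring
    have k5 : hh 5 a b = a ^ 5 + a ^ 4 * b + a ^ 3 * b ^ 2 + a ^ 2 * b ^ 3 + a * b ^ 4 + b ^ 5 := by
      simp [hh, Finset.sum_range_succ]; ring
    have l2 : ∀ a b : ℝ, NN 2 a b = a * b + 2 * a ^ 2 := by
      intro a b
      simp [NN, Finset.sum_range_succ]
    have l4 : ∀ a b : ℝ, NN 4 a b = a * b ^ 3 + 2 * a ^ 2 * b ^ 2 + 3 * a ^ 3 * b + 4 * a ^ 4 := by
      intro a b
      simp [NN, Finset.sum_range_succ]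
      ring
    rw [ww1, ww2, q0, q1, g0, g1, g2, k0, k1, k2, k3, k4, k5, l2 a b, l2 b a, l4 a b, l4 b a]
    unfold TLp
    ring
  rw [eT]
  apply mul_le_mul_of_nonneg_left _ (sq_nonneg _)
  norm_num at m1 m2 m3 m4 m5 hrest ⊢
  linarith

/-- **TLM**. -/
theorem tlm (hSMT : SpecSMT) (hA : SpecHHA) (hB : SpecHHB) (rc rs : ℝ) (h1 : -1 ≤ rc)
    (h2 : rc ≤ 4 / 5) (h3 : -1 ≤ rs) (h4 : rs ≤ 4 / 5) :
    ∃ N1 : ℕ, ∀ n : ℕ, N1 ≤ n → ∀ d : Dt, Dom (1 / 3) (1 / 2) 1 d →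
      TLd rc rs d ≤ ∑ k ∈ Finset.Ico 3 n, tcf k * (mu (k + 1) * TTd (k + 1) rc rs d) := by
  obtain ⟨N1, hN⟩ := main hSMT hA hB
  refine ⟨N1, fun n hn d hd => ?_⟩
  exact hN n hn d.a d.b rc rs d.x1 d.x2 d.y1 d.y2
    ⟨by have := hd.ae; have := abs_nonneg d.e; linarith, by have := hd.bf; have := abs_nonneg d.f; linarith,
      h1, h2, h3, h4, hd.x2, hd.y2⟩

end TLM

end Pool.Agent.Lib.MP_084b88_gt.AY
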