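import Pool.Agent.Lib.MP_084b88_gt.AY.SpecV
import Pool.Agent.Lib.MP_084b88_gt.AY.TLM

/-!
# MP_084b88_gt, project AY, module UCB: the cubic upper bound of `√(1-y)` used by the certificates
-/

set_option autoImplicit false

open MeasureTheory Set Real Filter Topology

namespace Pool.Agent.Lib.MP_084b88_gt.AY

open Pool.Agent.Lib.MP_084b88_gt.CW

/-- The cubic. -/
noncomputable def UC (y : ℝ) : ℝ := 10008 / 10000 - 51625 / 100000 * y - 14486 / 1000000 * y ^ 2 - 24545 / 100000 * y ^ 3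

theorem k0_lt : (8488263 : ℝ) / 10 ^ 7 < kap := by
  have h := TLM.kap_lo9
  refine lt_of_lt_of_le ?_ h
  norm_num

namespace UCM

theorem p_nonneg (t : ℝ) (h0 : 0 ≤ t) (h1 : t ≤ 1) : 0 ≤ UC (1 - t ^ 2) - t := by
  rcases le_total t (1 / 2) with g0 | g0
  · have e : UC (1 - t ^ 2) - t = 224614 / 15625 * ((t - 0) ^ 0 * (1 / 2 - t) ^ 6) +
      847684 / 15625 * ((t - 0) ^ 1 * (1 / 2 - t) ^ 5) +
      1189603 / 15625 * ((t - 0) ^ 2 * (1 / 2 - t) ^ 4) +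
      773852 / 15625 * ((t - 0) ^ 3 * (1 / 2 - t) ^ 3) +
      978563 / 62500 * ((t - 0) ^ 4 * (1 / 2 - t) ^ 2) +
      70803 / 31250 * ((t - 0) ^ 5 * (1 / 2 - t) ^ 1) +
      61277 / 500000 * ((t - 0) ^ 6 * (1 / 2 - t) ^ 0) := by
      unfold UC; ring
    have a1 : 0 ≤ t - 0 := by linarith
    have a2 : 0 ≤ 1 / 2 - t := by linarith
    rw [e]; positivity
  rcases le_total t (9 / 16) with g1 | g1
  · have e : UC (1 - t ^ 2) - t = 501981184 / 15625 * ((t - 1 / 2) ^ 0 * (9 / 16 - t) ^ 6) +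
      445667328 / 3125 * ((t - 1 / 2) ^ 1 * (9 / 16 - t) ^ 5) +
      4006643072 / 15625 * ((t - 1 / 2) ^ 2 * (9 / 16 - t) ^ 4) +
      745198912 / 3125 * ((t - 1 / 2) ^ 3 * (9 / 16 - t) ^ 3) +
      1892452294 / 15625 * ((t - 1 / 2) ^ 4 * (9 / 16 - t) ^ 2) +
      8062099 / 250 * ((t - 1 / 2) ^ 5 * (9 / 16 - t) ^ 1) +
      73138781 / 20000 * ((t - 1 / 2) ^ 6 * (9 / 16 - t) ^ 0) := by
      unfold UC; ring
    have a1 : 0 ≤ t - 1 / 2 := by linarith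
    have a2 : 0 ≤ 9 / 16 - t := by linarith
    rw [e]; positivity
  rcases le_total t (5 / 8) with g2 | g2
  · have e : UC (1 - t ^ 2) - t = 73138781 / 20000 * ((t - 9 / 16) ^ 0 * (5 / 8 - t) ^ 6) +
      58174363 / 5000 * ((t - 9 / 16) ^ 1 * (5 / 8 - t) ^ 5) +
      2256166227 / 125000 * ((t - 9 / 16) ^ 2 * (5 / 8 - t) ^ 4) +
      400723917 / 15625 * ((t - 9 / 16) ^ 3 * (5 / 8 - t) ^ 3) +
      945114411 / 31250 * ((t - 9 / 16) ^ 4 * (5 / 8 - t) ^ 2) +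
      305096486 / 15625 * ((t - 9 / 16) ^ 5 * (5 / 8 - t) ^ 1) +
      75901466 / 15625 * ((t - 9 / 16) ^ 6 * (5 / 8 - t) ^ 0) := by
      unfold UC; ring
    have a1 : 0 ≤ t - 9 / 16 := by linarith
    have a2 : 0 ≤ 5 / 8 - t := by linarith
    rw [e]; positivity
  rcases le_total t (3 / 4) with g3 | g3
  · have e : UC (1 - t ^ 2) - t = 37950733 / 500000 * ((t - 5 / 8) ^ 0 * (3 / 4 - t) ^ 6) +
      94504177 / 125000 * ((t - 5 / 8) ^ 1 * (3 / 4 - t) ^ 5) +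
      373004019 / 125000 * ((t - 5 / 8) ^ 2 * (3 / 4 - t) ^ 4) +
      86662167 / 15625 * ((t - 5 / 8) ^ 3 * (3 / 4 - t) ^ 3) +
      162523299 / 31250 * ((t - 5 / 8) ^ 4 * (3 / 4 - t) ^ 2) +
      37204514 / 15625 * ((t - 5 / 8) ^ 5 * (3 / 4 - t) ^ 1) +
      6610426 / 15625 * ((t - 5 / 8) ^ 6 * (3 / 4 - t) ^ 0) := by
      unfold UC; ring
    have a1 : 0 ≤ t - 5 / 8 := by linarith
    have a2 : 0 ≤ 3 / 4 - t := by linarith
    rw [e]; positivity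
  rcases le_total t (7 / 8) with g4 | g4
  · have e : UC (1 - t ^ 2) - t = 6610426 / 15625 * ((t - 3 / 4) ^ 0 * (7 / 8 - t) ^ 6) +
      42120598 / 15625 * ((t - 3 / 4) ^ 1 * (7 / 8 - t) ^ 5) +
      211684139 / 31250 * ((t - 3 / 4) ^ 2 * (7 / 8 - t) ^ 4) +
      132918629 / 15625 * ((t - 3 / 4) ^ 3 * (7 / 8 - t) ^ 3) +
      696585667 / 125000 * ((t - 3 / 4) ^ 4 * (7 / 8 - t) ^ 2) +
      44730303 / 25000 * ((t - 3 / 4) ^ 5 * (7 / 8 - t) ^ 1) +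
      4446461 / 20000 * ((t - 3 / 4) ^ 6 * (7 / 8 - t) ^ 0) := by
      unfold UC; ring
    have a1 : 0 ≤ t - 3 / 4 := by linarith
    have a2 : 0 ≤ 7 / 8 - t := by linarith
    rw [e]; positivity
  rcases le_total t (15 / 16) with g5 | g5
  · have e : UC (1 - t ^ 2) - t = 8892922 / 625 * ((t - 7 / 8) ^ 0 * (15 / 16 - t) ^ 6) +
      221260278 / 3125 * ((t - 7 / 8) ^ 1 * (15 / 16 - t) ^ 5) +
      4374057643 / 31250 * ((t - 7 / 8) ^ 2 * (15 / 16 - t) ^ 4) +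
      2173848497 / 15625 * ((t - 7 / 8) ^ 3 * (15 / 16 - t) ^ 3) +
      9086501819 / 125000 * ((t - 7 / 8) ^ 4 * (15 / 16 - t) ^ 2) +
      2407590023 / 125000 * ((t - 7 / 8) ^ 5 * (15 / 16 - t) ^ 1) +
      1150012037 / 500000 * ((t - 7 / 8) ^ 6 * (15 / 16 - t) ^ 0) := by
      unfold UC; ring
    have a1 : 0 ≤ t - 7 / 8 := by linarith
    have a2 : 0 ≤ 15 / 16 - t := by linarith
    rw [e]; positivity
  have e : UC (1 - t ^ 2) - t = 1150012037 / 500000 * ((t - 15 / 16) ^ 0 * (1 - t) ^ 6) +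
      130305761 / 15625 * ((t - 15 / 16) ^ 1 * (1 - t) ^ 5) +
      282597768 / 15625 * ((t - 15 / 16) ^ 2 * (1 - t) ^ 4) +
      624763392 / 15625 * ((t - 15 / 16) ^ 3 * (1 - t) ^ 3) +
      952633344 / 15625 * ((t - 15 / 16) ^ 4 * (1 - t) ^ 2) +
      29032448 / 625 * ((t - 15 / 16) ^ 5 * (1 - t) ^ 1) +
      8388608 / 625 * ((t - 15 / 16) ^ 6 * (1 - t) ^ 0) := by
      unfold UC; ring
  have a1 : 0 ≤ t - 15 / 16 := by linarith
  have a2 : 0 ≤ 1 - t := by linarith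
  rw [e]; positivity

end UCM

theorem UC_ge : ∀ y ∈ Icc (0 : ℝ) 1, √(1 - y) ≤ UC y := by
  intro y hy
  have h1 : 0 ≤ 1 - y := by linarith [hy.2]
  have h2 : √(1 - y) ≤ 1 := by
    rw [Real.sqrt_le_one]
    linarith [hy.1]
  have h3 := UCM.p_nonneg (√(1 - y)) (Real.sqrt_nonneg _) h2
  rw [Real.sq_sqrt h1] at h3
  have h4 : 1 - (1 - y) = y := by ring
  rw [h4] at h3
  linarith

end Pool.Agent.Lib.MP_084b88_gt.AY
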